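import Pool.Agent.BSR.StA
import Pool.Agent.BSQ.FB

/-!
# BSR, module ACL (helper89): windowed autocorrelations of locally flat functions
-/

set_option autoImplicit false

namespace Pool.Agent.BSR

open Finset MeasureTheory Filter Topology Pool.Agent.BSQ
open scoped BigOperators
open Classical

section acl

variable {P : ℕ} [NeZero P]

omit [NeZero P] in
private theorem acl_div {x H : ℕ} (hH : 1 ≤ H) : x < (x / H + 1) * H := by
  have h1 := Nat.div_add_mod x H
  have h2 := Nat.mod_lt x (show H > 0 by omega)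
  rw [add_mul, one_mul, mul_comm (x / H) H]
  omega

omit [NeZero P] in
private theorem acl_image (I : Finset ℤ) (h : ℤ → ZMod P) (F : ZMod P → ℝ) (hF : ∀ u, 0 ≤ F u) :
    ∑ u ∈ I.image h, F u ≤ ∑ i ∈ I, F (h i) := by
  rw [← sum_fiberwise_of_maps_to (t := I.image h) (g := h)
    (fun i hi => mem_image_of_mem h hi)]
  refine sum_le_sum fun u hu => ?_
  obtain ⟨i, hi, rfl⟩ := mem_image.1 hu
  exact single_le_sum (f := fun i => F (h i)) (fun _ _ => hF _) (mem_filter.2 ⟨hi, rfl⟩)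

/-- sums over the points of a tile -/
private theorem acl_tile {H T : ℕ} (hP : P = H * T) (hH : 1 ≤ H) {β : Type} [AddCommMonoid β]
    (F : ZMod P → β) (t : ℕ) :
    ∑ n ∈ Ico (t * H) ((t + 1) * H), F (n : ZMod P) =
      ∑ u ∈ univ.filter (fun u : ZMod P => tl H u = t % T), F u := by
  have hdiv : ∀ n ∈ Ico (t * H) ((t + 1) * H), n / H = t := by
    intro n hn
    rw [mem_Ico] at hn
    exact Nat.div_eq_of_lt_le hn.1 hn.2
  refine sum_nbij' (fun n => (n : ZMod P)) (fun u => t * H + u.val % H) ?_ ?_ ?_ ?_ ?_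
  · intro n hn
    rw [mem_filter]
    refine ⟨mem_univ _, ?_⟩
    unfold tl
    rw [ZMod.val_natCast]
    conv_lhs => rw [hP]
    rw [Nat.mod_mul_right_div_self, hdiv n hn]
  · intro u _
    rw [mem_Ico, add_mul, one_mul]
    exact ⟨Nat.le_add_right _ _, Nat.add_lt_add_left (Nat.mod_lt _ hH) _⟩
  · intro n hn
    have h1 : (n : ZMod P).val % H = n % H := by
      rw [ZMod.val_natCast]
      conv_lhs => rw [hP]
      rw [Nat.mod_mul_right_mod]
    simp only [h1]
    have h2 := Nat.div_add_mod n H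
    rw [hdiv n hn, mul_comm H t] at h2
    exact h2
  · intro u hu
    rw [mem_filter] at hu
    have h1 : u.val / H = t % T := hu.2
    have h2 := Nat.div_add_mod u.val H
    have h3 := Nat.div_add_mod t T
    rw [h1] at h2
    have h4 : t * H + u.val % H = P * (t / T) + u.val := by
      calc t * H + u.val % H = (T * (t / T) + t % T) * H + u.val % H := by rw [h3]
        _ = H * T * (t / T) + (H * (t % T) + u.val % H) := by ring
        _ = P * (t / T) + u.val := by rw [h2, ← hP]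
    simp only [h4]
    rw [Nat.cast_add, Nat.cast_mul, ZMod.natCast_self, zero_mul, zero_add,
      ZMod.natCast_zmod_val]
  · intro n _
    rfl

/-- a sum over a part of a tile -/
private theorem acl_part {H T : ℕ} (hP : P = H * T) (hH : 1 ≤ H) {f : ZMod P → ℂ}
    (hf : TileE H f) (z : ZMod P) {t x y : ℕ} (hx : t * H ≤ x) (hy : y ≤ (t + 1) * H) :
    ‖∑ n ∈ Ico x y, f (n : ZMod P) * ch (-z) (n : ZMod P)‖ ≤ H := by
  obtain ⟨-, -, -, hch, -⟩ := thm_FB P
  have h1 : ‖∑ n ∈ Ico x y, f (n : ZMod P) * ch (-z) (n : ZMod P)‖ ≤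
      ∑ n ∈ Ico x y, ‖f (n : ZMod P)‖ := by
    refine (norm_sum_le _ _).trans (le_of_eq (sum_congr rfl fun n _ => ?_))
    rw [norm_mul, hch, mul_one]
  refine h1.trans ?_
  have h2 : ∑ n ∈ Ico x y, ‖f (n : ZMod P)‖ ^ 2 ≤ H := by
    calc ∑ n ∈ Ico x y, ‖f (n : ZMod P)‖ ^ 2 ≤
        ∑ n ∈ Ico (t * H) ((t + 1) * H), ‖f (n : ZMod P)‖ ^ 2 :=
          sum_le_sum_of_subset_of_nonneg (Ico_subset_Ico hx hy) fun _ _ _ => by positivity
      _ = ∑ u ∈ univ.filter (fun u : ZMod P => tl H u = t % T), ‖f u‖ ^ 2 :=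
          acl_tile hP hH (fun u => ‖f u‖ ^ 2) t
      _ ≤ H := hf _
  have h3 : (∑ n ∈ Ico x y, ‖f (n : ZMod P)‖) ^ 2 ≤ (H : ℝ) ^ 2 := by
    have h4 := sq_sum_le_card_mul_sum_sq (s := Ico x y) (f := fun n => ‖f (n : ZMod P)‖)
    refine h4.trans ?_
    have h5 : ((Ico x y).card : ℝ) ≤ H := by
      have : (Ico x y).card ≤ H := by
        rw [Nat.card_Ico]
        rw [add_mul, one_mul] at hy
        omega
      exact_mod_cast this
    calc ((Ico x y).card : ℝ) * ∑ n ∈ Ico x y, ‖f (n : ZMod P)‖ ^ 2 ≤ (H : ℝ) * H :=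
          mul_le_mul h5 h2 (sum_nonneg fun _ _ => by positivity) (Nat.cast_nonneg _)
      _ = (H : ℝ) ^ 2 := (sq _).symm
  exact le_trans (le_abs_self _) (abs_le_of_sq_le_sq h3 (Nat.cast_nonneg _))

/-- a sum over full tiles -/
private theorem acl_full {H T : ℕ} (hP : P = H * T) (hH : 1 ≤ H) {f : ZMod P → ℂ} {η : ℝ}
    (hf : FlatL H η f) (z : ZMod P) (s k : ℕ) :
    ‖∑ n ∈ Ico (s * H) ((s + k) * H), f (n : ZMod P) * ch (-z) (n : ZMod P)‖ ≤ k * (η * H) := by
  induction k with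
  | zero => simp
  | succ k ih =>
    rw [← sum_Ico_consecutive _ (Nat.mul_le_mul_right H (Nat.le_add_right s k))
      (Nat.mul_le_mul_right H (show s + k ≤ s + (k + 1) by omega))]
    have h1 : ‖∑ n ∈ Ico ((s + k) * H) ((s + k + 1) * H), f (n : ZMod P) *
        ch (-z) (n : ZMod P)‖ ≤ η * H := by
      rw [acl_tile hP hH (fun u => f u * ch (-z) u) (s + k)]
      exact hf.2 z _
    refine (norm_add_le _ _).trans ((add_le_add ih h1).trans (le_of_eq ?_))
    push_cast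
    ring

/-- a sum over a window of natural numbers -/
private theorem acl_win {H T : ℕ} (hP : P = H * T) (hH : 1 ≤ H) {f : ZMod P → ℂ} {η : ℝ}
    (hη : 0 ≤ η) (hf : FlatL H η f) (z : ZMod P) (x W : ℕ) :
    ‖∑ n ∈ Ico x (x + W), f (n : ZMod P) * ch (-z) (n : ZMod P)‖ ≤ η * W + 2 * H := by
  obtain ⟨a, ha⟩ : ∃ a, a = x / H := ⟨_, rfl⟩
  obtain ⟨e, he⟩ : ∃ e, e = (x + W) / H := ⟨_, rfl⟩
  have ha1 : a * H ≤ x := by
    rw [ha]
    exact Nat.div_mul_le_self x H
  have ha2 : x < (a + 1) * H := by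
    rw [ha]
    exact acl_div hH
  have he1 : e * H ≤ x + W := by
    rw [he]
    exact Nat.div_mul_le_self _ H
  have he2 : x + W < (e + 1) * H := by
    rw [he]
    exact acl_div hH
  have hHR : (0 : ℝ) ≤ H := Nat.cast_nonneg _
  rcases Nat.lt_or_ge a e with h | h
  · obtain ⟨k, hk⟩ : ∃ k, e = a + 1 + k := ⟨e - (a + 1), by omega⟩
    have h1 : x ≤ (a + 1) * H := ha2.le
    have h2 : (a + 1) * H ≤ e * H := Nat.mul_le_mul_right H h
    rw [← sum_Ico_consecutive _ h1 (h2.trans he1), ← sum_Ico_consecutive _ h2 he1]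
    have p1 := acl_part hP hH hf.1 z (t := a) (x := x) (y := (a + 1) * H) ha1 le_rfl
    have p2 := acl_full hP hH hf z (a + 1) k
    rw [← hk] at p2
    have p3 := acl_part hP hH hf.1 z (t := e) (x := e * H) (y := x + W) le_rfl he2.le
    have h3 : (k : ℝ) * H ≤ W := by
      have : k * H ≤ W := by
        have h4 : e * H = (a + 1) * H + k * H := by rw [hk, add_mul]
        omega
      exact_mod_cast this
    have h4 : (k : ℝ) * (η * H) ≤ η * W := by
      calc (k : ℝ) * (η * H) = η * (k * H) := by ring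
        _ ≤ η * W := mul_le_mul_of_nonneg_left h3 hη
    refine (norm_add_le _ _).trans ?_
    have h5 := norm_add_le (∑ n ∈ Ico ((a + 1) * H) (e * H), f (n : ZMod P) *
      ch (-z) (n : ZMod P)) (∑ n ∈ Ico (e * H) (x + W), f (n : ZMod P) * ch (-z) (n : ZMod P))
    linarith
  · have h1 : x + W ≤ (a + 1) * H :=
      he2.le.trans (Nat.mul_le_mul_right H (Nat.succ_le_succ h))
    have p1 := acl_part hP hH hf.1 z (t := a) (x := x) (y := x + W) ha1 h1
    have h2 : 0 ≤ η * W := by positivity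
    linarith

/-- the windowed exponential sum -/
private theorem acl_sum {H T : ℕ} (hP : P = H * T) (hH : 1 ≤ H) {f : ZMod P → ℂ} {η : ℝ}
    (hη : 0 ≤ η) (hf : FlatL H η f) (z v : ZMod P) (W : ℕ) :
    ‖∑ j ∈ range W, f (v + (j : ZMod P)) * ch (-z) (v + (j : ZMod P))‖ ≤ η * W + 2 * H := by
  have h := acl_win hP hH hη hf z v.val W
  rw [sum_Ico_eq_sum_range, Nat.add_sub_cancel_left] at h
  simp only [Nat.cast_add, ZMod.natCast_zmod_val] at h
  exact h

/-- the total energy -/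
private theorem acl_energy {H T : ℕ} (hP : P = H * T) {f : ZMod P → ℂ}
    (hf : TileE H f) : ∑ u : ZMod P, ‖f u‖ ^ 2 ≤ P := by
  have hlt : ∀ u ∈ (univ : Finset (ZMod P)), tl H u ∈ range T := by
    intro u _
    rw [mem_range]
    unfold tl
    apply Nat.div_lt_of_lt_mul
    rw [← hP]
    exact ZMod.val_lt u
  rw [← sum_fiberwise_of_maps_to hlt]
  calc ∑ t ∈ range T, ∑ u ∈ univ.filter (fun u : ZMod P => tl H u = t), ‖f u‖ ^ 2 ≤
      ∑ _t ∈ range T, (H : ℝ) := sum_le_sum fun t _ => hf t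
    _ = P := by
        rw [sum_const, card_range, nsmul_eq_mul, hP]
        push_cast
        ring

/-- one window -/
private theorem acl_one {H T W Λ : ℕ} (hP : P = H * T) (hH : 1 ≤ H) {f : ZMod P → ℂ} {η : ℝ}
    (hη : 0 ≤ η) (hf : FlatL H η f) (b0 v : ZMod P) (hΛ : 2 * Λ + 1 ≤ P) :
    ∑ l ∈ Icc (-(Λ : ℤ)) (Λ : ℤ),
      ‖∑ j ∈ range W, Fl f l (v + (j : ZMod P)) * ch (-b0) (v + (j : ZMod P))‖ ^ 2 ≤
    (η * W + 2 * H) ^ 2 * ∑ i ∈ Ico (-(Λ : ℤ)) ((Λ : ℤ) + W), ‖f (v + (i : ZMod P))‖ ^ 2 := by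
  obtain ⟨-, hadd, hadd2, hch, -, -, -, hFB⟩ := thm_FB P
  obtain ⟨S, hS⟩ : ∃ S : Finset (ZMod P), S = (Ico (-(Λ : ℤ)) ((Λ : ℤ) + W)).image
    (fun i : ℤ => v + (i : ZMod P)) := ⟨_, rfl⟩
  obtain ⟨g, hg⟩ : ∃ g : ZMod P → ℂ, g = fun x => if -x ∈ S then (starRingEnd ℂ) (f (-x)) else 0 :=
    ⟨_, rfl⟩
  have hC : 0 ≤ η * W + 2 * H := by positivity
  have h1 := hFB (range W) (fun j => f (v + (j : ZMod P)) * ch (-b0) (v + (j : ZMod P))) g
    (η * W + 2 * H) hC (fun b => by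
      have h2 : ∑ k ∈ range W, f (v + (k : ZMod P)) * ch (-b0) (v + (k : ZMod P)) *
          ch (-b) (k : ZMod P) = ch b v * ∑ k ∈ range W, f (v + (k : ZMod P)) *
          ch (-(b0 + b)) (v + (k : ZMod P)) := by
        rw [mul_sum]
        refine sum_congr rfl fun k _ => ?_
        have h3 : ch b v * ch (-b) v = 1 := by
          rw [← hadd2, add_neg_cancel]
          unfold ch
          rw [zero_mul, AddChar.map_zero_eq_one]
        rw [neg_add, hadd2, hadd (-b) v]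
        linear_combination -(f (v + (k : ZMod P)) * ch (-b0) (v + (k : ZMod P)) *
          ch (-b) (k : ZMod P)) * h3
      rw [h2, norm_mul, hch, one_mul]
      exact acl_sum hP hH hη hf (b0 + b) v W)
  have h2 : ∑ y : ZMod P, ‖g y‖ ^ 2 ≤
      ∑ i ∈ Ico (-(Λ : ℤ)) ((Λ : ℤ) + W), ‖f (v + (i : ZMod P))‖ ^ 2 := by
    have h3 : ∑ y : ZMod P, ‖g y‖ ^ 2 = ∑ u ∈ S, ‖f u‖ ^ 2 := by
      rw [← Equiv.sum_comp (Equiv.neg (ZMod P)), ← sum_filter_add_sum_filter_not univ (· ∈ S)]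
      rw [hg]
      have h4 : ∑ x ∈ univ.filter (fun x : ZMod P => x ∉ S),
          ‖(fun x => if -x ∈ S then (starRingEnd ℂ) (f (-x)) else 0)
            ((Equiv.neg (ZMod P)) x)‖ ^ 2 = 0 := by
        refine sum_eq_zero fun x hx => ?_
        rw [mem_filter] at hx
        simp only [Equiv.neg_apply, neg_neg]
        rw [if_neg hx.2]
        simp
      rw [h4, add_zero]
      refine sum_congr (by ext x; simp) fun x hx => ?_
      simp only [Equiv.neg_apply, neg_neg]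
      rw [if_pos hx, RCLike.norm_conj]
    rw [h3, hS]
    exact acl_image _ _ _ fun _ => by positivity
  refine le_trans ?_ (h1.trans (mul_le_mul_of_nonneg_left h2 (by positivity)))
  -- the points `-(v + l)`
  have hinj : Set.InjOn (fun l : ℤ => -(v + (l : ZMod P))) (Icc (-(Λ : ℤ)) (Λ : ℤ) : Finset ℤ) := by
    intro l hl l' hl' h
    rw [coe_Icc, Set.mem_Icc] at hl hl'
    have h3 : (l : ZMod P) = (l' : ZMod P) := by
      have := neg_injective h
      exact add_left_cancel this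
    have h4 := (ZMod.intCast_eq_intCast_iff_dvd_sub l l' P).1 h3
    obtain ⟨k, hk⟩ := h4
    have hPZ : (2 * (Λ : ℤ) + 1) ≤ P := by exact_mod_cast hΛ
    have hk0 : k = 0 := by
      by_contra hne
      rcases lt_or_gt_of_ne hne with hlt | hgt
      · have : (P : ℤ) * k ≤ -P := by nlinarith
        omega
      · have : (P : ℤ) ≤ P * k := by nlinarith
        omega
    rw [hk0, mul_zero] at hk
    omega
  calc ∑ l ∈ Icc (-(Λ : ℤ)) (Λ : ℤ),
      ‖∑ j ∈ range W, Fl f l (v + (j : ZMod P)) * ch (-b0) (v + (j : ZMod P))‖ ^ 2 =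
      ∑ l ∈ Icc (-(Λ : ℤ)) (Λ : ℤ), ‖∑ k ∈ range W, f (v + (k : ZMod P)) *
        ch (-b0) (v + (k : ZMod P)) * g (-(v + (l : ZMod P)) - (k : ZMod P))‖ ^ 2 := by
        refine sum_congr rfl fun l hl => ?_
        rw [mem_Icc] at hl
        congr 2
        refine sum_congr rfl fun j hj => ?_
        rw [mem_range] at hj
        have h3 : -(-(v + (l : ZMod P)) - (j : ZMod P)) = v + (j : ZMod P) + (l : ZMod P) := by
          ring
        have h4 : v + (j : ZMod P) + (l : ZMod P) ∈ S := by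
          rw [hS, mem_image]
          refine ⟨(j : ℤ) + l, ?_, ?_⟩
          · rw [mem_Ico]
            omega
          · push_cast
            ring
        rw [hg]
        simp only [h3]
        rw [if_pos h4]
        unfold Fl
        ring
    _ = ∑ y ∈ (Icc (-(Λ : ℤ)) (Λ : ℤ)).image (fun l : ℤ => -(v + (l : ZMod P))),
        ‖∑ k ∈ range W, f (v + (k : ZMod P)) * ch (-b0) (v + (k : ZMod P)) *
          g (y - (k : ZMod P))‖ ^ 2 :=
        (sum_image (f := fun y => ‖∑ k ∈ range W, f (v + (k : ZMod P)) *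
          ch (-b0) (v + (k : ZMod P)) * g (y - (k : ZMod P))‖ ^ 2) hinj).symm
    _ ≤ _ := sum_le_sum_of_subset_of_nonneg (subset_univ _) fun _ _ _ => by positivity

end acl

theorem thm_ACL : St_ACL := by
  intro P H T W Λ _ η f b0 hP hH hW hWΛ hΛP hη hf
  rw [sum_comm]
  have h1 : ∀ v : ZMod P, ∑ l ∈ Icc (-(Λ : ℤ)) (Λ : ℤ),
      ‖∑ j ∈ range W, Fl f l (v + (j : ZMod P)) * ch (-b0) (v + (j : ZMod P))‖ ^ 2 ≤
      (η * W + 2 * H) ^ 2 * ∑ i ∈ Ico (-(Λ : ℤ)) ((Λ : ℤ) + W), ‖f (v + (i : ZMod P))‖ ^ 2 :=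
    fun v => acl_one hP hH hη hf b0 v (by omega)
  refine (sum_le_sum fun v _ => h1 v).trans ?_
  rw [← mul_sum, sum_comm]
  have h2 : ∀ i ∈ Ico (-(Λ : ℤ)) ((Λ : ℤ) + W), ∑ v : ZMod P, ‖f (v + (i : ZMod P))‖ ^ 2 ≤ P := by
    intro i _
    have h3 := Equiv.sum_comp (Equiv.addRight (i : ZMod P)) (fun u => ‖f u‖ ^ 2)
    simp only [Equiv.coe_addRight] at h3
    rw [h3]
    exact acl_energy hP hf.1
  have h3 := sum_le_sum h2
  rw [sum_const, Int.card_Ico, nsmul_eq_mul] at h3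
  have h4 : (((Λ : ℤ) + W - -(Λ : ℤ)).toNat : ℝ) ≤ 3 * Λ := by
    have : ((Λ : ℤ) + W - -(Λ : ℤ)).toNat ≤ 3 * Λ := by omega
    exact_mod_cast this
  calc (η * W + 2 * H) ^ 2 * ∑ i ∈ Ico (-(Λ : ℤ)) ((Λ : ℤ) + W), ∑ v : ZMod P,
        ‖f (v + (i : ZMod P))‖ ^ 2 ≤ (η * W + 2 * H) ^ 2 * (3 * Λ * P) := by
        refine mul_le_mul_of_nonneg_left (h3.trans ?_) (by positivity)
        exact mul_le_mul_of_nonneg_right h4 (Nat.cast_nonneg _)
    _ = 3 * Λ * P * (η * W + 2 * H) ^ 2 := by ring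

end Pool.Agent.BSR
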