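import Pool.Agent.BSR.StC
import Pool.Agent.BSQ.AES

/-!
# BSR, AEN: almost everywhere uniform comparison of strips, short ranges (helper44)
-/

set_option autoImplicit false

namespace Pool.Agent.BSR

open Finset MeasureTheory Filter Topology Pool.Agent.BSQ
open scoped BigOperators
open Classical

theorem thm_AEN (hPWN : St_PWN) (hINT : St_INT) : St_AEN := by
  intro c0 hc0 hc01
  obtain ⟨δ, κ, C, hδ, hκ, hC, hPW⟩ := hPWN (c0 / 2) (by linarith) (by linarith)
  refine ⟨min (δ / 3) (c0 / 2), lt_min (by linarith) (by linarith), ?_⟩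
  intro X _ μ _ T hT f g hf hg hf1 hg1 c1 c2 h1 h12 h2 h3
  have m1 : min (δ / 3) (c0 / 2) ≤ δ / 3 := min_le_left _ _
  have m2 : min (δ / 3) (c0 / 2) ≤ c0 / 2 := min_le_right _ _
  have m3 : 0 < min (δ / 3) (c0 / 2) := lt_min (by linarith) (by linarith)
  set e := min (δ / 3) (c0 / 2) with he
  have hPW' := hPW X μ T hT f g hf hg hf1 hg1 (c1 - e) (c2 + e) (by linarith) (by linarith)
    (by linarith) (by linarith)
  have hall : ∀ᵐ x ∂μ, ∀ l : ℕ, Tendsto (aes_Phi (FT T f g x) (1 / ((l : ℝ) + 1)) (c1 - e)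
      (c2 + e)) atTop (𝓝 0) := by
    rw [ae_all_iff]
    intro l
    exact aes_ae μ T f g hINT hf hg hf1 hg1 _ _ κ C hκ hC hPW' _ (by positivity)
  filter_upwards [hall] with x hx
  exact aes_det hINT _ (aes_FT_le T f g hf1 hg1 x) c1 c2 (c1 - e) (c2 + e) (by linarith)
    (by linarith) h12 (by linarith) (by linarith) hx

end Pool.Agent.BSR
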