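import Pool.Agent.BSR.StB

/-!
# BSR, BADB: few bad points and windows (helper44)
-/

set_option autoImplicit false

namespace Pool.Agent.BSR

open Finset MeasureTheory Filter Topology Pool.Agent.BSQ
open scoped BigOperators
open Classical

theorem thm_BADB (hCBD : St_CBD) (hRES : St_RES) : St_BADB := by
  intro k e
  obtain ⟨CR, hCR⟩ := hRES k
  refine ⟨CR, fun B => ?_⟩
  obtain ⟨L0, hL0⟩ := hCR B
  refine ⟨L0 + 16, fun L hL N M1 M2 P H T H2 s i0 i1 _ δ b0 b1 z z' hSP hN hP hP5 hP16 => ?_⟩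
  have hL1 : 1 ≤ L := by omega
  have hL16 : 16 ≤ L := by omega
  have hpw : ∀ j : ℕ, 1 ≤ L ^ j := fun j => Nat.one_le_pow _ _ hL1
  set Λ := L ^ (2 * e + 5) with hΛ
  have hΛL : L ≤ Λ := Nat.le_self_pow (by omega) L
  -- sizes
  have hH'1 : 1 ≤ H2 * s := by
    have h1 := hSP.hX
    have h2 : 1 ≤ 16 * L ^ (e + 2) * (M2 ^ 2 + N) := by
      have : 0 < 16 * L ^ (e + 2) * (M2 ^ 2 + N) := by
        have := hpw (e + 2)
        positivity
      omega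
    omega
  have hH2 : 1 ≤ H2 := by
    rcases Nat.eq_zero_or_pos H2 with h | h
    · rw [h] at hH'1; omega
    · exact h
  have hle2 : 2 ≤ L ^ (e + 2) := le_trans (by omega) (Nat.le_self_pow (by omega) L)
  have h2H : 2 * (H2 * s) ≤ H := (Nat.mul_le_mul_right _ hle2).trans hSP.hHl
  have hH1 : 1 ≤ H := by omega
  have hHR : (0 : ℝ) < H := by exact_mod_cast hH1
  have hM1 : 1 ≤ M1 := by
    have h1 := hSP.hM1
    have h2 : 1 ≤ (L ^ (e + 2)) ^ 4 := Nat.one_le_pow _ _ (hpw _)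
    omega
  have hM1R : (0 : ℝ) < M1 := by exact_mod_cast hM1
  have hLR : (0 : ℝ) < L := by exact_mod_cast hL1
  have hH2R : (0 : ℝ) < H2 := by exact_mod_cast hH2
  have hb0 : 0 < b0 := by rw [hSP.hb0]; positivity
  have hb1 : 0 < b1 := lt_of_lt_of_le hb0 hSP.r1
  have hcast : ((i0 * (H2 * s) : ℕ) : ℝ) = (i0 : ℝ) * (H2 * s) := by push_cast; ring
  have hQΛ : 16 * (L ^ (e + 2)) ^ 2 ≤ Λ := by
    calc 16 * (L ^ (e + 2)) ^ 2 = 16 * L ^ (2 * e + 4) := by ring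
      _ ≤ L * L ^ (2 * e + 4) := Nat.mul_le_mul_right _ hL16
      _ = Λ := by rw [hΛ]; ring
  have c1 : b1 * H ≤ δ * Real.sqrt ((i0 * (H2 * s) : ℕ) : ℝ) := by
    rw [hcast]; exact hSP.c1
  have h1 := hCBD P H T (H2 * s) i0 i1 (16 * (L ^ (e + 2)) ^ 2) N Λ z z' b0 b1 δ hP hH'1 h2H hSP.hi1
    hP5 hP16 hSP.hHi hSP.h48 hSP.hδ hb1.le c1
  have hΛR : ((Λ : ℕ) : ℝ) = (L : ℝ) ^ (2 * e + 5) := by rw [hΛ]; push_cast; ring
  have h3T : ((3 * T : ℕ) : ℝ) = 3 * (T : ℝ) := by push_cast; ring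
  have h2 := hL0 Λ (3 * T) (16 * (L ^ (e + 2)) ^ 2) (Real.sqrt (2 * H)) b0 b1 (2 * δ)
    (fun t => ((z (t % T)).val : ℝ) / P) (fun t => ((z' (t % T)).val : ℝ) / P)
    (by omega) hQΛ (Real.sqrt_pos.2 (by positivity)) hb0 hSP.r1 hSP.r2 (by linarith [hSP.hδ])
    (by rw [hΛR]; exact hSP.r7) (by rw [hΛR]; exact hSP.r8)
    (by rw [h3T]; exact hSP.r3) (by rw [h3T, hΛR]; exact hSP.r4)
    (by rw [h3T, hΛR]; exact hSP.r5) (by rw [hΛ]; exact hSP.r6)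
  refine h1.trans ?_
  have h3 : (0 : ℝ) ≤ (H : ℝ) ^ 2 / ((H2 * s : ℕ) : ℝ) := by positivity
  refine (mul_le_mul_of_nonneg_left h2 h3).trans (le_of_eq ?_)
  rw [h3T, hΛR]
  push_cast
  ring

end Pool.Agent.BSR
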