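import Pool.Agent.BSR.StA
import Pool.Agent.BSQ.FB

/-!
# BSR, module BOX: van der Corput for the bilinear operator (helper68 for helper44)
-/

set_option autoImplicit false

namespace Pool.Agent.BSR

open Finset MeasureTheory Filter Topology Pool.Agent.BSQ
open scoped BigOperators
open Classical

private theorem box_T {P : ℕ} [NeZero P] (f g : ZMod P → ℂ) (s l : ℤ) :
    ∑ y : ZMod P, (f (y + (s : ZMod P)) * g (y - (s : ZMod P))) *
      (starRingEnd ℂ) (f (y + ((s + l : ℤ) : ZMod P)) * g (y - ((s + l : ℤ) : ZMod P))) =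
    ∑ u : ZMod P, Fl f l u * Fl g (-l) (u - 2 * (s : ZMod P)) := by
  refine Fintype.sum_equiv (Equiv.addRight (s : ZMod P)) _ _ fun y => ?_
  simp only [Equiv.coe_addRight]
  unfold Fl
  rw [map_mul]
  have e1 : y + (s : ZMod P) - 2 * (s : ZMod P) = y - (s : ZMod P) := by ring
  have e2 : y + ((s + l : ℤ) : ZMod P) = y + (s : ZMod P) + (l : ZMod P) := by
    push_cast
    ring
  have e3 : y - ((s + l : ℤ) : ZMod P) = y - (s : ZMod P) + ((-l : ℤ) : ZMod P) := by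
    push_cast
    ring
  rw [e1, e2, e3]
  ring

private theorem box_small {P : ℕ} [NeZero P] (f g : ZMod P → ℂ) (s : ZMod P) (l : ℤ)
    (hf : ∑ u : ZMod P, ‖f u‖ ^ 2 ≤ P) (hg : ∀ u, ‖g u‖ ≤ 1) :
    ‖∑ u : ZMod P, Fl f l u * Fl g (-l) (u - 2 * s)‖ ≤ P := by
  have h1 : ∀ u : ZMod P, ‖Fl f l u * Fl g (-l) (u - 2 * s)‖ ≤
      (‖f u‖ ^ 2 + ‖f (u + (l : ZMod P))‖ ^ 2) / 2 := by
    intro u
    have h2 : ‖Fl g (-l) (u - 2 * s)‖ ≤ 1 := by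
      unfold Fl
      rw [norm_mul, RCLike.norm_conj]
      exact mul_le_one₀ (hg _) (norm_nonneg _) (hg _)
    have h3 : ‖Fl f l u‖ = ‖f u‖ * ‖f (u + (l : ZMod P))‖ := by
      unfold Fl
      rw [norm_mul, RCLike.norm_conj]
    rw [norm_mul, h3]
    have h4 : 0 ≤ ‖f u‖ * ‖f (u + (l : ZMod P))‖ := by positivity
    have h5 := two_mul_le_add_sq ‖f u‖ ‖f (u + (l : ZMod P))‖
    nlinarith
  have h2 : ∑ u : ZMod P, ‖f (u + (l : ZMod P))‖ ^ 2 = ∑ u : ZMod P, ‖f u‖ ^ 2 :=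
    Fintype.sum_equiv (Equiv.addRight (l : ZMod P)) _ _ fun u => by simp
  calc ‖∑ u : ZMod P, Fl f l u * Fl g (-l) (u - 2 * s)‖
      ≤ ∑ u : ZMod P, ‖Fl f l u * Fl g (-l) (u - 2 * s)‖ := norm_sum_le _ _
    _ ≤ ∑ u : ZMod P, (‖f u‖ ^ 2 + ‖f (u + (l : ZMod P))‖ ^ 2) / 2 :=
        Finset.sum_le_sum fun u _ => h1 u
    _ = ∑ u : ZMod P, ‖f u‖ ^ 2 := by
        rw [← Finset.sum_div, Finset.sum_add_distrib, h2]
        ring
    _ ≤ P := hf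

private theorem box_ch {P : ℕ} [NeZero P] (b : ZMod P) (s : ℤ) (hs : 0 ≤ s) :
    ch b (2 * (s : ZMod P)) = ee (2 * ((b.val : ℝ) / P) * (s : ℝ)) := by
  obtain ⟨h1, -⟩ := thm_FB P
  have h2 := h1 b (2 * s).toNat
  have e1 : (((2 * s).toNat : ℕ) : ZMod P) = 2 * (s : ZMod P) := by
    have : (((2 * s).toNat : ℕ) : ℤ) = 2 * s := Int.toNat_of_nonneg (by omega)
    calc (((2 * s).toNat : ℕ) : ZMod P) = ((((2 * s).toNat : ℕ) : ℤ) : ZMod P) := by push_cast; rfl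
      _ = ((2 * s : ℤ) : ZMod P) := by rw [this]
      _ = 2 * (s : ZMod P) := by push_cast; ring
  have e2 : (((2 * s).toNat : ℕ) : ℝ) = 2 * (s : ℝ) := by
    have : (((2 * s).toNat : ℕ) : ℤ) = 2 * s := Int.toNat_of_nonneg (by omega)
    calc (((2 * s).toNat : ℕ) : ℝ) = ((((2 * s).toNat : ℕ) : ℤ) : ℝ) := by push_cast; rfl
      _ = ((2 * s : ℤ) : ℝ) := by rw [this]
      _ = 2 * (s : ℝ) := by push_cast; ring
  rw [e1, e2] at h2
  rw [h2]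
  congr 1
  ring

private theorem box_l {n0 N1 M A N : ℕ} (hn : n0 + N1 ≤ N) (hM : M ≤ N) {d p : ℤ × ℤ}
    (hd : d ∈ Dif A) (hp : p ∈ Bx n0 N1 M) (hpd : p + d ∈ Bx n0 N1 M) :
    |sqz (p + d) - sqz p| ≤ 4 * A * N := by
  obtain ⟨a, b⟩ := d
  obtain ⟨n, m⟩ := p
  obtain ⟨h1, h2⟩ := Finset.mem_product.1 hd
  obtain ⟨h3, h4⟩ := Finset.mem_product.1 hp
  obtain ⟨h5, h6⟩ := Finset.mem_product.1 hpd
  rw [Finset.mem_Ioo] at h1 h2
  rw [Finset.mem_Ioc] at h3 h5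
  rw [Finset.mem_Icc] at h4 h6
  simp only [Prod.mk_add_mk] at h5 h6
  simp only at h1 h2 h3 h4
  have hn' : (n0 : ℤ) + N1 ≤ N := by exact_mod_cast hn
  have hM' : (M : ℤ) ≤ N := by exact_mod_cast hM
  have hn00 : (0 : ℤ) ≤ n0 := Int.natCast_nonneg _
  have hA0 : (0 : ℤ) ≤ A := Int.natCast_nonneg _
  have e : sqz ((n, m) + (a, b)) - sqz (n, m) = a * (2 * n + a) + b * (2 * m + b) := by
    unfold sqz
    simp only [Prod.mk_add_mk]
    ring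
  rw [e]
  have e1 : |2 * n + a| ≤ 2 * N := by
    rw [abs_le]
    constructor <;> linarith [h3.1, h3.2, h5.1, h5.2]
  have e2 : |2 * m + b| ≤ 2 * N := by
    rw [abs_le]
    constructor <;> linarith [h4.1, h4.2, h6.1, h6.2]
  calc |a * (2 * n + a) + b * (2 * m + b)| ≤ |a * (2 * n + a)| + |b * (2 * m + b)| := abs_add_le _ _
    _ ≤ A * (2 * N) + A * (2 * N) := by
        rw [abs_mul, abs_mul]
        exact add_le_add (mul_le_mul (abs_le.2 ⟨by linarith, by linarith⟩) e1 (abs_nonneg _) hA0)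
          (mul_le_mul (abs_le.2 ⟨by linarith, by linarith⟩) e2 (abs_nonneg _) hA0)
    _ = 4 * A * N := by ring

private theorem box_w {A : ℕ} {d : ℤ × ℤ} (hd : d ∈ Dif A) :
    ‖((A : ℂ) - (|d.1| : ℤ)) * ((A : ℂ) - (|d.2| : ℤ))‖ ≤ (A : ℝ) ^ 2 := by
  obtain ⟨h1, h2⟩ := Finset.mem_product.1 hd
  rw [Finset.mem_Ioo] at h1 h2
  have h : ∀ a : ℤ, -(A : ℤ) < a ∧ a < A → ‖(A : ℂ) - ((|a| : ℤ) : ℂ)‖ ≤ A := by
    intro a ha
    have h3 : |a| < A := abs_lt.2 ha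
    have h4 : (A : ℂ) - ((|a| : ℤ) : ℂ) = (((A : ℤ) - |a| : ℤ) : ℂ) := by push_cast; rfl
    rw [h4, Complex.norm_intCast, ← Int.cast_abs]
    have h5 : abs ((A : ℤ) - abs a) ≤ A := by
      rw [abs_le]
      constructor <;> linarith [abs_nonneg a]
    exact_mod_cast h5
  rw [norm_mul, sq]
  exact mul_le_mul (h _ h1) (h _ h2) (norm_nonneg _) (by positivity)

private theorem box_swap1 {α β : Type} (S : Finset α) (Q : Finset β) (w : α → ℂ) (X : β → ℂ)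
    (Y : α → β → ℂ) : ∑ p ∈ S, w p * ∑ b ∈ Q, X b * Y p b = ∑ b ∈ Q, X b * ∑ p ∈ S, w p * Y p b := by
  simp only [Finset.mul_sum]
  rw [Finset.sum_comm]
  refine Finset.sum_congr rfl fun b _ => Finset.sum_congr rfl fun p _ => ?_
  ring

private theorem box_swap {α β γ : Type} (D : Finset α) (R : α → Finset γ) (Q : Finset β)
    (w : α → ℂ) (c : ℂ) (X : β → ℂ) (χ : β → γ → ℂ) :
    ∑ d ∈ D, w d * ∑ p ∈ R d, c * ∑ b ∈ Q, X b * χ b p =
      c * ∑ b ∈ Q, X b * ∑ d ∈ D, w d * ∑ p ∈ R d, χ b p := by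
  have h1 : ∀ d, ∑ p ∈ R d, c * ∑ b ∈ Q, X b * χ b p = c * ∑ b ∈ Q, X b * ∑ p ∈ R d, χ b p := by
    intro d
    rw [← Finset.mul_sum]
    congr 1
    have := box_swap1 (R d) Q (fun _ => (1 : ℂ)) X (fun p b => χ b p)
    simpa only [one_mul] using this
  have h2 : ∀ d, w d * ∑ p ∈ R d, c * ∑ b ∈ Q, X b * χ b p =
      c * (w d * ∑ b ∈ Q, X b * ∑ p ∈ R d, χ b p) := by
    intro d
    rw [h1 d]
    ring
  rw [Finset.sum_congr rfl fun d _ => h2 d, ← Finset.mul_sum]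
  congr 1
  exact box_swap1 D Q w X (fun d b => ∑ p ∈ R d, χ b p)

private theorem box_alg (a p n m x y : ℝ) (ha : a ≠ 0) :
    4 * n * m * (a ^ 2 * (p * x) + a ^ 4 * y) = a ^ 4 * (4 * n * m * (p * (1 / a ^ 2 * x) + y)) := by
  field_simp

theorem thm_BOX (hVDC : St_VDC) : St_BOX := by
  intro P n0 N1 M A N l0 _ f g hA hn hM hNM hf hg
  obtain ⟨-, -, -, -, -, -, hcor, -⟩ := thm_FB P
  have hP : (0 : ℝ) < P := Nat.cast_pos.2 (Nat.pos_of_ne_zero (NeZero.ne P))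
  have hAr : (0 : ℝ) < A := by exact_mod_cast hA
  set w : ℤ × ℤ → ℂ := fun d => ((A : ℂ) - (|d.1| : ℤ)) * ((A : ℂ) - (|d.2| : ℤ)) with hw
  set T : ℤ × ℤ → ℤ × ℤ → ℂ := fun d p =>
    ∑ u : ZMod P, Fl f (sqz (p + d) - sqz p) u *
      Fl g (-(sqz (p + d) - sqz p)) (u - 2 * ((sqz p : ℤ) : ZMod P)) with hT
  -- sum over y
  have h1 : (A : ℝ) ^ 4 * ∑ y : ZMod P, ‖TB n0 N1 M f g y‖ ^ 2 ≤ 4 * N1 * M *
      (∑ d ∈ Dif A, w d * ∑ p ∈ (Bx n0 N1 M).filter (fun p => p + d ∈ Bx n0 N1 M), T d p).re := by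
    have g1 : ∀ y : ZMod P, (A : ℝ) ^ 4 * ‖TB n0 N1 M f g y‖ ^ 2 ≤ 4 * N1 * M *
        (∑ d ∈ Dif A, w d * ∑ p ∈ (Bx n0 N1 M).filter (fun p => p + d ∈ Bx n0 N1 M),
          (f (y + ((sqz p : ℤ) : ZMod P)) * g (y - ((sqz p : ℤ) : ZMod P))) *
          (starRingEnd ℂ) (f (y + ((sqz (p + d) : ℤ) : ZMod P)) *
            g (y - ((sqz (p + d) : ℤ) : ZMod P)))).re := fun y =>
      hVDC n0 N1 M A (fun p => f (y + ((sqz p : ℤ) : ZMod P)) * g (y - ((sqz p : ℤ) : ZMod P)))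
        hA hNM
    rw [Finset.mul_sum]
    refine (Finset.sum_le_sum fun y _ => g1 y).trans (le_of_eq ?_)
    rw [← Finset.mul_sum, ← Complex.re_sum, Finset.sum_comm]
    congr 2
    refine Finset.sum_congr rfl fun d _ => ?_
    rw [← Finset.mul_sum, Finset.sum_comm]
    congr 1
    refine Finset.sum_congr rfl fun p _ => ?_
    have g2 := box_T f g (sqz p) (sqz (p + d) - sqz p)
    rw [add_sub_cancel] at g2
    exact g2
  -- the small part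
  set Sm : ℤ × ℤ → Finset (ℤ × ℤ) := fun d => (Bx n0 N1 M).filter
    (fun p => p + d ∈ Bx n0 N1 M ∧ |sqz (p + d) - sqz p| ≤ (l0 : ℤ)) with hSm
  set Lg : ℤ × ℤ → Finset (ℤ × ℤ) := fun d => (Bx n0 N1 M).filter
    (fun p => p + d ∈ Bx n0 N1 M ∧ (l0 : ℤ) < |sqz (p + d) - sqz p|) with hLg
  have hsplit : ∀ d, ∑ p ∈ (Bx n0 N1 M).filter (fun p => p + d ∈ Bx n0 N1 M), T d p =
      ∑ p ∈ Sm d, T d p + ∑ p ∈ Lg d, T d p := by
    intro d
    have g1 : Sm d = ((Bx n0 N1 M).filter (fun p => p + d ∈ Bx n0 N1 M)).filter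
        (fun p => |sqz (p + d) - sqz p| ≤ (l0 : ℤ)) := by
      rw [hSm, Finset.filter_filter]
    have g2 : Lg d = ((Bx n0 N1 M).filter (fun p => p + d ∈ Bx n0 N1 M)).filter
        (fun p => ¬ |sqz (p + d) - sqz p| ≤ (l0 : ℤ)) := by
      rw [hLg, Finset.filter_filter]
      simp only [not_le]
    rw [g1, g2, Finset.sum_filter_add_sum_filter_not]
  set Λ : Finset ℤ := (Icc (-(4 * A * N : ℤ)) (4 * A * N : ℤ)).filter
    (fun l : ℤ => (l0 : ℤ) < |l|) with hΛ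
  have hsmall : ‖∑ d ∈ Dif A, w d * ∑ p ∈ Sm d, T d p‖ ≤
      (A : ℝ) ^ 2 * (P * ∑ d ∈ Dif A, ((Sm d).card : ℝ)) := by
    calc ‖∑ d ∈ Dif A, w d * ∑ p ∈ Sm d, T d p‖ ≤ ∑ d ∈ Dif A, ‖w d * ∑ p ∈ Sm d, T d p‖ :=
          norm_sum_le _ _
      _ ≤ ∑ d ∈ Dif A, (A : ℝ) ^ 2 * (P * ((Sm d).card : ℝ)) := by
          refine Finset.sum_le_sum fun d hd => ?_
          rw [norm_mul]
          refine mul_le_mul (box_w hd) ?_ (norm_nonneg _) (by positivity)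
          refine (norm_sum_le _ _).trans ?_
          refine (Finset.sum_le_card_nsmul _ _ (P : ℝ) fun p _ => box_small f g _ _ hf hg).trans ?_
          rw [nsmul_eq_mul, mul_comm]
      _ = _ := by rw [← Finset.mul_sum, ← Finset.mul_sum]
  -- the large part
  have hRl : ∀ (d : ℤ × ℤ), d ∈ Dif A → ∑ p ∈ Lg d, T d p =
      ∑ l ∈ Λ, ∑ p ∈ Rl n0 N1 M l d, (1 / (P : ℂ)) * ∑ b : ZMod P,
        ft (Fl f l) b * ft (Fl g (-l)) (-b) * ch b (2 * ((sqz p : ℤ) : ZMod P)) := by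
    intro d hd
    have hmaps : ∀ p ∈ Lg d, sqz (p + d) - sqz p ∈ Λ := by
      intro p hp
      obtain ⟨k1, k2, k3⟩ := Finset.mem_filter.1 hp
      refine Finset.mem_filter.2 ⟨?_, k3⟩
      rw [Finset.mem_Icc]
      exact abs_le.1 (box_l hn hM hd k1 k2)
    rw [← Finset.sum_fiberwise_of_maps_to hmaps]
    refine Finset.sum_congr rfl fun l hl => ?_
    have k4 : (Lg d).filter (fun p => sqz (p + d) - sqz p = l) = Rl n0 N1 M l d := by
      ext p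
      rw [Rl, Finset.mem_filter, hLg, Finset.mem_filter, Finset.mem_filter]
      have hl' := (Finset.mem_filter.1 hl).2
      constructor
      · rintro ⟨⟨k1, k2, k3⟩, k5⟩
        exact ⟨k1, k2, k5⟩
      · rintro ⟨k1, k2, k5⟩
        refine ⟨⟨k1, k2, ?_⟩, k5⟩
        rw [k5]
        exact hl'
    rw [k4]
    refine Finset.sum_congr rfl fun p hp => ?_
    have k5 : sqz (p + d) - sqz p = l := (Finset.mem_filter.1 hp).2.2
    simp only [hT]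
    rw [k5, hcor]
  have hlarge : ‖∑ d ∈ Dif A, w d * ∑ p ∈ Lg d, T d p‖ ≤
      (A : ℝ) ^ 4 * ∑ l ∈ Λ, 1 / (P : ℝ) * ∑ b : ZMod P,
        ‖ft (Fl f l) b‖ * ‖ft (Fl g (-l)) (-b)‖ * Sl n0 N1 M A l ((b.val : ℝ) / P) := by
    have g1 : ∑ d ∈ Dif A, w d * ∑ p ∈ Lg d, T d p = ∑ l ∈ Λ, (1 / (P : ℂ)) * ∑ b : ZMod P,
        ft (Fl f l) b * ft (Fl g (-l)) (-b) *
          ∑ d ∈ Dif A, w d * ∑ p ∈ Rl n0 N1 M l d, ch b (2 * ((sqz p : ℤ) : ZMod P)) := by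
      rw [Finset.sum_congr rfl fun d hd => by rw [hRl d hd, Finset.mul_sum], Finset.sum_comm]
      refine Finset.sum_congr rfl fun l _ => ?_
      exact box_swap (Dif A) (fun d => Rl n0 N1 M l d) Finset.univ w (1 / (P : ℂ))
        (fun b => ft (Fl f l) b * ft (Fl g (-l)) (-b))
        (fun b p => ch b (2 * ((sqz p : ℤ) : ZMod P)))
    have g2 : ∀ (l : ℤ) (b : ZMod P),
        ‖∑ d ∈ Dif A, w d * ∑ p ∈ Rl n0 N1 M l d, ch b (2 * ((sqz p : ℤ) : ZMod P))‖ ≤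
          (A : ℝ) ^ 4 * Sl n0 N1 M A l ((b.val : ℝ) / P) := by
      intro l b
      calc ‖∑ d ∈ Dif A, w d * ∑ p ∈ Rl n0 N1 M l d, ch b (2 * ((sqz p : ℤ) : ZMod P))‖
          ≤ ∑ d ∈ Dif A, ‖w d * ∑ p ∈ Rl n0 N1 M l d, ch b (2 * ((sqz p : ℤ) : ZMod P))‖ :=
            norm_sum_le _ _
        _ ≤ ∑ d ∈ Dif A, (A : ℝ) ^ 2 * ‖∑ p ∈ Rl n0 N1 M l d,
              ee (2 * ((b.val : ℝ) / P) * ((sqz p : ℤ) : ℝ))‖ := by
            refine Finset.sum_le_sum fun d hd => ?_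
            rw [norm_mul]
            have k1 : ∑ p ∈ Rl n0 N1 M l d, ch b (2 * ((sqz p : ℤ) : ZMod P)) =
                ∑ p ∈ Rl n0 N1 M l d, ee (2 * ((b.val : ℝ) / P) * ((sqz p : ℤ) : ℝ)) := by
              refine Finset.sum_congr rfl fun p _ => box_ch b (sqz p) ?_
              unfold sqz
              positivity
            rw [k1]
            exact mul_le_mul_of_nonneg_right (box_w hd) (norm_nonneg _)
        _ = (A : ℝ) ^ 4 * Sl n0 N1 M A l ((b.val : ℝ) / P) := by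
            rw [← Finset.mul_sum, Sl]
            field_simp
    rw [g1]
    calc ‖∑ l ∈ Λ, (1 / (P : ℂ)) * ∑ b : ZMod P, ft (Fl f l) b * ft (Fl g (-l)) (-b) *
          ∑ d ∈ Dif A, w d * ∑ p ∈ Rl n0 N1 M l d, ch b (2 * ((sqz p : ℤ) : ZMod P))‖
        ≤ ∑ l ∈ Λ, ‖(1 / (P : ℂ)) * ∑ b : ZMod P, ft (Fl f l) b * ft (Fl g (-l)) (-b) *
          ∑ d ∈ Dif A, w d * ∑ p ∈ Rl n0 N1 M l d, ch b (2 * ((sqz p : ℤ) : ZMod P))‖ :=
          norm_sum_le _ _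
      _ ≤ ∑ l ∈ Λ, (A : ℝ) ^ 4 * (1 / (P : ℝ) * ∑ b : ZMod P,
            ‖ft (Fl f l) b‖ * ‖ft (Fl g (-l)) (-b)‖ * Sl n0 N1 M A l ((b.val : ℝ) / P)) := by
          refine Finset.sum_le_sum fun l _ => ?_
          rw [norm_mul]
          have k1 : ‖(1 / (P : ℂ))‖ = 1 / (P : ℝ) := by
            rw [norm_div, norm_one, Complex.norm_natCast]
          have k2 : ‖∑ b : ZMod P, ft (Fl f l) b * ft (Fl g (-l)) (-b) *
              ∑ d ∈ Dif A, w d * ∑ p ∈ Rl n0 N1 M l d, ch b (2 * ((sqz p : ℤ) : ZMod P))‖ ≤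
              ∑ b : ZMod P, (A : ℝ) ^ 4 * (‖ft (Fl f l) b‖ * ‖ft (Fl g (-l)) (-b)‖ *
                Sl n0 N1 M A l ((b.val : ℝ) / P)) := by
            refine (norm_sum_le _ _).trans (Finset.sum_le_sum fun b _ => ?_)
            rw [norm_mul, norm_mul]
            calc ‖ft (Fl f l) b‖ * ‖ft (Fl g (-l)) (-b)‖ *
                ‖∑ d ∈ Dif A, w d * ∑ p ∈ Rl n0 N1 M l d, ch b (2 * ((sqz p : ℤ) : ZMod P))‖
                ≤ ‖ft (Fl f l) b‖ * ‖ft (Fl g (-l)) (-b)‖ *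
                  ((A : ℝ) ^ 4 * Sl n0 N1 M A l ((b.val : ℝ) / P)) :=
                  mul_le_mul_of_nonneg_left (g2 l b) (by positivity)
              _ = _ := by ring
          rw [k1]
          calc 1 / (P : ℝ) * _ ≤ 1 / (P : ℝ) * ∑ b : ZMod P, (A : ℝ) ^ 4 *
                (‖ft (Fl f l) b‖ * ‖ft (Fl g (-l)) (-b)‖ *
                Sl n0 N1 M A l ((b.val : ℝ) / P)) := mul_le_mul_of_nonneg_left k2 (by positivity)
            _ = _ := by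
                rw [← Finset.mul_sum]
                ring
      _ = _ := by rw [← Finset.mul_sum]
  -- conclusion
  have h2 : (∑ d ∈ Dif A, w d * ∑ p ∈ (Bx n0 N1 M).filter (fun p => p + d ∈ Bx n0 N1 M), T d p).re ≤
      (A : ℝ) ^ 2 * (P * ∑ d ∈ Dif A, ((Sm d).card : ℝ)) +
      (A : ℝ) ^ 4 * ∑ l ∈ Λ, 1 / (P : ℝ) * ∑ b : ZMod P,
        ‖ft (Fl f l) b‖ * ‖ft (Fl g (-l)) (-b)‖ * Sl n0 N1 M A l ((b.val : ℝ) / P) := by
    refine (Complex.re_le_norm _).trans ?_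
    have k1 : ∑ d ∈ Dif A, w d * ∑ p ∈ (Bx n0 N1 M).filter (fun p => p + d ∈ Bx n0 N1 M), T d p =
        ∑ d ∈ Dif A, w d * ∑ p ∈ Sm d, T d p + ∑ d ∈ Dif A, w d * ∑ p ∈ Lg d, T d p := by
      rw [← Finset.sum_add_distrib]
      refine Finset.sum_congr rfl fun d _ => ?_
      rw [hsplit d, mul_add]
    rw [k1]
    exact (norm_add_le _ _).trans (add_le_add hsmall hlarge)
  have h3 : (A : ℝ) ^ 4 * ∑ y : ZMod P, ‖TB n0 N1 M f g y‖ ^ 2 ≤ (A : ℝ) ^ 4 * (4 * N1 * M *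
      (P * (1 / (A : ℝ) ^ 2 * ∑ d ∈ Dif A, ((Sm d).card : ℝ)) +
      ∑ l ∈ Λ, 1 / (P : ℝ) * ∑ b : ZMod P,
        ‖ft (Fl f l) b‖ * ‖ft (Fl g (-l)) (-b)‖ * Sl n0 N1 M A l ((b.val : ℝ) / P))) := by
    refine (h1.trans (mul_le_mul_of_nonneg_left h2 (by positivity))).trans (le_of_eq ?_)
    exact box_alg (A : ℝ) _ _ _ _ _ hAr.ne'
  exact le_of_mul_le_mul_left h3 (by positivity)

end Pool.Agent.BSR
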