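import Pool.Agent.BSR.StB

/-!
# BSR, CBD: from points and windows to pairs of tiles (helper74 for helper44)
-/

set_option autoImplicit false

namespace Pool.Agent.BSR

open Finset MeasureTheory Filter Topology Pool.Agent.BSQ
open scoped BigOperators
open Classical

private theorem cbd_dI (u v : ℝ) : dI u ≤ dI v + |u - v| := by
  unfold dI
  calc |u - round u| ≤ |u - round v| := round_le u (round v)
    _ = |(v - round v) + (u - v)| := by congr 1; ring
    _ ≤ |v - round v| + |u - v| := abs_add_le _ _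

private theorem cbd_sqrt (k x H δ β b1 k0 : ℝ) (hk0 : 0 < k0) (hk : k0 ≤ k) (hx : 0 ≤ x)
    (hkx : |k - x| ≤ H / 2) (hH : 0 ≤ H) (hδ : 0 ≤ δ) (hβ0 : 0 ≤ β) (hβ : β ≤ b1)
    (hb : b1 * H ≤ δ * Real.sqrt k0) : 2 * β * |Real.sqrt k - Real.sqrt x| ≤ δ := by
  have hkp : 0 < k := lt_of_lt_of_le hk0 hk
  have hs : 0 < Real.sqrt k := Real.sqrt_pos.2 hkp
  have hsx : 0 ≤ Real.sqrt x := Real.sqrt_nonneg x
  have h1 : |Real.sqrt k - Real.sqrt x| * Real.sqrt k ≤ H / 2 := by
    calc |Real.sqrt k - Real.sqrt x| * Real.sqrt k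
        ≤ |Real.sqrt k - Real.sqrt x| * (Real.sqrt k + Real.sqrt x) := by
          gcongr
          linarith
      _ = |k - x| := by
          have h2 : 0 ≤ Real.sqrt k + Real.sqrt x := by positivity
          rw [← abs_of_nonneg h2, ← abs_mul]
          congr 1
          have h3 := Real.mul_self_sqrt hkp.le
          have h4 := Real.mul_self_sqrt hx
          linear_combination h3 - h4
      _ ≤ H / 2 := hkx
  have h2 : 2 * β * |Real.sqrt k - Real.sqrt x| * Real.sqrt k ≤ δ * Real.sqrt k := by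
    calc 2 * β * |Real.sqrt k - Real.sqrt x| * Real.sqrt k
        = 2 * β * (|Real.sqrt k - Real.sqrt x| * Real.sqrt k) := by ring
      _ ≤ 2 * β * (H / 2) := by gcongr
      _ = β * H := by ring
      _ ≤ b1 * H := by gcongr
      _ ≤ δ * Real.sqrt k0 := hb
      _ ≤ δ * Real.sqrt k := by
          have := Real.sqrt_le_sqrt hk
          gcongr
  exact le_of_mul_le_mul_right h2 hs

private theorem cbd_tl1 {P H T : ℕ} [NeZero P] (hP : P = H * T) (y : ZMod P) (k : ℕ) :
    tl H (y + ((k : ℕ) : ZMod P)) = ((y.val + P + k) / H) % T := by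
  unfold tl
  have h1 : y + ((k : ℕ) : ZMod P) = ((y.val + P + k : ℕ) : ZMod P) := by
    push_cast
    rw [ZMod.natCast_zmod_val, ZMod.natCast_self, add_zero]
  rw [h1, ZMod.val_natCast, ← Nat.mod_mul_right_div_self, ← hP]

private theorem cbd_tl2 {P H T : ℕ} [NeZero P] (hP : P = H * T) (y : ZMod P) (k : ℕ) (hk : k ≤ P) :
    tl H (y - ((k : ℕ) : ZMod P)) = ((y.val + P - k) / H) % T := by
  unfold tl
  have h1 : y - ((k : ℕ) : ZMod P) = ((y.val + P - k : ℕ) : ZMod P) := by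
    rw [Nat.cast_sub (by omega)]
    push_cast
    rw [ZMod.natCast_zmod_val, ZMod.natCast_self, add_zero]
  rw [h1, ZMod.val_natCast, ← Nat.mod_mul_right_div_self, ← hP]

/-- the fibres -/
private theorem cbd_fib {P : ℕ} [NeZero P] (H H' i1 t t' : ℕ) (hH' : 1 ≤ H') (hH : 1 ≤ H)
    (hi : i1 * H' ≤ P) (V : Finset (ZMod P × ℕ)) (hV : ∀ e ∈ V, e.2 < i1) :
    (V.filter (fun e : ZMod P × ℕ =>
      ((e.1.val + P + e.2 * H') / H, (e.1.val + P - e.2 * H') / H) = (t, t'))).card ≤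
      H * ((H - 1) / (2 * H') + 1) := by
  have h0 : (range H ×ˢ range ((H - 1) / (2 * H') + 1)).card = H * ((H - 1) / (2 * H') + 1) := by
    rw [card_product, card_range, card_range]
  rw [← h0]
  refine Finset.card_le_card_of_injOn (fun e : ZMod P × ℕ =>
    ((e.1.val + P + e.2 * H') % H, ((e.1.val + P - e.2 * H') % H) / (2 * H'))) ?_ ?_
  · intro e he
    simp only [coe_product, coe_range, Set.mem_prod, Set.mem_Iio]
    refine ⟨Nat.mod_lt _ hH, ?_⟩
    have h1 : (e.1.val + P - e.2 * H') % H < H := Nat.mod_lt _ hH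
    have h2 : (e.1.val + P - e.2 * H') % H / (2 * H') ≤ (H - 1) / (2 * H') :=
      Nat.div_le_div_right (by omega)
    omega
  · rintro ⟨y, i⟩ he ⟨y', i'⟩ he' heq
    rw [mem_coe, mem_filter] at he he'
    obtain ⟨hV1, he⟩ := he
    obtain ⟨hV2, he'⟩ := he'
    have hi1 := hV _ hV1
    have hi2 := hV _ hV2
    simp only [Prod.mk.injEq] at he he' heq hi1 hi2
    obtain ⟨ha, hb⟩ := he
    obtain ⟨ha', hb'⟩ := he'
    obtain ⟨hc, hd⟩ := heq
    have hk : i * H' ≤ P := (Nat.mul_le_mul_right _ hi1.le).trans hi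
    have hk' : i' * H' ≤ P := (Nat.mul_le_mul_right _ hi2.le).trans hi
    have e1 : y.val + P + i * H' = y'.val + P + i' * H' := by
      have h1 := Nat.div_add_mod (y.val + P + i * H') H
      have h2 := Nat.div_add_mod (y'.val + P + i' * H') H
      rw [ha] at h1
      rw [ha'] at h2
      omega
    -- the second coordinate
    obtain ⟨B, hB⟩ : ∃ B, B = y.val + P - i * H' := ⟨_, rfl⟩
    obtain ⟨B', hB'⟩ : ∃ B', B' = y'.val + P - i' * H' := ⟨_, rfl⟩
    rw [← hB] at hb hd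
    rw [← hB'] at hb' hd
    have hBa : y.val + P + i * H' = B + 2 * H' * i := by
      rw [hB, show 2 * H' * i = i * H' + i * H' by ring]
      omega
    have hBa' : y'.val + P + i' * H' = B' + 2 * H' * i' := by
      rw [hB', show 2 * H' * i' = i' * H' + i' * H' by ring]
      omega
    have h1 := Nat.div_add_mod B H
    have h2 := Nat.div_add_mod B' H
    rw [hb] at h1
    rw [hb'] at h2
    have hmod : B % H ≡ B' % H [MOD 2 * H'] := by
      have h3 : B + 2 * H' * i = B' + 2 * H' * i' := by rw [← hBa, ← hBa', e1]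
      have h4 : B ≡ B' [MOD 2 * H'] := by
        have h5 : B + 2 * H' * i ≡ B' + 2 * H' * i' [MOD 2 * H'] := by rw [h3]
        have h6 : B + 2 * H' * i ≡ B [MOD 2 * H'] := by
          simp [Nat.ModEq]
        have h7 : B' + 2 * H' * i' ≡ B' [MOD 2 * H'] := by
          simp [Nat.ModEq]
        exact (h6.symm.trans h5).trans h7
      have h8 : H * t' + B % H ≡ H * t' + B' % H [MOD 2 * H'] := by
        rw [h1, h2]
        exact h4
      exact Nat.ModEq.add_left_cancel' _ h8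
    have hr : B % H = B' % H := by
      have h3 := Nat.div_add_mod (B % H) (2 * H')
      have h4 := Nat.div_add_mod (B' % H) (2 * H')
      rw [hd] at h3
      have h5 : B % H % (2 * H') = B' % H % (2 * H') := hmod
      rw [h5] at h3
      omega
    have hBB : B = B' := by
      rw [← h1, ← h2, hr]
    have hii : i = i' := by
      have h3 : 2 * H' * i = 2 * H' * i' := by omega
      exact Nat.eq_of_mul_eq_mul_left (by omega) h3
    subst hii
    have hyy : y.val = y'.val := by omega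
    rw [ZMod.val_injective P hyy]

theorem thm_CBD : St_CBD := by
  intro P H T H' i0 i1 Q N L _ z z' b0 b1 δ hP hH' hHH hi1 h5 h16 hi0 h48 hδ hb1 hbH
  have hPpos : 0 < P := Nat.pos_of_ne_zero (NeZero.ne P)
  have hHpos : 0 < H := by omega
  have hNP : N ^ 2 ≤ P := by omega
  have hi1P : i1 * H' ≤ P := hi1.trans hNP
  set V := ((univ : Finset (ZMod P)) ×ˢ Ico i0 i1).filter (fun e : ZMod P × ℕ =>
      Bad Q b0 b1 δ ((e.2 * H' : ℕ) : ℝ)
        ((((z (tl H (e.1 + ((e.2 * H' : ℕ) : ZMod P)))).val : ℝ) -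
          ((z' (tl H (e.1 - ((e.2 * H' : ℕ) : ZMod P)))).val : ℝ)) / P)) with hVdef
  set S := (range (3 * T) ×ˢ range (3 * T)).filter (fun e : ℕ × ℕ => 3 * T + L * e.2 ≤ L * e.1 ∧
      ∃ q : ℕ, 1 ≤ q ∧ q ≤ Q ∧
      b0 < dI (q * (((z (e.1 % T)).val : ℝ) / P - ((z' (e.2 % T)).val : ℝ) / P)) ∧
      dI (q * (((z (e.1 % T)).val : ℝ) / P - ((z' (e.2 % T)).val : ℝ) / P)) ≤ b1 ∧
      dI (Real.sqrt (2 * H) * dI (q * (((z (e.1 % T)).val : ℝ) / P - ((z' (e.2 % T)).val : ℝ) / P)) *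
        Real.sqrt ((e.1 : ℝ) - e.2)) ≤ 2 * δ) with hSdef
  have hmap : ∀ e ∈ V, (fun e : ZMod P × ℕ =>
      ((e.1.val + P + e.2 * H') / H, (e.1.val + P - e.2 * H') / H)) e ∈ S := by
    rintro ⟨y, i⟩ he
    rw [hVdef, mem_filter, mem_product, mem_Ico] at he
    obtain ⟨⟨-, hil, hiu⟩, q, hq1, hq2, hq3, hq4, hq5⟩ := he
    simp only at hil hiu hq3 hq4 hq5
    obtain ⟨k, hk⟩ : ∃ k, k = i * H' := ⟨_, rfl⟩
    have hk1 : i0 * H' ≤ k := by rw [hk]; exact Nat.mul_le_mul_right _ hil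
    have hk2 : k ≤ N ^ 2 := by
      rw [hk]
      exact (Nat.mul_le_mul_right _ hiu.le).trans hi1
    have hy : y.val < P := ZMod.val_lt y
    rw [← hk] at hq3 hq4 hq5
    rw [cbd_tl1 hP, cbd_tl2 hP y k (by omega), sub_div] at hq3 hq4 hq5
    show ((y.val + P + i * H') / H, (y.val + P - i * H') / H) ∈ S
    rw [← hk]
    obtain ⟨a, ha⟩ : ∃ a, a = y.val + P + k := ⟨_, rfl⟩
    obtain ⟨b, hb⟩ : ∃ b, b = y.val + P - k := ⟨_, rfl⟩
    rw [← ha, ← hb] at hq3 hq4 hq5 ⊢
    have hab : a = b + 2 * k := by omega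
    have ha3 : a < H * (3 * T) := by
      have h1 : H * (3 * T) = 3 * P := by rw [hP]; ring
      rw [h1]
      omega
    obtain ⟨t, ht⟩ : ∃ t, t = a / H := ⟨_, rfl⟩
    obtain ⟨t', ht'⟩ : ∃ t', t' = b / H := ⟨_, rfl⟩
    have hdt := Nat.div_add_mod a H
    have hdt' := Nat.div_add_mod b H
    have hmt := Nat.mod_lt a hHpos
    have hmt' := Nat.mod_lt b hHpos
    rw [← ht] at hdt hq3 hq4 hq5 ⊢
    rw [← ht'] at hdt' hq3 hq4 hq5 ⊢
    have htt : H * t' + k ≤ H * t := by omega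
    have ht3 : t < 3 * T := by
      rw [ht]
      exact Nat.div_lt_of_lt_mul ha3
    have ht3' : t' < 3 * T := by
      have h1 : t' ≤ t := by
        by_contra hcon
        have h2 : H * (t + 1) ≤ H * t' := Nat.mul_le_mul_left _ (by omega)
        have h3 : H * (t + 1) = H * t + H := by ring
        omega
      omega
    rw [hSdef, mem_filter, mem_product, mem_range, mem_range]
    refine ⟨⟨ht3, ht3'⟩, ?_, q, hq1, hq2, hq3, hq4, ?_⟩
    · show 3 * T + L * t' ≤ L * t
      have h1 : H * (3 * T + L * t') ≤ H * (L * t) := by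
        calc H * (3 * T + L * t') = 3 * P + L * (H * t') := by rw [hP]; ring
          _ ≤ 48 * N ^ 2 + L * (H * t') := by omega
          _ ≤ L * (i0 * H') + L * (H * t') := by omega
          _ = L * (H * t' + i0 * H') := by ring
          _ ≤ L * (H * t) := Nat.mul_le_mul_left _ (by omega)
          _ = H * (L * t) := by ring
      exact Nat.le_of_mul_le_mul_left h1 hHpos
    · show dI (Real.sqrt (2 * H) * dI (q * (((z (t % T)).val : ℝ) / P -
        ((z' (t' % T)).val : ℝ) / P)) * Real.sqrt ((t : ℝ) - t')) ≤ 2 * δ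
      obtain ⟨β, hβ⟩ : ∃ β, β = dI (q * (((z (t % T)).val : ℝ) / P -
        ((z' (t' % T)).val : ℝ) / P)) := ⟨_, rfl⟩
      rw [← hβ] at hq4 hq5 ⊢
      have hβ0 : 0 ≤ β := by
        rw [hβ]
        exact abs_nonneg _
      have hHr : (0 : ℝ) < H := by exact_mod_cast hHpos
      have hdtr : (H : ℝ) * t + ((a % H : ℕ) : ℝ) = a := by exact_mod_cast hdt
      have hdtr' : (H : ℝ) * t' + ((b % H : ℕ) : ℝ) = b := by exact_mod_cast hdt'
      have habr : (a : ℝ) = b + 2 * k := by exact_mod_cast hab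
      have hm1 : ((a % H : ℕ) : ℝ) < H := by exact_mod_cast hmt
      have hm1' : ((b % H : ℕ) : ℝ) < H := by exact_mod_cast hmt'
      have hm0 : (0 : ℝ) ≤ ((a % H : ℕ) : ℝ) := Nat.cast_nonneg _
      have hm0' : (0 : ℝ) ≤ ((b % H : ℕ) : ℝ) := Nat.cast_nonneg _
      have httr : (H : ℝ) * t' + k ≤ H * t := by exact_mod_cast htt
      have hkr0 : (0 : ℝ) ≤ k := Nat.cast_nonneg _
      have hd0 : 0 ≤ (t : ℝ) - t' := by
        have h1 : 0 ≤ (H : ℝ) * ((t : ℝ) - t') := by linarith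
        exact nonneg_of_mul_nonneg_right h1 hHr
      have hx0 : 0 ≤ ((t : ℝ) - t') * H / 2 := by positivity
      have hkx : |(k : ℝ) - ((t : ℝ) - t') * H / 2| ≤ H / 2 := by
        rw [abs_le]
        constructor <;> linarith
      have hk0pos : 0 < ((i0 * H' : ℕ) : ℝ) := by
        have : 0 < i0 * H' := lt_of_lt_of_le hHpos hi0
        exact_mod_cast this
      have hk0k : ((i0 * H' : ℕ) : ℝ) ≤ k := by exact_mod_cast hk1
      have h1 := cbd_sqrt (k : ℝ) (((t : ℝ) - t') * H / 2) H δ β b1 _ hk0pos hk0k hx0 hkx hHr.le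
        hδ.le hβ0 hq4 hbH
      have h2 : Real.sqrt (2 * H) * β * Real.sqrt ((t : ℝ) - t') =
          2 * β * Real.sqrt (((t : ℝ) - t') * H / 2) := by
        have h3 : Real.sqrt (2 * H) * Real.sqrt ((t : ℝ) - t') =
            2 * Real.sqrt (((t : ℝ) - t') * H / 2) := by
          rw [← Real.sqrt_mul (by positivity)]
          have h4 : 2 * (H : ℝ) * ((t : ℝ) - t') = 2 ^ 2 * (((t : ℝ) - t') * H / 2) := by ring
          rw [h4, Real.sqrt_mul (by positivity), Real.sqrt_sq (by norm_num)]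
        calc Real.sqrt (2 * H) * β * Real.sqrt ((t : ℝ) - t')
            = β * (Real.sqrt (2 * H) * Real.sqrt ((t : ℝ) - t')) := by ring
          _ = 2 * β * Real.sqrt (((t : ℝ) - t') * H / 2) := by rw [h3]; ring
      rw [h2]
      have h5 := cbd_dI (2 * β * Real.sqrt (((t : ℝ) - t') * H / 2)) (2 * β * Real.sqrt (k : ℝ))
      have h6 : |2 * β * Real.sqrt (((t : ℝ) - t') * H / 2) - 2 * β * Real.sqrt (k : ℝ)| ≤ δ := by
        rw [← mul_sub, abs_mul, abs_of_nonneg (by positivity : 0 ≤ 2 * β), abs_sub_comm]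
        exact h1
      linarith
  have hcard := Finset.card_le_mul_card_image_of_maps_to hmap (H * ((H - 1) / (2 * H') + 1)) (by
    rintro ⟨t, t'⟩ _
    exact cbd_fib H H' i1 t t' hH' hHpos hi1P V (fun e he => by
      rw [hVdef, mem_filter, mem_product, mem_Ico] at he
      exact he.1.2.2))
  have hr : ((H * ((H - 1) / (2 * H') + 1) : ℕ) : ℝ) ≤ (H : ℝ) ^ 2 / H' := by
    have hHr : (0 : ℝ) < H := by exact_mod_cast hHpos
    have hHr' : (0 : ℝ) < H' := by exact_mod_cast hH'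
    have h1 : ((H - 1) / (2 * H')) * (2 * H') ≤ H - 1 := Nat.div_mul_le_self _ _
    have h2 : (((H - 1) / (2 * H') : ℕ) : ℝ) * (2 * H') ≤ H := by
      have h3 : ((H - 1) / (2 * H')) * (2 * H') ≤ H := by omega
      exact_mod_cast h3
    have h3 : (2 : ℝ) * H' ≤ H := by exact_mod_cast hHH
    rw [le_div_iff₀ hHr']
    push_cast
    have h4 : (((H - 1) / (2 * H') : ℕ) : ℝ) * H' + H' ≤ H := by linarith
    calc (H : ℝ) * ((((H - 1) / (2 * H') : ℕ) : ℝ) + 1) * H'
        = H * ((((H - 1) / (2 * H') : ℕ) : ℝ) * H' + H') := by ring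
      _ ≤ H * H := by gcongr
      _ = (H : ℝ) ^ 2 := by ring
  calc (V.card : ℝ) ≤ ((H * ((H - 1) / (2 * H') + 1) * S.card : ℕ) : ℝ) := by exact_mod_cast hcard
    _ = ((H * ((H - 1) / (2 * H') + 1) : ℕ) : ℝ) * S.card := by push_cast; ring
    _ ≤ (H : ℝ) ^ 2 / H' * S.card := by gcongr

end Pool.Agent.BSR
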