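import Pool.Agent.BSR.StA

/-!
# BSR, module CNT: size of `Rl` (helper68 for helper44)
-/

set_option autoImplicit false

namespace Pool.Agent.BSR

open Finset MeasureTheory Filter Topology Pool.Agent.BSQ
open scoped BigOperators
open Classical

private theorem cnt_mem {n0 N1 M : ℕ} {l : ℤ} {d p : ℤ × ℤ} (h : p ∈ Rl n0 N1 M l d) :
    ((n0 : ℤ) < p.1 ∧ p.1 ≤ n0 + N1) ∧ (1 ≤ p.2 ∧ p.2 ≤ M) ∧
      ((n0 : ℤ) < p.1 + d.1 ∧ p.1 + d.1 ≤ n0 + N1) ∧ (1 ≤ p.2 + d.2 ∧ p.2 + d.2 ≤ M) ∧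
      d.1 * (2 * p.1 + d.1) + d.2 * (2 * p.2 + d.2) = l := by
  unfold Rl Bx sqz at h
  obtain ⟨a, b⟩ := d
  obtain ⟨n, m⟩ := p
  simp only [Finset.mem_filter, Finset.mem_product, Finset.mem_Ioc, Finset.mem_Icc,
    Prod.mk_add_mk] at h ⊢
  obtain ⟨⟨h1, h2⟩, ⟨h3, h4⟩, h5⟩ := h
  refine ⟨h1, h2, h3, h4, ?_⟩
  rw [← h5]
  ring

private theorem cnt_dif {A : ℕ} {d : ℤ × ℤ} (h : d ∈ Dif A) :
    |d.1| < A ∧ |d.2| < A := by
  obtain ⟨h1, h2⟩ := Finset.mem_product.1 h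
  rw [Finset.mem_Ioo] at h1 h2
  exact ⟨abs_lt.2 h1, abs_lt.2 h2⟩

private theorem cnt_one (n0 N1 M A N L : ℕ) (l : ℤ) (hA : 1 ≤ A) (hMN : M * L ^ 4 ≤ N)
    (hn : n0 + N1 ≤ N) (hl : 4 * (A : ℤ) * N < (L : ℤ) ^ 4 * |l|) (d : ℤ × ℤ) (hd : d ∈ Dif A)
    (hne : (Rl n0 N1 M l d).Nonempty) : (A : ℤ) ≤ (L : ℤ) ^ 4 * |d.1| := by
  obtain ⟨p, hp⟩ := hne
  obtain ⟨⟨h1, h2⟩, ⟨h3, h4⟩, ⟨h5, h6⟩, ⟨h7, h8⟩, h9⟩ := cnt_mem hp
  obtain ⟨hd1, hd2⟩ := cnt_dif hd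
  have hn' : (n0 : ℤ) + N1 ≤ N := by exact_mod_cast hn
  have hMN' : (M : ℤ) * (L : ℤ) ^ 4 ≤ N := by exact_mod_cast hMN
  have hn00 : (0 : ℤ) ≤ n0 := Int.natCast_nonneg _
  have hA0 : (0 : ℤ) < A := by exact_mod_cast hA
  have e1 : |2 * p.1 + d.1| ≤ 2 * N := by
    rw [abs_le]
    constructor <;> linarith
  have e2 : |2 * p.2 + d.2| ≤ 2 * M := by
    rw [abs_le]
    constructor <;> linarith
  have e3 : |l| ≤ |d.1| * (2 * N) + A * (2 * M) := by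
    rw [← h9]
    refine (abs_add_le _ _).trans ?_
    rw [abs_mul, abs_mul]
    exact add_le_add (mul_le_mul_of_nonneg_left e1 (abs_nonneg _))
      (mul_le_mul hd2.le e2 (abs_nonneg _) hA0.le)
  have hL4 : (0 : ℤ) ≤ (L : ℤ) ^ 4 := by positivity
  have e4 : (L : ℤ) ^ 4 * |l| ≤ 2 * N * ((L : ℤ) ^ 4 * |d.1|) + 2 * A * (M * (L : ℤ) ^ 4) := by
    calc (L : ℤ) ^ 4 * |l| ≤ (L : ℤ) ^ 4 * (|d.1| * (2 * N) + A * (2 * M)) :=
          mul_le_mul_of_nonneg_left e3 hL4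
      _ = _ := by ring
  have e5 : 2 * (A : ℤ) * (M * (L : ℤ) ^ 4) ≤ 2 * A * N :=
    mul_le_mul_of_nonneg_left hMN' (by positivity)
  by_contra hc
  push Not at hc
  have hN0 : (0 : ℤ) ≤ N := Int.natCast_nonneg _
  have e6 : 2 * (N : ℤ) * ((L : ℤ) ^ 4 * |d.1|) ≤ 2 * N * A :=
    mul_le_mul_of_nonneg_left hc.le (by positivity)
  nlinarith

private theorem cnt_two (hLINE : St_LINE) (n0 N1 M A L : ℕ) (l : ℤ) (hA : 1 ≤ A) (d : ℤ × ℤ)
    (hAd : (A : ℤ) ≤ (L : ℤ) ^ 4 * |d.1|) (hne : (Rl n0 N1 M l d).Nonempty) :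
    ((Rl n0 N1 M l d).card : ℝ) ≤ (Int.gcd d.1 d.2 : ℝ) * (L : ℝ) ^ 4 * M / A + 1 := by
  have hd1 : d.1 ≠ 0 := by
    intro h
    rw [h, abs_zero, mul_zero] at hAd
    omega
  have hd : d ≠ 0 := by
    rintro rfl
    exact hd1 rfl
  obtain ⟨p, hp⟩ := hLINE n0 N1 M l d hd hne
  obtain ⟨a', ha'⟩ : ∃ a', a' = d.1 / (Int.gcd d.1 d.2 : ℤ) := ⟨_, rfl⟩
  have ha : d.1 = (Int.gcd d.1 d.2 : ℤ) * a' := by
    rw [ha', Int.mul_ediv_cancel' (Int.gcd_dvd_left ..)]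
  have hr : 0 < (Rl n0 N1 M l d).card := Finset.card_pos.2 hne
  have hmem : ∀ j < (Rl n0 N1 M l d).card, 1 ≤ p.2 - a' * j ∧ p.2 - a' * j ≤ M := by
    intro j hj
    have h1 : (p.1 + (d.2 / (Int.gcd d.1 d.2 : ℤ)) * j, p.2 - (d.1 / (Int.gcd d.1 d.2 : ℤ)) * j) ∈
        Rl n0 N1 M l d := by
      rw [hp]
      exact Finset.mem_image.2 ⟨j, Finset.mem_range.2 hj, rfl⟩
    have h2 := (cnt_mem h1).2.1
    rw [← ha'] at h2
    exact h2
  obtain ⟨r, hr'⟩ : ∃ r, (Rl n0 N1 M l d).card = r + 1 := ⟨(Rl n0 N1 M l d).card - 1, by omega⟩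
  have h0 := hmem 0 hr
  have h1 := hmem r (by omega)
  have h2 : |a'| * r ≤ M := by
    have h3 : |a' * r| ≤ M := by
      rw [abs_le]
      constructor <;> push_cast at h0 <;> linarith
    rwa [abs_mul, Nat.abs_cast] at h3
  have h4 : (A : ℤ) * r ≤ (Int.gcd d.1 d.2 : ℤ) * (L : ℤ) ^ 4 * M := by
    calc (A : ℤ) * r ≤ (L : ℤ) ^ 4 * |d.1| * r := mul_le_mul_of_nonneg_right hAd (by positivity)
      _ = (Int.gcd d.1 d.2 : ℤ) * (L : ℤ) ^ 4 * (|a'| * r) := by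
          have : |d.1| = (Int.gcd d.1 d.2 : ℤ) * |a'| := by
            conv_lhs => rw [ha]
            rw [abs_mul, Nat.abs_cast]
          rw [this]
          ring
      _ ≤ _ := mul_le_mul_of_nonneg_left h2 (by positivity)
  have hAr : (0 : ℝ) < A := by exact_mod_cast hA
  have h5 : (A : ℝ) * r ≤ (Int.gcd d.1 d.2 : ℝ) * (L : ℝ) ^ 4 * M := by exact_mod_cast h4
  rw [hr']
  push_cast
  have h6 : (r : ℝ) ≤ (Int.gcd d.1 d.2 : ℝ) * (L : ℝ) ^ 4 * M / A := by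
    rw [le_div_iff₀ hAr]
    linarith
  linarith

/-- the number of multiples of `g` of modulus `< A` -/
private theorem cnt_mult (A g : ℕ) (hg : 1 ≤ g) (hgA : g ≤ A) :
    ((Ioo (-(A : ℤ)) A).filter fun a => (g : ℤ) ∣ a).card ≤ 3 * (A / g) := by
  have h1 : ((Ioo (-(A : ℤ)) A).filter fun a => (g : ℤ) ∣ a) ⊆
      (Icc (-((A / g : ℕ) : ℤ)) ((A / g : ℕ) : ℤ)).image (fun k => (g : ℤ) * k) := by
    intro a ha
    obtain ⟨h1, k, rfl⟩ := Finset.mem_filter.1 ha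
    rw [Finset.mem_Ioo] at h1
    refine Finset.mem_image.2 ⟨k, ?_, rfl⟩
    have hg0 : (0 : ℤ) < g := by exact_mod_cast hg
    have h2 : |(g : ℤ) * k| < A := abs_lt.2 h1
    rw [abs_mul, Nat.abs_cast] at h2
    have h3 : |k| ≤ ((A / g : ℕ) : ℤ) := by
      have h4 : k.natAbs ≤ A / g := by
        rw [Nat.le_div_iff_mul_le hg]
        zify
        linarith
      zify at h4
      exact_mod_cast h4
    rw [Finset.mem_Icc]
    exact abs_le.1 h3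
  have h2 : 1 ≤ A / g := (Nat.one_le_div_iff hg).2 hgA
  calc ((Ioo (-(A : ℤ)) A).filter fun a => (g : ℤ) ∣ a).card ≤
        ((Icc (-((A / g : ℕ) : ℤ)) ((A / g : ℕ) : ℤ)).image (fun k => (g : ℤ) * k)).card :=
        Finset.card_le_card h1
    _ ≤ (Icc (-((A / g : ℕ) : ℤ)) ((A / g : ℕ) : ℤ)).card := Finset.card_image_le
    _ ≤ 3 * (A / g) := by
        rw [Int.card_Icc]
        generalize A / g = k at h2
        omega

private theorem cnt_fib (A g : ℕ) (hg : 1 ≤ g) (hgA : g ≤ A) :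
    ((Dif A).filter fun d => Int.gcd d.1 d.2 = g).card ≤ 9 * (A / g) ^ 2 := by
  have h1 : ((Dif A).filter fun d => Int.gcd d.1 d.2 = g) ⊆
      ((Ioo (-(A : ℤ)) A).filter fun a => (g : ℤ) ∣ a) ×ˢ
        ((Ioo (-(A : ℤ)) A).filter fun a => (g : ℤ) ∣ a) := by
    intro d hd
    obtain ⟨h1, rfl⟩ := Finset.mem_filter.1 hd
    obtain ⟨h2, h3⟩ := Finset.mem_product.1 h1
    exact Finset.mem_product.2 ⟨Finset.mem_filter.2 ⟨h2, Int.gcd_dvd_left ..⟩,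
      Finset.mem_filter.2 ⟨h3, Int.gcd_dvd_right ..⟩⟩
  calc _ ≤ _ := Finset.card_le_card h1
    _ ≤ (3 * (A / g)) * (3 * (A / g)) := by
        rw [Finset.card_product]
        exact Nat.mul_le_mul (cnt_mult A g hg hgA) (cnt_mult A g hg hgA)
    _ = 9 * (A / g) ^ 2 := by ring

private theorem cnt_num (A M g G K L : ℝ) (hA : 0 < A) (hAM : A ≤ M) (hL : 1 ≤ L)
    (hG : 1 ≤ G) (hK0 : 0 ≤ K) (hK : K * g ≤ A) (hGg : G ≤ g) :
    9 * K ^ 2 * (g * L ^ 4 * M / A + 1) ≤ 18 * L ^ 4 * M * A / G := by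
  have hM : 0 < M := by linarith
  have hg : 1 ≤ g := by linarith
  have hG0 : 0 < G := by linarith
  have hL4 : 1 ≤ L ^ 4 := one_le_pow₀ hL
  have hKG : K * G ≤ A := le_trans (mul_le_mul_of_nonneg_left hGg hK0) hK
  have hKM : K ≤ L ^ 4 * M := by
    have h1 : K ≤ K * g := le_mul_of_one_le_right hK0 hg
    have h2 : M ≤ L ^ 4 * M := le_mul_of_one_le_left hM.le hL4
    linarith
  have h1 : 9 * K ^ 2 * (g * L ^ 4 * M / A) ≤ 9 * K * (L ^ 4 * M) := by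
    have e : 9 * K ^ 2 * (g * L ^ 4 * M / A) = 9 * K * (L ^ 4 * M) * (K * g / A) := by
      field_simp
    rw [e]
    have h2 : K * g / A ≤ 1 := by
      rw [div_le_one hA]
      exact hK
    have h3 : 0 ≤ 9 * K * (L ^ 4 * M) := by positivity
    nlinarith
  have h2 : 9 * K ^ 2 ≤ 9 * K * (L ^ 4 * M) := by
    have h3 : K * K ≤ K * (L ^ 4 * M) := mul_le_mul_of_nonneg_left hKM hK0
    nlinarith
  have hKA : K ≤ A / G := by
    rw [le_div_iff₀ hG0]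
    exact hKG
  calc 9 * K ^ 2 * (g * L ^ 4 * M / A + 1) = 9 * K ^ 2 * (g * L ^ 4 * M / A) + 9 * K ^ 2 := by ring
    _ ≤ 9 * K * (L ^ 4 * M) + 9 * K * (L ^ 4 * M) := add_le_add h1 h2
    _ = 18 * (L ^ 4 * M) * K := by ring
    _ ≤ 18 * (L ^ 4 * M) * (A / G) := mul_le_mul_of_nonneg_left hKA (by positivity)
    _ = 18 * L ^ 4 * M * A / G := by ring

theorem thm_CNT (hLINE : St_LINE) : St_CNT := by
  intro n0 N1 M A N L l hA hAM hL hMN hn hl
  have h1 : ∀ d ∈ Dif A, (Rl n0 N1 M l d).Nonempty → (A : ℤ) ≤ (L : ℤ) ^ 4 * |d.1| :=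
    fun d hd hne => cnt_one n0 N1 M A N L l hA hMN hn hl d hd hne
  have h2 : ∀ d ∈ Dif A, (Rl n0 N1 M l d).Nonempty →
      ((Rl n0 N1 M l d).card : ℝ) ≤ (Int.gcd d.1 d.2 : ℝ) * (L : ℝ) ^ 4 * M / A + 1 :=
    fun d hd hne => cnt_two hLINE n0 N1 M A L l hA d (h1 d hd hne) hne
  refine ⟨h1, h2, ?_⟩
  intro G hG
  have hl0 : l ≠ 0 := by
    rintro rfl
    rw [abs_zero, mul_zero] at hl
    have : (0 : ℤ) ≤ 4 * (A : ℤ) * N := by positivity
    omega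
  have hAr : (0 : ℝ) < A := by exact_mod_cast hA
  have hAMr : (A : ℝ) ≤ M := by exact_mod_cast hAM
  have hLr : (1 : ℝ) ≤ L := by exact_mod_cast hL
  have hGr : (1 : ℝ) ≤ G := by exact_mod_cast hG
  set D := (Dif A).filter (fun d => G ≤ Int.gcd d.1 d.2) with hD
  set D' := D.filter (fun d => (Rl n0 N1 M l d).Nonempty) with hD'
  have hDD' : ∑ d ∈ D, ((Rl n0 N1 M l d).card : ℝ) = ∑ d ∈ D', ((Rl n0 N1 M l d).card : ℝ) := by
    rw [hD']
    symm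
    refine Finset.sum_filter_of_ne fun d _ hne => ?_
    rw [← Finset.card_pos]
    by_contra h0
    have : (Rl n0 N1 M l d).card = 0 := by omega
    rw [this, Nat.cast_zero] at hne
    exact hne rfl
  have hD'mem : ∀ d ∈ D', d ∈ Dif A ∧ G ≤ Int.gcd d.1 d.2 ∧ (Rl n0 N1 M l d).Nonempty := by
    intro d hd
    obtain ⟨g1, g2⟩ := Finset.mem_filter.1 hd
    obtain ⟨g3, g4⟩ := Finset.mem_filter.1 g1
    exact ⟨g3, g4, g2⟩
  have hmaps : ∀ d ∈ D', Int.gcd d.1 d.2 ∈ l.natAbs.divisors := by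
    intro d hd
    obtain ⟨g1, g2, p, hp⟩ := hD'mem d hd
    have h3 := (cnt_mem hp).2.2.2.2
    rw [Nat.mem_divisors]
    refine ⟨?_, Int.natAbs_ne_zero.2 hl0⟩
    have h4 : (Int.gcd d.1 d.2 : ℤ) ∣ l := by
      rw [← h3]
      exact dvd_add (Dvd.dvd.mul_right (Int.gcd_dvd_left ..) _)
        (Dvd.dvd.mul_right (Int.gcd_dvd_right ..) _)
    exact Int.natCast_dvd.1 h4
  rw [hDD', ← Finset.sum_fiberwise_of_maps_to hmaps]
  have hfib : ∀ g ∈ l.natAbs.divisors,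
      ∑ d ∈ D'.filter (fun d => Int.gcd d.1 d.2 = g), ((Rl n0 N1 M l d).card : ℝ) ≤
        18 * (L : ℝ) ^ 4 * M * A / G := by
    intro g _
    by_cases hne : (D'.filter (fun d => Int.gcd d.1 d.2 = g)).Nonempty
    · obtain ⟨d0, hd0⟩ := hne
      obtain ⟨g1, g2⟩ := Finset.mem_filter.1 hd0
      obtain ⟨g3, g4, g5⟩ := hD'mem d0 g1
      have hGg : G ≤ g := by rw [← g2]; exact g4
      have hg1 : 1 ≤ g := hG.trans hGg
      have hgA : g ≤ A := by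
        have h3 := h1 d0 g3 g5
        have h4 : d0.1 ≠ 0 := by
          intro h
          rw [h, abs_zero, mul_zero] at h3
          omega
        have h5 : (g : ℤ) ∣ d0.1 := by
          rw [← g2]
          exact Int.gcd_dvd_left ..
        have h6 := Int.le_of_dvd (abs_pos.2 h4) ((dvd_abs _ _).2 h5)
        have h7 := (cnt_dif g3).1
        omega
      have hK : (A / g) * g ≤ A := Nat.div_mul_le_self A g
      have hKr : ((A / g : ℕ) : ℝ) * g ≤ A := by exact_mod_cast hK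
      calc ∑ d ∈ D'.filter (fun d => Int.gcd d.1 d.2 = g), ((Rl n0 N1 M l d).card : ℝ)
          ≤ (D'.filter (fun d => Int.gcd d.1 d.2 = g)).card • ((g : ℝ) * (L : ℝ) ^ 4 * M / A + 1) := by
            refine Finset.sum_le_card_nsmul _ _ _ fun d hd => ?_
            obtain ⟨k1, k2⟩ := Finset.mem_filter.1 hd
            obtain ⟨k3, k4, k5⟩ := hD'mem d k1
            have := h2 d k3 k5
            rw [k2] at this
            exact this
        _ ≤ 9 * ((A / g : ℕ) : ℝ) ^ 2 * ((g : ℝ) * (L : ℝ) ^ 4 * M / A + 1) := by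
            rw [nsmul_eq_mul]
            refine mul_le_mul_of_nonneg_right ?_ (by positivity)
            have h3 : (D'.filter (fun d => Int.gcd d.1 d.2 = g)).card ≤ 9 * (A / g) ^ 2 := by
              refine le_trans (Finset.card_le_card ?_) (cnt_fib A g hg1 hgA)
              intro d hd
              obtain ⟨k1, k2⟩ := Finset.mem_filter.1 hd
              exact Finset.mem_filter.2 ⟨(hD'mem d k1).1, k2⟩
            exact_mod_cast h3
        _ ≤ _ := cnt_num A M g G _ L hAr hAMr hLr hGr (by positivity) hKr (by exact_mod_cast hGg)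
    · rw [Finset.not_nonempty_iff_eq_empty] at hne
      rw [hne, Finset.sum_empty]
      positivity
  refine (Finset.sum_le_card_nsmul _ _ _ hfib).trans (le_of_eq ?_)
  rw [nsmul_eq_mul]
  ring

end Pool.Agent.BSR
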