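import Pool.Agent.BSR.Defs

/-!
# BSR, statements, part B (windows, resonances, structured functions, combination)

Every proof is in the docstring.  `Pool.Agent.BSQ.thm_WEY`, `thm_VIN`, `thm_FB`, `thm_NRM`, `thm_MSS` are proved and may
be imported and used.
-/

set_option autoImplicit false

namespace Pool.Agent.BSR

open Finset MeasureTheory Filter Topology Pool.Agent.BSQ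
open scoped BigOperators
open Classical

/-! ### windows -/

/-- **NSUM** (sums of `n` over intervals of squares, and the mass of a window).
Proof.  (1) The `n` counted are consecutive, from `a` to `b`, `b ≤ N`, `b² - a² < X`:
`∑ = (b²-a²)/2 + (a+b)/2 ≤ X/2 + N`.  (2) All `n` with `n² < A+X ≤ N²` are `< N`.  Put `α = √A`, `β = √(A+X) ≤ N`.
If there is no such `n ≡ u`: `β - α ≤ q` and `X/(2q) = (β-α)(β+α)/(2q) ≤ β`.  Otherwise let `n₁ ≤ n_r` be the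
first and the last: `∑ = (n_r²-n₁²)/(2q) + (n₁+n_r)/2`, the last summand is in `[0, N]`, and
`X - 2q(α+β) ≤ n_r² - n₁² ≤ X` (`n₁ < α+q`, `n_r ≥ β-q`), so the first is in `[X/(2q) - 2N, X/(2q)]`.  (The term `n = 0`
is zero.)  (3) `∑_{k} rhoS N M k = (2/(N²M)) ∑_{m≤M} ∑_{n : k0 ≤ n²+m² < k0+X} n` and (1) for every `m`. -/
def St_NSUM : Prop :=
  (∀ N A X : ℕ, ∑ n ∈ (Icc 1 N).filter (fun n => A ≤ n ^ 2 ∧ n ^ 2 < A + X), (n : ℝ) ≤ X / 2 + N) ∧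
  (∀ N q u A X : ℕ, 1 ≤ q → q ≤ N → u < q → A + X ≤ N ^ 2 →
    |∑ n ∈ (Icc 1 N).filter (fun n => n % q = u ∧ A ≤ n ^ 2 ∧ n ^ 2 < A + X), (n : ℝ) - X / (2 * q)| ≤ 2 * N) ∧
  (∀ N M k0 X : ℕ, 1 ≤ N → 1 ≤ M → ∑ k ∈ Ico k0 (k0 + X), rhoS N M k ≤ (X + 2 * N) / (N : ℝ) ^ 2)

/-- **WA** (window, no good denominator); uses `St_NSUM`, `Pool.Agent.BSQ.St_WEY`.
Proof.  The sum is `(2/(N²M)) ∑_{n≤N} n e(n²θ) ∑_{m ≤ M, k0 ≤ n²+m² < k0+X} e(m²θ)`.  Full `n` (all `1 ≤ m ≤ M` occur: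
`k0 ≤ n²+1`, `n²+M² < k0+X`): the inner sum is `< M/Q` in modulus (`thm_WEY` with `L = M`, `K = Q`, contrapositive), and
`∑_{full} n ≤ X/2 + N` (`St_NSUM` (1), `k0 - 1 ≤ n²`; or `≤ (X+1)/2 + N`): contribution
`≤ (2/(QN²))((X+1)/2+N) ≤ 1.3X/(QN²)`.  Other `n`: `n²` in `[k0-M², k0)` or in `[k0+X-M², k0+X)`: contribution
`≤ (2/(N²M)) M · 2(M²/2+N) ≤ 4(M²+N)/N² ≤ X/(4QN²)`. -/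
def St_WA : Prop := ∀ (N M Q k0 X : ℕ) (θ : ℝ), 1 ≤ Q → 512 * Q ^ 4 ≤ M → k0 + X ≤ N ^ 2 →
  16 * Q * (M ^ 2 + N) ≤ X →
  (∀ q : ℕ, 1 ≤ q → q ≤ 16 * Q ^ 2 → 32 * (Q : ℝ) ^ 4 / (M : ℝ) ^ 2 < dI ((q : ℝ) * θ)) →
  ‖∑ k ∈ Ico k0 (k0 + X), (rhoS N M k : ℂ) * ee ((k : ℝ) * θ)‖ ≤ 2 / Q * X / (N : ℝ) ^ 2

/-- **WB1** (window, very good denominator: the sum does not depend on `M`); uses `St_NSUM`.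
Proof.  `a = round(qθ)`, `θ = a/q + τ`, `|τ| ≤ 1/(7QH2)`; `k_i = k0 + iH2`, `J_i = [k_i, k_i+H2)`, `G = ∑_{u<q} e(au²/q)`,
`Z = ∑_{i<s} e(τk_i) (H2/N²) (G/q)²`.  On `J_i`: `|e(kθ) - e(τk_i) e(ak/q)| ≤ 2π|τ|H2 ≤ 0.9/Q` and the mass of `J_i` is
`≤ (H2+2N)/N² ≤ 1.04H2/N²`: cost `≤ 0.94/Q · H2s/N²`.  (`64Q³ ≤ N` since `H2 ≤ N²`, so `q ≤ N`.)
`∑_{k∈J_i} rhoS(k) e(ak/q) = (2/(N²M)) ∑_{m≤M} e(am²/q) ∑_{n : k_i-m² ≤ n² < k_i-m²+H2} n e(an²/q)`, and the inner sum is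
`∑_{u<q} e(au²/q)(H2/(2q) + O(2N)) = GH2/(2q) + O(2Nq)` (`St_NSUM` (2)); `∑_{m≤M} e(am²/q) = (M/q)G + O(2q)`,
`|G| ≤ q`.  So it is `(H2/N²)(G/q)² + O(2qH2/(N²M)) + O(4Nq/N²)`, with `2qH2/(N²M) ≤ H2/(16Q²N²)` and
`4Nq/N² ≤ 64NQ²/N² ≤ H2/(QN²)`. -/
def St_WB1 : Prop := ∀ (N Q q k0 H2 s : ℕ) (θ : ℝ), 1 ≤ Q → 1 ≤ s → 1 ≤ q → q ≤ 16 * Q ^ 2 →
  k0 + H2 * s ≤ N ^ 2 → 64 * N * Q ^ 3 ≤ H2 → 1 ≤ N → dI ((q : ℝ) * θ) ≤ 1 / (7 * Q * H2) →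
  ∃ Z : ℂ, ∀ M : ℕ, 512 * Q ^ 4 ≤ M → M ^ 2 ≤ k0 →
    ‖(∑ k ∈ Ico k0 (k0 + H2 * s), (rhoS N M k : ℂ) * ee ((k : ℝ) * θ)) - Z‖ ≤
      4 / Q * (H2 * s) / (N : ℝ) ^ 2

/-- **KL** (Kusmin-Landau with weights and small total variation of the derivative).
Proof.  `g ν = φ(ν+1) - φ ν`, `C ν = 1/(1 - e(g ν))`, `|1 - e(x)| = 2|sin πx| ≥ 4 dI(x)`, so `|C ν| ≤ 1/(4δ)` and
`|C(ν+1) - C ν| = |e(g(ν+1)) - e(g ν)|/(|..||..|) ≤ 2π|g(ν+1)-g ν|/(16δ²)`.  `e(φ ν) = C ν (e(φ ν) - e(φ(ν+1)))`;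
summation by parts: the sum is `n₀C₀e(φ₀) - n_{K-1}C_{K-1}e(φ_K) + ∑_{0<ν<K} (n_νC_ν - n_{ν-1}C_{ν-1}) e(φ_ν)`, at most
`2N/(4δ) + N/(4δ) + N 2πδ/(16δ²) ≤ 2N/δ`. -/
def St_KL : Prop := ∀ (K : ℕ) (n φ : ℕ → ℝ) (N δ : ℝ), 0 < δ → (∀ ν : ℕ, 0 ≤ n ν ∧ n ν ≤ N) →
  (∀ ν : ℕ, ν + 1 < K → n ν ≤ n (ν + 1)) → (∀ ν : ℕ, ν < K → δ ≤ dI (φ (ν + 1) - φ ν)) →
  ∑ ν ∈ range (K - 1), |(φ (ν + 2) - φ (ν + 1)) - (φ (ν + 1) - φ ν)| ≤ δ →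
  ‖∑ ν ∈ range K, (n ν : ℂ) * ee (φ ν)‖ ≤ 2 * N / δ

/-- **WB2** (window, no resonance); uses `St_KL`.
Proof.  `β = dI(qθ)`, `a = round(qθ)`, `θ = a/q + sβ/q`, `s = ±1`.  The sum is
`(2/(N²M)) ∑_{m≤M} e(m²θ) ∑_{u<q} e(au²/q) ∑_{ν} n_ν e(sβn_ν²/q)`, where the `n_ν = n_0 + qν` are the `n ≡ u (q)`, `n ≥ 1`, with
`k0 - m² ≤ n² < k0 + X - m²` (all `≤ N`).  `φ ν = sβ(n_0+qν)²/q`: `φ(ν+1) - φ ν = sβ(2n_ν+q)`.  `|n_ν - √k0| ≤ X/√k0`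
(`n² < k0+X`; `n² ≥ k0-M²`, `M² ≤ X`, `M² ≤ k0`), so `2β|n_ν-√k0| ≤ 64Q⁴X/(M1²√k0) ≤ 2.2Q/M1` and
`βq ≤ 512Q⁶/M1² ≤ Q²/M1`.  From `32NQ³ ≤ δX`, `30Q³X ≤ M1√k0 ≤ M1N`: `δ ≥ 960Q⁶/M1`.  So `|φ(ν+1)-φ ν - 2sβ√k0| ≤ δ/100`,
hence `dI(φ(ν+1)-φ ν) ≥ 0.99δ`, and the total variation is `2β(n_last - n_first) ≤ δ/50`.  `St_KL`:
`≤ 2N/(0.99δ)` for each `m, u`.  Total `≤ (2/N²)·16Q²·2.03N/δ ≤ 65Q²N/(δN²) ≤ 3X/(QN²)`. -/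
def St_WB2 : Prop := ∀ (N M M1 Q q k0 X : ℕ) (θ δ : ℝ), 1 ≤ Q → 1 ≤ q → q ≤ 16 * Q ^ 2 → 1 ≤ N →
  k0 + X ≤ N ^ 2 → 1 ≤ M → 512 * Q ^ 4 ≤ M1 → M ^ 2 ≤ X → M ^ 2 ≤ k0 → 0 < δ →
  30 * (Q : ℝ) ^ 3 * X ≤ M1 * Real.sqrt k0 → 32 * (N : ℝ) * (Q : ℝ) ^ 3 ≤ δ * X →
  dI ((q : ℝ) * θ) ≤ 32 * (Q : ℝ) ^ 4 / (M1 : ℝ) ^ 2 → δ < dI (2 * dI ((q : ℝ) * θ) * Real.sqrt k0) →
  ‖∑ k ∈ Ico k0 (k0 + X), (rhoS N M k : ℂ) * ee ((k : ℝ) * θ)‖ ≤ 3 / Q * X / (N : ℝ) ^ 2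

/-- **WLN** (window discrepancy of two strips, away from resonances); uses `St_WA`, `St_WB1`, `St_WB2`.
Proof.  `b0 = 1/(7QH2)`, `b1 = 32Q⁴/M1²`.  If some `q ≤ 16Q²` has `dI(qθ) ≤ b0`: `St_WB1` for `M1` and `M2` (same `Z`):
`8/Q`.  Otherwise, if some `q ≤ 16Q²` has `dI(qθ) ≤ b1`: as `¬ Bad`, `dI(2 dI(qθ) √k0) > δ`, and `St_WB2` for `M1` and
for `M2`: `6/Q`.  Otherwise `St_WA` for `M1` and `M2` (`32Q⁴/M2² ≤ b1`): `4/Q`.  (`M2² ≤ H2s`, `1 ≤ M1`, `0 < δ`, `1 ≤ N`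
follow from the hypotheses.) -/
def St_WLN : Prop := ∀ (N M1 M2 Q k0 H2 s : ℕ) (δ θ : ℝ), 1 ≤ Q → 1 ≤ s → M1 ≤ M2 → 512 * Q ^ 4 ≤ M1 →
  k0 + H2 * s ≤ N ^ 2 → M2 ^ 2 ≤ k0 → 64 * N * Q ^ 3 ≤ H2 → 16 * Q * (M2 ^ 2 + N) ≤ H2 * s →
  30 * (Q : ℝ) ^ 3 * (H2 * s) ≤ M1 * Real.sqrt k0 → 32 * (N : ℝ) * (Q : ℝ) ^ 3 ≤ δ * (H2 * s) →
  ¬ Bad (16 * Q ^ 2) (1 / (7 * Q * H2)) (32 * (Q : ℝ) ^ 4 / (M1 : ℝ) ^ 2) δ k0 θ →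
  ‖∑ k ∈ Ico k0 (k0 + H2 * s), ((rhoS N M1 k - rhoS N M2 k : ℝ) : ℂ) * ee ((k : ℝ) * θ)‖ ≤
    16 / Q * (H2 * s) / (N : ℝ) ^ 2

/-! ### polynomials close to integers, square roots -/

/-- **LEVC** (a monotone convex function close to integers).
Proof.  The reflections `x ↦ a+b-x` and `f ↦ -f` reduce the four cases to `f` increasing and convex.  Let `m₀` be the least
integer with `m₀ + η ≥ f a`, `m = m₀` and `[u, v] = {x ∈ [a, b] : |f x - m₀| ≤ η}` (if it is empty put `u = b`, `v < u`... e.g.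
`u = b`, `v = a - 1`).  If `x ∈ [a, b]`, `dI(f x) ≤ η`, `x ∉ [u, v]` then `|f x - k| ≤ η` for an integer `k > m₀`, `k - η ≤ f b`.
For such `k` let `{|f - k| ≤ η} = [u_k, v_k]` (`f u_k = k - η`) and `x_k` the last point with `f x_k = k - 1 + η` (intermediate
values; `f a ≤ m₀+η ≤ k-1+η`), `x_k < u_k`.  Convexity: `(f v_k - f u_k)/(v_k - u_k) ≥ (f u_k - f x_k)/(u_k - x_k)`, so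
`v_k - u_k ≤ (2η/(1-2η))(u_k - x_k) ≤ 4η(u_k - x_k)` (`η ≤ 1/8`).  The intervals `(x_k, u_k)` are disjoint subintervals of
`[a, b]` (`f ∈ (k-1+η, k-η)` there): the sum is `≤ 4η(b-a)`. -/
def St_LEVC : Prop := ∀ (f : ℝ → ℝ) (a b η : ℝ), a ≤ b → ContinuousOn f (Set.Icc a b) →
  (MonotoneOn f (Set.Icc a b) ∨ AntitoneOn f (Set.Icc a b)) →
  (ConvexOn ℝ (Set.Icc a b) f ∨ ConcaveOn ℝ (Set.Icc a b) f) → 0 < η → η ≤ 1 / 8 →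
  ∃ (u v : ℝ) (m : ℤ), a ≤ u ∧ v ≤ b ∧ (∀ x : ℝ, u ≤ x → x ≤ v → |f x - m| ≤ η) ∧
    volume {x : ℝ | a ≤ x ∧ x ≤ b ∧ dI (f x) ≤ η ∧ ¬ (u ≤ x ∧ x ≤ v)} ≤ ENNReal.ofReal (4 * η * (b - a))

/-- **LEV** (a polynomial close to integers on a large set is close to one integer on an interval); uses `St_LEVC`.
Proof.  `d = natDegree p`.  If `d ≤ 1`, `p` is affine, one piece.  If `d ≥ 2` the real roots of `p'` and of `p''` in `(a, b)` (at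
most `(d-1) + (d-2)`) cut `[a, b]` in at most `2d - 2` intervals where `p` is monotone, and convex or concave.  So there
are at most `2(d+1)` pieces.  `St_LEVC` on each of them:
`vol G ≤ ∑_i vol(G ∩ [u_i, v_i]) + 4η(b-a) ≤ ∑_i vol(G ∩ [u_i, v_i]) + vol(G)/4`; so for some `i`
`vol(G ∩ [u_i,v_i]) ≥ (3/4) vol(G)/(2(d+1)) > 0`. -/
def St_LEV : Prop := ∀ (p : Polynomial ℝ) (a b η : ℝ) (G : Set ℝ), a ≤ b → 0 < η → η ≤ 1 / 8 →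
  MeasurableSet G → G ⊆ Set.Icc a b → (∀ x ∈ G, dI (p.eval x) ≤ η) →
  ENNReal.ofReal (16 * η * (b - a)) ≤ volume G → 0 < volume G →
  ∃ (u v : ℝ) (m : ℤ), a ≤ u ∧ u ≤ v ∧ v ≤ b ∧ (∀ x : ℝ, u ≤ x → x ≤ v → |p.eval x - m| ≤ η) ∧
    volume G ≤ ENNReal.ofReal (8 * (p.natDegree + 1)) * volume (G ∩ Set.Icc u v)

/-- **LEVD** (discrete form); uses `St_LEV`.
Proof.  `St_LEV` for the union of the `[t, t+1)`, `t ∈ G` (volume `#G > 0`); `G' = {t ∈ G : u ≤ t, t+1 ≤ v}`; at most two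
`t ∈ G` have `[t,t+1)` meeting `[u,v]` without `[t,t+1] ⊆ [u,v]`, so
`#G' + 2 ≥ vol(∪ ∩ [u,v]) ≥ #G/(8(d+1))`, and `2 ≤ #G/(16(d+1))`. -/
def St_LEVD : Prop := ∀ (p : Polynomial ℝ) (a b η : ℝ) (G : Finset ℕ), 0 < η → η ≤ 1 / 8 →
  (∀ t ∈ G, a ≤ t ∧ (t : ℝ) + 1 ≤ b) →
  (∀ t ∈ G, ∀ x : ℝ, (t : ℝ) ≤ x → x ≤ t + 1 → dI (p.eval x) ≤ η) →
  16 * η * (b - a) ≤ G.card → 32 * (p.natDegree + 1) ≤ G.card →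
  ∃ (u v : ℝ) (m : ℤ) (G' : Finset ℕ), G' ⊆ G ∧ a ≤ u ∧ u ≤ v ∧ v ≤ b ∧
    (∀ x : ℝ, u ≤ x → x ≤ v → |p.eval x - m| ≤ η) ∧ (∀ t ∈ G', u ≤ t ∧ (t : ℝ) + 1 ≤ v) ∧
    G.card ≤ 16 * (p.natDegree + 1) * G'.card

/-- **SQ** (polynomial approximation of the square root).
Proof.  For `|z| ≤ 1/L`, `σ = √(1+z)`, `|1-σ| ≤ |z|`: `q_0 = 1`, `q_{k+1} = q_k + (1+z-q_k²)/2`, `e_k = q_k - σ`: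
`e_{k+1} = e_k (1 - (q_k+σ)/2)`, and as long as `|e_k| ≤ 1/L` the bracket is at most `2/L` in modulus; so
`|e_k| ≤ (2/L)^k`.  `(2/L)² ≤ 1/L` (`L ≥ 4`), so `|e_{2B}| ≤ L^{-B}`; degree in `z` at most `2^{2B}`.
`p(s) = √s0 · q_{2B}((s-s0)/s0)`. -/
def St_SQ : Prop := ∀ B : ℕ, ∃ d : ℕ, ∀ (L : ℕ) (s0 : ℝ), 16 ≤ L → 0 < s0 →
  ∃ p : Polynomial ℝ, p.natDegree ≤ d ∧ ∀ s : ℝ, |s - s0| * L ≤ s0 →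
    |Real.sqrt s - p.eval s| ≤ Real.sqrt s0 / (L : ℝ) ^ B

/-- **DET** (`1`, `(x-y1)^{-1/2}`, `(x-y2)^{-1/2}` are quantitatively independent).
Proof.  `u_i = x - y_i`, `F(x) = √R (m1 u_1^{-1/2} - m2 u_2^{-1/2})`, `F'(x) = -(√R/2) u_2^{-3/2} g(x)`,
`g = m1 (u_2/u_1)^{3/2} - m2`.  `g' = (3/2) m1 (u_2/u_1)^{1/2} (y2-y1)/u_1² ≥ 1.5 (8L)^{-1/2} (R/(32L))/(4R²) ≥ 1/(256L²R)`
(`u_2 ≥ R/(4L)`, `u_2 < u_1 ≤ 2R`).  Let `ℓ = v - u`, `w` the midpoint.  If `g(w) ≥ 0` then `g ≥ ℓ/(1024L²R)` on `[v-ℓ/4, v]`,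
otherwise `g ≤ -ℓ/(1024L²R)` on `[u, u+ℓ/4]`; there `F'` has constant sign and `|F'| ≥ (√R/2)(2R)^{-3/2}|g| ≥ |g|/(6R)`, so
`F` varies by at least `(ℓ/4)·ℓ/(1024L²R)/(6R) = ℓ²/(24576L²R²)`; and by at most `2ε`. -/
def St_DET : Prop := ∀ (L : ℕ) (R y1 y2 u v m1 m2 K ε : ℝ), 1 ≤ L → 0 < R → 1 ≤ m1 → 1 ≤ m2 →
  y1 + R / (32 * L) ≤ y2 → R / (4 * L) ≤ u - y2 → u ≤ v → v - y1 ≤ 2 * R →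
  (∀ x : ℝ, u ≤ x → x ≤ v → |m1 / Real.sqrt (x - y1) - m2 / Real.sqrt (x - y2) - K| * Real.sqrt R ≤ ε) →
  ((v - u) / R) ^ 2 ≤ 2 ^ 16 * (L : ℝ) ^ 2 * ε

/-! ### the resonance lemma -/

/-- a resonant configuration. -/
structure RS (R L : ℕ) (S δ : ℝ) (ω ω' : ℕ → ℝ) (E : Finset (ℕ × ℕ)) : Prop where
  sub : ∀ e ∈ E, e.1 < R ∧ e.2 < R ∧ R + L * e.2 ≤ L * e.1
  w1 : ∀ t : ℕ, |ω t| * Real.sqrt R ≤ S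
  w2 : ∀ t : ℕ, |ω' t| * Real.sqrt R ≤ S
  res : ∀ e ∈ E, ∃ m : ℤ, 1 ≤ m ∧ |(ω e.1 - ω' e.2) * Real.sqrt ((e.1 : ℝ) - e.2) - m| ≤ δ

/-- **PAIR** (two close points; combinatorial).
Proof.  `Y_t = {y : (t,y) ∈ E} ⊆ [0,R)`, `#Y_t ≥ R/(8L)`.  Cut `[0,R)` in at most `R/h + 1 ≤ 2R/h` blocks of length `h`: the
number of ordered pairs of elements of `Y_t` in one block is `≥ #Y_t² h/(2R) ≥ #Y_t h/(16L)` (Cauchy-Schwarz); those with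
`|y-y'| < h/(512L²)` are at most `#Y_t (h/(256L²) + 1)`; so at least `#Y_t h/(32L)` ordered pairs (`h ≥ 2¹⁰L²`, `L ≥ 16`), i.e. at
least `#Y_t h/(64L) ≥ Rh/(512L²)` pairs `y < y + h'` with `h/(512L²) ≤ h' < h`.  Sum over `t ∈ S`; there are at most `Rh`
pairs `(y, h')`, so one of them occurs for at least `#S/(512L²)` of the `t`. -/
def St_PAIR : Prop := ∀ (R L h : ℕ) (S : Finset ℕ) (E : Finset (ℕ × ℕ)), 16 ≤ L → 2 ^ 10 * L ^ 2 ≤ h →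
  h ≤ R → S.Nonempty → (∀ e ∈ E, e.2 < R) →
  (∀ t ∈ S, R ≤ 8 * L * (E.filter (fun e => e.1 = t)).card) →
  ∃ y h' : ℕ, 1 ≤ h' ∧ h' ≤ h ∧ h ≤ 512 * L ^ 2 * h' ∧
    S.card ≤ 1024 * L ^ 2 * (S.filter (fun t => (t, y) ∈ E ∧ (t, y + h') ∈ E)).card

/-- **FAR** (two distant points; combinatorial).
Proof.  `Y_t` as in `St_PAIR`, `#Y_t ≥ R/(8L) ≥ 128`.  The ordered pairs of elements of `Y_t` with `|y-y'| < R/(32L)` are at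
most `#Y_t (R/(16L) + 1) ≤ #Y_t(#Y_t/2 + 1) ≤ (5/8)#Y_t²`; so at least `(3/16)#Y_t² ≥ R²/(512L²)` pairs with
`y' - y ≥ R/(32L)`.  Sum over `t ∈ S`; at most `R²` pairs. -/
def St_FAR : Prop := ∀ (R L : ℕ) (S : Finset ℕ) (E : Finset (ℕ × ℕ)), 16 ≤ L → 2 ^ 10 * L ≤ R →
  S.Nonempty → (∀ e ∈ E, e.2 < R) → (∀ t ∈ S, R ≤ 8 * L * (E.filter (fun e => e.1 = t)).card) →
  ∃ y1 y2 : ℕ, R + 32 * L * y1 ≤ 32 * L * y2 ∧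
    S.card ≤ 1024 * L ^ 2 * (S.filter (fun t => (t, y1) ∈ E ∧ (t, y2) ∈ E)).card

/-- **STH** (two resonances with close second points).
Proof.  `D = ω(y+h) - ω(y)` (here `wyh - wy`), `|D|√R ≤ 2S`; `r(x) = √(x-y)`, `r'(x) = √(x-y-h)`,
`κ = r - r' = h/(r+r')`.  (1): subtract the two resonances, `(wt-wy)r - (wt-wyh)r' = (wt-wy)κ + D r'`.  (2): `t - y - h ≥ R/L`; for
`x ∈ [t,t+1]` the quantities `r, r'` differ from their values at `t` by at most `√L/(2√R)`, so `κ` by at most `√L/√R`, and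
`0 ≤ κ(x) ≤ h√L/(2√R)`.  So the left side is at most `2δ + Ph√L/(2R) + (2S/√R)(√L/√R) + (2S/√R)(√L/(2√R))
= 2δ + Ph√L/(2R) + 3S√L/R ≤ 2δ + √δ/2 + 3δ` (`hLP ≤ √δR`, `SL ≤ δR`, `L ≥ 1`). -/
def St_STH : Prop := ∀ (R L t y h : ℕ) (S δ P wt wy wyh v x : ℝ) (m1 m2 : ℤ), 1 ≤ R → 1 ≤ L → 0 < δ → 1 ≤ h →
  R + L * (y + h) ≤ L * t → 0 ≤ P → (h : ℝ) * (L * P) ≤ Real.sqrt δ * R → S * L ≤ δ * R →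
  |wt| * Real.sqrt R ≤ S → |wy| * Real.sqrt R ≤ S → |wyh| * Real.sqrt R ≤ S →
  |(wt - wy) * Real.sqrt ((t : ℝ) - y) - m1| ≤ δ → |(wt - wyh) * Real.sqrt ((t : ℝ) - ((y + h : ℕ) : ℝ)) - m2| ≤ δ →
  (t : ℝ) ≤ x → x ≤ t + 1 → |wt - v| * Real.sqrt R ≤ P →
  |(wt - wy) * (Real.sqrt ((t : ℝ) - y) - Real.sqrt ((t : ℝ) - y - h)) +
    (wyh - wy) * Real.sqrt ((t : ℝ) - y - h) - (m1 - m2 : ℤ)| ≤ 2 * δ ∧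
  |(v - wy) * (Real.sqrt (x - y) - Real.sqrt (x - y - h)) +
    (wyh - wy) * Real.sqrt (x - y - h) - (m1 - m2 : ℤ)| ≤ Real.sqrt δ / 2 + 5 * δ

/-- **SPSI** (the improved approximation).
Proof.  `D, r, r', κ` as in `St_STH`, `Ψ(x) = wy + (m - D r'(x))(r(x)+r'(x))/h`.  From the hypothesis at `t`:
`|wt - Ψ(t)| ≤ 2δ/κ(t) = 2δ(r+r')(t)/h ≤ 4δ√R/h` (`t < R`).  `|m| ≤ |wt-wy|√R + |D|√R + 2δ ≤ 4S + 1 ≤ 8S`.  For `x ∈ [t,t+1]`: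
`r, r'` change by at most `√L/(2√R)`, `|m - D r'| ≤ 8S + 3S`, `r + r' ≤ 3√R`: `|Ψ(x)-Ψ(t)| ≤ (11S√L/√R + 3√R·(2S/√R)√L/(2√R))/h
= 14S√L/(√R h)`, so `|Ψ(x)-Ψ(t)|√R ≤ 14S√L/h ≤ 14δR/(√L h) ≤ δR/h` (`L ≥ 196`). -/
def St_SPSI : Prop := ∀ (R L t y h : ℕ) (S δ wt wy wyh x : ℝ) (m : ℤ), 1 ≤ R → 200 ≤ L → 0 < δ → δ ≤ 1 / 8 →
  1 ≤ h → t < R → R + L * (y + h) ≤ L * t → S * L ≤ δ * R → 1 / 4 ≤ S →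
  |wt| * Real.sqrt R ≤ S → |wy| * Real.sqrt R ≤ S → |wyh| * Real.sqrt R ≤ S →
  |(wt - wy) * (Real.sqrt ((t : ℝ) - y) - Real.sqrt ((t : ℝ) - y - h)) +
    (wyh - wy) * Real.sqrt ((t : ℝ) - y - h) - m| ≤ 2 * δ →
  (t : ℝ) ≤ x → x ≤ t + 1 →
  |wt - (wy + (m - (wyh - wy) * Real.sqrt (x - y - h)) * (Real.sqrt (x - y) + Real.sqrt (x - y - h)) / h)| *
    Real.sqrt R ≤ 5 * δ * R / h ∧ |(m : ℝ)| ≤ 8 * S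

/-- **STEP** (one step of the approximation of `ω`); uses `St_PAIR`, `St_LEVD`, `St_SQ`, `St_STH`, `St_SPSI`.
Proof.  `C = 2e + 20`; given `B`, `B' = B(k+1) + 2`, `dq` from `St_SQ` for `B'`, `d = 2dq`; `L0` large in terms of `dq`.
`E` is not empty and `m ≥ 1` gives `2S ≥ 1 - δ`, so `S ≥ 1/4`, `R ≥ LS/δ ≥ L^C/4`.  `h_* = ⌊√δR/(LP)⌋`: `h_* ≤ R`
(`P > √δ/L`) and `√δR/(LP) ≥ √δR/(LS) ≥ 1/√δ ≥ L^{C/2}`.  `St_PAIR` (with `h_*`): `y`, `h` and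
`G = {t ∈ S0 : (t,y), (t,y+h) ∈ E}`, `#G ≥ #S0/(1024L²)`.  `D = ω'(y+h) - ω'(y)`.  For `t ∈ G`, with the integers `m1, m2` of the two
resonances, `St_STH` (`v = V(x)`): `|Θ(x) - (m1-m2)| ≤ √δ/2 + 5δ` for `x ∈ [t,t+1]`, `Θ(x) = (V(x)-ω' y)(r-r') + D r'`.
`xc - y - h ≥ R/(2L)` and `|x-xc| ≤ R/(2L²)` for the `x` considered, so `St_SQ` (`s0 = xc - y`, resp. `xc - y - h`, both `≤ R`)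
gives polynomials `σ, σ'` of degree `≤ dq` with `|σ - r|, |σ' - r'| ≤ √R/L^{B'}`; `p = (V-ω' y)(σ-σ') + Dσ'` has degree `≤ 3dq` and
`|p - Θ| ≤ 20S/L^{B'} ≤ δ` on `[t,t+1]` (`|V|√R ≤ S+P ≤ 2S` there; `20S/δ ≤ 20(1/δ)^{k+1} ≤ 20L^{B(k+1)} ≤ L^{B'}`).  So
`dI(p(x)) ≤ √δ` on `[t,t+1]`, `t ∈ G`.  `St_LEVD` with `η = √δ`, `[a,b] = [xc-R/(4L²)-1, xc+R/(4L²)+1]` (`16√δR ≤ #G` as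
`#G ≥ R/(1024L^{e+2})` and `1/δ ≥ L^{2e+20}`; `32(3dq+1) ≤ #G`): `G'`, an integer `m*` with `|p - m*| ≤ √δ` at the `t ∈ G'`, so
`m1 - m2 = m*` for them.  `S1 = G'`: `#S0 ≤ 1024L²·16(3dq+1)#G' ≤ L³#G'`.
`St_SPSI` (hypothesis: part (1) of `St_STH` with `m1-m2 = m*`): `|ω t - Ψ(x)|√R ≤ 5δR/h` on `[t,t+1]`; the polynomial
`V' = ω' y + (m*-Dσ')(σ+σ')/h` has degree `≤ 2dq` and `|V'-Ψ|√R ≤ 60SR/(L^{B'}h) ≤ δR/h` (`|m*| ≤ 8S`).  So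
`|ω t - V'(x)|√R ≤ 6δR/h ≤ 6δR·512L²·2LP/(√δR) ≤ L⁴√δP` (`h ≥ h_*/(512L²)`, `h_* ≥ √δR/(2LP)`). -/
def St_STEP : Prop := ∀ k e : ℕ, ∃ C : ℕ, ∀ B : ℕ, ∃ d L0 : ℕ,
  ∀ (L R : ℕ) (S δ P xc : ℝ) (ω ω' : ℕ → ℝ) (E : Finset (ℕ × ℕ)) (S0 : Finset ℕ) (V : Polynomial ℝ),
  L0 ≤ L → RS R L S δ ω ω' E → 0 < δ → (L : ℝ) ^ C ≤ 1 / δ → 1 / δ ≤ (L : ℝ) ^ B → S ≤ (1 / δ) ^ k →
  S * L ≤ δ * R → S0.Nonempty → 0 ≤ xc → xc ≤ R → (∀ t ∈ S0, |(t : ℝ) - xc| ≤ R / (4 * (L : ℝ) ^ 2)) →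
  (∀ t ∈ S0, R ≤ 8 * L * (E.filter (fun e => e.1 = t)).card) → R ≤ L ^ e * S0.card →
  Real.sqrt δ / L < P → P ≤ S → V.natDegree ≤ d →
  (∀ t ∈ S0, ∀ x : ℝ, (t : ℝ) ≤ x → x ≤ t + 1 → |ω t - V.eval x| * Real.sqrt R ≤ P) →
  ∃ (S1 : Finset ℕ) (V' : Polynomial ℝ), S1 ⊆ S0 ∧ S0.card ≤ L ^ 3 * S1.card ∧ V'.natDegree ≤ d ∧
    ∀ t ∈ S1, ∀ x : ℝ, (t : ℝ) ≤ x → x ≤ t + 1 →
      |ω t - V'.eval x| * Real.sqrt R ≤ (L : ℝ) ^ 4 * Real.sqrt δ * P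

/-- **ENDA** (one resonance, `ω` well approximated).
Proof.  `|(v-wy)√(x-y) - m| ≤ δ + |v-wt|√(x-y) + |wt-wy||√(x-y)-√(t-y)| ≤ δ + (√δ/L)√2 + (2S/√R)(√L/(2√R))
≤ δ + 2√δ/L + δ` (`x - y ≤ R + 1 ≤ 2R`, `t - y ≥ R/L`, `SL ≤ δR`), and `2δ ≤ √δ/4`, `2/L ≤ 1/4`. -/
def St_ENDA : Prop := ∀ (R L t y : ℕ) (S δ wt wy v x : ℝ) (m : ℤ), 1 ≤ R → 8 ≤ L → 0 < δ → δ ≤ 1 / 64 →
  t < R → R + L * y ≤ L * t → S * L ≤ δ * R → |wt| * Real.sqrt R ≤ S → |wy| * Real.sqrt R ≤ S →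
  |(wt - wy) * Real.sqrt ((t : ℝ) - y) - m| ≤ δ → (t : ℝ) ≤ x → x ≤ t + 1 →
  |wt - v| * Real.sqrt R ≤ Real.sqrt δ / L →
  |(v - wy) * Real.sqrt (x - y) - m| ≤ Real.sqrt δ / 2

/-- **ENDB** (from a polynomial near an integer back to `V`).
Proof.  `ρ = √s ≥ √(R/(4L))`, `|σ - ρ| ≤ √R/(100L²M)`-small, so `σ ≥ ρ/2 > 0`.  `(V-wy)σ = m + O(η)`:
`V - wy - m/ρ = O(η)/σ + m(1/σ - 1/ρ)`; times `√R`: `η√R/σ ≤ 4√L η`, and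
`m√R|σ-ρ|/(σρ) ≤ m√R·κ√R·2·4L/R = 8Lmκ ≤ √L η` by the hypothesis on `κ`. -/
def St_ENDB : Prop := ∀ (L : ℕ) (R s σ w v η κ m : ℝ), 1 ≤ L → 0 < R → R / (4 * L) ≤ s → 0 < η → 0 ≤ m →
  0 ≤ κ → |Real.sqrt s - σ| ≤ Real.sqrt R * κ → 4 * (L : ℝ) * κ ≤ 1 → 8 * L * m * κ ≤ η →
  |(v - w) * σ - m| ≤ η → |v - w - m / Real.sqrt s| * Real.sqrt R ≤ 5 * Real.sqrt L * η

/-- **END** (the last step); uses `St_FAR`, `St_LEVD`, `St_SQ`, `St_DET`, `St_ENDA`, `St_ENDB`.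
Proof.  `C = 4e + 60`; `B' = B(k+1) + 3`, `dq` from `St_SQ` for `B'`.  As in `St_STEP`: `S ≥ 1/4`, `R ≥ L^C/4`.  `St_FAR`: `y1, y2`,
`G = {t ∈ S0 : (t,y1), (t,y2) ∈ E}`, `#G ≥ #S0/(1024L²)`.  For `i = 1, 2`, `t ∈ G`, `x ∈ [t,t+1]`, with the integer
`m_i(t) ≥ 1` of the resonance: `|(V(x)-ω' y_i)√(x-y_i) - m_i(t)| ≤ √δ/2` (`St_ENDA`).
`St_SQ` (`s0 = xc - y_i ≥ R/(2L)`, `≤ R`): polynomials `σ_i`, degree `≤ dq`, `|σ_i - √(x-y_i)| ≤ √R/L^{B'}` for `|x-xc| ≤ R/(2L²)`;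
`p_i = (V-ω' y_i)σ_i`, `|p_i - m_i(t)| ≤ √δ =: η` for `x ∈ [t,t+1]` (`|V|√R ≤ 2S` there, `3S/L^{B'} ≤ √δ/2`).  `St_LEVD` for `p_1` on
`[a,b] = [xc-R/(4L²)-1, xc+R/(4L²)+1]` and `G`: `G1, [u1,v1], m_1`; then `St_LEVD` for `p_2` on `[u1,v1]` and `G1`:
`G2, [u,v] ⊆ [u1,v1], m_2`.  `#G2 ≥ R/L^{e+5}`, `v - u ≥ #G2`, `m_i = m_i(t) ≥ 1` (`t ∈ G2`), `m_i ≤ 2S + 1 ≤ 6S`.  On `[u,v]`: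
`|(V-ω' y_i)σ_i - m_i| ≤ η`, `x - y_i ≥ R/(4L)`, so by `St_ENDB` (`κ = L^{-B'}`; `48LS ≤ L^{B'}√δ`):
`|V(x) - ω' y_i - m_i/√(x-y_i)|√R ≤ 5√L√δ`.  Subtract for `i = 1, 2`: the hypothesis of `St_DET` with
`K = ω' y_2 - ω' y_1`, `ε = 10√L√δ`; so `L^{-2(e+5)} ≤ ((v-u)/R)² ≤ 2¹⁶L²·10√L√δ ≤ L⁴√δ ≤ L⁴L^{-C/2}`, a contradiction. -/
def St_END : Prop := ∀ k e : ℕ, ∃ C : ℕ, ∀ B d : ℕ, ∃ L0 : ℕ,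
  ∀ (L R : ℕ) (S δ xc : ℝ) (ω ω' : ℕ → ℝ) (E : Finset (ℕ × ℕ)) (S0 : Finset ℕ) (V : Polynomial ℝ),
  L0 ≤ L → 1 ≤ R → RS R L S δ ω ω' E → 0 < δ → (L : ℝ) ^ C ≤ 1 / δ → 1 / δ ≤ (L : ℝ) ^ B → S ≤ (1 / δ) ^ k →
  S * L ≤ δ * R → S0.Nonempty → 0 ≤ xc → xc ≤ R → (∀ t ∈ S0, |(t : ℝ) - xc| ≤ R / (4 * (L : ℝ) ^ 2)) →
  (∀ t ∈ S0, R ≤ 8 * L * (E.filter (fun e => e.1 = t)).card) → R ≤ L ^ e * S0.card → V.natDegree ≤ d →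
  (∀ t ∈ S0, ∀ x : ℝ, (t : ℝ) ≤ x → x ≤ t + 1 →
    |ω t - V.eval x| * Real.sqrt R ≤ Real.sqrt δ / L) → False

/-- **RESC** (no dense resonance); uses `St_STEP`, `St_END`.
Proof.  `J = 4k + 3`, `e = 3J + 4`, `C` larger than the constants of `St_STEP k e`, `St_END k e` and `16`; given `B` take `d`
from `St_STEP`, `L0` large.  (`E` is not empty; as in `St_STEP`, `S ≥ 1/4` and `R ≥ L^C/4`.)  `w = ⌊R/(4L²)⌋`; `[0,R)` is covered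
by at most `R/w + 1 ≤ 9L²` blocks `{jw, .., jw+w-1}`, so one of them, `X0` (`xc = jw < R`), has
`#{e ∈ E : e.1 ∈ X0} ≥ R²/(9L³)`.  `S_0 = {t ∈ X0 : deg t ≥ R/(8L)}`, where `deg t = #{e ∈ E : e.1 = t} ≤ R`; the other
`t ∈ X0` contribute `≤ w R/(8L) ≤ R²/(32L³)`, so `#S_0 ≥ R/(13L³) ≥ R/L⁴`.  Start with `V_0 = 0`, `P_0 = S`.  As long as `P_j > √δ/L` and `j < J` apply
`St_STEP`: `#S_{j+1} ≥ #S_j/L³`, `P_{j+1} = L⁴√δP_j ≤ δ^{1/4}P_j` (`L¹⁶ ≤ 1/δ`).  `R ≤ L^{4+3j}#S_j ≤ L^e #S_j`.  After at most `J`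
steps `P_j ≤ √δ/L`: `P_J ≤ δ^{J/4}S ≤ δ^{3/4} ≤ √δ/L`.  Then `St_END`. -/
def St_RESC : Prop := ∀ k : ℕ, ∃ C : ℕ, ∀ B : ℕ, ∃ L0 : ℕ,
  ∀ (L R : ℕ) (S δ : ℝ) (ω ω' : ℕ → ℝ) (E : Finset (ℕ × ℕ)),
  L0 ≤ L → RS R L S δ ω ω' E → 0 < δ → (L : ℝ) ^ C ≤ 1 / δ → 1 / δ ≤ (L : ℝ) ^ B → S ≤ (1 / δ) ^ k →
  S * L ≤ δ * R → 1 ≤ R → R ^ 2 ≤ L * E.card → False

/-- **RESP** (pigeonholes).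
Proof.  The set has more than `R²/L` elements.  One `q ≤ Q ≤ L` for at least `R²/L²` of them; `q(W-W') = n + sβ`, `n = round`,
`β = dI`, `s = ±1` (`s = 1` if `q(W-W') ≥ n`): one sign for at least half of them; `b0 < β ≤ b1 ≤ 2^L b0`, so
`2^i b0 < β ≤ 2^{i+1} b0` for some `i < L`: one `i` for at least `1/L` of them; `B = 2^i b0` (`B < β ≤ b1`). -/
def St_RESP : Prop := ∀ (L R Q : ℕ) (lam b0 b1 δ : ℝ) (W W' : ℕ → ℝ), 1 ≤ L → Q ≤ L → 0 < b0 → b1 ≤ 2 ^ L * b0 →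
  (R : ℝ) ^ 2 / L < (((range R ×ˢ range R).filter (fun e : ℕ × ℕ => R + L * e.2 ≤ L * e.1 ∧ ∃ q : ℕ, 1 ≤ q ∧ q ≤ Q ∧
    b0 < dI (q * (W e.1 - W' e.2)) ∧ dI (q * (W e.1 - W' e.2)) ≤ b1 ∧
    dI (lam * dI (q * (W e.1 - W' e.2)) * Real.sqrt ((e.1 : ℝ) - e.2)) ≤ δ)).card : ℝ) →
  ∃ (q : ℕ) (s B : ℝ) (E3 : Finset (ℕ × ℕ)), 1 ≤ q ∧ q ≤ Q ∧ (s = 1 ∨ s = -1) ∧ b0 ≤ B ∧ B ≤ b1 ∧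
    (R : ℝ) ^ 2 ≤ 2 * (L : ℝ) ^ 3 * E3.card ∧
    ∀ e ∈ E3, e.1 < R ∧ e.2 < R ∧ R + L * e.2 ≤ L * e.1 ∧ ∃ (β : ℝ) (n : ℤ),
      q * (W e.1 - W' e.2) = n + s * β ∧ B < β ∧ β ≤ 2 * B ∧ dI (lam * β * Real.sqrt ((e.1 : ℝ) - e.2)) ≤ δ

/-- **RESA** (localisation to an arc).
Proof.  `n_a = ⌊1/(2B)⌋ ≥ 16`, `2B ≤ 1/n_a ≤ 4B`; `cr x = x - round x`.
For `α < n_a` let `T'_α = {t' < R : ⌊n_a fract(W' t')⌋ = α}`, `T_α = {t < R : cr(W t - α/n_a) ∈ [-1/n_a, 2/n_a)}`; every `t` is in at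
most `3` of the `T_α`, every `t'` in one `T'_α`, and every `(t,t') ∈ E3` is in `T_α × T'_α` for some `α`
(`cr(W' t'-α/n_a) ∈ [0, 1/n_a)`, and adding `sβ`, `|sβ| ≤ 2B ≤ 1/n_a`).  Let `e_α = #(E3 ∩ T_α×T'_α) ≤ #T_α #T'_α`.  If all
`e_α < R²/L⁷`: `#E3 ≤ ∑e_α ≤ (R/L^{7/2}) ∑(#T_α#T'_α)^{1/2} ≤ (R/L^{7/2})(3R·R)^{1/2} < R²/(2L³)` (`L ≥ 13`, `R ≥ 1`), a contradiction.  Fix `α`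
with `e_α ≥ R²/L⁷`; `ω t = s cr(W t - α/n_a)` for `t ∈ T_α`, `0` otherwise, `ω' t' = s cr(W' t' - α/n_a)` on `T'_α`, `0` otherwise;
`E' = E3 ∩ T_α×T'_α`.  `|ω|, |ω'| ≤ 2/n_a ≤ 8B`.  For `(t,t') ∈ E'`: `cr(W t-α/n_a) - cr(W' t'-α/n_a) ≡ W t - W' t' ≡ sβ (mod 1)` and both
sides have modulus `< 1/2` (`3/n_a ≤ 3/16`, `2B ≤ 1/16`), so they are equal; multiply by `s`. -/
def St_RESA : Prop := ∀ (L R : ℕ) (B s : ℝ) (W W' : ℕ → ℝ) (E3 : Finset (ℕ × ℕ)), 13 ≤ L → 1 ≤ R → 0 < B →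
  B ≤ 1 / 32 → (s = 1 ∨ s = -1) → (R : ℝ) ^ 2 ≤ 2 * (L : ℝ) ^ 3 * E3.card →
  (∀ e ∈ E3, e.1 < R ∧ e.2 < R ∧ ∃ (β : ℝ) (n : ℤ), W e.1 - W' e.2 = n + s * β ∧ B < β ∧ β ≤ 2 * B) →
  ∃ (ω ω' : ℕ → ℝ) (E' : Finset (ℕ × ℕ)), E' ⊆ E3 ∧ R ^ 2 ≤ L ^ 7 * E'.card ∧
    (∀ t, |ω t| ≤ 8 * B) ∧ (∀ t, |ω' t| ≤ 8 * B) ∧
    ∀ e ∈ E', ∀ (β : ℝ) (n : ℤ), W e.1 - W' e.2 = n + s * β → B < β → β ≤ 2 * B → ω e.1 - ω' e.2 = β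

/-- **RES** (few resonant pairs of tiles); uses `St_RESP`, `St_RESA`, `St_RESC`.
Proof.  `C = 8C' + 8`, `C'` from `St_RESC` for `k + 1`; `L0` large.  Suppose the set has more than `R²/L` elements (so `R ≥ 1`).
`St_RESP`: `q, s, B, E3`; `St_RESA` with `qW, qW'` (`B ≤ b1 ≤ 1/32`): `ω, ω', E'`.  For `(t,t') ∈ E'`, with `β, n` from `St_RESP`:
`λω t - λω' t' = λβ`, and `λβ√(t-t')` is within `δ` of an integer `m`, and `≥ λb0√(R/L) ≥ 4δ√L > 2δ`, so `m ≥ 1`.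
`S = 8λb1√R`.  `St_RESC` with `L⁸` for `L`, `B`, `k+1`, `λω`, `λω'`, `E'`: `S ≤ 8(1/δ)^k ≤ (1/δ)^{k+1}`, `S L⁸ = 8λb1√R L⁸ ≤ δR`,
`R² ≤ L⁷#E'`, `R ≤ L(t-t') ≤ L⁸(t-t')`, `(L⁸)^{C'} ≤ 1/δ ≤ (L⁸)^B`.  Contradiction. -/
def St_RES : Prop := ∀ k : ℕ, ∃ C : ℕ, ∀ B : ℕ, ∃ L0 : ℕ,
  ∀ (L R Q : ℕ) (lam b0 b1 δ : ℝ) (W W' : ℕ → ℝ), L0 ≤ L → Q ≤ L → 0 < lam → 0 < b0 → b0 ≤ b1 →
  b1 ≤ 1 / 32 → 0 < δ → (L : ℝ) ^ C ≤ 1 / δ → 1 / δ ≤ (L : ℝ) ^ B →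
  lam * b1 * Real.sqrt R ≤ (1 / δ) ^ k → lam * b1 * (L : ℝ) ^ 10 ≤ δ * Real.sqrt R →
  4 * δ * L ≤ lam * b0 * Real.sqrt R → b1 ≤ 2 ^ L * b0 →
  (((range R ×ˢ range R).filter (fun e : ℕ × ℕ => R + L * e.2 ≤ L * e.1 ∧ ∃ q : ℕ, 1 ≤ q ∧ q ≤ Q ∧
    b0 < dI (q * (W e.1 - W' e.2)) ∧ dI (q * (W e.1 - W' e.2)) ≤ b1 ∧
    dI (lam * dI (q * (W e.1 - W' e.2)) * Real.sqrt ((e.1 : ℝ) - e.2)) ≤ δ)).card : ℝ) ≤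
    (R : ℝ) ^ 2 / L

/-! ### structured functions and combination -/

/-- **STS** (structured times structured); uses `St_FB`.
Proof.  Let `(y,i)` be tile-good if `(y+iH').val % H + H' ≤ H` and `(y-iH').val % H + 1 ≥ H'`.  Then for all `k` in the window `y+k` is
in the tile `t = tl H (y+iH')` and `y-k` in the tile `t' = tl H (y-iH')`, and the modulus of the inner sum over `k` is at most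
`|∑_k D(k) ch (z t) k · conj(ch (z' t') k)| = |∑_k D(k) ee(kθ)|`, `θ = ((z t).val - (z' t').val)/P` (`St_FB` (1)): at most `σ` if
not `Bad` at `iH'`, at most `m0` in any case.  For each `i` the `y` that are not tile-good are at most `2(H'/H)P` in number
(`P = HT`), and there the modulus is `≤ m0`. -/
def St_STS : Prop := ∀ (P H T H' i0 i1 Q : ℕ) [NeZero P] (z z' : ℕ → ZMod P) (c c' : ℕ → ℂ) (D : ℕ → ℝ)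
  (b0 b1 δ σ m0 : ℝ), P = H * T → 1 ≤ H' → 2 * H' ≤ H → (∀ t, ‖c t‖ ≤ 1) → (∀ t, ‖c' t‖ ≤ 1) →
  0 ≤ σ → i0 ≤ i1 →
  (∀ i : ℕ, i0 ≤ i → i < i1 → ∑ k ∈ Ico (i * H') ((i + 1) * H'), |D k| ≤ m0) →
  (∀ i : ℕ, i0 ≤ i → i < i1 → ∀ θ : ℝ, ¬ Bad Q b0 b1 δ ((i * H' : ℕ) : ℝ) θ →
    ‖∑ k ∈ Ico (i * H') ((i + 1) * H'), (D k : ℂ) * ee ((k : ℝ) * θ)‖ ≤ σ) →
  1 / (P : ℝ) * ∑ y : ZMod P, ‖∑ i ∈ Ico i0 i1, ∑ k ∈ Ico (i * H') ((i + 1) * H'), (D k : ℂ) *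
    ((c (tl H (y + (k : ZMod P))) * ch (z (tl H (y + (k : ZMod P)))) (y + (k : ZMod P))) *
     (c' (tl H (y - (k : ZMod P))) * ch (z' (tl H (y - (k : ZMod P)))) (y - (k : ZMod P))))‖ ≤
    ((i1 : ℝ) - i0) * (σ + 2 * ((H' : ℝ) / H) * m0) +
    m0 / P * ((((univ : Finset (ZMod P)) ×ˢ Ico i0 i1).filter (fun e : ZMod P × ℕ =>
      Bad Q b0 b1 δ ((e.2 * H' : ℕ) : ℝ)
        ((((z (tl H (e.1 + ((e.2 * H' : ℕ) : ZMod P)))).val : ℝ) -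
          ((z' (tl H (e.1 - ((e.2 * H' : ℕ) : ZMod P)))).val : ℝ)) / P))).card : ℝ)

/-- **CBD** (from points and windows to pairs of tiles).
Proof.  For `(y, i)`, `k = iH' < N²`: `ŷ = y.val + P`, `a = ŷ + k`, `b = ŷ - k`, both in `[0, 3P)` (`5N² ≤ P`), `t = a/H`,
`t' = b/H < 3T`, and `tl H (y+k) = t % T`, `tl H (y-k) = t' % T` (`(a % (HT))/H = (a/H) % T`).  `2k = a - b`, so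
`|2k - (t-t')H| < H`; with `x = (t-t')H/2`, `|k-x| < H/2`, `|√k-√x| ≤ (H/2)/√k`.  `k ≥ i0H' ≥ H`, so `t - t' > 2k/H - 1 ≥ k/H > 0` and
`3T ≤ 48N²/H ≤ L i0H'/H ≤ L(t-t')`.  If `Bad` at `k` with `q`, `β = dI(qθ)`: `dI(2β√x) ≤ δ + 2β|√k-√x| ≤ δ + b1H/√k ≤ 2δ`, and
`2β√x = √(2H) β √(t-t')`.  So `(t,t')` is in the set on the right.  For given `(t,t')` there are at most `H` values of `a`, and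
then, as `b = a - 2iH'` is in an interval of length `H`, at most `H/(2H') + 1 ≤ H/H'` values of `i`; `(a, i)` determines `(y, i)`. -/
def St_CBD : Prop := ∀ (P H T H' i0 i1 Q N L : ℕ) [NeZero P] (z z' : ℕ → ZMod P) (b0 b1 δ : ℝ),
  P = H * T → 1 ≤ H' → 2 * H' ≤ H → i1 * H' ≤ N ^ 2 → 5 * N ^ 2 ≤ P → P ≤ 16 * N ^ 2 → H ≤ i0 * H' →
  48 * N ^ 2 ≤ L * (i0 * H') → 0 < δ → 0 ≤ b1 → b1 * H ≤ δ * Real.sqrt ((i0 * H' : ℕ) : ℝ) →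
  ((((univ : Finset (ZMod P)) ×ˢ Ico i0 i1).filter (fun e : ZMod P × ℕ =>
      Bad Q b0 b1 δ ((e.2 * H' : ℕ) : ℝ)
        ((((z (tl H (e.1 + ((e.2 * H' : ℕ) : ZMod P)))).val : ℝ) -
          ((z' (tl H (e.1 - ((e.2 * H' : ℕ) : ZMod P)))).val : ℝ)) / P))).card : ℝ) ≤
  (H : ℝ) ^ 2 / H' *
    (((range (3 * T) ×ˢ range (3 * T)).filter (fun e : ℕ × ℕ => 3 * T + L * e.2 ≤ L * e.1 ∧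
      ∃ q : ℕ, 1 ≤ q ∧ q ≤ Q ∧
      b0 < dI (q * (((z (e.1 % T)).val : ℝ) / P - ((z' (e.2 % T)).val : ℝ) / P)) ∧
      dI (q * (((z (e.1 % T)).val : ℝ) / P - ((z' (e.2 % T)).val : ℝ) / P)) ≤ b1 ∧
      dI (Real.sqrt (2 * H) * dI (q * (((z (e.1 % T)).val : ℝ) / P - ((z' (e.2 % T)).val : ℝ) / P)) *
        Real.sqrt ((e.1 : ℝ) - e.2)) ≤ 2 * δ)).card : ℝ)

/-- the parameters of the window argument (`Q = L^{e+2}`, `Λ = L^{2e+5}`, `H' = H2 s`). -/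
structure SP (k e B CR L N M1 M2 H T H2 s i0 i1 : ℕ) (δ b0 b1 : ℝ) : Prop where
  hs : 1 ≤ s
  hM1 : 512 * (L ^ (e + 2)) ^ 4 ≤ M1
  hH2 : 64 * N * (L ^ (e + 2)) ^ 3 ≤ H2
  hX : 16 * L ^ (e + 2) * (M2 ^ 2 + N) ≤ H2 * s
  hHl : L ^ (e + 2) * (H2 * s) ≤ H
  h48 : 48 * N ^ 2 ≤ L ^ (2 * e + 5) * (i0 * (H2 * s))
  hi0 : L ^ (2 * e + 5) * (i0 * (H2 * s)) ≤ 48 * N ^ 2 + L ^ (2 * e + 5) * (H2 * s)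
  hi : i0 ≤ i1
  hi1 : i1 * (H2 * s) ≤ N ^ 2
  hi1' : N ^ 2 ≤ i1 * (H2 * s) + H2 * s
  hHi : H ≤ i0 * (H2 * s)
  hMi : M2 ^ 2 ≤ i0 * (H2 * s)
  hδ : 0 < δ
  hb0 : b0 = 1 / (7 * (L : ℝ) ^ (e + 2) * H2)
  hb1 : b1 = 32 * ((L : ℝ) ^ (e + 2)) ^ 4 / (M1 : ℝ) ^ 2
  w1 : 30 * ((L : ℝ) ^ (e + 2)) ^ 3 * (H2 * s) ≤ M1 * Real.sqrt (i0 * (H2 * s))
  w2 : 32 * (N : ℝ) * ((L : ℝ) ^ (e + 2)) ^ 3 ≤ δ * (H2 * s)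
  c1 : b1 * H ≤ δ * Real.sqrt (i0 * (H2 * s))
  r1 : b0 ≤ b1
  r2 : b1 ≤ 1 / 32
  r3 : Real.sqrt (2 * H) * b1 * Real.sqrt (3 * T) ≤ (1 / (2 * δ)) ^ k
  r4 : Real.sqrt (2 * H) * b1 * ((L : ℝ) ^ (2 * e + 5)) ^ 10 ≤ 2 * δ * Real.sqrt (3 * T)
  r5 : 4 * (2 * δ) * (L : ℝ) ^ (2 * e + 5) ≤ Real.sqrt (2 * H) * b0 * Real.sqrt (3 * T)
  r6 : b1 ≤ 2 ^ (L ^ (2 * e + 5)) * b0
  r7 : ((L : ℝ) ^ (2 * e + 5)) ^ CR ≤ 1 / (2 * δ)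
  r8 : 1 / (2 * δ) ≤ ((L : ℝ) ^ (2 * e + 5)) ^ B

/-- **SPAR** (the parameters exist).
Proof.  `Q = L^{e+2}`, `Λ = L^{2e+5}`, `E5 = 12e+30` (so `NM1/(2L^{E5}) ≤ H ≤ NM1/L^{E5}`), `E6 = E5+4e+9`,
`E7 = E6+3e+8`, `δ = L^{E6}/M1`, `H2 = ⌊NM1/L^{E7}⌋`, `s = ⌊H/(L^{e+2}H2)⌋`, `H' = H2 s`, `i0 = ⌊48N²/(ΛH')⌋ + 1`, `i1 = ⌊N²/H'⌋`,
`b0 = 1/(7QH2)`, `b1 = 32Q⁴/M1²`; `C` large in terms of `e`, `k0`, `CR`.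
`H' ∈ [H/(2L^{e+2}), H/L^{e+2}]` (`H2 ≤ H/(2L^{e+2})`); `i0H' ≥ 48N²/Λ ≥ H`, `√(i0H') ≥ N/L^{e+3}`; `i0 ≤ i1` since
`i0H' ≤ 48N²/Λ + H' ≤ N²/2`.  `M2² ≤ L²M1² ≤ 48N²/Λ`; `64NQ³ ≤ H2` and `512Q⁴ ≤ M1` (`M1 ≥ L^C`); `16Q(M2²+N) ≤ H'`
(`M2² ≤ L²M1²`, `H' ≥ NM1/(4L^{E5+e+2})`, `N ≥ L^C M1`, `M1 ≥ L^C`); `30Q³H' ≤ 30L^{3e+6}NM1/L^{E5+e+2} ≤ M1N/L^{e+3}`;
`δH' ≥ N L^{E6-E5-e-2}/4 ≥ 32N L^{3e+6}`; `b1H ≤ 32L^{4e+8}N/(M1L^{E5}) ≤ δN/L^{e+3}`.  `√(2H)√(3T) = √(6P)`, between `5N` and `10N`;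
`b0 ≤ b1` (`M1² ≤ 224Q⁵H2`), `b1 ≤ 1/32`; `Λ^{CR} ≤ 1/(2δ) = M1/(2L^{E6}) ≤ N ≤ Λ^B`; `√(6P) b1 ≤ 320NL^{4e+8}/M1² ≤ N ≤ M1^{k0}
≤ (1/(2δ))^{2k0}` (`M1 ≥ 4L^{2E6}`); r4: times `√(3T)`: `√(6P) b1Λ¹⁰ ≤ 320NL^{24e+58}/M1²` and `2δ·3T ≥ 2L^{E6}·15NL^{E5}/M1²`
(`T ≥ 5N²/H`); r5: `√(6P) b0 ≥ 5N L^{E7}/(7L^{e+2}NM1)` and `E7 - e - 2 ≥ E6 + 2e + 6`; r6: `b1/b0 ≤ 224 L^{5e+10}N/M1 ≤ L^{5e+11+B}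
≤ 2^Λ` (`L0` depends on `B`). -/
def St_SPAR : Prop := ∀ k0 e CR : ℕ, ∃ C : ℕ, ∀ B : ℕ, ∃ L0 : ℕ, ∀ L : ℕ, L0 ≤ L →
  ∀ (N M1 M2 P H T : ℕ), L ^ C ≤ M1 → M1 ≤ M2 → M2 ≤ L * M1 → L ^ C * M2 ≤ N → N ≤ M1 ^ k0 →
  N ≤ L ^ B → P = H * T → 5 * N ^ 2 ≤ P → P ≤ 16 * N ^ 2 → H * L ^ (12 * e + 30) ≤ N * M1 →
  N * M1 ≤ 2 * H * L ^ (12 * e + 30) →
  ∃ (H2 s i0 i1 : ℕ) (δ b0 b1 : ℝ), SP (2 * k0) e B CR L N M1 M2 H T H2 s i0 i1 δ b0 b1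

/-- **WINB** (windows that are not bad); uses `St_WLN`.
Proof.  `St_WLN` with `Q = L^{e+2}`, `k0 = i H2 s` (`i0 H2 s ≤ k0`, `k0 + H2 s ≤ i1 H2 s ≤ N²`, `√(i0 H2 s) ≤ √k0`). -/
def St_WINB : Prop := ∀ (k e B CR L N M1 M2 H T H2 s i0 i1 : ℕ) (δ b0 b1 : ℝ), 1 ≤ L →
  SP k e B CR L N M1 M2 H T H2 s i0 i1 δ b0 b1 → M1 ≤ M2 → ∀ i : ℕ, i0 ≤ i → i < i1 → ∀ θ : ℝ,
  ¬ Bad (16 * (L ^ (e + 2)) ^ 2) b0 b1 δ ((i * (H2 * s) : ℕ) : ℝ) θ →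
  ‖∑ k ∈ Ico (i * (H2 * s)) ((i + 1) * (H2 * s)), ((rhoS N M1 k - rhoS N M2 k : ℝ) : ℂ) * ee ((k : ℝ) * θ)‖ ≤
    16 / (L : ℝ) ^ (e + 2) * (H2 * s) / (N : ℝ) ^ 2

/-- **BADB** (few bad points and windows); uses `St_CBD`, `St_RES`.
Proof.  `CR` from `St_RES` for `k`, `L0` such that `L^{2e+5} ≥ L0'` and `L ≥ 16`.  `St_CBD` with `Q := 16(L^{e+2})²`, `L := Λ = L^{2e+5}`,
`H' = H2 s` (`2H' ≤ H`), then `St_RES` with `L := Λ`, `R = 3T`, `lam = √(2H)`, `δ := 2δ`, the same `Q ≤ Λ`,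
`W t = (z (t % T)).val/P`, `W' t = (z' (t % T)).val/P`.  (`H ≥ 1`; `b0 > 0`.) -/
def St_BADB : Prop := ∀ k e : ℕ, ∃ CR : ℕ, ∀ B : ℕ, ∃ L0 : ℕ, ∀ L : ℕ, L0 ≤ L →
  ∀ (N M1 M2 P H T H2 s i0 i1 : ℕ) [NeZero P] (δ b0 b1 : ℝ) (z z' : ℕ → ZMod P),
  SP k e B CR L N M1 M2 H T H2 s i0 i1 δ b0 b1 → 1 ≤ N → P = H * T → 5 * N ^ 2 ≤ P → P ≤ 16 * N ^ 2 →
  ((((univ : Finset (ZMod P)) ×ˢ Ico i0 i1).filter (fun e' : ZMod P × ℕ =>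
      Bad (16 * (L ^ (e + 2)) ^ 2) b0 b1 δ ((e'.2 * (H2 * s) : ℕ) : ℝ)
        ((((z (tl H (e'.1 + ((e'.2 * (H2 * s) : ℕ) : ZMod P)))).val : ℝ) -
          ((z' (tl H (e'.1 - ((e'.2 * (H2 * s) : ℕ) : ZMod P)))).val : ℝ)) / P))).card : ℝ) ≤
  (H : ℝ) ^ 2 / (H2 * s) * ((3 * T : ℝ) ^ 2 / (L : ℝ) ^ (2 * e + 5))

/-- **SSB** (structured functions are negligible against the difference of two strips); uses `St_SPAR`, `St_WINB`,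
`St_BADB`, `St_STS`, `St_NSUM`, `Pool.Agent.BSQ.St_MSS`.
Proof.  `CR` from `St_BADB` for `2k0, e`; `C` from `St_SPAR` (and `C ≥ 12e + 40`).  `Q = L^{e+2}`, `Λ = L^{2e+5}`, `H' = H2 s`.
Masses of windows: `St_NSUM` (3): `∑_{window}|rhoS N M1 - rhoS N M2| ≤ 2(H'+2N)/N² ≤ m0 := 6H'/N²`.  `St_STS` with `Q := 16Q²`,
`σ = 16/Q · H'/N²` (`St_WINB`), and `St_BADB`: `(m0/P)(H²/H')9T²/Λ = 54P/(N²Λ) ≤ 864/Λ`.  Sum: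
`(i1-i0)(σ + 2(H'/H)m0) + 864/Λ ≤ (N²/H')(..) + 864/Λ ≤ 16/L^{e+2} + 12/L^{e+2} + 864/L^{2e+5} ≤ L^{-e}`.
Tails: `St_MSS`: `∑_{k < i0H'} ≤ 2i0H'/N² ≤ 2(48/Λ + H'/N²) ≤ L^{-e}/2` (`H' ≤ H ≤ NM1/L^{12e+30}`), and the upper one
`≤ (H'+M²+2N)/N² ≤ L^{-e}/2` (`hi1'`). -/
def St_SSB : Prop := ∀ k0 e : ℕ, ∃ C : ℕ, ∀ B : ℕ, ∃ L0 : ℕ, ∀ L : ℕ, L0 ≤ L →
  ∀ (N M1 M2 P H T : ℕ) [NeZero P], L ^ C ≤ M1 → M1 ≤ M2 → M2 ≤ L * M1 → L ^ C * M2 ≤ N → N ≤ M1 ^ k0 →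
  N ≤ L ^ B → P = H * T → 5 * N ^ 2 ≤ P → P ≤ 16 * N ^ 2 → H * L ^ (12 * e + 30) ≤ N * M1 →
  N * M1 ≤ 2 * H * L ^ (12 * e + 30) →
  ∃ H' i0 i1 : ℕ, 1 ≤ H' ∧ i0 ≤ i1 ∧ i1 * H' ≤ N ^ 2 ∧
    (∑ k ∈ range (i0 * H'), rhoS N M1 k + ∑ k ∈ Ico (i1 * H') (2 * N ^ 2 + 1), rhoS N M1 k ≤
      1 / (L : ℝ) ^ e) ∧
    (∑ k ∈ range (i0 * H'), rhoS N M2 k + ∑ k ∈ Ico (i1 * H') (2 * N ^ 2 + 1), rhoS N M2 k ≤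
      1 / (L : ℝ) ^ e) ∧
    ∀ (z z' : ℕ → ZMod P) (c c' : ℕ → ℂ), (∀ t, ‖c t‖ ≤ 1) → (∀ t, ‖c' t‖ ≤ 1) →
    1 / (P : ℝ) * ∑ y : ZMod P, ‖∑ i ∈ Ico i0 i1, ∑ k ∈ Ico (i * H') ((i + 1) * H'),
      ((rhoS N M1 k - rhoS N M2 k : ℝ) : ℂ) *
      ((c (tl H (y + (k : ZMod P))) * ch (z (tl H (y + (k : ZMod P)))) (y + (k : ZMod P))) *
       (c' (tl H (y - (k : ZMod P))) * ch (z' (tl H (y - (k : ZMod P)))) (y - (k : ZMod P))))‖ ≤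
      1 / (L : ℝ) ^ e

/-- **COML** (combination); uses `St_STRL`, `St_NRM`.
Proof.  `ρ = ρ1 - ρ2`, `∑|ρ| ≤ 4`.  `St_STRL` for `f` with `η1` and for `g` with `η2`:
`f = f' + ∑_{i<I} f_i`, `f_i(u) = c_i(tl u) ch(z_i(tl u)) u`, `|f_i| ≤ 1`, `I ≤ 1/η1²`; `g = g' + ∑_{j<J} g_j`, `J ≤ 1/η2²`.
`T_ρ(f,g) = T_ρ(f',g) + ∑_i T_ρ(f_i,g') + ∑_{i,j} T_ρ(f_i,g_j)`; `n2` of the first `≤ 2υ1`, of each of the second `≤ 2υ2`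
(difference of two measures).  `T_ρ(f_i,g_j) = T_{ρm} + T_{ρr}`, `ρm` the restriction to `[i0H', i1H')`, `∑|ρr| ≤ 2ω`:
`n2 T_{ρr}(f_i,g_j) ≤ 2ω` (`St_NRM`), and `n2(T_{ρm}(f_i,g_j))² ≤ sup|T_{ρm}| · P⁻¹∑_y|T_{ρm}| ≤ 4ν`.  (`T_{ρm}` regrouped in
windows.) -/
def St_COML : Prop := ∀ (P H T H' i0 i1 X : ℕ) [NeZero P] (ρ1 ρ2 : ℕ → ℝ) (η1 η2 υ1 υ2 ω ν : ℝ)
  (f g : ZMod P → ℂ), P = H * T → 1 ≤ H → 0 < η1 → η1 ≤ 1 → 0 < η2 → η2 ≤ 1 → 1 ≤ H' → i0 ≤ i1 →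
  i1 * H' ≤ X → 0 ≤ υ1 → 0 ≤ υ2 → 0 ≤ ω → 0 ≤ ν → (∀ k, 0 ≤ ρ1 k) → (∀ k, 0 ≤ ρ2 k) →
  ∑ k ∈ range X, ρ1 k ≤ 2 → ∑ k ∈ range X, ρ2 k ≤ 2 →
  ∑ k ∈ range (i0 * H'), ρ1 k + ∑ k ∈ Ico (i1 * H') X, ρ1 k ≤ ω →
  ∑ k ∈ range (i0 * H'), ρ2 k + ∑ k ∈ Ico (i1 * H') X, ρ2 k ≤ ω →
  (∀ f' g' : ZMod P → ℂ, FlatL H η1 f' → (∀ u, ‖g' u‖ ≤ 1) →
    n2 (Tr X ρ1 f' g') ≤ υ1 ∧ n2 (Tr X ρ2 f' g') ≤ υ1) →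
  (∀ f' g' : ZMod P → ℂ, FlatL H η2 g' → (∀ u, ‖f' u‖ ≤ 1) →
    n2 (Tr X ρ1 f' g') ≤ υ2 ∧ n2 (Tr X ρ2 f' g') ≤ υ2) →
  (∀ (z z' : ℕ → ZMod P) (c c' : ℕ → ℂ), (∀ t, ‖c t‖ ≤ 1) → (∀ t, ‖c' t‖ ≤ 1) →
    1 / (P : ℝ) * ∑ y : ZMod P, ‖∑ i ∈ Ico i0 i1, ∑ k ∈ Ico (i * H') ((i + 1) * H'),
      ((ρ1 k - ρ2 k : ℝ) : ℂ) *
      ((c (tl H (y + (k : ZMod P))) * ch (z (tl H (y + (k : ZMod P)))) (y + (k : ZMod P))) *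
       (c' (tl H (y - (k : ZMod P))) * ch (z' (tl H (y - (k : ZMod P)))) (y - (k : ZMod P))))‖ ≤ ν) →
  (∀ u, ‖f u‖ ≤ 1) → (∀ u, ‖g u‖ ≤ 1) →
  n2 (Tr X (fun k => ρ1 k - ρ2 k) f g) ≤
    2 * υ1 + 1 / η1 ^ 2 * (2 * υ2 + 1 / η2 ^ 2 * (2 * ω + 2 * Real.sqrt ν))

/-- **FS0** (finitary comparison of two strips, full range); uses `St_COML`, `St_UNF`, `St_UNG`, `St_SSB`,
`Pool.Agent.BSQ.St_MSS`.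
Proof.  `E1 = 350·353`, `e = 2E1 + 4`, `E5 = 12e + 30`; `C` larger than `352(C_U + 1)`, `352 (C_G + 1)`, the constant of `St_SSB k0 e`
and `352·480 + E5 + 1`.  `H = ⌊NM1/L^{E5}⌋` (`≥ 1`; `H L^{E5} ≤ NM1 ≤ 2HL^{E5}`), `T = ⌊5N²/H⌋ + 1`, `P = HT ∈ [5N², 16N²]`
(`H ≤ N²`).  `η1 = L^{-175}`, `υ1 = 8/L` (`St_UNF` with `L`, for `M1` and `M2`: `HL⁴⁸⁰ ≤ NM1`, `L¹⁰M2 ≤ N`, `N ≤ M1^{k0} ≤ M2^{k0}`);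
`η2 = (L³⁵²)^{-175}`, `υ2 = 8/L³⁵²` (`St_UNG` with `L³⁵²` for `L`: `H(L³⁵²)⁴⁸⁰ ≤ NM1` since `E5 ≥ 352·480`, `(L³⁵²)^{C_G} ≤ M1`,
`(L³⁵²)¹⁰M2 ≤ N`, divisors `≤ L ≤ L³⁵²`).  `St_SSB`: `ω = ν = L^{-e}`.  `St_MSS`: masses `≤ 2`.  `St_COML`:
`16/L + L³⁵⁰(16/L³⁵² + L^{350·352}(2L^{-e} + 2L^{-e/2})) ≤ 16/L + 16/L² + 4L^{E1-e/2} ≤ 64/L` (`350 + 350·352 = E1`). -/
def St_FS0 : Prop := ∀ k0 : ℕ, ∃ C : ℕ, ∀ B : ℕ, ∃ L0 : ℕ, ∀ L : ℕ, L0 ≤ L → ∀ N M1 M2 : ℕ,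
  L ^ C ≤ M1 → M1 ≤ M2 → M2 ≤ L * M1 → L ^ C * M2 ≤ N → N ≤ M1 ^ k0 → N ≤ L ^ B →
  (∀ l : ℕ, 1 ≤ l → l ≤ 16 * N ^ 2 → l.divisors.card ≤ L) →
  ∃ (P : ℕ) (_ : NeZero P), 5 * N ^ 2 ≤ P ∧ P ≤ 16 * N ^ 2 ∧ ∀ f g : ZMod P → ℂ, (∀ u, ‖f u‖ ≤ 1) →
    (∀ u, ‖g u‖ ≤ 1) →
    n2 (Tr (P := P) (2 * N ^ 2 + 1) (fun k => rhoS N M1 k - rhoS N M2 k) f g) ≤ 64 / L

end Pool.Agent.BSR
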