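import Pool.Agent.BSR.StA
import Pool.Agent.BSR.StB
import Pool.Agent.BSQ.NRM
import Pool.Agent.BSQ.FB

/-!
# BSR, COML: combination (helper44)
-/

set_option autoImplicit false

namespace Pool.Agent.BSR

open Finset MeasureTheory Filter Topology Pool.Agent.BSQ
open scoped BigOperators
open Classical

private theorem coml_tileE {P : ℕ} [NeZero P] {H : ℕ} (hH : 1 ≤ H) {f : ZMod P → ℂ}
    (hf : ∀ u, ‖f u‖ ≤ 1) : TileE H f := by
  intro t
  have hcard : (univ.filter (fun u : ZMod P => tl H u = t)).card ≤ H := by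
    have h1 : (univ.filter (fun u : ZMod P => tl H u = t)).card ≤ (Ico (t * H) (t * H + H)).card := by
      apply Finset.card_le_card_of_injOn (fun u : ZMod P => u.val)
      · intro u hu
        have hu' : u.val / H = t := by
          have := (Finset.mem_filter.mp (Finset.mem_coe.mp hu)).2
          exact this
        rw [Finset.mem_coe, Finset.mem_Ico]
        have h2 := Nat.div_add_mod u.val H
        have h3 := Nat.mod_lt u.val (show 0 < H by omega)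
        rw [hu'] at h2
        have h4 : t * H = H * t := Nat.mul_comm t H
        beta_reduce
        constructor <;> omega
      · intro u _ v _ huv
        exact ZMod.val_injective P huv
    rw [Nat.card_Ico] at h1
    omega
  calc ∑ u ∈ univ.filter (fun u : ZMod P => tl H u = t), ‖f u‖ ^ 2
      ≤ ∑ u ∈ univ.filter (fun u : ZMod P => tl H u = t), (1 : ℝ) := by
        apply Finset.sum_le_sum
        intro u _
        have h1 := hf u
        have h2 := norm_nonneg (f u)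
        nlinarith
    _ = ((univ.filter (fun u : ZMod P => tl H u = t)).card : ℝ) := by
        rw [Finset.sum_const, nsmul_eq_mul, mul_one]
    _ ≤ H := by exact_mod_cast hcard

private theorem coml_blocks {M : Type} [AddCommMonoid M] (F : ℕ → M) (H' i0 i1 : ℕ) (h : i0 ≤ i1) :
    ∑ j ∈ Ico i0 i1, ∑ k ∈ Ico (j * H') ((j + 1) * H'), F k = ∑ k ∈ Ico (i0 * H') (i1 * H'), F k := by
  induction i1, h using Nat.le_induction with
  | base => rw [Finset.Ico_self, Finset.Ico_self, Finset.sum_empty, Finset.sum_empty]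
  | succ n hn ih =>
    rw [Finset.sum_Ico_succ_top hn, ih]
    exact Finset.sum_Ico_consecutive F (Nat.mul_le_mul_right _ hn)
      (Nat.mul_le_mul_right _ (Nat.le_succ n))

/-- difference of two measures. -/
private theorem coml_two {P : ℕ} [NeZero P] (X : ℕ) (ρ1 ρ2 : ℕ → ℝ) (υ : ℝ) (f g : ZMod P → ℂ)
    (h : n2 (Tr X ρ1 f g) ≤ υ ∧ n2 (Tr X ρ2 f g) ≤ υ) :
    n2 (Tr X (fun k => ρ1 k - ρ2 k) f g) ≤ 2 * υ := by
  obtain ⟨_, nsub, _⟩ := thm_NRM P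
  have h1 : Tr X (fun k => ρ1 k - ρ2 k) f g = fun y => Tr X ρ1 f g y - Tr X ρ2 f g y := by
    funext y
    unfold Tr
    rw [← Finset.sum_sub_distrib]
    refine Finset.sum_congr rfl fun k _ => ?_
    push_cast
    ring
  rw [h1]
  have h2 := nsub (Tr X ρ1 f g) (Tr X ρ2 f g)
  linarith [h.1, h.2]

/-- structured times structured. -/
private theorem coml_ss {P : ℕ} [NeZero P] (H' i0 i1 X : ℕ) (ρ1 ρ2 : ℕ → ℝ) (ω ν : ℝ)
    (F G : ZMod P → ℂ) (hi01 : i0 ≤ i1) (hi1X : i1 * H' ≤ X) (hν : 0 ≤ ν)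
    (hρ1 : ∀ k, 0 ≤ ρ1 k) (hρ2 : ∀ k, 0 ≤ ρ2 k) (hs1 : ∑ k ∈ range X, ρ1 k ≤ 2)
    (hs2 : ∑ k ∈ range X, ρ2 k ≤ 2)
    (ht1 : ∑ k ∈ range (i0 * H'), ρ1 k + ∑ k ∈ Ico (i1 * H') X, ρ1 k ≤ ω)
    (ht2 : ∑ k ∈ range (i0 * H'), ρ2 k + ∑ k ∈ Ico (i1 * H') X, ρ2 k ≤ ω)
    (hF : ∀ u, ‖F u‖ ≤ 1) (hG : ∀ u, ‖G u‖ ≤ 1)
    (hS : 1 / (P : ℝ) * ∑ y : ZMod P, ‖∑ i ∈ Ico i0 i1, ∑ k ∈ Ico (i * H') ((i + 1) * H'),
      ((ρ1 k - ρ2 k : ℝ) : ℂ) * (F (y + (k : ZMod P)) * G (y - (k : ZMod P)))‖ ≤ ν) :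
    n2 (Tr X (fun k => ρ1 k - ρ2 k) F G) ≤ 2 * ω + 2 * Real.sqrt ν := by
  obtain ⟨nadd, -, -, -, -, -, nsq, none1, nTr⟩ := thm_NRM P
  have hPpos : (0 : ℝ) < P := by
    have : 0 < P := Nat.pos_of_ne_zero (NeZero.ne P)
    exact_mod_cast this
  let ρ : ℕ → ℝ := fun k => ρ1 k - ρ2 k
  let ρr : ℕ → ℝ := fun k => if k ∈ Ico (i0 * H') (i1 * H') then 0 else ρ k
  have hi : i0 * H' ≤ i1 * H' := Nat.mul_le_mul_right _ hi01
  have habs : ∀ k, |ρ k| ≤ ρ1 k + ρ2 k := by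
    intro k
    rw [abs_le]
    constructor
    · change -(ρ1 k + ρ2 k) ≤ ρ1 k - ρ2 k
      linarith [hρ1 k, hρ2 k]
    · change ρ1 k - ρ2 k ≤ ρ1 k + ρ2 k
      linarith [hρ1 k, hρ2 k]
  have hsplit : ∀ F : ℕ → ℝ, ∑ k ∈ range X, F k = ∑ k ∈ range (i0 * H'), F k +
      ∑ k ∈ Ico (i0 * H') (i1 * H'), F k + ∑ k ∈ Ico (i1 * H') X, F k := by
    intro F
    rw [Finset.range_eq_Ico, Finset.range_eq_Ico,
      Finset.sum_Ico_consecutive F (Nat.zero_le _) hi,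
      Finset.sum_Ico_consecutive F (Nat.zero_le _) hi1X]
  have hrsum : ∑ k ∈ range X, |ρr k| ≤ 2 * ω := by
    rw [hsplit]
    have e1 : ∑ k ∈ range (i0 * H'), |ρr k| ≤ ∑ k ∈ range (i0 * H'), (ρ1 k + ρ2 k) := by
      apply Finset.sum_le_sum
      intro k hk
      have h1 : k ∉ Ico (i0 * H') (i1 * H') := by
        rw [Finset.mem_Ico]
        rw [Finset.mem_range] at hk
        omega
      change |if k ∈ Ico (i0 * H') (i1 * H') then (0 : ℝ) else ρ k| ≤ _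
      rw [if_neg h1]
      exact habs k
    have e2 : ∑ k ∈ Ico (i0 * H') (i1 * H'), |ρr k| = 0 := by
      apply Finset.sum_eq_zero
      intro k hk
      change |if k ∈ Ico (i0 * H') (i1 * H') then (0 : ℝ) else ρ k| = 0
      rw [if_pos hk, abs_zero]
    have e3 : ∑ k ∈ Ico (i1 * H') X, |ρr k| ≤ ∑ k ∈ Ico (i1 * H') X, (ρ1 k + ρ2 k) := by
      apply Finset.sum_le_sum
      intro k hk
      have h1 : k ∉ Ico (i0 * H') (i1 * H') := by
        rw [Finset.mem_Ico]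
        rw [Finset.mem_Ico] at hk
        omega
      change |if k ∈ Ico (i0 * H') (i1 * H') then (0 : ℝ) else ρ k| ≤ _
      rw [if_neg h1]
      exact habs k
    rw [Finset.sum_add_distrib] at e1 e3
    linarith
  have hmsum : ∑ k ∈ Ico (i0 * H') (i1 * H'), |ρ k| ≤ 4 := by
    have e1 : ∑ k ∈ Ico (i0 * H') (i1 * H'), |ρ k| ≤ ∑ k ∈ Ico (i0 * H') (i1 * H'), (ρ1 k + ρ2 k) :=
      Finset.sum_le_sum fun k _ => habs k
    have e2 : ∑ k ∈ Ico (i0 * H') (i1 * H'), (ρ1 k + ρ2 k) ≤ ∑ k ∈ range X, (ρ1 k + ρ2 k) := by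
      apply Finset.sum_le_sum_of_subset_of_nonneg
      · intro k hk
        rw [Finset.mem_Ico] at hk
        rw [Finset.mem_range]
        omega
      · intro k _ _
        exact add_nonneg (hρ1 k) (hρ2 k)
    rw [Finset.sum_add_distrib] at e2
    rw [Finset.sum_add_distrib] at e1
    linarith [Finset.sum_add_distrib (s := range X) (f := ρ1) (g := ρ2)]
  let Φ : ZMod P → ℂ := fun y => ∑ j ∈ Ico i0 i1, ∑ k ∈ Ico (j * H') ((j + 1) * H'),
    ((ρ1 k - ρ2 k : ℝ) : ℂ) * (F (y + (k : ZMod P)) * G (y - (k : ZMod P)))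
  have hΦb : ∀ y, Φ y = ∑ k ∈ Ico (i0 * H') (i1 * H'),
      ((ρ1 k - ρ2 k : ℝ) : ℂ) * (F (y + (k : ZMod P)) * G (y - (k : ZMod P))) := fun y =>
    coml_blocks (fun k => ((ρ1 k - ρ2 k : ℝ) : ℂ) * (F (y + (k : ZMod P)) * G (y - (k : ZMod P))))
      H' i0 i1 hi01
  have hΦ4 : ∀ y, ‖Φ y‖ ≤ 4 := by
    intro y
    rw [hΦb]
    refine (norm_sum_le _ _).trans (le_trans (Finset.sum_le_sum fun k _ => ?_) hmsum)
    rw [norm_mul, norm_mul, Complex.norm_real, Real.norm_eq_abs]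
    have h1 : ‖F (y + (k : ZMod P))‖ * ‖G (y - (k : ZMod P))‖ ≤ 1 :=
      mul_le_one₀ (hF _) (norm_nonneg _) (hG _)
    calc |ρ1 k - ρ2 k| * (‖F (y + (k : ZMod P))‖ * ‖G (y - (k : ZMod P))‖) ≤ |ρ1 k - ρ2 k| * 1 :=
          mul_le_mul_of_nonneg_left h1 (abs_nonneg _)
      _ = |ρ k| := mul_one _
  have hΦn : n2 Φ ≤ 2 * Real.sqrt ν := by
    have h1 := nsq Φ
    have h2 : ∑ y : ZMod P, ‖Φ y‖ ^ 2 ≤ ∑ y : ZMod P, 4 * ‖Φ y‖ := by
      refine Finset.sum_le_sum fun y _ => ?_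
      have h3 := hΦ4 y
      have h4 := norm_nonneg (Φ y)
      nlinarith
    have h5 : n2 Φ ^ 2 ≤ 4 * ν := by
      rw [h1]
      calc (∑ y : ZMod P, ‖Φ y‖ ^ 2) / P ≤ (∑ y : ZMod P, 4 * ‖Φ y‖) / P :=
            div_le_div_of_nonneg_right h2 hPpos.le
        _ = 4 * (1 / (P : ℝ) * ∑ y : ZMod P, ‖Φ y‖) := by
            rw [← Finset.mul_sum]
            ring
        _ ≤ 4 * ν := mul_le_mul_of_nonneg_left hS (by norm_num)
    have h6 : (2 * Real.sqrt ν) ^ 2 = 4 * ν := by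
      rw [mul_pow, Real.sq_sqrt hν]
      norm_num
    exact le_of_sq_le_sq (by rw [h6]; exact h5) (by positivity)
  have hfun : Tr X (fun k => ρ1 k - ρ2 k) F G = fun y => Tr X ρr F G y + Φ y := by
    funext y
    rw [hΦb]
    have h2 : Ico (i0 * H') (i1 * H') ⊆ range X := by
      intro k hk
      rw [Finset.mem_Ico] at hk
      rw [Finset.mem_range]
      omega
    have h3 : ∑ k ∈ Ico (i0 * H') (i1 * H'),
      ((ρ1 k - ρ2 k : ℝ) : ℂ) * (F (y + (k : ZMod P)) * G (y - (k : ZMod P))) =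
      ∑ k ∈ range X, (((ρ1 k - ρ2 k : ℝ) : ℂ) - (ρr k : ℂ)) *
        (F (y + (k : ZMod P)) * G (y - (k : ZMod P))) := by
      rw [← Finset.sum_subset h2]
      · refine Finset.sum_congr rfl fun k hk => ?_
        have h3 : ρr k = 0 := if_pos hk
        rw [h3]
        push_cast
        ring
      · intro k _ hk
        have h3 : ρr k = ρ1 k - ρ2 k := if_neg hk
        rw [h3, sub_self, zero_mul]
    rw [h3]
    unfold Tr
    rw [← Finset.sum_add_distrib]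
    refine Finset.sum_congr rfl fun k _ => ?_
    push_cast
    ring
  rw [hfun]
  have b1 := nadd (Tr X ρr F G) Φ
  have b6 := nTr X ρr F G hG
  have hr0 : 0 ≤ ∑ k ∈ range X, |ρr k| := Finset.sum_nonneg fun k _ => abs_nonneg _
  have b6' : n2 (Tr X ρr F G) ≤ 2 * ω :=
    b6.trans ((mul_le_of_le_one_right hr0 (none1 F hF)).trans hrsum)
  linarith

theorem thm_COML (hSTRL : St_STRL) : St_COML := by
  intro P H T H' i0 i1 X _ ρ1 ρ2 η1 η2 υ1 υ2 ω ν f g hP hH hη1 hη1' hη2 hη2' hH' hi hi1X hυ1 hυ2 hω hν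
    hρ1 hρ2 hs1 hs2 ht1 ht2 hU1 hU2 hS hf hg
  obtain ⟨I, z, c, f', hI, hc, hfl, hdec⟩ := hSTRL P H η1 f hH hη1 hη1' (coml_tileE hH hf)
  obtain ⟨J, z2, c2, g', hJ, hc2, hfl2, hdec2⟩ := hSTRL P H η2 g hH hη2 hη2' (coml_tileE hH hg)
  obtain ⟨nadd, _, nsum, _⟩ := thm_NRM P
  obtain ⟨_, _, _, hch, _⟩ := thm_FB P
  obtain ⟨F, hFd⟩ : ∃ F : ℕ → ZMod P → ℂ, F = fun i u => c i (tl H u) * ch (z i (tl H u)) u :=
    ⟨_, rfl⟩
  obtain ⟨G, hGd⟩ : ∃ G : ℕ → ZMod P → ℂ, G = fun j u => c2 j (tl H u) * ch (z2 j (tl H u)) u :=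
    ⟨_, rfl⟩
  have hF1 : ∀ i u, ‖F i u‖ ≤ 1 := by
    intro i u
    rw [hFd]
    dsimp only
    rw [norm_mul, hch, mul_one]
    exact hc _ _
  have hG1 : ∀ j u, ‖G j u‖ ≤ 1 := by
    intro j u
    rw [hGd]
    dsimp only
    rw [norm_mul, hch, mul_one]
    exact hc2 _ _
  obtain ⟨ρ, hρ⟩ : ∃ ρ : ℕ → ℝ, ρ = fun k => ρ1 k - ρ2 k := ⟨_, rfl⟩
  have hid : Tr X ρ f g = fun y => Tr X ρ f' g y +
      (∑ i ∈ range I, (Tr X ρ (F i) g' y + ∑ j ∈ range J, Tr X ρ (F i) (G j) y)) := by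
    funext y
    have h1 : ∀ i, Tr X ρ (F i) g' y + ∑ j ∈ range J, Tr X ρ (F i) (G j) y = Tr X ρ (F i) g y := by
      intro i
      unfold Tr
      rw [Finset.sum_comm, ← Finset.sum_add_distrib]
      refine Finset.sum_congr rfl fun k _ => ?_
      rw [hdec2 (y - (k : ZMod P)), ← Finset.mul_sum, ← Finset.mul_sum, hGd]
      ring
    simp only [h1]
    unfold Tr
    rw [Finset.sum_comm, ← Finset.sum_add_distrib]
    refine Finset.sum_congr rfl fun k _ => ?_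
    rw [hdec (y + (k : ZMod P)), ← Finset.mul_sum, ← Finset.sum_mul, hFd]
    ring
  have a1 : n2 (Tr X ρ f' g) ≤ 2 * υ1 := by
    rw [hρ]
    exact coml_two X ρ1 ρ2 υ1 f' g (hU1 f' g hfl hg)
  have a2 : ∀ i, n2 (Tr X ρ (F i) g') ≤ 2 * υ2 := by
    intro i
    rw [hρ]
    exact coml_two X ρ1 ρ2 υ2 (F i) g' (hU2 (F i) g' hfl2 (hF1 i))
  have a3 : ∀ i j, n2 (Tr X ρ (F i) (G j)) ≤ 2 * ω + 2 * Real.sqrt ν := by
    intro i j
    rw [hρ]
    refine coml_ss H' i0 i1 X ρ1 ρ2 ω ν (F i) (G j) hi hi1X hν hρ1 hρ2 hs1 hs2 ht1 ht2 (hF1 i) (hG1 j) ?_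
    rw [hFd, hGd]
    exact hS (z i) (z2 j) (c i) (c2 j) (hc i) (hc2 j)
  have hη1p : 0 ≤ 1 / η1 ^ 2 := by positivity
  have hη2p : 0 ≤ 1 / η2 ^ 2 := by positivity
  have hsq : 0 ≤ Real.sqrt ν := Real.sqrt_nonneg _
  have a4 : ∀ i, n2 (fun y => Tr X ρ (F i) g' y + ∑ j ∈ range J, Tr X ρ (F i) (G j) y) ≤
      2 * υ2 + 1 / η2 ^ 2 * (2 * ω + 2 * Real.sqrt ν) := by
    intro i
    have h1 := nadd (Tr X ρ (F i) g') (fun y => ∑ j ∈ range J, Tr X ρ (F i) (G j) y)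
    have h2 := nsum ℕ (range J) (fun j => Tr X ρ (F i) (G j))
    have h3 : ∑ j ∈ range J, n2 (Tr X ρ (F i) (G j)) ≤ 1 / η2 ^ 2 * (2 * ω + 2 * Real.sqrt ν) := by
      calc ∑ j ∈ range J, n2 (Tr X ρ (F i) (G j)) ≤ ∑ _j ∈ range J, (2 * ω + 2 * Real.sqrt ν) :=
            Finset.sum_le_sum fun j _ => a3 i j
        _ = (J : ℝ) * (2 * ω + 2 * Real.sqrt ν) := by
            rw [Finset.sum_const, Finset.card_range, nsmul_eq_mul]
        _ ≤ _ := mul_le_mul_of_nonneg_right hJ (by positivity)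
    linarith [a2 i]
  have h5 := nadd (Tr X ρ f' g)
    (fun y => ∑ i ∈ range I, (Tr X ρ (F i) g' y + ∑ j ∈ range J, Tr X ρ (F i) (G j) y))
  have h6 := nsum ℕ (range I) (fun i y => Tr X ρ (F i) g' y + ∑ j ∈ range J, Tr X ρ (F i) (G j) y)
  have h7 : ∑ i ∈ range I, n2 (fun y => Tr X ρ (F i) g' y + ∑ j ∈ range J, Tr X ρ (F i) (G j) y) ≤
      1 / η1 ^ 2 * (2 * υ2 + 1 / η2 ^ 2 * (2 * ω + 2 * Real.sqrt ν)) := by
    calc ∑ i ∈ range I, n2 (fun y => Tr X ρ (F i) g' y + ∑ j ∈ range J, Tr X ρ (F i) (G j) y)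
        ≤ ∑ _i ∈ range I, (2 * υ2 + 1 / η2 ^ 2 * (2 * ω + 2 * Real.sqrt ν)) :=
          Finset.sum_le_sum fun i _ => a4 i
      _ = (I : ℝ) * (2 * υ2 + 1 / η2 ^ 2 * (2 * ω + 2 * Real.sqrt ν)) := by
          rw [Finset.sum_const, Finset.card_range, nsmul_eq_mul]
      _ ≤ _ := mul_le_mul_of_nonneg_right hI (by positivity)
  rw [← hρ, hid]
  linarith

end Pool.Agent.BSR
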