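import Pool.Agent.BSR.StB

/-!
# BSR, DET: quantitative independence of `1`, `(x - y1) ^ (-1/2)`, `(x - y2) ^ (-1/2)`

Without derivatives: `F x - F x' = (x' - x) G / (a2 b2 (a2 + b2))`, where `G` is between the values
of `m1 (a2 / a1) ^ 3 - m2` at `x` and `x'`.
-/

set_option autoImplicit false

namespace Pool.Agent.BSR

open Finset MeasureTheory Filter Topology Pool.Agent.BSQ
open scoped BigOperators
open Classical

/-- the quotient of the square roots -/
private noncomputable def det_q (y1 y2 x : ℝ) : ℝ := Real.sqrt (x - y2) / Real.sqrt (x - y1)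

private lemma det_q_pos {y1 y2 x : ℝ} (h : y1 < y2) (hx : y2 < x) : 0 < det_q y1 y2 x :=
  div_pos (Real.sqrt_pos.2 (by linarith)) (Real.sqrt_pos.2 (by linarith))

private lemma det_q_sq {y1 y2 x : ℝ} (h : y1 < y2) (hx : y2 < x) :
    det_q y1 y2 x ^ 2 = 1 - (y2 - y1) / (x - y1) := by
  unfold det_q
  rw [div_pow, Real.sq_sqrt (by linarith), Real.sq_sqrt (by linarith)]
  have h1 : x - y1 ≠ 0 := by linarith [h, hx]
  field_simp
  ring

/-- increments of the cube of the quotient -/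
private lemma det_inc {L R y1 y2 x x' : ℝ} (hL : 1 ≤ L) (hR : 0 < R)
    (hy : y1 + R / (32 * L) ≤ y2) (hx : R / (4 * L) ≤ x - y2) (hxx : x ≤ x')
    (hx' : x' - y1 ≤ 2 * R) :
    (x' - x) / (256 * L ^ 2 * R) ≤ det_q y1 y2 x' ^ 3 - det_q y1 y2 x ^ 3 ∧
      det_q y1 y2 x ≤ det_q y1 y2 x' := by
  have hL0 : 0 < L := by linarith
  have e1 : 0 < R / (32 * L) := by positivity
  have e2 : 0 < R / (4 * L) := by positivity
  have hy12 : y1 < y2 := by linarith
  have hyx : y2 < x := by linarith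
  have hyx' : y2 < x' := by linarith
  have hA := det_q_pos hy12 hyx
  have hB := det_q_pos hy12 hyx'
  have hA2 := det_q_sq hy12 hyx
  have hB2 := det_q_sq hy12 hyx'
  set A := det_q y1 y2 x with hAdef
  set B := det_q y1 y2 x' with hBdef
  have hd1 : 0 < x - y1 := by linarith
  have hd2 : 0 < x' - y1 := by linarith
  -- `B ^ 2 - A ^ 2`
  have hdiff : (x' - x) / (128 * L * R) ≤ B ^ 2 - A ^ 2 := by
    have e3 : B ^ 2 - A ^ 2 = (y2 - y1) * (x' - x) / ((x - y1) * (x' - y1)) := by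
      rw [hA2, hB2]
      field_simp
      ring
    rw [e3, div_le_div_iff₀ (by positivity) (by positivity)]
    have e4 : R ≤ (y2 - y1) * (32 * L) := by
      have : R / (32 * L) ≤ y2 - y1 := by linarith
      rwa [div_le_iff₀ (by positivity)] at this
    have e5 : (x - y1) * (x' - y1) ≤ (2 * R) * (2 * R) :=
      mul_le_mul (by linarith) hx' hd2.le (by linarith)
    have e6 : 0 ≤ x' - x := by linarith
    calc (x' - x) * ((x - y1) * (x' - y1)) ≤ (x' - x) * ((2 * R) * (2 * R)) :=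
          mul_le_mul_of_nonneg_left e5 e6
      _ = (x' - x) * (4 * R) * R := by ring
      _ ≤ (x' - x) * (4 * R) * ((y2 - y1) * (32 * L)) :=
          mul_le_mul_of_nonneg_left e4 (by positivity)
      _ = _ := by ring
  have hAB : A ≤ B := by
    have e3 : 0 ≤ (x' - x) / (128 * L * R) := div_nonneg (by linarith) (by positivity)
    nlinarith
  -- `A ≥ 1 / (3 L)`
  have hA3 : 1 / (3 * L) ≤ A := by
    have e3 : 1 / (8 * L) ≤ A ^ 2 := by
      have e4 : A ^ 2 = (x - y2) / (x - y1) := by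
        rw [hA2]
        field_simp
        ring
      rw [e4, div_le_div_iff₀ (by positivity) hd1]
      have e5 : R ≤ (x - y2) * (4 * L) := by
        rwa [div_le_iff₀ (by positivity)] at hx
      nlinarith
    have e4 : (1 / (3 * L)) ^ 2 ≤ 1 / (8 * L) := by
      rw [div_pow, one_pow, div_le_div_iff₀ (by positivity) (by positivity)]
      nlinarith
    exact (pow_le_pow_iff_left₀ (by positivity) hA.le two_ne_zero).1 (le_trans e4 e3)
  refine ⟨?_, hAB⟩
  have e3 : (3 / 2 * A) * (B ^ 2 - A ^ 2) ≤ B ^ 3 - A ^ 3 := by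
    have e4 : B ^ 3 - A ^ 3 - (3 / 2 * A) * (B ^ 2 - A ^ 2) = (B - A) ^ 2 * (B + A / 2) := by
      ring
    have e5 : 0 ≤ (B - A) ^ 2 * (B + A / 2) := by positivity
    linarith
  have e4 : (3 / 2 * (1 / (3 * L))) * ((x' - x) / (128 * L * R)) ≤
      (3 / 2 * A) * (B ^ 2 - A ^ 2) := by
    apply mul_le_mul _ hdiff _ (by positivity)
    · linarith
    · exact div_nonneg (by linarith) (by positivity)
  have e5 : (x' - x) / (256 * L ^ 2 * R) = (3 / 2 * (1 / (3 * L))) * ((x' - x) / (128 * L * R)) := by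
    field_simp
    ring
  rw [e5]
  linarith

/-- the difference of two values of `1 / √` -/
private lemma det_one {a b d : ℝ} (ha : 0 < a) (hb : 0 < b) (h : b ^ 2 - a ^ 2 = d) :
    1 / a - 1 / b = d / (a * b * (a + b)) := by
  have h1 : a + b ≠ 0 := by positivity
  rw [← h]
  field_simp
  ring

/-- the two bounds for the difference of two values -/
private lemma det_diff {R y1 y2 x x' m1 m2 t : ℝ} (hR : 0 < R) (hm1 : 0 ≤ m1) (hm2 : 0 ≤ m2)
    (ht : 0 ≤ t) (hy12 : y1 < y2) (hyx : y2 < x) (hxx : x ≤ x') (hx' : x' - y1 ≤ 2 * R)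
    (hAB : det_q y1 y2 x ≤ det_q y1 y2 x') :
    (m2 + t ≤ m1 * det_q y1 y2 x ^ 3 → t * (x' - x) / (6 * R) ≤
      ((m1 / Real.sqrt (x - y1) - m2 / Real.sqrt (x - y2)) -
        (m1 / Real.sqrt (x' - y1) - m2 / Real.sqrt (x' - y2))) * Real.sqrt R) ∧
    (m1 * det_q y1 y2 x' ^ 3 + t ≤ m2 → t * (x' - x) / (6 * R) ≤
      ((m1 / Real.sqrt (x' - y1) - m2 / Real.sqrt (x' - y2)) -
        (m1 / Real.sqrt (x - y1) - m2 / Real.sqrt (x - y2))) * Real.sqrt R) := by
  have hyx' : y2 < x' := by linarith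
  have hA := det_q_pos hy12 hyx
  have hB := det_q_pos hy12 hyx'
  obtain ⟨a1, ha1⟩ : ∃ a1, a1 = Real.sqrt (x - y1) := ⟨_, rfl⟩
  obtain ⟨a2, ha2⟩ : ∃ a2, a2 = Real.sqrt (x - y2) := ⟨_, rfl⟩
  obtain ⟨b1, hb1⟩ : ∃ b1, b1 = Real.sqrt (x' - y1) := ⟨_, rfl⟩
  obtain ⟨b2, hb2⟩ : ∃ b2, b2 = Real.sqrt (x' - y2) := ⟨_, rfl⟩
  obtain ⟨r, hr⟩ : ∃ r, r = Real.sqrt R := ⟨_, rfl⟩
  have pa1 : 0 < a1 := by rw [ha1]; exact Real.sqrt_pos.2 (by linarith)
  have pa2 : 0 < a2 := by rw [ha2]; exact Real.sqrt_pos.2 (by linarith)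
  have pb1 : 0 < b1 := by rw [hb1]; exact Real.sqrt_pos.2 (by linarith)
  have pb2 : 0 < b2 := by rw [hb2]; exact Real.sqrt_pos.2 (by linarith)
  have pr : 0 < r := by rw [hr]; exact Real.sqrt_pos.2 hR
  have sa1 : a1 ^ 2 = x - y1 := by rw [ha1]; exact Real.sq_sqrt (by linarith)
  have sa2 : a2 ^ 2 = x - y2 := by rw [ha2]; exact Real.sq_sqrt (by linarith)
  have sb1 : b1 ^ 2 = x' - y1 := by rw [hb1]; exact Real.sq_sqrt (by linarith)
  have sb2 : b2 ^ 2 = x' - y2 := by rw [hb2]; exact Real.sq_sqrt (by linarith)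
  have sr : r ^ 2 = R := by rw [hr]; exact Real.sq_sqrt hR.le
  have qA : a2 = det_q y1 y2 x * a1 := by
    unfold det_q
    rw [← ha2, ← ha1]
    field_simp
  have qB : b2 = det_q y1 y2 x' * b1 := by
    unfold det_q
    rw [← hb2, ← hb1]
    field_simp
  rw [← ha1, ← ha2, ← hb1, ← hb2, ← hr]
  generalize det_q y1 y2 x = A at *
  generalize det_q y1 y2 x' = B at *
  obtain ⟨P1, hP1⟩ : ∃ P1, P1 = a1 * b1 * (a1 + b1) := ⟨_, rfl⟩
  obtain ⟨P2, hP2⟩ : ∃ P2, P2 = a2 * b2 * (a2 + b2) := ⟨_, rfl⟩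
  have pP1 : 0 < P1 := by rw [hP1]; positivity
  have pP2 : 0 < P2 := by rw [hP2]; positivity
  have d1 : 1 / a1 - 1 / b1 = (x' - x) / P1 := by
    rw [hP1]
    exact det_one pa1 pb1 (by rw [sa1, sb1]; ring)
  have d2 : 1 / a2 - 1 / b2 = (x' - x) / P2 := by
    rw [hP2]
    exact det_one pa2 pb2 (by rw [sa2, sb2]; ring)
  have hF : (m1 / a1 - m2 / a2) - (m1 / b1 - m2 / b2) =
      m1 * ((x' - x) / P1) - m2 * ((x' - x) / P2) := by
    rw [← d1, ← d2]
    ring
  have hlow : A ^ 3 * P1 ≤ P2 := by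
    rw [hP1, hP2, qA, qB]
    have e1 : A * a1 * (B * b1) * (A * a1 + B * b1) - A ^ 3 * (a1 * b1 * (a1 + b1)) =
        A * a1 * b1 * (A * a1 * (B - A) + b1 * (B ^ 2 - A ^ 2)) := by ring
    have e2 : 0 ≤ B - A := by linarith
    have e3 : 0 ≤ B ^ 2 - A ^ 2 := by nlinarith
    have e4 : 0 ≤ A * a1 * b1 * (A * a1 * (B - A) + b1 * (B ^ 2 - A ^ 2)) := by positivity
    linarith
  have hup : P2 ≤ B ^ 3 * P1 := by
    rw [hP1, hP2, qA, qB]
    have e1 : B ^ 3 * (a1 * b1 * (a1 + b1)) - A * a1 * (B * b1) * (A * a1 + B * b1) =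
        B * a1 * b1 * (a1 * (B ^ 2 - A ^ 2) + B * b1 * (B - A)) := by ring
    have e2 : 0 ≤ B - A := by linarith
    have e3 : 0 ≤ B ^ 2 - A ^ 2 := by nlinarith
    have e4 : 0 ≤ B * a1 * b1 * (a1 * (B ^ 2 - A ^ 2) + B * b1 * (B - A)) := by positivity
    linarith
  have hP2r : P2 ≤ 6 * R * r := by
    have e1 : a2 ≤ 142 / 100 * r := by
      refine (pow_le_pow_iff_left₀ pa2.le (by positivity) two_ne_zero).1 ?_
      rw [sa2, mul_pow, sr]
      linarith
    have e2 : b2 ≤ 142 / 100 * r := by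
      refine (pow_le_pow_iff_left₀ pb2.le (by positivity) two_ne_zero).1 ?_
      rw [sb2, mul_pow, sr]
      linarith
    have e3 : a2 * b2 ≤ (142 / 100 * r) * (142 / 100 * r) :=
      mul_le_mul e1 e2 pb2.le (by positivity)
    have e4 : P2 ≤ ((142 / 100 * r) * (142 / 100 * r)) * (142 / 100 * r + 142 / 100 * r) := by
      rw [hP2]
      exact mul_le_mul e3 (by linarith) (by positivity) (by positivity)
    have e5 : 0 < R * r := by positivity
    calc P2 ≤ _ := e4
      _ = (142 / 100) ^ 3 * 2 * (r ^ 2 * r) := by ring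
      _ = (142 / 100) ^ 3 * 2 * (R * r) := by rw [sr]
      _ ≤ 6 * R * r := by nlinarith
  have hd : 0 ≤ x' - x := by linarith
  have hfin : t * (x' - x) / (6 * R) ≤ t * ((x' - x) / P2) * r := by
    have e1 : t * ((x' - x) / P2) * r = t * (x' - x) * r / P2 := by ring
    rw [e1, div_le_div_iff₀ (by positivity) pP2]
    have e2 : 0 ≤ t * (x' - x) := mul_nonneg ht hd
    calc t * (x' - x) * P2 ≤ t * (x' - x) * (6 * R * r) := mul_le_mul_of_nonneg_left hP2r e2
      _ = _ := by ring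
  have hA3 : A ^ 3 * ((x' - x) / P2) ≤ (x' - x) / P1 := by
    have e1 : A ^ 3 * ((x' - x) / P2) = A ^ 3 * (x' - x) / P2 := by ring
    rw [e1, div_le_div_iff₀ pP2 pP1]
    have e2 := mul_le_mul_of_nonneg_left hlow hd
    nlinarith
  have hB3 : (x' - x) / P1 ≤ B ^ 3 * ((x' - x) / P2) := by
    have e1 : B ^ 3 * ((x' - x) / P2) = B ^ 3 * (x' - x) / P2 := by ring
    rw [e1, div_le_div_iff₀ pP1 pP2]
    have e2 := mul_le_mul_of_nonneg_left hup hd
    nlinarith
  have hD : 0 ≤ (x' - x) / P2 := div_nonneg hd pP2.le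
  refine ⟨fun h => le_trans hfin ?_, fun h => le_trans hfin ?_⟩
  · refine mul_le_mul_of_nonneg_right ?_ pr.le
    rw [hF]
    have e1 := mul_le_mul_of_nonneg_left hA3 hm1
    have e2 := mul_le_mul_of_nonneg_right h hD
    nlinarith
  · refine mul_le_mul_of_nonneg_right ?_ pr.le
    have e0 : (m1 / b1 - m2 / b2) - (m1 / a1 - m2 / a2) =
        m2 * ((x' - x) / P2) - m1 * ((x' - x) / P1) := by
      have := hF
      linarith
    rw [e0]
    have e1 := mul_le_mul_of_nonneg_left hB3 hm1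
    have e2 := mul_le_mul_of_nonneg_right h hD
    nlinarith

theorem thm_DET : St_DET := by
  intro L R y1 y2 u v m1 m2 K ε hL hR hm1 hm2 hy hu huv hv hF
  have hL1 : (1 : ℝ) ≤ (L : ℝ) := by exact_mod_cast hL
  generalize (L : ℝ) = l at *
  have hl0 : 0 < l := by linarith
  have e1 : 0 < R / (32 * l) := by positivity
  have e2 : 0 < R / (4 * l) := by positivity
  have hy12 : y1 < y2 := by linarith
  have hyu : y2 < u := by linarith
  obtain ⟨w, hw⟩ : ∃ w, w = (u + v) / 2 := ⟨_, rfl⟩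
  obtain ⟨t, ht⟩ : ∃ t, t = (v - u) / 4 / (256 * l ^ 2 * R) := ⟨_, rfl⟩
  have ht0 : 0 ≤ t := by
    rw [ht]
    exact div_nonneg (by linarith) (by positivity)
  -- the conclusion from a bound for the difference
  have hend : t * ((v - u) / 4) / (6 * R) ≤ 2 * ε →
      ((v - u) / R) ^ 2 ≤ 2 ^ 16 * l ^ 2 * ε := by
    intro h
    rw [ht] at h
    have e3 : (v - u) / 4 / (256 * l ^ 2 * R) * ((v - u) / 4) / (6 * R) =
        ((v - u) / R) ^ 2 / (24576 * l ^ 2) := by
      field_simp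
      ring
    rw [e3, div_le_iff₀ (by positivity)] at h
    have e4 : 0 ≤ ε := by
      have h5 := hF u le_rfl huv
      exact le_trans (mul_nonneg (abs_nonneg _) (Real.sqrt_nonneg _)) h5
    have e5 : 0 ≤ l ^ 2 * ε := by positivity
    nlinarith
  have hpair : ∀ x x', u ≤ x → x ≤ v → u ≤ x' → x' ≤ v →
      ((m1 / Real.sqrt (x - y1) - m2 / Real.sqrt (x - y2)) -
        (m1 / Real.sqrt (x' - y1) - m2 / Real.sqrt (x' - y2))) * Real.sqrt R ≤ 2 * ε := by
    intro x x' h1 h2 h3 h4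
    have h5 := hF x h1 h2
    have h6 := hF x' h3 h4
    have hs := Real.sqrt_nonneg R
    have h7 := le_abs_self (m1 / Real.sqrt (x - y1) - m2 / Real.sqrt (x - y2) - K)
    have h8 := neg_abs_le (m1 / Real.sqrt (x' - y1) - m2 / Real.sqrt (x' - y2) - K)
    nlinarith
  by_cases hg : m2 ≤ m1 * det_q y1 y2 w ^ 3
  · -- right part
    obtain ⟨x, hx⟩ : ∃ x, x = v - (v - u) / 4 := ⟨_, rfl⟩
    have hwx : w ≤ x := by rw [hw, hx]; linarith
    have huw : u ≤ w := by rw [hw]; linarith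
    have hxv : x ≤ v := by rw [hx]; linarith
    have i1 := det_inc hL1 hR hy (x := w) (x' := x) (by linarith) hwx (by linarith)
    have i2 := det_inc hL1 hR hy (x := x) (x' := v) (by linarith) hxv (by linarith)
    have hxw : x - w = (v - u) / 4 := by rw [hw, hx]; ring
    rw [hxw, ← ht] at i1
    have h1 : m2 + t ≤ m1 * det_q y1 y2 x ^ 3 := by
      nlinarith [i1.1, mul_le_mul_of_nonneg_left i1.1 (by linarith : 0 ≤ m1 - 1)]
    have h2 := (det_diff (m1 := m1) (m2 := m2) (t := t) hR (by linarith) (by linarith) ht0 hy12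
      (by linarith : y2 < x) hxv (by linarith) i2.2).1 h1
    apply hend
    have e3 : v - x = (v - u) / 4 := by rw [hx]; ring
    rw [e3] at h2
    exact le_trans h2 (hpair x v (by linarith) hxv huv le_rfl)
  · -- left part
    push Not at hg
    obtain ⟨x, hx⟩ : ∃ x, x = u + (v - u) / 4 := ⟨_, rfl⟩
    have hxw : x ≤ w := by rw [hw, hx]; linarith
    have hux : u ≤ x := by rw [hx]; linarith
    have hwv : w ≤ v := by rw [hw]; linarith
    have i1 := det_inc hL1 hR hy (x := x) (x' := w) (by linarith) hxw (by linarith)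
    have i2 := det_inc hL1 hR hy (x := u) (x' := x) hu hux (by linarith)
    have hwx : w - x = (v - u) / 4 := by rw [hw, hx]; ring
    rw [hwx, ← ht] at i1
    have h1 : m1 * det_q y1 y2 x ^ 3 + t ≤ m2 := by
      nlinarith [i1.1, mul_le_mul_of_nonneg_left i1.1 (by linarith : 0 ≤ m1 - 1)]
    have h2 := (det_diff (m1 := m1) (m2 := m2) (t := t) hR (by linarith) (by linarith) ht0 hy12
      hyu hux (by linarith) i2.2).2 h1
    apply hend
    have e3 : x - u = (v - u) / 4 := by rw [hx]; ring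
    rw [e3] at h2
    exact le_trans h2 (hpair x u hux (by linarith) le_rfl huv)

end Pool.Agent.BSR
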