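import Pool.Agent.BSR.StA

/-!
# BSR, ENB: energies of tile functions on long intervals
-/

set_option autoImplicit false

namespace Pool.Agent.BSR

open Finset MeasureTheory Filter Topology Pool.Agent.BSQ
open scoped BigOperators
open Classical

private theorem enb_tiles {P H : ℕ} [NeZero P] {f : ZMod P → ℂ} (hf : TileE H f)
    (S : Finset ℕ) : ∑ w ∈ univ.filter (fun w : ZMod P => tl H w ∈ S), ‖f w‖ ^ 2 ≤ S.card * H := by
  rw [← sum_fiberwise_of_maps_to (s := univ.filter (fun w : ZMod P => tl H w ∈ S)) (t := S)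
    (g := tl H) (fun w hw => (mem_filter.1 hw).2)]
  calc ∑ t ∈ S, ∑ w ∈ (univ.filter (fun w : ZMod P => tl H w ∈ S)).filter
        (fun w => tl H w = t), ‖f w‖ ^ 2 ≤ ∑ _t ∈ S, (H : ℝ) := by
        refine sum_le_sum fun t _ => ?_
        refine le_trans ?_ (hf t)
        refine sum_le_sum_of_subset_of_nonneg ?_ fun _ _ _ => by positivity
        intro w hw
        rw [mem_filter] at hw ⊢
        exact ⟨mem_univ _, hw.2⟩
    _ = S.card * H := by rw [sum_const, nsmul_eq_mul]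

private theorem enb_tl {P H T Λ : ℕ} [NeZero P] (hP : P = H * T)
    (hΛ : 2 * Λ + 1 ≤ P) (u : ZMod P) (l : ℤ) (h1 : -(Λ : ℤ) ≤ l) (h2 : l ≤ Λ) :
    ∃ j ∈ Icc ((u.val + P - Λ) / H) ((u.val + P - Λ + 2 * Λ) / H),
      tl H (u + (l : ZMod P)) = j % T := by
  obtain ⟨b, hb⟩ : ∃ b : ℕ, (b : ℤ) = u.val + P + l := by
    refine ⟨((u.val : ℤ) + P + l).toNat, Int.toNat_of_nonneg ?_⟩
    have : (0 : ℤ) ≤ (u.val : ℤ) := Int.natCast_nonneg _
    omega
  have hw : u + (l : ZMod P) = (b : ZMod P) := by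
    have h3 : ((b : ℤ) : ZMod P) = ((u.val + P + l : ℤ) : ZMod P) := by rw [hb]
    push_cast at h3
    rw [h3, ZMod.natCast_zmod_val, ZMod.natCast_self, add_zero]
  have hval : (u + (l : ZMod P)).val = b % P := by rw [hw, ZMod.val_natCast]
  refine ⟨b / H, ?_, ?_⟩
  · rw [mem_Icc]
    exact ⟨Nat.div_le_div_right (by omega), Nat.div_le_div_right (by omega)⟩
  · unfold tl
    rw [hval, hP, Nat.mod_mul_right_div_self]

private theorem enb_card {H Λ T b : ℕ} (hH : 1 ≤ H) :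
    ((((Icc (b / H) ((b + 2 * Λ) / H)).image (fun j => j % T)).card : ℕ) : ℝ) * H ≤
      2 * Λ + 3 * H := by
  have h1 : ((Icc (b / H) ((b + 2 * Λ) / H)).image (fun j => j % T)).card ≤
      (b + 2 * Λ) / H + 1 - b / H := by
    refine card_image_le.trans ?_
    rw [Nat.card_Icc]
  have h2 : (b + 2 * Λ) / H * H ≤ b + 2 * Λ := Nat.div_mul_le_self _ _
  have h3 : b < (b / H + 1) * H := by
    have := Nat.lt_mul_div_succ b (show 0 < H by omega)
    rw [mul_comm]
    exact this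
  have h4 : ((b + 2 * Λ) / H + 1 - b / H) * H ≤ 2 * Λ + 3 * H := by
    rw [Nat.sub_mul, Nat.sub_le_iff_le_add]
    nlinarith
  have h5 := (Nat.mul_le_mul_right H h1).trans h4
  exact_mod_cast h5

/-- **ENB.** -/
theorem thm_ENB : St_ENB := by
  intro P H T Λ _ f hP hH hΛ hf
  have hPr : (P : ℝ) = H * T := by
    rw [hP]
    push_cast
    ring
  have hmain : ∑ u : ZMod P, ‖f u‖ ^ 2 ≤ P := by
    have h1 := enb_tiles hf (range T)
    have h2 : univ.filter (fun w : ZMod P => tl H w ∈ range T) = univ := by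
      rw [filter_eq_self]
      intro w _
      rw [mem_range]
      unfold tl
      rw [Nat.div_lt_iff_lt_mul (by omega), mul_comm, ← hP]
      exact ZMod.val_lt w
    rw [h2, card_range] at h1
    rw [hPr]
    linarith
  refine ⟨hmain, ?_⟩
  rw [sum_comm]
  have hu : ∀ u : ZMod P, ∑ l ∈ Icc (-(Λ : ℤ)) (Λ : ℤ), ‖Fl f l u‖ ^ 2 ≤
      ‖f u‖ ^ 2 * (2 * Λ + 3 * H) := by
    intro u
    have h1 : ∀ l : ℤ, ‖Fl f l u‖ ^ 2 = ‖f u‖ ^ 2 * ‖f (u + (l : ZMod P))‖ ^ 2 := by
      intro l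
      unfold Fl
      rw [norm_mul, RCLike.norm_conj, mul_pow]
    simp only [h1]
    rw [← mul_sum]
    refine mul_le_mul_of_nonneg_left ?_ (by positivity)
    have hinj : Set.InjOn (fun l : ℤ => u + (l : ZMod P)) (Icc (-(Λ : ℤ)) (Λ : ℤ) : Finset ℤ) := by
      intro l hl l' hl' h
      rw [mem_coe, mem_Icc] at hl hl'
      have h3 : (l : ZMod P) = (l' : ZMod P) := add_left_cancel h
      rw [ZMod.intCast_eq_intCast_iff] at h3
      have h4 : (P : ℤ) ∣ l' - l := h3.dvd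
      have h5 : l' - l = 0 := by
        apply Int.eq_zero_of_abs_lt_dvd h4
        rw [abs_lt]
        constructor <;> omega
      omega
    rw [← sum_image (f := fun w : ZMod P => ‖f w‖ ^ 2) (g := fun l : ℤ => u + (l : ZMod P)) hinj]
    set S : Finset ℕ := (Icc ((u.val + P - Λ) / H) ((u.val + P - Λ + 2 * Λ) / H)).image
      (fun j => j % T) with hS
    have h2 : ∑ w ∈ (Icc (-(Λ : ℤ)) (Λ : ℤ)).image (fun l : ℤ => u + (l : ZMod P)), ‖f w‖ ^ 2 ≤
        ∑ w ∈ univ.filter (fun w : ZMod P => tl H w ∈ S), ‖f w‖ ^ 2 := by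
      refine sum_le_sum_of_subset_of_nonneg ?_ fun _ _ _ => by positivity
      intro w hw
      obtain ⟨l, hl, rfl⟩ := mem_image.1 hw
      rw [mem_Icc] at hl
      obtain ⟨j, hj, hjt⟩ := enb_tl hP hΛ u l hl.1 hl.2
      rw [mem_filter]
      refine ⟨mem_univ _, ?_⟩
      rw [hS, mem_image]
      exact ⟨j, hj, hjt.symm⟩
    have h4 := enb_tiles hf S
    have h5 : (S.card : ℝ) * H ≤ 2 * Λ + 3 * H := enb_card hH
    linarith
  have h1 := sum_le_sum fun u (_ : u ∈ (univ : Finset (ZMod P))) => hu u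
  rw [← sum_mul] at h1
  have h2 : (∑ u : ZMod P, ‖f u‖ ^ 2) * (2 * (Λ : ℝ) + 3 * (H : ℝ)) ≤ P * (2 * Λ + 3 * H) :=
    mul_le_mul_of_nonneg_right hmain (by positivity)
  linarith

end Pool.Agent.BSR
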