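import Pool.Agent.BSR.StB

/-!
# BSR: the last step of the resonance lemma (`END`)
-/

set_option autoImplicit false

namespace Pool.Agent.BSR

open Finset MeasureTheory Filter Topology Pool.Agent.BSQ
open scoped BigOperators
open Classical

private lemma end_pow (c l : ℝ) (x y : ℕ) (hc : c ≤ 1024) (hl : 1024 ≤ l) (h : x + 1 ≤ y) :
    c * l ^ x ≤ l ^ y := by
  have hl0 : 0 ≤ l := by linarith
  have h1 : l ^ (x + 1) ≤ l ^ y := pow_le_pow_right₀ (by linarith) h
  have h2 : c * l ^ x ≤ l * l ^ x := mul_le_mul_of_nonneg_right (by linarith) (pow_nonneg hl0 _)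
  calc c * l ^ x ≤ l * l ^ x := h2
    _ = l ^ (x + 1) := by ring
    _ ≤ l ^ y := h1

private lemma end_card (G : Finset ℕ) (u v : ℝ) (hne : G.Nonempty)
    (h : ∀ t ∈ G, u ≤ (t : ℝ) ∧ (t : ℝ) + 1 ≤ v) : (G.card : ℝ) ≤ v - u := by
  have h1 := (h _ (G.min'_mem hne)).1
  have h2 := (h _ (G.max'_mem hne)).2
  have h3 : G ⊆ Finset.Icc (G.min' hne) (G.max' hne) := by
    intro t ht
    exact Finset.mem_Icc.2 ⟨G.min'_le t ht, G.le_max' t ht⟩
  have h4 := Finset.card_le_card h3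
  rw [Nat.card_Icc] at h4
  have h5 : G.min' hne ≤ G.max' hne := G.min'_le_max' hne
  have h6 : G.card + G.min' hne ≤ G.max' hne + 1 := by omega
  have h7 : (G.card : ℝ) + (G.min' hne : ℕ) ≤ (G.max' hne : ℕ) + 1 := by exact_mod_cast h6
  linarith

private lemma end_sq (dq B' : ℕ)
    (hdq : ∀ (L : ℕ) (s0 : ℝ), 16 ≤ L → 0 < s0 →
      ∃ p : Polynomial ℝ, p.natDegree ≤ dq ∧ ∀ s : ℝ, |s - s0| * L ≤ s0 →
        |Real.sqrt s - p.eval s| ≤ Real.sqrt s0 / (L : ℝ) ^ B')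
    (L : ℕ) (R xc y : ℝ) (hL : 16 ≤ L) (hR : 0 < R) (h1 : R / (2 * L) ≤ xc - y) (h2 : xc - y ≤ R) :
    ∃ σ : Polynomial ℝ, σ.natDegree ≤ dq ∧ ∀ x : ℝ, |x - xc| ≤ R / (2 * (L : ℝ) ^ 2) →
      |Real.sqrt (x - y) - σ.eval x| ≤ Real.sqrt R * (1 / (L : ℝ) ^ B') := by
  have hL0 : (0 : ℝ) < L := by
    have : 0 < L := by omega
    exact_mod_cast this
  have hs0 : 0 < xc - y := lt_of_lt_of_le (by positivity) h1
  obtain ⟨p, hp, hp2⟩ := hdq L (xc - y) hL hs0
  refine ⟨p.comp (Polynomial.X - Polynomial.C y), ?_, ?_⟩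
  · rw [Polynomial.natDegree_comp, Polynomial.natDegree_X_sub_C, mul_one]
    exact hp
  · intro x hx
    have h3 : |(x - y) - (xc - y)| * L ≤ xc - y := by
      have e1 : (x - y) - (xc - y) = x - xc := by ring
      rw [e1]
      refine le_trans (mul_le_mul_of_nonneg_right hx hL0.le) (le_trans (le_of_eq ?_) h1)
      field_simp
    have h4 := hp2 (x - y) h3
    have h5 : Polynomial.eval x (p.comp (Polynomial.X - Polynomial.C y)) = p.eval (x - y) := by
      rw [Polynomial.eval_comp]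
      simp
    rw [h5]
    refine le_trans h4 ?_
    rw [div_eq_mul_one_div]
    exact mul_le_mul_of_nonneg_right (Real.sqrt_le_sqrt h2) (by positivity)

private lemma end_near (V σ w ρ R S κ δ L m : ℝ) (hS : 1 / 4 ≤ S) (hδ : 0 < δ) (hδ1 : δ ≤ 1 / 64) (hL : 8 ≤ L)
    (hV : |V| * Real.sqrt R ≤ S + Real.sqrt δ / L) (hw : |w| * Real.sqrt R ≤ S)
    (hσ : |ρ - σ| ≤ Real.sqrt R * κ) (hκ0 : 0 ≤ κ) (hκ : 6 * S * κ ≤ Real.sqrt δ)
    (h : |(V - w) * ρ - m| ≤ Real.sqrt δ / 2) : |(V - w) * σ - m| ≤ Real.sqrt δ := by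
  have hsd : Real.sqrt δ ≤ 1 := by
    rw [Real.sqrt_le_iff]
    constructor
    · norm_num
    · linarith
  have h1 : Real.sqrt δ / L ≤ S := by
    have : Real.sqrt δ / L ≤ 1 / 8 := by
      rw [div_le_div_iff₀ (by linarith) (by norm_num)]
      nlinarith
    linarith
  have h2 : |V - w| * Real.sqrt R ≤ 3 * S := by
    have h3 : |V - w| ≤ |V| + |w| := abs_sub _ _
    have h4 : |V - w| * Real.sqrt R ≤ (|V| + |w|) * Real.sqrt R :=
      mul_le_mul_of_nonneg_right h3 (Real.sqrt_nonneg _)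
    nlinarith
  have h5 : |(V - w) * (ρ - σ)| ≤ Real.sqrt δ / 2 := by
    rw [abs_mul]
    calc |V - w| * |ρ - σ| ≤ |V - w| * (Real.sqrt R * κ) :=
          mul_le_mul_of_nonneg_left hσ (abs_nonneg _)
      _ = (|V - w| * Real.sqrt R) * κ := by ring
      _ ≤ (3 * S) * κ := mul_le_mul_of_nonneg_right h2 hκ0
      _ ≤ Real.sqrt δ / 2 := by linarith
  have h6 : (V - w) * σ - m = ((V - w) * ρ - m) - (V - w) * (ρ - σ) := by ring
  rw [h6]
  have h7 := abs_sub ((V - w) * ρ - m) ((V - w) * (ρ - σ))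
  linarith


private lemma end_main (hFAR : St_FAR) (hLEVD : St_LEVD) (hSQ : St_SQ) (hDET : St_DET)
    (hENDA : St_ENDA) (hENDB : St_ENDB) : ∀ k e : ℕ, ∃ C : ℕ, ∀ B d : ℕ, ∃ L0 : ℕ,
  ∀ (L R : ℕ) (S δ xc : ℝ) (ω ω' : ℕ → ℝ) (E : Finset (ℕ × ℕ)) (S0 : Finset ℕ) (V : Polynomial ℝ),
  L0 ≤ L → 1 ≤ R → RS R L S δ ω ω' E → 0 < δ → (L : ℝ) ^ C ≤ 1 / δ → 1 / δ ≤ (L : ℝ) ^ B → S ≤ (1 / δ) ^ k →
  S * L ≤ δ * R → S0.Nonempty → 0 ≤ xc → xc ≤ R → (∀ t ∈ S0, |(t : ℝ) - xc| ≤ R / (4 * (L : ℝ) ^ 2)) →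
  (∀ t ∈ S0, R ≤ 8 * L * (E.filter (fun e => e.1 = t)).card) → R ≤ L ^ e * S0.card → V.natDegree ≤ d →
  (∀ t ∈ S0, ∀ x : ℝ, (t : ℝ) ≤ x → x ≤ t + 1 →
    |ω t - V.eval x| * Real.sqrt R ≤ Real.sqrt δ / L) → False := by
  intro k e
  refine ⟨4 * e + 60, ?_⟩
  intro B d
  obtain ⟨dq, hdq⟩ := hSQ (B * k + B + 3)
  refine ⟨1024 + 16 * (d + dq + 1), ?_⟩
  intro L R S δ xc ω ω' E S0 V hL0 hR1 hRS hδ hC hB hSk hSL hne hxc0 hxcR hnear hdeg hRe hVd hV
  -- basic sizes
  have hL1024 : 1024 ≤ L := by omega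
  have hLD : 16 * (d + dq + 1) ≤ L := by omega
  obtain ⟨l, hl⟩ : ∃ l : ℝ, l = (L : ℝ) := ⟨_, rfl⟩
  have hl1024 : (1024 : ℝ) ≤ l := by rw [hl]; exact_mod_cast hL1024
  have hl0 : 0 < l := by linarith
  have hl1 : 1 ≤ l := by linarith
  obtain ⟨r, hr⟩ : ∃ r : ℝ, r = (R : ℝ) := ⟨_, rfl⟩
  have hr1 : 1 ≤ r := by rw [hr]; exact_mod_cast hR1
  have hr0 : 0 < r := by linarith
  rw [← hl] at hC hB hSL hnear hV
  rw [← hr] at hSL hxcR hnear hV
  have hδC : δ * l ^ (4 * e + 60) ≤ 1 := by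
    rw [le_div_iff₀ hδ] at hC
    linarith
  have hδ64 : δ ≤ 1 / 64 := by
    have h1 : l ≤ l ^ (4 * e + 60) := by
      calc l = l ^ 1 := by ring
        _ ≤ l ^ (4 * e + 60) := pow_le_pow_right₀ hl1 (by omega)
    have h2 : δ * 64 ≤ δ * l ^ (4 * e + 60) := mul_le_mul_of_nonneg_left (by linarith) hδ.le
    linarith
  obtain ⟨η, hη⟩ : ∃ η : ℝ, η = Real.sqrt δ := ⟨_, rfl⟩
  have hη0 : 0 < η := by rw [hη]; exact Real.sqrt_pos.2 hδ
  have hηsq : η * η = δ := by rw [hη]; exact Real.mul_self_sqrt hδ.le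
  have hη8 : η ≤ 1 / 8 := by
    rw [hη, Real.sqrt_le_iff]
    constructor
    · norm_num
    · linarith
  have hηC : η * l ^ (2 * e + 30) ≤ 1 := by
    have h1 : (η * l ^ (2 * e + 30)) ^ 2 ≤ 1 := by
      have h2 : (η * l ^ (2 * e + 30)) ^ 2 = (η * η) * l ^ (4 * e + 60) := by
        rw [mul_pow, ← pow_mul, sq]
        congr 2
        ring
      rw [h2, hηsq]
      exact hδC
    have h3 : 0 ≤ η * l ^ (2 * e + 30) := by positivity
    nlinarith
  have hηδ : δ ≤ η := by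
    rw [← hηsq]
    nlinarith
  -- E is not empty
  have hS4 : 1 / 4 ≤ S := by
    obtain ⟨t, ht⟩ := hne
    have h1 := hdeg t ht
    have h2 : 0 < (E.filter (fun e => e.1 = t)).card := by
      by_contra hcon
      have : (E.filter (fun e => e.1 = t)).card = 0 := by omega
      rw [this] at h1
      omega
    obtain ⟨f, hf⟩ := Finset.card_pos.1 h2
    have hfE := (Finset.mem_filter.1 hf).1
    obtain ⟨m, hm1, hm⟩ := hRS.res f hfE
    obtain ⟨hf1, hf2, hf3⟩ := hRS.sub f hfE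
    have hw1 := hRS.w1 f.1
    have hw2 := hRS.w2 f.2
    have h3 : Real.sqrt ((f.1 : ℝ) - f.2) ≤ Real.sqrt R := by
      apply Real.sqrt_le_sqrt
      have : (f.1 : ℝ) < R := by exact_mod_cast hf1
      have h4 : (0 : ℝ) ≤ f.2 := Nat.cast_nonneg _
      linarith
    have h5 : |(ω f.1 - ω' f.2) * Real.sqrt ((f.1 : ℝ) - f.2)| ≤ 2 * S := by
      rw [abs_mul, abs_of_nonneg (Real.sqrt_nonneg _)]
      calc |ω f.1 - ω' f.2| * Real.sqrt ((f.1 : ℝ) - f.2)
          ≤ |ω f.1 - ω' f.2| * Real.sqrt R := mul_le_mul_of_nonneg_left h3 (abs_nonneg _)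
        _ ≤ (|ω f.1| + |ω' f.2|) * Real.sqrt R :=
            mul_le_mul_of_nonneg_right (abs_sub _ _) (Real.sqrt_nonneg _)
        _ ≤ 2 * S := by linarith
    have h6 : (1 : ℝ) ≤ m := by exact_mod_cast hm1
    have h7 := abs_le.1 hm
    have h8 := abs_le.1 h5
    linarith [h7.1, h8.2]
  have hrC : l ^ (4 * e + 60) ≤ r := by
    -- S l ≤ δ r, so l/4 ≤ δ r ≤ r l^{-C}
    have h1 : 1 / 4 * l ≤ δ * r := le_trans (mul_le_mul_of_nonneg_right hS4 hl0.le) hSL
    have h2 : (1 / 4 * l) * l ^ (4 * e + 60) ≤ (δ * r) * l ^ (4 * e + 60) :=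
      mul_le_mul_of_nonneg_right h1 (by positivity)
    have h3 : (δ * r) * l ^ (4 * e + 60) ≤ r := by
      calc (δ * r) * l ^ (4 * e + 60) = r * (δ * l ^ (4 * e + 60)) := by ring
        _ ≤ r * 1 := mul_le_mul_of_nonneg_left hδC hr0.le
        _ = r := by ring
    have h4 : 1 * l ^ (4 * e + 60) ≤ (1 / 4 * l) * l ^ (4 * e + 60) :=
      mul_le_mul_of_nonneg_right (by linarith) (by positivity)
    linarith
  -- FAR
  have hrL : 2 ^ 10 * L ≤ R := by
    have h1 : (2 ^ 10 : ℝ) * l ≤ r := by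
      have h2 := end_pow 1024 l 1 (4 * e + 60) le_rfl hl1024 (by omega)
      rw [pow_one] at h2
      have h3 : (2 ^ 10 : ℝ) = 1024 := by norm_num
      rw [h3]
      linarith
    rw [hl, hr] at h1
    exact_mod_cast h1
  obtain ⟨y1, y2, hy12, hS0G⟩ := hFAR R L S0 E (by omega) hrL hne (fun f hf => (hRS.sub f hf).2.1) hdeg
  obtain ⟨G, hG⟩ : ∃ G : Finset ℕ, G = S0.filter (fun t => (t, y1) ∈ E ∧ (t, y2) ∈ E) := ⟨_, rfl⟩
  rw [← hG] at hS0G
  have hGE : ∀ t ∈ G, (t, y1) ∈ E ∧ (t, y2) ∈ E := by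
    intro t ht
    rw [hG] at ht
    exact (Finset.mem_filter.1 ht).2
  have hGS : ∀ t ∈ G, t ∈ S0 := by
    intro t ht
    rw [hG] at ht
    exact (Finset.mem_filter.1 ht).1
  have hS0pos : 0 < S0.card := Finset.card_pos.2 hne
  have hGpos : 0 < G.card := by
    by_contra hcon
    have h0 : G.card = 0 := by omega
    rw [h0] at hS0G
    omega
  have hGne : G.Nonempty := Finset.card_pos.1 hGpos
  -- real version
  have hRG : r ≤ 1024 * l ^ (e + 2) * (G.card : ℝ) := by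
    have h1 : R ≤ L ^ e * (1024 * L ^ 2 * G.card) := le_trans hRe (Nat.mul_le_mul_left _ hS0G)
    have h2 : (R : ℝ) ≤ (L : ℝ) ^ e * (1024 * (L : ℝ) ^ 2 * (G.card : ℝ)) := by exact_mod_cast h1
    rw [← hl, ← hr] at h2
    calc r ≤ l ^ e * (1024 * l ^ 2 * (G.card : ℝ)) := h2
      _ = 1024 * l ^ (e + 2) * (G.card : ℝ) := by ring
  have hgl : r ≤ l ^ (e + 3) * (G.card : ℝ) := by
    refine le_trans hRG (mul_le_mul_of_nonneg_right ?_ (Nat.cast_nonneg _))
    exact end_pow 1024 l (e + 2) (e + 3) le_rfl hl1024 (by omega)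
  -- sizes of intervals
  have hl2 : 0 < l ^ 2 := by positivity
  have hr4 : 1 ≤ r / (4 * l ^ 2) := by
    rw [le_div_iff₀ (by positivity)]
    have h2 := end_pow 4 l 2 (4 * e + 60) (by norm_num) hl1024 (by omega)
    linarith
  have hr24 : r / (2 * l ^ 2) = 2 * (r / (4 * l ^ 2)) := by
    field_simp
    ring
  have hr2l : r / (4 * l ^ 2) ≤ r / (4 * l) / 4 := by
    rw [div_div]
    apply div_le_div_of_nonneg_left hr0.le (by positivity)
    nlinarith
  have hr4l : r / (2 * l) = 2 * (r / (4 * l)) := by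
    field_simp
    ring
  have hr4l' : r / l = 4 * (r / (4 * l)) := by
    field_simp
  have hr4lp : 0 < r / (4 * l) := by positivity
  have hr4l1 : r / (4 * l) ≤ r / 4 := by
    apply div_le_div_of_nonneg_left hr0.le (by norm_num)
    linarith
  -- one side
  obtain ⟨κ, hκ⟩ : ∃ κ : ℝ, κ = 1 / l ^ (B * k + B + 3) := ⟨_, rfl⟩
  have hκ0 : 0 < κ := by rw [hκ]; positivity
  have hSB : S ≤ l ^ (B * k) := by
    refine le_trans hSk ?_
    rw [pow_mul]
    exact pow_le_pow_left₀ (by positivity) hB k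
  have hηB : 1 ≤ η * l ^ B := by
    have h1 : 1 ≤ δ * l ^ B := by
      rw [div_le_iff₀ hδ] at hB
      linarith
    exact le_trans h1 (mul_le_mul_of_nonneg_right hηδ (by positivity))
  have hκS : 48 * l * S * κ ≤ η := by
    rw [hκ, mul_one_div, div_le_iff₀ (by positivity)]
    have h1 : 48 * l * S ≤ 48 * l * l ^ (B * k) := mul_le_mul_of_nonneg_left hSB (by positivity)
    have h2 : 48 * l ^ (B * k + 1) ≤ l ^ (B * k + 3) :=
      end_pow 48 l (B * k + 1) (B * k + 3) (by norm_num) hl1024 (by omega)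
    have h3 : 1 * l ^ (B * k + 3) ≤ (η * l ^ B) * l ^ (B * k + 3) :=
      mul_le_mul_of_nonneg_right hηB (by positivity)
    calc 48 * l * S ≤ 48 * l * l ^ (B * k) := h1
      _ = 48 * l ^ (B * k + 1) := by ring
      _ ≤ l ^ (B * k + 3) := h2
      _ = 1 * l ^ (B * k + 3) := by ring
      _ ≤ (η * l ^ B) * l ^ (B * k + 3) := h3
      _ = η * l ^ (B * k + B + 3) := by ring
  have hκS6 : 6 * S * κ ≤ η := by
    refine le_trans (mul_le_mul_of_nonneg_right ?_ hκ0.le) hκS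
    nlinarith
  have hκl : 4 * l * κ ≤ 1 := by
    have h1 : 4 * l * κ ≤ 48 * l * S * κ := by
      apply mul_le_mul_of_nonneg_right _ hκ0.le
      nlinarith
    linarith
  have side : ∀ y : ℕ, (∀ t ∈ G, (t, y) ∈ E) →
      ∃ σ : Polynomial ℝ, σ.natDegree ≤ dq ∧ y + r / (2 * l) ≤ xc ∧
        (∀ x : ℝ, |x - xc| ≤ r / (2 * l ^ 2) → |Real.sqrt (x - y) - σ.eval x| ≤ Real.sqrt r * κ) ∧
        (∀ t ∈ G, ∃ m : ℤ, 1 ≤ m ∧ (m : ℝ) ≤ 6 * S ∧ ∀ x : ℝ, (t : ℝ) ≤ x → x ≤ t + 1 →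
          |(V.eval x - ω' y) * σ.eval x - m| ≤ η) := by
    intro y hy
    have hyx : y + r / (2 * l) ≤ xc := by
      obtain ⟨t, ht⟩ := hGne
      obtain ⟨h1, h2, h3⟩ := hRS.sub _ (hy t ht)
      have h4 : (R : ℝ) + L * y ≤ L * t := by exact_mod_cast h3
      rw [← hl, ← hr] at h4
      have h5 : r / l ≤ t - y := by
        rw [div_le_iff₀ hl0]
        nlinarith
      have h6 := abs_le.1 (hnear t (hGS t ht))
      linarith [h6.1, h6.2]
    obtain ⟨σ, hσd, hσ⟩ := end_sq dq (B * k + B + 3) hdq L r xc y (by omega) hr0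
      (by rw [← hl]; linarith) (by have : (0 : ℝ) ≤ y := Nat.cast_nonneg _; linarith)
    rw [← hl, ← hκ] at hσ
    refine ⟨σ, hσd, hyx, hσ, ?_⟩
    intro t ht
    obtain ⟨m, hm1, hm⟩ := hRS.res _ (hy t ht)
    obtain ⟨h1, h2, h3⟩ := hRS.sub _ (hy t ht)
    have hw1 := hRS.w1 t
    have hw2 := hRS.w2 y
    simp only at hm h1 h2 h3
    refine ⟨m, hm1, ?_, ?_⟩
    · have h4 : Real.sqrt ((t : ℝ) - y) ≤ Real.sqrt R := by
        apply Real.sqrt_le_sqrt
        have h5 : (t : ℝ) < R := by exact_mod_cast h1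
        have h6 : (0 : ℝ) ≤ y := Nat.cast_nonneg _
        linarith
      have h5 : |(ω t - ω' y) * Real.sqrt ((t : ℝ) - y)| ≤ 2 * S := by
        rw [abs_mul, abs_of_nonneg (Real.sqrt_nonneg _)]
        calc |ω t - ω' y| * Real.sqrt ((t : ℝ) - y)
            ≤ |ω t - ω' y| * Real.sqrt R := mul_le_mul_of_nonneg_left h4 (abs_nonneg _)
          _ ≤ (|ω t| + |ω' y|) * Real.sqrt R :=
              mul_le_mul_of_nonneg_right (abs_sub _ _) (Real.sqrt_nonneg _)
          _ ≤ 2 * S := by linarith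
      have h7 := abs_le.1 hm
      have h8 := abs_le.1 h5
      linarith [h7.1, h8.2]
    · intro x hx1 hx2
      have hxn : |x - xc| ≤ r / (2 * l ^ 2) := by
        have h6 := abs_le.1 (hnear t (hGS t ht))
        rw [hr24, abs_le]
        constructor
        · linarith [h6.1, h6.2]
        · linarith [h6.1, h6.2]
      have h10 := hV t (hGS t ht) x hx1 hx2
      have h9 := hENDA R L t y S δ (ω t) (ω' y) (V.eval x) x m hR1 (by omega) hδ hδ64 h1 h3
        (by rw [← hl, ← hr]; exact hSL) hw1 hw2 hm hx1 hx2 (by rw [← hl, ← hr]; exact h10)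
      have h11 : |V.eval x| * Real.sqrt r ≤ S + Real.sqrt δ / l := by
        have h12 : |V.eval x| ≤ |ω t| + |ω t - V.eval x| := by
          have h13 : V.eval x = ω t - (ω t - V.eval x) := by ring
          calc |V.eval x| = |ω t - (ω t - V.eval x)| := by rw [← h13]
            _ ≤ |ω t| + |ω t - V.eval x| := abs_sub _ _
        have h14 : |V.eval x| * Real.sqrt r ≤ (|ω t| + |ω t - V.eval x|) * Real.sqrt r :=
          mul_le_mul_of_nonneg_right h12 (Real.sqrt_nonneg _)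
        rw [← hr] at hw1
        linarith
      rw [hη]
      rw [← hr] at hw2
      exact end_near (V.eval x) (σ.eval x) (ω' y) (Real.sqrt (x - y)) r S κ δ l m hS4 hδ hδ64
        (by linarith) h11 hw2 (hσ x hxn) hκ0.le (by rw [← hη]; exact hκS6) h9
  obtain ⟨σ1, hσ1d, hyx1, hσ1, hG1⟩ := side y1 (fun t ht => (hGE t ht).1)
  obtain ⟨σ2, hσ2d, hyx2, hσ2, hG2⟩ := side y2 (fun t ht => (hGE t ht).2)
  -- the two polynomials
  have degp : ∀ (y : ℕ) (σ : Polynomial ℝ), σ.natDegree ≤ dq →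
      ((V - Polynomial.C (ω' y)) * σ).natDegree ≤ d + dq := by
    intro y σ hσ
    refine le_trans Polynomial.natDegree_mul_le ?_
    have h1 : (V - Polynomial.C (ω' y)).natDegree ≤ V.natDegree := by
      rw [Polynomial.natDegree_sub_C]
    omega
  have evalp : ∀ (y : ℕ) (σ : Polynomial ℝ) (x : ℝ),
      ((V - Polynomial.C (ω' y)) * σ).eval x = (V.eval x - ω' y) * σ.eval x := by
    intro y σ x
    simp
  have dIle : ∀ (x : ℝ) (m : ℤ), |x - m| ≤ η → dI x ≤ η := by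
    intro x m h
    exact le_trans (round_le x m) h
  have hba : (xc + r / (4 * l ^ 2) + 1) - (xc - r / (4 * l ^ 2) - 1) ≤ r := by
    nlinarith
  have hG16 : 16 * η * r ≤ G.card / l := by
    rw [le_div_iff₀ hl0]
    have h1 : 16 * η * r * l ≤ 16 * η * (l ^ (e + 3) * (G.card : ℝ)) * l := by
      apply mul_le_mul_of_nonneg_right _ hl0.le
      exact mul_le_mul_of_nonneg_left hgl (by positivity)
    have h2 : 16 * l ^ (e + 4) ≤ l ^ (2 * e + 30) :=
      end_pow 16 l (e + 4) (2 * e + 30) (by norm_num) hl1024 (by omega)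
    have h3 : η * (16 * l ^ (e + 4)) ≤ 1 := le_trans (mul_le_mul_of_nonneg_left h2 hη0.le) hηC
    have h4 : 16 * η * (l ^ (e + 3) * (G.card : ℝ)) * l = (η * (16 * l ^ (e + 4))) * (G.card : ℝ) := by
      ring
    rw [h4] at h1
    refine le_trans h1 ?_
    have h5 : (0 : ℝ) ≤ G.card := Nat.cast_nonneg _
    nlinarith
  have hGl : (G.card : ℝ) / l ≤ G.card := by
    rw [div_le_iff₀ hl0]
    have h5 : (0 : ℝ) ≤ G.card := Nat.cast_nonneg _
    nlinarith
  have hGbig : l ^ 3 ≤ (G.card : ℝ) := by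
    have h1 : l ^ (4 * e + 60) ≤ l ^ (e + 3) * (G.card : ℝ) := le_trans hrC hgl
    have h2 : l ^ (e + 3) * l ^ 3 ≤ l ^ (4 * e + 60) := by
      rw [← pow_add]
      exact pow_le_pow_right₀ hl1 (by omega)
    have h3 : l ^ (e + 3) * l ^ 3 ≤ l ^ (e + 3) * (G.card : ℝ) := le_trans h2 h1
    exact le_of_mul_le_mul_left h3 (by positivity)
  have hlD : 16 * ((d + dq : ℕ) + 1 : ℝ) ≤ l := by
    rw [hl]
    exact_mod_cast hLD
  obtain ⟨u1, v1, m1, G1, hG1G, hau1, huv1, hv1b, hm1, hG1uv, hcard1⟩ :=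
    hLEVD ((V - Polynomial.C (ω' y1)) * σ1) (xc - r / (4 * l ^ 2) - 1) (xc + r / (4 * l ^ 2) + 1) η G
      hη0 hη8
      (by
        intro t ht
        have h6 := abs_le.1 (hnear t (hGS t ht))
        constructor
        · linarith [h6.1]
        · linarith [h6.2])
      (by
        intro t ht x hx1 hx2
        obtain ⟨m, _, _, hm⟩ := hG1 t ht
        rw [evalp]
        exact dIle _ m (hm x hx1 hx2))
      (by
        have h1 : 16 * η * ((xc + r / (4 * l ^ 2) + 1) - (xc - r / (4 * l ^ 2) - 1)) ≤ 16 * η * r :=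
          mul_le_mul_of_nonneg_left hba (by positivity)
        linarith)
      (by
        have h1 := degp y1 σ1 hσ1d
        have h2 : L * L * L ≤ G.card := by
          have : (L : ℝ) * L * L ≤ (G.card : ℝ) := by
            rw [← hl]
            calc l * l * l = l ^ 3 := by ring
              _ ≤ _ := hGbig
          exact_mod_cast this
        nlinarith)
  have hc1 : G.card ≤ L * G1.card := by
    refine le_trans hcard1 (Nat.mul_le_mul_right _ ?_)
    have := degp y1 σ1 hσ1d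
    omega
  have hc1r : (G.card : ℝ) ≤ l * G1.card := by rw [hl]; exact_mod_cast hc1
  have hG1big : l ^ 2 ≤ (G1.card : ℝ) := by
    have h3 : l * l ^ 2 ≤ l * (G1.card : ℝ) := by
      calc l * l ^ 2 = l ^ 3 := by ring
        _ ≤ (G.card : ℝ) := hGbig
        _ ≤ _ := hc1r
    exact le_of_mul_le_mul_left h3 hl0
  obtain ⟨u, v, m2, G2, hG2G, hau, huv, hvb, hm2, hG2uv, hcard2⟩ :=
    hLEVD ((V - Polynomial.C (ω' y2)) * σ2) u1 v1 η G1
      hη0 hη8 hG1uv
      (by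
        intro t ht x hx1 hx2
        obtain ⟨m, _, _, hm⟩ := hG2 t (hG1G ht)
        rw [evalp]
        exact dIle _ m (hm x hx1 hx2))
      (by
        have h0 : v1 - u1 ≤ r := by linarith
        have h1 : 16 * η * (v1 - u1) ≤ 16 * η * r :=
          mul_le_mul_of_nonneg_left h0 (by positivity)
        have h2 : (G.card : ℝ) / l ≤ G1.card := by
          rw [div_le_iff₀ hl0]
          linarith
        linarith)
      (by
        have h1 := degp y2 σ2 hσ2d
        have h2 : L * L ≤ G1.card := by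
          have : (L : ℝ) * L ≤ (G1.card : ℝ) := by
            rw [← hl]
            calc l * l = l ^ 2 := by ring
              _ ≤ _ := hG1big
          exact_mod_cast this
        nlinarith)
  have hc2 : G1.card ≤ L * G2.card := by
    refine le_trans hcard2 (Nat.mul_le_mul_right _ ?_)
    have := degp y2 σ2 hσ2d
    omega
  have hc2r : (G1.card : ℝ) ≤ l * G2.card := by rw [hl]; exact_mod_cast hc2
  have hG2pos : 0 < G2.card := by
    by_contra hcon
    have h0 : G2.card = 0 := by omega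
    rw [h0, Nat.cast_zero, mul_zero] at hc2r
    have : 0 < l ^ 2 := by positivity
    linarith
  have hG2ne : G2.Nonempty := Finset.card_pos.1 hG2pos
  have hrG2 : r ≤ l ^ (e + 5) * (G2.card : ℝ) := by
    calc r ≤ l ^ (e + 3) * (G.card : ℝ) := hgl
      _ ≤ l ^ (e + 3) * (l * (l * G2.card)) := by
          apply mul_le_mul_of_nonneg_left _ (by positivity)
          refine le_trans hc1r (mul_le_mul_of_nonneg_left hc2r hl0.le)
      _ = l ^ (e + 5) * (G2.card : ℝ) := by ring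
  have huvG := end_card G2 u v hG2ne hG2uv
  -- the integers
  have ident : ∀ (y : ℕ) (σ : Polynomial ℝ) (m : ℤ),
      (∀ t ∈ G, ∃ m : ℤ, 1 ≤ m ∧ (m : ℝ) ≤ 6 * S ∧ ∀ x : ℝ, (t : ℝ) ≤ x → x ≤ t + 1 →
          |(V.eval x - ω' y) * σ.eval x - m| ≤ η) →
      (∀ x : ℝ, u ≤ x → x ≤ v → |(V.eval x - ω' y) * σ.eval x - m| ≤ η) →
      (1 : ℝ) ≤ m ∧ (m : ℝ) ≤ 6 * S := by
    intro y σ m h1 h2
    obtain ⟨t, ht⟩ := hG2ne
    obtain ⟨m', hm'1, hm'2, hm'⟩ := h1 t (hG1G (hG2G ht))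
    have h3 := hm' t le_rfl (by linarith)
    have h4 := h2 t (hG2uv t ht).1 (by linarith [(hG2uv t ht).2])
    have h5 : m = m' := by
      have h6 := abs_le.1 h3
      have h7 := abs_le.1 h4
      have h8 : (m : ℝ) - m' < 1 := by linarith [h6.1, h6.2, h7.1, h7.2]
      have h9 : (m' : ℝ) - m < 1 := by linarith [h6.1, h6.2, h7.1, h7.2]
      have h10 : m - m' < 1 := by exact_mod_cast h8
      have h11 : m' - m < 1 := by exact_mod_cast h9
      omega
    rw [h5]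
    exact ⟨by exact_mod_cast hm'1, hm'2⟩
  have hp1 : ∀ x : ℝ, u ≤ x → x ≤ v → |(V.eval x - ω' y1) * σ1.eval x - m1| ≤ η := by
    intro x hx1 hx2
    rw [← evalp]
    exact hm1 x (by linarith) (by linarith)
  have hp2 : ∀ x : ℝ, u ≤ x → x ≤ v → |(V.eval x - ω' y2) * σ2.eval x - m2| ≤ η := by
    intro x hx1 hx2
    rw [← evalp]
    exact hm2 x hx1 hx2
  obtain ⟨hm11, hm16⟩ := ident y1 σ1 m1 hG1 hp1
  obtain ⟨hm21, hm26⟩ := ident y2 σ2 m2 hG2 hp2
  -- ENDB on both sides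
  have sideB : ∀ (y : ℕ) (σ : Polynomial ℝ) (m : ℤ), y + r / (2 * l) ≤ xc →
      (∀ x : ℝ, |x - xc| ≤ r / (2 * l ^ 2) → |Real.sqrt (x - y) - σ.eval x| ≤ Real.sqrt r * κ) →
      (1 : ℝ) ≤ m → (m : ℝ) ≤ 6 * S →
      (∀ x : ℝ, u ≤ x → x ≤ v → |(V.eval x - ω' y) * σ.eval x - m| ≤ η) →
      ∀ x : ℝ, u ≤ x → x ≤ v →
        |V.eval x - ω' y - m / Real.sqrt (x - y)| * Real.sqrt r ≤ 5 * Real.sqrt l * η := by
    intro y σ m h1 h2 h3 h4 h5 x hx1 hx2
    have hxn : |x - xc| ≤ r / (2 * l ^ 2) := by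
      rw [hr24, abs_le]
      constructor
      · linarith
      · linarith
    have h6 : r / (4 * l) ≤ x - y := by
      have h7 := (abs_le.1 hxn).1
      linarith
    have h8 : 8 * l * m * κ ≤ η := by
      refine le_trans (mul_le_mul_of_nonneg_right ?_ hκ0.le) hκS
      nlinarith
    have h9 := hENDB L r (x - y) (σ.eval x) (ω' y) (V.eval x) η κ m (by omega) hr0
      (by rw [← hl]; exact h6) hη0 (by linarith) hκ0.le (h2 x hxn) (by rw [← hl]; exact hκl)
      (by rw [← hl]; exact h8) (h5 x hx1 hx2)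
    rw [← hl] at h9
    exact h9
  have hB1 := sideB y1 σ1 m1 hyx1 hσ1 hm11 hm16 hp1
  have hB2 := sideB y2 σ2 m2 hyx2 hσ2 hm21 hm26 hp2
  -- DET
  have hdet := hDET L r y1 y2 u v m1 m2 (ω' y2 - ω' y1) (10 * Real.sqrt l * η) (by omega) hr0 hm11 hm21
    (by
      rw [← hl]
      have h1 : (R : ℝ) + 32 * L * y1 ≤ 32 * L * y2 := by exact_mod_cast hy12
      rw [← hl, ← hr] at h1
      have h2 : r / (32 * l) ≤ y2 - y1 := by
        rw [div_le_iff₀ (by positivity)]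
        nlinarith
      linarith)
    (by
      rw [← hl]
      linarith)
    huv
    (by
      have : (0 : ℝ) ≤ y1 := Nat.cast_nonneg _
      linarith)
    (by
      intro x hx1 hx2
      have h1 := hB1 x hx1 hx2
      have h2 := hB2 x hx1 hx2
      have h3 : (m1 : ℝ) / Real.sqrt (x - y1) - m2 / Real.sqrt (x - y2) - (ω' y2 - ω' y1) =
          (V.eval x - ω' y2 - m2 / Real.sqrt (x - y2)) - (V.eval x - ω' y1 - m1 / Real.sqrt (x - y1)) := by
        ring
      rw [h3]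
      have h4 := mul_le_mul_of_nonneg_right (abs_sub (V.eval x - ω' y2 - m2 / Real.sqrt (x - y2))
        (V.eval x - ω' y1 - m1 / Real.sqrt (x - y1))) (Real.sqrt_nonneg r)
      linarith)
  rw [← hl] at hdet
  -- contradiction
  have hA : 1 / l ^ (e + 5) ≤ (v - u) / r := by
    rw [div_le_div_iff₀ (by positivity) hr0]
    have h1 : (G2.card : ℝ) * l ^ (e + 5) ≤ (v - u) * l ^ (e + 5) :=
      mul_le_mul_of_nonneg_right huvG (by positivity)
    linarith
  have hA2 : (1 / l ^ (e + 5)) ^ 2 ≤ ((v - u) / r) ^ 2 :=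
    pow_le_pow_left₀ (by positivity) hA 2
  have hsl : Real.sqrt l ≤ l := by
    rw [Real.sqrt_le_iff]
    constructor
    · exact hl0.le
    · nlinarith
  have hC3 : (1 / l ^ (e + 5)) ^ 2 ≤ 2 ^ 16 * l ^ 2 * (10 * l * η) := by
    refine le_trans hA2 (le_trans hdet ?_)
    apply mul_le_mul_of_nonneg_left _ (by positivity)
    apply mul_le_mul_of_nonneg_right _ hη0.le
    linarith
  have hC4 : 1 ≤ 2 ^ 16 * l ^ 2 * (10 * l * η) * l ^ (2 * e + 10) := by
    have h1 : (1 / l ^ (e + 5)) ^ 2 * l ^ (2 * e + 10) = 1 := by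
      have h2 : l ^ (2 * e + 10) = (l ^ (e + 5)) ^ 2 := by
        rw [← pow_mul]
        congr 1
        ring
      rw [h2]
      have h3 : l ^ (e + 5) ≠ 0 := by positivity
      field_simp
    have h4 := mul_le_mul_of_nonneg_right hC3 (by positivity : (0 : ℝ) ≤ l ^ (2 * e + 10))
    rw [h1] at h4
    exact h4
  have hC5 : 2 ^ 16 * l ^ 2 * (10 * l * η) * l ^ (2 * e + 10) = η * (655360 * l ^ (2 * e + 13)) := by
    ring
  have hC6 : 655360 * l ^ (2 * e + 13) * 2 ≤ l ^ (2 * e + 30) := by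
    have h1 : 1024 * (1024 * (1024 * l ^ (2 * e + 13))) ≤ l ^ (2 * e + 16) := by
      have h2 := end_pow 1024 l (2 * e + 13) (2 * e + 14) le_rfl hl1024 (by omega)
      have h3 := end_pow 1024 l (2 * e + 14) (2 * e + 15) le_rfl hl1024 (by omega)
      have h4 := end_pow 1024 l (2 * e + 15) (2 * e + 16) le_rfl hl1024 (by omega)
      linarith
    have h5 : l ^ (2 * e + 16) ≤ l ^ (2 * e + 30) := pow_le_pow_right₀ hl1 (by omega)
    have h6 : 0 < l ^ (2 * e + 13) := by positivity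
    linarith
  have hC7 : η * (655360 * l ^ (2 * e + 13) * 2) ≤ 1 :=
    le_trans (mul_le_mul_of_nonneg_left hC6 hη0.le) hηC
  rw [hC5] at hC4
  have hC8 : η * (655360 * l ^ (2 * e + 13) * 2) = 2 * (η * (655360 * l ^ (2 * e + 13))) := by ring
  rw [hC8] at hC7
  linarith

/-- **END** (the last step of the resonance lemma). -/
theorem thm_END (hFAR : St_FAR) (hLEVD : St_LEVD) (hSQ : St_SQ) (hDET : St_DET)
    (hENDA : St_ENDA) (hENDB : St_ENDB) : St_END :=
  end_main hFAR hLEVD hSQ hDET hENDA hENDB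

end Pool.Agent.BSR
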