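import Pool.Agent.BSR.StB

/-!
# BSR, module ENDA
-/

set_option autoImplicit false

namespace Pool.Agent.BSR

open Finset MeasureTheory Filter Topology Pool.Agent.BSQ
open scoped BigOperators
open Classical

theorem thm_ENDA : St_ENDA := by
  intro R L t y S δ wt wy v x m hR hL hδ hδ1 htR hRL hSL hwt hwy hm htx hxt hv
  obtain ⟨r, hr⟩ : ∃ r : ℝ, r = Real.sqrt R := ⟨_, rfl⟩
  obtain ⟨a, ha⟩ : ∃ a : ℝ, a = Real.sqrt (x - y) := ⟨_, rfl⟩
  obtain ⟨b, hb⟩ : ∃ b : ℝ, b = Real.sqrt ((t : ℝ) - y) := ⟨_, rfl⟩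
  obtain ⟨u, hu⟩ : ∃ u : ℝ, u = Real.sqrt δ := ⟨_, rfl⟩
  have hRr : (1 : ℝ) ≤ R := by exact_mod_cast hR
  have hLr : (8 : ℝ) ≤ L := by exact_mod_cast hL
  have htR1 : (t : ℝ) + 1 ≤ R := by exact_mod_cast htR
  have hRL1 : (R : ℝ) + L * y ≤ L * t := by exact_mod_cast hRL
  have hty : (R : ℝ) ≤ L * (t - y) := by linarith
  have hty0 : (0 : ℝ) < (t : ℝ) - y := by
    by_contra hcon
    rw [not_lt] at hcon
    have := mul_nonpos_of_nonneg_of_nonpos (by linarith : (0 : ℝ) ≤ (L : ℝ)) hcon
    linarith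
  have hy0 : (0 : ℝ) ≤ y := Nat.cast_nonneg y
  have r0 : 0 ≤ r := by rw [hr]; exact Real.sqrt_nonneg _
  have r2 : r * r = R := by rw [hr]; exact Real.mul_self_sqrt (by linarith)
  have a0 : 0 ≤ a := by rw [ha]; exact Real.sqrt_nonneg _
  have a2 : a * a = x - y := by rw [ha]; exact Real.mul_self_sqrt (by linarith)
  have b0 : 0 ≤ b := by rw [hb]; exact Real.sqrt_nonneg _
  have b2 : b * b = (t : ℝ) - y := by rw [hb]; exact Real.mul_self_sqrt (by linarith)
  have u0 : 0 ≤ u := by rw [hu]; exact Real.sqrt_nonneg _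
  have u2 : u * u = δ := by rw [hu]; exact Real.mul_self_sqrt (by linarith)
  have u8 : u ≤ 1 / 8 := by
    rw [hu]
    apply Real.sqrt_le_iff.mpr
    constructor
    · norm_num
    · linarith
  have har : a ≤ r := by
    rw [ha, hr]
    exact Real.sqrt_le_sqrt (by linarith)
  have hba : b ≤ a := by
    rw [ha, hb]
    exact Real.sqrt_le_sqrt (by linarith)
  rw [← hb] at hm
  rw [← hr] at hwt hwy hv
  rw [← hu] at hv
  rw [← ha, ← hu]
  have S0 : 0 ≤ S := le_trans (mul_nonneg (abs_nonneg _) r0) hwt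
  -- the second summand
  have t1 : |v - wt| * a ≤ u / 8 := by
    have e1 : |v - wt| * a ≤ |wt - v| * r := by
      rw [abs_sub_comm]
      exact mul_le_mul_of_nonneg_left har (abs_nonneg _)
    have e2 : u / L ≤ u / 8 := div_le_div_of_nonneg_left u0 (by norm_num) hLr
    linarith
  -- the third summand
  have t2 : |wt - wy| * (a - b) ≤ δ := by
    have e1 : |wt - wy| * r ≤ 2 * S := by
      have := abs_sub wt wy
      have e2 := mul_le_mul_of_nonneg_right this r0
      rw [add_mul] at e2
      linarith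
    have e3 : 0 ≤ |wt - wy| * (a - b) := mul_nonneg (abs_nonneg _) (by linarith)
    have e4 : (|wt - wy| * (a - b)) * (r * (2 * b)) ≤ 2 * S := by
      have e5 : (|wt - wy| * (a - b)) * (r * (2 * b)) ≤
          (|wt - wy| * (a - b)) * (r * (a + b)) := by
        apply mul_le_mul_of_nonneg_left _ e3
        apply mul_le_mul_of_nonneg_left _ r0
        linarith
      have e6 : (|wt - wy| * (a - b)) * (r * (a + b)) = (|wt - wy| * r) * (x - t) := by
        have : (a - b) * (a + b) = x - t := by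
          have : (a - b) * (a + b) = a * a - b * b := by ring
          rw [this, a2, b2]
          ring
        rw [← this]
        ring
      have e7 : (|wt - wy| * r) * (x - t) ≤ (|wt - wy| * r) * 1 :=
        mul_le_mul_of_nonneg_left (by linarith) (mul_nonneg (abs_nonneg _) r0)
      linarith
    have e8 : (R : ℝ) ≤ r * b * L := by
      have h1 : (R : ℝ) * R ≤ (r * b * L) * (r * b * L) := by
        have h2 : (r * b * L) * (r * b * L) = (r * r) * (L * (b * b)) * L := by ring
        rw [h2, r2, b2]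
        have h3 : (R : ℝ) * R ≤ (R : ℝ) * (L * ((t : ℝ) - y)) :=
          mul_le_mul_of_nonneg_left hty (by linarith)
        have h4 : (0 : ℝ) ≤ (R : ℝ) * (L * ((t : ℝ) - y)) := by positivity
        have h5 : (R : ℝ) * (L * ((t : ℝ) - y)) * 1 ≤ (R : ℝ) * (L * ((t : ℝ) - y)) * L :=
          mul_le_mul_of_nonneg_left (by linarith) h4
        linarith
      exact (mul_self_le_mul_self_iff (by linarith) (by positivity)).mpr h1
    have e9 : (|wt - wy| * (a - b)) * R ≤ δ * R := by
      have h1 := mul_le_mul_of_nonneg_left e8 e3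
      have h2 : (|wt - wy| * (a - b)) * (r * b * L) ≤ S * L := by
        have h3 : (|wt - wy| * (a - b)) * (r * b * L) =
          ((|wt - wy| * (a - b)) * (r * (2 * b))) * (L / 2) := by ring
        have h4 := mul_le_mul_of_nonneg_right e4 (by linarith : (0 : ℝ) ≤ (L : ℝ) / 2)
        linarith
      linarith
    exact le_of_mul_le_mul_right e9 (by linarith)
  have key : (v - wy) * a - m = ((wt - wy) * b - m) + ((v - wt) * a + (wt - wy) * (a - b)) := by
    ring
  rw [key]
  have s1 := abs_add_le ((wt - wy) * b - (m : ℝ)) ((v - wt) * a + (wt - wy) * (a - b))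
  have s2 := abs_add_le ((v - wt) * a) ((wt - wy) * (a - b))
  rw [abs_mul (v - wt) a, abs_mul (wt - wy) (a - b), abs_of_nonneg a0,
    abs_of_nonneg (by linarith : (0 : ℝ) ≤ a - b)] at s2
  have s3 : 2 * δ ≤ u / 4 := by
    rw [← u2]
    have := mul_le_mul_of_nonneg_left u8 u0
    linarith
  linarith

end Pool.Agent.BSR
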