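import Pool.Agent.BSR.StB

/-!
# BSR, module ENDB
-/

set_option autoImplicit false

namespace Pool.Agent.BSR

open Finset MeasureTheory Filter Topology Pool.Agent.BSQ
open scoped BigOperators
open Classical

theorem thm_ENDB : St_ENDB := by
  intro L R s σ w v η κ m hL hR hs hη hm hκ hσ hLκ hLm hv
  obtain ⟨ρ, hρ⟩ : ∃ ρ : ℝ, ρ = Real.sqrt s := ⟨_, rfl⟩
  obtain ⟨r, hr⟩ : ∃ r : ℝ, r = Real.sqrt R := ⟨_, rfl⟩
  obtain ⟨l, hl⟩ : ∃ l : ℝ, l = Real.sqrt L := ⟨_, rfl⟩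
  have hLr : (1 : ℝ) ≤ L := by exact_mod_cast hL
  have hs0 : 0 < s := lt_of_lt_of_le (by positivity) hs
  have hRs : R ≤ 4 * L * s := by
    rw [div_le_iff₀ (by positivity)] at hs
    linarith
  have ρ0 : 0 < ρ := by rw [hρ]; exact Real.sqrt_pos.mpr hs0
  have ρ2 : ρ * ρ = s := by rw [hρ]; exact Real.mul_self_sqrt hs0.le
  have r0 : 0 < r := by rw [hr]; exact Real.sqrt_pos.mpr hR
  have r2 : r * r = R := by rw [hr]; exact Real.mul_self_sqrt hR.le
  have l0 : 1 ≤ l := by rw [hl]; exact Real.one_le_sqrt.mpr hLr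
  have l2 : l * l = L := by rw [hl]; exact Real.mul_self_sqrt (by linarith)
  rw [← hρ, ← hr] at hσ
  rw [← hρ, ← hr, ← hl]
  have hrl : r ≤ 2 * l * ρ := by
    apply (mul_self_le_mul_self_iff r0.le (by positivity)).mpr
    have : 2 * l * ρ * (2 * l * ρ) = 4 * (l * l) * (ρ * ρ) := by ring
    rw [this, l2, ρ2, r2]
    exact hRs
  have hlL : l ≤ L := by
    rw [← l2]
    have := mul_le_mul_of_nonneg_left l0 (by linarith : (0 : ℝ) ≤ l)
    linarith
  have hσρ : ρ / 2 ≤ σ := by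
    have h1 := (abs_le.mp hσ).2
    have h2 : r * κ ≤ 2 * l * ρ * κ := mul_le_mul_of_nonneg_right hrl hκ
    have h3 : 2 * l * ρ * κ ≤ ρ / 2 := by
      have h4 : l * κ ≤ L * κ := mul_le_mul_of_nonneg_right hlL hκ
      have h5 : 2 * ρ * (l * κ) ≤ 2 * ρ * (L * κ) :=
        mul_le_mul_of_nonneg_left h4 (by linarith)
      have h6 : 2 * ρ * (L * κ) ≤ 2 * ρ * (1 / 4) :=
        mul_le_mul_of_nonneg_left (by linarith) (by linarith)
      have h7 : 2 * l * ρ * κ = 2 * ρ * (l * κ) := by ring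
      rw [h7]
      linarith
    linarith
  have σ0 : 0 < σ := by linarith
  obtain ⟨D, hD⟩ : ∃ D : ℝ, D = v - w - m / ρ := ⟨_, rfl⟩
  rw [← hD]
  have hDm : D * (σ * ρ) = ((v - w) * σ - m) * ρ + m * (ρ - σ) := by
    rw [hD]
    field_simp
    ring
  have h1 : |D| * (σ * ρ) ≤ η * ρ + m * (r * κ) := by
    have h2 : |D| * (σ * ρ) = |D * (σ * ρ)| := by
      rw [abs_mul, abs_of_pos (mul_pos σ0 ρ0)]
    rw [h2, hDm]
    refine le_trans (abs_add_le _ _) (add_le_add ?_ ?_)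
    · rw [abs_mul, abs_of_pos ρ0]
      exact mul_le_mul_of_nonneg_right hv ρ0.le
    · rw [abs_mul, abs_of_nonneg hm]
      exact mul_le_mul_of_nonneg_left hσ hm
  have h2 : (|D| * r) * (σ * ρ) ≤ (5 * l * η) * (σ * ρ) := by
    have e1 : (|D| * r) * (σ * ρ) = (|D| * (σ * ρ)) * r := by ring
    have e2 := mul_le_mul_of_nonneg_right h1 r0.le
    have e3 : (η * ρ + m * (r * κ)) * r = η * ρ * r + m * κ * (r * r) := by ring
    have e4 : η * ρ * r ≤ 4 * l * η * (σ * ρ) := by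
      have f1 : η * ρ * r ≤ η * ρ * (2 * l * ρ) :=
        mul_le_mul_of_nonneg_left hrl (by positivity)
      have f2 : (4 * l * η * ρ) * (ρ / 2) ≤ (4 * l * η * ρ) * σ :=
        mul_le_mul_of_nonneg_left hσρ (by positivity)
      linarith
    have e5 : m * κ * (r * r) ≤ l * η * (σ * ρ) := by
      have f1 : m * κ * (r * r) ≤ m * κ * (4 * L * (ρ * ρ)) := by
        rw [r2, ρ2]
        exact mul_le_mul_of_nonneg_left hRs (by positivity)
      have f2 : (8 * L * m * κ) * (ρ * ρ / 2) ≤ η * (ρ * ρ / 2) :=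
        mul_le_mul_of_nonneg_right hLm (by positivity)
      have f3 : (η * ρ) * (ρ / 2) ≤ (η * ρ) * σ :=
        mul_le_mul_of_nonneg_left hσρ (by positivity)
      have f4 : 1 * (η * (σ * ρ)) ≤ l * (η * (σ * ρ)) :=
        mul_le_mul_of_nonneg_right l0 (by positivity)
      linarith
    rw [e1]
    linarith
  exact le_of_mul_le_mul_right h2 (mul_pos σ0 ρ0)

end Pool.Agent.BSR
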