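import Pool.Agent.BSR.StB

/-!
# BSR, module `FAR`: two distant points (combinatorial double counting)
-/

set_option autoImplicit false

namespace Pool.Agent.BSR

open Finset MeasureTheory Filter Topology Pool.Agent.BSQ
open scoped BigOperators
open Classical

/-- averaging over pairs -/
theorem far_avg {α : Type} (S : Finset ℕ) (D : Finset α) (r : ℕ → α → Prop)
    [∀ t d, Decidable (r t d)] (K m : ℕ)
    (hS : S.Nonempty) (hm : 0 < m) (hD : D.card ≤ m)
    (hlow : ∀ t ∈ S, m ≤ K * (D.filter (r t)).card) :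
    ∃ d ∈ D, S.card ≤ K * (S.filter (fun t => r t d)).card := by
  by_contra hcon
  push Not at hcon
  have h1 : ∑ t ∈ S, (D.filter (r t)).card = ∑ d ∈ D, (S.filter (fun t => r t d)).card :=
    Finset.sum_card_bipartiteAbove_eq_sum_card_bipartiteBelow r
  have h2 : S.card * m ≤ K * ∑ t ∈ S, (D.filter (r t)).card := by
    rw [Finset.mul_sum, ← smul_eq_mul]
    exact Finset.card_nsmul_le_sum _ _ _ hlow
  rw [h1, Finset.mul_sum] at h2
  rcases D.eq_empty_or_nonempty with hE | hE
  · rw [hE, Finset.sum_empty] at h2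
    have h3 : 0 < S.card * m := Nat.mul_pos (Finset.card_pos.2 hS) hm
    omega
  · have h3 : ∑ d ∈ D, K * (S.filter (fun t => r t d)).card < ∑ _d ∈ D, S.card :=
      Finset.sum_lt_sum_of_nonempty hE hcon
    rw [Finset.sum_const, smul_eq_mul] at h3
    have h4 : D.card * S.card ≤ m * S.card := Nat.mul_le_mul_right _ hD
    have h5 : S.card * m = m * S.card := Nat.mul_comm _ _
    omega

/-- near pairs -/
theorem far_near (Z : Finset ℕ) (k : ℕ) :
    ((Z ×ˢ Z).filter (fun p : ℕ × ℕ => p.1 ≤ p.2 + k ∧ p.2 ≤ p.1 + k)).card ≤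
      Z.card * (2 * k + 1) := by
  rw [Finset.card_filter, Finset.sum_product, ← smul_eq_mul]
  refine Finset.sum_le_card_nsmul _ _ (2 * k + 1) ?_
  intro y _
  rw [← Finset.card_filter]
  refine (Finset.card_le_card (t := Finset.Icc (y - k) (y + k)) ?_).trans ?_
  · intro z hz
    have h := (Finset.mem_filter.1 hz).2
    rw [Finset.mem_Icc]
    have h1 : y ≤ z + k := h.1
    have h2 : z ≤ y + k := h.2
    omega
  · rw [Nat.card_Icc]
    omega

/-- the section of `E` over `t` -/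
theorem far_sec (E : Finset (ℕ × ℕ)) (t : ℕ) : ∃ Z : Finset ℕ,
    Z.card = (E.filter (fun e => e.1 = t)).card ∧ ∀ y, y ∈ Z ↔ (t, y) ∈ E := by
  refine ⟨(E.filter (fun e => e.1 = t)).image Prod.snd, ?_, ?_⟩
  · refine Finset.card_image_of_injOn ?_
    intro a ha b hb hab
    have h1 : a.1 = t := (Finset.mem_filter.1 ha).2
    have h2 : b.1 = t := (Finset.mem_filter.1 hb).2
    exact Prod.ext (h1.trans h2.symm) hab
  · intro y
    rw [Finset.mem_image]
    constructor
    · rintro ⟨⟨a, b⟩, he, rfl⟩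
      have h := Finset.mem_filter.1 he
      have h2 : a = t := h.2
      rw [← h2]
      exact h.1
    · intro h
      exact ⟨(t, y), Finset.mem_filter.2 ⟨h, rfl⟩, rfl⟩

/-- many far pairs in a dense set -/
theorem far_one (R L : ℕ) (Z : Finset ℕ) (hL : 16 ≤ L) (hR : 2 ^ 10 * L ≤ R)
    (hn : R ≤ 8 * L * Z.card) : R ^ 2 ≤ 1024 * L ^ 2 *
      ((Z ×ˢ Z).filter (fun p : ℕ × ℕ => R + 32 * L * p.1 ≤ 32 * L * p.2)).card := by
  set n := Z.card with hnd
  set k := R / (32 * L) with hk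
  set P := (Z ×ˢ Z).filter (fun p : ℕ × ℕ => R + 32 * L * p.1 ≤ 32 * L * p.2) with hP
  set P' := (Z ×ˢ Z).filter (fun p : ℕ × ℕ => R + 32 * L * p.2 ≤ 32 * L * p.1) with hP'
  set A := (Z ×ˢ Z).filter (fun p : ℕ × ℕ => p.1 ≤ p.2 + k ∧ p.2 ≤ p.1 + k) with hA
  have hL0 : 0 < 32 * L := by omega
  have hkR : 32 * L * k ≤ R := Nat.mul_div_le R (32 * L)
  have hRk : R < 32 * L * (k + 1) := Nat.lt_mul_div_succ R hL0
  have hPP : P'.card = P.card := by
    refine Finset.card_bij (fun p _ => (p.2, p.1)) ?_ ?_ ?_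
    · intro p hp
      have h := Finset.mem_filter.1 hp
      have h2 := Finset.mem_product.1 h.1
      exact Finset.mem_filter.2 ⟨Finset.mem_product.2 ⟨h2.2, h2.1⟩, h.2⟩
    · intro a _ b _ hab
      have h := Prod.mk.inj hab
      exact Prod.ext h.2 h.1
    · intro b hb
      have h := Finset.mem_filter.1 hb
      have h2 := Finset.mem_product.1 h.1
      exact ⟨(b.2, b.1), Finset.mem_filter.2 ⟨Finset.mem_product.2 ⟨h2.2, h2.1⟩, h.2⟩, rfl⟩
  have hcov : Z ×ˢ Z ⊆ A ∪ (P ∪ P') := by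
    intro p hp
    rw [Finset.mem_union, Finset.mem_union]
    by_cases h1 : R + 32 * L * p.1 ≤ 32 * L * p.2
    · exact Or.inr (Or.inl (Finset.mem_filter.2 ⟨hp, h1⟩))
    · by_cases h2 : R + 32 * L * p.2 ≤ 32 * L * p.1
      · exact Or.inr (Or.inr (Finset.mem_filter.2 ⟨hp, h2⟩))
      · refine Or.inl (Finset.mem_filter.2 ⟨hp, ?_, ?_⟩)
        · by_contra h3
          have h4 : p.2 + k + 1 ≤ p.1 := by omega
          have h5 : 32 * L * (p.2 + k + 1) ≤ 32 * L * p.1 := Nat.mul_le_mul_left _ h4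
          have h6 : 32 * L * (p.2 + k + 1) = 32 * L * p.2 + 32 * L * (k + 1) := by ring
          omega
        · by_contra h3
          have h4 : p.1 + k + 1 ≤ p.2 := by omega
          have h5 : 32 * L * (p.1 + k + 1) ≤ 32 * L * p.2 := Nat.mul_le_mul_left _ h4
          have h6 : 32 * L * (p.1 + k + 1) = 32 * L * p.1 + 32 * L * (k + 1) := by ring
          omega
  have hcard : n * n ≤ A.card + 2 * P.card := by
    have h1 := Finset.card_le_card hcov
    rw [Finset.card_product, ← hnd] at h1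
    have h2 := Finset.card_union_le A (P ∪ P')
    have h3 := Finset.card_union_le P P'
    omega
  have hAc : A.card ≤ n * (2 * k + 1) := far_near Z k
  have hLpos : 0 < L := by omega
  have hn128 : 128 ≤ n := by
    have h1 : L * 128 ≤ L * n := by nlinarith
    exact Nat.le_of_mul_le_mul_left h1 hLpos
  have hk4 : 4 * k ≤ n := by
    have h1 : L * (4 * k) ≤ L * n := by nlinarith
    exact Nat.le_of_mul_le_mul_left h1 hLpos
  have hA8 : 8 * A.card ≤ 5 * (n * n) := by
    have h1 : 8 * (n * (2 * k + 1)) ≤ 5 * (n * n) := by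
      have h2 : 8 * (2 * k + 1) ≤ 5 * n := by omega
      calc 8 * (n * (2 * k + 1)) = n * (8 * (2 * k + 1)) := by ring
        _ ≤ n * (5 * n) := Nat.mul_le_mul_left _ h2
        _ = 5 * (n * n) := by ring
    omega
  have h16 : 3 * (n * n) ≤ 16 * P.card := by omega
  have hR2 : R ^ 2 ≤ 64 * L ^ 2 * (n * n) := by
    calc R ^ 2 ≤ (8 * L * n) ^ 2 := Nat.pow_le_pow_left hn 2
      _ = 64 * L ^ 2 * (n * n) := by ring
  calc R ^ 2 ≤ 64 * L ^ 2 * (n * n) := hR2
    _ ≤ 64 * L ^ 2 * (16 * P.card) := Nat.mul_le_mul_left _ (by omega)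
    _ = 1024 * L ^ 2 * P.card := by ring

theorem thm_FAR : St_FAR := by
  intro R L S E hL hR hS hE hden
  set D : Finset (ℕ × ℕ) := (range R ×ˢ range R).filter
    (fun p : ℕ × ℕ => R + 32 * L * p.1 ≤ 32 * L * p.2) with hD
  have hRpos : 0 < R := by omega
  have hDc : D.card ≤ R ^ 2 := by
    refine (Finset.card_filter_le _ _).trans ?_
    rw [Finset.card_product, Finset.card_range, pow_two]
  obtain ⟨d, hd, hc⟩ := far_avg S D (fun t p => (t, p.1) ∈ E ∧ (t, p.2) ∈ E) (1024 * L ^ 2)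
    (R ^ 2) hS (pow_pos hRpos 2) hDc (by
      intro t ht
      obtain ⟨Z, hZc, hZ⟩ := far_sec E t
      have h1 := far_one R L Z hL hR (by rw [hZc]; exact hden t ht)
      refine h1.trans (Nat.mul_le_mul_left _ (Finset.card_le_card ?_))
      intro p hp
      have h2 := Finset.mem_filter.1 hp
      have h3 := Finset.mem_product.1 h2.1
      have e1 := (hZ _).1 h3.1
      have e2 := (hZ _).1 h3.2
      refine Finset.mem_filter.2 ⟨Finset.mem_filter.2 ⟨Finset.mem_product.2 ⟨?_, ?_⟩, h2.2⟩,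
        e1, e2⟩
      · exact Finset.mem_range.2 (hE (t, p.1) e1)
      · exact Finset.mem_range.2 (hE (t, p.2) e2))
  exact ⟨d.1, d.2, (Finset.mem_filter.1 hd).2, hc⟩

end Pool.Agent.BSR
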