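import Pool.Agent.BSR.StA
import Pool.Agent.BSQ.FB

/-!
# BSR (MP_70d78b_an): the minor frequencies of a box

Proof of `St_FBM` (docstring of `Pool/Agent/BSR/StA.lean`).
-/

set_option autoImplicit false

namespace Pool.Agent.BSR

open Finset MeasureTheory Filter Topology Pool.Agent.BSQ
open scoped BigOperators
open Classical

private theorem fbm_FlG {P : ℕ} (g : ZMod P → ℂ) (hg : ∀ u, ‖g u‖ ≤ 1) (l : ℤ) (u : ZMod P) :
    ‖Fl g l u‖ ≤ 1 := by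
  unfold Fl
  rw [norm_mul, RCLike.norm_conj]
  calc ‖g u‖ * ‖g (u + (l : ZMod P))‖ ≤ 1 * 1 :=
        mul_le_mul (hg _) (hg _) (norm_nonneg _) zero_le_one
    _ = 1 := one_mul 1

private theorem fbm_par {P : ℕ} [NeZero P] (F : ZMod P → ℂ) :
    1 / (P : ℝ) * ∑ b : ZMod P, ‖ft F b‖ ^ 2 = ∑ u : ZMod P, ‖F u‖ ^ 2 := by
  have hP : (P : ℝ) ≠ 0 := by exact_mod_cast NeZero.ne P
  rw [fb_pars, ← mul_assoc, one_div_mul_cancel hP, one_mul]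

private theorem fbm_parneg {P : ℕ} [NeZero P] (F : ZMod P → ℂ) :
    1 / (P : ℝ) * ∑ b : ZMod P, ‖ft F (-b)‖ ^ 2 = ∑ u : ZMod P, ‖F u‖ ^ 2 := by
  rw [← fbm_par F]
  congr 1
  exact Fintype.sum_equiv (Equiv.neg (ZMod P)) _ _ fun b => rfl

/-- one difference `l` -/
private theorem fbm_l {P : ℕ} [NeZero P] (f g : ZMod P → ℂ) (hg : ∀ u, ‖g u‖ ≤ 1) (l : ℤ)
    (B : Finset (ZMod P)) (s : ZMod P → ℝ) (S : ℝ) (hS : 0 ≤ S) (hs : ∀ b ∈ B, s b ≤ S) :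
    1 / (P : ℝ) * ∑ b ∈ B, ‖ft (Fl f l) b‖ * ‖ft (Fl g (-l)) (-b)‖ * s b ≤
      S * (1 / 2 * (∑ u : ZMod P, ‖Fl f l u‖ ^ 2 + P)) := by
  have hP : (0 : ℝ) < P := by exact_mod_cast Nat.pos_of_ne_zero (NeZero.ne P)
  have h1 : ∑ b ∈ B, ‖ft (Fl f l) b‖ * ‖ft (Fl g (-l)) (-b)‖ * s b ≤
      ∑ b : ZMod P, S * (1 / 2 * (‖ft (Fl f l) b‖ ^ 2 + ‖ft (Fl g (-l)) (-b)‖ ^ 2)) := by
    calc ∑ b ∈ B, ‖ft (Fl f l) b‖ * ‖ft (Fl g (-l)) (-b)‖ * s b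
        ≤ ∑ b ∈ B, S * (1 / 2 * (‖ft (Fl f l) b‖ ^ 2 + ‖ft (Fl g (-l)) (-b)‖ ^ 2)) := by
          refine Finset.sum_le_sum fun b hb => ?_
          have a1 := two_mul_le_add_sq ‖ft (Fl f l) b‖ ‖ft (Fl g (-l)) (-b)‖
          calc ‖ft (Fl f l) b‖ * ‖ft (Fl g (-l)) (-b)‖ * s b
              ≤ ‖ft (Fl f l) b‖ * ‖ft (Fl g (-l)) (-b)‖ * S :=
                mul_le_mul_of_nonneg_left (hs b hb) (by positivity)
            _ = S * (‖ft (Fl f l) b‖ * ‖ft (Fl g (-l)) (-b)‖) := by ring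
            _ ≤ _ := mul_le_mul_of_nonneg_left (by linarith) hS
      _ ≤ _ := Finset.sum_le_sum_of_subset_of_nonneg (Finset.subset_univ _)
          fun b _ _ => by positivity
  have h2 : ∑ u : ZMod P, ‖Fl g (-l) u‖ ^ 2 ≤ P := by
    calc ∑ u : ZMod P, ‖Fl g (-l) u‖ ^ 2 ≤ ∑ _u : ZMod P, (1 : ℝ) := by
          refine Finset.sum_le_sum fun u _ => ?_
          exact pow_le_one₀ (norm_nonneg _) (fbm_FlG g hg (-l) u)
      _ = P := by simp [ZMod.card]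
  calc 1 / (P : ℝ) * ∑ b ∈ B, ‖ft (Fl f l) b‖ * ‖ft (Fl g (-l)) (-b)‖ * s b
      ≤ 1 / (P : ℝ) * ∑ b : ZMod P,
          S * (1 / 2 * (‖ft (Fl f l) b‖ ^ 2 + ‖ft (Fl g (-l)) (-b)‖ ^ 2)) :=
        mul_le_mul_of_nonneg_left h1 (by positivity)
    _ = S * (1 / 2 * (1 / (P : ℝ) * ∑ b : ZMod P, ‖ft (Fl f l) b‖ ^ 2 +
          1 / (P : ℝ) * ∑ b : ZMod P, ‖ft (Fl g (-l)) (-b)‖ ^ 2)) := by
        rw [← Finset.mul_sum, ← Finset.mul_sum, Finset.sum_add_distrib]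
        ring
    _ = S * (1 / 2 * (∑ u : ZMod P, ‖Fl f l u‖ ^ 2 + ∑ u : ZMod P, ‖Fl g (-l) u‖ ^ 2)) := by
        rw [fbm_par, fbm_parneg]
    _ ≤ _ := mul_le_mul_of_nonneg_left (by linarith) hS

/-- the size inequalities -/
private theorem fbm_size (L H N M A : ℕ) (hL : 2 ≤ L) (hA : 1 ≤ A) (h1 : L ^ 300 * A ≤ M)
    (h2 : M ≤ 2 * L ^ 300 * A) (h3 : L ^ 10 * M ≤ N) (hH : 1 ≤ H)
    (h4 : H * L ^ 480 ≤ N * M) :
    M * L ^ 4 ≤ N ∧ 1 ≤ N ∧ 2 * (4 * A * N) + 1 ≤ 5 * N ^ 2 ∧ 3 * H + 1 ≤ 2 * (A * N) := by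
  have hL1 : 1 ≤ L := by omega
  have e300 : 0 < L ^ 300 := pow_pos (by omega) 300
  have hAM : A ≤ M := by
    calc A = 1 * A := (one_mul A).symm
      _ ≤ L ^ 300 * A := Nat.mul_le_mul_right _ e300
      _ ≤ M := h1
  have hM1 : 1 ≤ M := hA.trans hAM
  have e10 : 16 ≤ L ^ 10 := by
    calc 16 = 2 ^ 4 := by norm_num
      _ ≤ L ^ 4 := Nat.pow_le_pow_left hL 4
      _ ≤ L ^ 10 := Nat.pow_le_pow_right hL1 (by norm_num)
  have hMN : 16 * M ≤ N := (Nat.mul_le_mul_right _ e10).trans h3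
  have hN1 : 1 ≤ N := by omega
  refine ⟨?_, hN1, ?_, ?_⟩
  · calc M * L ^ 4 ≤ M * L ^ 10 := Nat.mul_le_mul_left _ (Nat.pow_le_pow_right hL1 (by norm_num))
      _ = L ^ 10 * M := mul_comm _ _
      _ ≤ N := h3
  · have a1 : 16 * A ≤ N := (Nat.mul_le_mul_left 16 hAM).trans hMN
    have a2 : 16 * A * N ≤ N * N := Nat.mul_le_mul_right _ a1
    have a3 : 1 ≤ N * N := Nat.one_le_iff_ne_zero.2 (Nat.mul_ne_zero (by omega) (by omega))
    nlinarith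
  · have e : L ^ 480 = L ^ 180 * L ^ 300 := by rw [← pow_add]
    have a1 : H * L ^ 180 * L ^ 300 ≤ 2 * (A * N) * L ^ 300 := by
      calc H * L ^ 180 * L ^ 300 = H * L ^ 480 := by rw [e, mul_assoc]
        _ ≤ N * M := h4
        _ ≤ N * (2 * L ^ 300 * A) := Nat.mul_le_mul_left _ h2
        _ = 2 * (A * N) * L ^ 300 := by ring
    have a2 : H * L ^ 180 ≤ 2 * (A * N) := Nat.le_of_mul_le_mul_right a1 (by omega)
    have a3 : 4 ≤ L ^ 180 := by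
      calc 4 = 2 ^ 2 := by norm_num
        _ ≤ L ^ 2 := Nat.pow_le_pow_left hL 2
        _ ≤ L ^ 180 := Nat.pow_le_pow_right hL1 (by norm_num)
    have a4 : H * 4 ≤ H * L ^ 180 := Nat.mul_le_mul_left _ a3
    omega

/-- `FBM`: the minor frequencies. -/
theorem thm_FBM (hMIN : St_MIN) (hENB : St_ENB) : St_FBM := by
  intro k0
  obtain ⟨c, hc⟩ := hMIN k0
  refine ⟨c + 2, ?_⟩
  intro L hL P H T N M n0 N1 A l0 _ f g hPH hP5 hP16 hLA hAM hMA hMN hNA hH1 hHL hn0 hl0 hdiv hf hg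
  have hL2 : 2 ≤ L := by omega
  have hL1 : 1 ≤ L := by omega
  have hA1 : 1 ≤ A := (Nat.one_le_pow _ _ hL1).trans hLA
  obtain ⟨s1, s2, s3, s4⟩ := fbm_size L H N M A hL2 hA1 hAM hMA hMN hH1 hHL
  have hcA : L ^ c ≤ A := (Nat.pow_le_pow_right hL1 (by omega)).trans hLA
  have hLr : (0 : ℝ) < L := by exact_mod_cast hL1
  have hAr : (0 : ℝ) < A := by exact_mod_cast hA1
  have hPr : (0 : ℝ) < P := by exact_mod_cast Nat.pos_of_ne_zero (NeZero.ne P)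
  set S : ℝ := (M : ℝ) / (A * (L : ℝ) ^ 4) with hS
  have hS0 : 0 ≤ S := by rw [hS]; positivity
  -- the bound for `Sl`
  have hSl : ∀ l ∈ (Icc (-(4 * A * N : ℤ)) (4 * A * N : ℤ)).filter (fun l : ℤ => (l0 : ℤ) < |l|),
      ∀ b ∈ univ.filter (fun b : ZMod P => b ∉ MajL P N M L),
        Sl n0 N1 M A l ((b.val : ℝ) / P) ≤ S := by
    intro l hl b hb
    rw [Finset.mem_filter, Finset.mem_Icc] at hl
    by_contra hcon
    push Not at hcon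
    have h5 : 4 * (A : ℤ) * N < (L : ℤ) ^ 4 * |l| := by
      have b1 : (4 * A * N : ℤ) < (L : ℤ) ^ 4 * (l0 + 1) := by exact_mod_cast hl0
      have b2 : (l0 : ℤ) + 1 ≤ |l| := hl.2
      have b3 : (L : ℤ) ^ 4 * (l0 + 1) ≤ (L : ℤ) ^ 4 * |l| :=
        mul_le_mul_of_nonneg_left b2 (by positivity)
      linarith
    have h6 : |l| ≤ 4 * A * N := abs_le.2 ⟨hl.1.1, hl.1.2⟩
    obtain ⟨Q, q1, q2, q3⟩ := hc L (by omega) n0 N1 M A N l ((b.val : ℝ) / P) hcA hAM hMA s1 hNA hn0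
      h5 h6 hdiv hcon
    apply (Finset.mem_filter.1 hb).2
    unfold MajL
    rw [Finset.mem_filter]
    exact ⟨Finset.mem_univ _, Q, q1, q2, q3⟩
  have hcard : ((Icc (-(4 * A * N : ℤ)) (4 * A * N : ℤ)).card : ℝ) = 2 * (4 * A * N) + 1 := by
    rw [Int.card_Icc]
    have : ((4 * A * N : ℤ) + 1 - -(4 * A * N : ℤ)).toNat = 2 * (4 * A * N) + 1 := by
      have e : ((4 * A * N : ℤ) + 1 - -(4 * A * N : ℤ)) = ((2 * (4 * A * N) + 1 : ℕ) : ℤ) := by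
        push_cast
        ring
      rw [e, Int.toNat_natCast]
    rw [this]
    push_cast
    ring
  have hE := (hENB P H T (4 * A * N) f hPH hH1 (s3.trans hP5) hf).2
  have hE' : ∑ l ∈ Icc (-(4 * A * N : ℤ)) (4 * A * N : ℤ), ∑ u : ZMod P, ‖Fl f l u‖ ^ 2 ≤
      (2 * (4 * A * N) + 3 * H) * P := by
    have e : Icc (-((4 * A * N : ℕ) : ℤ)) ((4 * A * N : ℕ) : ℤ) =
        Icc (-(4 * A * N : ℤ)) (4 * A * N : ℤ) := by
      push_cast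
      rfl
    rw [e] at hE
    calc _ ≤ _ := hE
      _ = _ := by push_cast; ring
  have s4r : 3 * (H : ℝ) + 1 ≤ 2 * (A * N) := by exact_mod_cast s4
  calc ∑ l ∈ (Icc (-(4 * A * N : ℤ)) (4 * A * N : ℤ)).filter (fun l : ℤ => (l0 : ℤ) < |l|),
      1 / (P : ℝ) * ∑ b ∈ univ.filter (fun b : ZMod P => b ∉ MajL P N M L),
        ‖ft (Fl f l) b‖ * ‖ft (Fl g (-l)) (-b)‖ * Sl n0 N1 M A l ((b.val : ℝ) / P)
      ≤ ∑ l ∈ (Icc (-(4 * A * N : ℤ)) (4 * A * N : ℤ)).filter (fun l : ℤ => (l0 : ℤ) < |l|),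
        S * (1 / 2 * (∑ u : ZMod P, ‖Fl f l u‖ ^ 2 + P)) := by
        refine Finset.sum_le_sum fun l hl => ?_
        exact fbm_l f g hg l _ (fun b => Sl n0 N1 M A l ((b.val : ℝ) / P)) S hS0 (hSl l hl)
    _ ≤ ∑ l ∈ Icc (-(4 * A * N : ℤ)) (4 * A * N : ℤ),
        S * (1 / 2 * (∑ u : ZMod P, ‖Fl f l u‖ ^ 2 + P)) :=
        Finset.sum_le_sum_of_subset_of_nonneg (Finset.filter_subset _ _)
          fun l _ _ => by positivity
    _ = S * (1 / 2 * (∑ l ∈ Icc (-(4 * A * N : ℤ)) (4 * A * N : ℤ),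
          ∑ u : ZMod P, ‖Fl f l u‖ ^ 2 + (2 * (4 * A * N) + 1) * P)) := by
        rw [← Finset.mul_sum, ← Finset.mul_sum, Finset.sum_add_distrib, Finset.sum_const,
          nsmul_eq_mul, hcard]
    _ ≤ S * (1 / 2 * ((2 * (4 * A * N) + 3 * H) * P + (2 * (4 * A * N) + 1) * P)) := by
        refine mul_le_mul_of_nonneg_left ?_ hS0
        linarith
    _ ≤ S * (9 * (A * N) * P) := by
        refine mul_le_mul_of_nonneg_left ?_ hS0
        have : (2 * (4 * (A : ℝ) * N) + 3 * H) * P + (2 * (4 * A * N) + 1) * P =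
            (16 * (A * N) + (3 * H + 1)) * P := by ring
        rw [this]
        have h7 : (16 * ((A : ℝ) * N) + (3 * H + 1)) * P ≤ (18 * (A * N)) * P :=
          mul_le_mul_of_nonneg_right (by linarith) hPr.le
        linarith
    _ = 9 * M * N * P / (L : ℝ) ^ 4 := by
        rw [hS]
        field_simp

end Pool.Agent.BSR
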