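import Pool.Agent.BSR.StA

/-!
# BSR, module FBOX: flat functions against a box (helper25)
-/

set_option autoImplicit false

namespace Pool.Agent.BSR

open Finset MeasureTheory Filter Topology Pool.Agent.BSQ
open scoped BigOperators
open Classical

private theorem fbox_small (L N X A n0 l0 : ℝ) (hL : 10 ≤ L) (hX : 0 ≤ X) (hn0 : 0 < n0)
    (hl0 : l0 * L ^ 4 ≤ 4 * A * N) (hA : 8 * L ^ 3 ≤ A) (h1 : N ≤ 2 * L * n0) :
    1 / A ^ 2 * ((l0 / n0 + 1) * (2 * A) * X) ≤ 17 / L ^ 3 * X := by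
  have hL0 : 0 < L := by linarith
  have hL3 : 0 < L ^ 3 := by positivity
  have hA0 : 0 < A := by linarith
  have h2 : l0 / n0 ≤ 8 * A / L ^ 3 := by
    rw [div_le_div_iff₀ hn0 hL3]
    have h3 : L * (l0 * L ^ 3) ≤ L * (8 * A * n0) := by
      calc L * (l0 * L ^ 3) = l0 * L ^ 4 := by ring
        _ ≤ 4 * A * N := hl0
        _ ≤ 4 * A * (2 * L * n0) := mul_le_mul_of_nonneg_left h1 (by positivity)
        _ = L * (8 * A * n0) := by ring
    exact le_of_mul_le_mul_left h3 hL0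
  have h4 : 1 / A ^ 2 * ((l0 / n0 + 1) * (2 * A) * X) = (l0 / n0 + 1) * (2 / A) * X := by
    field_simp
  rw [h4]
  refine mul_le_mul_of_nonneg_right ?_ hX
  calc (l0 / n0 + 1) * (2 / A) ≤ (8 * A / L ^ 3 + 1) * (2 / A) :=
        mul_le_mul_of_nonneg_right (by linarith) (by positivity)
    _ = 16 / L ^ 3 + 2 / A := by
        field_simp
        ring
    _ ≤ 16 / L ^ 3 + 1 / L ^ 3 := by
        have h5 : 2 / A ≤ 1 / L ^ 3 := by
          rw [div_le_div_iff₀ hA0 hL3]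
          linarith
        linarith
    _ = 17 / L ^ 3 := by ring

private theorem fbox_arith (L N N1 M A n0 l0 P : ℝ) (hL : 10 ≤ L) (hN1 : 0 ≤ N1) (hM : 0 ≤ M)
    (hP : 0 ≤ P) (hn0 : 0 < n0) (hl0 : l0 * L ^ 4 ≤ 4 * A * N) (hA : 8 * L ^ 3 ≤ A)
    (h1 : N ≤ 2 * L * n0) (h2 : N ≤ 2 * L * N1) :
    4 * N1 * M * (P * (1 / A ^ 2 * ((l0 / n0 + 1) * (2 * A) * (N1 * M))) +
      (9 * M * N * P / L ^ 4 + 1080 * M * N * P / L ^ 8)) ≤ 200 / L ^ 3 * P * (N1 * M) ^ 2 := by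
  have hL0 : 0 < L := by linarith
  have hL3 : 0 < L ^ 3 := by positivity
  have hX : 0 ≤ N1 * M := mul_nonneg hN1 hM
  have h3 := fbox_small L N (N1 * M) A n0 l0 hL hX hn0 hl0 hA h1
  have hMN : M * N ≤ 2 * L * (N1 * M) := by
    calc M * N ≤ M * (2 * L * N1) := mul_le_mul_of_nonneg_left h2 hM
      _ = 2 * L * (N1 * M) := by ring
  have h4 : 9 * M * N * P / L ^ 4 ≤ 18 / L ^ 3 * P * (N1 * M) := by
    calc 9 * M * N * P / L ^ 4 = 9 * P / L ^ 4 * (M * N) := by ring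
      _ ≤ 9 * P / L ^ 4 * (2 * L * (N1 * M)) :=
        mul_le_mul_of_nonneg_left hMN (by positivity)
      _ = 18 / L ^ 3 * P * (N1 * M) := by
        field_simp
        ring
  have h5 : 1080 * M * N * P / L ^ 8 ≤ 1 / L ^ 3 * P * (N1 * M) := by
    have h6 : 2160 / L ^ 7 ≤ 1 / L ^ 3 := by
      rw [div_le_div_iff₀ (by positivity) hL3]
      have h7 : (10 : ℝ) ^ 4 ≤ L ^ 4 := pow_le_pow_left₀ (by norm_num) hL 4
      calc 2160 * L ^ 3 ≤ L ^ 4 * L ^ 3 :=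
            mul_le_mul_of_nonneg_right (by linarith) hL3.le
        _ = 1 * L ^ 7 := by ring
    calc 1080 * M * N * P / L ^ 8 = 1080 * P / L ^ 8 * (M * N) := by ring
      _ ≤ 1080 * P / L ^ 8 * (2 * L * (N1 * M)) :=
        mul_le_mul_of_nonneg_left hMN (by positivity)
      _ = 2160 / L ^ 7 * (P * (N1 * M)) := by
        field_simp
        ring
      _ ≤ 1 / L ^ 3 * (P * (N1 * M)) := mul_le_mul_of_nonneg_right h6 (by positivity)
      _ = 1 / L ^ 3 * P * (N1 * M) := by ring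
  have h8 := mul_le_mul_of_nonneg_left h3 hP
  calc 4 * N1 * M * (P * (1 / A ^ 2 * ((l0 / n0 + 1) * (2 * A) * (N1 * M))) +
      (9 * M * N * P / L ^ 4 + 1080 * M * N * P / L ^ 8))
      ≤ 4 * N1 * M * (P * (17 / L ^ 3 * (N1 * M)) +
        (18 / L ^ 3 * P * (N1 * M) + 1 / L ^ 3 * P * (N1 * M))) :=
        mul_le_mul_of_nonneg_left (by linarith) (by positivity)
    _ = 144 / L ^ 3 * (P * (N1 * M) ^ 2) := by ring
    _ ≤ 200 / L ^ 3 * (P * (N1 * M) ^ 2) := by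
        refine mul_le_mul_of_nonneg_right ?_ (by positivity)
        exact div_le_div_of_nonneg_right (by norm_num) hL3.le
    _ = 200 / L ^ 3 * P * (N1 * M) ^ 2 := by ring

/-- the parameters -/
private theorem fbox_par (c k0 C L N M N1 : ℕ) (hL : 10 ≤ L) (hC : c + 700 ≤ C)
    (hM : L ^ C ≤ M) (hMN : L ^ 10 * M ≤ N) (hN : N ≤ M ^ k0) (hN1 : N ≤ 2 * L * N1) :
    ∃ A : ℕ, 1 ≤ A ∧ L ^ c ≤ A ∧ L ^ 300 * A ≤ M ∧ M ≤ 2 * L ^ 300 * A ∧ L ^ 301 ≤ M ∧
      N ≤ A ^ (2 * k0) ∧ M ≤ N ∧ 1 ≤ N ∧ (N1 + A) * (M + A) ≤ 4 * N1 * M ∧ 8 * L ^ 3 ≤ A := by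
  have hL1 : 1 ≤ L := by omega
  have hLp : 0 < L := by omega
  have hD : 0 < L ^ 300 := Nat.pow_pos hLp
  have hM1 : L ^ (c + 700) ≤ M := (Nat.pow_le_pow_right hLp hC).trans hM
  set A : ℕ := M / L ^ 300 with hA
  have hA1 : L ^ (c + 400) ≤ A := by
    rw [hA, Nat.le_div_iff_mul_le hD, ← pow_add]
    exact hM1
  have hA400 : L ^ 400 ≤ A := (Nat.pow_le_pow_right hLp (by omega)).trans hA1
  have hAc : L ^ c ≤ A := (Nat.pow_le_pow_right hLp (by omega)).trans hA1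
  have hApos : 1 ≤ A := (Nat.one_le_pow _ _ hLp).trans hAc
  have h1 : L ^ 300 * A ≤ M := Nat.mul_div_le M (L ^ 300)
  have h2 : M ≤ 2 * L ^ 300 * A := by
    have e1 : L ^ 300 * A + M % L ^ 300 = M := Nat.div_add_mod M (L ^ 300)
    have e2 : M % L ^ 300 < L ^ 300 := Nat.mod_lt _ hD
    have e3 : L ^ 300 ≤ L ^ 300 * A := Nat.le_mul_of_pos_right _ hApos
    have e4 : 2 * L ^ 300 * A = L ^ 300 * A + L ^ 300 * A := by
      rw [mul_assoc, two_mul]
    rw [e4]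
    exact e1.symm.le.trans (Nat.add_le_add_left (e2.le.trans e3) _)
  have h3 : 2 * L ^ 300 ≤ A := by
    have e1 : 2 * L ^ 300 ≤ L * L ^ 300 := Nat.mul_le_mul_right _ (by omega)
    have e2 : L * L ^ 300 = L ^ 301 := (pow_succ' L 300).symm
    have e3 : L ^ 301 ≤ L ^ 400 := Nat.pow_le_pow_right hLp (by omega)
    rw [e2] at e1
    exact e1.trans (e3.trans hA400)
  have h4 : L ^ 301 ≤ M := by
    refine le_trans ?_ hM1
    exact Nat.pow_le_pow_right hLp (by omega)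
  have h5 : M ≤ A ^ 2 := by
    rw [pow_two]
    exact h2.trans (Nat.mul_le_mul_right _ h3)
  have h6 : N ≤ A ^ (2 * k0) := by
    rw [pow_mul]
    exact hN.trans (Nat.pow_le_pow_left h5 k0)
  have h7 : M ≤ N := (Nat.le_mul_of_pos_left _ (Nat.pow_pos hLp)).trans hMN
  have hM0 : 1 ≤ M := (Nat.one_le_pow _ _ hLp).trans hM1
  have h8 : A ≤ M := (Nat.le_mul_of_pos_left _ hD).trans h1
  have h9 : A ≤ N1 := by
    have e1 : 2 * L ≤ L ^ 10 := by
      have e2 : L ^ 2 ≤ L ^ 10 := Nat.pow_le_pow_right hLp (by omega)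
      have e3 : 2 * L ≤ L ^ 2 := by
        rw [pow_two]
        exact Nat.mul_le_mul_right _ (by omega)
      exact e3.trans e2
    have e4 : 2 * L * A ≤ 2 * L * N1 := by
      calc 2 * L * A ≤ L ^ 10 * A := Nat.mul_le_mul_right _ e1
        _ ≤ L ^ 10 * M := Nat.mul_le_mul_left _ h8
        _ ≤ N := hMN
        _ ≤ 2 * L * N1 := hN1
    exact Nat.le_of_mul_le_mul_left e4 (by omega)
  refine ⟨A, hApos, hAc, h1, h2, h4, h6, h7, hM0.trans h7, ?_, ?_⟩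
  · calc (N1 + A) * (M + A) ≤ (N1 + N1) * (M + M) :=
          Nat.mul_le_mul (Nat.add_le_add_left h9 _) (Nat.add_le_add_left h8 _)
      _ = 4 * N1 * M := by ring
  · have e1 : 8 * L ^ 3 ≤ L * L ^ 3 := Nat.mul_le_mul_right _ (by omega)
    have e2 : L * L ^ 3 = L ^ 4 := (pow_succ' L 3).symm
    have e3 : L ^ 4 ≤ L ^ 400 := Nat.pow_le_pow_right hLp (by omega)
    rw [e2] at e1
    exact e1.trans (e3.trans hA400)

theorem thm_FBOX (hBOX : St_BOX) (hSML : St_SML) (hFBM : St_FBM) (hFBJ : St_FBJ)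
    (hENB : St_ENB) : St_FBOX := by
  intro k0
  obtain ⟨c, hc⟩ := hFBM (2 * k0)
  obtain ⟨c', hc'⟩ := hFBJ
  refine ⟨c + c' + 710, ?_⟩
  intro L hL P H T N M n0 N1 _ η f g hP hP5 hP16 hLM hMN hNM hH hHL hη hη1 hdiv hf hg hn0 hN1 hnN
  have hL10 : 10 ≤ L := by omega
  obtain ⟨A, hA1, hAc, hA2, hA3, hM301, hNA, hMN', hN1', hbox, hA8⟩ :=
    fbox_par c k0 (c + c' + 710) L N M N1 hL10 (by omega) hLM hMN hNM hN1
  have hLp : 0 < L := by omega
  have hn0' : 1 ≤ n0 := by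
    rcases Nat.eq_zero_or_pos n0 with h | h
    · rw [h, mul_zero] at hn0
      omega
    · exact h
  set l0 : ℕ := 4 * A * N / L ^ 4 with hl0
  have hl1 : 4 * A * N < L ^ 4 * (l0 + 1) := Nat.lt_mul_div_succ _ (Nat.pow_pos hLp)
  have hl2 : l0 * L ^ 4 ≤ 4 * A * N := Nat.div_mul_le_self _ _
  have hPpos : 1 ≤ P := Nat.one_le_iff_ne_zero.2 (NeZero.ne P)
  have hE := (hENB P H T 0 f hP hH (by omega) hf.1).1
  have h1 := hBOX P n0 N1 M A N l0 f g hA1 hnN hMN' hbox hE hg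
  have h2 := hSML n0 N1 M A l0 hn0' hA1
  have h3 := hc L (by omega) P H T N M n0 N1 A l0 f g hP hP5 hP16 hAc hA2 hA3 hMN hNA hH hHL hnN
    hl1 hdiv hf.1 hg
  have h4 := hc' L (by omega) P H T N M n0 N1 A l0 η f g hP hP5 hP16 hA1 hA2 hA3 hM301 hMN hH hHL
    hnN hl1 hη hη1 hdiv hf hg
  -- splitting of the frequencies
  have h5 : ∑ l ∈ (Icc (-(4 * A * N : ℤ)) (4 * A * N : ℤ)).filter (fun l : ℤ => (l0 : ℤ) < |l|),
      1 / (P : ℝ) * ∑ b : ZMod P, ‖ft (Fl f l) b‖ * ‖ft (Fl g (-l)) (-b)‖ *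
        Sl n0 N1 M A l ((b.val : ℝ) / P) ≤
      9 * M * N * P / (L : ℝ) ^ 4 + 1080 * M * N * P / (L : ℝ) ^ 8 := by
    refine le_trans (le_of_eq ?_) (add_le_add h3 h4)
    rw [← Finset.sum_add_distrib]
    refine Finset.sum_congr rfl fun l _ => ?_
    rw [← mul_add]
    congr 1
    rw [add_comm, ← Finset.sum_filter_add_sum_filter_not univ (fun b => b ∈ MajL P N M L)]
    congr 1
    refine Finset.sum_congr ?_ fun _ _ => rfl
    ext b
    rw [Finset.mem_filter]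
    exact ⟨fun h => h.2, fun h => ⟨Finset.mem_univ _, h⟩⟩
  have hN1r : (0 : ℝ) ≤ N1 := Nat.cast_nonneg _
  have hMr : (0 : ℝ) ≤ M := Nat.cast_nonneg _
  have hPr : (0 : ℝ) ≤ P := Nat.cast_nonneg _
  refine h1.trans ?_
  have h6 := fbox_arith L N N1 M A n0 l0 P (by exact_mod_cast hL10) hN1r hMr hPr
    (by exact_mod_cast hn0') (by exact_mod_cast hl2) (by exact_mod_cast hA8)
    (by exact_mod_cast hn0) (by exact_mod_cast hN1)
  refine le_trans ?_ h6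
  refine mul_le_mul_of_nonneg_left (add_le_add ?_ h5) (by positivity)
  refine mul_le_mul_of_nonneg_left ?_ hPr
  exact mul_le_mul_of_nonneg_left h2 (by positivity)

end Pool.Agent.BSR
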