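import Pool.Agent.BSR.StA
import Pool.Agent.BSR.StB
import Pool.Agent.BSQ.MSS

/-!
# BSR, FS0: finitary comparison of two strips, full range (helper44)
-/

set_option autoImplicit false

namespace Pool.Agent.BSR

open Finset MeasureTheory Filter Topology Pool.Agent.BSQ
open scoped BigOperators
open Classical

/-- the numerical conclusion. -/
private theorem fs0_num (x p q r : ℝ) (hx : 100 ≤ x) (hp : 1 ≤ p) (hq : 1 ≤ q) (hr : r = p * q * x ^ 2) :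
    2 * (8 / x) + 1 / (1 / p) * (2 * (8 / (p * x ^ 2)) + 1 / (1 / q) * (2 * (1 / r ^ 2) +
      2 * (1 / r))) ≤ 64 / x := by
  have hx0 : 0 < x := by linarith
  have hp0 : 0 < p := by linarith
  have hq0 : 0 < q := by linarith
  have hr0 : 0 < r := by rw [hr]; positivity
  have hr1 : 1 ≤ r := by
    rw [hr]
    have h1 : 1 ≤ p * q := by nlinarith
    have h2 : (1 : ℝ) ≤ x ^ 2 := by nlinarith
    nlinarith
  have h1 : 1 / r ^ 2 ≤ 1 / r := by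
    rw [div_le_div_iff₀ (by positivity) hr0]
    nlinarith
  have h2 : 1 / (1 / p) = p := by field_simp
  have h3 : 1 / (1 / q) = q := by field_simp
  rw [h2, h3]
  have h4 : p * (2 * (8 / (p * x ^ 2))) = 16 / x ^ 2 := by
    field_simp
    norm_num
  have h5 : p * (q * (4 * (1 / r))) = 4 / x ^ 2 := by
    rw [hr]
    field_simp
  have h6 : p * (2 * (8 / (p * x ^ 2)) + q * (2 * (1 / r ^ 2) + 2 * (1 / r))) ≤
      p * (2 * (8 / (p * x ^ 2))) + p * (q * (4 * (1 / r))) := by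
    have h7 : q * (2 * (1 / r ^ 2) + 2 * (1 / r)) ≤ q * (4 * (1 / r)) :=
      mul_le_mul_of_nonneg_left (by linarith) hq0.le
    nlinarith
  rw [h4, h5] at h6
  have h8 : 16 / x ^ 2 ≤ 16 / x := by
    rw [div_le_div_iff₀ (by positivity) hx0]
    nlinarith
  have h9 : 4 / x ^ 2 ≤ 4 / x := by
    rw [div_le_div_iff₀ (by positivity) hx0]
    nlinarith
  have h10 : 64 / x = 16 / x + 16 / x + 4 / x + 28 / x := by ring
  have h11 : 0 ≤ 28 / x := by positivity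
  rw [h10]
  have h12 : 2 * (8 / x) = 16 / x := by ring
  linarith

/-- the choice of `H` and `T`. -/
private theorem fs0_H (L N M1 E : ℕ) (hL : 1 ≤ L) (hN : 1 ≤ N) (hM : M1 ≤ N) (h1 : L ^ E ≤ M1) :
    ∃ H T : ℕ, 1 ≤ H ∧ H * L ^ E ≤ N * M1 ∧ N * M1 ≤ 2 * H * L ^ E ∧ 5 * N ^ 2 ≤ H * T ∧
      H * T ≤ 16 * N ^ 2 := by
  have hE : 0 < L ^ E := Nat.pow_pos hL
  have hle : L ^ E ≤ N * M1 := h1.trans (Nat.le_mul_of_pos_left _ hN)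
  have hH : 1 ≤ N * M1 / L ^ E := (Nat.one_le_div_iff hE).2 hle
  refine ⟨N * M1 / L ^ E, 5 * N ^ 2 / (N * M1 / L ^ E) + 1, hH, Nat.div_mul_le_self _ _, ?_, ?_, ?_⟩
  · have h3 : N * M1 < L ^ E * (N * M1 / L ^ E + 1) := Nat.lt_mul_div_succ _ hE
    have h4 : L ^ E ≤ L ^ E * (N * M1 / L ^ E) := Nat.le_mul_of_pos_right _ hH
    have h5 : L ^ E * (N * M1 / L ^ E + 1) = L ^ E * (N * M1 / L ^ E) + L ^ E := by ring
    have h6 : 2 * (N * M1 / L ^ E) * L ^ E = 2 * (L ^ E * (N * M1 / L ^ E)) := by ring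
    omega
  · exact (Nat.lt_mul_div_succ _ hH).le
  · have h3 : (N * M1 / L ^ E) * (5 * N ^ 2 / (N * M1 / L ^ E)) ≤ 5 * N ^ 2 := Nat.mul_div_le _ _
    have h4 : N * M1 / L ^ E ≤ N ^ 2 := by
      refine (Nat.div_le_self _ _).trans ?_
      rw [sq]
      exact Nat.mul_le_mul_left _ hM
    have h5 : (N * M1 / L ^ E) * (5 * N ^ 2 / (N * M1 / L ^ E) + 1) =
      (N * M1 / L ^ E) * (5 * N ^ 2 / (N * M1 / L ^ E)) + N * M1 / L ^ E := by ring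
    omega

/-- powers. -/
private theorem fs0_pow (L C a : ℕ) (hL : 1 ≤ L) (h : a ≤ C) (M : ℕ) (hM : L ^ C ≤ M) : L ^ a ≤ M :=
  (Nat.pow_le_pow_right hL h).trans hM

private theorem fs0_flat (k0 CU CG : ℕ)
    (hU : ∀ L : ℕ, CU ≤ L → ∀ (P H T N M : ℕ) [NeZero P] (η : ℝ) (f g : ZMod P → ℂ),
      P = H * T → 5 * N ^ 2 ≤ P → P ≤ 16 * N ^ 2 → L ^ CU ≤ M → L ^ 10 * M ≤ N → N ≤ M ^ k0 → 1 ≤ H →
      H * L ^ 480 ≤ N * M → 0 ≤ η → η ≤ 1 / (L : ℝ) ^ 175 →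
      (∀ l : ℕ, 1 ≤ l → l ≤ 16 * N ^ 2 → l.divisors.card ≤ L) → FlatL H η f → (∀ u, ‖g u‖ ≤ 1) →
      n2 (Tr (P := P) (2 * N ^ 2 + 1) (rhoS N M) f g) ≤ 8 / L)
    (hG : ∀ L : ℕ, CG ≤ L → ∀ (P H T N M : ℕ) [NeZero P] (η : ℝ) (f g : ZMod P → ℂ),
      P = H * T → 5 * N ^ 2 ≤ P → P ≤ 16 * N ^ 2 → L ^ CG ≤ M → L ^ 10 * M ≤ N → N ≤ M ^ k0 → 1 ≤ H →
      H * L ^ 480 ≤ N * M → 0 ≤ η → η ≤ 1 / (L : ℝ) ^ 175 →
      (∀ l : ℕ, 1 ≤ l → l ≤ 16 * N ^ 2 → l.divisors.card ≤ L) → FlatL H η g → (∀ u, ‖f u‖ ≤ 1) →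
      n2 (Tr (P := P) (2 * N ^ 2 + 1) (rhoS N M) f g) ≤ 8 / L)
    (L C E N M M1 M2 P H T : ℕ) [NeZero P] (hL : 2 ≤ L) (hCU : CU ≤ L) (hCG : CG ≤ L)
    (hC1 : CU ≤ C) (hC2 : 352 * CG ≤ C) (hC3 : 3520 ≤ C) (hE1 : 480 ≤ E) (hE2 : 352 * 480 ≤ E)
    (h1 : L ^ C ≤ M1) (hM1 : M1 ≤ M) (hM2 : M ≤ M2) (h2 : L ^ C * M2 ≤ N) (h3 : N ≤ M1 ^ k0)
    (hd : ∀ l : ℕ, 1 ≤ l → l ≤ 16 * N ^ 2 → l.divisors.card ≤ L) (hP : P = H * T)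
    (hP5 : 5 * N ^ 2 ≤ P) (hP16 : P ≤ 16 * N ^ 2) (hH : 1 ≤ H) (hHE : H * L ^ E ≤ N * M1)
    (f g : ZMod P → ℂ) :
    (FlatL H (1 / (L : ℝ) ^ 175) f → (∀ u, ‖g u‖ ≤ 1) →
      n2 (Tr (P := P) (2 * N ^ 2 + 1) (rhoS N M) f g) ≤ 8 / L) ∧
    (FlatL H (1 / ((L : ℝ) ^ 352) ^ 175) g → (∀ u, ‖f u‖ ≤ 1) →
      n2 (Tr (P := P) (2 * N ^ 2 + 1) (rhoS N M) f g) ≤ 8 / (L : ℝ) ^ 352) := by
  have hL1 : 1 ≤ L := by omega
  have hk : N ≤ M ^ k0 := h3.trans (Nat.pow_le_pow_left hM1 k0)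
  have hCM : L ^ C ≤ M := h1.trans hM1
  have hCN : ∀ a : ℕ, a ≤ C → L ^ a * M ≤ N := fun a ha =>
    (Nat.mul_le_mul (Nat.pow_le_pow_right hL1 ha) hM2).trans h2
  have hHM : ∀ a : ℕ, a ≤ E → H * L ^ a ≤ N * M := fun a ha =>
    ((Nat.mul_le_mul_left _ (Nat.pow_le_pow_right hL1 ha)).trans hHE).trans
      (Nat.mul_le_mul_left _ hM1)
  have hLL : L ≤ L ^ 352 := Nat.le_self_pow (by norm_num) L
  refine ⟨fun hf hg => ?_, fun hg hf => ?_⟩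
  · exact hU L hCU P H T N M (1 / (L : ℝ) ^ 175) f g hP hP5 hP16
      (fs0_pow L C CU hL1 hC1 M hCM) (hCN 10 (by omega)) hk hH (hHM 480 hE1) (by positivity) le_rfl
      hd hf hg
  · have h5 := hG (L ^ 352) (hCG.trans hLL) P H T N M (1 / ((L : ℝ) ^ 352) ^ 175) f g hP hP5 hP16
      (by rw [← pow_mul]; exact fs0_pow L C (352 * CG) hL1 hC2 M hCM)
      (by rw [← pow_mul]; exact hCN (352 * 10) (by omega)) hk hH
      (by rw [← pow_mul]; exact hHM (352 * 480) hE2) (by positivity)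
      (by rw [Nat.cast_pow]) (fun l a b => (hd l a b).trans hLL) hg hf
    rw [Nat.cast_pow] at h5
    exact h5

theorem thm_FS0 (hCOML : St_COML) (hUNF : St_UNF) (hUNG : St_UNG) (hSSB : St_SSB) : St_FS0 := by
  intro k0
  obtain ⟨CU, hU⟩ := hUNF k0
  obtain ⟨CG, hG⟩ := hUNG k0
  obtain ⟨m, hm⟩ : ∃ m : ℕ, m = 350 + 352 * 350 + 2 := ⟨_, rfl⟩
  obtain ⟨CS, hS⟩ := hSSB k0 (2 * m)
  obtain ⟨E, hE⟩ : ∃ E : ℕ, E = 12 * (2 * m) + 30 := ⟨_, rfl⟩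
  refine ⟨CU + 352 * CG + CS + E + 3520, fun B => ?_⟩
  obtain ⟨LS, hS⟩ := hS B
  refine ⟨CU + CG + LS + 100, fun L hL N M1 M2 h1 h12 h21 h2 h3 hB hd => ?_⟩
  set C := CU + 352 * CG + CS + E + 3520 with hC
  have hL1 : 1 ≤ L := by omega
  have hL2 : 2 ≤ L := by omega
  have hp : ∀ k : ℕ, 1 ≤ L ^ k := fun k => Nat.one_le_pow _ _ hL1
  have hM1 : 1 ≤ M1 := (hp C).trans h1
  have hM2 : 1 ≤ M2 := hM1.trans h12
  have hM2N : M2 ≤ N := le_trans (Nat.le_mul_of_pos_left _ (hp C)) h2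
  have hN : 1 ≤ N := hM2.trans hM2N
  obtain ⟨H, T, hH, hHE, hHE', hP5, hP16⟩ := fs0_H L N M1 E hL1 hN (h12.trans hM2N)
    (fs0_pow L C E hL1 (by omega) M1 h1)
  set P := H * T with hP
  have hN2 : 1 ≤ N ^ 2 := Nat.one_le_pow _ _ hN
  have hP0 : P ≠ 0 := by omega
  have : NeZero P := ⟨hP0⟩
  refine ⟨P, ⟨hP0⟩, hP5, hP16, fun f g hf hg => ?_⟩
  have hCS : L ^ CS ≤ M1 := fs0_pow L C CS hL1 (by omega) M1 h1
  have hCSN : L ^ CS * M2 ≤ N :=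
    (Nat.mul_le_mul_right _ (Nat.pow_le_pow_right hL1 (by omega))).trans h2
  obtain ⟨H', i0, i1, hH', hi, hi1, ht1, ht2, hst⟩ := hS L (by omega) N M1 M2 P H T hCS h12 h21 hCSN
    h3 hB hP hP5 hP16 (by rw [← hE]; exact hHE) (by rw [← hE]; exact hHE')
  obtain ⟨m1, m2, _, _⟩ := thm_MSS N M1 hM1 (h12.trans hM2N)
  obtain ⟨n1, n2', _, _⟩ := thm_MSS N M2 hM2 hM2N
  have hflat : ∀ M : ℕ, M1 ≤ M → M ≤ M2 → ∀ f g : ZMod P → ℂ,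
      (FlatL H (1 / (L : ℝ) ^ 175) f → (∀ u, ‖g u‖ ≤ 1) →
        n2 (Tr (P := P) (2 * N ^ 2 + 1) (rhoS N M) f g) ≤ 8 / L) ∧
      (FlatL H (1 / ((L : ℝ) ^ 352) ^ 175) g → (∀ u, ‖f u‖ ≤ 1) →
        n2 (Tr (P := P) (2 * N ^ 2 + 1) (rhoS N M) f g) ≤ 8 / (L : ℝ) ^ 352) := fun M a b f g =>
    fs0_flat k0 CU CG hU hG L C E N M M1 M2 P H T hL2 (by omega) (by omega) (by omega) (by omega)
      (by omega) (by omega) (by omega) h1 a b h2 h3 hd hP hP5 hP16 hH hHE f g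
  have hLR : (100 : ℝ) ≤ L := by
    have : 100 ≤ L := by omega
    exact_mod_cast this
  have hL0 : (0 : ℝ) < L := by linarith
  have hL1R : (1 : ℝ) ≤ L := by linarith
  have hν0 : (0 : ℝ) ≤ 1 / (L : ℝ) ^ (2 * m) := by positivity
  have main := hCOML P H T H' i0 i1 (2 * N ^ 2 + 1) (rhoS N M1) (rhoS N M2)
    (1 / (L : ℝ) ^ 175) (1 / ((L : ℝ) ^ 352) ^ 175) (8 / L) (8 / (L : ℝ) ^ 352)
    (1 / (L : ℝ) ^ (2 * m)) (1 / (L : ℝ) ^ (2 * m)) f g hP hH (by positivity)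
    (by rw [div_le_one (by positivity)]; exact one_le_pow₀ hL1R) (by positivity)
    (by rw [div_le_one (by positivity)]; exact one_le_pow₀ (one_le_pow₀ hL1R)) hH' hi (by omega)
    (by positivity) (by positivity) hν0 hν0 m1 n1 m2 n2' ht1 ht2
    (fun f' g' a b => ⟨(hflat M1 le_rfl h12 f' g').1 a b, (hflat M2 h12 le_rfl f' g').1 a b⟩)
    (fun f' g' a b => ⟨(hflat M1 le_rfl h12 f' g').2 a b, (hflat M2 h12 le_rfl f' g').2 a b⟩)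
    hst hf hg
  refine main.trans ?_
  have e1 : (1 / (L : ℝ) ^ 175) ^ 2 = 1 / (L : ℝ) ^ 350 := by
    rw [div_pow, one_pow, ← pow_mul]
  have e2 : (1 / ((L : ℝ) ^ 352) ^ 175) ^ 2 = 1 / ((L : ℝ) ^ 352) ^ 350 := by
    rw [div_pow, one_pow, ← pow_mul ((L : ℝ) ^ 352)]
  have e3 : Real.sqrt (1 / (L : ℝ) ^ (2 * m)) = 1 / (L : ℝ) ^ m := by
    have h5 : 1 / (L : ℝ) ^ (2 * m) = (1 / (L : ℝ) ^ m) ^ 2 := by
      rw [div_pow, one_pow, ← pow_mul, mul_comm]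
    rw [h5, Real.sqrt_sq (by positivity)]
  have e4 : (L : ℝ) ^ (2 * m) = ((L : ℝ) ^ m) ^ 2 := by rw [← pow_mul, mul_comm]
  have e5 : (L : ℝ) ^ m = (L : ℝ) ^ 350 * ((L : ℝ) ^ 352) ^ 350 * (L : ℝ) ^ 2 := by
    rw [hm, pow_add, pow_add, ← pow_mul]
  have e6 : (L : ℝ) ^ 352 = (L : ℝ) ^ 350 * (L : ℝ) ^ 2 := by
    rw [← pow_add]
  rw [e1, e2, e3]
  have e7 := fs0_num (L : ℝ) ((L : ℝ) ^ 350) (((L : ℝ) ^ 352) ^ 350) ((L : ℝ) ^ m) hLR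
    (one_le_pow₀ hL1R) (one_le_pow₀ (one_le_pow₀ hL1R)) e5
  rw [← e4] at e7
  rw [← e6] at e7
  exact e7

end Pool.Agent.BSR
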