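import Pool.Agent.BSQ.Defs

/-!
# BSR (MP_70d78b_an): bilinear averages along `n² + m²`, `m ≤ N^c`, all `0 < c ≤ 1` (helper44)

Definitions.  The base definitions (`ee`, `dI`, `ch`, `ft`, `n2`, `Tr`, `tl`, `fh`, `TileE`, `Fl`, `rhoS`, `WF`, ..)
are those of `Pool.Agent.BSQ.Defs`.
-/

set_option autoImplicit false

namespace Pool.Agent.BSR

open Finset MeasureTheory Filter Topology Pool.Agent.BSQ
open scoped BigOperators
open Classical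

/-- `n² + m²` for integers. -/
def sqz (p : ℤ × ℤ) : ℤ := p.1 ^ 2 + p.2 ^ 2

/-- the box `n0 < n ≤ n0 + N1`, `1 ≤ m ≤ M`. -/
noncomputable def Bx (n0 N1 M : ℕ) : Finset (ℤ × ℤ) := Ioc (n0 : ℤ) (n0 + N1) ×ˢ Icc 1 (M : ℤ)

/-- the vectors with both coordinates of modulus `< A`. -/
noncomputable def Dif (A : ℕ) : Finset (ℤ × ℤ) := Ioo (-(A : ℤ)) A ×ˢ Ioo (-(A : ℤ)) A

/-- the points `p` of the box with `p + d` in the box and `sqz (p + d) - sqz p = l`. -/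
noncomputable def Rl (n0 N1 M : ℕ) (l : ℤ) (d : ℤ × ℤ) : Finset (ℤ × ℤ) :=
  (Bx n0 N1 M).filter (fun p => p + d ∈ Bx n0 N1 M ∧ sqz (p + d) - sqz p = l)

/-- the exponential sum attached to the difference `l`. -/
noncomputable def Sl (n0 N1 M A : ℕ) (l : ℤ) (θ : ℝ) : ℝ :=
  1 / (A : ℝ) ^ 2 * ∑ d ∈ Dif A, ‖∑ p ∈ Rl n0 N1 M l d, ee (2 * θ * (sqz p : ℝ))‖

/-- the bilinear operator of a box. -/
noncomputable def TB {P : ℕ} (n0 N1 M : ℕ) (f g : ZMod P → ℂ) (y : ZMod P) : ℂ :=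
  ∑ p ∈ Bx n0 N1 M, f (y + ((sqz p : ℤ) : ZMod P)) * g (y - ((sqz p : ℤ) : ZMod P))

/-- locally flat functions: every local Fourier coefficient of every tile is at most `η H`. -/
def FlatL {P : ℕ} [NeZero P] (H : ℕ) (η : ℝ) (f : ZMod P → ℂ) : Prop :=
  TileE H f ∧ ∀ (z : ZMod P) (t : ℕ), ‖fh H f z t‖ ≤ η * H

/-- the major frequencies. -/
noncomputable def MajL (P N M L : ℕ) [NeZero P] : Finset (ZMod P) :=
  univ.filter (fun b : ZMod P => ∃ q : ℕ, 1 ≤ q ∧ q ≤ L ^ 162 ∧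
    dI ((q : ℝ) * ((b.val : ℝ) / P)) ≤ (L : ℝ) ^ 300 / (M * N))

/-- resonance: some `1 ≤ q ≤ Q` has `b0 < dI (q θ) ≤ b1` and `2 dI (q θ) √x` is within `δ` of an integer. -/
def Bad (Q : ℕ) (b0 b1 δ x θ : ℝ) : Prop :=
  ∃ q : ℕ, 1 ≤ q ∧ q ≤ Q ∧ b0 < dI (q * θ) ∧ dI (q * θ) ≤ b1 ∧
    dI (2 * dI (q * θ) * Real.sqrt x) ≤ δ

end Pool.Agent.BSR
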