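import Pool.Agent.BSQ.DAB
import Pool.Agent.BSQ.MAIN
import Pool.Agent.BSQ.Final
import Pool.Agent.BSR.Defs

/-!
# BSR: conversions between weighted and unweighted averages for all exponents in `(0, 1)` (helper44)

Adapted from `Pool.Agent.BSQ.Conv`, `Conv2`, `DAB`, `Final` (the lower bound `1/2` of the exponents is replaced by `0`).
-/

set_option autoImplicit false

namespace Pool.Agent.BSR

open Finset MeasureTheory Filter Topology Pool.Agent.BSQ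
open scoped BigOperators
open Classical

/-- `W`-uniformity gives `U`-uniformity. -/
theorem cr_unifU (F : ℕ → ℝ) (hF : ∀ k, |F k| ≤ 1)
    (hW : ∀ c1 c2 : ℝ, 0 < c1 → c1 ≤ c2 → c2 < 1 → UnifW F c1 c2)
    (c1 c2 : ℝ) (hc1 : 0 < c1) (hc12 : c1 ≤ c2) (hc2 : c2 < 1) : UnifU F c1 c2 := by
  intro ε hε
  set c2' := (c2 + 1) / 2 with hc2'
  have g1 : c2 < c2' := by rw [hc2']; linarith
  have g2 : c2' < 1 := by rw [hc2']; linarith
  have hw := hW c1 c2' hc1 (by linarith) g2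
  -- a bad pair for every N (if any)
  set Bad' : ℕ → Prop := fun N => ∃ p : ℕ × ℕ, ((N : ℝ) + 1) ^ c1 ≤ p.1 ∧ (p.1 : ℝ) ≤ ((N : ℝ) + 1) ^ c2 ∧
    ((N : ℝ) + 1) ^ c1 ≤ p.2 ∧ (p.2 : ℝ) ≤ ((N : ℝ) + 1) ^ c2 ∧ ε < |UF F (N + 1) p.1 - UF F (N + 1) p.2|
    with hBad
  set pr : ℕ → ℕ × ℕ := fun N => if h : Bad' N then h.choose else (1, 1) with hpr
  have hpr1 : ∀ N, Bad' N → ((N : ℝ) + 1) ^ c1 ≤ (pr N).1 ∧ ((pr N).1 : ℝ) ≤ ((N : ℝ) + 1) ^ c2 ∧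
    ((N : ℝ) + 1) ^ c1 ≤ (pr N).2 ∧ ((pr N).2 : ℝ) ≤ ((N : ℝ) + 1) ^ c2 ∧
      ε < |UF F (N + 1) (pr N).1 - UF F (N + 1) (pr N).2| := by
    intro N hN
    simp only [hpr, dif_pos hN]
    exact hN.choose_spec
  set u : ℕ → ℕ → ℝ := fun N k => if Bad' N then
    WF F (k + 1) (pr N).1 - WF F (k + 1) (pr N).2 else 0 with hu
  have hone : ∀ N, Bad' N → 1 ≤ (pr N).1 ∧ 1 ≤ (pr N).2 := by
    intro N hN
    obtain ⟨b1, _, b2, _, _⟩ := hpr1 N hN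
    have h1 : (1 : ℝ) ≤ ((N : ℝ) + 1) ^ c1 :=
      Real.one_le_rpow (by linarith [show (0 : ℝ) ≤ N by positivity]) (by linarith)
    exact ⟨by exact_mod_cast h1.trans b1, by exact_mod_cast h1.trans b2⟩
  have hub : ∀ N k, |u N k| ≤ 8 := by
    intro N k
    simp only [hu]
    split_ifs with hN
    · obtain ⟨p1, p2⟩ := hone N hN
      calc |WF F (k + 1) (pr N).1 - WF F (k + 1) (pr N).2|
          ≤ |WF F (k + 1) (pr N).1| + |WF F (k + 1) (pr N).2| := abs_sub _ _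
        _ ≤ 4 + 4 := add_le_add (cv_Wb F hF _ _ p1) (cv_Wb F hF _ _ p2)
        _ = 8 := by norm_num
    · simp
  have key : ∀ ε' δ : ℝ, 0 < ε' → 0 < δ → ∃ N0 : ℕ, ∀ N : ℕ, N0 ≤ N → ∀ k : ℕ, k ≤ N →
      δ * ((N : ℝ) + 1) ≤ (k : ℝ) + 1 → |u N k| ≤ ε' := by
    intro ε' δ hε' hδ
    obtain ⟨N1, hN1⟩ := hw ε' hε'
    obtain ⟨N0, hN0⟩ := cv_exp' c1 c2 c2' δ (by linarith) (by linarith) g1 hδ N1
    refine ⟨N0, fun N hN k hk hδk => ?_⟩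
    simp only [hu]
    split_ifs with hb
    · obtain ⟨b1, b2, b3, b4, _⟩ := hpr1 N hb
      obtain ⟨e1, e2⟩ := hN0 (N + 1) (by omega) (k + 1) (by omega) (by push_cast; exact hδk)
      obtain ⟨x1, x2⟩ := e2 (pr N).1 (by push_cast; exact b1) (by push_cast; exact b2)
      obtain ⟨y1, y2⟩ := e2 (pr N).2 (by push_cast; exact b3) (by push_cast; exact b4)
      exact hN1 (k + 1) e1 _ _ x1 x2 y1 y2
    · simpa using hε'.le
  obtain ⟨Na, hNa⟩ := cv_tail' u 8 (by norm_num) hub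
    (fun a b ha hb => by
      obtain ⟨N0, hN0⟩ := key a b ha hb
      exact ⟨N0, fun N hN k hk => hN0 N hN k hk.le⟩) (ε / 2) (by positivity)
  obtain ⟨Nb, hNb⟩ := key (ε / 2) 1 (by positivity) one_pos
  refine ⟨max Na Nb + 1, fun N hN M M' h1 h2 h3 h4 => ?_⟩
  obtain ⟨K, rfl⟩ : ∃ K, N = K + 1 := ⟨N - 1, by omega⟩
  by_contra hcon
  have hb : Bad' K := ⟨(M, M'), by push_cast at h1; exact h1, by push_cast at h2; exact h2,
    by push_cast at h3; exact h3, by push_cast at h4; exact h4, not_le.1 hcon⟩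
  obtain ⟨_, _, _, _, hlt⟩ := hpr1 K hb
  obtain ⟨p1, p2⟩ := hone K hb
  have hKa := hNa K (by have := le_max_left Na Nb; omega)
  have hKb := hNb K (by have := le_max_right Na Nb; omega) K le_rfl (by simp)
  rw [cv_U F K _ p1, cv_U F K _ p2] at hlt
  have huk : ∀ k, u K k = WF F (k + 1) (pr K).1 - WF F (k + 1) (pr K).2 := by
    intro k
    simp only [hu, if_pos hb]
  rw [huk] at hKb
  have hsum : |1 / ((K : ℝ) + 1) * ∑ k ∈ range K, ((k : ℝ) + 1) / ((k : ℝ) + 2) *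
      (WF F (k + 1) (pr K).1 / 2) - 1 / ((K : ℝ) + 1) * ∑ k ∈ range K, ((k : ℝ) + 1) / ((k : ℝ) + 2) *
      (WF F (k + 1) (pr K).2 / 2)| ≤ ε / 2 := by
    rw [← mul_sub, ← sum_sub_distrib, abs_mul, abs_of_nonneg (by positivity)]
    refine le_trans ?_ hKa
    refine mul_le_mul_of_nonneg_left ?_ (by positivity)
    refine (abs_sum_le_sum_abs _ _).trans (sum_le_sum fun k _ => ?_)
    rw [huk, show ((k : ℝ) + 1) / ((k : ℝ) + 2) * (WF F (k + 1) (pr K).1 / 2) -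
      ((k : ℝ) + 1) / ((k : ℝ) + 2) * (WF F (k + 1) (pr K).2 / 2) =
      (((k : ℝ) + 1) / ((k : ℝ) + 2) / 2) * (WF F (k + 1) (pr K).1 - WF F (k + 1) (pr K).2) by ring,
      abs_mul]
    have h5 : |((k : ℝ) + 1) / ((k : ℝ) + 2) / 2| ≤ 1 := by
      rw [abs_of_nonneg (by positivity), div_div, div_le_one (by positivity)]
      linarith [show (0 : ℝ) ≤ k by positivity]
    calc |((k : ℝ) + 1) / ((k : ℝ) + 2) / 2| * |WF F (k + 1) (pr K).1 - WF F (k + 1) (pr K).2|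
        ≤ 1 * |WF F (k + 1) (pr K).1 - WF F (k + 1) (pr K).2| :=
          mul_le_mul_of_nonneg_right h5 (abs_nonneg _)
      _ = _ := one_mul _
  have hfin : |WF F (K + 1) (pr K).1 / 2 - WF F (K + 1) (pr K).2 / 2| ≤ ε / 2 := by
    rw [← sub_div, abs_div, abs_of_pos (by norm_num : (0 : ℝ) < 2)]
    linarith [abs_nonneg (WF F (K + 1) (pr K).1 - WF F (K + 1) (pr K).2)]
  have h7 := abs_add_le (WF F (K + 1) (pr K).1 / 2 - WF F (K + 1) (pr K).2 / 2)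
    (1 / ((K : ℝ) + 1) * ∑ k ∈ range K, ((k : ℝ) + 1) / ((k : ℝ) + 2) *
      (WF F (k + 1) (pr K).1 / 2) - 1 / ((K : ℝ) + 1) * ∑ k ∈ range K, ((k : ℝ) + 1) / ((k : ℝ) + 2) *
      (WF F (k + 1) (pr K).2 / 2))
  have h8 : WF F (K + 1) (pr K).1 / 2 + 1 / ((K : ℝ) + 1) * ∑ k ∈ range K, ((k : ℝ) + 1) / ((k : ℝ) + 2) *
      (WF F (k + 1) (pr K).1 / 2) - (WF F (K + 1) (pr K).2 / 2 + 1 / ((K : ℝ) + 1) *
      ∑ k ∈ range K, ((k : ℝ) + 1) / ((k : ℝ) + 2) * (WF F (k + 1) (pr K).2 / 2)) =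
      (WF F (K + 1) (pr K).1 / 2 - WF F (K + 1) (pr K).2 / 2) +
    (1 / ((K : ℝ) + 1) * ∑ k ∈ range K, ((k : ℝ) + 1) / ((k : ℝ) + 2) *
      (WF F (k + 1) (pr K).1 / 2) - 1 / ((K : ℝ) + 1) * ∑ k ∈ range K, ((k : ℝ) + 1) / ((k : ℝ) + 2) *
      (WF F (k + 1) (pr K).2 / 2)) := by ring
  rw [h8] at hlt
  linarith

/-- if the unweighted averages with exponent `c` converge, so do the weighted ones with exponent `7/8`. -/
theorem cr_conv (F : ℕ → ℝ) (hF : ∀ k, |F k| ≤ 1)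
    (hU : ∀ c1 c2 : ℝ, 0 < c1 → c1 ≤ c2 → c2 < 1 → UnifU F c1 c2)
    (c : ℝ) (hc : 0 < c) (hc1 : c < 1) (L : ℝ)
    (hL : Tendsto (fun N : ℕ => UF F N ⌊(N : ℝ) ^ c⌋₊) atTop (𝓝 L)) :
    Tendsto (fun N : ℕ => WF F N ⌊(N : ℝ) ^ (7 / 8 : ℝ)⌋₊) atTop (𝓝 L) := by
  -- exponents
  set d1 := (0 + min c (7 / 8)) / 2 with hd1
  set d2 := max c (7 / 8) with hd2
  set d3 := (d2 + 1) / 2 with hd3
  have m1 : 0 < min c (7 / 8) := lt_min hc (by norm_num)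
  have m2 : min c (7 / 8) ≤ c := min_le_left _ _
  have m3 : min c (7 / 8) ≤ 7 / 8 := min_le_right _ _
  have m4 : c ≤ d2 := le_max_left _ _
  have m5 : (7 / 8 : ℝ) ≤ d2 := le_max_right _ _
  have m6 : d2 < 1 := max_lt hc1 (by norm_num)
  have e1 : 0 < d1 := by rw [hd1]; linarith
  have e2 : d1 < c := by rw [hd1]; linarith
  have e3 : d1 < 7 / 8 := by rw [hd1]; linarith
  have e4 : d2 < d3 := by rw [hd3]; linarith
  have e5 : d3 < 1 := by rw [hd3]; linarith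
  obtain ⟨Nf, hNf⟩ := c2_fl d1 c d3 (by linarith) e2 (by linarith)
  obtain ⟨Ng, hNg⟩ := c2_fl d1 (7 / 8) d2 (by linarith) e3 m5
  have hUU := hU d1 d3 e1 (by linarith) e5
  set u : ℕ → ℕ → ℝ := fun N k => UF F (k + 1) ⌊((N : ℝ) + 1) ^ (7 / 8 : ℝ)⌋₊ - L with hu
  have hub : ∀ N k, |u N k| ≤ 1 + |L| := fun N k =>
    (abs_sub _ _).trans (add_le_add (cv_Ub F hF _ _) le_rfl)
  have key : ∀ ε' δ : ℝ, 0 < ε' → 0 < δ → ∃ N0 : ℕ, ∀ N : ℕ, N0 ≤ N → ∀ k : ℕ, k ≤ N →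
      δ * ((N : ℝ) + 1) ≤ (k : ℝ) + 1 → |u N k| ≤ ε' := by
    intro ε' δ hε' hδ
    obtain ⟨N1, hN1⟩ := hUU (ε' / 2) (by positivity)
    obtain ⟨N2, hN2⟩ := Metric.tendsto_atTop.1 hL (ε' / 2) (by positivity)
    obtain ⟨N0, hN0⟩ := cv_exp' d1 d2 d3 δ (by linarith) (by linarith) e4 hδ (max N1 (max N2 Nf))
    refine ⟨max N0 Ng, fun N hN k hk hδk => ?_⟩
    have hg := hNg (N + 1) (by have := le_max_right N0 Ng; omega)
    obtain ⟨f1, f2⟩ := hN0 (N + 1) (by have := le_max_left N0 Ng; omega) (k + 1) (by omega)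
      (by push_cast; exact hδk)
    obtain ⟨g1, g2⟩ := f2 ⌊(((N + 1 : ℕ)) : ℝ) ^ (7 / 8 : ℝ)⌋₊ hg.1 hg.2
    have a1 : N1 ≤ k + 1 := (le_max_left _ _).trans f1
    have a2 : N2 ≤ k + 1 := ((le_max_left _ _).trans (le_max_right _ _)).trans f1
    have a3 : Nf ≤ k + 1 := ((le_max_right _ _).trans (le_max_right _ _)).trans f1
    have b1 := hN1 (k + 1) a1 _ _ g1 g2 (hNf (k + 1) a3).1 (hNf (k + 1) a3).2
    have b2 := hN2 (k + 1) a2
    rw [Real.dist_eq] at b2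
    simp only [hu]
    have b3 := abs_add_le (UF F (k + 1) ⌊(((N + 1 : ℕ)) : ℝ) ^ (7 / 8 : ℝ)⌋₊ -
      UF F (k + 1) ⌊(((k + 1 : ℕ)) : ℝ) ^ c⌋₊) (UF F (k + 1) ⌊(((k + 1 : ℕ)) : ℝ) ^ c⌋₊ - L)
    have b4 : UF F (k + 1) ⌊(((N + 1 : ℕ)) : ℝ) ^ (7 / 8 : ℝ)⌋₊ - UF F (k + 1) ⌊(((k + 1 : ℕ)) : ℝ) ^ c⌋₊ +
      (UF F (k + 1) ⌊(((k + 1 : ℕ)) : ℝ) ^ c⌋₊ - L) =
      UF F (k + 1) ⌊((N : ℝ) + 1) ^ (7 / 8 : ℝ)⌋₊ - L := by push_cast; ring
    rw [b4] at b3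
    linarith
  rw [Metric.tendsto_atTop]
  intro ε hε
  obtain ⟨Na, hNa⟩ := cv_tail' u (1 + |L|) (by positivity) hub
    (fun a b ha hb => by
      obtain ⟨N0, hN0⟩ := key a b ha hb
      exact ⟨N0, fun N hN k hk => hN0 N hN k hk.le⟩) (ε / 8) (by positivity)
  obtain ⟨Nb, hNb⟩ := key (ε / 8) 1 (by positivity) one_pos
  have hz : Tendsto (fun N : ℕ => |L| / ((N : ℝ) + 1)) atTop (𝓝 0) :=
    tendsto_const_nhds.div_atTop (tendsto_atTop_add_const_right _ _ tendsto_natCast_atTop_atTop)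
  obtain ⟨Nc, hNc⟩ := Metric.tendsto_atTop.1 hz (ε / 8) (by positivity)
  refine ⟨max Na (max Nb Nc) + 1, fun N hN => ?_⟩
  obtain ⟨K, rfl⟩ : ∃ K, N = K + 1 := ⟨N - 1, by omega⟩
  have l1 : Na ≤ K := by have := le_max_left Na (max Nb Nc); omega
  have l2 : Nb ≤ K := by
    have := (le_max_left Nb Nc).trans (le_max_right Na (max Nb Nc)); omega
  have l3 : Nc ≤ K := by
    have := (le_max_right Nb Nc).trans (le_max_right Na (max Nb Nc)); omega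
  have q1 := hNa K l1
  have q2 := hNb K l2 K le_rfl (by simp)
  have q3 := hNc K l3
  rw [Real.dist_eq, sub_zero, abs_of_nonneg (by positivity)] at q3
  rw [Real.dist_eq]
  push_cast
  set M := ⌊((K : ℝ) + 1) ^ (7 / 8 : ℝ)⌋₊ with hM
  have hM1 : 1 ≤ M := Nat.le_floor (by
    rw [Nat.cast_one]
    exact Real.one_le_rpow (by linarith [show (0 : ℝ) ≤ K by positivity]) (by norm_num))
  have hK1 : (0 : ℝ) < (K : ℝ) + 1 := by positivity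
  have hid : WF F (K + 1) M - L = 2 * u K K -
      2 / ((K : ℝ) + 1) ^ 2 * ∑ k ∈ range K, ((k : ℝ) + 1) * u K k + L / ((K : ℝ) + 1) := by
    rw [cv_W F K M hM1]
    have hs : ∑ k ∈ range K, ((k : ℝ) + 1) * u K k =
        ∑ k ∈ range K, ((k : ℝ) + 1) * UF F (k + 1) M - L * ((K : ℝ) * (K + 1) / 2) := by
      have hg : ∑ k ∈ range K, ((k : ℝ) + 1) = (K : ℝ) * (K + 1) / 2 := by
        clear * -
        induction K with
        | zero => simp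
        | succ K ih => rw [sum_range_succ, ih]; push_cast; ring
      rw [← hg, mul_sum, ← sum_sub_distrib]
      refine sum_congr rfl fun k _ => ?_
      simp only [hu]
      ring
    rw [hs]
    simp only [hu]
    rw [← hM]
    field_simp
    ring
  rw [hid]
  have t1 : |2 / ((K : ℝ) + 1) ^ 2 * ∑ k ∈ range K, ((k : ℝ) + 1) * u K k| ≤ 2 * (ε / 8) := by
    rw [abs_mul, abs_of_nonneg (by positivity)]
    have t2 : |∑ k ∈ range K, ((k : ℝ) + 1) * u K k| ≤ ((K : ℝ) + 1) * ∑ k ∈ range K, |u K k| := by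
      refine (abs_sum_le_sum_abs _ _).trans ?_
      rw [mul_sum]
      refine sum_le_sum fun k hk => ?_
      rw [abs_mul, abs_of_nonneg (by positivity)]
      refine mul_le_mul_of_nonneg_right ?_ (abs_nonneg _)
      have : (k : ℝ) ≤ K := by exact_mod_cast (mem_range.1 hk).le
      linarith
    calc 2 / ((K : ℝ) + 1) ^ 2 * |∑ k ∈ range K, ((k : ℝ) + 1) * u K k|
        ≤ 2 / ((K : ℝ) + 1) ^ 2 * (((K : ℝ) + 1) * ∑ k ∈ range K, |u K k|) :=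
          mul_le_mul_of_nonneg_left t2 (by positivity)
      _ = 2 * (1 / ((K : ℝ) + 1) * ∑ k ∈ range K, |u K k|) := by field_simp
      _ ≤ 2 * (ε / 8) := mul_le_mul_of_nonneg_left q1 (by norm_num)
  have t3 : |L / ((K : ℝ) + 1)| < ε / 8 := by
    rw [abs_div, abs_of_pos hK1]
    exact q3
  have t4 := abs_add_le (2 * u K K - 2 / ((K : ℝ) + 1) ^ 2 * ∑ k ∈ range K, ((k : ℝ) + 1) * u K k)
    (L / ((K : ℝ) + 1))
  have t5 := abs_sub (2 * u K K) (2 / ((K : ℝ) + 1) ^ 2 * ∑ k ∈ range K, ((k : ℝ) + 1) * u K k)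
  have t6 : |2 * u K K| ≤ 2 * (ε / 8) := by
    rw [abs_mul, abs_of_pos (by norm_num : (0 : ℝ) < 2)]
    linarith
  linarith

theorem cr_two (F : ℕ → ℝ) (hF : ∀ k, |F k| ≤ 1)
    (hW : ∀ c1 c2 : ℝ, 0 < c1 → c1 ≤ c2 → c2 < 1 → UnifW F c1 c2) (L : ℝ)
    (hL : Tendsto (fun N : ℕ => WF F N ⌊(N : ℝ) ^ (7 / 8 : ℝ)⌋₊) atTop (𝓝 L))
    (c : ℝ) (hc : 0 < c) (hc1 : c < 1) :
    Tendsto (fun N : ℕ => UF F N ⌊(N : ℝ) ^ c⌋₊) atTop (𝓝 L) := by
  set d1 := (0 + min c (7 / 8)) / 2 with hd1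
  set d2 := max c (7 / 8) with hd2
  set d3 := (d2 + 1) / 2 with hd3
  have m1 : 0 < min c (7 / 8) := lt_min hc (by norm_num)
  have m2 : min c (7 / 8) ≤ c := min_le_left _ _
  have m3 : min c (7 / 8) ≤ 7 / 8 := min_le_right _ _
  have m4 : c ≤ d2 := le_max_left _ _
  have m5 : (7 / 8 : ℝ) ≤ d2 := le_max_right _ _
  have m6 : d2 < 1 := max_lt hc1 (by norm_num)
  have e1 : 0 < d1 := by rw [hd1]; linarith
  have e2 : d1 < c := by rw [hd1]; linarith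
  have e3 : d1 < 7 / 8 := by rw [hd1]; linarith
  have e4 : d2 < d3 := by rw [hd3]; linarith
  have e5 : d3 < 1 := by rw [hd3]; linarith
  obtain ⟨Nf, hNf⟩ := c2_fl d1 (7 / 8) d3 (by linarith) e3 (by linarith)
  obtain ⟨Ng, hNg⟩ := c2_fl d1 c d2 (by linarith) e2 m4
  have hUU := hW d1 d3 e1 (by linarith) e5
  set u : ℕ → ℕ → ℝ := fun N k => ((k : ℝ) + 1) / ((k : ℝ) + 2) *
    WF F (k + 1) ⌊((N : ℝ) + 1) ^ c⌋₊ - L with hu
  have hM1 : ∀ N : ℕ, 1 ≤ ⌊((N : ℝ) + 1) ^ c⌋₊ := fun N => Nat.le_floor (by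
    rw [Nat.cast_one]
    exact Real.one_le_rpow (by linarith [show (0 : ℝ) ≤ N by positivity]) (by linarith))
  have hfr : ∀ k : ℕ, 0 ≤ ((k : ℝ) + 1) / ((k : ℝ) + 2) ∧ ((k : ℝ) + 1) / ((k : ℝ) + 2) ≤ 1 := by
    intro k
    refine ⟨by positivity, ?_⟩
    rw [div_le_one (by positivity)]
    linarith
  have hub : ∀ N k, |u N k| ≤ 4 + |L| := fun N k => by
    refine (abs_sub _ _).trans (add_le_add ?_ le_rfl)
    rw [abs_mul, abs_of_nonneg (hfr k).1]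
    calc ((k : ℝ) + 1) / ((k : ℝ) + 2) * |WF F (k + 1) ⌊((N : ℝ) + 1) ^ c⌋₊| ≤ 1 * 4 :=
          mul_le_mul (hfr k).2 (cv_Wb F hF _ _ (hM1 N)) (abs_nonneg _) (by norm_num)
      _ = 4 := by norm_num
  have key : ∀ ε' δ : ℝ, 0 < ε' → 0 < δ → ∃ N0 : ℕ, ∀ N : ℕ, N0 ≤ N → ∀ k : ℕ, k ≤ N →
      δ * ((N : ℝ) + 1) ≤ (k : ℝ) + 1 → |u N k| ≤ ε' := by
    intro ε' δ hε' hδ
    obtain ⟨N1, hN1⟩ := hUU (ε' / 3) (by positivity)
    obtain ⟨N2, hN2⟩ := Metric.tendsto_atTop.1 hL (ε' / 3) (by positivity)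
    obtain ⟨N3, hN3⟩ := exists_nat_gt (|L| / (ε' / 3))
    obtain ⟨N0, hN0⟩ := cv_exp' d1 d2 d3 δ (by linarith) (by linarith) e4 hδ
      (max N1 (max N2 (max Nf N3)))
    refine ⟨max N0 Ng, fun N hN k hk hδk => ?_⟩
    have hg := hNg (N + 1) (by have := le_max_right N0 Ng; omega)
    obtain ⟨f1, f2⟩ := hN0 (N + 1) (by have := le_max_left N0 Ng; omega) (k + 1) (by omega)
      (by push_cast; exact hδk)
    obtain ⟨g1, g2⟩ := f2 ⌊(((N + 1 : ℕ)) : ℝ) ^ c⌋₊ hg.1 hg.2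
    have a1 : N1 ≤ k + 1 := (le_max_left _ _).trans f1
    have a2 : N2 ≤ k + 1 := ((le_max_left _ _).trans (le_max_right _ _)).trans f1
    have a3 : Nf ≤ k + 1 := (((le_max_left _ _).trans (le_max_right _ _)).trans
      (le_max_right _ _)).trans f1
    have a4 : N3 ≤ k + 1 := (((le_max_right _ _).trans (le_max_right _ _)).trans
      (le_max_right _ _)).trans f1
    have b1 := hN1 (k + 1) a1 _ _ g1 g2 (hNf (k + 1) a3).1 (hNf (k + 1) a3).2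
    have b2 := hN2 (k + 1) a2
    rw [Real.dist_eq] at b2
    have b5 : |L| / ((k : ℝ) + 2) ≤ ε' / 3 := by
      rw [div_le_iff₀ (by positivity)]
      rw [div_lt_iff₀ (by positivity)] at hN3
      have : (N3 : ℝ) ≤ (k : ℝ) + 1 := by exact_mod_cast a4
      nlinarith
    simp only [hu]
    push_cast at b1 b2 g1 g2
    have b6 : ((k : ℝ) + 1) / ((k : ℝ) + 2) * WF F (k + 1) ⌊((N : ℝ) + 1) ^ c⌋₊ - L =
        ((k : ℝ) + 1) / ((k : ℝ) + 2) * ((WF F (k + 1) ⌊((N : ℝ) + 1) ^ c⌋₊ -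
          WF F (k + 1) ⌊((k : ℝ) + 1) ^ (7 / 8 : ℝ)⌋₊) +
          (WF F (k + 1) ⌊((k : ℝ) + 1) ^ (7 / 8 : ℝ)⌋₊ - L)) + (- (L / ((k : ℝ) + 2))) := by
      have : (k : ℝ) + 2 ≠ 0 := by positivity
      field_simp
      ring
    rw [b6]
    refine (abs_add_le _ _).trans ?_
    rw [abs_neg, abs_div, abs_of_pos (by positivity : (0 : ℝ) < (k : ℝ) + 2), abs_mul,
      abs_of_nonneg (hfr k).1]
    have b7 := abs_add_le (WF F (k + 1) ⌊((N : ℝ) + 1) ^ c⌋₊ -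
          WF F (k + 1) ⌊((k : ℝ) + 1) ^ (7 / 8 : ℝ)⌋₊)
          (WF F (k + 1) ⌊((k : ℝ) + 1) ^ (7 / 8 : ℝ)⌋₊ - L)
    have b8 : ((k : ℝ) + 1) / ((k : ℝ) + 2) * |(WF F (k + 1) ⌊((N : ℝ) + 1) ^ c⌋₊ -
          WF F (k + 1) ⌊((k : ℝ) + 1) ^ (7 / 8 : ℝ)⌋₊) +
          (WF F (k + 1) ⌊((k : ℝ) + 1) ^ (7 / 8 : ℝ)⌋₊ - L)| ≤ 1 * (ε' / 3 + ε' / 3) :=
      mul_le_mul (hfr k).2 (b7.trans (add_le_add b1 b2.le)) (abs_nonneg _) (by norm_num)
    linarith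
  rw [Metric.tendsto_atTop]
  intro ε hε
  obtain ⟨Na, hNa⟩ := cv_tail' u (4 + |L|) (by positivity) hub
    (fun a b ha hb => by
      obtain ⟨N0, hN0⟩ := key a b ha hb
      exact ⟨N0, fun N hN k hk => hN0 N hN k hk.le⟩) (ε / 4) (by positivity)
  obtain ⟨Nb, hNb⟩ := key (ε / 4) 1 (by positivity) one_pos
  refine ⟨max Na Nb + 1, fun N hN => ?_⟩
  obtain ⟨K, rfl⟩ : ∃ K, N = K + 1 := ⟨N - 1, by omega⟩
  have q1 := hNa K (by have := le_max_left Na Nb; omega)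
  have q2 := hNb K (by have := le_max_right Na Nb; omega) K le_rfl (by simp)
  rw [Real.dist_eq]
  push_cast
  have hid : UF F (K + 1) ⌊((K : ℝ) + 1) ^ c⌋₊ - L = (((K : ℝ) + 2) / ((K : ℝ) + 1)) / 2 * u K K +
      1 / ((K : ℝ) + 1) * ∑ k ∈ range K, u K k / 2 := by
    rw [cv_U F K _ (hM1 K)]
    have hs : ∑ k ∈ range K, u K k / 2 = ∑ k ∈ range K, ((k : ℝ) + 1) / ((k : ℝ) + 2) *
        (WF F (k + 1) ⌊((K : ℝ) + 1) ^ c⌋₊ / 2) - (K : ℝ) * (L / 2) := by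
      have : (K : ℝ) * (L / 2) = ∑ k ∈ range K, L / 2 := by simp
      rw [this, ← sum_sub_distrib]
      refine sum_congr rfl fun k _ => ?_
      simp only [hu]
      ring
    rw [hs]
    simp only [hu]
    have h1 : (K : ℝ) + 1 ≠ 0 := by positivity
    have h2 : (K : ℝ) + 2 ≠ 0 := by positivity
    field_simp
    ring
  rw [hid]
  have t1 : |1 / ((K : ℝ) + 1) * ∑ k ∈ range K, u K k / 2| ≤ ε / 4 := by
    refine le_trans ?_ q1
    rw [abs_mul, abs_of_nonneg (by positivity)]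
    refine mul_le_mul_of_nonneg_left ?_ (by positivity)
    refine (abs_sum_le_sum_abs _ _).trans (sum_le_sum fun k _ => ?_)
    rw [abs_div, abs_of_pos (by norm_num : (0 : ℝ) < 2)]
    linarith [abs_nonneg (u K k)]
  have t2 : |(((K : ℝ) + 2) / ((K : ℝ) + 1)) / 2 * u K K| ≤ ε / 4 := by
    rw [abs_mul, abs_of_nonneg (by positivity)]
    have h3 : (((K : ℝ) + 2) / ((K : ℝ) + 1)) / 2 ≤ 1 := by
      rw [div_div, div_le_one (by positivity)]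
      linarith [show (0 : ℝ) ≤ K by positivity]
    calc (((K : ℝ) + 2) / ((K : ℝ) + 1)) / 2 * |u K K| ≤ 1 * (ε / 4) :=
          mul_le_mul h3 q2 (abs_nonneg _) (by norm_num)
      _ = ε / 4 := one_mul _
  have t3 := abs_add_le ((((K : ℝ) + 2) / ((K : ℝ) + 1)) / 2 * u K K)
    (1 / ((K : ℝ) + 1) * ∑ k ∈ range K, u K k / 2)
  linarith

end Pool.Agent.BSR
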