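import Pool.Agent.BSR.StC
import Pool.Agent.BSR.Conv3

/-!
# BSR: final form of the results (helper44; adapted from `Pool.Agent.BSQ.Final`)
-/

set_option autoImplicit false

namespace Pool.Agent.BSR

open Finset MeasureTheory Filter Topology Pool.Agent.BSQ
open scoped BigOperators
open Classical

private theorem fir_norm {X : Type} [MeasurableSpace X] (μ : Measure X) (f : X → ℝ)
    (hf : MemLp f ⊤ μ) : ∃ (C : ℝ) (f' : X → ℝ), 1 ≤ C ∧ Measurable f' ∧ (∀ x, |f' x| ≤ 1) ∧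
      ∀ᵐ x ∂μ, f x = C * f' x := by
  set h0 := hf.1.mk f with hh0
  have hm : Measurable h0 := hf.1.stronglyMeasurable_mk.measurable
  have he : f =ᵐ[μ] h0 := hf.1.ae_eq_mk
  set C := max 1 (eLpNormEssSup f μ).toReal with hC
  have hfin : eLpNormEssSup f μ ≠ ⊤ := by
    have := hf.2
    rw [eLpNorm_exponent_top] at this
    exact this.ne
  have hb : ∀ᵐ x ∂μ, |f x| ≤ C := by
    filter_upwards [ae_le_eLpNormEssSup (f := f) (μ := μ)] with x hx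
    have h1 : ‖f x‖ ≤ (eLpNormEssSup f μ).toReal := by
      have h2 := ENNReal.toReal_mono hfin hx
      simpa using h2
    rw [Real.norm_eq_abs] at h1
    exact h1.trans (le_max_right _ _)
  have hC1 : 1 ≤ C := le_max_left _ _
  have hC0 : 0 < C := by linarith
  refine ⟨C, fun x => if |h0 x| ≤ C then h0 x / C else 0, hC1, ?_, ?_, ?_⟩
  · exact Measurable.ite (measurableSet_le (by fun_prop) measurable_const)
      (hm.div_const C) measurable_const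
  · intro x
    dsimp only
    split_ifs with h
    · rw [abs_div, abs_of_pos hC0, div_le_one hC0]
      exact h
    · simp
  · filter_upwards [he, hb] with x hx1 hx2
    rw [if_pos (by rw [← hx1]; exact hx2), ← hx1]
    field_simp

private theorem fir_orbit {X : Type} [MeasurableSpace X] (μ : Measure X) (T : X → X)
    (hT : MeasurePreserving T μ μ) (f h : X → ℝ) (hfh : ∀ᵐ x ∂μ, f x = h x) :
    ∀ᵐ x ∂μ, ∀ k : ℕ, f (T^[k] x) = h (T^[k] x) := by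
  refine ae_all_iff.2 fun k => ?_
  exact (hT.iterate k).quasiMeasurePreserving.ae hfh

/-- reduction to bounded sequences with the two comparison properties. -/
theorem fir_red (hAEN : St_AEN) (hCHM : St_CHM) (hAEC : St_AEC)
    (X : Type) [MeasurableSpace X] (μ : Measure X) [IsProbabilityMeasure μ]
    (T : X ≃ᵐ X) (hT : MeasurePreserving (⇑T) μ μ) (f g : X → ℝ) (hf : MemLp f ⊤ μ)
    (hg : MemLp g ⊤ μ) : ∀ᵐ x ∂μ, ∃ (C : ℝ) (F : ℕ → ℝ), 0 < C ∧ (∀ k, |F k| ≤ 1) ∧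
      (∀ k, FT T f g x k = C * F k) ∧
      (∀ c1 c2 : ℝ, 0 < c1 → c1 ≤ c2 → c2 < 1 → UnifW F c1 c2) ∧
      (∀ R j : ℕ, 1 ≤ R → j < R → Tendsto (fun N : ℕ => SF F R j N -
        WF F N ⌊(N : ℝ) ^ (7 / 8 : ℝ)⌋₊) atTop (𝓝 0)) := by
  obtain ⟨C, f', hC, hfm, hfb, hfe⟩ := fir_norm μ f hf
  obtain ⟨D, g', hD, hgm, hgb, hge⟩ := fir_norm μ g hg
  have hTs : MeasurePreserving (⇑T.symm) μ μ := hT.symm
  have o1 := fir_orbit μ (⇑T) hT f (fun x => C * f' x) hfe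
  have o2 := fir_orbit μ (⇑T.symm) hTs g (fun x => D * g' x) hge
  have hn : ∀ n : ℕ, (0 : ℝ) < 1 / ((n : ℝ) + 3) ∧ 1 / ((n : ℝ) + 3) < 1 / 2 := by
    intro n
    refine ⟨by positivity, ?_⟩
    rw [div_lt_div_iff₀ (by positivity) (by norm_num)]
    have : (0 : ℝ) ≤ n := Nat.cast_nonneg n
    linarith
  have hd := fun n : ℕ => hAEN (1 / ((n : ℝ) + 3)) (hn n).1 (hn n).2
  choose δ0 hδ0 hδ1 using hd
  have u1 : ∀ᵐ x ∂μ, ∀ (n : ℕ) (q1 q2 : ℚ), 1 / ((n : ℝ) + 3) ≤ q1 → (q1 : ℝ) ≤ q2 →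
      (q2 : ℝ) ≤ 1 - 1 / ((n : ℝ) + 3) → (q2 : ℝ) - q1 ≤ δ0 n → UnifW (FT T f' g' x) q1 q2 := by
    refine ae_all_iff.2 fun n => ae_all_iff.2 fun q1 => ae_all_iff.2 fun q2 => ?_
    by_cases h : 1 / ((n : ℝ) + 3) ≤ q1 ∧ (q1 : ℝ) ≤ q2 ∧ (q2 : ℝ) ≤ 1 - 1 / ((n : ℝ) + 3) ∧
        (q2 : ℝ) - q1 ≤ δ0 n
    · filter_upwards [hδ1 n X μ T hT f' g' hfm hgm hfb hgb q1 q2 h.1 h.2.1 h.2.2.1 h.2.2.2] with x hx
      intro _ _ _ _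
      exact hx
    · refine Filter.Eventually.of_forall fun x a1 a2 a3 a4 => absurd ⟨a1, a2, a3, a4⟩ h
  have u2 := hAEC X μ T hT f' g' hfm hgm hfb hgb
  filter_upwards [o1, o2, u1, u2] with x hx1 hx2 hx3 hx4
  refine ⟨C * D, FT T f' g' x, by positivity, ?_, ?_, hCHM _ δ0 hδ0 hx3, fun R j hR hj => hx4 R j hR hj⟩
  · intro k
    unfold FT
    rw [abs_mul]
    exact mul_le_one₀ (hfb _) (abs_nonneg _) (hgb _)
  · intro k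
    unfold FT
    rw [hx1 k, hx2 k]
    ring

/-- deterministic form: all exponents in `(0, 1]` are equivalent. -/
theorem fir_det (hDFN : St_DFN) (hDBR : St_DBR) (F : ℕ → ℝ) (hF : ∀ k, |F k| ≤ 1)
    (hW : ∀ c1 c2 : ℝ, 0 < c1 → c1 ≤ c2 → c2 < 1 → UnifW F c1 c2)
    (hS : ∀ R j : ℕ, 1 ≤ R → j < R → Tendsto (fun N : ℕ => SF F R j N -
        WF F N ⌊(N : ℝ) ^ (7 / 8 : ℝ)⌋₊) atTop (𝓝 0))
    (c c' : ℝ) (hc : 0 < c) (hc1 : c ≤ 1) (hc' : 0 < c') (hc1' : c' ≤ 1) (L : ℝ)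
    (hL : Tendsto (fun N : ℕ => AF F c N) atTop (𝓝 L)) :
    Tendsto (fun N : ℕ => AF F c' N) atTop (𝓝 L) := by
  have hU := cr_unifU F hF hW
  have hw : Tendsto (fun N : ℕ => WF F N ⌊(N : ℝ) ^ (7 / 8 : ℝ)⌋₊) atTop (𝓝 L) := by
    rcases hc1.lt_or_eq with h | h
    · exact cr_conv F hF hU c hc h L ((c2_iff F c (by linarith) L).1 hL)
    · subst h
      exact hDFN F hF hS L (hL.congr fun N => fin_one F N)
  rcases hc1'.lt_or_eq with h | h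
  · exact (c2_iff F c' (by linarith) L).2 (cr_two F hF hW L hw c' hc' h)
  · subst h
    exact (c2_square hDBR F hF hS L hw).congr fun N => (fin_one F N).symm

/-- **Theorem A.** -/
theorem fir_A (hAEN : St_AEN) (hCHM : St_CHM) (hAEC : St_AEC) (hDFN : St_DFN)
    (hDBR : St_DBR) (X : Type) [MeasurableSpace X] (μ : Measure X) [IsProbabilityMeasure μ]
    (T : X ≃ᵐ X) (hT : MeasurePreserving (⇑T) μ μ) (f g : X → ℝ) (hf : MemLp f ⊤ μ)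
    (hg : MemLp g ⊤ μ) : ∀ᵐ x ∂μ, ∀ c c' : ℝ, 0 < c → c ≤ 1 → 0 < c' → c' ≤ 1 → ∀ L : ℝ,
      Tendsto (fun N : ℕ => 1 / (N : ℝ) ^ (1 + c) * ∑ n ∈ Icc 1 N, ∑ m ∈ Icc 1 ⌊(N : ℝ) ^ c⌋₊,
        f ((⇑T)^[n ^ 2 + m ^ 2] x) * g ((⇑T.symm)^[n ^ 2 + m ^ 2] x)) atTop (𝓝 L) →
      Tendsto (fun N : ℕ => 1 / (N : ℝ) ^ (1 + c') * ∑ n ∈ Icc 1 N, ∑ m ∈ Icc 1 ⌊(N : ℝ) ^ c'⌋₊,
        f ((⇑T)^[n ^ 2 + m ^ 2] x) * g ((⇑T.symm)^[n ^ 2 + m ^ 2] x)) atTop (𝓝 L) := by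
  filter_upwards [fir_red hAEN hCHM hAEC X μ T hT f g hf hg] with x hx
  obtain ⟨C, F, hC, hF, hFT, hW, hS⟩ := hx
  intro c c' hc hc1 hc' hc1' L hL
  have hA : ∀ (b : ℝ) (N : ℕ), 1 / (N : ℝ) ^ (1 + b) * ∑ n ∈ Icc 1 N, ∑ m ∈ Icc 1 ⌊(N : ℝ) ^ b⌋₊,
        f ((⇑T)^[n ^ 2 + m ^ 2] x) * g ((⇑T.symm)^[n ^ 2 + m ^ 2] x) = C * AF F b N := by
    intro b N
    unfold AF
    have h1 : ∀ n m : ℕ, f ((⇑T)^[n ^ 2 + m ^ 2] x) * g ((⇑T.symm)^[n ^ 2 + m ^ 2] x) =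
        C * F (n ^ 2 + m ^ 2) := fun n m => hFT (n ^ 2 + m ^ 2)
    simp only [h1, ← Finset.mul_sum]
    ring
  have h1 : Tendsto (fun N : ℕ => AF F c N) atTop (𝓝 (L / C)) := by
    refine (hL.div_const C).congr fun N => ?_
    rw [hA]
    field_simp
  have h2 := (fir_det hDFN hDBR F hF hW hS c c' hc hc1 hc' hc1' (L / C) h1).const_mul C
  rw [show C * (L / C) = L by field_simp] at h2
  exact h2.congr fun N => (hA c' N).symm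

/-- **Theorem B.** -/
theorem fir_B (hAEN : St_AEN) (hCHM : St_CHM) (hAEC : St_AEC) (X : Type) [MeasurableSpace X]
    (μ : Measure X) [IsProbabilityMeasure μ]
    (T : X ≃ᵐ X) (hT : MeasurePreserving (⇑T) μ μ) (f g : X → ℝ) (hf : MemLp f ⊤ μ)
    (hg : MemLp g ⊤ μ) : ∀ᵐ x ∂μ, ∀ c1 c2 : ℝ, 0 < c1 → c1 ≤ c2 → c2 < 1 → ∀ ε : ℝ, 0 < ε →
      ∃ N0 : ℕ, ∀ N : ℕ, N0 ≤ N → ∀ M M' : ℕ, (N : ℝ) ^ c1 ≤ M → (M : ℝ) ≤ (N : ℝ) ^ c2 →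
        (N : ℝ) ^ c1 ≤ M' → (M' : ℝ) ≤ (N : ℝ) ^ c2 →
      |1 / ((N : ℝ) * M) * ∑ n ∈ Icc 1 N, ∑ m ∈ Icc 1 M,
        f ((⇑T)^[n ^ 2 + m ^ 2] x) * g ((⇑T.symm)^[n ^ 2 + m ^ 2] x) -
       1 / ((N : ℝ) * M') * ∑ n ∈ Icc 1 N, ∑ m ∈ Icc 1 M',
        f ((⇑T)^[n ^ 2 + m ^ 2] x) * g ((⇑T.symm)^[n ^ 2 + m ^ 2] x)| ≤ ε := by
  filter_upwards [fir_red hAEN hCHM hAEC X μ T hT f g hf hg] with x hx
  obtain ⟨C, F, hC, hF, hFT, hW, hS⟩ := hx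
  intro c1 c2 hc1 hc12 hc2 ε hε
  have hU := cr_unifU F hF hW c1 c2 hc1 hc12 hc2
  obtain ⟨N0, hN0⟩ := hU (ε / C) (by positivity)
  refine ⟨N0, fun N hN M M' h1 h2 h3 h4 => ?_⟩
  have hA : ∀ M : ℕ, 1 / ((N : ℝ) * M) * ∑ n ∈ Icc 1 N, ∑ m ∈ Icc 1 M,
        f ((⇑T)^[n ^ 2 + m ^ 2] x) * g ((⇑T.symm)^[n ^ 2 + m ^ 2] x) = C * UF F N M := by
    intro M
    unfold UF
    have h1 : ∀ n m : ℕ, f ((⇑T)^[n ^ 2 + m ^ 2] x) * g ((⇑T.symm)^[n ^ 2 + m ^ 2] x) =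
        C * F (n ^ 2 + m ^ 2) := fun n m => hFT (n ^ 2 + m ^ 2)
    simp only [h1, ← Finset.mul_sum]
    ring
  rw [hA, hA, ← mul_sub, abs_mul, abs_of_pos hC]
  have h5 := hN0 N hN M M' h1 h2 h3 h4
  rw [le_div_iff₀ hC] at h5
  linarith

end Pool.Agent.BSR
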