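import Pool.Agent.BSR.StB

/-!
# BSR, module KL: Kusmin-Landau with weights, by summation by parts
-/

set_option autoImplicit false

namespace Pool.Agent.BSR

open Finset MeasureTheory Filter Topology Pool.Agent.BSQ
open scoped BigOperators
open Classical

private theorem kl_add (s t : ℝ) : ee (s + t) = ee s * ee t := by
  unfold ee
  rw [← Complex.exp_add]
  congr 1
  push_cast
  ring

private theorem kl_norm (t : ℝ) : ‖ee t‖ = 1 := by
  unfold ee
  exact Complex.norm_exp_ofReal_mul_I _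

private theorem kl_int (z : ℤ) : ee (z : ℝ) = 1 := by
  unfold ee
  rw [Complex.exp_eq_one_iff]
  refine ⟨z, ?_⟩
  push_cast
  ring

private theorem kl_form (x : ℝ) : ee x = Complex.exp (Complex.I * ((2 * Real.pi * x : ℝ) : ℂ)) := by
  unfold ee
  rw [mul_comm]

private theorem kl_sub_one (t : ℝ) : 4 * dI t ≤ ‖ee t - 1‖ := by
  have h1 : ee t = ee (t - round t) := by
    have h2 : t = (t - round t) + (round t : ℤ) := by ring
    conv_lhs => rw [h2]
    rw [kl_add, kl_int, mul_one]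
  rw [h1]
  unfold dI
  have h3 : |t - round t| ≤ 1 / 2 := abs_sub_round t
  set x := t - round t
  rw [kl_form, Complex.norm_exp_I_mul_ofReal_sub_one]
  have h5 : 2 * Real.pi * x / 2 = Real.pi * x := by ring
  rw [h5, norm_mul, Real.norm_eq_abs, Real.norm_eq_abs, abs_two]
  have h6 : |Real.pi * x| ≤ Real.pi / 2 := by
    rw [abs_mul, abs_of_pos Real.pi_pos]
    have := mul_le_mul_of_nonneg_left h3 Real.pi_pos.le
    linarith
  have h7 := Real.mul_abs_le_abs_sin h6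
  rw [abs_mul, abs_of_pos Real.pi_pos] at h7
  have h8 : 2 / Real.pi * (Real.pi * |x|) = 2 * |x| := by
    field_simp
  rw [h8] at h7
  linarith

private theorem kl_lip (s t : ℝ) : ‖ee s - ee t‖ ≤ 2 * Real.pi * |s - t| := by
  have h1 : ee s - ee t = ee t * (ee (s - t) - 1) := by
    rw [mul_sub, ← kl_add, mul_one]
    congr 2
    ring
  rw [h1, norm_mul, kl_norm, one_mul, kl_form]
  refine (Real.norm_exp_I_mul_ofReal_sub_one_le).trans ?_
  rw [Real.norm_eq_abs, abs_mul, abs_mul, abs_two, abs_of_pos Real.pi_pos]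

/-- summation by parts -/
private theorem kl_parts (u E : ℕ → ℂ) (hE : ∀ ν, ‖E ν‖ = 1) (K : ℕ) :
    ‖(∑ ν ∈ range (K + 1), u ν * (E ν - E (ν + 1))) + u K * E (K + 1)‖ ≤
      ‖u 0‖ + ∑ ν ∈ range K, ‖u (ν + 1) - u ν‖ := by
  induction K with
  | zero =>
    rw [Finset.sum_range_succ, Finset.range_zero, Finset.sum_empty, Finset.sum_empty]
    have h : 0 + u 0 * (E 0 - E (0 + 1)) + u 0 * E (0 + 1) = u 0 * E 0 := by ring
    rw [h, norm_mul, hE, mul_one, add_zero]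
  | succ K ih =>
    have h : (∑ ν ∈ range (K + 1 + 1), u ν * (E ν - E (ν + 1))) + u (K + 1) * E (K + 1 + 1) =
        ((∑ ν ∈ range (K + 1), u ν * (E ν - E (ν + 1))) + u K * E (K + 1)) +
          (u (K + 1) - u K) * E (K + 1) := by
      rw [Finset.sum_range_succ (fun ν => u ν * (E ν - E (ν + 1))) (K + 1)]
      ring
    rw [h, Finset.sum_range_succ (fun ν => ‖u (ν + 1) - u ν‖) K]
    refine (norm_add_le _ _).trans ?_
    rw [norm_mul, hE, mul_one]
    linarith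

private theorem kl_inv (x δ : ℝ) (hδ : 0 < δ) (h : δ ≤ dI x) :
    1 - ee x ≠ 0 ∧ ‖(1 - ee x)⁻¹‖ ≤ 1 / (4 * δ) := by
  have h1 : 4 * δ ≤ ‖1 - ee x‖ := by
    rw [norm_sub_rev]
    linarith [kl_sub_one x]
  have h2 : 0 < ‖1 - ee x‖ := by linarith
  refine ⟨norm_pos_iff.1 h2, ?_⟩
  rw [norm_inv, one_div]
  exact inv_anti₀ (by linarith) h1

private theorem kl_inv2 (x y δ : ℝ) (hδ : 0 < δ) (hx : δ ≤ dI x) (hy : δ ≤ dI y) :
    ‖(1 - ee y)⁻¹ - (1 - ee x)⁻¹‖ ≤ 2 * Real.pi * |y - x| * (1 / (4 * δ)) ^ 2 := by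
  obtain ⟨hx0, hx1⟩ := kl_inv x δ hδ hx
  obtain ⟨hy0, hy1⟩ := kl_inv y δ hδ hy
  have h1 : (1 - ee y)⁻¹ - (1 - ee x)⁻¹ = (ee y - ee x) * ((1 - ee y)⁻¹ * (1 - ee x)⁻¹) := by
    field_simp
    ring
  rw [h1, norm_mul, norm_mul]
  have h2 := kl_lip y x
  have h3 : ‖(1 - ee y)⁻¹‖ * ‖(1 - ee x)⁻¹‖ ≤ (1 / (4 * δ)) ^ 2 := by
    rw [pow_two]
    exact mul_le_mul hy1 hx1 (norm_nonneg _) (by positivity)
  exact mul_le_mul h2 h3 (by positivity) (by positivity)

theorem thm_KL : St_KL := by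
  intro K n φ N δ hδ hn hmono hdI hvar
  have hN : 0 ≤ N := (hn 0).1.trans (hn 0).2
  rcases K with _ | K
  · simp only [Finset.range_zero, Finset.sum_empty, norm_zero]
    positivity
  simp only [Nat.add_sub_cancel] at hvar
  set g : ℕ → ℝ := fun ν => φ (ν + 1) - φ ν with hg
  set C : ℕ → ℂ := fun ν => (1 - ee (g ν))⁻¹ with hC
  set u : ℕ → ℂ := fun ν => (n ν : ℂ) * C ν with hu
  set E : ℕ → ℂ := fun ν => ee (φ ν) with hE
  have hE1 : ∀ ν, ‖E ν‖ = 1 := fun ν => kl_norm _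
  have hCb : ∀ ν, ν < K + 1 → ‖C ν‖ ≤ 1 / (4 * δ) := fun ν hν => (kl_inv _ δ hδ (hdI ν hν)).2
  have hterm : ∀ ν, ν < K + 1 → (n ν : ℂ) * ee (φ ν) = u ν * (E ν - E (ν + 1)) := by
    intro ν hν
    have h1 : E (ν + 1) = E ν * ee (g ν) := by
      show ee (φ (ν + 1)) = ee (φ ν) * ee (φ (ν + 1) - φ ν)
      rw [← kl_add]
      congr 1
      ring
    have h2 : 1 - ee (g ν) ≠ 0 := (kl_inv _ δ hδ (hdI ν hν)).1
    have h3 : C ν * (1 - ee (g ν)) = 1 := inv_mul_cancel₀ h2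
    rw [h1]
    show (n ν : ℂ) * E ν = (n ν : ℂ) * C ν * (E ν - E ν * ee (g ν))
    calc (n ν : ℂ) * E ν = (n ν : ℂ) * E ν * (C ν * (1 - ee (g ν))) := by rw [h3, mul_one]
      _ = _ := by ring
  have hub : ∀ ν, ν < K + 1 → ‖u ν‖ ≤ N * (1 / (4 * δ)) := by
    intro ν hν
    show ‖(n ν : ℂ) * C ν‖ ≤ _
    rw [norm_mul, Complex.norm_real, Real.norm_eq_abs, abs_of_nonneg (hn ν).1]
    exact mul_le_mul (hn ν).2 (hCb ν hν) (norm_nonneg _) hN
  have hstep : ∀ ν, ν < K → ‖u (ν + 1) - u ν‖ ≤ (n (ν + 1) - n ν) * (1 / (4 * δ)) +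
      N * (2 * Real.pi * |g (ν + 1) - g ν| * (1 / (4 * δ)) ^ 2) := by
    intro ν hν
    have h1 : u (ν + 1) - u ν = ((n (ν + 1) - n ν : ℝ) : ℂ) * C (ν + 1) +
        (n ν : ℂ) * (C (ν + 1) - C ν) := by
      show (n (ν + 1) : ℂ) * C (ν + 1) - (n ν : ℂ) * C ν = _
      push_cast
      ring
    rw [h1]
    refine (norm_add_le _ _).trans ?_
    rw [norm_mul, norm_mul, Complex.norm_real, Complex.norm_real, Real.norm_eq_abs,
      Real.norm_eq_abs, abs_of_nonneg (hn ν).1]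
    have h2 : n ν ≤ n (ν + 1) := hmono ν (by omega)
    rw [abs_of_nonneg (sub_nonneg.2 h2)]
    refine add_le_add ?_ ?_
    · exact mul_le_mul_of_nonneg_left (hCb _ (by omega)) (sub_nonneg.2 h2)
    · exact mul_le_mul (hn ν).2 (kl_inv2 _ _ δ hδ (hdI ν (by omega)) (hdI (ν + 1) (by omega)))
        (norm_nonneg _) hN
  have hsum : ∑ ν ∈ range K, ‖u (ν + 1) - u ν‖ ≤ N * (1 / (4 * δ)) +
      N * (2 * Real.pi * δ * (1 / (4 * δ)) ^ 2) := by
    have h1 : ∑ ν ∈ range K, ‖u (ν + 1) - u ν‖ ≤ ∑ ν ∈ range K,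
        ((n (ν + 1) - n ν) * (1 / (4 * δ)) +
        N * (2 * Real.pi * |g (ν + 1) - g ν| * (1 / (4 * δ)) ^ 2)) :=
      Finset.sum_le_sum fun ν hν => hstep ν (Finset.mem_range.1 hν)
    refine h1.trans ?_
    rw [Finset.sum_add_distrib, ← Finset.sum_mul, Finset.sum_range_sub]
    refine add_le_add ?_ ?_
    · refine mul_le_mul_of_nonneg_right ?_ (by positivity)
      linarith [(hn K).2, (hn 0).1]
    · rw [← Finset.mul_sum, ← Finset.sum_mul, ← Finset.mul_sum]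
      refine mul_le_mul_of_nonneg_left ?_ hN
      refine mul_le_mul_of_nonneg_right ?_ (by positivity)
      exact mul_le_mul_of_nonneg_left hvar (by positivity)
  have hmain : ∑ ν ∈ range (K + 1), (n ν : ℂ) * ee (φ ν) =
      ((∑ ν ∈ range (K + 1), u ν * (E ν - E (ν + 1))) + u K * E (K + 1)) - u K * E (K + 1) := by
    rw [add_sub_cancel_right]
    exact Finset.sum_congr rfl fun ν hν => hterm ν (Finset.mem_range.1 hν)
  rw [hmain]
  refine (norm_sub_le _ _).trans ?_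
  rw [norm_mul (u K), hE1, mul_one]
  have h1 := kl_parts u E hE1 K
  have h2 := hub K (by omega)
  have h3 := hub 0 (by omega)
  have h4 : N * (2 * Real.pi * δ * (1 / (4 * δ)) ^ 2) ≤ N / δ := by
    have h5 : 2 * Real.pi * δ * (1 / (4 * δ)) ^ 2 = Real.pi / 8 * (1 / δ) := by
      field_simp
      ring
    rw [h5, div_eq_mul_one_div N δ]
    refine mul_le_mul_of_nonneg_left ?_ hN
    have h6 : Real.pi / 8 ≤ 1 := by linarith [Real.pi_le_four]
    have h7 : 0 ≤ 1 / δ := by positivity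
    nlinarith
  have h5 : N * (1 / (4 * δ)) = N / δ / 4 := by
    field_simp
  have h6 : 2 * N / δ = 2 * (N / δ) := by ring
  have h7 : 0 ≤ N / δ := by positivity
  rw [h5] at h2 h3 hsum
  rw [h6]
  linarith

end Pool.Agent.BSR
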