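import Pool.Agent.BSR.StB

/-!
# BSR LEV: a polynomial close to integers on a large set is close to one integer on an interval
-/

set_option autoImplicit false

namespace Pool.Agent.BSR

open Finset MeasureTheory Filter Topology Pool.Agent.BSQ
open scoped BigOperators
open Classical

/-- a polynomial without zeros in an open interval has constant sign there -/
private theorem lev_sign (q : Polynomial ℝ) (a b : ℝ)
    (h : ∀ x, a < x → x < b → x ∉ q.roots.toFinset) :
    (∀ x, a < x → x < b → 0 ≤ q.eval x) ∨ (∀ x, a < x → x < b → q.eval x ≤ 0) := by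
  by_cases hq : q = 0
  · left
    intro x _ _
    rw [hq, Polynomial.eval_zero]
  by_contra hcon
  rw [not_or] at hcon
  obtain ⟨h1, h2⟩ := hcon
  push Not at h1 h2
  obtain ⟨x, hx1, hx2, hx⟩ := h1
  obtain ⟨y, hy1, hy2, hy⟩ := h2
  have h3 := (isPreconnected_Ioo (a := a) (b := b)).intermediate_value ⟨hx1, hx2⟩ ⟨hy1, hy2⟩
    q.continuous.continuousOn
  obtain ⟨z, hz, hz0⟩ := h3 ⟨hx.le, hy.le⟩
  refine h z hz.1 hz.2 ?_
  rw [Multiset.mem_toFinset, Polynomial.mem_roots hq]
  exact hz0

/-- the cut points -/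
private noncomputable def levZ (p : Polynomial ℝ) : Finset ℝ :=
  p.derivative.roots.toFinset ∪ p.derivative.derivative.roots.toFinset

private theorem levZ_card (p : Polynomial ℝ) : (levZ p).card ≤ 2 * p.natDegree := by
  have h1 : p.derivative.roots.toFinset.card ≤ p.natDegree :=
    ((Multiset.toFinset_card_le _).trans (Polynomial.card_roots' _)).trans
      ((Polynomial.natDegree_derivative_le p).trans (Nat.sub_le _ _))
  have h2 : p.derivative.derivative.roots.toFinset.card ≤ p.natDegree :=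
    ((Multiset.toFinset_card_le _).trans (Polynomial.card_roots' _)).trans
      (((Polynomial.natDegree_derivative_le _).trans (Nat.sub_le _ _)).trans
        ((Polynomial.natDegree_derivative_le p).trans (Nat.sub_le _ _)))
  have h3 := Finset.card_union_le p.derivative.roots.toFinset p.derivative.derivative.roots.toFinset
  unfold levZ
  omega

private theorem lev_deriv (p : Polynomial ℝ) : deriv (fun x => p.eval x) = fun x => p.derivative.eval x := by
  funext x
  exact p.deriv

private theorem lev_mono (p : Polynomial ℝ) (a b : ℝ)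
    (h : ∀ x, a < x → x < b → x ∉ levZ p) :
    (MonotoneOn (fun x => p.eval x) (Set.Icc a b) ∨ AntitoneOn (fun x => p.eval x) (Set.Icc a b)) ∧
    (ConvexOn ℝ (Set.Icc a b) (fun x => p.eval x) ∨
      ConcaveOn ℝ (Set.Icc a b) (fun x => p.eval x)) := by
  have hc : ContinuousOn (fun x => p.eval x) (Set.Icc a b) := p.continuous.continuousOn
  have hd : DifferentiableOn ℝ (fun x => p.eval x) (interior (Set.Icc a b)) :=
    p.differentiable.differentiableOn
  have hd2 : DifferentiableOn ℝ (deriv fun x => p.eval x) (interior (Set.Icc a b)) := by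
    rw [lev_deriv]
    exact p.derivative.differentiable.differentiableOn
  have e2 : (deriv^[2] fun x => p.eval x) = fun x => p.derivative.derivative.eval x := by
    rw [Function.iterate_succ, Function.iterate_one, Function.comp_apply, lev_deriv, lev_deriv]
  constructor
  · rcases lev_sign p.derivative a b (fun x h1 h2 h3 => h x h1 h2 (Finset.mem_union_left _ h3))
      with h1 | h1
    · left
      refine monotoneOn_of_deriv_nonneg (convex_Icc a b) hc hd fun x hx => ?_
      rw [interior_Icc] at hx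
      rw [lev_deriv]
      exact h1 x hx.1 hx.2
    · right
      refine antitoneOn_of_deriv_nonpos (convex_Icc a b) hc hd fun x hx => ?_
      rw [interior_Icc] at hx
      rw [lev_deriv]
      exact h1 x hx.1 hx.2
  · rcases lev_sign p.derivative.derivative a b
      (fun x h1 h2 h3 => h x h1 h2 (Finset.mem_union_right _ h3)) with h1 | h1
    · left
      refine convexOn_of_deriv2_nonneg (convex_Icc a b) hc hd hd2 fun x hx => ?_
      rw [interior_Icc] at hx
      rw [e2]
      exact h1 x hx.1 hx.2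
    · right
      refine concaveOn_of_deriv2_nonpos (convex_Icc a b) hc hd hd2 fun x hx => ?_
      rw [interior_Icc] at hx
      rw [e2]
      exact h1 x hx.1 hx.2

/-- the number of cut points between `a` and `b` -/
private noncomputable def levN (p : Polynomial ℝ) (a b : ℝ) : ℕ :=
  ((levZ p).filter fun x => a < x ∧ x < b).card

private theorem levN_split (p : Polynomial ℝ) (a b z : ℝ) (hz : z ∈ levZ p) (h1 : a < z)
    (h2 : z < b) : levN p a z + levN p z b + 1 ≤ levN p a b := by
  unfold levN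
  have hd : Disjoint ((levZ p).filter fun x => a < x ∧ x < z)
      ((levZ p).filter fun x => z < x ∧ x < b) := by
    rw [Finset.disjoint_left]
    intro x hx hx'
    rw [Finset.mem_filter] at hx hx'
    exact absurd (hx.2.2.trans hx'.2.1) (lt_irrefl _)
  have hz' : z ∉ ((levZ p).filter fun x => a < x ∧ x < z) ∪
      ((levZ p).filter fun x => z < x ∧ x < b) := by
    rw [Finset.mem_union, Finset.mem_filter, Finset.mem_filter]
    rintro (h | h)
    · exact absurd h.2.2 (lt_irrefl _)
    · exact absurd h.2.1 (lt_irrefl _)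
  rw [← Finset.card_union_of_disjoint hd, ← Finset.card_insert_of_notMem hz']
  refine Finset.card_le_card fun x hx => ?_
  rw [Finset.mem_insert, Finset.mem_union, Finset.mem_filter, Finset.mem_filter] at hx
  rw [Finset.mem_filter]
  rcases hx with rfl | ⟨h, h3, h4⟩ | ⟨h, h3, h4⟩
  · exact ⟨hz, h1, h2⟩
  · exact ⟨h, h3, h4.trans h2⟩
  · exact ⟨h, h1.trans h3, h4⟩

/-- the pieces -/
private def LevC (p : Polynomial ℝ) (η a b : ℝ) (n : ℕ) : Prop :=
  ∃ T : Finset (ℝ × ℝ × ℤ), T.card ≤ n + 1 ∧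
    (∀ t ∈ T, a ≤ t.1 ∧ t.2.1 ≤ b ∧ ∀ x : ℝ, t.1 ≤ x → x ≤ t.2.1 → |p.eval x - t.2.2| ≤ η) ∧
    volume {x : ℝ | a ≤ x ∧ x ≤ b ∧ dI (p.eval x) ≤ η ∧ ∀ t ∈ T, ¬ (t.1 ≤ x ∧ x ≤ t.2.1)} ≤
      ENNReal.ofReal (4 * η * (b - a))

private theorem lev_claim (hC : St_LEVC) (p : Polynomial ℝ) (η : ℝ) (hη : 0 < η) (hη' : η ≤ 1 / 8) :
    ∀ (n : ℕ) (a b : ℝ), a ≤ b → levN p a b = n → LevC p η a b n := by
  intro n
  induction n using Nat.strong_induction_on with
  | _ n ih =>
    intro a b hab hn
    by_cases h : ∀ x, a < x → x < b → x ∉ levZ p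
    · obtain ⟨h1, h2⟩ := lev_mono p a b h
      obtain ⟨u, v, m, hu, hv, hm, hvol⟩ := hC (fun x => p.eval x) a b η hab
        p.continuous.continuousOn h1 h2 hη hη'
      refine ⟨{(u, v, m)}, ?_, ?_, ?_⟩
      · rw [Finset.card_singleton]
        omega
      · intro t ht
        rw [Finset.mem_singleton] at ht
        rw [ht]
        exact ⟨hu, hv, hm⟩
      · refine (measure_mono ?_).trans hvol
        rintro x ⟨hx1, hx2, hx3, hx4⟩
        exact ⟨hx1, hx2, hx3, hx4 _ (Finset.mem_singleton_self _)⟩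
    · push Not at h
      obtain ⟨z, hz1, hz2, hz⟩ := h
      have hs := levN_split p a b z hz hz1 hz2
      obtain ⟨T1, hT1, hT1', hT1''⟩ := ih (levN p a z) (by omega) a z hz1.le rfl
      obtain ⟨T2, hT2, hT2', hT2''⟩ := ih (levN p z b) (by omega) z b hz2.le rfl
      refine ⟨T1 ∪ T2, ?_, ?_, ?_⟩
      · have := Finset.card_union_le T1 T2
        omega
      · intro t ht
        rw [Finset.mem_union] at ht
        rcases ht with ht | ht
        · obtain ⟨h1, h2, h3⟩ := hT1' t ht
          exact ⟨h1, h2.trans hz2.le, h3⟩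
        · obtain ⟨h1, h2, h3⟩ := hT2' t ht
          exact ⟨hz1.le.trans h1, h2, h3⟩
      · have e : ENNReal.ofReal (4 * η * (b - a)) =
            ENNReal.ofReal (4 * η * (z - a)) + ENNReal.ofReal (4 * η * (b - z)) := by
          rw [← ENNReal.ofReal_add (mul_nonneg (by positivity) (by linarith))
            (mul_nonneg (by positivity) (by linarith))]
          congr 1
          ring
        rw [e]
        refine (measure_mono ?_).trans ((measure_union_le _ _).trans (add_le_add hT1'' hT2''))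
        rintro x ⟨hx1, hx2, hx3, hx4⟩
        rcases le_total x z with hxz | hxz
        · left
          exact ⟨hx1, hxz, hx3, fun t ht => hx4 t (Finset.mem_union_left _ ht)⟩
        · right
          exact ⟨hxz, hx2, hx3, fun t ht => hx4 t (Finset.mem_union_right _ ht)⟩

theorem thm_LEV (hC : St_LEVC) : St_LEV := by
  intro p a b η G hab hη hη' hG hGs hGd hGv hG0
  obtain ⟨T, hTc, hT, hTv⟩ := lev_claim hC p η hη hη' (levN p a b) a b hab rfl
  have hTc' : T.card ≤ 2 * (p.natDegree + 1) := by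
    have h1 : levN p a b ≤ (levZ p).card := Finset.card_filter_le _ _
    have h2 := levZ_card p
    omega
  have hfin : volume G ≠ ⊤ := ((measure_mono hGs).trans_lt (by
    rw [Real.volume_Icc]
    exact ENNReal.ofReal_lt_top)).ne
  by_contra hcon
  push Not at hcon
  -- every piece is small
  have hpc : ∀ t ∈ T, ENNReal.ofReal (8 * (p.natDegree + 1)) * volume (G ∩ Set.Icc t.1 t.2.1) ≤
      volume G := by
    intro t ht
    obtain ⟨h1, h2, h3⟩ := hT t ht
    by_cases huv : t.1 ≤ t.2.1
    · exact (hcon t.1 t.2.1 t.2.2 h1 huv h2 h3).le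
    · rw [Set.Icc_eq_empty huv, Set.inter_empty, measure_empty, mul_zero]
      exact zero_le
  have hcov : volume G ≤ ENNReal.ofReal (4 * η * (b - a)) +
      ∑ t ∈ T, volume (G ∩ Set.Icc t.1 t.2.1) := by
    have hsub : G ⊆ {x : ℝ | a ≤ x ∧ x ≤ b ∧ dI (p.eval x) ≤ η ∧
        ∀ t ∈ T, ¬ (t.1 ≤ x ∧ x ≤ t.2.1)} ∪ ⋃ t ∈ T, (G ∩ Set.Icc t.1 t.2.1) := by
      intro x hx
      by_cases h : ∀ t ∈ T, ¬ (t.1 ≤ x ∧ x ≤ t.2.1)
      · left
        exact ⟨(hGs hx).1, (hGs hx).2, hGd x hx, h⟩
      · right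
        push Not at h
        obtain ⟨t, ht, h1, h2⟩ := h
        exact Set.mem_biUnion ht ⟨hx, h1, h2⟩
    exact (measure_mono hsub).trans ((measure_union_le _ _).trans
      (add_le_add hTv (measure_biUnion_finset_le T _)))
  have hf2 : ∀ t : ℝ × ℝ × ℤ, volume (G ∩ Set.Icc t.1 t.2.1) ≠ ⊤ := fun t =>
    ((measure_mono Set.inter_subset_left).trans_lt hfin.lt_top).ne
  -- real numbers
  obtain ⟨g, hg⟩ : ∃ g : ℝ, g = (volume G).toReal := ⟨_, rfl⟩
  have hg0 : 0 < g := by
    rw [hg]
    exact ENNReal.toReal_pos hG0.ne' hfin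
  have h0 : 0 ≤ 4 * η * (b - a) := mul_nonneg (by positivity) (by linarith)
  have r1 : 16 * η * (b - a) ≤ g := by
    rw [hg]
    exact (ENNReal.ofReal_le_iff_le_toReal hfin).1 hGv
  have r2 : ∀ t ∈ T, (8 * ((p.natDegree : ℝ) + 1)) * (volume (G ∩ Set.Icc t.1 t.2.1)).toReal ≤
      g := by
    intro t ht
    have h1 := ENNReal.toReal_mono hfin (hpc t ht)
    rw [ENNReal.toReal_mul, ENNReal.toReal_ofReal (by positivity)] at h1
    rw [hg]
    exact h1
  have r3 : g ≤ 4 * η * (b - a) + ∑ t ∈ T, (volume (G ∩ Set.Icc t.1 t.2.1)).toReal := by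
    have hs : ∑ t ∈ T, volume (G ∩ Set.Icc t.1 t.2.1) ≠ ⊤ :=
      (ENNReal.sum_lt_top.2 fun t _ => (hf2 t).lt_top).ne
    have h1 := ENNReal.toReal_mono (ENNReal.add_ne_top.2 ⟨ENNReal.ofReal_ne_top, hs⟩) hcov
    rw [ENNReal.toReal_add ENNReal.ofReal_ne_top hs, ENNReal.toReal_ofReal h0,
      ENNReal.toReal_sum fun t _ => hf2 t] at h1
    rw [hg]
    exact h1
  have r4 : (8 * ((p.natDegree : ℝ) + 1)) *
      ∑ t ∈ T, (volume (G ∩ Set.Icc t.1 t.2.1)).toReal ≤ T.card * g := by
    rw [Finset.mul_sum, ← nsmul_eq_mul, ← Finset.sum_const]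
    exact Finset.sum_le_sum r2
  have r5 : (T.card : ℝ) ≤ 2 * ((p.natDegree : ℝ) + 1) := by
    exact_mod_cast hTc'
  have r6 : (T.card : ℝ) * g ≤ 2 * ((p.natDegree : ℝ) + 1) * g :=
    mul_le_mul_of_nonneg_right r5 hg0.le
  have hD : 0 < (p.natDegree : ℝ) + 1 := by positivity
  have r7 : (p.natDegree + 1 : ℝ) * (4 * ∑ t ∈ T, (volume (G ∩ Set.Icc t.1 t.2.1)).toReal) ≤
      (p.natDegree + 1 : ℝ) * g := by linarith
  have r8 := le_of_mul_le_mul_left r7 hD
  linarith

end Pool.Agent.BSR
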