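import Pool.Agent.BSR.StB

/-! BSR: module LEVC, a monotone convex function close to integers (helper7). -/

set_option autoImplicit false

namespace Pool.Agent.BSR

open Finset MeasureTheory Filter Topology Pool.Agent.BSQ
open scoped BigOperators
open Classical

private def levc_P (f : ℝ → ℝ) (a b η : ℝ) : Prop :=
  ∃ (u v : ℝ) (m : ℤ), a ≤ u ∧ v ≤ b ∧ (∀ x : ℝ, u ≤ x → x ≤ v → |f x - m| ≤ η) ∧
    volume {x : ℝ | a ≤ x ∧ x ≤ b ∧ (∃ k : ℤ, |f x - k| ≤ η) ∧ ¬ (u ≤ x ∧ x ≤ v)} ≤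
      ENNReal.ofReal (4 * η * (b - a))

/-- the set between two neighbourhoods of integers -/
private def levc_J (f : ℝ → ℝ) (a b η : ℝ) (k : ℤ) : Set ℝ :=
  {x | x ∈ Set.Icc a b ∧ k - 1 + η ≤ f x ∧ f x ≤ k - η}

private def levc_I (f : ℝ → ℝ) (a b η : ℝ) (k : ℤ) : Set ℝ :=
  {x | x ∈ Set.Icc a b ∧ |f x - k| ≤ η}

private theorem levc_key {f : ℝ → ℝ} {a b η : ℝ} (hc : ContinuousOn f (Set.Icc a b))
    (hm : MonotoneOn f (Set.Icc a b)) (hv : ConvexOn ℝ (Set.Icc a b) f) (h0 : 0 < η)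
    (h1 : η ≤ 1 / 8) {k : ℤ} (hk : f a ≤ k - 1 + η) {x1 x2 : ℝ} (hx1 : x1 ∈ levc_I f a b η k)
    (hx2 : x2 ∈ levc_I f a b η k) (h12 : x1 ≤ x2) :
    ENNReal.ofReal (x2 - x1) ≤ ENNReal.ofReal (4 * η) * volume (levc_J f a b η k) := by
  obtain ⟨hx1, h3⟩ := hx1
  obtain ⟨hx2, h4⟩ := hx2
  rw [abs_le] at h3 h4
  have hax1 : a ≤ x1 := hx1.1
  obtain ⟨y, hy, hfy⟩ := intermediate_value_Icc hax1
    (hc.mono (Set.Icc_subset_Icc le_rfl hx1.2))
    (⟨hk, by linarith⟩ : (k - 1 + η : ℝ) ∈ Set.Icc (f a) (f x1))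
  obtain ⟨z, hz, hfz⟩ := intermediate_value_Icc hy.2
    (hc.mono (Set.Icc_subset_Icc hy.1 hx1.2))
    (⟨by linarith, by linarith⟩ : (k - η : ℝ) ∈ Set.Icc (f y) (f x1))
  have hyI : y ∈ Set.Icc a b := ⟨hy.1, hy.2.trans hx1.2⟩
  have hzI : z ∈ Set.Icc a b := ⟨hy.1.trans hz.1, hz.2.trans hx1.2⟩
  have hyz : y < z := by
    rcases eq_or_lt_of_le hz.1 with h | h
    · rw [← h] at hfz
      linarith
    · exact h
  have hJ : ENNReal.ofReal (z - y) ≤ volume (levc_J f a b η k) := by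
    rw [← Real.volume_Icc]
    apply measure_mono
    intro x hx
    have hxI : x ∈ Set.Icc a b := ⟨hyI.1.trans hx.1, hx.2.trans hzI.2⟩
    refine ⟨hxI, ?_, ?_⟩
    · rw [← hfy]
      exact hm hyI hxI hx.1
    · rw [← hfz]
      exact hm hxI hzI hx.2
  have hlen : x2 - x1 ≤ 4 * η * (z - y) := by
    have hzx : z ≤ x2 := hz.2.trans h12
    rcases eq_or_lt_of_le hzx with h | h
    · have h5 : x2 - x1 ≤ 0 := by linarith [hz.2]
      have h6 : 0 ≤ 4 * η * (z - y) := by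
        apply mul_nonneg (by linarith)
        linarith
      linarith
    · have h5 := hv.slope_mono_adjacent hyI hx2 hyz h
      rw [div_le_div_iff₀ (by linarith) (by linarith), hfy, hfz] at h5
      have h6 : (k - η - (k - 1 + η) : ℝ) = 1 - 2 * η := by ring
      rw [h6] at h5
      have h7 : (f x2 - (k - η)) * (z - y) ≤ 2 * η * (z - y) := by
        apply mul_le_mul_of_nonneg_right _ (by linarith)
        linarith [h4.2]
      have h8 : 1 / 2 * (x2 - z) ≤ (1 - 2 * η) * (x2 - z) := by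
        apply mul_le_mul_of_nonneg_right _ (by linarith)
        linarith
      have h9 : x2 - z ≤ 4 * η * (z - y) := by nlinarith
      linarith [hz.2]
  calc ENNReal.ofReal (x2 - x1) ≤ ENNReal.ofReal (4 * η * (z - y)) := ENNReal.ofReal_le_ofReal hlen
    _ = ENNReal.ofReal (4 * η) * ENNReal.ofReal (z - y) := ENNReal.ofReal_mul (by linarith)
    _ ≤ _ := by gcongr

private theorem levc_vol {f : ℝ → ℝ} {a b η : ℝ} (hc : ContinuousOn f (Set.Icc a b))
    (hm : MonotoneOn f (Set.Icc a b)) (hv : ConvexOn ℝ (Set.Icc a b) f) (h0 : 0 < η)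
    (h1 : η ≤ 1 / 8) {k : ℤ} (hk : f a ≤ k - 1 + η) :
    volume (levc_I f a b η k) ≤ ENNReal.ofReal (4 * η) * volume (levc_J f a b η k) := by
  refine (Real.volume_le_diam _).trans (Metric.ediam_le ?_)
  intro x hx y hy
  rcases le_total x y with h | h
  · rw [edist_comm, edist_dist, Real.dist_eq, abs_of_nonneg (by linarith)]
    exact levc_key hc hm hv h0 h1 hk hx hy h
  · rw [edist_dist, Real.dist_eq, abs_of_nonneg (by linarith)]
    exact levc_key hc hm hv h0 h1 hk hy hx h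

private theorem levc_base {f : ℝ → ℝ} {a b η : ℝ} (hab : a ≤ b) (hc : ContinuousOn f (Set.Icc a b))
    (hm : MonotoneOn f (Set.Icc a b)) (hv : ConvexOn ℝ (Set.Icc a b) f) (h0 : 0 < η)
    (h1 : η ≤ 1 / 8) : levc_P f a b η := by
  have haI : a ∈ Set.Icc a b := ⟨le_rfl, hab⟩
  -- the rest of the intervals
  have key : ∀ S : Set ℝ, (∀ x ∈ S, x ∈ Set.Icc a b ∧ ∃ k : ℤ, ⌈f a - η⌉ < k ∧ |f x - k| ≤ η) →
      volume S ≤ ENNReal.ofReal (4 * η * (b - a)) := by
    intro S hS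
    have hsub : S ⊆ ⋃ k : {k : ℤ // ⌈f a - η⌉ < k}, levc_I f a b η k := by
      intro x hx
      obtain ⟨h2, k, h3, h4⟩ := hS x hx
      exact Set.mem_iUnion.2 ⟨⟨k, h3⟩, h2, h4⟩
    have hk : ∀ k : {k : ℤ // ⌈f a - η⌉ < k}, f a ≤ (k : ℤ) - 1 + η := by
      intro k
      have h2 : f a - η ≤ ⌈f a - η⌉ := Int.le_ceil _
      have h3 : ((⌈f a - η⌉ : ℤ) : ℝ) + 1 ≤ ((k : ℤ) : ℝ) := by exact_mod_cast k.2
      linarith
    have hmeas : ∀ k : {k : ℤ // ⌈f a - η⌉ < k}, MeasurableSet (levc_J f a b η k) := by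
      intro k
      apply Set.OrdConnected.measurableSet
      constructor
      intro x hx y hy z hz
      have hzI : z ∈ Set.Icc a b := ⟨hx.1.1.trans hz.1, hz.2.trans hy.1.2⟩
      exact ⟨hzI, hx.2.1.trans (hm hx.1 hzI hz.1), (hm hzI hy.1 hz.2).trans hy.2.2⟩
    have hdis : Pairwise (Function.onFun Disjoint
        fun k : {k : ℤ // ⌈f a - η⌉ < k} => levc_J f a b η k) := by
      intro k l hkl
      rw [Function.onFun, Set.disjoint_left]
      intro x hx hy
      have h2 := hx.2.1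
      have h3 := hx.2.2
      have h4 := hy.2.1
      have h5 := hy.2.2
      have h6 : ((k : ℤ) : ℝ) < ((l : ℤ) : ℝ) + 1 := by linarith
      have h7 : ((l : ℤ) : ℝ) < ((k : ℤ) : ℝ) + 1 := by linarith
      have h8 : (k : ℤ) < (l : ℤ) + 1 := by exact_mod_cast h6
      have h9 : (l : ℤ) < (k : ℤ) + 1 := by exact_mod_cast h7
      exact hkl (Subtype.ext (by omega))
    calc volume S ≤ volume (⋃ k : {k : ℤ // ⌈f a - η⌉ < k}, levc_I f a b η k) := measure_mono hsub
      _ ≤ ∑' k : {k : ℤ // ⌈f a - η⌉ < k}, volume (levc_I f a b η k) := measure_iUnion_le _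
      _ ≤ ∑' k : {k : ℤ // ⌈f a - η⌉ < k}, ENNReal.ofReal (4 * η) * volume (levc_J f a b η k) :=
          ENNReal.tsum_le_tsum fun k => levc_vol hc hm hv h0 h1 (hk k)
      _ = ENNReal.ofReal (4 * η) * ∑' k : {k : ℤ // ⌈f a - η⌉ < k}, volume (levc_J f a b η k) :=
          ENNReal.tsum_mul_left
      _ = ENNReal.ofReal (4 * η) *
            volume (⋃ k : {k : ℤ // ⌈f a - η⌉ < k}, levc_J f a b η k) := by
          rw [measure_iUnion hdis hmeas]
      _ ≤ ENNReal.ofReal (4 * η) * volume (Set.Icc a b) := by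
          gcongr
          apply Set.iUnion_subset
          intro k x hx
          exact hx.1
      _ = ENNReal.ofReal (4 * η * (b - a)) := by
          rw [Real.volume_Icc, ← ENNReal.ofReal_mul (by linarith)]
  -- integers which occur
  have hocc : ∀ x ∈ Set.Icc a b, ∀ k : ℤ, |f x - k| ≤ η → ⌈f a - η⌉ ≤ k := by
    intro x hx k hk
    rw [Int.ceil_le]
    have := hm haI hx hx.1
    rw [abs_le] at hk
    linarith [hk.2]
  have hcomp : IsCompact (levc_I f a b η ⌈f a - η⌉) := by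
    have h2 : levc_I f a b η ⌈f a - η⌉ = Set.Icc a b ∩ f ⁻¹' (Metric.closedBall (⌈f a - η⌉ : ℝ) η) := by
      ext x
      simp [levc_I, Real.dist_eq]
    have h3 : IsClosed (Set.Icc a b ∩ f ⁻¹' (Metric.closedBall (⌈f a - η⌉ : ℝ) η)) :=
      hc.preimage_isClosed_of_isClosed isClosed_Icc Metric.isClosed_closedBall
    rw [h2]
    exact isCompact_Icc.of_isClosed_subset h3 Set.inter_subset_left
  by_cases hne : (levc_I f a b η ⌈f a - η⌉).Nonempty
  · have hi := hcomp.sInf_mem hne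
    have hs := hcomp.sSup_mem hne
    refine ⟨sInf (levc_I f a b η ⌈f a - η⌉), sSup (levc_I f a b η ⌈f a - η⌉), ⌈f a - η⌉, hi.1.1,
      hs.1.2, ?_, ?_⟩
    · intro x h2 h3
      have hxI : x ∈ Set.Icc a b := ⟨hi.1.1.trans h2, h3.trans hs.1.2⟩
      have h4 := hm hi.1 hxI h2
      have h5 := hm hxI hs.1 h3
      have h6 := (abs_le.1 hi.2).1
      have h7 := (abs_le.1 hs.2).2
      rw [abs_le]
      constructor <;> linarith
    · apply key
      rintro x ⟨h2, h3, ⟨k, hk⟩, h4⟩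
      refine ⟨⟨h2, h3⟩, k, ?_, hk⟩
      apply lt_of_le_of_ne (hocc x ⟨h2, h3⟩ k hk)
      intro h5
      apply h4
      have h6 : x ∈ levc_I f a b η ⌈f a - η⌉ := ⟨⟨h2, h3⟩, by rw [h5]; exact hk⟩
      exact ⟨csInf_le hcomp.bddBelow h6, le_csSup hcomp.bddAbove h6⟩
  · refine ⟨b, a - 1, 0, hab, by linarith, fun x h2 h3 => by linarith, ?_⟩
    apply key
    rintro x ⟨h2, h3, ⟨k, hk⟩, h4⟩
    refine ⟨⟨h2, h3⟩, k, ?_, hk⟩
    apply lt_of_le_of_ne (hocc x ⟨h2, h3⟩ k hk)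
    intro h5
    exact hne ⟨x, ⟨h2, h3⟩, by rw [h5]; exact hk⟩

private theorem levc_neg {f : ℝ → ℝ} {a b η : ℝ} (h : levc_P (fun x => -f x) a b η) :
    levc_P f a b η := by
  obtain ⟨u, v, m, h1, h2, h3, h4⟩ := h
  refine ⟨u, v, -m, h1, h2, ?_, ?_⟩
  · intro x h5 h6
    have h7 := h3 x h5 h6
    rw [← abs_neg]
    push_cast
    rw [show -(f x - -(m : ℝ)) = -f x - m by ring]
    exact h7
  · refine le_trans (measure_mono ?_) h4
    rintro x ⟨h5, h6, ⟨k, hk⟩, h7⟩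
    refine ⟨h5, h6, ⟨-k, ?_⟩, h7⟩
    push_cast
    rw [← abs_neg, show -(-f x - -(k : ℝ)) = f x - k by ring]
    exact hk

private theorem levc_refl {f : ℝ → ℝ} {a b η : ℝ} (h : levc_P (fun x => f (a + b - x)) a b η) :
    levc_P f a b η := by
  obtain ⟨u, v, m, h1, h2, h3, h4⟩ := h
  refine ⟨a + b - v, a + b - u, m, by linarith, by linarith, ?_, ?_⟩
  · intro x h5 h6
    have h7 := h3 (a + b - x) (by linarith) (by linarith)
    simp only [sub_sub_cancel] at h7
    exact h7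
  · refine le_trans (le_of_eq ?_) h4
    have h5 := (Measure.measurePreserving_sub_left (volume : Measure ℝ) (a + b))
    have h6 := h5.measure_preimage_emb (MeasurableEquiv.subLeft (a + b)).measurableEmbedding
      {x : ℝ | a ≤ x ∧ x ≤ b ∧ (∃ k : ℤ, |(fun x => f (a + b - x)) x - k| ≤ η) ∧
        ¬ (u ≤ x ∧ x ≤ v)}
    rw [← h6]
    congr 1
    ext x
    simp only [Set.mem_ofPred_eq, Set.mem_preimage, sub_sub_cancel]
    constructor
    · rintro ⟨h7, h8, h9, h10⟩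
      exact ⟨by linarith, by linarith, h9, fun h11 => h10 ⟨by linarith [h11.2], by linarith [h11.1]⟩⟩
    · rintro ⟨h7, h8, h9, h10⟩
      exact ⟨by linarith, by linarith, h9, fun h11 => h10 ⟨by linarith [h11.2], by linarith [h11.1]⟩⟩

private theorem levc_mem {a b x : ℝ} (h : x ∈ Set.Icc a b) : a + b - x ∈ Set.Icc a b :=
  ⟨by linarith [h.2], by linarith [h.1]⟩

private theorem levc_anti {f : ℝ → ℝ} {a b η : ℝ} (hab : a ≤ b) (hc : ContinuousOn f (Set.Icc a b))
    (hm : AntitoneOn f (Set.Icc a b)) (hv : ConvexOn ℝ (Set.Icc a b) f) (h0 : 0 < η)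
    (h1 : η ≤ 1 / 8) : levc_P f a b η := by
  apply levc_refl
  apply levc_base hab _ _ _ h0 h1
  · exact hc.comp (by fun_prop) fun x hx => levc_mem hx
  · intro x hx y hy hxy
    exact hm (levc_mem hy) (levc_mem hx) (by linarith)
  · refine ⟨hv.1, ?_⟩
    intro x hx y hy s t hs ht hst
    have h2 := hv.2 (levc_mem hx) (levc_mem hy) hs ht hst
    have h3 : s • (a + b - x) + t • (a + b - y) = a + b - (s • x + t • y) := by
      simp only [smul_eq_mul]
      linear_combination (a + b) * hst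
    rw [h3] at h2
    exact h2

theorem thm_LEVC : St_LEVC := by
  intro f a b η hab hc hm hv h0 h1
  have hP : levc_P f a b η := by
    rcases hm with hm | hm
    · rcases hv with hv | hv
      · exact levc_base hab hc hm hv h0 h1
      · exact levc_neg (levc_anti hab hc.neg hm.neg hv.neg h0 h1)
    · rcases hv with hv | hv
      · exact levc_anti hab hc hm hv h0 h1
      · exact levc_neg (levc_base hab hc.neg hm.neg hv.neg h0 h1)
  obtain ⟨u, v, m, h2, h3, h4, h5⟩ := hP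
  refine ⟨u, v, m, h2, h3, h4, le_trans (measure_mono ?_) h5⟩
  rintro x ⟨h6, h7, h8, h9⟩
  exact ⟨h6, h7, ⟨round (f x), h8⟩, h9⟩

end Pool.Agent.BSR
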