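import Pool.Agent.BSR.StB

/-!
# LEVD : polynomials close to integers, discrete form
-/

set_option autoImplicit false

namespace Pool.Agent.BSR

open Finset MeasureTheory Filter Topology Pool.Agent.BSQ
open scoped BigOperators
open Classical

private def levd_U (G : Finset ℕ) : Set ℝ := ⋃ t ∈ G, Set.Ico (t : ℝ) (t + 1)

private theorem levd_meas (G : Finset ℕ) : MeasurableSet (levd_U G) :=
  Finset.measurableSet_biUnion _ fun _ _ => measurableSet_Ico

private theorem levd_vol (G : Finset ℕ) : volume (levd_U G) = (G.card : ENNReal) := by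
  rw [levd_U, measure_biUnion_finset]
  · have h : ∀ t ∈ G, volume (Set.Ico (t : ℝ) (t + 1)) = 1 := by
      intro t _
      rw [Real.volume_Ico, add_sub_cancel_left, ENNReal.ofReal_one]
    rw [Finset.sum_congr rfl h, Finset.sum_const, nsmul_eq_mul, mul_one]
  · intro s _ t _ hst
    rw [Function.onFun, Set.disjoint_left]
    rintro x ⟨h1, h2⟩ ⟨h3, h4⟩
    apply hst
    have h5 : (s : ℝ) < t + 1 := lt_of_le_of_lt h1 h4
    have h6 : (t : ℝ) < s + 1 := lt_of_le_of_lt h3 h2
    have h5' : s < t + 1 := by exact_mod_cast h5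
    have h6' : t < s + 1 := by exact_mod_cast h6
    omega
  · intro t _
    exact measurableSet_Ico

private theorem levd_sub (G : Finset ℕ) (u v : ℝ) :
    levd_U G ∩ Set.Icc u v ⊆
      levd_U (G.filter fun t : ℕ => u ≤ t ∧ (t : ℝ) + 1 ≤ v) ∪
        (Set.Icc u (u + 1) ∪ Set.Icc (v - 1) v) := by
  rintro x ⟨hx, hu, hv⟩
  simp only [levd_U, Set.mem_iUnion, exists_prop] at hx
  obtain ⟨t, ht, h1, h2⟩ := hx
  by_cases h3 : u ≤ t
  · by_cases h4 : (t : ℝ) + 1 ≤ v
    · left
      simp only [levd_U, Set.mem_iUnion, exists_prop]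
      exact ⟨t, Finset.mem_filter.2 ⟨ht, h3, h4⟩, h1, h2⟩
    · right
      right
      constructor <;> linarith
  · right
    left
    constructor <;> linarith

private theorem levd_le (G : Finset ℕ) (u v : ℝ) :
    volume (levd_U G ∩ Set.Icc u v) ≤
      (((G.filter fun t : ℕ => u ≤ t ∧ (t : ℝ) + 1 ≤ v).card + 2 : ℕ) : ENNReal) := by
  refine (measure_mono (levd_sub G u v)).trans ((measure_union_le _ _).trans ?_)
  rw [levd_vol, Nat.cast_add]
  refine add_le_add le_rfl ((measure_union_le _ _).trans ?_)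
  rw [Real.volume_Icc, Real.volume_Icc, add_sub_cancel_left, sub_sub_cancel, ENNReal.ofReal_one]
  norm_num

theorem thm_LEVD (hLEV : St_LEV) : St_LEVD := by
  intro p a b η G hη hη' hab hG h1 h2
  have hd : (0 : ℝ) ≤ p.natDegree := Nat.cast_nonneg _
  have hcard : 0 < G.card := by omega
  obtain ⟨t₀, ht₀⟩ := Finset.card_pos.1 hcard
  have hab' : a ≤ b := by
    have := hab t₀ ht₀
    linarith
  have hmem : ∀ x ∈ levd_U G, ∃ t ∈ G, (t : ℝ) ≤ x ∧ x < t + 1 := by
    intro x hx
    simp only [levd_U, Set.mem_iUnion, exists_prop] at hx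
    obtain ⟨t, ht, h3, h4⟩ := hx
    exact ⟨t, ht, h3, h4⟩
  have hvol : volume (levd_U G) = ENNReal.ofReal (G.card : ℝ) := by
    rw [levd_vol, ENNReal.ofReal_natCast]
  obtain ⟨u, v, m, hu, huv, hv, hm, hle⟩ := hLEV p a b η (levd_U G) hab' hη hη' (levd_meas G)
    (by
      intro x hx
      obtain ⟨t, ht, h3, h4⟩ := hmem x hx
      have := hab t ht
      exact ⟨by linarith, by linarith⟩)
    (by
      intro x hx
      obtain ⟨t, ht, h3, h4⟩ := hmem x hx
      exact hG t ht x h3 h4.le)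
    (by
      rw [hvol]
      exact ENNReal.ofReal_le_ofReal h1)
    (by
      rw [hvol]
      exact ENNReal.ofReal_pos.2 (by exact_mod_cast hcard))
  refine ⟨u, v, m, G.filter fun t : ℕ => u ≤ t ∧ (t : ℝ) + 1 ≤ v, Finset.filter_subset _ _, hu, huv,
    hv, hm, fun t ht => (Finset.mem_filter.1 ht).2, ?_⟩
  have h3 := hle.trans (mul_le_mul_right (levd_le G u v) (ENNReal.ofReal (8 * (p.natDegree + 1))))
  set c := (G.filter fun t : ℕ => u ≤ t ∧ (t : ℝ) + 1 ≤ v).card with hc
  rw [hvol, ← ENNReal.ofReal_natCast, ← ENNReal.ofReal_mul (by positivity),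
    ENNReal.ofReal_le_ofReal_iff (by positivity)] at h3
  have h4 : (G.card : ℝ) ≤ ((8 * (p.natDegree + 1) * (c + 2) : ℕ) : ℝ) := by
    push_cast at h3 ⊢
    exact h3
  have h5 : G.card ≤ 8 * (p.natDegree + 1) * (c + 2) := by exact_mod_cast h4
  nlinarith

end Pool.Agent.BSR
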