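import Pool.Agent.BSR.StA

/-!
# BSR, module LINE: the set `Rl` is an arithmetic progression on a line (helper68 for helper44)
-/

set_option autoImplicit false

namespace Pool.Agent.BSR

open Finset MeasureTheory Filter Topology Pool.Agent.BSQ
open scoped BigOperators
open Classical

private theorem line_between (c j1 j j2 x lo hi : ℤ) (h1 : j1 ≤ j) (h2 : j ≤ j2)
    (g1 : lo ≤ x + c * j1) (g2 : x + c * j1 ≤ hi) (g3 : lo ≤ x + c * j2) (g4 : x + c * j2 ≤ hi) :
    lo ≤ x + c * j ∧ x + c * j ≤ hi := by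
  rcases le_total 0 c with hc | hc
  · have e1 := mul_nonneg hc (sub_nonneg.2 h1)
    have e2 := mul_nonneg hc (sub_nonneg.2 h2)
    constructor <;> nlinarith
  · have e1 := mul_nonneg (neg_nonneg.2 hc) (sub_nonneg.2 h1)
    have e2 := mul_nonneg (neg_nonneg.2 hc) (sub_nonneg.2 h2)
    constructor <;> nlinarith

private theorem line_mem (n0 N1 M : ℕ) (l a b n m : ℤ) :
    (n, m) ∈ Rl n0 N1 M l (a, b) ↔
      ((n0 : ℤ) + 1 ≤ n ∧ n ≤ n0 + N1) ∧ (1 ≤ m ∧ m ≤ M) ∧
      ((n0 : ℤ) + 1 ≤ n + a ∧ n + a ≤ n0 + N1) ∧ (1 ≤ m + b ∧ m + b ≤ M) ∧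
      2 * (a * n + b * m) + a ^ 2 + b ^ 2 = l := by
  unfold Rl Bx sqz
  simp only [Finset.mem_filter, Finset.mem_product, Finset.mem_Ioc, Finset.mem_Icc,
    Prod.mk_add_mk]
  have e : (n + a) ^ 2 + (m + b) ^ 2 - (n ^ 2 + m ^ 2) = 2 * (a * n + b * m) + a ^ 2 + b ^ 2 := by
    ring
  rw [e]
  constructor
  · rintro ⟨⟨⟨h1, h2⟩, h3⟩, ⟨⟨h4, h5⟩, h6⟩, h7⟩
    exact ⟨⟨by omega, h2⟩, h3, ⟨by omega, h5⟩, h6, h7⟩
  · rintro ⟨⟨h1, h2⟩, h3, ⟨h4, h5⟩, h6, h7⟩
    exact ⟨⟨⟨by omega, h2⟩, h3⟩, ⟨⟨by omega, h5⟩, h6⟩, h7⟩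

theorem thm_LINE : St_LINE := by
  intro n0 N1 M l d hd hne
  obtain ⟨a, b⟩ := d
  obtain ⟨⟨n1, m1⟩, hp⟩ := hne
  have hg0 : (Int.gcd a b : ℤ) ≠ 0 := by
    intro h
    have h1 : Int.gcd a b = 0 := by exact_mod_cast h
    rw [Int.gcd_eq_zero_iff] at h1
    exact hd (Prod.ext h1.1 h1.2)
  simp only
  obtain ⟨a', ha'⟩ : ∃ a', a' = a / (Int.gcd a b : ℤ) := ⟨_, rfl⟩
  obtain ⟨b', hb'⟩ : ∃ b', b' = b / (Int.gcd a b : ℤ) := ⟨_, rfl⟩
  have ha : a = (Int.gcd a b : ℤ) * a' := by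
    rw [ha', Int.mul_ediv_cancel' (Int.gcd_dvd_left ..)]
  have hb : b = (Int.gcd a b : ℤ) * b' := by
    rw [hb', Int.mul_ediv_cancel' (Int.gcd_dvd_right ..)]
  have hcop : ∃ u v : ℤ, u * a' + v * b' = 1 := by
    refine ⟨Int.gcdA a b, Int.gcdB a b, ?_⟩
    have h1 := Int.gcd_eq_gcd_ab a b
    have h2 : (Int.gcd a b : ℤ) * (Int.gcdA a b * a' + Int.gcdB a b * b') = (Int.gcd a b : ℤ) * 1 := by
      calc (Int.gcd a b : ℤ) * (Int.gcdA a b * a' + Int.gcdB a b * b')
          = ((Int.gcd a b : ℤ) * a') * Int.gcdA a b + ((Int.gcd a b : ℤ) * b') * Int.gcdB a b := by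
            ring
        _ = a * Int.gcdA a b + b * Int.gcdB a b := by rw [← ha, ← hb]
        _ = (Int.gcd a b : ℤ) * 1 := by rw [mul_one, ← h1]
    exact mul_left_cancel₀ hg0 h2
  obtain ⟨u, v, huv⟩ := hcop
  rw [← ha', ← hb']
  have hab : a * b' = b * a' := by
    conv_lhs => rw [ha]
    conv_rhs => rw [hb]
    ring
  have hp' := (line_mem n0 N1 M l a b n1 m1).1 hp
  -- the parametrisation
  have hinj : Function.Injective (fun j : ℤ => ((n1 + b' * j, m1 - a' * j) : ℤ × ℤ)) := by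
    intro i j hij
    have h1 : n1 + b' * i = n1 + b' * j := congrArg Prod.fst hij
    have h2 : m1 - a' * i = m1 - a' * j := congrArg Prod.snd hij
    have h3 : b' * (i - j) = 0 := by linarith
    have h4 : a' * (i - j) = 0 := by linarith
    have h5 : i - j = 0 := by
      calc i - j = (u * a' + v * b') * (i - j) := by rw [huv, one_mul]
        _ = u * (a' * (i - j)) + v * (b' * (i - j)) := by ring
        _ = 0 := by rw [h3, h4, mul_zero, mul_zero, add_zero]
    omega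
  have hsurj : ∀ p ∈ Rl n0 N1 M l (a, b), ∃ j : ℤ, ((n1 + b' * j, m1 - a' * j) : ℤ × ℤ) = p := by
    rintro ⟨n, m⟩ hq
    have hq' := (line_mem n0 N1 M l a b n m).1 hq
    have h1 : a * (n - n1) + b * (m - m1) = 0 := by
      have h2 := hp'.2.2.2.2
      have h3 := hq'.2.2.2.2
      linarith
    have h2 : a' * (n - n1) + b' * (m - m1) = 0 := by
      have h3 : (Int.gcd a b : ℤ) * (a' * (n - n1) + b' * (m - m1)) = 0 := by
        calc (Int.gcd a b : ℤ) * (a' * (n - n1) + b' * (m - m1))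
            = ((Int.gcd a b : ℤ) * a') * (n - n1) + ((Int.gcd a b : ℤ) * b') * (m - m1) := by ring
          _ = 0 := by rw [← ha, ← hb, h1]
      exact (mul_eq_zero.1 h3).resolve_left hg0
    refine ⟨v * (n - n1) - u * (m - m1), ?_⟩
    refine Prod.ext ?_ ?_
    · show n1 + b' * (v * (n - n1) - u * (m - m1)) = n
      have h4 : b' * (m - m1) = -(a' * (n - n1)) := by linarith
      calc n1 + b' * (v * (n - n1) - u * (m - m1))
          = n1 + (v * b') * (n - n1) - u * (b' * (m - m1)) := by ring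
        _ = n1 + (u * a' + v * b') * (n - n1) := by rw [h4]; ring
        _ = n := by rw [huv]; ring
    · show m1 - a' * (v * (n - n1) - u * (m - m1)) = m
      have h4 : a' * (n - n1) = -(b' * (m - m1)) := by linarith
      calc m1 - a' * (v * (n - n1) - u * (m - m1))
          = m1 + (u * a') * (m - m1) - v * (a' * (n - n1)) := by ring
        _ = m1 + (u * a' + v * b') * (m - m1) := by rw [h4]; ring
        _ = m := by rw [huv]; ring
  set T : Finset ℤ := (Rl n0 N1 M l (a, b)).preimage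
    (fun j : ℤ => ((n1 + b' * j, m1 - a' * j) : ℤ × ℤ)) (hinj.injOn) with hT
  have hTmem : ∀ j, j ∈ T ↔ ((n1 + b' * j, m1 - a' * j) : ℤ × ℤ) ∈ Rl n0 N1 M l (a, b) := by
    intro j
    rw [hT, Finset.mem_preimage]
  have hT0 : (0 : ℤ) ∈ T := by
    rw [hTmem]
    convert hp using 2 <;> ring
  have hTne : T.Nonempty := ⟨0, hT0⟩
  have hcard : (Rl n0 N1 M l (a, b)).card = T.card := by
    have h1 : Rl n0 N1 M l (a, b) = T.image (fun j : ℤ => ((n1 + b' * j, m1 - a' * j) : ℤ × ℤ)) := by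
      ext p
      rw [Finset.mem_image]
      constructor
      · intro hq
        obtain ⟨j, rfl⟩ := hsurj p hq
        exact ⟨j, (hTmem j).2 hq, rfl⟩
      · rintro ⟨j, hj, rfl⟩
        exact (hTmem j).1 hj
    conv_lhs => rw [h1]
    exact Finset.card_image_of_injective _ hinj
  have hconv : ∀ j, T.min' hTne ≤ j → j ≤ T.max' hTne → j ∈ T := by
    intro j h1 h2
    have g1 := (line_mem n0 N1 M l a b _ _).1 ((hTmem _).1 (T.min'_mem hTne))
    have g2 := (line_mem n0 N1 M l a b _ _).1 ((hTmem _).1 (T.max'_mem hTne))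
    obtain ⟨⟨p1, p2⟩, ⟨p3, p4⟩, ⟨p5, p6⟩, ⟨p7, p8⟩, p9⟩ := g1
    obtain ⟨⟨q1, q2⟩, ⟨q3, q4⟩, ⟨q5, q6⟩, ⟨q7, q8⟩, q9⟩ := g2
    rw [hTmem, line_mem]
    have r1 := line_between b' _ j _ n1 _ _ h1 h2 p1 p2 q1 q2
    have r2 := line_between (-a') _ j _ m1 1 M h1 h2 (by linarith) (by linarith) (by linarith)
      (by linarith)
    have r3 := line_between b' _ j _ (n1 + a) ((n0 : ℤ) + 1) (n0 + N1) h1 h2 (by linarith)
      (by linarith) (by linarith) (by linarith)
    have r4 := line_between (-a') _ j _ (m1 + b) 1 M h1 h2 (by linarith) (by linarith) (by linarith)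
      (by linarith)
    refine ⟨r1, ⟨by linarith [r2.1], by linarith [r2.2]⟩, ⟨by linarith [r3.1], by linarith [r3.2]⟩,
      ⟨by linarith [r4.1], by linarith [r4.2]⟩, ?_⟩
    have h3 := hp'.2.2.2.2
    calc 2 * (a * (n1 + b' * j) + b * (m1 - a' * j)) + a ^ 2 + b ^ 2
        = 2 * (a * n1 + b * m1) + a ^ 2 + b ^ 2 + 2 * j * (a * b' - b * a') := by ring
      _ = l := by rw [h3, hab]; ring
  have hTI : T = Finset.Icc (T.min' hTne) (T.max' hTne) := by
    ext j
    rw [Finset.mem_Icc]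
    constructor
    · intro hj
      exact ⟨T.min'_le j hj, T.le_max' j hj⟩
    · rintro ⟨h1, h2⟩
      exact hconv j h1 h2
  have hcard2 : T.card = (T.max' hTne + 1 - T.min' hTne).toNat := by
    conv_lhs => rw [hTI]
    rw [Int.card_Icc]
  refine ⟨(n1 + b' * T.min' hTne, m1 - a' * T.min' hTne), ?_⟩
  rw [hcard]
  ext p
  rw [Finset.mem_image]
  constructor
  · intro hq
    obtain ⟨j, rfl⟩ := hsurj p hq
    have hj : j ∈ T := (hTmem j).2 hq
    have h1 := T.min'_le j hj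
    have h2 := T.le_max' j hj
    refine ⟨(j - T.min' hTne).toNat, ?_, ?_⟩
    · rw [Finset.mem_range, hcard2]
      omega
    · have h3 : (((j - T.min' hTne).toNat : ℕ) : ℤ) = j - T.min' hTne := by
        omega
      rw [h3]
      refine Prod.ext ?_ ?_
      · show n1 + b' * T.min' hTne + b' * (j - T.min' hTne) = n1 + b' * j
        ring
      · show m1 - a' * T.min' hTne - a' * (j - T.min' hTne) = m1 - a' * j
        ring
  · rintro ⟨i, hi, rfl⟩
    rw [Finset.mem_range, hcard2] at hi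
    have h1 := hconv (T.min' hTne + i) (by omega) (by omega)
    rw [hTmem] at h1
    convert h1 using 2
    · show n1 + b' * T.min' hTne + b' * i = n1 + b' * (T.min' hTne + i)
      ring
    · show m1 - a' * T.min' hTne - a' * i = m1 - a' * (T.min' hTne + i)
      ring

end Pool.Agent.BSR
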