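import Pool.Agent.BSR.StA
import Pool.Agent.BSQ.FB

/-!
# BSR, module LOC: localisation of the Fourier transform (helper68 for helper44)
-/

set_option autoImplicit false

namespace Pool.Agent.BSR

open Finset MeasureTheory Filter Topology Pool.Agent.BSQ
open scoped BigOperators
open Classical

private theorem loc_ch (P : ℕ) [NeZero P] (d : ℤ) (j : ℕ) :
    ch (d : ZMod P) (j : ZMod P) = ee ((d : ℝ) * j / P) := by
  unfold ch ee
  have h : (d : ZMod P) * (j : ZMod P) = ((d * j : ℤ) : ZMod P) := by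
    push_cast
    ring
  rw [h, ZMod.stdAddChar_coe]
  congr 1
  push_cast
  ring

private theorem loc_re (t : ℝ) (ht : |t| ≤ 1 / 8) : 1 / 2 ≤ (ee t).re := by
  unfold ee
  rw [Complex.exp_ofReal_mul_I_re, ← Real.cos_abs, ← Real.cos_pi_div_three]
  have hpi := Real.pi_pos
  refine Real.cos_le_cos_of_nonneg_of_le_pi (abs_nonneg _) (by linarith) ?_
  rw [abs_mul, abs_of_pos (by positivity : (0 : ℝ) < 2 * Real.pi)]
  calc 2 * Real.pi * |t| ≤ 2 * Real.pi * (1 / 8) := mul_le_mul_of_nonneg_left ht (by positivity)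
    _ ≤ Real.pi / 3 := by linarith

private theorem loc_lower (P W D : ℕ) [NeZero P] (hWD : 8 * W * D ≤ P) (d : ℤ)
    (hd : d ∈ Icc (-(D : ℤ)) (D : ℤ)) :
    (W : ℝ) / 2 ≤ ‖∑ j ∈ range W, ch (d : ZMod P) (j : ZMod P)‖ := by
  have hP : (0 : ℝ) < P := Nat.cast_pos.2 (Nat.pos_of_ne_zero (NeZero.ne P))
  refine le_trans ?_ (Complex.re_le_norm _)
  rw [Complex.re_sum]
  calc (W : ℝ) / 2 = ∑ j ∈ range W, (1 / 2 : ℝ) := by
        rw [Finset.sum_const, Finset.card_range, nsmul_eq_mul]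
        ring
    _ ≤ ∑ j ∈ range W, (ch (d : ZMod P) (j : ZMod P)).re := by
        refine Finset.sum_le_sum fun j hj => ?_
        rw [loc_ch]
        refine loc_re _ ?_
        have hj' : (j : ℝ) ≤ W := by exact_mod_cast (Finset.mem_range.1 hj).le
        have hd' : |(d : ℝ)| ≤ D := by
          have h1 := abs_le.2 (Finset.mem_Icc.1 hd)
          have : ((|d| : ℤ) : ℝ) ≤ ((D : ℤ) : ℝ) := by exact_mod_cast h1
          rwa [Int.cast_abs, Int.cast_natCast] at this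
        rw [abs_div, abs_mul, Nat.abs_cast, Nat.abs_cast, div_le_div_iff₀ hP (by norm_num)]
        have h2 : |(d : ℝ)| * j ≤ D * W := mul_le_mul hd' hj' (by positivity) (by positivity)
        have h3 : 8 * (W : ℝ) * D ≤ P := by exact_mod_cast hWD
        linarith

private theorem loc_ft (P W : ℕ) [NeZero P] (F : ZMod P → ℂ) (b0 δ : ZMod P) :
    ft (fun v => ∑ j ∈ range W, F (v + (j : ZMod P)) * ch (-b0) (v + (j : ZMod P))) δ =
      (∑ j ∈ range W, ch δ (j : ZMod P)) * ft F (b0 + δ) := by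
  obtain ⟨-, hadd, hadd2, -⟩ := thm_FB P
  unfold ft
  simp only [Finset.sum_mul]
  rw [Finset.sum_comm]
  refine Finset.sum_congr rfl fun j _ => ?_
  have h1 : ∑ u : ZMod P, F (u + (j : ZMod P)) * ch (-b0) (u + (j : ZMod P)) * ch (-δ) u =
      ∑ w : ZMod P, F w * ch (-b0) w * ch (-δ) (w - (j : ZMod P)) := by
    refine Fintype.sum_equiv (Equiv.addRight (j : ZMod P)) _ _ fun u => ?_
    simp only [Equiv.coe_addRight, add_sub_cancel_right]
  rw [h1, Finset.mul_sum]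
  refine Finset.sum_congr rfl fun w _ => ?_
  have h2 : ch (-δ) (w - (j : ZMod P)) = ch (-δ) w * ch δ (j : ZMod P) := by
    rw [sub_eq_add_neg, hadd]
    congr 1
    unfold ch
    congr 1
    ring
  have h3 : ch (-(b0 + δ)) w = ch (-b0) w * ch (-δ) w := by
    rw [neg_add, hadd2]
  rw [h2, h3]
  ring

theorem thm_LOC : St_LOC := by
  intro P W D _ F b0 hW hWD
  obtain ⟨-, -, -, -, -, hpars, -⟩ := thm_FB P
  have hWr : (0 : ℝ) < W := by exact_mod_cast hW
  set G : ZMod P → ℂ :=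
    fun v => ∑ j ∈ range W, F (v + (j : ZMod P)) * ch (-b0) (v + (j : ZMod P)) with hG
  have hone : ∀ d ∈ Icc (-(D : ℤ)) (D : ℤ), ‖ft F (b0 + (d : ZMod P))‖ ^ 2 ≤
      4 / (W : ℝ) ^ 2 * ‖ft G (d : ZMod P)‖ ^ 2 := by
    intro d hd
    have h1 := loc_ft P W F b0 (d : ZMod P)
    have h2 := loc_lower P W D hWD d hd
    rw [hG, h1, norm_mul, mul_pow]
    have h3 : ((W : ℝ) / 2) ^ 2 ≤ ‖∑ j ∈ range W, ch (d : ZMod P) (j : ZMod P)‖ ^ 2 :=
      pow_le_pow_left₀ (by positivity) h2 2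
    calc ‖ft F (b0 + (d : ZMod P))‖ ^ 2 =
          4 / (W : ℝ) ^ 2 * (((W : ℝ) / 2) ^ 2 * ‖ft F (b0 + (d : ZMod P))‖ ^ 2) := by
          field_simp
          ring
      _ ≤ _ := by
          refine mul_le_mul_of_nonneg_left ?_ (by positivity)
          exact mul_le_mul_of_nonneg_right h3 (by positivity)
  have hinj : ∀ x ∈ Icc (-(D : ℤ)) (D : ℤ), ∀ y ∈ Icc (-(D : ℤ)) (D : ℤ),
      (x : ZMod P) = (y : ZMod P) → x = y := by
    intro x hx y hy hxy
    rw [Finset.mem_Icc] at hx hy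
    rcases Nat.eq_zero_or_pos D with h0 | h0
    · subst h0
      push_cast at hx hy
      omega
    · have h1 : 8 * D ≤ P := by
        calc 8 * D ≤ 8 * W * D := Nat.mul_le_mul_right _ (by omega)
          _ ≤ P := hWD
      have h2 := (ZMod.intCast_eq_intCast_iff x y P).1 hxy
      have h3 : (P : ℤ) ∣ y - x := h2.dvd
      have h4 : |y - x| < P := by
        rw [abs_lt]
        constructor <;> omega
      have := Int.eq_zero_of_abs_lt_dvd h3 h4
      omega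
  calc ∑ d ∈ Icc (-(D : ℤ)) (D : ℤ), ‖ft F (b0 + (d : ZMod P))‖ ^ 2
      ≤ ∑ d ∈ Icc (-(D : ℤ)) (D : ℤ), 4 / (W : ℝ) ^ 2 * ‖ft G (d : ZMod P)‖ ^ 2 :=
        Finset.sum_le_sum hone
    _ = 4 / (W : ℝ) ^ 2 * ∑ d ∈ Icc (-(D : ℤ)) (D : ℤ), ‖ft G (d : ZMod P)‖ ^ 2 := by
        rw [Finset.mul_sum]
    _ = 4 / (W : ℝ) ^ 2 *
        ∑ b ∈ (Icc (-(D : ℤ)) (D : ℤ)).image (fun d : ℤ => (d : ZMod P)), ‖ft G b‖ ^ 2 := by
        rw [Finset.sum_image hinj]
    _ ≤ 4 / (W : ℝ) ^ 2 * ∑ b : ZMod P, ‖ft G b‖ ^ 2 := by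
        refine mul_le_mul_of_nonneg_left ?_ (by positivity)
        exact Finset.sum_le_univ_sum_of_nonneg fun b => by positivity
    _ = 4 * P / (W : ℝ) ^ 2 * ∑ v : ZMod P, ‖G v‖ ^ 2 := by
        rw [hpars]
        ring

end Pool.Agent.BSR
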