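import Pool.Agent.BSR.StA

/-!
# BSR, module MAJB: the major frequencies (helper18)
-/

set_option autoImplicit false

namespace Pool.Agent.BSR

open Finset MeasureTheory Filter Topology Pool.Agent.BSQ
open scoped BigOperators
open Classical

private theorem majb_cover {α β : Type} (S : Finset α) (I : Finset β) (F : α → ℝ)
    (hF : ∀ a, 0 ≤ F a) (φ : β → α) (h : ∀ b ∈ S, ∃ i ∈ I, φ i = b) :
    ∑ b ∈ S, F b ≤ ∑ i ∈ I, F (φ i) := by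
  have h1 : S ⊆ I.image φ := by
    intro b hb
    obtain ⟨i, hi, e⟩ := h b hb
    exact Finset.mem_image.mpr ⟨i, hi, e⟩
  calc ∑ b ∈ S, F b ≤ ∑ b ∈ I.image φ, F b :=
        Finset.sum_le_sum_of_subset_of_nonneg h1 (fun a _ _ => hF a)
    _ ≤ ∑ b ∈ I.image φ, ∑ i ∈ I.filter (fun i => φ i = b), F (φ i) := by
        refine Finset.sum_le_sum fun b hb => ?_
        obtain ⟨i, hi, e⟩ := Finset.mem_image.mp hb
        have h2 := Finset.single_le_sum (f := fun i => F (φ i)) (s := I.filter (fun i => φ i = b))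
          (fun i _ => hF _) (Finset.mem_filter.mpr ⟨hi, e⟩)
        have h3 : F (φ i) = F b := by rw [e]
        linarith
    _ = ∑ i ∈ I, F (φ i) :=
        Finset.sum_fiberwise_of_maps_to (fun i hi => Finset.mem_image_of_mem φ hi) _

/-- each major frequency is close to a rational. -/
private theorem majb_near (P N M Z : ℕ) [NeZero P] (q : ℕ) (b : ZMod P) (hq : 1 ≤ q)
    (hM : 1 ≤ M) (hN : 1 ≤ N) (hP : M * N ≤ P * Z)
    (h : dI ((q : ℝ) * ((b.val : ℝ) / P)) ≤ (Z : ℝ) / (M * N)) :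
    ∃ r : ℕ, r ≤ q ∧ ∃ d : ℤ, d ∈ Icc (-((2 * P * Z / (M * N) : ℕ) : ℤ))
      ((2 * P * Z / (M * N) : ℕ) : ℤ) ∧
      (((r * P / q : ℕ) : ZMod P)) + (d : ZMod P) = b := by
  have hP0 : (0 : ℝ) < P := by exact_mod_cast Nat.pos_of_ne_zero (NeZero.ne P)
  have hq0 : (0 : ℝ) < q := by exact_mod_cast hq
  have hq1 : (1 : ℝ) ≤ q := by exact_mod_cast hq
  have hM0 : (0 : ℝ) < M := by exact_mod_cast hM
  have hN0 : (0 : ℝ) < N := by exact_mod_cast hN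
  have hMN : (0 : ℝ) < (M : ℝ) * N := by positivity
  have hx0 : 0 ≤ (q : ℝ) * ((b.val : ℝ) / P) := by positivity
  have hb1 : (b.val : ℝ) / P < 1 := by
    rw [div_lt_one hP0]
    exact_mod_cast ZMod.val_lt b
  have hx1 : (q : ℝ) * ((b.val : ℝ) / P) < q := by
    have := mul_lt_mul_of_pos_left hb1 hq0
    linarith
  have hr0 : 0 ≤ round ((q : ℝ) * ((b.val : ℝ) / P)) := by
    rw [round_eq, Int.floor_nonneg]
    linarith
  have hr1 : round ((q : ℝ) * ((b.val : ℝ) / P)) < (q : ℤ) + 1 := by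
    rw [round_eq, Int.floor_lt]
    push_cast
    linarith
  obtain ⟨r, hr⟩ := Int.eq_ofNat_of_zero_le hr0
  have hrq : r ≤ q := by
    rw [hr] at hr1
    omega
  unfold dI at h
  rw [hr, Int.cast_natCast] at h
  have h1 : |(b.val : ℝ) - r * P / q| ≤ P * Z / (M * N) := by
    have e1 : (b.val : ℝ) - r * P / q = (P / q) * ((q : ℝ) * ((b.val : ℝ) / P) - r) := by
      field_simp
    rw [e1, abs_mul, abs_of_pos (by positivity)]
    have e2 : (P / q : ℝ) ≤ P := div_le_self hP0.le hq1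
    calc (P / q : ℝ) * |(q : ℝ) * ((b.val : ℝ) / P) - r| ≤ P * (Z / (M * N)) :=
          mul_le_mul e2 h (abs_nonneg _) hP0.le
      _ = P * Z / (M * N) := by ring
  have h2 : ((r * P / q : ℕ) : ℝ) ≤ r * P / q := by
    have := @Nat.cast_div_le ℝ _ _ _ (r * P) q
    push_cast at this
    exact this
  have h3 : (r * P / q : ℝ) < ((r * P / q : ℕ) : ℝ) + 1 := by
    have e1 : r * P < (r * P / q + 1) * q := by
      have := Nat.lt_div_mul_add (a := r * P) hq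
      linarith
    rw [div_lt_iff₀ hq0]
    exact_mod_cast e1
  have h4 : (1 : ℝ) ≤ P * Z / (M * N) := by
    rw [le_div_iff₀ hMN]
    have : ((M * N : ℕ) : ℝ) ≤ ((P * Z : ℕ) : ℝ) := by exact_mod_cast hP
    push_cast at this
    linarith
  have h5 : |(b.val : ℝ) - ((r * P / q : ℕ) : ℝ)| ≤ 2 * P * Z / (M * N) := by
    have h6 := abs_le.mp h1
    have e3 : (2 * P * Z / (M * N) : ℝ) = P * Z / (M * N) + P * Z / (M * N) := by ring
    rw [e3, abs_le]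
    constructor <;> linarith [h6.1, h6.2]
  refine ⟨r, hrq, (b.val : ℤ) - ((r * P / q : ℕ) : ℤ), ?_, ?_⟩
  · have h6 : ((b.val : ℤ) - ((r * P / q : ℕ) : ℤ)).natAbs * (M * N) ≤ 2 * P * Z := by
      have e4 : ((((b.val : ℤ) - ((r * P / q : ℕ) : ℤ)).natAbs : ℕ) : ℝ) =
          |(b.val : ℝ) - ((r * P / q : ℕ) : ℝ)| := by
        rw [Nat.cast_natAbs]
        push_cast
        rfl
      have e5 : ((((b.val : ℤ) - ((r * P / q : ℕ) : ℤ)).natAbs : ℕ) : ℝ) * (M * N) ≤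
          2 * P * Z := by
        rw [e4]
        rwa [le_div_iff₀ hMN] at h5
      exact_mod_cast e5
    have h7 : ((b.val : ℤ) - ((r * P / q : ℕ) : ℤ)).natAbs ≤ 2 * P * Z / (M * N) := by
      rw [Nat.le_div_iff_mul_le (by positivity)]
      exact h6
    rw [Finset.mem_Icc]
    generalize (b.val : ℤ) - ((r * P / q : ℕ) : ℤ) = d at h7
    generalize 2 * P * Z / (M * N) = D at h7
    omega
  · have e6 : ((b.val : ℕ) : ZMod P) = b := ZMod.natCast_zmod_val b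
    generalize r * P / q = b0
    rw [Int.cast_sub, Int.cast_natCast, Int.cast_natCast, e6]
    ring

/-- arithmetic of the window length `W` and of the radius `D`. -/
private theorem majb_arith (P N M Z A : ℕ) (hP : 5 * N ^ 2 ≤ P) (hZ : 2 ≤ Z) (hA : 1 ≤ A)
    (h1 : Z * A ≤ M) (h2 : M ≤ 2 * Z * A) (h3 : M ≤ N) (h4 : 16 * Z ≤ M) :
    1 ≤ M * N / (16 * Z) ∧ 8 * (M * N / (16 * Z)) * (2 * P * Z / (M * N)) ≤ P ∧
      M * N / (16 * Z) ≤ 4 * A * N ∧ 2 * (4 * A * N) + M * N / (16 * Z) ≤ P ∧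
      M * N ≤ (M * N / (16 * Z)) * (32 * Z) ∧ M * N ≤ P * Z := by
  have hM : 1 ≤ M := by omega
  have hN : 1 ≤ N := by omega
  have hMN : 0 < M * N := Nat.mul_pos hM hN
  have e1 : M * N / (16 * Z) * (16 * Z) ≤ M * N := Nat.div_mul_le_self _ _
  have e2 : M * N < M * N / (16 * Z) * (16 * Z) + 16 * Z := Nat.lt_div_mul_add (by omega)
  have e3 : 2 * P * Z / (M * N) * (M * N) ≤ 2 * P * Z := Nat.div_mul_le_self _ _
  have e4 : 1 ≤ M * N / (16 * Z) := by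
    rw [Nat.le_div_iff_mul_le (by omega)]
    nlinarith
  generalize M * N / (16 * Z) = W at *
  generalize 2 * P * Z / (M * N) = D at *
  have e5 : M * N ≤ 2 * Z * A * N := Nat.mul_le_mul_right _ h2
  have e6 : 8 * W ≤ A * N := by
    have : Z * (8 * W) ≤ Z * (A * N) := by nlinarith
    exact Nat.le_of_mul_le_mul_left this (by omega)
  have e7 : 2 * (A * N) ≤ N * N := by
    have : 2 * A ≤ N := by nlinarith
    nlinarith
  refine ⟨e4, ?_, by nlinarith, by nlinarith, ?_, ?_⟩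
  · have : (16 * Z * (M * N)) * (8 * W * D) ≤ (16 * Z * (M * N)) * P := by
      calc (16 * Z * (M * N)) * (8 * W * D) = 8 * (W * (16 * Z)) * (D * (M * N)) := by ring
        _ ≤ 8 * (M * N) * (2 * P * Z) := by gcongr
        _ = (16 * Z * (M * N)) * P := by ring
    exact Nat.le_of_mul_le_mul_left this (by positivity)
  · nlinarith
  · have : M * N ≤ N * N := Nat.mul_le_mul_right _ h3
    nlinarith

/-- the final computation. -/
private theorem majb_fin (P W Z Q A N M H : ℝ) (η : ℝ) (hP : 0 < P) (hW : 0 < W) (hQ : 1 ≤ Q)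
    (hA : 0 ≤ A) (hN : 0 < N) (hM : 0 < M) (hH : 0 ≤ H) (hη : 0 ≤ η) (hZ : 0 ≤ Z)
    (h : M * N ≤ W * (32 * Z)) :
    Q * (Q + 1) * (4 * P / W ^ 2 * (3 * (4 * A * N) * P * (η * W + 2 * H) ^ 2)) ≤
      96 * Q ^ 2 * (A * N) * P ^ 2 * (η + 64 * Z * H / (M * N)) ^ 2 := by
  have e1 : 4 * P / W ^ 2 * (3 * (4 * A * N) * P * (η * W + 2 * H) ^ 2) =
      48 * (A * N) * P ^ 2 * (η + 2 * H / W) ^ 2 := by
    field_simp
    ring
  have e2 : 2 * H / W ≤ 64 * Z * H / (M * N) := by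
    rw [div_le_div_iff₀ hW (by positivity)]
    nlinarith [mul_le_mul_of_nonneg_left h hH]
  have e3 : (η + 2 * H / W) ^ 2 ≤ (η + 64 * Z * H / (M * N)) ^ 2 := by
    have : 0 ≤ 2 * H / W := by positivity
    exact pow_le_pow_left₀ (by linarith) (by linarith) 2
  have e4 : Q * (Q + 1) ≤ 2 * Q ^ 2 := by nlinarith
  rw [e1]
  have e5 : 48 * (A * N) * P ^ 2 * (η + 2 * H / W) ^ 2 ≤
      48 * (A * N) * P ^ 2 * (η + 64 * Z * H / (M * N)) ^ 2 :=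
    mul_le_mul_of_nonneg_left e3 (by positivity)
  calc Q * (Q + 1) * (48 * (A * N) * P ^ 2 * (η + 2 * H / W) ^ 2)
      ≤ (2 * Q ^ 2) * (48 * (A * N) * P ^ 2 * (η + 64 * Z * H / (M * N)) ^ 2) :=
        mul_le_mul e4 e5 (by positivity) (by positivity)
    _ = 96 * Q ^ 2 * (A * N) * P ^ 2 * (η + 64 * Z * H / (M * N)) ^ 2 := by ring

/-- one centre. -/
private theorem majb_one (h1 : St_LOC) (h2 : St_ACL) (P H T W D Λ : ℕ) [NeZero P] (η : ℝ)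
    (f : ZMod P → ℂ) (hP : P = H * T) (hH : 1 ≤ H) (hW : 1 ≤ W) (hWD : 8 * W * D ≤ P)
    (hWΛ : W ≤ Λ) (hΛ : 2 * Λ + W ≤ P) (hη : 0 ≤ η) (hf : FlatL H η f) (b0 : ZMod P) :
    ∑ l ∈ Icc (-(Λ : ℤ)) (Λ : ℤ), ∑ d ∈ Icc (-(D : ℤ)) (D : ℤ),
      ‖ft (Fl f l) (b0 + (d : ZMod P))‖ ^ 2 ≤
      4 * P / (W : ℝ) ^ 2 * (3 * Λ * P * (η * W + 2 * H) ^ 2) := by
  calc ∑ l ∈ Icc (-(Λ : ℤ)) (Λ : ℤ), ∑ d ∈ Icc (-(D : ℤ)) (D : ℤ),
        ‖ft (Fl f l) (b0 + (d : ZMod P))‖ ^ 2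
      ≤ ∑ l ∈ Icc (-(Λ : ℤ)) (Λ : ℤ), 4 * P / (W : ℝ) ^ 2 *
        ∑ v : ZMod P, ‖∑ j ∈ range W, Fl f l (v + (j : ZMod P)) *
          ch (-b0) (v + (j : ZMod P))‖ ^ 2 :=
        Finset.sum_le_sum fun l _ => h1 P W D (Fl f l) b0 hW hWD
    _ = 4 * P / (W : ℝ) ^ 2 * ∑ l ∈ Icc (-(Λ : ℤ)) (Λ : ℤ),
        ∑ v : ZMod P, ‖∑ j ∈ range W, Fl f l (v + (j : ZMod P)) *
          ch (-b0) (v + (j : ZMod P))‖ ^ 2 := by rw [Finset.mul_sum]
    _ ≤ 4 * P / (W : ℝ) ^ 2 * (3 * Λ * P * (η * W + 2 * H) ^ 2) :=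
        mul_le_mul_of_nonneg_left (h2 P H T W Λ η f b0 hP hH hW hWΛ hΛ hη hf) (by positivity)

/-- the statement with `Z` for `L ^ 300` and `Q` for `L ^ 162`. -/
private theorem majb_main (h1 : St_LOC) (h2 : St_ACL) (P H T N M Z Q A : ℕ) [NeZero P] (η : ℝ)
    (f : ZMod P → ℂ) (hP : P = H * T) (hH : 1 ≤ H) (hP5 : 5 * N ^ 2 ≤ P) (hZ : 2 ≤ Z)
    (hQ : 1 ≤ Q) (hA : 1 ≤ A) (h3 : Z * A ≤ M) (h4 : M ≤ 2 * Z * A) (h5 : M ≤ N)
    (h6 : 16 * Z ≤ M) (hη : 0 ≤ η) (hf : FlatL H η f) (S : Finset (ZMod P))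
    (hS : ∀ b ∈ S, ∃ q : ℕ, 1 ≤ q ∧ q ≤ Q ∧
      dI ((q : ℝ) * ((b.val : ℝ) / P)) ≤ (Z : ℝ) / (M * N)) :
    ∑ l ∈ Icc (-((4 * A * N : ℕ) : ℤ)) ((4 * A * N : ℕ) : ℤ), ∑ b ∈ S, ‖ft (Fl f l) b‖ ^ 2 ≤
      96 * (Q : ℝ) ^ 2 * (A * N) * (P : ℝ) ^ 2 * (η + 64 * (Z : ℝ) * H / (M * N)) ^ 2 := by
  obtain ⟨a1, a2, a3, a4, a5, a6⟩ := majb_arith P N M Z A hP5 hZ hA h3 h4 h5 h6
  have hM : 1 ≤ M := by omega
  have hN : 1 ≤ N := by omega
  have hP0 : (0 : ℝ) < P := by exact_mod_cast Nat.pos_of_ne_zero (NeZero.ne P)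
  have key : ∀ b ∈ S, ∃ i ∈ (Icc 1 Q ×ˢ range (Q + 1)) ×ˢ Icc (-((2 * P * Z / (M * N) : ℕ) : ℤ))
      ((2 * P * Z / (M * N) : ℕ) : ℤ),
      (((i.1.2 * P / i.1.1 : ℕ) : ZMod P)) + (i.2 : ZMod P) = b := by
    intro b hb
    obtain ⟨q, q1, q2, q3⟩ := hS b hb
    obtain ⟨r, r1, d, hd, e⟩ := majb_near P N M Z q b q1 hM hN a6 q3
    refine ⟨((q, r), d), ?_, e⟩
    simp only [Finset.mem_product, Finset.mem_range]
    exact ⟨⟨Finset.mem_Icc.mpr ⟨q1, q2⟩, by omega⟩, hd⟩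
  have s1 : ∀ l : ℤ, ∑ b ∈ S, ‖ft (Fl f l) b‖ ^ 2 ≤ ∑ i ∈ Icc 1 Q ×ˢ range (Q + 1),
      ∑ d ∈ Icc (-((2 * P * Z / (M * N) : ℕ) : ℤ)) ((2 * P * Z / (M * N) : ℕ) : ℤ),
        ‖ft (Fl f l) (((i.2 * P / i.1 : ℕ) : ZMod P) + (d : ZMod P))‖ ^ 2 := by
    intro l
    have := majb_cover S _ (fun b => ‖ft (Fl f l) b‖ ^ 2) (fun b => by positivity) _ key
    refine this.trans (le_of_eq ?_)
    rw [Finset.sum_product]
  generalize 2 * P * Z / (M * N) = D at a2 s1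
  generalize M * N / (16 * Z) = W at a1 a2 a3 a4 a5
  calc ∑ l ∈ Icc (-((4 * A * N : ℕ) : ℤ)) ((4 * A * N : ℕ) : ℤ), ∑ b ∈ S, ‖ft (Fl f l) b‖ ^ 2
      ≤ ∑ l ∈ Icc (-((4 * A * N : ℕ) : ℤ)) ((4 * A * N : ℕ) : ℤ),
        ∑ i ∈ Icc 1 Q ×ˢ range (Q + 1), ∑ d ∈ Icc (-(D : ℤ)) (D : ℤ),
          ‖ft (Fl f l) (((i.2 * P / i.1 : ℕ) : ZMod P) + (d : ZMod P))‖ ^ 2 :=
        Finset.sum_le_sum fun l _ => s1 l
    _ = ∑ i ∈ Icc 1 Q ×ˢ range (Q + 1),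
        ∑ l ∈ Icc (-((4 * A * N : ℕ) : ℤ)) ((4 * A * N : ℕ) : ℤ), ∑ d ∈ Icc (-(D : ℤ)) (D : ℤ),
          ‖ft (Fl f l) (((i.2 * P / i.1 : ℕ) : ZMod P) + (d : ZMod P))‖ ^ 2 :=
        Finset.sum_comm
    _ ≤ ∑ i ∈ Icc 1 Q ×ˢ range (Q + 1),
        4 * P / (W : ℝ) ^ 2 * (3 * ((4 * A * N : ℕ) : ℝ) * P * (η * W + 2 * H) ^ 2) :=
        Finset.sum_le_sum fun i _ => majb_one h1 h2 P H T W D (4 * A * N) η f hP hH a1 a2 a3 a4
          hη hf _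
    _ = (Q : ℝ) * (Q + 1) *
        (4 * P / (W : ℝ) ^ 2 * (3 * (4 * A * N) * P * (η * W + 2 * H) ^ 2)) := by
        rw [Finset.sum_const, Finset.card_product, Nat.card_Icc, Finset.card_range, nsmul_eq_mul]
        push_cast
        simp
    _ ≤ _ := by
        refine majb_fin P W Z Q A N M H η hP0 (by exact_mod_cast a1) (by exact_mod_cast hQ)
          (by positivity) (by exact_mod_cast hN) (by exact_mod_cast hM) (by positivity) hη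
          (by positivity) (by exact_mod_cast a5)

theorem thm_MAJB (h1 : St_LOC) (h2 : St_ACL) : St_MAJB := by
  intro P H T N M L A _ η f hP hH hP5 hL hA h3 h4 h5 h6 hη hf
  have hZ : 2 ≤ L ^ 300 := by
    have e1 : L ^ 1 ≤ L ^ 300 := Nat.pow_le_pow_right (by omega) (by omega)
    rw [pow_one] at e1
    omega
  have hQ : 1 ≤ L ^ 162 := Nat.one_le_pow _ _ (by omega)
  have hS : ∀ b ∈ MajL P N M L, ∃ q : ℕ, 1 ≤ q ∧ q ≤ L ^ 162 ∧
      dI ((q : ℝ) * ((b.val : ℝ) / P)) ≤ ((L ^ 300 : ℕ) : ℝ) / (M * N) := by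
    intro b hb
    unfold MajL at hb
    obtain ⟨q, q1, q2, q3⟩ := (Finset.mem_filter.mp hb).2
    refine ⟨q, q1, q2, ?_⟩
    rw [Nat.cast_pow]
    exact q3
  have key := majb_main h1 h2 P H T N M (L ^ 300) (L ^ 162) A η f hP hH hP5 hZ hQ hA h3 h4 h5 h6
    hη hf (MajL P N M L) hS
  have e1 : (((L ^ 162 : ℕ) : ℝ)) ^ 2 = (L : ℝ) ^ 324 := by
    rw [Nat.cast_pow, ← pow_mul]
  have e2 : (((L ^ 300 : ℕ) : ℝ)) = (L : ℝ) ^ 300 := Nat.cast_pow _ _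
  rw [e1, e2] at key
  have e3 : ((4 * A * N : ℕ) : ℤ) = 4 * A * N := by push_cast; ring
  rw [e3] at key
  exact key

end Pool.Agent.BSR
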