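import Pool.Agent.BSR.StA

/-!
# BSR, module MIN: minor arcs (helper68 for helper44)
-/

set_option autoImplicit false

namespace Pool.Agent.BSR

open Finset MeasureTheory Filter Topology Pool.Agent.BSQ
open scoped BigOperators
open Classical

theorem thm_MIN (hA : St_MINA) (hB : St_MINB) (hC1 : St_MINC1) (hC2 : St_MINC2) : St_MIN := by
  intro k0
  obtain ⟨La, hA⟩ := hA
  obtain ⟨Lb, hB⟩ := hB
  obtain ⟨c, hC2⟩ := hC2 k0
  refine ⟨200 + c + La + Lb, ?_⟩
  intro L hL n0 N1 M A N l θ hLA hMA hMA2 hMN hNA hn hl1 hl2 hdiv hS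
  have hL0 : 0 < L := by omega
  have hA200 : L ^ 200 ≤ A := (Nat.pow_le_pow_right hL0 (by omega)).trans hLA
  have hAc : L ^ c ≤ A := (Nat.pow_le_pow_right hL0 (by omega)).trans hLA
  have hA1 : 1 ≤ A := le_trans (Nat.one_le_pow _ _ hL0) hA200
  have hAM : A ≤ M := le_trans (Nat.le_mul_of_pos_left A (by positivity)) hMA
  have hMN' : M ≤ N := le_trans (Nat.le_mul_of_pos_right M (by positivity)) hMN
  have hAN : A ≤ N := hAM.trans hMN'
  have hl0 : l ≠ 0 := by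
    rintro rfl
    rw [abs_zero, mul_zero] at hl1
    have : (0 : ℤ) ≤ 4 * (A : ℤ) * N := by positivity
    omega
  have hdl : l.natAbs.divisors.card ≤ L := by
    refine hdiv _ (Int.natAbs_pos.2 hl0) ?_
    have h1 : l.natAbs ≤ 4 * A * N := by
      zify
      exact hl2
    refine h1.trans ?_
    calc 4 * A * N ≤ 4 * N * N := Nat.mul_le_mul_right _ (Nat.mul_le_mul_left _ hAN)
      _ ≤ 16 * N ^ 2 := by nlinarith
  obtain ⟨q, Ps, hq1, hq2, hPs, hPc, hP⟩ := hA L (by omega) n0 N1 M A N l θ hA1 hMA hMA2 hMN hn hl1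
    hdl hS
  obtain ⟨q', hq'1, hq'2, hq'3⟩ := hB L (by omega) M A q θ Ps hA200 hMA (by
      intro j hj1 hj2
      refine hdiv j hj1 (hj2.trans ?_)
      calc A ^ 2 ≤ N ^ 2 := Nat.pow_le_pow_left hAN 2
        _ ≤ 16 * N ^ 2 := by nlinarith) hPs hPc (fun d hd => (hP d hd).2.1)
  have hne : Ps.Nonempty := by
    rw [← Finset.card_pos]
    by_contra h0
    have : Ps.card = 0 := by omega
    rw [this, mul_zero] at hPc
    have : 0 < A ^ 2 := by positivity
    omega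
  have h1 := fun d (hd : d ∈ Ps) => hC1 L n0 N1 M A l θ q q' d (by omega) hA1 hAM hq1 hq'1 hq'2 hq'3
    (hPs hd) (hP d hd).1 (hP d hd).2.2
  obtain ⟨d0, hd0⟩ := hne
  have h2 := hC2 L (by omega) M A N l
    ((4 * q * q' : ℕ) * θ - round ((4 * q * q' : ℕ) * θ)) Ps hAc hMA hMN' hNA hl1 hl2 hPs hPc
    (h1 d0 hd0).1 (fun d hd => ⟨(hP d hd).1, (h1 d hd).2⟩)
  refine ⟨4 * q * q', ?_, ?_, h2⟩
  · have : 0 < 4 * q * q' := by positivity
    omega
  · calc 4 * q * q' ≤ 4 * L ^ 39 * L ^ 122 := Nat.mul_le_mul (Nat.mul_le_mul_left _ hq2) hq'2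
      _ = 4 * L ^ 161 := by
          rw [mul_assoc, ← pow_add]
      _ ≤ L * L ^ 161 := Nat.mul_le_mul_right _ (by omega)
      _ = L ^ 162 := by rw [← pow_succ']

end Pool.Agent.BSR
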