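import Pool.Agent.BSR.StA

/-!
# BSR, module MINA: minor arcs, first step (helper68 for helper44)
-/

set_option autoImplicit false

namespace Pool.Agent.BSR

open Finset MeasureTheory Filter Topology Pool.Agent.BSQ
open scoped BigOperators
open Classical

private theorem mina_pigeon {α : Type} (G : Finset α) (f : α → ℕ) (Q : ℕ)
    (hf : ∀ a ∈ G, 1 ≤ f a ∧ f a ≤ Q)
    (hG : G.Nonempty) : ∃ q, 1 ≤ q ∧ q ≤ Q ∧ G.card ≤ Q * (G.filter fun a => f a = q).card := by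
  obtain ⟨a, ha⟩ := hG
  have hmap : ∀ a ∈ G, f a ∈ Icc 1 Q := fun a ha => Finset.mem_Icc.2 (hf a ha)
  have hne : (Icc 1 Q).Nonempty := ⟨f a, hmap a ha⟩
  by_contra hc
  push Not at hc
  have h1 := Finset.card_eq_sum_card_fiberwise (f := f) (s := G) (t := Icc 1 Q)
    (fun a ha => Finset.mem_coe.2 (hmap a (Finset.mem_coe.1 ha)))
  have h2 : Q * G.card = ∑ b ∈ Icc 1 Q, Q * (G.filter fun x => f x = b).card := by
    rw [← Finset.mul_sum, ← h1]
  have h3 : ∑ b ∈ Icc 1 Q, Q * (G.filter fun x => f x = b).card < ∑ b ∈ Icc 1 Q, G.card := by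
    refine Finset.sum_lt_sum_of_nonempty hne fun b hb => ?_
    exact hc b (Finset.mem_Icc.1 hb).1 (Finset.mem_Icc.1 hb).2
  rw [Finset.sum_const, Nat.card_Icc, Nat.add_sub_cancel, smul_eq_mul] at h3
  omega

private theorem mina_norm (R : Finset (ℤ × ℤ)) (θ : ℝ) :
    ‖∑ p ∈ R, ee (2 * θ * (sqz p : ℝ))‖ ≤ R.card := by
  refine (norm_sum_le _ _).trans ?_
  refine (Finset.sum_le_card_nsmul _ _ 1 fun p _ => ?_).trans (by simp)
  unfold ee
  exact (Complex.norm_exp_ofReal_mul_I _).le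

private theorem mina_num (L A M : ℝ) (S1 S2 S3 : ℝ) (n : ℝ) (hL : 72 ≤ L) (hA : 1 ≤ A)
    (hMA : A ≤ M) (hS : M / (A * L ^ 4) < 1 / A ^ 2 * (S1 + (S2 + S3)))
    (h1 : S1 ≤ 18 * L * L ^ 4 * M * A / L ^ 10)
    (h2 : S2 ≤ n * (2 * L ^ 14 * M / A)) (h3 : S3 ≤ 4 * A ^ 2 * (M / (16 * A * L ^ 4))) :
    A ^ 2 < 4 * L ^ 18 * n := by
  have hL0 : 0 < L := by linarith
  have hA0 : 0 < A := by linarith
  have hM0 : 0 < M := by linarith
  have hT : A * M / L ^ 4 < S1 + (S2 + S3) := by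
    have h4 : A ^ 2 * (M / (A * L ^ 4)) < A ^ 2 * (1 / A ^ 2 * (S1 + (S2 + S3))) :=
      mul_lt_mul_of_pos_left hS (by positivity)
    have e1 : A ^ 2 * (M / (A * L ^ 4)) = A * M / L ^ 4 := by field_simp
    have e2 : A ^ 2 * (1 / A ^ 2 * (S1 + (S2 + S3))) = S1 + (S2 + S3) := by field_simp
    rw [e1, e2] at h4
    exact h4
  have g1 : S1 ≤ A * M / L ^ 4 / 4 := by
    refine h1.trans ?_
    have e1 : 18 * L * L ^ 4 * M * A / L ^ 10 = 18 * (A * M / L ^ 4) / L := by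
      field_simp
    rw [e1, div_le_div_iff₀ hL0 (by norm_num)]
    have h5 : 0 < A * M / L ^ 4 := by positivity
    nlinarith
  have g3 : S3 ≤ A * M / L ^ 4 / 4 := by
    refine h3.trans (le_of_eq ?_)
    field_simp
    ring
  have g2 : A * M / L ^ 4 / 2 < n * (2 * L ^ 14 * M / A) := by
    linarith
  have h6 : A * M / L ^ 4 / 2 * (2 * A * L ^ 4 / M) < n * (2 * L ^ 14 * M / A) * (2 * A * L ^ 4 / M) :=
    mul_lt_mul_of_pos_right g2 (by positivity)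
  have e1 : A * M / L ^ 4 / 2 * (2 * A * L ^ 4 / M) = A ^ 2 := by field_simp
  have e2 : n * (2 * L ^ 14 * M / A) * (2 * A * L ^ 4 / M) = 4 * L ^ 18 * n := by
    field_simp
    ring
  rw [e1, e2] at h6
  exact h6

theorem thm_MINA (hCNT : St_CNT) (hMIND : St_MIND) : St_MINA := by
  obtain ⟨L0, hMIND⟩ := hMIND
  refine ⟨L0 + 100, ?_⟩
  intro L hL n0 N1 M A N l θ hA hMA hMA2 hMN hn hl hdiv hS
  have hL0 : 0 < L := by omega
  have hLr : (72 : ℝ) ≤ L := by exact_mod_cast (by omega : 72 ≤ L)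
  have hL0r : (0 : ℝ) < L := by linarith
  have hL1r : (1 : ℝ) ≤ L := by linarith
  have hAr : (1 : ℝ) ≤ A := by exact_mod_cast hA
  have hA0r : (0 : ℝ) < A := by linarith
  have hAM : A ≤ M := le_trans (Nat.le_mul_of_pos_left A (by positivity)) hMA
  have hAMr : (A : ℝ) ≤ M := by exact_mod_cast hAM
  have hMr : (0 : ℝ) < M := by linarith
  obtain ⟨hC1, hC2, hC3⟩ := hCNT n0 N1 M A N L l hA hAM (by omega) hMN hn hl
  set x : ℤ × ℤ → ℝ := fun d => ‖∑ p ∈ Rl n0 N1 M l d, ee (2 * θ * (sqz p : ℝ))‖ with hx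
  have hx0 : ∀ d, 0 ≤ x d := fun d => norm_nonneg _
  have hx1 : ∀ d, x d ≤ (Rl n0 N1 M l d).card := fun d => mina_norm _ _
  set D1 := (Dif A).filter (fun d => L ^ 10 ≤ Int.gcd d.1 d.2) with hD1
  set D2 := (Dif A).filter (fun d => ¬ L ^ 10 ≤ Int.gcd d.1 d.2) with hD2
  set Q := D2.filter (fun d => (M : ℝ) / (16 * A * (L : ℝ) ^ 4) ≤ x d) with hQ
  set D3 := D2.filter (fun d => ¬ (M : ℝ) / (16 * A * (L : ℝ) ^ 4) ≤ x d) with hD3
  have hsum : ∑ d ∈ Dif A, x d = ∑ d ∈ D1, x d + (∑ d ∈ Q, x d + ∑ d ∈ D3, x d) := by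
    rw [hQ, hD3, Finset.sum_filter_add_sum_filter_not, hD1, hD2,
      Finset.sum_filter_add_sum_filter_not]
  have hne : ∀ d ∈ Q, (Rl n0 N1 M l d).Nonempty := by
    intro d hd
    have h1 := (Finset.mem_filter.1 hd).2
    by_contra h0
    rw [Finset.not_nonempty_iff_eq_empty] at h0
    have h2 := hx1 d
    rw [h0, Finset.card_empty, Nat.cast_zero] at h2
    have h3 : 0 < (M : ℝ) / (16 * A * (L : ℝ) ^ 4) := by positivity
    linarith
  have hQmem : ∀ d ∈ Q, d ∈ Dif A ∧ Int.gcd d.1 d.2 < L ^ 10 ∧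
      (M : ℝ) / (16 * A * (L : ℝ) ^ 4) ≤ x d := by
    intro d hd
    obtain ⟨h1, h2⟩ := Finset.mem_filter.1 hd
    obtain ⟨h3, h4⟩ := Finset.mem_filter.1 h1
    exact ⟨h3, not_le.1 h4, h2⟩
  have hS1 : ∑ d ∈ D1, x d ≤ 18 * L * (L : ℝ) ^ 4 * M * A / (L : ℝ) ^ 10 := by
    refine (Finset.sum_le_sum fun d _ => hx1 d).trans ?_
    refine (hC3 (L ^ 10) (Nat.one_le_pow _ _ hL0)).trans ?_
    rw [Nat.cast_pow]
    refine div_le_div_of_nonneg_right ?_ (by positivity)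
    have h1 : (l.natAbs.divisors.card : ℝ) ≤ L := by exact_mod_cast hdiv
    have h2 : 18 * (l.natAbs.divisors.card : ℝ) ≤ 18 * L := by linarith
    exact mul_le_mul_of_nonneg_right (mul_le_mul_of_nonneg_right
      (mul_le_mul_of_nonneg_right h2 (by positivity)) hMr.le) hA0r.le
  have hMA1 : (1 : ℝ) ≤ (M : ℝ) / A := by rw [one_le_div hA0r]; exact hAMr
  have hS2 : ∑ d ∈ Q, x d ≤ (Q.card : ℝ) * (2 * (L : ℝ) ^ 14 * M / A) := by
    rw [← nsmul_eq_mul]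
    refine Finset.sum_le_card_nsmul _ _ _ fun d hd => ?_
    obtain ⟨h1, h2, h3⟩ := hQmem d hd
    refine (hx1 d).trans ((hC2 d h1 (hne d hd)).trans ?_)
    have h4 : (Int.gcd d.1 d.2 : ℝ) ≤ (L : ℝ) ^ 10 := by exact_mod_cast h2.le
    have h5 : (Int.gcd d.1 d.2 : ℝ) * (L : ℝ) ^ 4 * M / A ≤ (L : ℝ) ^ 14 * (M / A) := by
      have e : (Int.gcd d.1 d.2 : ℝ) * (L : ℝ) ^ 4 * M / A =
          (Int.gcd d.1 d.2 : ℝ) * ((L : ℝ) ^ 4 * (M / A)) := by ring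
      have e2 : (L : ℝ) ^ 14 * ((M : ℝ) / A) = (L : ℝ) ^ 10 * ((L : ℝ) ^ 4 * (M / A)) := by
        rw [← mul_assoc, ← pow_add]
      rw [e, e2]
      exact mul_le_mul_of_nonneg_right h4 (by positivity)
    have h6 : (1 : ℝ) ≤ (L : ℝ) ^ 14 * (M / A) := by
      have := one_le_pow₀ (n := 14) hL1r
      nlinarith
    have e3 : 2 * (L : ℝ) ^ 14 * M / A = (L : ℝ) ^ 14 * (M / A) + (L : ℝ) ^ 14 * (M / A) := by ring
    rw [e3]
    linarith
  have hcardDif : (Dif A).card ≤ 4 * A ^ 2 := by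
    unfold Dif
    rw [Finset.card_product, Int.card_Ioo]
    have : ((A : ℤ) - -(A : ℤ) - 1).toNat ≤ 2 * A := by omega
    calc _ ≤ (2 * A) * (2 * A) := Nat.mul_le_mul this this
      _ = 4 * A ^ 2 := by ring
  have hS3 : ∑ d ∈ D3, x d ≤ 4 * (A : ℝ) ^ 2 * ((M : ℝ) / (16 * A * (L : ℝ) ^ 4)) := by
    have h1 : ∑ d ∈ D3, x d ≤ D3.card • ((M : ℝ) / (16 * A * (L : ℝ) ^ 4)) :=
      Finset.sum_le_card_nsmul _ _ _ fun d hd => (not_le.1 (Finset.mem_filter.1 hd).2).le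
    refine h1.trans ?_
    rw [nsmul_eq_mul]
    refine mul_le_mul_of_nonneg_right ?_ (by positivity)
    have h2 : D3.card ≤ 4 * A ^ 2 :=
      (Finset.card_le_card ((Finset.filter_subset _ _).trans (Finset.filter_subset _ _))).trans
        hcardDif
    exact_mod_cast h2
  have hSl : Sl n0 N1 M A l θ = 1 / (A : ℝ) ^ 2 * (∑ d ∈ D1, x d + (∑ d ∈ Q, x d + ∑ d ∈ D3, x d)) := by
    rw [Sl, ← hsum]
  rw [hSl] at hS
  have hkey := mina_num L A M _ _ _ (Q.card : ℝ) hLr hAr hAMr hS hS1 hS2 hS3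
  have hkey' : A ^ 2 < 4 * L ^ 18 * Q.card := by exact_mod_cast hkey
  have hQne : Q.Nonempty := by
    rw [← Finset.card_pos]
    by_contra h0
    have : Q.card = 0 := by omega
    rw [this, mul_zero] at hkey'
    omega
  have hex : ∀ d ∈ Q, ∃ q : ℕ, 1 ≤ q ∧ q ≤ L ^ 39 ∧
      dI (2 * q * θ * ((d.1 : ℝ) ^ 2 + (d.2 : ℝ) ^ 2)) ≤ (L : ℝ) ^ 105 * ((A : ℝ) / M) ^ 2 ∧
      ∃ p ∈ Rl n0 N1 M l d, dI (4 * q * θ * ((d.2 : ℝ) * p.1 - (d.1 : ℝ) * p.2)) ≤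
        (L : ℝ) ^ 110 * ((A : ℝ) / M) := by
    intro d hd
    obtain ⟨h1, h2, h3⟩ := hQmem d hd
    exact hMIND L (by omega) n0 N1 M A N l θ d hA hMA hMA2 hMN hn hl h1 h2 h3
  choose! f hf1 hf2 hf3 hf4 using hex
  obtain ⟨q, hq1, hq2, hq3⟩ := mina_pigeon Q f (L ^ 39) (fun a ha => ⟨hf1 a ha, hf2 a ha⟩) hQne
  refine ⟨q, Q.filter fun d => f d = q, hq1, hq2, ?_, ?_, ?_⟩
  · intro d hd
    exact (hQmem d (Finset.mem_filter.1 hd).1).1
  · calc A ^ 2 ≤ 4 * L ^ 18 * Q.card := hkey'.le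
      _ ≤ 4 * L ^ 18 * (L ^ 39 * (Q.filter fun d => f d = q).card) := Nat.mul_le_mul_left _ hq3
      _ = 4 * (L ^ 57 * (Q.filter fun d => f d = q).card) := by
          have : L ^ 57 = L ^ 18 * L ^ 39 := by rw [← pow_add]
          rw [this]
          ring
      _ ≤ L ^ 3 * (L ^ 57 * (Q.filter fun d => f d = q).card) := by
          refine Nat.mul_le_mul_right _ ?_
          calc 4 ≤ L := by omega
            _ = L ^ 1 := (pow_one L).symm
            _ ≤ L ^ 3 := Nat.pow_le_pow_right hL0 (by norm_num)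
      _ = L ^ 60 * (Q.filter fun d => f d = q).card := by
          rw [← mul_assoc, ← pow_add]
  · intro d hd
    obtain ⟨h1, h2⟩ := Finset.mem_filter.1 hd
    refine ⟨hC1 d (hQmem d h1).1 (hne d h1), ?_, ?_⟩
    · have := hf3 d h1
      rw [h2] at this
      exact this
    · have := hf4 d h1
      rw [h2] at this
      exact this

end Pool.Agent.BSR
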