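import Pool.Agent.BSR.StA
import Pool.Agent.BSQ.VIN

/-!
# BSR, module MINB: minor arcs, second step (helper68 for helper44)
-/

set_option autoImplicit false

namespace Pool.Agent.BSR

open Finset MeasureTheory Filter Topology Pool.Agent.BSQ
open scoped BigOperators
open Classical

private theorem minb_abs (s : Finset ℤ) : s.card ≤ 2 * (s.image Int.natAbs).card := by
  refine Finset.card_le_mul_card_image s 2 fun k _ => ?_
  calc (s.filter fun x => Int.natAbs x = k).card ≤ ({(k : ℤ), -(k : ℤ)} : Finset ℤ).card := by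
        refine Finset.card_le_card fun x hx => ?_
        have h := (Finset.mem_filter.1 hx).2
        rcases Int.natAbs_eq x with h1 | h1
        · rw [Finset.mem_insert]
          left
          rw [h1, h]
        · rw [Finset.mem_insert, Finset.mem_singleton]
          right
          rw [h1, h]
    _ ≤ 2 := Finset.card_le_two

private theorem minb_pairs (U : Finset ℕ) :
    2 * ((U ×ˢ U).filter fun x => x.2 < x.1).card + U.card = U.card * U.card := by
  have h1 : ((U ×ˢ U).filter fun x => x.2 < x.1).card = ((U ×ˢ U).filter fun x => x.1 < x.2).card := by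
    refine Finset.card_bij (fun x _ => (x.2, x.1)) ?_ ?_ ?_
    · intro x hx
      obtain ⟨h1, h2⟩ := Finset.mem_filter.1 hx
      obtain ⟨h3, h4⟩ := Finset.mem_product.1 h1
      exact Finset.mem_filter.2 ⟨Finset.mem_product.2 ⟨h4, h3⟩, h2⟩
    · intro x _ y _ hxy
      have h1 := congrArg Prod.fst hxy
      have h2 := congrArg Prod.snd hxy
      exact Prod.ext h2 h1
    · intro x hx
      obtain ⟨h1, h2⟩ := Finset.mem_filter.1 hx
      obtain ⟨h3, h4⟩ := Finset.mem_product.1 h1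
      exact ⟨(x.2, x.1), Finset.mem_filter.2 ⟨Finset.mem_product.2 ⟨h4, h3⟩, h2⟩, rfl⟩
  have h2 : U.card = ((U ×ˢ U).filter fun x => x.1 = x.2).card := by
    refine Finset.card_bij (fun x _ => (x, x)) ?_ ?_ ?_
    · intro x hx
      exact Finset.mem_filter.2 ⟨Finset.mem_product.2 ⟨hx, hx⟩, rfl⟩
    · intro x _ y _ hxy
      exact congrArg Prod.fst hxy
    · intro x hx
      obtain ⟨h1, h2⟩ := Finset.mem_filter.1 hx
      obtain ⟨h3, h4⟩ := Finset.mem_product.1 h1
      exact ⟨x.1, h3, Prod.ext rfl h2⟩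
  have h3 : (U ×ˢ U).card = ((U ×ˢ U).filter fun x => x.2 < x.1).card +
      (((U ×ˢ U).filter fun x => x.1 < x.2).card + ((U ×ˢ U).filter fun x => x.1 = x.2).card) := by
    rw [← Finset.card_union_of_disjoint, ← Finset.card_union_of_disjoint]
    · congr 1
      ext x
      simp only [Finset.mem_union, Finset.mem_filter]
      rcases lt_trichotomy x.1 x.2 with h | h | h <;> tauto
    · rw [Finset.disjoint_left]
      intro x h1 h2
      have h3 := (Finset.mem_filter.1 h1).2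
      rcases Finset.mem_union.1 h2 with h4 | h4
      · have h5 := (Finset.mem_filter.1 h4).2
        omega
      · have h5 := (Finset.mem_filter.1 h4).2
        omega
    · rw [Finset.disjoint_left]
      intro x h1 h2
      have h3 := (Finset.mem_filter.1 h1).2
      have h5 := (Finset.mem_filter.1 h2).2
      omega
  rw [Finset.card_product] at h3
  omega

private theorem minb_fiber (U : Finset ℕ) (h L : ℕ) (hU : ∀ a ∈ U, 1 ≤ a)
    (hh : h.divisors.card ≤ L) :
    (((U ×ˢ U).filter fun x => x.2 < x.1).filter fun x => x.1 ^ 2 - x.2 ^ 2 = h).card ≤ L := by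
  refine le_trans ?_ hh
  refine Finset.card_le_card_of_injOn (fun x => x.1 - x.2) ?_ ?_
  · intro x hx
    obtain ⟨h1, h2⟩ := Finset.mem_filter.1 (Finset.mem_coe.1 hx)
    obtain ⟨h3, h4⟩ := Finset.mem_filter.1 h1
    obtain ⟨h5, h6⟩ := Finset.mem_product.1 h3
    have h7 : x.1 ^ 2 - x.2 ^ 2 = (x.1 - x.2) * (x.1 + x.2) := by
      rw [Nat.sq_sub_sq, mul_comm]
    refine Finset.mem_coe.2 (Nat.mem_divisors.2 ⟨?_, ?_⟩)
    · rw [← h2, h7]
      exact Dvd.intro _ rfl
    · rw [← h2, h7]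
      have := hU x.1 h5
      exact Nat.mul_ne_zero (by omega) (by omega)
  · intro x hx y hy hxy
    obtain ⟨h1, h2⟩ := Finset.mem_filter.1 (Finset.mem_coe.1 hx)
    obtain ⟨h3, h4⟩ := Finset.mem_filter.1 h1
    obtain ⟨h1', h2'⟩ := Finset.mem_filter.1 (Finset.mem_coe.1 hy)
    obtain ⟨h3', h4'⟩ := Finset.mem_filter.1 h1'
    simp only at hxy
    have h7 : x.1 ^ 2 - x.2 ^ 2 = (x.1 - x.2) * (x.1 + x.2) := by
      rw [Nat.sq_sub_sq, mul_comm]
    have h8 : y.1 ^ 2 - y.2 ^ 2 = (y.1 - y.2) * (y.1 + y.2) := by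
      rw [Nat.sq_sub_sq, mul_comm]
    have h9 : x.1 + x.2 = y.1 + y.2 := by
      have h10 : (x.1 - x.2) * (x.1 + x.2) = (x.1 - x.2) * (y.1 + y.2) := by
        rw [← h7, h2, hxy, ← h8, h2']
      exact Nat.eq_of_mul_eq_mul_left (by omega) h10
    exact Prod.ext (by omega) (by omega)

private theorem minb_dI_sub (x y c : ℝ) (hx : dI x ≤ c) (hy : dI y ≤ c) : dI (x - y) ≤ 2 * c := by
  unfold dI at *
  refine (round_le (x - y) (round x - round y)).trans ?_
  push_cast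
  have e : x - y - ((round x : ℝ) - round y) = (x - round x) - (y - round y) := by ring
  rw [e]
  calc |x - round x - (y - round y)| ≤ |x - round x| + |y - round y| := abs_sub _ _
    _ ≤ 2 * c := by linarith

theorem thm_MINB : St_MINB := by
  refine ⟨256, ?_⟩
  intro L hL M A q θ Ps hLA hMA hdiv hPs hPc hd
  have hL0 : 0 < L := by omega
  have hLr : (256 : ℝ) ≤ L := by exact_mod_cast hL
  have hL0r : (0 : ℝ) < L := by linarith
  have hL1r : (1 : ℝ) ≤ L := by linarith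
  have hA0 : 0 < A := lt_of_lt_of_le (by positivity) hLA
  have hM0 : 0 < M := lt_of_lt_of_le (by positivity) hMA
  have hAr : (0 : ℝ) < A := by exact_mod_cast hA0
  have hMr : (0 : ℝ) < M := by exact_mod_cast hM0
  have hMAr : (L : ℝ) ^ 300 * A ≤ M := by exact_mod_cast hMA
  have hT1 : (Ioo (-(A : ℤ)) A).card ≤ 2 * A := by
    rw [Int.card_Ioo]
    omega
  have hmem : ∀ d ∈ Ps, d.1 ∈ Ioo (-(A : ℤ)) A ∧ d.2 ∈ Ioo (-(A : ℤ)) A := fun d hd =>
    Finset.mem_product.1 (hPs hd)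
  -- pigeonhole on the second coordinate
  have hb : ∃ b ∈ Ioo (-(A : ℤ)) A, A ≤ 2 * L ^ 60 * (Ps.filter fun d => d.2 = b).card := by
    by_contra hc
    push Not at hc
    have hsum : ∑ b ∈ Ioo (-(A : ℤ)) A, (Ps.filter fun d => d.2 = b).card = Ps.card :=
      (Finset.card_eq_sum_card_fiberwise fun d hd =>
        Finset.mem_coe.2 (hmem d (Finset.mem_coe.1 hd)).2).symm
    have h1 : ∑ b ∈ Ioo (-(A : ℤ)) A, 2 * L ^ 60 * (Ps.filter fun d => d.2 = b).card <
        ∑ b ∈ Ioo (-(A : ℤ)) A, A := by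
      refine Finset.sum_lt_sum_of_nonempty ⟨0, Finset.mem_Ioo.2 ⟨by omega, by omega⟩⟩ ?_
      exact hc
    rw [← Finset.mul_sum, hsum, Finset.sum_const, smul_eq_mul] at h1
    have h2 : (Ioo (-(A : ℤ)) A).card * A ≤ 2 * A * A := Nat.mul_le_mul_right _ hT1
    have h3 : 2 * A * A ≤ 2 * L ^ 60 * Ps.card := by
      calc 2 * A * A = 2 * A ^ 2 := by ring
        _ ≤ 2 * (L ^ 60 * Ps.card) := Nat.mul_le_mul_left _ hPc
        _ = 2 * L ^ 60 * Ps.card := by ring
    omega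
  obtain ⟨b, _, hb⟩ := hb
  set F := (Ps.filter fun d => d.2 = b).image Prod.fst with hF
  have hFcard : F.card = (Ps.filter fun d => d.2 = b).card := by
    refine Finset.card_image_of_injOn ?_
    intro d hd d' hd' he
    have h1 := (Finset.mem_filter.1 (Finset.mem_coe.1 hd)).2
    have h2 := (Finset.mem_filter.1 (Finset.mem_coe.1 hd')).2
    exact Prod.ext he (h1.trans h2.symm)
  rw [← hFcard] at hb
  set U := (F.erase 0).image Int.natAbs with hU
  have hU1 : F.card ≤ 2 * U.card + 1 := by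
    have h2 : (F.erase 0).card ≤ 2 * U.card := minb_abs (F.erase 0)
    have h3 : F.card ≤ (F.erase 0).card + 1 := by
      have := Finset.pred_card_le_card_erase (s := F) (a := (0 : ℤ))
      omega
    omega
  have hL61 : L * L ^ 60 ≤ A := by
    calc L * L ^ 60 = L ^ 61 := by ring
      _ ≤ L ^ 200 := Nat.pow_le_pow_right hL0 (by norm_num)
      _ ≤ A := hLA
  have hAU : A ≤ 8 * (L ^ 60 * U.card) := by
    have h1 : A ≤ 4 * (L ^ 60 * U.card) + 2 * L ^ 60 := by
      calc A ≤ 2 * L ^ 60 * F.card := hb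
        _ ≤ 2 * L ^ 60 * (2 * U.card + 1) := Nat.mul_le_mul_left _ hU1
        _ = _ := by ring
    have h2 : 4 * L ^ 60 ≤ A := le_trans (Nat.mul_le_mul_right _ (by omega)) hL61
    omega
  have hU2 : 2 ≤ U.card := by
    by_contra hc
    have h1 : U.card ≤ 1 := by omega
    have h2 : A ≤ 8 * (L ^ 60 * 1) := hAU.trans (Nat.mul_le_mul_left _ (Nat.mul_le_mul_left _ h1))
    have h3 : 0 < L ^ 60 := by positivity
    have h4 : 9 * L ^ 60 ≤ L * L ^ 60 := Nat.mul_le_mul_right _ (by omega)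
    omega
  have hUmem : ∀ a ∈ U, 1 ≤ a ∧ a ≤ A ∧
      dI (2 * q * θ * ((a : ℝ) ^ 2 + (b : ℝ) ^ 2)) ≤ (L : ℝ) ^ 105 * ((A : ℝ) / M) ^ 2 := by
    intro a ha
    obtain ⟨x, hx, rfl⟩ := Finset.mem_image.1 ha
    obtain ⟨hx0, hx1⟩ := Finset.mem_erase.1 hx
    obtain ⟨d, hd', rfl⟩ := Finset.mem_image.1 hx1
    obtain ⟨hd1, hd2⟩ := Finset.mem_filter.1 hd'
    have h1 := Finset.mem_Ioo.1 (hmem d hd1).1
    refine ⟨Int.natAbs_pos.2 hx0, by omega, ?_⟩
    have h2 := hd d hd1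
    rw [hd2] at h2
    have h3 : (((d.1.natAbs : ℕ) : ℝ)) ^ 2 = (d.1 : ℝ) ^ 2 := by
      rw [Nat.cast_natAbs, Int.cast_abs, sq_abs]
    rw [h3]
    exact h2
  set ε : ℝ := 2 * ((L : ℝ) ^ 105 * ((A : ℝ) / M) ^ 2) with hε
  have hε0 : 0 < ε := by positivity
  set H := (Icc 1 (A ^ 2)).filter (fun h : ℕ => dI ((h : ℝ) * (2 * q * θ)) ≤ ε) with hH
  have hmaps : ∀ x ∈ (U ×ˢ U).filter (fun x => x.2 < x.1), x.1 ^ 2 - x.2 ^ 2 ∈ H := by
    intro x hx
    obtain ⟨h1, h2⟩ := Finset.mem_filter.1 hx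
    obtain ⟨h3, h4⟩ := Finset.mem_product.1 h1
    obtain ⟨g1, g2, g3⟩ := hUmem x.1 h3
    obtain ⟨k1, k2, k3⟩ := hUmem x.2 h4
    have h5 : x.2 ^ 2 < x.1 ^ 2 := Nat.pow_lt_pow_left h2 (by norm_num)
    have h6 : x.1 ^ 2 ≤ A ^ 2 := Nat.pow_le_pow_left g2 2
    refine Finset.mem_filter.2 ⟨Finset.mem_Icc.2 ⟨by omega, by omega⟩, ?_⟩
    have h7 := minb_dI_sub _ _ _ g3 k3
    have h8 : ((x.1 ^ 2 - x.2 ^ 2 : ℕ) : ℝ) * (2 * q * θ) =
        2 * q * θ * ((x.1 : ℝ) ^ 2 + (b : ℝ) ^ 2) - 2 * q * θ * ((x.2 : ℝ) ^ 2 + (b : ℝ) ^ 2) := by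
      rw [Nat.cast_sub h5.le]
      push_cast
      ring
    rw [h8]
    exact h7
  have hcount : ((U ×ˢ U).filter fun x => x.2 < x.1).card ≤ L * H.card := by
    refine Finset.card_le_mul_card_image_of_maps_to hmaps L ?_
    intro h hh
    refine minb_fiber U h L (fun a ha => (hUmem a ha).1) ?_
    have h1 := Finset.mem_Icc.1 (Finset.mem_filter.1 hh).1
    exact hdiv h h1.1 h1.2
  have hpairs := minb_pairs U
  have hfin : A ^ 2 ≤ L ^ 122 * H.card := by
    have h1 : U.card * U.card ≤ 4 * ((U ×ˢ U).filter fun x => x.2 < x.1).card := by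
      have : 2 * U.card ≤ U.card * U.card := Nat.mul_le_mul_right _ hU2
      omega
    calc A ^ 2 ≤ (8 * (L ^ 60 * U.card)) ^ 2 := Nat.pow_le_pow_left hAU 2
      _ = 64 * L ^ 120 * (U.card * U.card) := by
          have : L ^ 120 = (L ^ 60) ^ 2 := by rw [← pow_mul]
          rw [this]
          ring
      _ ≤ 64 * L ^ 120 * (4 * (L * H.card)) :=
          Nat.mul_le_mul_left _ (h1.trans (Nat.mul_le_mul_left _ hcount))
      _ = 256 * (L ^ 121 * H.card) := by
          have : L ^ 121 = L * L ^ 120 := by rw [← pow_succ']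
          rw [this]
          ring
      _ ≤ L * (L ^ 121 * H.card) := Nat.mul_le_mul_right _ hL
      _ = L ^ 122 * H.card := by
          have : L ^ 122 = L * L ^ 121 := by rw [← pow_succ']
          rw [this]
          ring
  have hP : (0 : ℝ) < (L : ℝ) ^ 122 := by positivity
  obtain ⟨q', h1, h2, h3⟩ := thm_VIN (2 * q * θ) (A ^ 2) (1 / (L : ℝ) ^ 122) ε hε0
    (by
      rw [div_div, le_div_iff₀ (by positivity), hε, div_pow]
      have h4 : ((L : ℝ) ^ 300 * A) ^ 2 ≤ (M : ℝ) ^ 2 := pow_le_pow_left₀ (by positivity) hMAr 2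
      have e1 : 2 * ((L : ℝ) ^ 105 * ((A : ℝ) ^ 2 / (M : ℝ) ^ 2)) * ((L : ℝ) ^ 122 * 16) =
          32 * ((L : ℝ) ^ 227 * (A : ℝ) ^ 2) / (M : ℝ) ^ 2 := by
        have : (L : ℝ) ^ 227 = (L : ℝ) ^ 105 * (L : ℝ) ^ 122 := by rw [← pow_add]
        rw [this]
        ring
      rw [e1, div_le_one (by positivity)]
      refine le_trans ?_ h4
      have e2 : ((L : ℝ) ^ 300 * A) ^ 2 = (L : ℝ) ^ 373 * ((L : ℝ) ^ 227 * (A : ℝ) ^ 2) := by
        rw [mul_pow, ← pow_mul, ← mul_assoc, ← pow_add]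
      rw [e2]
      refine mul_le_mul_of_nonneg_right ?_ (by positivity)
      calc (32 : ℝ) ≤ L := by linarith
        _ = (L : ℝ) ^ 1 := (pow_one _).symm
        _ ≤ (L : ℝ) ^ 373 := pow_le_pow_right₀ hL1r (by norm_num))
    (by
      rw [div_le_one hP]
      exact one_le_pow₀ hL1r)
    (by
      rw [div_mul_eq_mul_div, one_mul, lt_div_iff₀ hP, one_mul]
      have h4 : (L : ℝ) ^ 200 ≤ A := by exact_mod_cast hLA
      push_cast
      calc (L : ℝ) ^ 122 < (L : ℝ) ^ 200 := pow_lt_pow_right₀ (by linarith) (by norm_num)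
        _ ≤ A := h4
        _ = (A : ℝ) ^ 1 := (pow_one _).symm
        _ ≤ (A : ℝ) ^ 2 := pow_le_pow_right₀ (by exact_mod_cast hA0) (by norm_num))
    (by
      rw [div_mul_eq_mul_div, one_mul, div_le_iff₀ hP]
      have h4 : ((A ^ 2 : ℕ) : ℝ) ≤ ((L ^ 122 * H.card : ℕ) : ℝ) := by exact_mod_cast hfin
      rw [Nat.cast_mul, Nat.cast_pow L] at h4
      linarith)
  refine ⟨q', h1, ?_, ?_⟩
  · rw [one_div_one_div] at h2
    exact_mod_cast h2
  · refine h3.trans ?_
    have e1 : ε / (1 / (L : ℝ) ^ 122 * ((A ^ 2 : ℕ) : ℝ)) = 2 * ((L : ℝ) ^ 227 / (M : ℝ) ^ 2) := by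
      have : (L : ℝ) ^ 227 = (L : ℝ) ^ 105 * (L : ℝ) ^ 122 := by rw [← pow_add]
      rw [hε, this, div_pow, Nat.cast_pow]
      field_simp
    rw [e1]
    calc 2 * ((L : ℝ) ^ 227 / (M : ℝ) ^ 2) ≤ L * ((L : ℝ) ^ 227 / (M : ℝ) ^ 2) :=
          mul_le_mul_of_nonneg_right (by linarith) (by positivity)
      _ = (L : ℝ) ^ 228 / (M : ℝ) ^ 2 := by
          rw [← mul_div_assoc, ← pow_succ']

end Pool.Agent.BSR
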