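import Pool.Agent.BSR.StA

/-!
# BSR, module MINC1: minor arcs, third step, algebra (helper68 for helper44)
-/

set_option autoImplicit false

namespace Pool.Agent.BSR

open Finset MeasureTheory Filter Topology Pool.Agent.BSQ
open scoped BigOperators
open Classical

private theorem minc1_dI_two (x : ℝ) : dI (2 * x) ≤ 2 * dI x := by
  unfold dI
  refine (round_le (2 * x) (2 * round x)).trans (le_of_eq ?_)
  push_cast
  rw [← mul_sub, abs_mul, abs_two]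

private theorem minc1_core (β x c1 c2 : ℝ) (q' r z1 w : ℤ) (hx : |β * w - (q' * z1 - r * w : ℤ)| ≤ c1)
    (h2 : |x - β * w| ≤ c2) : dI x ≤ c1 + c2 := by
  unfold dI
  refine (round_le x (q' * z1 - r * w)).trans ?_
  have e : x - ((q' * z1 - r * w : ℤ) : ℝ) =
      (β * w - ((q' * z1 - r * w : ℤ) : ℝ)) + (x - β * w) := by ring
  rw [e]
  exact (abs_add_le _ _).trans (add_le_add hx h2)

theorem thm_MINC1 : St_MINC1 := by
  intro L n0 N1 M A l θ q q' d hL hA hAM hq hq' hq'L hdI hd hdA hp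
  obtain ⟨p, hp, hpd⟩ := hp
  have hL2 : (2 : ℝ) ≤ L := by exact_mod_cast hL
  have hL0 : (0 : ℝ) < L := by linarith
  have hL1 : (1 : ℝ) ≤ L := by linarith
  have hAr : (0 : ℝ) < A := by exact_mod_cast hA
  have hA1 : (1 : ℝ) ≤ A := by exact_mod_cast hA
  have hAMr : (A : ℝ) ≤ M := by exact_mod_cast hAM
  have hMr : (0 : ℝ) < M := by linarith
  set β : ℝ := (4 * q * q' : ℕ) * θ - round ((4 * q * q' : ℕ) * θ) with hβ
  have hβ1 : |β| ≤ (L : ℝ) ^ 229 / (M : ℝ) ^ 2 := by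
    have e1 : ((4 * q * q' : ℕ) : ℝ) * θ = 2 * ((q' : ℝ) * (2 * q * θ)) := by
      push_cast
      ring
    have e2 : |β| = dI (2 * ((q' : ℝ) * (2 * q * θ))) := by
      rw [hβ, e1]
      rfl
    rw [e2]
    refine (minc1_dI_two _).trans ?_
    calc 2 * dI ((q' : ℝ) * (2 * q * θ)) ≤ 2 * ((L : ℝ) ^ 228 / (M : ℝ) ^ 2) := by linarith
      _ ≤ L * ((L : ℝ) ^ 228 / (M : ℝ) ^ 2) := mul_le_mul_of_nonneg_right hL2 (by positivity)
      _ = (L : ℝ) ^ 229 / (M : ℝ) ^ 2 := by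
          rw [← mul_div_assoc, ← pow_succ']
  refine ⟨hβ1, ?_⟩
  obtain ⟨hpB, hpB2, hpl⟩ : p ∈ Bx n0 N1 M ∧ p + d ∈ Bx n0 N1 M ∧ sqz (p + d) - sqz p = l := by
    have := Finset.mem_filter.1 hp
    exact ⟨this.1, this.2.1, this.2.2⟩
  obtain ⟨a, b⟩ := d
  obtain ⟨n, m⟩ := p
  have hm : 1 ≤ m ∧ m ≤ (M : ℤ) := Finset.mem_Icc.1 (Finset.mem_product.1 hpB).2
  have ha : -(A : ℤ) < a ∧ a < A := Finset.mem_Ioo.1 (Finset.mem_product.1 hd).1
  have hb : -(A : ℤ) < b ∧ b < A := Finset.mem_Ioo.1 (Finset.mem_product.1 hd).2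
  simp only [sqz, Prod.mk_add_mk] at hpl
  have hl : l = 2 * (a * n + b * m) + a ^ 2 + b ^ 2 := by
    rw [← hpl]
    ring
  have hlr : (l : ℝ) = 2 * ((a : ℝ) * n + b * m) + (a : ℝ) ^ 2 + (b : ℝ) ^ 2 := by
    rw [hl]
    push_cast
    ring
  simp only at hdA hpd ⊢
  have har : |(a : ℝ)| ≤ A := by
    rw [abs_le]
    constructor
    · exact_mod_cast ha.1.le
    · exact_mod_cast ha.2.le
  have hbr : |(b : ℝ)| ≤ A := by
    rw [abs_le]
    constructor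
    · exact_mod_cast hb.1.le
    · exact_mod_cast hb.2.le
  have hLa : (A : ℝ) ≤ (L : ℝ) ^ 4 * |(a : ℝ)| := by
    have : ((A : ℤ) : ℝ) ≤ (((L : ℤ) ^ 4 * |a| : ℤ) : ℝ) := by exact_mod_cast hdA
    push_cast at this
    exact this
  have ha0 : 0 < |(a : ℝ)| := by
    by_contra h
    have : |(a : ℝ)| = 0 := le_antisymm (not_lt.1 h) (abs_nonneg _)
    rw [this, mul_zero] at hLa
    linarith
  have ha0' : (a : ℝ) ≠ 0 := abs_pos.1 ha0
  have hmr : |(m : ℝ)| ≤ M := by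
    rw [abs_le]
    constructor
    · have : (1 : ℝ) ≤ m := by exact_mod_cast hm.1
      linarith
    · exact_mod_cast hm.2
  have hq'r : (q' : ℝ) ≤ (L : ℝ) ^ 122 := by exact_mod_cast hq'L
  -- the first estimate
  have h1 : |β * ((b * n - a * m : ℤ) : ℝ) - (((q' : ℤ) * round (4 * q * θ * ((b : ℝ) * n - (a : ℝ) * m)) -
      round ((4 * q * q' : ℕ) * θ) * (b * n - a * m) : ℤ) : ℝ)| ≤ (L : ℝ) ^ 232 * ((A : ℝ) / M) := by
    have e : β * ((b * n - a * m : ℤ) : ℝ) - (((q' : ℤ) * round (4 * q * θ * ((b : ℝ) * n - (a : ℝ) * m)) -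
      round ((4 * q * q' : ℕ) * θ) * (b * n - a * m) : ℤ) : ℝ) =
        q' * (4 * q * θ * ((b : ℝ) * n - (a : ℝ) * m) -
          round (4 * q * θ * ((b : ℝ) * n - (a : ℝ) * m))) := by
      rw [hβ]
      push_cast
      ring
    rw [e, abs_mul, Nat.abs_cast]
    calc (q' : ℝ) * |4 * q * θ * ((b : ℝ) * n - (a : ℝ) * m) -
          round (4 * q * θ * ((b : ℝ) * n - (a : ℝ) * m))|
        ≤ (L : ℝ) ^ 122 * ((L : ℝ) ^ 110 * ((A : ℝ) / M)) :=
          mul_le_mul hq'r hpd (abs_nonneg _) (by positivity)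
      _ = (L : ℝ) ^ 232 * ((A : ℝ) / M) := by
          rw [← mul_assoc, ← pow_add]
  have h2 : |(b : ℝ) * (β * l / (2 * a)) - β * ((b * n - a * m : ℤ) : ℝ)| ≤
      3 * (L : ℝ) ^ 233 * ((A : ℝ) / M) := by
    have e : (b : ℝ) * (β * l / (2 * a)) - β * ((b * n - a * m : ℤ) : ℝ) =
        β * (((a : ℝ) ^ 2 + (b : ℝ) ^ 2) / a) * (m + b / 2) := by
      rw [hlr]
      push_cast
      field_simp
      ring
    have h3 : |((a : ℝ) ^ 2 + (b : ℝ) ^ 2) / a| ≤ 2 * (L : ℝ) ^ 4 * A := by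
      rw [abs_div, div_le_iff₀ ha0]
      have h4 : |(a : ℝ) ^ 2 + (b : ℝ) ^ 2| ≤ 2 * (A : ℝ) ^ 2 := by
        rw [abs_of_nonneg (by positivity), ← sq_abs (a : ℝ), ← sq_abs (b : ℝ)]
        have h5 := pow_le_pow_left₀ (abs_nonneg (a : ℝ)) har 2
        have h6 := pow_le_pow_left₀ (abs_nonneg (b : ℝ)) hbr 2
        linarith
      calc |(a : ℝ) ^ 2 + (b : ℝ) ^ 2| ≤ 2 * (A : ℝ) ^ 2 := h4
        _ = 2 * A * A := by ring
        _ ≤ 2 * A * ((L : ℝ) ^ 4 * |(a : ℝ)|) := mul_le_mul_of_nonneg_left hLa (by positivity)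
        _ = 2 * (L : ℝ) ^ 4 * A * |(a : ℝ)| := by ring
    have h7 : |(m : ℝ) + b / 2| ≤ 3 / 2 * M := by
      calc |(m : ℝ) + b / 2| ≤ |(m : ℝ)| + |(b : ℝ) / 2| := abs_add_le _ _
        _ ≤ M + M / 2 := by
            refine add_le_add hmr ?_
            rw [abs_div, abs_two]
            linarith
        _ = 3 / 2 * M := by ring
    rw [e, abs_mul, abs_mul]
    calc |β| * |((a : ℝ) ^ 2 + (b : ℝ) ^ 2) / a| * |(m : ℝ) + b / 2| ≤
          ((L : ℝ) ^ 229 / (M : ℝ) ^ 2) * (2 * (L : ℝ) ^ 4 * A) * (3 / 2 * M) := by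
          refine mul_le_mul (mul_le_mul hβ1 h3 (abs_nonneg _) (by positivity)) h7 (abs_nonneg _)
            (by positivity)
      _ = 3 * (L : ℝ) ^ 233 * ((A : ℝ) / M) := by
          have : (L : ℝ) ^ 233 = (L : ℝ) ^ 229 * (L : ℝ) ^ 4 := by rw [← pow_add]
          rw [this]
          field_simp
  refine (minc1_core β _ _ _ _ _ _ _ h1 h2).trans ?_
  rw [← add_mul]
  refine mul_le_mul_of_nonneg_right ?_ (by positivity)
  have e1 : (L : ℝ) ^ 235 = (L : ℝ) ^ 2 * (L : ℝ) ^ 233 := by rw [← pow_add]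
  have e2 : (L : ℝ) ^ 232 ≤ (L : ℝ) ^ 233 := pow_le_pow_right₀ hL1 (by norm_num)
  have e3 : (4 : ℝ) ≤ (L : ℝ) ^ 2 := by nlinarith
  have e4 : 0 < (L : ℝ) ^ 233 := by positivity
  rw [e1]
  nlinarith

end Pool.Agent.BSR
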