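import Pool.Agent.BSR.StA
import Pool.Agent.BSQ.VIN

/-!
# BSR, module MINC2: minor arcs, third step, divided differences (helper68 for helper44)
-/

set_option autoImplicit false

namespace Pool.Agent.BSR

open Finset MeasureTheory Filter Topology Pool.Agent.BSQ
open scoped BigOperators
open Classical

private theorem minc2_dI_neg (t : ℝ) : dI (-t) = dI t := by
  have h : ∀ t : ℝ, dI (-t) ≤ dI t := by
    intro t
    unfold dI
    have h1 := round_le (-t) (-round t)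
    refine h1.trans (le_of_eq ?_)
    push_cast
    rw [← abs_neg]
    congr 1
    ring
  refine le_antisymm (h t) ?_
  have := h (-t)
  rwa [neg_neg] at this

private theorem minc2_many (T : Finset ℤ) (u : ℤ → ℕ) (A B n : ℕ) (hA : 1 ≤ A)
    (hT : T.card ≤ 2 * A) (hu : ∀ a ∈ T, u a ≤ 2 * A) (hn : ∑ a ∈ T, u a = n)
    (h : A ^ 2 ≤ B * n) : A ≤ 4 * B * (T.filter fun a => A ≤ 4 * B * u a).card := by
  by_contra hc
  push Not at hc
  have h1 : ∑ a ∈ T.filter (fun a => A ≤ 4 * B * u a), 4 * B * u a +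
      ∑ a ∈ T.filter (fun a => ¬ A ≤ 4 * B * u a), 4 * B * u a = ∑ a ∈ T, 4 * B * u a :=
    Finset.sum_filter_add_sum_filter_not _ _ _
  have h2 : ∑ a ∈ T.filter (fun a => A ≤ 4 * B * u a), 4 * B * u a ≤
      (T.filter (fun a => A ≤ 4 * B * u a)).card * (4 * B * (2 * A)) := by
    rw [← smul_eq_mul]
    refine Finset.sum_le_card_nsmul _ _ _ fun a ha => ?_
    exact Nat.mul_le_mul_left _ (hu a (Finset.mem_filter.1 ha).1)
  have h3 : ∑ a ∈ T.filter (fun a => ¬ A ≤ 4 * B * u a), 4 * B * u a ≤ 2 * A * A := by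
    calc ∑ a ∈ T.filter (fun a => ¬ A ≤ 4 * B * u a), 4 * B * u a
        ≤ (T.filter (fun a => ¬ A ≤ 4 * B * u a)).card • A := by
          refine Finset.sum_le_card_nsmul _ _ _ fun a ha => ?_
          exact (not_le.1 (Finset.mem_filter.1 ha).2).le
      _ ≤ 2 * A * A := by
          rw [smul_eq_mul]
          exact Nat.mul_le_mul_right _ ((Finset.card_le_card (Finset.filter_subset _ _)).trans hT)
  have h1' : ∑ a ∈ T, 4 * B * u a = 4 * B * n := by rw [← Finset.mul_sum, hn]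
  rw [h1'] at h1
  generalize (T.filter fun a => A ≤ 4 * B * u a).card = g at *
  obtain ⟨r, hr⟩ : ∃ r, 4 * B * g + 1 + r = A := ⟨A - (4 * B * g + 1), by omega⟩
  have h4 : 4 * A ^ 2 ≤ g * (4 * B * (2 * A)) + 2 * A * A := by
    calc 4 * A ^ 2 ≤ 4 * (B * n) := Nat.mul_le_mul_left 4 h
      _ = 4 * B * n := by ring
      _ ≤ _ := by rw [← h1]; exact Nat.add_le_add h2 h3
  have h5 : g * (4 * B * (2 * A)) + 2 * A ≤ 2 * A * A := by
    calc g * (4 * B * (2 * A)) + 2 * A = (4 * B * g + 1) * (2 * A) := by ring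
      _ ≤ A * (2 * A) := Nat.mul_le_mul_right _ (by omega)
      _ = 2 * A * A := by ring
  nlinarith

private theorem minc2_abs (s : Finset ℤ) : s.card ≤ 2 * (s.image Int.natAbs).card := by
  refine Finset.card_le_mul_card_image s 2 fun k _ => ?_
  calc (s.filter fun x => Int.natAbs x = k).card ≤ ({(k : ℤ), -(k : ℤ)} : Finset ℤ).card := by
        refine Finset.card_le_card fun x hx => ?_
        have h := (Finset.mem_filter.1 hx).2
        rcases Int.natAbs_eq x with h1 | h1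
        · rw [Finset.mem_insert]
          left
          rw [h1, h]
        · rw [Finset.mem_insert, Finset.mem_singleton]
          right
          rw [h1, h]
    _ ≤ 2 := Finset.card_le_two

private theorem minc2_vin (A L : ℕ) (Bs : Finset ℤ) (θ ε : ℝ) (hL : 16 ≤ L) (hA : L ^ 62 ≤ A)
    (hB : ∀ b ∈ Bs, b.natAbs ≤ A ∧ dI ((b : ℝ) * θ) ≤ ε) (hcard : A ≤ 4 * L ^ 60 * Bs.card)
    (hε : 0 < ε) (hε' : ε ≤ 1 / (L : ℝ) ^ 65) :
    ∃ q : ℕ, 1 ≤ q ∧ q ≤ L ^ 61 ∧ dI ((q : ℝ) * θ) ≤ ε * (L : ℝ) ^ 61 / A := by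
  have hL0 : 0 < L := by omega
  have hLr : (0 : ℝ) < L := by exact_mod_cast hL0
  have hL16 : (16 : ℝ) ≤ L := by exact_mod_cast hL
  set I := (Bs.erase 0).image Int.natAbs with hI
  have h1 : Bs.card ≤ 2 * I.card + 1 := by
    have h2 : (Bs.erase 0).card ≤ 2 * I.card := minc2_abs (Bs.erase 0)
    have h3 : Bs.card ≤ (Bs.erase 0).card + 1 := by
      have := Finset.pred_card_le_card_erase (s := Bs) (a := (0 : ℤ))
      omega
    omega
  have hp : 8 * L ^ 60 ≤ A := by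
    calc 8 * L ^ 60 ≤ L * L ^ 60 := Nat.mul_le_mul_right _ (by omega)
      _ = L ^ 61 := by ring
      _ ≤ L ^ 62 := Nat.pow_le_pow_right hL0 (by norm_num)
      _ ≤ A := hA
  have hAI : A ≤ L ^ 61 * I.card := by
    have h2 : A ≤ 8 * L ^ 60 * I.card + 4 * L ^ 60 := by
      calc A ≤ 4 * L ^ 60 * Bs.card := hcard
        _ ≤ 4 * L ^ 60 * (2 * I.card + 1) := Nat.mul_le_mul_left _ h1
        _ = _ := by ring
    have h3 : A ≤ 16 * (L ^ 60 * I.card) := by
      have e : 8 * L ^ 60 * I.card = 8 * (L ^ 60 * I.card) := by ring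
      omega
    calc A ≤ 16 * (L ^ 60 * I.card) := h3
      _ ≤ L * (L ^ 60 * I.card) := Nat.mul_le_mul_right _ hL
      _ = L ^ 61 * I.card := by ring
  have hA0 : 0 < A := lt_of_lt_of_le (by positivity) hA
  have hAr : (0 : ℝ) < A := by exact_mod_cast hA0
  have hsub : I ⊆ (Icc 1 A).filter (fun h : ℕ => dI ((h : ℝ) * θ) ≤ ε) := by
    intro k hk
    obtain ⟨b, hb, rfl⟩ := Finset.mem_image.1 hk
    obtain ⟨hb0, hb1⟩ := Finset.mem_erase.1 hb
    obtain ⟨h2, h3⟩ := hB b hb1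
    refine Finset.mem_filter.2 ⟨Finset.mem_Icc.2 ⟨Int.natAbs_pos.2 hb0, h2⟩, ?_⟩
    have h4 : ((b.natAbs : ℕ) : ℝ) = |(b : ℝ)| := by
      rw [Nat.cast_natAbs, Int.cast_abs]
    rw [h4]
    rcases abs_choice (b : ℝ) with h5 | h5
    · rw [h5]
      exact h3
    · rw [h5, neg_mul, minc2_dI_neg]
      exact h3
  have hP61 : (0 : ℝ) < (L : ℝ) ^ 61 := by positivity
  have e1 : 1 / (L : ℝ) ^ 61 * A ≤ (I.card : ℝ) := by
    rw [div_mul_eq_mul_div, one_mul, div_le_iff₀ hP61]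
    have : (A : ℝ) ≤ (L : ℝ) ^ 61 * I.card := by exact_mod_cast hAI
    linarith
  obtain ⟨q, hq1, hq2, hq3⟩ := thm_VIN θ A (1 / (L : ℝ) ^ 61) ε hε (by
      refine hε'.trans ?_
      rw [div_div, div_le_div_iff₀ (by positivity) (by positivity), one_mul, one_mul]
      calc (L : ℝ) ^ 61 * 16 ≤ (L : ℝ) ^ 61 * (L : ℝ) ^ 4 := by
            refine mul_le_mul_of_nonneg_left ?_ hP61.le
            calc (16 : ℝ) ≤ L := hL16
              _ = (L : ℝ) ^ 1 := (pow_one _).symm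
              _ ≤ (L : ℝ) ^ 4 := pow_le_pow_right₀ (by linarith) (by norm_num)
        _ = (L : ℝ) ^ 65 := by rw [← pow_add])
    (by
      rw [div_le_one hP61]
      exact one_le_pow₀ (by linarith))
    (by
      rw [div_mul_eq_mul_div, one_mul, lt_div_iff₀ hP61, one_mul]
      have h2 : (L : ℝ) ^ 62 ≤ A := by exact_mod_cast hA
      refine lt_of_lt_of_le ?_ h2
      exact pow_lt_pow_right₀ (by linarith) (by norm_num))
    (e1.trans (by exact_mod_cast Finset.card_le_card hsub))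
  refine ⟨q, hq1, ?_, ?_⟩
  · rw [one_div_one_div] at hq2
    exact_mod_cast hq2
  · refine hq3.trans (le_of_eq ?_)
    field_simp

private theorem minc2_pigeon (G : Finset ℤ) (f : ℤ → ℕ) (Q : ℕ) (hf : ∀ a ∈ G, 1 ≤ f a ∧ f a ≤ Q)
    (hG : G.Nonempty) : ∃ q, 1 ≤ q ∧ q ≤ Q ∧ G.card ≤ Q * (G.filter fun a => f a = q).card := by
  obtain ⟨a, ha⟩ := hG
  have hmap : ∀ a ∈ G, f a ∈ Icc 1 Q := fun a ha => Finset.mem_Icc.2 (hf a ha)
  have hne : (Icc 1 Q).Nonempty := ⟨f a, hmap a ha⟩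
  by_contra hc
  push Not at hc
  have h1 := Finset.card_eq_sum_card_fiberwise (f := f) (s := G) (t := Icc 1 Q)
    (fun a ha => Finset.mem_coe.2 (hmap a (Finset.mem_coe.1 ha)))
  have h2 : Q * G.card = ∑ b ∈ Icc 1 Q, Q * (G.filter fun x => f x = b).card := by
    rw [← Finset.mul_sum, ← h1]
  have h3 : ∑ b ∈ Icc 1 Q, Q * (G.filter fun x => f x = b).card < ∑ b ∈ Icc 1 Q, G.card := by
    refine Finset.sum_lt_sum_of_nonempty hne fun b hb => ?_
    exact hc b (Finset.mem_Icc.1 hb).1 (Finset.mem_Icc.1 hb).2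
  rw [Finset.sum_const, Nat.card_Icc, Nat.add_sub_cancel, smul_eq_mul] at h3
  omega

private theorem minc2_fin (L A M N q : ℕ) (l β : ℝ) (hL : 2 ≤ L) (hA : 1 ≤ A) (hM : 1 ≤ M)
    (hN : 1 ≤ N) (hq : 1 ≤ q) (hl : 4 * (A : ℝ) * N < (L : ℝ) ^ 4 * |l|)
    (hX : |(q : ℝ) * (β * l / 2)| ≤ A * ((L : ℝ) ^ 296 / M)) :
    |β| ≤ (L : ℝ) ^ 300 / (M * N) := by
  have hLr : (0 : ℝ) < L := by exact_mod_cast (by omega : 0 < L)
  have hAr : (0 : ℝ) < A := by exact_mod_cast hA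
  have hMr : (0 : ℝ) < M := by exact_mod_cast hM
  have hNr : (0 : ℝ) < N := by exact_mod_cast hN
  have hqr : (1 : ℝ) ≤ q := by exact_mod_cast hq
  have h1 : |β| * |l| / 2 ≤ A * ((L : ℝ) ^ 296 / M) := by
    refine le_trans ?_ hX
    rw [abs_mul, abs_div, abs_mul, abs_of_pos (by linarith : (0 : ℝ) < q), abs_two]
    have : 0 ≤ |β| * |l| / 2 := by positivity
    nlinarith
  have h2 : |β| * (4 * (A : ℝ) * N) ≤ |β| * ((L : ℝ) ^ 4 * |l|) :=
    mul_le_mul_of_nonneg_left hl.le (abs_nonneg β)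
  have h3 : |β| * (4 * (A : ℝ) * N) ≤ 2 * A * ((L : ℝ) ^ 300 / M) := by
    calc |β| * (4 * (A : ℝ) * N) ≤ |β| * ((L : ℝ) ^ 4 * |l|) := h2
      _ = (L : ℝ) ^ 4 * 2 * (|β| * |l| / 2) := by ring
      _ ≤ (L : ℝ) ^ 4 * 2 * (A * ((L : ℝ) ^ 296 / M)) :=
          mul_le_mul_of_nonneg_left h1 (by positivity)
      _ = 2 * A * ((L : ℝ) ^ 300 / M) := by
          have : (L : ℝ) ^ 300 = (L : ℝ) ^ 4 * (L : ℝ) ^ 296 := by rw [← pow_add]
          rw [this]
          ring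
  have h4 : 2 * |β| * N ≤ (L : ℝ) ^ 300 / M := by
    have h5 : (2 * (A : ℝ)) * (2 * |β| * N) ≤ (2 * A) * ((L : ℝ) ^ 300 / M) := by
      calc (2 * (A : ℝ)) * (2 * |β| * N) = |β| * (4 * (A : ℝ) * N) := by ring
        _ ≤ _ := h3
    exact le_of_mul_le_mul_left h5 (by positivity)
  rw [le_div_iff₀ (by positivity)]
  rw [le_div_iff₀ hMr] at h4
  have h6 : 0 ≤ |β| * (M * N) := by positivity
  nlinarith

private theorem minc2_X (L A M N q k0 : ℕ) (l β : ℝ) (hL : 2 ≤ L) (hA : 1 ≤ A)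
    (hM : L ^ 300 * A ≤ M) (hN : N ≤ A ^ k0) (hq : q ≤ L ^ 61) (hl : |l| ≤ 4 * A * N)
    (hβ : |β| ≤ (L : ℝ) ^ 229 / (M : ℝ) ^ 2) :
    |(q : ℝ) * (β * l / 2)| ≤ (A : ℝ) ^ k0 := by
  have hLr : (1 : ℝ) < L := by exact_mod_cast (by omega : 1 < L)
  have hL0 : (0 : ℝ) < L := by linarith
  have hAr : (1 : ℝ) ≤ A := by exact_mod_cast hA
  have hMr : (L : ℝ) ^ 300 * A ≤ M := by exact_mod_cast hM
  have hM1 : (1 : ℝ) ≤ M := le_trans (by
    have := one_le_pow₀ (n := 300) hLr.le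
    nlinarith) hMr
  have hM0 : (0 : ℝ) < M := by linarith
  have hqr : (q : ℝ) ≤ (L : ℝ) ^ 61 := by exact_mod_cast hq
  have hNr : (N : ℝ) ≤ (A : ℝ) ^ k0 := by exact_mod_cast hN
  refine le_trans ?_ hNr
  rw [abs_mul, abs_div, abs_mul, abs_two, Nat.abs_cast]
  calc (q : ℝ) * (|β| * |l| / 2) ≤
        (L : ℝ) ^ 61 * ((L : ℝ) ^ 229 / (M : ℝ) ^ 2 * (4 * A * N) / 2) := by
        refine mul_le_mul hqr ?_ (by positivity) (by positivity)
        refine div_le_div_of_nonneg_right ?_ (by norm_num)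
        exact mul_le_mul hβ hl (abs_nonneg _) (by positivity)
    _ = (2 * (L : ℝ) ^ 290 * A) * N / (M : ℝ) ^ 2 := by
        have : (L : ℝ) ^ 290 = (L : ℝ) ^ 61 * (L : ℝ) ^ 229 := by rw [← pow_add]
        rw [this]
        ring
    _ ≤ (M : ℝ) ^ 2 * N / (M : ℝ) ^ 2 := by
        refine div_le_div_of_nonneg_right ?_ (by positivity)
        refine mul_le_mul_of_nonneg_right ?_ (by positivity)
        calc 2 * (L : ℝ) ^ 290 * A ≤ (L : ℝ) ^ 10 * (L : ℝ) ^ 290 * A := by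
              have h2 : (2 : ℝ) ≤ (L : ℝ) ^ 10 := by
                have hL2 : (2 : ℝ) ≤ L := by exact_mod_cast hL
                calc (2 : ℝ) ≤ L := hL2
                  _ = (L : ℝ) ^ 1 := (pow_one _).symm
                  _ ≤ (L : ℝ) ^ 10 := pow_le_pow_right₀ hLr.le (by norm_num)
              have h3 : 0 ≤ (L : ℝ) ^ 290 * A := by positivity
              nlinarith
          _ = (L : ℝ) ^ 300 * A := by
              have : (L : ℝ) ^ 300 = (L : ℝ) ^ 10 * (L : ℝ) ^ 290 := by rw [← pow_add]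
              rw [this]
          _ ≤ M := hMr
          _ = M * 1 := (mul_one _).symm
          _ ≤ M * M := mul_le_mul_of_nonneg_left hM1 hM0.le
          _ = (M : ℝ) ^ 2 := (sq _).symm
    _ = N := by field_simp

theorem thm_MINC2 (hDD : St_DD) : St_MINC2 := by
  intro k0
  obtain ⟨C, hC⟩ := hDD k0
  refine ⟨122 * C + 200, ?_⟩
  intro L hcL M A N l β Ps hAc hMA hMN hNA hl1 hl2 hPs hPc hβ hd
  have hL200 : 200 ≤ L := by omega
  have hL0 : 0 < L := by omega
  have hL1r : (1 : ℝ) ≤ L := by exact_mod_cast (by omega : 1 ≤ L)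
  have hL0r : (0 : ℝ) < L := by linarith
  have hA200 : L ^ 200 ≤ A := (Nat.pow_le_pow_right hL0 (by omega)).trans hAc
  have hA62 : L ^ 62 ≤ A := (Nat.pow_le_pow_right hL0 (by norm_num)).trans hA200
  have hA0 : 0 < A := lt_of_lt_of_le (by positivity) hA62
  have hM0 : 0 < M := lt_of_lt_of_le (by positivity) hMA
  have hAr : (0 : ℝ) < A := by exact_mod_cast hA0
  have hMr : (0 : ℝ) < M := by exact_mod_cast hM0
  have hMAr : (L : ℝ) ^ 300 * A ≤ M := by exact_mod_cast hMA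
  set ε : ℝ := (L : ℝ) ^ 235 * ((A : ℝ) / M) with hε
  have hε0 : 0 < ε := by positivity
  have hε1 : ε ≤ 1 / (L : ℝ) ^ 65 := by
    rw [hε, ← mul_div_assoc, div_le_div_iff₀ hMr (by positivity), one_mul]
    calc (L : ℝ) ^ 235 * A * (L : ℝ) ^ 65 = (L : ℝ) ^ 300 * A := by
          have : (L : ℝ) ^ 300 = (L : ℝ) ^ 235 * (L : ℝ) ^ 65 := by rw [← pow_add]
          rw [this]
          ring
      _ ≤ (M : ℝ) := hMAr
  -- the values of the first coordinate
  have hT1 : (Ioo (-(A : ℤ)) A).card ≤ 2 * A := by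
    rw [Int.card_Ioo]
    omega
  have hmem : ∀ d ∈ Ps, d.1 ∈ Ioo (-(A : ℤ)) A ∧ d.2 ∈ Ioo (-(A : ℤ)) A := fun d hd =>
    Finset.mem_product.1 (hPs hd)
  have hFcard : ∀ a : ℤ, ((Ps.filter fun d => d.1 = a).image Prod.snd).card =
      (Ps.filter fun d => d.1 = a).card := by
    intro a
    refine Finset.card_image_of_injOn ?_
    intro d hd d' hd' he
    have h1 := (Finset.mem_filter.1 (Finset.mem_coe.1 hd)).2
    have h2 := (Finset.mem_filter.1 (Finset.mem_coe.1 hd')).2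
    exact Prod.ext (h1.trans h2.symm) he
  have hFle : ∀ a ∈ Ioo (-(A : ℤ)) A, (Ps.filter fun d => d.1 = a).card ≤ 2 * A := by
    intro a _
    rw [← hFcard a]
    refine (Finset.card_le_card ?_).trans hT1
    intro b hb
    obtain ⟨d, hd, rfl⟩ := Finset.mem_image.1 hb
    exact (hmem d (Finset.mem_filter.1 hd).1).2
  have hsum : ∑ a ∈ Ioo (-(A : ℤ)) A, (Ps.filter fun d => d.1 = a).card = Ps.card :=
    (Finset.card_eq_sum_card_fiberwise fun d hd =>
      Finset.mem_coe.2 (hmem d (Finset.mem_coe.1 hd)).1).symm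
  have hG := minc2_many (Ioo (-(A : ℤ)) A) (fun a => (Ps.filter fun d => d.1 = a).card) A (L ^ 60)
    Ps.card hA0 hT1 hFle hsum hPc
  set G := (Ioo (-(A : ℤ)) A).filter
    (fun a => A ≤ 4 * L ^ 60 * (Ps.filter fun d => d.1 = a).card) with hGdef
  have hGne : G.Nonempty := by
    rw [← Finset.card_pos]
    by_contra h0
    have : G.card = 0 := by omega
    rw [this, mul_zero] at hG
    omega
  have hex : ∀ a ∈ G, ∃ q : ℕ, 1 ≤ q ∧ q ≤ L ^ 61 ∧
      dI ((q : ℝ) * (β * l / (2 * (a : ℝ)))) ≤ ε * (L : ℝ) ^ 61 / A := by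
    intro a ha
    refine minc2_vin A L ((Ps.filter fun d => d.1 = a).image Prod.snd) (β * l / (2 * (a : ℝ))) ε
      (by omega) hA62 ?_ ?_ hε0 hε1
    · intro b hb
      obtain ⟨d, hd', rfl⟩ := Finset.mem_image.1 hb
      obtain ⟨hd1, hd2⟩ := Finset.mem_filter.1 hd'
      have h1 := Finset.mem_Ioo.1 (hmem d hd1).2
      refine ⟨by omega, ?_⟩
      have h2 := (hd d hd1).2
      rw [hd2] at h2
      exact h2
    · rw [hFcard a]
      exact (Finset.mem_filter.1 ha).2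
  choose! f hf1 hf2 hf3 using hex
  obtain ⟨q, hq1, hq2, hq3⟩ := minc2_pigeon G f (L ^ 61) (fun a ha => ⟨hf1 a ha, hf2 a ha⟩) hGne
  set Gq := G.filter fun a => f a = q with hGq
  have hGq2 := minc2_abs Gq
  have hAcard : A ≤ L ^ 122 * (Gq.image Int.natAbs).card := by
    calc A ≤ 4 * L ^ 60 * G.card := hG
      _ ≤ 4 * L ^ 60 * (L ^ 61 * (2 * (Gq.image Int.natAbs).card)) :=
          Nat.mul_le_mul_left _ (hq3.trans (Nat.mul_le_mul_left _ hGq2))
      _ = 8 * (L ^ 121 * (Gq.image Int.natAbs).card) := by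
          have : L ^ 121 = L ^ 60 * L ^ 61 := by rw [← pow_add]
          rw [this]
          ring
      _ ≤ L * (L ^ 121 * (Gq.image Int.natAbs).card) := Nat.mul_le_mul_right _ (by omega)
      _ = L ^ 122 * (Gq.image Int.natAbs).card := by
          have : L ^ 122 = L * L ^ 121 := by rw [← pow_succ']
          rw [this]
          ring
  have hGmem : ∀ a ∈ G, (∃ d ∈ Ps, d.1 = a) ∧ a ∈ Ioo (-(A : ℤ)) A := by
    intro a ha
    obtain ⟨h1, h2⟩ := Finset.mem_filter.1 ha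
    refine ⟨?_, h1⟩
    have h3 : (Ps.filter fun d => d.1 = a).Nonempty := by
      rw [← Finset.card_pos]
      by_contra h0
      have : (Ps.filter fun d => d.1 = a).card = 0 := by omega
      rw [this, mul_zero] at h2
      omega
    obtain ⟨d, hd'⟩ := h3
    exact ⟨d, (Finset.mem_filter.1 hd').1, (Finset.mem_filter.1 hd').2⟩
  have hKC : (L ^ 122) ^ C ≤ A := by
    rw [← pow_mul]
    exact (Nat.pow_le_pow_right hL0 (by omega)).trans hAc
  have hDDres := hC (L ^ 122) A (Gq.image Int.natAbs) ((q : ℝ) * (β * l / 2)) ((L : ℝ) ^ 296 / M)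
    (by
      calc C ≤ L := by omega
        _ = L ^ 1 := (pow_one L).symm
        _ ≤ L ^ 122 := Nat.pow_le_pow_right hL0 (by norm_num)) hKC
    (by
      intro k hk
      obtain ⟨a, ha, rfl⟩ := Finset.mem_image.1 hk
      obtain ⟨⟨d, hd1, rfl⟩, ha2⟩ := hGmem a (Finset.mem_filter.1 ha).1
      have h1 := Finset.mem_Ioo.1 ha2
      refine ⟨by omega, ?_⟩
      have h2 := (hd d hd1).1
      have h3 : A ≤ L ^ 4 * d.1.natAbs := by
        zify
        exact h2
      exact h3.trans (Nat.mul_le_mul_right _ (Nat.pow_le_pow_right hL0 (by norm_num)))) hAcard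
    (by
      rw [div_le_div_iff₀ hMr hAr]
      push_cast
      calc (L : ℝ) ^ 296 * A ≤ (L : ℝ) ^ 300 * A :=
            mul_le_mul_of_nonneg_right (pow_le_pow_right₀ hL1r (by norm_num)) hAr.le
        _ ≤ M := hMAr
        _ = 1 * M := (one_mul _).symm
        _ ≤ (L : ℝ) ^ 122 * M := mul_le_mul_of_nonneg_right (one_le_pow₀ hL1r) hMr.le)
    (minc2_X L A M N q k0 l β (by omega) hA0 hMA hNA hq2
      (by
        have : ((|l| : ℤ) : ℝ) ≤ ((4 * A * N : ℤ) : ℝ) := by exact_mod_cast hl2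
        rw [Int.cast_abs] at this
        push_cast at this
        exact this) hβ)
    (by
      intro k hk
      obtain ⟨a, ha, rfl⟩ := Finset.mem_image.1 hk
      obtain ⟨haG, haq⟩ := Finset.mem_filter.1 ha
      have h3 := hf3 a haG
      rw [haq] at h3
      have e1 : ε * (L : ℝ) ^ 61 / A = (L : ℝ) ^ 296 / M := by
        have : (L : ℝ) ^ 296 = (L : ℝ) ^ 235 * (L : ℝ) ^ 61 := by rw [← pow_add]
        rw [hε, this]
        field_simp
      rw [e1] at h3
      have h4 : ((a.natAbs : ℕ) : ℝ) = |(a : ℝ)| := by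
        rw [Nat.cast_natAbs, Int.cast_abs]
      rw [h4]
      rcases abs_choice (a : ℝ) with h5 | h5
      · rw [h5]
        convert h3 using 2
        rw [mul_div_assoc, div_div]
      · rw [h5, div_neg, minc2_dI_neg]
        convert h3 using 2
        rw [mul_div_assoc, div_div])
  have hN0 : 1 ≤ N := le_trans hM0 hMN
  refine minc2_fin L A M N q l β (by omega) hA0 hM0 hN0 hq1 ?_ hDDres
  have : ((4 * (A : ℤ) * N : ℤ) : ℝ) < (((L : ℤ) ^ 4 * |l| : ℤ) : ℝ) := by exact_mod_cast hl1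
  push_cast at this
  exact this

end Pool.Agent.BSR
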