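import Pool.Agent.BSR.StA

/-!
# BSR, module MIND: one direction of the minor arc estimate (helper27)
-/

set_option autoImplicit false

namespace Pool.Agent.BSR

open Finset MeasureTheory Filter Topology Pool.Agent.BSQ
open scoped BigOperators
open Classical

private theorem mind_add (s t : ℝ) : ee (s + t) = ee s * ee t := by
  unfold ee
  rw [← Complex.exp_add]
  congr 1
  push_cast
  ring

private theorem mind_norm (t : ℝ) : ‖ee t‖ = 1 := by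
  unfold ee
  exact Complex.norm_exp_ofReal_mul_I _

private theorem mind_dI_le (t : ℝ) (z : ℤ) : dI t ≤ |t - z| := by
  unfold dI
  exact round_le t z

private theorem mind_dI_mul (n : ℕ) (t : ℝ) : dI ((n : ℝ) * t) ≤ n * dI t := by
  have h1 := mind_dI_le ((n : ℝ) * t) ((n : ℤ) * round t)
  have h2 : (n : ℝ) * t - (((n : ℤ) * round t : ℤ) : ℝ) = n * (t - round t) := by
    push_cast
    ring
  rw [h2, abs_mul, abs_of_nonneg (Nat.cast_nonneg n)] at h1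
  exact h1

/-- the sum on the line. -/
private theorem mind_line (hLINE : St_LINE) (n0 N1 M : ℕ) (l : ℤ) (d : ℤ × ℤ) (θ : ℝ) (hd : d ≠ 0)
    (hne : (Rl n0 N1 M l d).Nonempty) :
    ∃ (a b : ℤ) (p : ℤ × ℤ), p ∈ Rl n0 N1 M l d ∧ d.1 = (Int.gcd d.1 d.2 : ℤ) * a ∧
      d.2 = (Int.gcd d.1 d.2 : ℤ) * b ∧
      ‖∑ p ∈ Rl n0 N1 M l d, ee (2 * θ * (sqz p : ℝ))‖ =
      ‖∑ j ∈ range (Rl n0 N1 M l d).card, ee ((2 * θ * ((a : ℝ) ^ 2 + (b : ℝ) ^ 2)) * (j : ℝ) ^ 2 +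
        (4 * θ * ((b : ℝ) * p.1 - (a : ℝ) * p.2)) * j)‖ := by
  obtain ⟨p, hp⟩ := hLINE n0 N1 M l d hd hne
  set g : ℤ := (Int.gcd d.1 d.2 : ℤ) with hg
  set c : ℕ := (Rl n0 N1 M l d).card with hc
  have hc0 : 0 < c := Finset.card_pos.mpr hne
  have h1 : g ∣ d.1 := Int.gcd_dvd_left ..
  have h2 : g ∣ d.2 := Int.gcd_dvd_right ..
  refine ⟨d.1 / g, d.2 / g, p, ?_, ?_, ?_, ?_⟩
  · rw [hp, Finset.mem_image]
    refine ⟨0, Finset.mem_range.mpr hc0, ?_⟩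
    simp
  · exact (Int.mul_ediv_cancel' h1).symm
  · exact (Int.mul_ediv_cancel' h2).symm
  · have hinj : Set.InjOn (fun j : ℕ => (p.1 + (d.2 / g) * j, p.2 - (d.1 / g) * j))
        (range c : Finset ℕ) := by
      rw [← Finset.card_image_iff, ← hp, Finset.card_range]
    rw [hp, Finset.sum_image (fun x hx y hy h => hinj hx hy h)]
    have h3 : ∀ j ∈ range c, ee (2 * θ * ((sqz (p.1 + (d.2 / g) * j, p.2 - (d.1 / g) * j) : ℤ) : ℝ)) =
        ee (2 * θ * ((sqz p : ℤ) : ℝ)) *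
          ee ((2 * θ * (((d.1 / g : ℤ) : ℝ) ^ 2 + ((d.2 / g : ℤ) : ℝ) ^ 2)) * (j : ℝ) ^ 2 +
          (4 * θ * (((d.2 / g : ℤ) : ℝ) * p.1 - ((d.1 / g : ℤ) : ℝ) * p.2)) * j) := by
      intro j _
      rw [← mind_add]
      congr 1
      unfold sqz
      push_cast
      ring
    rw [Finset.sum_congr rfl h3, ← Finset.mul_sum, norm_mul, mind_norm, one_mul]

theorem thm_MIND (hCNT : St_CNT) (hLINE : St_LINE) (hWEYQ : St_WEYQ) : St_MIND := by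
  refine ⟨20000, ?_⟩
  intro L hL n0 N1 M A N l θ d hA hM1 hM2 hMN hN hl hd hgcd hS
  have hL1 : (20000 : ℝ) ≤ L := by exact_mod_cast hL
  have hL0 : (0 : ℝ) < L := by linarith
  have hLone : (1 : ℝ) ≤ L := by linarith
  have hLn1 : 1 ≤ L := by omega
  have hA0 : (0 : ℝ) < A := by exact_mod_cast (by omega : 0 < A)
  have hAM : A ≤ M := le_trans (Nat.le_mul_of_pos_left A (Nat.pow_pos (by omega))) hM1
  have hM0 : (0 : ℝ) < M := by exact_mod_cast (by omega : 0 < M)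
  set J : ℝ := (M : ℝ) / A with hJ
  have hJ0 : 0 < J := by positivity
  have hJ1 : (L : ℝ) ^ 300 ≤ J := by
    rw [hJ, le_div_iff₀ hA0]
    exact_mod_cast hM1
  have hJone : 1 ≤ J := le_trans (one_le_pow₀ hLone) hJ1
  have hS0 : (M : ℝ) / (16 * A * (L : ℝ) ^ 4) = J / (16 * (L : ℝ) ^ 4) := by
    rw [hJ]
    field_simp
  rw [hS0] at hS
  -- nonempty
  have hne : (Rl n0 N1 M l d).Nonempty := by
    rw [Finset.nonempty_iff_ne_empty]
    intro h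
    rw [h, Finset.sum_empty, norm_zero] at hS
    have : 0 < J / (16 * (L : ℝ) ^ 4) := by positivity
    linarith
  have hd0 : d ≠ 0 := by
    intro h
    obtain ⟨p, hp⟩ := hne
    unfold Rl at hp
    rw [Finset.mem_filter, h, add_zero, sub_self] at hp
    have hl0 : l = 0 := hp.2.2.symm
    rw [hl0, abs_zero, mul_zero] at hl
    have : (0 : ℤ) ≤ 4 * (A : ℤ) * N := by positivity
    omega
  obtain ⟨a, b, p, hp, ha, hb, hsum⟩ := mind_line hLINE n0 N1 M l d θ hd0 hne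
  have hcnt := (hCNT n0 N1 M A N L l hA hAM hLn1 hMN hN hl).2.1 d hd hne
  set c : ℕ := (Rl n0 N1 M l d).card with hc
  set g : ℕ := Int.gcd d.1 d.2 with hg
  have hgL : (g : ℝ) ≤ (L : ℝ) ^ 10 := by exact_mod_cast hgcd.le
  have hc2 : (c : ℝ) ≤ 2 * (L : ℝ) ^ 14 * J := by
    have h1 : (g : ℝ) * (L : ℝ) ^ 4 * M / A = (g : ℝ) * (L : ℝ) ^ 4 * J := by
      rw [hJ]
      ring
    rw [h1] at hcnt
    have h2 : (g : ℝ) * (L : ℝ) ^ 4 * J ≤ (L : ℝ) ^ 10 * (L : ℝ) ^ 4 * J :=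
      mul_le_mul_of_nonneg_right (mul_le_mul_of_nonneg_right hgL (by positivity)) hJ0.le
    rw [← pow_add] at h2
    have h3 : (1 : ℝ) ≤ (L : ℝ) ^ (10 + 4) * J := by
      have := one_le_pow₀ hLone (n := 10 + 4)
      nlinarith
    have h4 : 2 * (L : ℝ) ^ 14 * J = (L : ℝ) ^ (10 + 4) * J + (L : ℝ) ^ (10 + 4) * J := by
      ring
    linarith
  rw [hsum] at hS
  have hc1 : J / (16 * (L : ℝ) ^ 4) ≤ c := by
    refine hS.trans ((norm_sum_le _ _).trans ?_)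
    simp only [mind_norm, Finset.sum_const, Finset.card_range, nsmul_eq_mul, mul_one]
    exact le_refl _
  have hc0 : (0 : ℝ) < c := lt_of_lt_of_le (by positivity) hc1
  -- Weyl
  have hK1 : 1 ≤ L ^ 19 := Nat.one_le_pow _ _ (by omega)
  have hK5 : 512 * (L ^ 19) ^ 5 ≤ c := by
    have h1 : 512 * ((L : ℝ) ^ 19) ^ 5 ≤ J / (16 * (L : ℝ) ^ 4) := by
      rw [le_div_iff₀ (by positivity)]
      have h2 : 512 * ((L : ℝ) ^ 19) ^ 5 * (16 * (L : ℝ) ^ 4) = 8192 * (L : ℝ) ^ 99 := by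
        ring
      rw [h2]
      have h3 : (L : ℝ) ^ 100 ≤ (L : ℝ) ^ 300 := pow_le_pow_right₀ hLone (by norm_num)
      have h4 : (L : ℝ) ^ 100 = L * (L : ℝ) ^ 99 := by ring
      have h5 : 8192 * (L : ℝ) ^ 99 ≤ L * (L : ℝ) ^ 99 :=
        mul_le_mul_of_nonneg_right (by linarith) (by positivity)
      linarith
    have h2 := h1.trans hc1
    exact_mod_cast h2
  have hWS : (c : ℝ) / ((L ^ 19 : ℕ) : ℝ) ≤
      ‖∑ j ∈ range c, ee ((2 * θ * ((a : ℝ) ^ 2 + (b : ℝ) ^ 2)) * (j : ℝ) ^ 2 +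
        (4 * θ * ((b : ℝ) * p.1 - (a : ℝ) * p.2)) * j)‖ := by
    refine le_trans ?_ hS
    push_cast
    rw [div_le_div_iff₀ (by positivity) (by positivity)]
    have h1 : (c : ℝ) * (16 * (L : ℝ) ^ 4) ≤ 2 * (L : ℝ) ^ 14 * J * (16 * (L : ℝ) ^ 4) :=
      mul_le_mul_of_nonneg_right hc2 (by positivity)
    have h2 : 2 * (L : ℝ) ^ 14 * J * (16 * (L : ℝ) ^ 4) = 32 * (J * (L : ℝ) ^ 18) := by ring
    have h3 : J * (L : ℝ) ^ 19 = L * (J * (L : ℝ) ^ 18) := by ring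
    have h4 : 32 * (J * (L : ℝ) ^ 18) ≤ L * (J * (L : ℝ) ^ 18) :=
      mul_le_mul_of_nonneg_right (by linarith) (by positivity)
    linarith
  obtain ⟨q, hq1, hq2, hq3, hq4⟩ := hWEYQ (2 * θ * ((a : ℝ) ^ 2 + (b : ℝ) ^ 2))
    (4 * θ * ((b : ℝ) * p.1 - (a : ℝ) * p.2)) c (L ^ 19) hK1 hK5 hWS
  have hcinv : 1 / (c : ℝ) ≤ 16 * (L : ℝ) ^ 4 / J := by
    rw [div_le_div_iff₀ hc0 hJ0]
    rw [div_le_iff₀ (by positivity)] at hc1
    linarith
  refine ⟨q, hq1, ?_, ?_, p, hp, ?_⟩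
  · refine hq2.trans ?_
    have h1 : 16 * (L ^ 19) ^ 2 = 16 * L ^ 38 := by ring
    have h2 : L ^ 39 = L * L ^ 38 := by ring
    rw [h1, h2]
    exact Nat.mul_le_mul_right _ (by omega)
  · have h1 : 2 * (q : ℝ) * θ * ((d.1 : ℝ) ^ 2 + (d.2 : ℝ) ^ 2) =
        ((g ^ 2 : ℕ) : ℝ) * ((q : ℝ) * (2 * θ * ((a : ℝ) ^ 2 + (b : ℝ) ^ 2))) := by
      have h2 : (d.1 : ℝ) = (g : ℝ) * a := by
        have : ((d.1 : ℤ) : ℝ) = (((g : ℤ) * a : ℤ) : ℝ) := by rw [← ha]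
        rw [this]
        push_cast
        ring
      have h3 : (d.2 : ℝ) = (g : ℝ) * b := by
        have : ((d.2 : ℤ) : ℝ) = (((g : ℤ) * b : ℤ) : ℝ) := by rw [← hb]
        rw [this]
        push_cast
        ring
      rw [h2, h3]
      push_cast
      ring
    rw [h1]
    refine (mind_dI_mul _ _).trans ?_
    have h4 : ((g ^ 2 : ℕ) : ℝ) ≤ (L : ℝ) ^ 20 := by
      push_cast
      calc (g : ℝ) ^ 2 ≤ ((L : ℝ) ^ 10) ^ 2 := pow_le_pow_left₀ (Nat.cast_nonneg g) hgL 2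
        _ = (L : ℝ) ^ 20 := by ring
    have h5 : 32 * (((L ^ 19 : ℕ) : ℝ)) ^ 4 / (c : ℝ) ^ 2 ≤ 8192 * (L : ℝ) ^ 84 / J ^ 2 := by
      have h6 : (1 / (c : ℝ)) ^ 2 ≤ (16 * (L : ℝ) ^ 4 / J) ^ 2 :=
        pow_le_pow_left₀ (one_div_nonneg.mpr hc0.le) hcinv 2
      calc 32 * (((L ^ 19 : ℕ) : ℝ)) ^ 4 / (c : ℝ) ^ 2 = 32 * (L : ℝ) ^ 76 * (1 / (c : ℝ)) ^ 2 := by
            push_cast
            ring
        _ ≤ 32 * (L : ℝ) ^ 76 * (16 * (L : ℝ) ^ 4 / J) ^ 2 :=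
            mul_le_mul_of_nonneg_left h6 (by positivity)
        _ = 8192 * (L : ℝ) ^ 84 / J ^ 2 := by ring
    have h7 := hq3.trans h5
    have h8 : ((g ^ 2 : ℕ) : ℝ) * dI ((q : ℝ) * (2 * θ * ((a : ℝ) ^ 2 + (b : ℝ) ^ 2))) ≤
        (L : ℝ) ^ 20 * (8192 * (L : ℝ) ^ 84 / J ^ 2) :=
      mul_le_mul h4 h7 (abs_nonneg _) (by positivity)
    refine h8.trans ?_
    have h9 : ((A : ℝ) / M) ^ 2 = 1 / J ^ 2 := by
      rw [hJ, one_div, ← inv_pow, inv_div]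
    rw [h9]
    have h10 : (L : ℝ) ^ 20 * (8192 * (L : ℝ) ^ 84 / J ^ 2) = 8192 * ((L : ℝ) ^ 104 * (1 / J ^ 2)) := by
      ring
    have h11 : (L : ℝ) ^ 105 * (1 / J ^ 2) = L * ((L : ℝ) ^ 104 * (1 / J ^ 2)) := by
      ring
    rw [h10, h11]
    exact mul_le_mul_of_nonneg_right (by linarith) (by positivity)
  · have hc01 : 0 < c := by exact_mod_cast hc0
    have h0 := hq4 0 hc01
    have h1 : 4 * (q : ℝ) * θ * ((d.2 : ℝ) * p.1 - (d.1 : ℝ) * p.2) =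
        (g : ℝ) * ((q : ℝ) * (2 * (2 * θ * ((a : ℝ) ^ 2 + (b : ℝ) ^ 2)) * ((0 : ℕ) : ℝ) +
          4 * θ * ((b : ℝ) * p.1 - (a : ℝ) * p.2))) := by
      have h2 : (d.1 : ℝ) = (g : ℝ) * a := by
        have : ((d.1 : ℤ) : ℝ) = (((g : ℤ) * a : ℤ) : ℝ) := by rw [← ha]
        rw [this]
        push_cast
        ring
      have h3 : (d.2 : ℝ) = (g : ℝ) * b := by
        have : ((d.2 : ℤ) : ℝ) = (((g : ℤ) * b : ℤ) : ℝ) := by rw [← hb]
        rw [this]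
        push_cast
        ring
      rw [h2, h3]
      push_cast
      ring
    rw [h1]
    refine (mind_dI_mul _ _).trans ?_
    have h5 : 900 * (((L ^ 19 : ℕ) : ℝ)) ^ 5 / (c : ℝ) ≤ 14400 * (L : ℝ) ^ 99 / J := by
      calc 900 * (((L ^ 19 : ℕ) : ℝ)) ^ 5 / (c : ℝ) = 900 * (L : ℝ) ^ 95 * (1 / (c : ℝ)) := by
            push_cast
            ring
        _ ≤ 900 * (L : ℝ) ^ 95 * (16 * (L : ℝ) ^ 4 / J) :=
            mul_le_mul_of_nonneg_left hcinv (by positivity)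
        _ = 14400 * (L : ℝ) ^ 99 / J := by ring
    have h7 := h0.trans h5
    have h8 := mul_le_mul hgL h7 (abs_nonneg _) (by positivity)
    refine h8.trans ?_
    have h9 : (A : ℝ) / M = 1 / J := by
      rw [hJ, one_div, inv_div]
    rw [h9]
    have h10 : (L : ℝ) ^ 10 * (14400 * (L : ℝ) ^ 99 / J) = 14400 * ((L : ℝ) ^ 109 * (1 / J)) := by
      ring
    have h11 : (L : ℝ) ^ 110 * (1 / J) = L * ((L : ℝ) ^ 109 * (1 / J)) := by
      ring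
    rw [h10, h11]
    exact mul_le_mul_of_nonneg_right (by linarith) (by positivity)

end Pool.Agent.BSR
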