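import Pool.Agent.BSR.StB

/-!
# BSR, module NSUM: sums of `n` over intervals of squares
-/

set_option autoImplicit false

namespace Pool.Agent.BSR

open Finset MeasureTheory Filter Topology Pool.Agent.BSQ
open scoped BigOperators
open Classical

/-- the set of the statement -/
private noncomputable def nsum_S (N q u A X : ℕ) : Finset ℕ :=
  (Icc 1 N).filter (fun n => n % q = u ∧ A ≤ n ^ 2 ∧ n ^ 2 < A + X)

private theorem nsum_mem {N q u A X n : ℕ} :
    n ∈ nsum_S N q u A X ↔ (1 ≤ n ∧ n ≤ N) ∧ n % q = u ∧ A ≤ n ^ 2 ∧ n ^ 2 < A + X := by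
  unfold nsum_S
  rw [mem_filter, mem_Icc]

/-- the set is an arithmetic progression -/
private theorem nsum_ap {N q u A X : ℕ} (hq : 1 ≤ q) (hne : (nsum_S N q u A X).Nonempty) :
    ∃ a r : ℕ, nsum_S N q u A X = (range (r + 1)).image (fun i => a + q * i) ∧
      a ∈ nsum_S N q u A X ∧ a + q * r ∈ nsum_S N q u A X := by
  obtain ⟨a, ha, hmin⟩ := exists_min_image _ (fun n => n) hne
  obtain ⟨b, hb, hmax⟩ := exists_max_image _ (fun n => n) hne
  have hstep : ∀ n ∈ nsum_S N q u A X, ∃ i, n = a + q * i := by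
    intro n hn
    have h1 := (nsum_mem.mp hn).2.1
    have h2 := (nsum_mem.mp ha).2.1
    have h3 : a ≤ n := hmin n hn
    have h4 : q ∣ n - a := (Nat.modEq_iff_dvd' h3).mp (h2.trans h1.symm)
    obtain ⟨i, hi⟩ := h4
    exact ⟨i, by omega⟩
  obtain ⟨r, hr⟩ := hstep b hb
  refine ⟨a, r, ?_, ha, hr ▸ hb⟩
  ext n
  rw [mem_image]
  constructor
  · intro hn
    obtain ⟨i, hi⟩ := hstep n hn
    refine ⟨i, mem_range.mpr ?_, hi.symm⟩
    have h5 : n ≤ b := hmax n hn
    rw [hi, hr] at h5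
    have h6 : q * i ≤ q * r := by omega
    exact Nat.lt_succ_of_le (Nat.le_of_mul_le_mul_left h6 hq)
  · rintro ⟨i, hi, rfl⟩
    have h7 : q * i ≤ q * r := Nat.mul_le_mul_left q (Nat.lt_succ_iff.mp (mem_range.mp hi))
    have h8 := nsum_mem.mp ha
    have h9 := nsum_mem.mp hb
    rw [hr] at h9
    have h10 : a ^ 2 ≤ (a + q * i) ^ 2 := Nat.pow_le_pow_left (by omega) 2
    have h11 : (a + q * i) ^ 2 ≤ (a + q * r) ^ 2 := Nat.pow_le_pow_left (by omega) 2
    refine nsum_mem.mpr ⟨⟨by omega, by omega⟩, ?_, by omega, by omega⟩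
    rw [Nat.add_mul_mod_self_left]
    exact h8.2.1

/-- its sum -/
private theorem nsum_sum {N q u A X a r : ℕ} (hq : 1 ≤ q)
    (h : nsum_S N q u A X = (range (r + 1)).image (fun i => a + q * i)) :
    ∑ n ∈ nsum_S N q u A X, (n : ℝ) =
      (((a + q * r : ℕ) : ℝ) ^ 2 - (a : ℝ) ^ 2) / (2 * q) + ((a : ℝ) + ((a + q * r : ℕ) : ℝ)) / 2 := by
  have hq' : (q : ℝ) ≠ 0 := by
    have : (1 : ℝ) ≤ q := by exact_mod_cast hq
    linarith
  rw [h, sum_image (fun i _ j _ hij => Nat.eq_of_mul_eq_mul_left hq (Nat.add_left_cancel hij))]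
  have h1 : ∀ r : ℕ, ∑ i ∈ range (r + 1), ((a + q * i : ℕ) : ℝ) =
      (a : ℝ) * (r + 1) + q * r * (r + 1) / 2 := by
    intro r
    induction r with
    | zero => simp
    | succ r ih =>
      rw [sum_range_succ, ih]
      push_cast
      ring
  rw [h1]
  push_cast
  field_simp
  ring

/-- upper bound -/
private theorem nsum_upper (N q u A X : ℕ) (hq : 1 ≤ q) :
    ∑ n ∈ nsum_S N q u A X, (n : ℝ) ≤ X / (2 * q) + N := by
  have hq' : (1 : ℝ) ≤ q := by exact_mod_cast hq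
  rcases (nsum_S N q u A X).eq_empty_or_nonempty with h0 | hne
  · rw [h0, sum_empty]
    positivity
  · obtain ⟨a, r, h1, ha, hb⟩ := nsum_ap hq hne
    rw [nsum_sum hq h1]
    have h2 := nsum_mem.mp ha
    have h3 := nsum_mem.mp hb
    have h4 : ((a + q * r : ℕ) : ℝ) ^ 2 - (a : ℝ) ^ 2 ≤ X := by
      have h5 : (a + q * r) ^ 2 ≤ a ^ 2 + X := by omega
      have h6 : (((a + q * r : ℕ) : ℝ)) ^ 2 ≤ (a : ℝ) ^ 2 + X := by exact_mod_cast h5
      linarith
    have h7 : (a : ℝ) ≤ N := by exact_mod_cast h2.1.2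
    have h8 : ((a + q * r : ℕ) : ℝ) ≤ N := by exact_mod_cast h3.1.2
    have h9 : (((a + q * r : ℕ) : ℝ) ^ 2 - (a : ℝ) ^ 2) / (2 * q) ≤ X / (2 * q) :=
      div_le_div_of_nonneg_right h4 (by positivity)
    linarith

/-- lower bound -/
private theorem nsum_lower (N q u A X : ℕ) (hq : 1 ≤ q) (hqN : q ≤ N) (hu : u < q)
    (hAX : A + X ≤ N ^ 2) :
    (X : ℝ) / (2 * q) - 2 * N ≤ ∑ n ∈ nsum_S N q u A X, (n : ℝ) := by
  have hq' : (1 : ℝ) ≤ q := by exact_mod_cast hq
  have hqN' : (q : ℝ) ≤ N := by exact_mod_cast hqN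
  have hq2 : (0 : ℝ) < 2 * q := by linarith
  -- the next element of the class is beyond the interval
  have hnext : ∀ n : ℕ, 1 ≤ n → n % q = u → A ≤ n ^ 2 → n ∉ nsum_S N q u A X →
      A + X ≤ n ^ 2 := by
    intro n h1 h2 h3 h4
    by_contra h5
    push Not at h5
    have h6 : n < N := lt_of_pow_lt_pow_left₀ 2 (Nat.zero_le N) (lt_of_lt_of_le h5 hAX)
    exact h4 (nsum_mem.mpr ⟨⟨h1, h6.le⟩, h2, h3, h5⟩)
  rcases (nsum_S N q u A X).eq_empty_or_nonempty with h0 | hne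
  · rw [h0, sum_empty]
    -- the least element of the class with large square
    have hex : ∃ n : ℕ, 1 ≤ n ∧ n % q = u ∧ A ≤ n ^ 2 := by
      refine ⟨u + q * (A + 1), ?_, ?_, ?_⟩
      · have : 1 ≤ q * (A + 1) := Nat.mul_pos hq (Nat.succ_pos A)
        omega
      · rw [Nat.add_mul_mod_self_left, Nat.mod_eq_of_lt hu]
      · have h1 : A + 1 ≤ u + q * (A + 1) := by nlinarith
        nlinarith
    have h1 := Nat.find_spec hex
    set n := Nat.find hex with hn
    have h2 : A + X ≤ n ^ 2 := hnext n h1.1 h1.2.1 h1.2.2 (by rw [h0]; exact notMem_empty n)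
    rcases Nat.lt_or_ge q n with h3 | h3
    · -- `n > q`
      have h4 : (n - q) ^ 2 < A := by
        by_contra h5
        push Not at h5
        have h6 := Nat.find_min hex (show n - q < Nat.find hex by rw [← hn]; omega)
        apply h6
        refine ⟨by omega, ?_, h5⟩
        rw [← h1.2.1]
        conv_rhs => rw [show n = (n - q) + q by omega]
        rw [Nat.add_mod_right]
      have h5 : n - q < N := by
        refine lt_of_pow_lt_pow_left₀ 2 (Nat.zero_le N) ?_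
        omega
      obtain ⟨t, ht⟩ : ∃ t, n = t + q := ⟨n - q, by omega⟩
      rw [ht, Nat.add_sub_cancel] at h4 h5
      rw [ht] at h2
      have h6 : (A : ℝ) + X ≤ ((t : ℝ) + q) ^ 2 := by exact_mod_cast h2
      have h7 : (t : ℝ) ^ 2 ≤ A := by exact_mod_cast h4.le
      have h8 : (t : ℝ) ≤ N := by exact_mod_cast h5.le
      have h9 : (X : ℝ) / (2 * q) ≤ 2 * N := by
        rw [div_le_iff₀ hq2]
        nlinarith
      linarith
    · have h6 : (A : ℝ) + X ≤ (n : ℝ) ^ 2 := by exact_mod_cast h2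
      have h7 : (n : ℝ) ≤ q := by exact_mod_cast h3
      have h8 : (0 : ℝ) ≤ A := Nat.cast_nonneg A
      have h9 : (0 : ℝ) ≤ n := Nat.cast_nonneg n
      have h10 : (X : ℝ) / (2 * q) ≤ 2 * N := by
        rw [div_le_iff₀ hq2]
        nlinarith
      linarith
  · obtain ⟨a, r, h1, ha, hb⟩ := nsum_ap hq hne
    rw [nsum_sum hq h1]
    have h2 := nsum_mem.mp ha
    have h3 := nsum_mem.mp hb
    set b := a + q * r with hbdef
    have hab : a ≤ b := Nat.le_add_right _ _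
    have h4 : A + X ≤ (b + q) ^ 2 := by
      refine hnext (b + q) (by omega) ?_ ?_ ?_
      · rw [Nat.add_mod_right]
        exact h3.2.1
      · have : b ^ 2 ≤ (b + q) ^ 2 := Nat.pow_le_pow_left (Nat.le_add_right _ _) 2
        omega
      · intro h5
        rw [h1, mem_image] at h5
        obtain ⟨i, hi, hi2⟩ := h5
        have h6 : q * i ≤ q * r := Nat.mul_le_mul_left q (Nat.lt_succ_iff.mp (mem_range.mp hi))
        have h7 : a + q * i = a + q * r + q := hi2
        omega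
    have h5 : (A : ℝ) + X ≤ ((b : ℝ) + q) ^ 2 := by exact_mod_cast h4
    have h6 : (a : ℝ) ≤ N := by exact_mod_cast h2.1.2
    have h7 : (b : ℝ) ≤ N := by exact_mod_cast h3.1.2
    have h8 : (a : ℝ) ≤ b := by exact_mod_cast hab
    have h9 : (0 : ℝ) ≤ a := Nat.cast_nonneg a
    have h9' : (0 : ℝ) ≤ A := Nat.cast_nonneg A
    have hgoal : (X : ℝ) ≤ ((b : ℝ) ^ 2 - (a : ℝ) ^ 2) + (a + b) * q + 4 * N * q := by
      rcases Nat.lt_or_ge q a with h10 | h10
      · -- `a - q` is below the interval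
        have h11 : (a - q) ^ 2 < A := by
          by_contra h12
          push Not at h12
          have h13 : a - q ∈ nsum_S N q u A X := by
            have h14 : (a - q) ^ 2 ≤ a ^ 2 := Nat.pow_le_pow_left (Nat.sub_le _ _) 2
            refine nsum_mem.mpr ⟨⟨by omega, by omega⟩, ?_, h12, by omega⟩
            rw [← h2.2.1]
            conv_rhs => rw [show a = (a - q) + q by omega]
            rw [Nat.add_mod_right]
          rw [h1, mem_image] at h13
          obtain ⟨i, _, hi2⟩ := h13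
          have h14 : a + q * i = a - q := hi2
          omega
        obtain ⟨t, ht⟩ : ∃ t, a = t + q := ⟨a - q, by omega⟩
        rw [ht, Nat.add_sub_cancel] at h11
        have h12 : (t : ℝ) ^ 2 ≤ A := by exact_mod_cast h11.le
        have h13 : (a : ℝ) = t + q := by exact_mod_cast ht
        have h14 : (t : ℝ) = a - q := by linarith
        rw [h14] at h12
        nlinarith
      · have h11 : (a : ℝ) ≤ q := by exact_mod_cast h10
        nlinarith
    have h15 : ((b : ℝ) ^ 2 - (a : ℝ) ^ 2) / (2 * q) + ((a : ℝ) + b) / 2 =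
        (((b : ℝ) ^ 2 - (a : ℝ) ^ 2) + (a + b) * q) / (2 * q) := by
      field_simp
    rw [h15, le_div_iff₀ hq2, sub_mul, div_mul_cancel₀ _ hq2.ne']
    linarith

private theorem nsum_one (N A X : ℕ) :
    ∑ n ∈ (Icc 1 N).filter (fun n => A ≤ n ^ 2 ∧ n ^ 2 < A + X), (n : ℝ) ≤ X / 2 + N := by
  have h := nsum_upper N 1 0 A X le_rfl
  have h1 : nsum_S N 1 0 A X = (Icc 1 N).filter (fun n => A ≤ n ^ 2 ∧ n ^ 2 < A + X) := by
    unfold nsum_S
    refine filter_congr fun n _ => ?_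
    rw [Nat.mod_one]
    exact and_iff_right rfl
  rw [h1, Nat.cast_one, mul_one] at h
  exact h

private theorem nsum_mass (N M k0 X : ℕ) (hN : 1 ≤ N) (hM : 1 ≤ M) :
    ∑ k ∈ Ico k0 (k0 + X), rhoS N M k ≤ (X + 2 * N) / (N : ℝ) ^ 2 := by
  have hN' : (0 : ℝ) < N := Nat.cast_pos.2 hN
  have hM' : (0 : ℝ) < M := Nat.cast_pos.2 hM
  have h1 : ∑ k ∈ Ico k0 (k0 + X), rhoS N M k =
      2 / ((N : ℝ) ^ 2 * M) * ∑ p ∈ Str N M, (if sq2 p ∈ Ico k0 (k0 + X) then (p.1 : ℝ) else 0) := by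
    unfold rhoS
    rw [← Finset.mul_sum]
    congr 1
    have h2 : ∀ k ∈ Ico k0 (k0 + X), ∑ p ∈ (Str N M).filter (fun p => sq2 p = k), (p.1 : ℝ) =
        ∑ p ∈ Str N M, (if sq2 p = k then (p.1 : ℝ) else 0) := fun k _ => Finset.sum_filter _ _
    rw [Finset.sum_congr rfl h2, Finset.sum_comm]
    refine Finset.sum_congr rfl fun p _ => ?_
    rw [Finset.sum_ite_eq]
  have h3 : ∑ p ∈ Str N M, (if sq2 p ∈ Ico k0 (k0 + X) then (p.1 : ℝ) else 0) ≤
      M * ((X : ℝ) / 2 + N) := by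
    unfold Str
    rw [Finset.sum_product_right]
    have h4 : ∀ m ∈ Icc 1 M, ∑ n ∈ Icc 1 N,
        (if sq2 (n, m) ∈ Ico k0 (k0 + X) then (((n, m) : ℕ × ℕ).1 : ℝ) else 0) ≤ X / 2 + N := by
      intro m _
      refine le_trans ?_ (nsum_one N (k0 - m ^ 2) X)
      rw [Finset.sum_filter]
      refine Finset.sum_le_sum fun n _ => ?_
      show (if sq2 (n, m) ∈ Ico k0 (k0 + X) then (n : ℝ) else 0) ≤ _
      by_cases h5 : sq2 (n, m) ∈ Ico k0 (k0 + X)
      · rw [mem_Ico] at h5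
        have h6 : k0 ≤ n ^ 2 + m ^ 2 ∧ n ^ 2 + m ^ 2 < k0 + X := h5
        rw [if_pos (mem_Ico.mpr h5), if_pos (by omega)]
      · rw [if_neg h5]
        split_ifs
        · exact Nat.cast_nonneg _
        · exact le_rfl
    refine (Finset.sum_le_sum h4).trans (le_of_eq ?_)
    rw [Finset.sum_const, Nat.card_Icc, nsmul_eq_mul, Nat.add_sub_cancel]
  rw [h1]
  calc 2 / ((N : ℝ) ^ 2 * M) * ∑ p ∈ Str N M, (if sq2 p ∈ Ico k0 (k0 + X) then (p.1 : ℝ) else 0)
      ≤ 2 / ((N : ℝ) ^ 2 * M) * (M * ((X : ℝ) / 2 + N)) :=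
        mul_le_mul_of_nonneg_left h3 (by positivity)
    _ = (X + 2 * N) / (N : ℝ) ^ 2 := by field_simp

theorem thm_NSUM : St_NSUM := by
  refine ⟨nsum_one, ?_, nsum_mass⟩
  intro N q u A X hq hqN hu hAX
  have h1 := nsum_upper N q u A X hq
  have h2 := nsum_lower N q u A X hq hqN hu hAX
  have h3 : (0 : ℝ) ≤ N := Nat.cast_nonneg N
  show |∑ n ∈ nsum_S N q u A X, (n : ℝ) - X / (2 * q)| ≤ 2 * N
  rw [abs_le]
  constructor <;> linarith

end Pool.Agent.BSR
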