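import Pool.Agent.BSR.StB

/-!
# BSR, module `PAIR`: two close points (combinatorial double counting)
-/

set_option autoImplicit false

namespace Pool.Agent.BSR

open Finset MeasureTheory Filter Topology Pool.Agent.BSQ
open scoped BigOperators
open Classical

/-- averaging over pairs -/
private theorem pair_avg {α : Type} (S : Finset ℕ) (D : Finset α) (r : ℕ → α → Prop)
    [∀ t d, Decidable (r t d)] (K m : ℕ)
    (hS : S.Nonempty) (hm : 0 < m) (hD : D.card ≤ m)
    (hlow : ∀ t ∈ S, m ≤ K * (D.filter (r t)).card) :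
    ∃ d ∈ D, S.card ≤ K * (S.filter (fun t => r t d)).card := by
  by_contra hcon
  push Not at hcon
  have h1 : ∑ t ∈ S, (D.filter (r t)).card = ∑ d ∈ D, (S.filter (fun t => r t d)).card :=
    Finset.sum_card_bipartiteAbove_eq_sum_card_bipartiteBelow r
  have h2 : S.card * m ≤ K * ∑ t ∈ S, (D.filter (r t)).card := by
    rw [Finset.mul_sum, ← smul_eq_mul]
    exact Finset.card_nsmul_le_sum _ _ _ hlow
  rw [h1, Finset.mul_sum] at h2
  rcases D.eq_empty_or_nonempty with hE | hE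
  · rw [hE, Finset.sum_empty] at h2
    have h3 : 0 < S.card * m := Nat.mul_pos (Finset.card_pos.2 hS) hm
    omega
  · have h3 : ∑ d ∈ D, K * (S.filter (fun t => r t d)).card < ∑ _d ∈ D, S.card :=
      Finset.sum_lt_sum_of_nonempty hE hcon
    rw [Finset.sum_const, smul_eq_mul] at h3
    have h4 : D.card * S.card ≤ m * S.card := Nat.mul_le_mul_right _ hD
    have h5 : S.card * m = m * S.card := Nat.mul_comm _ _
    omega

/-- near pairs -/
private theorem pair_near (Z : Finset ℕ) (k : ℕ) :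
    ((Z ×ˢ Z).filter (fun p : ℕ × ℕ => p.1 ≤ p.2 + k ∧ p.2 ≤ p.1 + k)).card ≤
      Z.card * (2 * k + 1) := by
  rw [Finset.card_filter, Finset.sum_product, ← smul_eq_mul]
  refine Finset.sum_le_card_nsmul _ _ (2 * k + 1) ?_
  intro y _
  rw [← Finset.card_filter]
  refine (Finset.card_le_card (t := Finset.Icc (y - k) (y + k)) ?_).trans ?_
  · intro z hz
    have h := (Finset.mem_filter.1 hz).2
    rw [Finset.mem_Icc]
    have h1 : y ≤ z + k := h.1
    have h2 : z ≤ y + k := h.2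
    omega
  · rw [Nat.card_Icc]
    omega

/-- the section of `E` over `t` -/
private theorem pair_sec (E : Finset (ℕ × ℕ)) (t : ℕ) : ∃ Z : Finset ℕ,
    Z.card = (E.filter (fun e => e.1 = t)).card ∧ ∀ y, y ∈ Z ↔ (t, y) ∈ E := by
  refine ⟨(E.filter (fun e => e.1 = t)).image Prod.snd, ?_, ?_⟩
  · refine Finset.card_image_of_injOn ?_
    intro a ha b hb hab
    have h1 : a.1 = t := (Finset.mem_filter.1 ha).2
    have h2 : b.1 = t := (Finset.mem_filter.1 hb).2
    exact Prod.ext (h1.trans h2.symm) hab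
  · intro y
    rw [Finset.mem_image]
    constructor
    · rintro ⟨⟨a, b⟩, he, rfl⟩
      have h := Finset.mem_filter.1 he
      have h2 : a = t := h.2
      rw [← h2]
      exact h.1
    · intro h
      exact ⟨(t, y), Finset.mem_filter.2 ⟨h, rfl⟩, rfl⟩

/-- ordered pairs in one block of length `h`: Cauchy-Schwarz -/
private theorem pair_cs (R h : ℕ) (Z : Finset ℕ) (hZ : ∀ y ∈ Z, y < R) :
    Z.card ^ 2 ≤ (R / h + 1) *
      ((Z ×ˢ Z).filter (fun p : ℕ × ℕ => p.1 / h = p.2 / h)).card := by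
  have hmap : ∀ y ∈ Z, y / h ∈ range (R / h + 1) := by
    intro y hy
    rw [Finset.mem_range]
    exact Nat.lt_succ_of_le (Nat.div_le_div_right (hZ y hy).le)
  have h1 : Z.card = ∑ j ∈ range (R / h + 1), (Z.filter (fun y => y / h = j)).card :=
    Finset.card_eq_sum_card_fiberwise hmap
  have h2 : ((Z ×ˢ Z).filter (fun p : ℕ × ℕ => p.1 / h = p.2 / h)).card =
      ∑ j ∈ range (R / h + 1), (Z.filter (fun y => y / h = j)).card ^ 2 := by
    have h3 : ∀ p ∈ (Z ×ˢ Z).filter (fun p : ℕ × ℕ => p.1 / h = p.2 / h),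
        p.1 / h ∈ range (R / h + 1) := by
      intro p hp
      exact hmap _ (Finset.mem_product.1 (Finset.mem_filter.1 hp).1).1
    rw [Finset.card_eq_sum_card_fiberwise h3]
    refine Finset.sum_congr rfl fun j _ => ?_
    rw [pow_two, ← Finset.card_product]
    congr 1
    ext p
    simp only [Finset.mem_filter, Finset.mem_product]
    constructor
    · rintro ⟨⟨⟨a, b⟩, c⟩, d⟩
      exact ⟨⟨a, d⟩, b, c.symm.trans d⟩
    · rintro ⟨⟨a, d⟩, b, c⟩
      exact ⟨⟨⟨a, b⟩, d.trans c.symm⟩, d⟩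
  have h4 : (∑ j ∈ range (R / h + 1), (Z.filter (fun y => y / h = j)).card) ^ 2 ≤
      (range (R / h + 1)).card * ∑ j ∈ range (R / h + 1),
        (Z.filter (fun y => y / h = j)).card ^ 2 := sq_sum_le_card_mul_sum_sq
  rw [← h1, ← h2, Finset.card_range] at h4
  exact h4

/-- many close pairs in a dense set -/
private theorem pair_one (R L h : ℕ) (Z : Finset ℕ) (hL : 16 ≤ L) (hh : 2 ^ 10 * L ^ 2 ≤ h)
    (hhR : h ≤ R) (hZ : ∀ y ∈ Z, y < R) (hn : R ≤ 8 * L * Z.card) : R * h ≤ 1024 * L ^ 2 *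
      ((range R ×ˢ Icc 1 h).filter (fun p : ℕ × ℕ =>
        h ≤ 512 * L ^ 2 * p.2 ∧ p.1 ∈ Z ∧ p.1 + p.2 ∈ Z)).card := by
  set n := Z.card with hnd
  set k := h / (512 * L ^ 2) with hk
  set Q := (Z ×ˢ Z).filter (fun p : ℕ × ℕ => p.1 / h = p.2 / h) with hQ
  set P := (Z ×ˢ Z).filter (fun p : ℕ × ℕ => p.1 / h = p.2 / h ∧
    p.1 ≤ p.2 ∧ h ≤ 512 * L ^ 2 * (p.2 - p.1)) with hP
  set P' := (Z ×ˢ Z).filter (fun p : ℕ × ℕ => p.2 / h = p.1 / h ∧
    p.2 ≤ p.1 ∧ h ≤ 512 * L ^ 2 * (p.1 - p.2)) with hP'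
  set A := (Z ×ˢ Z).filter (fun p : ℕ × ℕ => p.1 ≤ p.2 + k ∧ p.2 ≤ p.1 + k) with hA
  have hLpos : 0 < L := by omega
  have hL2 : 0 < L ^ 2 := pow_pos hLpos 2
  have hM : 0 < 512 * L ^ 2 := by omega
  have hh0 : 0 < h := by omega
  have hkh : 512 * L ^ 2 * k ≤ h := Nat.mul_div_le h (512 * L ^ 2)
  have hhk : h < 512 * L ^ 2 * (k + 1) := Nat.lt_mul_div_succ h hM
  have hPP : P'.card = P.card := by
    refine Finset.card_bij (fun p _ => (p.2, p.1)) ?_ ?_ ?_
    · intro p hp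
      have h := Finset.mem_filter.1 hp
      have h2 := Finset.mem_product.1 h.1
      exact Finset.mem_filter.2 ⟨Finset.mem_product.2 ⟨h2.2, h2.1⟩, h.2⟩
    · intro a _ b _ hab
      have h := Prod.mk.inj hab
      exact Prod.ext h.2 h.1
    · intro b hb
      have h := Finset.mem_filter.1 hb
      have h2 := Finset.mem_product.1 h.1
      exact ⟨(b.2, b.1), Finset.mem_filter.2 ⟨Finset.mem_product.2 ⟨h2.2, h2.1⟩, h.2⟩, rfl⟩
  have hcov : Q ⊆ A ∪ (P ∪ P') := by
    intro p hp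
    have hp1 := (Finset.mem_filter.1 hp).1
    have hp2 : p.1 / h = p.2 / h := (Finset.mem_filter.1 hp).2
    rw [Finset.mem_union, Finset.mem_union]
    by_cases hle : p.1 ≤ p.2
    · by_cases h1 : h ≤ 512 * L ^ 2 * (p.2 - p.1)
      · exact Or.inr (Or.inl (Finset.mem_filter.2 ⟨hp1, hp2, hle, h1⟩))
      · refine Or.inl (Finset.mem_filter.2 ⟨hp1, Nat.le_trans hle (Nat.le_add_right _ _), ?_⟩)
        by_contra h3
        have h4 : k + 1 ≤ p.2 - p.1 := by omega
        have h5 : 512 * L ^ 2 * (k + 1) ≤ 512 * L ^ 2 * (p.2 - p.1) := Nat.mul_le_mul_left _ h4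
        omega
    · by_cases h1 : h ≤ 512 * L ^ 2 * (p.1 - p.2)
      · exact Or.inr (Or.inr (Finset.mem_filter.2 ⟨hp1, hp2.symm, by omega, h1⟩))
      · refine Or.inl (Finset.mem_filter.2 ⟨hp1, ?_,
          Nat.le_trans (Nat.le_of_not_le hle) (Nat.le_add_right _ _)⟩)
        by_contra h3
        have h4 : k + 1 ≤ p.1 - p.2 := by omega
        have h5 : 512 * L ^ 2 * (k + 1) ≤ 512 * L ^ 2 * (p.1 - p.2) := Nat.mul_le_mul_left _ h4
        omega
  have hQc : Q.card ≤ A.card + 2 * P.card := by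
    have h1 := Finset.card_le_card hcov
    have h2 := Finset.card_union_le A (P ∪ P')
    have h3 := Finset.card_union_le P P'
    omega
  have hAc : A.card ≤ n * (2 * k + 1) := pair_near Z k
  have hcs : n ^ 2 ≤ (R / h + 1) * Q.card := pair_cs R h Z hZ
  have hbh : (R / h + 1) * h ≤ 2 * R := by
    have h1 : R / h * h ≤ R := Nat.div_mul_le_self R h
    rw [Nat.add_mul, one_mul]
    omega
  have hnpos : 0 < n := by
    rcases Nat.eq_zero_or_pos n with h0 | h0
    · rw [h0, mul_zero] at hn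
      omega
    · exact h0
  -- `n h ≤ 16 L Q`
  have h1 : n * h ≤ 16 * L * Q.card := by
    have h2 : n * (n * h) ≤ n * (16 * L * Q.card) := by
      calc n * (n * h) = n ^ 2 * h := by ring
        _ ≤ (R / h + 1) * Q.card * h := Nat.mul_le_mul_right _ hcs
        _ = (R / h + 1) * h * Q.card := by ring
        _ ≤ 2 * R * Q.card := Nat.mul_le_mul_right _ hbh
        _ ≤ 2 * (8 * L * n) * Q.card :=
            Nat.mul_le_mul_right _ (Nat.mul_le_mul_left _ hn)
        _ = n * (16 * L * Q.card) := by ring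
    exact Nat.le_of_mul_le_mul_left h2 hnpos
  -- `32 L (2 k + 1) ≤ h`
  have h2 : 32 * L * (2 * k + 1) ≤ h := by
    have h3 : L * (32 * L * (2 * k + 1)) ≤ L * h := by
      have h4 : L * (32 * L * (2 * k + 1)) = 64 * L ^ 2 * k + 32 * L ^ 2 := by ring
      have h5 : 16 * h ≤ L * h := Nat.mul_le_mul_right _ hL
      have h6 : 8 * (64 * L ^ 2 * k) ≤ h := by
        calc 8 * (64 * L ^ 2 * k) = 512 * L ^ 2 * k := by ring
          _ ≤ h := hkh
      have h7 : 32 * L ^ 2 ≤ h := by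
        calc 32 * L ^ 2 ≤ 2 ^ 10 * L ^ 2 := Nat.mul_le_mul_right _ (by norm_num)
          _ ≤ h := hh
      omega
    exact Nat.le_of_mul_le_mul_left h3 hLpos
  have h3 : n * h ≤ 64 * L * P.card := by
    have h4 : 2 * (16 * L * A.card) ≤ n * h := by
      calc 2 * (16 * L * A.card) ≤ 2 * (16 * L * (n * (2 * k + 1))) :=
            Nat.mul_le_mul_left _ (Nat.mul_le_mul_left _ hAc)
        _ = n * (32 * L * (2 * k + 1)) := by ring
        _ ≤ n * h := Nat.mul_le_mul_left _ h2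
    have h5 : 16 * L * Q.card ≤ 16 * L * A.card + 32 * L * P.card := by
      calc 16 * L * Q.card ≤ 16 * L * (A.card + 2 * P.card) := Nat.mul_le_mul_left _ hQc
        _ = 16 * L * A.card + 32 * L * P.card := by ring
    have h6 : 64 * L * P.card = 2 * (32 * L * P.card) := by ring
    omega
  have hinj : P.card ≤ ((range R ×ˢ Icc 1 h).filter (fun p : ℕ × ℕ =>
        h ≤ 512 * L ^ 2 * p.2 ∧ p.1 ∈ Z ∧ p.1 + p.2 ∈ Z)).card := by
    refine Finset.card_le_card_of_injOn (fun p => (p.1, p.2 - p.1)) ?_ ?_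
    · intro p hp
      have hp' := Finset.mem_filter.1 (Finset.mem_coe.1 hp)
      obtain ⟨q1, q2⟩ := Finset.mem_product.1 hp'.1
      obtain ⟨hb, hle, hfar⟩ := hp'.2
      have e1 : 1 ≤ p.2 - p.1 := by
        rcases Nat.eq_zero_or_pos (p.2 - p.1) with h0 | h0
        · rw [h0, mul_zero] at hfar
          omega
        · exact h0
      have e2 : p.2 - p.1 ≤ h := by
        have f1 : h * (p.1 / h) ≤ p.1 := Nat.mul_div_le p.1 h
        have f2 : p.2 < h * (p.2 / h + 1) := Nat.lt_mul_div_succ p.2 hh0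
        rw [← hb, Nat.mul_add, mul_one] at f2
        omega
      refine Finset.mem_coe.2 (Finset.mem_filter.2 ⟨Finset.mem_product.2 ⟨?_, ?_⟩, hfar, q1, ?_⟩)
      · exact Finset.mem_range.2 (hZ _ q1)
      · exact Finset.mem_Icc.2 ⟨e1, e2⟩
      · show p.1 + (p.2 - p.1) ∈ Z
        rw [Nat.add_sub_of_le hle]
        exact q2
    · intro a ha b hb hab
      have ha' := (Finset.mem_filter.1 (Finset.mem_coe.1 ha)).2.2.1
      have hb' := (Finset.mem_filter.1 (Finset.mem_coe.1 hb)).2.2.1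
      have h := Prod.mk.inj hab
      refine Prod.ext h.1 ?_
      have h1 := h.1
      have h2 := h.2
      omega
  calc R * h ≤ 8 * L * n * h := Nat.mul_le_mul_right _ hn
    _ = 8 * L * (n * h) := by ring
    _ ≤ 8 * L * (64 * L * P.card) := Nat.mul_le_mul_left _ h3
    _ = 512 * L ^ 2 * P.card := by ring
    _ ≤ 1024 * L ^ 2 * P.card := Nat.mul_le_mul_right _ (Nat.mul_le_mul_right _ (by norm_num))
    _ ≤ _ := Nat.mul_le_mul_left _ hinj

theorem thm_PAIR : St_PAIR := by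
  intro R L h S E hL hh hhR hS hE hden
  set D : Finset (ℕ × ℕ) := (range R ×ˢ Icc 1 h).filter
    (fun p : ℕ × ℕ => h ≤ 512 * L ^ 2 * p.2) with hD
  have hL2 : 0 < L ^ 2 := pow_pos (by omega) 2
  have hh0 : 0 < h := by omega
  have hRpos : 0 < R := by omega
  have hDc : D.card ≤ R * h := by
    refine (Finset.card_filter_le _ _).trans ?_
    rw [Finset.card_product, Finset.card_range, Nat.card_Icc, Nat.add_sub_cancel]
  obtain ⟨d, hd, hc⟩ := pair_avg S D (fun t p => (t, p.1) ∈ E ∧ (t, p.1 + p.2) ∈ E)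
    (1024 * L ^ 2) (R * h) hS (Nat.mul_pos hRpos hh0) hDc (by
      intro t ht
      obtain ⟨Z, hZc, hZ⟩ := pair_sec E t
      have h1 := pair_one R L h Z hL hh hhR (fun y hy => hE _ ((hZ y).1 hy))
        (by rw [hZc]; exact hden t ht)
      refine h1.trans (Nat.mul_le_mul_left _ (Finset.card_le_card ?_))
      intro p hp
      have h2 := Finset.mem_filter.1 hp
      exact Finset.mem_filter.2 ⟨Finset.mem_filter.2 ⟨h2.1, h2.2.1⟩, (hZ _).1 h2.2.2.1,
        (hZ _).1 h2.2.2.2⟩)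
  have hd' := Finset.mem_filter.1 hd
  have hd2 := Finset.mem_Icc.1 (Finset.mem_product.1 hd'.1).2
  exact ⟨d.1, d.2, hd2.1, hd2.2, hd'.2, hc⟩

end Pool.Agent.BSR
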