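import Pool.Agent.BSR.StC
import Pool.Agent.BSQ.TRF
import Pool.Agent.BSQ.RWF
import Pool.Agent.Helper88.MD.Div

/-!
# BSR, PWN: power saving in `L²` for strips, full range (helper44)
-/

set_option autoImplicit false

namespace Pool.Agent.BSR

open Finset MeasureTheory Filter Topology Pool.Agent.BSQ
open scoped BigOperators
open Classical

private theorem pwn_WF (F : ℕ → ℝ) (hF : ∀ k, |F k| ≤ 1) (N M : ℕ) : |WF F N M| ≤ 2 := by
  unfold WF
  have h1 : |∑ n ∈ Icc 1 N, ∑ m ∈ Icc 1 M, (n : ℝ) * F (n ^ 2 + m ^ 2)| ≤ (N : ℝ) ^ 2 * M := by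
    refine (Finset.abs_sum_le_sum_abs _ _).trans ?_
    have h2 : ∀ n ∈ Icc 1 N, |∑ m ∈ Icc 1 M, (n : ℝ) * F (n ^ 2 + m ^ 2)| ≤ (N : ℝ) * M := by
      intro n hn
      refine (Finset.abs_sum_le_sum_abs _ _).trans ?_
      have h3 : ∀ m ∈ Icc 1 M, |(n : ℝ) * F (n ^ 2 + m ^ 2)| ≤ (N : ℝ) := by
        intro m _
        rw [abs_mul, Nat.abs_cast]
        have h4 : (n : ℝ) ≤ N := by exact_mod_cast (Finset.mem_Icc.1 hn).2
        calc (n : ℝ) * |F (n ^ 2 + m ^ 2)| ≤ n * 1 :=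
              mul_le_mul_of_nonneg_left (hF _) (Nat.cast_nonneg n)
          _ ≤ N := by rw [mul_one]; exact h4
      refine (Finset.sum_le_sum h3).trans ?_
      rw [Finset.sum_const, Nat.card_Icc, nsmul_eq_mul, Nat.add_sub_cancel, mul_comm]
    refine (Finset.sum_le_sum h2).trans ?_
    rw [Finset.sum_const, Nat.card_Icc, nsmul_eq_mul, Nat.add_sub_cancel]
    apply le_of_eq
    ring
  rw [abs_mul, abs_of_nonneg (by positivity : (0 : ℝ) ≤ 2 / ((N : ℝ) ^ 2 * M))]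
  calc 2 / ((N : ℝ) ^ 2 * M) * |∑ n ∈ Icc 1 N, ∑ m ∈ Icc 1 M, (n : ℝ) * F (n ^ 2 + m ^ 2)|
      ≤ 2 / ((N : ℝ) ^ 2 * M) * ((N : ℝ) ^ 2 * M) :=
        mul_le_mul_of_nonneg_left h1 (by positivity)
    _ ≤ 2 := by
        rcases eq_or_ne ((N : ℝ) ^ 2 * M) 0 with h | h
        · rw [h, mul_zero]
          norm_num
        · rw [div_mul_cancel₀ _ h]

private theorem pwn_FT {X : Type} [MeasurableSpace X] (T : X ≃ᵐ X) {f g : X → ℝ}
    (hf : ∀ x, |f x| ≤ 1) (hg : ∀ x, |g x| ≤ 1) (x : X) (k : ℕ) : |FT T f g x k| ≤ 1 := by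
  unfold FT
  rw [abs_mul]
  exact mul_le_one₀ (hf _) (abs_nonneg _) (hg _)

/-- Small `N`. -/
private theorem pwn_small {X : Type} [MeasurableSpace X] (μ : Measure X) [IsProbabilityMeasure μ]
    (T : X ≃ᵐ X) {f g : X → ℝ} (hf : ∀ x, |f x| ≤ 1) (hg : ∀ x, |g x| ≤ 1) (N M M' : ℕ) :
    ∫ x, (WF (FT T f g x) N M - WF (FT T f g x) N M') ^ 2 ∂μ ≤ 16 := by
  have h : ∀ x, (WF (FT T f g x) N M - WF (FT T f g x) N M') ^ 2 ≤ 16 := by
    intro x
    have h1 := abs_le.1 (pwn_WF _ (pwn_FT T hf hg x) N M)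
    have h2 := abs_le.1 (pwn_WF _ (pwn_FT T hf hg x) N M')
    nlinarith [h1.1, h1.2, h2.1, h2.2]
  calc ∫ x, (WF (FT T f g x) N M - WF (FT T f g x) N M') ^ 2 ∂μ ≤ ∫ _, (16 : ℝ) ∂μ := by
        apply integral_mono_of_nonneg
        · exact Eventually.of_forall fun x => sq_nonneg _
        · exact integrable_const _
        · exact Eventually.of_forall h
    _ = 16 := by simp

/-- the exponents: all conditions of `St_FS0`. -/
private theorem pwn_cond (c0 : ℝ) (hc0 : 0 < c0) (hc01 : c0 < 1 / 2) (C0 : ℕ) (κ : ℝ)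
    (hκ : κ = c0 / (2 * (C0 + 1))) (N M M' L : ℕ) (c1 c2 : ℝ) (h1 : c0 ≤ c1) (h12 : c1 ≤ c2)
    (h2 : c2 ≤ 1 - c0) (h3 : c2 - c1 ≤ κ / 2) (hN : 1 ≤ N) (hM1 : (N : ℝ) ^ c1 ≤ M)
    (hM2 : (M' : ℝ) ≤ (N : ℝ) ^ c2) (hL1 : (L : ℝ) ≤ (N : ℝ) ^ κ) (hL2 : (N : ℝ) ^ (κ / 2) ≤ L) :
    L ^ C0 ≤ M ∧ M' ≤ L * M ∧ L ^ C0 * M' ≤ N ∧ N ≤ M ^ ⌈1 / c0⌉₊ ∧ N ≤ L ^ ⌈2 / κ⌉₊ := by
  have hN1 : (1 : ℝ) ≤ N := by exact_mod_cast hN
  have hN0 : (0 : ℝ) < N := by linarith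
  have hκ0 : 0 < κ := by rw [hκ]; positivity
  have hκc : κ * C0 ≤ c0 / 2 := by
    rw [hκ, div_mul_eq_mul_div, div_le_iff₀ (by positivity)]
    nlinarith [(Nat.cast_nonneg C0 : (0 : ℝ) ≤ C0)]
  have hLC : (L : ℝ) ^ C0 ≤ (N : ℝ) ^ (c0 / 2) := by
    calc (L : ℝ) ^ C0 ≤ ((N : ℝ) ^ κ) ^ C0 := pow_le_pow_left₀ (Nat.cast_nonneg _) hL1 _
      _ = (N : ℝ) ^ (κ * C0) := by rw [Real.rpow_mul hN0.le, Real.rpow_natCast]
      _ ≤ _ := Real.rpow_le_rpow_of_exponent_le hN1 hκc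
  have hc0M : (N : ℝ) ^ c0 ≤ M := (Real.rpow_le_rpow_of_exponent_le hN1 h1).trans hM1
  refine ⟨?_, ?_, ?_, ?_, ?_⟩
  · have h4 : (L : ℝ) ^ C0 ≤ M := hLC.trans
      ((Real.rpow_le_rpow_of_exponent_le hN1 (by linarith)).trans hc0M)
    exact_mod_cast h4
  · have h4 : (M' : ℝ) ≤ L * M := by
      calc (M' : ℝ) ≤ (N : ℝ) ^ c2 := hM2
        _ ≤ (N : ℝ) ^ (κ / 2 + c1) := Real.rpow_le_rpow_of_exponent_le hN1 (by linarith)
        _ = (N : ℝ) ^ (κ / 2) * (N : ℝ) ^ c1 := Real.rpow_add hN0 _ _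
        _ ≤ L * M := mul_le_mul hL2 hM1 (by positivity) (by positivity)
    exact_mod_cast h4
  · have h4 : (L : ℝ) ^ C0 * M' ≤ N := by
      calc (L : ℝ) ^ C0 * M' ≤ (N : ℝ) ^ (c0 / 2) * (N : ℝ) ^ (1 - c0) :=
            mul_le_mul hLC (hM2.trans (Real.rpow_le_rpow_of_exponent_le hN1 h2)) (by positivity)
              (by positivity)
        _ = (N : ℝ) ^ (c0 / 2 + (1 - c0)) := (Real.rpow_add hN0 _ _).symm
        _ ≤ (N : ℝ) ^ (1 : ℝ) := Real.rpow_le_rpow_of_exponent_le hN1 (by linarith)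
        _ = N := Real.rpow_one _
    exact_mod_cast h4
  · have h4 : (N : ℝ) ≤ (M : ℝ) ^ ⌈1 / c0⌉₊ := by
      calc (N : ℝ) = (N : ℝ) ^ (1 : ℝ) := (Real.rpow_one _).symm
        _ ≤ (N : ℝ) ^ (c0 * ⌈1 / c0⌉₊) := by
            refine Real.rpow_le_rpow_of_exponent_le hN1 ?_
            have h5 := Nat.le_ceil (1 / c0)
            calc (1 : ℝ) = c0 * (1 / c0) := by field_simp
              _ ≤ _ := mul_le_mul_of_nonneg_left h5 hc0.le
        _ = ((N : ℝ) ^ c0) ^ ⌈1 / c0⌉₊ := by rw [Real.rpow_mul hN0.le, Real.rpow_natCast]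
        _ ≤ _ := pow_le_pow_left₀ (by positivity) hc0M _
    exact_mod_cast h4
  · have h4 : (N : ℝ) ≤ (L : ℝ) ^ ⌈2 / κ⌉₊ := by
      calc (N : ℝ) = (N : ℝ) ^ (1 : ℝ) := (Real.rpow_one _).symm
        _ ≤ (N : ℝ) ^ (κ / 2 * ⌈2 / κ⌉₊) := by
            refine Real.rpow_le_rpow_of_exponent_le hN1 ?_
            have h5 := Nat.le_ceil (2 / κ)
            calc (1 : ℝ) = κ / 2 * (2 / κ) := by field_simp
              _ ≤ _ := mul_le_mul_of_nonneg_left h5 (by linarith)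
        _ = ((N : ℝ) ^ (κ / 2)) ^ ⌈2 / κ⌉₊ := by rw [Real.rpow_mul hN0.le, Real.rpow_natCast]
        _ ≤ _ := pow_le_pow_left₀ (by positivity) hL2 _
    exact_mod_cast h4

theorem thm_PWN (hFS0 : St_FS0) (hTRF : St_TRF) (hRWF : St_RWF) : St_PWN := by
  intro c0 hc0 hc01
  obtain ⟨C0, hC0⟩ := hFS0 ⌈1 / c0⌉₊
  obtain ⟨κ, hκd⟩ : ∃ κ : ℝ, κ = c0 / (2 * (C0 + 1)) := ⟨_, rfl⟩
  have hκ0 : 0 < κ := by rw [hκd]; positivity
  have hκ1 : κ ≤ 1 := by
    rw [hκd, div_le_one (by positivity)]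
    have := (Nat.cast_nonneg C0 : (0 : ℝ) ≤ C0)
    linarith
  obtain ⟨L0, hL0⟩ := hC0 ⌈2 / κ⌉₊
  obtain ⟨Cd, hCd⟩ := Pool.Agent.Helper88.MD.divisorBound (κ / 4) (by linarith)
  set A : ℝ := max (max (32 * Cd) 2) (L0 + 1) with hA
  have hA1 : 32 * Cd ≤ A := (le_max_left _ _).trans (le_max_left _ _)
  have hA2 : 2 ≤ A := (le_max_right _ _).trans (le_max_left _ _)
  have hA3 : (L0 : ℝ) + 1 ≤ A := le_max_right _ _
  refine ⟨κ / 2, 2 * κ, 16 * 128 ^ 2 + 16 * A ^ 4, by linarith, by linarith, by positivity, ?_⟩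
  intro X _ μ _ T hT f g hf hg hf1 hg1 c1 c2 h1 h12 h2 h3
  -- the main case
  have key : ∀ N M M' : ℕ, 1 ≤ N → (N : ℝ) ^ c1 ≤ M → (M' : ℝ) ≤ (N : ℝ) ^ c2 → M ≤ M' →
      ∫ x, (WF (FT T f g x) N M - WF (FT T f g x) N M') ^ 2 ∂μ ≤
        (16 * 128 ^ 2 + 16 * A ^ 4) * (N : ℝ) ^ (-(2 * κ)) := by
    intro N M M' hN hM1 hM2 hMM
    have hN1 : (1 : ℝ) ≤ N := by exact_mod_cast hN
    have hN0 : (0 : ℝ) < N := by linarith
    set ν : ℝ := (N : ℝ) ^ (κ / 2) with hν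
    have hν0 : 0 < ν := Real.rpow_pos_of_pos hN0 _
    have hνκ : (N : ℝ) ^ κ = ν ^ 2 := by
      rw [hν, ← Real.rpow_natCast, ← Real.rpow_mul hN0.le]
      congr 1
      push_cast
      ring
    have hνm : (N : ℝ) ^ (-(2 * κ)) = (ν ^ 4)⁻¹ := by
      rw [hν, ← Real.rpow_natCast, ← Real.rpow_mul hN0.le, Real.rpow_neg hN0.le]
      congr 2
      push_cast
      ring
    rcases lt_or_ge ν A with hc | hc
    · refine (pwn_small μ T hf1 hg1 N M M').trans ?_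
      rw [hνm]
      have h5 : ν ^ 4 ≤ A ^ 4 := pow_le_pow_left₀ hν0.le hc.le 4
      have h6 : (1 : ℝ) ≤ A ^ 4 * (ν ^ 4)⁻¹ := by
        rw [← div_eq_mul_inv, one_le_div (by positivity)]
        exact h5
      have h7 : (0 : ℝ) ≤ 16 * 128 ^ 2 * (ν ^ 4)⁻¹ := by positivity
      nlinarith
    · set L : ℕ := ⌊(N : ℝ) ^ κ⌋₊ with hL
      have hLle : (L : ℝ) ≤ (N : ℝ) ^ κ := Nat.floor_le (by positivity)
      have hLgt : (N : ℝ) ^ κ < L + 1 := Nat.lt_floor_add_one _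
      have hν2 : A ≤ ν ^ 2 := by nlinarith
      have hL1 : ν ^ 2 / 2 ≤ L := by
        rw [hνκ] at hLgt
        nlinarith
      have hL2 : ν ≤ L := by nlinarith
      have hLpos : (0 : ℝ) < L := lt_of_lt_of_le (by positivity) hL1
      have hLL0 : L0 ≤ L := by
        have : (L0 : ℝ) < L + 1 := by
          rw [hνκ] at hLgt
          linarith
        have h5 : L0 < L + 1 := by exact_mod_cast this
        omega
      have hM'N : M' ≤ N := by
        have h5 : (N : ℝ) ^ c2 ≤ (N : ℝ) ^ (1 : ℝ) :=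
          Real.rpow_le_rpow_of_exponent_le hN1 (by linarith)
        rw [Real.rpow_one] at h5
        exact_mod_cast hM2.trans h5
      obtain ⟨e1, e2, e4, e5, e6⟩ := pwn_cond c0 hc0 hc01 C0 κ hκd N M M' L c1 c2 h1 h12 h2 h3 hN
        hM1 hM2 hLle hL2
      have e3 : ∀ l : ℕ, 1 ≤ l → l ≤ 16 * N ^ 2 → l.divisors.card ≤ L := by
        intro l hl1 hl2
        have h5 := hCd l hl1
        have h6 : (l : ℝ) ^ (κ / 4) ≤ 16 * ν := by
          have h7 : (l : ℝ) ≤ 16 * (N : ℝ) ^ 2 := by exact_mod_cast hl2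
          calc (l : ℝ) ^ (κ / 4) ≤ (16 * (N : ℝ) ^ 2) ^ (κ / 4) :=
                Real.rpow_le_rpow (Nat.cast_nonneg _) h7 (by linarith)
            _ = (16 : ℝ) ^ (κ / 4) * ν := by
                rw [Real.mul_rpow (by norm_num) (by positivity), hν, ← Real.rpow_natCast,
                  ← Real.rpow_mul hN0.le]
                congr 2
                push_cast
                ring
            _ ≤ 16 * ν := by
                refine mul_le_mul_of_nonneg_right ?_ hν0.le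
                calc (16 : ℝ) ^ (κ / 4) ≤ (16 : ℝ) ^ (1 : ℝ) :=
                      Real.rpow_le_rpow_of_exponent_le (by norm_num) (by linarith)
                  _ = 16 := Real.rpow_one _
        have h8 : (l.divisors.card : ℝ) ≤ L := by
          rcases le_or_gt Cd 0 with h9 | h9
          · have h10 : (0 : ℝ) ≤ (l : ℝ) ^ (κ / 4) := by positivity
            nlinarith
          · have h10 : Cd * (l : ℝ) ^ (κ / 4) ≤ Cd * (16 * ν) := mul_le_mul_of_nonneg_left h6 h9.le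
            nlinarith
        exact_mod_cast h8
      obtain ⟨P, hP, hP5, hP16, hPb⟩ := hL0 L hLL0 N M M' e1 hMM e2 e4 e5 e6 e3
      have hint := hTRF X μ T hT f g hf hg hf1 hg1 N P
        (fun k => rhoS N M k - rhoS N M' k) (64 / L) hN hP5 hP16 (by positivity) hPb
      have heq : ∀ x, ∑ k ∈ range (2 * N ^ 2 + 1), (rhoS N M k - rhoS N M' k) * FT T f g x k =
          WF (FT T f g x) N M - WF (FT T f g x) N M' := by
        intro x
        rw [← (hRWF (FT T f g x)).1 N M (hMM.trans hM'N), ← (hRWF (FT T f g x)).1 N M' hM'N,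
          ← Finset.sum_sub_distrib]
        apply Finset.sum_congr rfl
        intro k _
        ring
      simp only [heq] at hint
      refine hint.trans ?_
      rw [hνm]
      have h5 : 64 / (L : ℝ) ≤ 128 / ν ^ 2 := by
        rw [div_le_div_iff₀ hLpos (by positivity)]
        linarith
      have h6 : (64 / (L : ℝ)) ^ 2 ≤ 128 ^ 2 * (ν ^ 4)⁻¹ := by
        calc (64 / (L : ℝ)) ^ 2 ≤ (128 / ν ^ 2) ^ 2 :=
              pow_le_pow_left₀ (by positivity) h5 2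
          _ = 128 ^ 2 * (ν ^ 4)⁻¹ := by
              rw [div_pow, ← pow_mul, div_eq_mul_inv]
      have h7 : (0 : ℝ) ≤ 16 * A ^ 4 * (ν ^ 4)⁻¹ := by positivity
      linarith
  intro N M M' hN a1 a2 b1 b2
  rcases le_total M M' with h | h
  · exact key N M M' hN a1 b2 h
  · have h5 := key N M' M hN b1 a2 h
    have h6 : (fun x => (WF (FT T f g x) N M - WF (FT T f g x) N M') ^ 2) =
        fun x => (WF (FT T f g x) N M' - WF (FT T f g x) N M) ^ 2 := by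
      funext x
      ring
    rw [h6]
    exact h5

end Pool.Agent.BSR
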