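import Pool.Agent.BSR.StB

/-!
# BSR, RES: few resonant pairs of tiles (helper44)
-/

set_option autoImplicit false

namespace Pool.Agent.BSR

open Finset MeasureTheory Filter Topology Pool.Agent.BSQ
open scoped BigOperators
open Classical

private theorem res_S (lam b1 r δ R L : ℝ) (hlam : 0 < lam) (hb1 : 0 < b1) (hr : 0 ≤ r) (hrr : r * r = R)
    (hL : 100 ≤ L) (h2 : lam * b1 * L ^ 10 ≤ δ * r) : 8 * lam * b1 * r * L ^ 8 ≤ δ * R := by
  have h6 : lam * b1 * L ^ 10 * r ≤ δ * R := by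
    calc lam * b1 * L ^ 10 * r ≤ δ * r * r := mul_le_mul_of_nonneg_right h2 hr
      _ = δ * R := by rw [mul_assoc, hrr]
  refine le_trans ?_ h6
  have h7 : 8 * L ^ 8 ≤ L ^ 10 := by
    have h10 : L ^ 10 = L ^ 8 * L ^ 2 := by ring
    rw [h10]
    have h8 : (8 : ℝ) ≤ L ^ 2 := by nlinarith
    have h9 : (0 : ℝ) < L ^ 8 := by positivity
    nlinarith
  have h8 : 0 ≤ lam * b1 * r := by positivity
  calc 8 * lam * b1 * r * L ^ 8 = (lam * b1 * r) * (8 * L ^ 8) := by ring
    _ ≤ (lam * b1 * r) * L ^ 10 := mul_le_mul_of_nonneg_left h7 h8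
    _ = _ := by ring

theorem thm_RES (hRESP : St_RESP) (hRESA : St_RESA) (hRESC : St_RESC) : St_RES := by
  intro k
  obtain ⟨C', hC'⟩ := hRESC (k + 1)
  refine ⟨8 * C' + 8, fun B => ?_⟩
  obtain ⟨L1, hL1⟩ := hC' B
  refine ⟨L1 + 100, fun L R Q lam b0 b1 δ W W' hL hQL hlam hb0 hb01 hb1 hδ hC hB h1 h2 h3 h4 => ?_⟩
  by_contra hcon
  push Not at hcon
  have hL1' : 1 ≤ L := by omega
  have hLR : (100 : ℝ) ≤ L := by
    have : 100 ≤ L := by omega
    exact_mod_cast this
  have hL0 : (0 : ℝ) < L := by linarith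
  have hL1R : (1 : ℝ) ≤ L := by linarith
  -- R ≥ 1
  have hR : 1 ≤ R := by
    rcases Nat.eq_zero_or_pos R with h | h
    · exfalso
      rw [h] at hcon
      simp at hcon
    · exact h
  have hRR : (1 : ℝ) ≤ R := by exact_mod_cast hR
  obtain ⟨q, s, B3, E3, hq1, hqQ, hs, hB3, hB3', hE3, hE⟩ :=
    hRESP L R Q lam b0 b1 δ W W' hL1' hQL hb0 h4 hcon
  have hB3pos : 0 < B3 := lt_of_lt_of_le hb0 hB3
  obtain ⟨ω, ω', E', hE'3, hE'c, hω, hω', hEE⟩ := hRESA L R B3 s (fun t => q * W t)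
    (fun t => q * W' t) E3 (by omega) hR hB3pos (hB3'.trans hb1) hs hE3 (fun e he => by
      obtain ⟨a1, a2, _, β, n, a3, a4, a5, _⟩ := hE e he
      exact ⟨a1, a2, β, n, by rw [← a3]; ring, a4, a5⟩)
  have hsR : 0 < Real.sqrt R := Real.sqrt_pos.2 (by linarith)
  set S : ℝ := 8 * lam * b1 * Real.sqrt R with hS
  have hb1pos : 0 < b1 := lt_of_lt_of_le hb0 hb01
  have hδinv : 1 ≤ 1 / δ := by
    refine le_trans ?_ hC
    exact one_le_pow₀ hL1R
  have hδ8 : 8 ≤ 1 / δ := by
    have h5 : (L : ℝ) ^ 1 ≤ (L : ℝ) ^ (8 * C' + 8) := pow_le_pow_right₀ hL1R (by omega)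
    rw [pow_one] at h5
    linarith
  -- the configuration
  have hRS : RS R (L ^ 8) S δ (fun t => lam * ω t) (fun t => lam * ω' t) E' := by
    refine ⟨?_, ?_, ?_, ?_⟩
    · intro e he
      obtain ⟨a1, a2, a3, _⟩ := hE e (hE'3 he)
      refine ⟨a1, a2, ?_⟩
      have h5 : e.2 ≤ e.1 := by
        have h6 : L * e.2 ≤ L * e.1 := le_trans (Nat.le_add_left _ _) a3
        exact Nat.le_of_mul_le_mul_left h6 (by omega)
      obtain ⟨d, hd⟩ := Nat.exists_eq_add_of_le h5
      rw [hd] at a3 ⊢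
      have h6 : R ≤ L * d := by
        have : L * (e.2 + d) = L * e.2 + L * d := by ring
        omega
      have h7 : L * d ≤ L ^ 8 * d := Nat.mul_le_mul_right _ (Nat.le_self_pow (by norm_num) L)
      have : L ^ 8 * (e.2 + d) = L ^ 8 * e.2 + L ^ 8 * d := by ring
      omega
    · intro t
      rw [abs_mul, abs_of_pos hlam, hS]
      have h5 := hω t
      calc lam * |ω t| * Real.sqrt R ≤ lam * (8 * B3) * Real.sqrt R := by gcongr
        _ ≤ lam * (8 * b1) * Real.sqrt R := by gcongr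
        _ = _ := by ring
    · intro t
      rw [abs_mul, abs_of_pos hlam, hS]
      have h5 := hω' t
      calc lam * |ω' t| * Real.sqrt R ≤ lam * (8 * B3) * Real.sqrt R := by gcongr
        _ ≤ lam * (8 * b1) * Real.sqrt R := by gcongr
        _ = _ := by ring
    · intro e he
      obtain ⟨a1, a2, a3, β, n, a4, a5, a6, a7⟩ := hE e (hE'3 he)
      have h5 : ω e.1 - ω' e.2 = β := hEE e he β n (by rw [← a4]; ring) a5 a6
      have h6 : (lam * ω e.1 - lam * ω' e.2) * Real.sqrt ((e.1 : ℝ) - e.2) =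
          lam * β * Real.sqrt ((e.1 : ℝ) - e.2) := by
        rw [← h5]; ring
      refine ⟨round (lam * β * Real.sqrt ((e.1 : ℝ) - e.2)), ?_, ?_⟩
      · -- positivity
        have h7 : (R : ℝ) ≤ L * ((e.1 : ℝ) - e.2) := by
          have : (R : ℝ) + L * e.2 ≤ L * e.1 := by exact_mod_cast a3
          linarith
        have h8 : Real.sqrt R ≤ L * Real.sqrt ((e.1 : ℝ) - e.2) := by
          have h9 : (R : ℝ) ≤ (L * Real.sqrt ((e.1 : ℝ) - e.2)) ^ 2 := by
            have h10 : 0 ≤ (e.1 : ℝ) - e.2 := by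
              by_contra h
              push Not at h
              nlinarith
            rw [mul_pow, Real.sq_sqrt h10]
            have h11 : (L : ℝ) * ((e.1 : ℝ) - e.2) ≤ (L : ℝ) ^ 2 * ((e.1 : ℝ) - e.2) := by
              refine mul_le_mul_of_nonneg_right ?_ h10
              nlinarith
            linarith
          exact Real.sqrt_le_iff.2 ⟨by positivity, h9⟩
        have h9 : 4 * δ ≤ lam * β * Real.sqrt ((e.1 : ℝ) - e.2) := by
          have h10 : 4 * δ * L ≤ lam * β * (L * Real.sqrt ((e.1 : ℝ) - e.2)) := by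
            calc 4 * δ * L ≤ lam * b0 * Real.sqrt R := h3
              _ ≤ lam * β * (L * Real.sqrt ((e.1 : ℝ) - e.2)) := by
                refine mul_le_mul ?_ h8 hsR.le ?_
                · exact mul_le_mul_of_nonneg_left (by linarith) hlam.le
                · have : 0 < β := by linarith
                  positivity
          have h11 : L * (4 * δ) ≤ L * (lam * β * Real.sqrt ((e.1 : ℝ) - e.2)) := by
            calc (L : ℝ) * (4 * δ) = 4 * δ * L := by ring
              _ ≤ lam * β * (L * Real.sqrt ((e.1 : ℝ) - e.2)) := h10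
              _ = L * (lam * β * Real.sqrt ((e.1 : ℝ) - e.2)) := by ring
          exact le_of_mul_le_mul_left h11 hL0
        unfold dI at a7
        have h12 := abs_le.1 a7
        by_contra h
        push Not at h
        have h13 : round (lam * β * Real.sqrt ((e.1 : ℝ) - e.2)) ≤ 0 := by omega
        have h14 : (round (lam * β * Real.sqrt ((e.1 : ℝ) - e.2)) : ℝ) ≤ 0 := by exact_mod_cast h13
        linarith [h12.2]
      · show |(lam * ω e.1 - lam * ω' e.2) * Real.sqrt ((e.1 : ℝ) - e.2) - _| ≤ δ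
        rw [h6]
        exact a7
  have hL8 : L ≤ L ^ 8 := Nat.le_self_pow (by norm_num) L
  refine hL1 (L ^ 8) R S δ _ _ E' (by omega) hRS hδ ?_ ?_ ?_ ?_ hR ?_
  · rw [Nat.cast_pow, ← pow_mul]
    exact (pow_le_pow_right₀ hL1R (by omega)).trans hC
  · rw [Nat.cast_pow, ← pow_mul]
    exact hB.trans (pow_le_pow_right₀ hL1R (by omega))
  · rw [hS, pow_succ]
    have h5 : (0 : ℝ) ≤ (1 / δ) ^ k := by positivity
    calc 8 * lam * b1 * Real.sqrt R = 8 * (lam * b1 * Real.sqrt R) := by ring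
      _ ≤ 8 * (1 / δ) ^ k := by linarith
      _ ≤ (1 / δ) ^ k * (1 / δ) := by nlinarith
  · rw [hS, Nat.cast_pow]
    exact res_S lam b1 (Real.sqrt R) δ R L hlam hb1pos hsR.le (Real.mul_self_sqrt (by linarith)) hLR h2
  · exact hE'c.trans (Nat.mul_le_mul_right _ (Nat.pow_le_pow_right hL1' (by norm_num)))

end Pool.Agent.BSR
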