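import Pool.Agent.BSR.StB

/-!
# BSR, module RESA: localisation to an arc
-/

set_option autoImplicit false

namespace Pool.Agent.BSR

open Finset MeasureTheory Filter Topology Pool.Agent.BSQ
open scoped BigOperators
open Classical

private theorem resa_cr (z : ℝ) (k : ℤ) (hz : |z| < 1 / 2) : (z + k) - round (z + k) = z := by
  have h1 : round z = 0 := by
    rw [round_eq_zero_iff]
    rw [abs_lt] at hz
    constructor <;> linarith [hz.1, hz.2]
  rw [round_add_intCast, h1]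
  push_cast
  ring

private theorem resa_N (B : ℝ) (hB : 0 < B) (hB32 : B ≤ 1 / 32) :
    ∃ N : ℕ, 16 ≤ N ∧ 2 * B * N ≤ 1 ∧ 1 ≤ 4 * B * N := by
  have h0 : (0 : ℝ) < 2 * B := by linarith
  have h1 : (16 : ℝ) ≤ 1 / (2 * B) := by
    rw [le_div_iff₀ h0]
    linarith
  have h2 : (⌊1 / (2 * B)⌋₊ : ℝ) ≤ 1 / (2 * B) := Nat.floor_le (by linarith)
  have h3 : 1 / (2 * B) < ⌊1 / (2 * B)⌋₊ + 1 := Nat.lt_floor_add_one _
  have h4 : 16 ≤ ⌊1 / (2 * B)⌋₊ := Nat.le_floor (by exact_mod_cast h1)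
  refine ⟨⌊1 / (2 * B)⌋₊, h4, ?_, ?_⟩
  · rw [le_div_iff₀ h0] at h2
    linarith
  · rw [div_lt_iff₀ h0] at h3
    have h5 : (16 : ℝ) ≤ ⌊1 / (2 * B)⌋₊ := by exact_mod_cast h4
    nlinarith

/-- the floors of two close reals. -/
private theorem resa_floor (x y : ℝ) (h1 : x - 1 ≤ y) (h2 : y ≤ x + 1) :
    ⌊y⌋ - ⌊x⌋ ∈ ({-1, 0, 1} : Finset ℤ) := by
  have h3 := Int.floor_le_floor h1
  have h4 := Int.floor_le_floor h2
  rw [Int.floor_sub_one] at h3
  rw [Int.floor_add_one] at h4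
  simp only [Finset.mem_insert, Finset.mem_singleton]
  omega

/-- the pigeonhole. -/
private theorem resa_pigeon (L R : ℕ) (hL : 13 ≤ L) (hR : 1 ≤ R) (N : ℤ) (a a' : ℕ → ℤ)
    (E3 : Finset (ℕ × ℕ)) (hE : (R : ℝ) ^ 2 ≤ 2 * (L : ℝ) ^ 3 * E3.card)
    (hE3 : ∀ e ∈ E3, e.1 < R ∧ e.2 < R ∧
      ∃ δ ∈ ({-1, 0, 1} : Finset ℤ), (a e.1 - δ) % N = a' e.2 % N) :
    ∃ α : ℤ, R ^ 2 ≤ L ^ 7 * (E3.filter (fun e => a' e.2 % N = α)).card := by
  by_contra hcon
  push Not at hcon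
  let I : Finset ℤ := (range R).image (fun t => a' t % N)
  let Ea : ℤ → Finset (ℕ × ℕ) := fun α => E3.filter (fun e => a' e.2 % N = α)
  let T' : ℤ → Finset ℕ := fun α => (range R).filter (fun t => a' t % N = α)
  let T : ℤ → Finset ℕ := fun α => (range R).filter
    (fun t => ∃ δ ∈ ({-1, 0, 1} : Finset ℤ), (a t - δ) % N = α)
  have hsumE : ∑ α ∈ I, (Ea α).card = E3.card := by
    refine (Finset.card_eq_sum_card_fiberwise (f := fun e : ℕ × ℕ => a' e.2 % N) (t := I) ?_).symm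
    intro e he
    exact Finset.mem_coe.mpr (mem_image.mpr
      ⟨e.2, mem_range.mpr (hE3 e (Finset.mem_coe.mp he)).2.1, rfl⟩)
  have hsumT' : ∑ α ∈ I, (T' α).card = R := by
    have h1 : (range R).card = ∑ α ∈ I, (T' α).card := by
      refine Finset.card_eq_sum_card_fiberwise (f := fun t => a' t % N) (t := I) ?_
      intro e he
      exact Finset.mem_coe.mpr (mem_image.mpr ⟨e, Finset.mem_coe.mp he, rfl⟩)
    rw [← h1, card_range]
  have hsumT : ∑ α ∈ I, (T α).card ≤ 3 * R := by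
    have h1 : ∑ α ∈ I, (T α).card = ∑ t ∈ range R,
        (I.filter (fun α => ∃ δ ∈ ({-1, 0, 1} : Finset ℤ), (a t - δ) % N = α)).card := by
      simp only [T, Finset.card_filter]
      exact Finset.sum_comm
    rw [h1]
    have h2 : ∀ t ∈ range R,
        (I.filter (fun α => ∃ δ ∈ ({-1, 0, 1} : Finset ℤ), (a t - δ) % N = α)).card ≤ 3 := by
      intro t _
      have h3 : I.filter (fun α => ∃ δ ∈ ({-1, 0, 1} : Finset ℤ), (a t - δ) % N = α) ⊆
          ({-1, 0, 1} : Finset ℤ).image (fun δ => (a t - δ) % N) := by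
        intro α hα
        obtain ⟨_, δ, hδ, h4⟩ := mem_filter.mp hα
        exact mem_image.mpr ⟨δ, hδ, h4⟩
      refine (Finset.card_le_card h3).trans (Finset.card_image_le.trans ?_)
      exact le_of_eq rfl
    refine (Finset.sum_le_sum h2).trans ?_
    rw [Finset.sum_const, card_range, smul_eq_mul, mul_comm]
  have hprod : ∀ α, (Ea α).card ≤ (T α).card * (T' α).card := by
    intro α
    rw [← Finset.card_product]
    apply Finset.card_le_card
    intro e he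
    obtain ⟨h1, h2⟩ := mem_filter.mp he
    obtain ⟨h3, h4, δ, hδ, h5⟩ := hE3 e h1
    exact mem_product.mpr ⟨mem_filter.mpr ⟨mem_range.mpr h3, δ, hδ, h5.trans h2⟩,
      mem_filter.mpr ⟨mem_range.mpr h4, h2⟩⟩
  -- Cauchy-Schwarz
  have hL0 : (0 : ℝ) < L := by
    have : 0 < L := by omega
    exact_mod_cast this
  have hR0 : (0 : ℝ) < R := by exact_mod_cast hR
  have hkey : ∀ α ∈ I, ((Ea α).card : ℝ) ^ 2 ≤
      ((R : ℝ) ^ 2 / (L : ℝ) ^ 7 * (T α).card) * ((T' α).card : ℝ) := by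
    intro α _
    have h1 : ((L : ℝ) ^ 7 * (Ea α).card) ≤ (R : ℝ) ^ 2 := by
      have := (hcon α).le
      exact_mod_cast this
    have h2 : ((Ea α).card : ℝ) ≤ (T α).card * (T' α).card := by exact_mod_cast hprod α
    have h3 : ((Ea α).card : ℝ) ≤ (R : ℝ) ^ 2 / (L : ℝ) ^ 7 := by
      rw [le_div_iff₀ (by positivity)]
      linarith
    have h4 : (0 : ℝ) ≤ (Ea α).card := Nat.cast_nonneg _
    calc ((Ea α).card : ℝ) ^ 2 = (Ea α).card * (Ea α).card := by ring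
      _ ≤ (R : ℝ) ^ 2 / (L : ℝ) ^ 7 * ((T α).card * (T' α).card) :=
          mul_le_mul h3 h2 h4 (by positivity)
      _ = _ := by ring
  have hCS := Finset.sum_sq_le_sum_mul_sum_of_sq_le_mul I
    (r := fun α => ((Ea α).card : ℝ))
    (f := fun α => (R : ℝ) ^ 2 / (L : ℝ) ^ 7 * (T α).card) (g := fun α => ((T' α).card : ℝ))
    (fun α _ => by positivity) (fun α _ => by positivity) hkey
  have h1 : ∑ α ∈ I, ((Ea α).card : ℝ) = E3.card := by exact_mod_cast hsumE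
  have h2 : ∑ α ∈ I, ((T' α).card : ℝ) = R := by exact_mod_cast hsumT'
  have h3 : ∑ α ∈ I, ((T α).card : ℝ) ≤ 3 * R := by exact_mod_cast hsumT
  rw [h1, h2, ← Finset.mul_sum] at hCS
  have h4 : ((E3.card : ℝ)) ^ 2 ≤ (R : ℝ) ^ 2 / (L : ℝ) ^ 7 * (3 * R) * R := by
    refine hCS.trans ?_
    apply mul_le_mul_of_nonneg_right _ hR0.le
    exact mul_le_mul_of_nonneg_left h3 (by positivity)
  have h5 : ((E3.card : ℝ)) ^ 2 * (L : ℝ) ^ 7 ≤ 3 * (R : ℝ) ^ 4 := by
    have h6 : (R : ℝ) ^ 2 / (L : ℝ) ^ 7 * (3 * R) * R = 3 * (R : ℝ) ^ 4 / (L : ℝ) ^ 7 := by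
      ring
    rw [h6, le_div_iff₀ (by positivity)] at h4
    exact h4
  have h6 : (R : ℝ) ^ 4 ≤ 4 * (L : ℝ) ^ 6 * (E3.card : ℝ) ^ 2 := by
    have h7 : ((R : ℝ) ^ 2) ^ 2 ≤ (2 * (L : ℝ) ^ 3 * E3.card) ^ 2 :=
      pow_le_pow_left₀ (by positivity) hE 2
    calc (R : ℝ) ^ 4 = ((R : ℝ) ^ 2) ^ 2 := by ring
      _ ≤ _ := h7
      _ = _ := by ring
  have h7 : (0 : ℝ) < (L : ℝ) ^ 6 * (E3.card : ℝ) ^ 2 := by
    have : (0 : ℝ) < (R : ℝ) ^ 4 := by positivity
    linarith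
  have h8 : (L : ℝ) * ((L : ℝ) ^ 6 * (E3.card : ℝ) ^ 2) ≤
      12 * ((L : ℝ) ^ 6 * (E3.card : ℝ) ^ 2) := by
    calc (L : ℝ) * ((L : ℝ) ^ 6 * (E3.card : ℝ) ^ 2) = ((E3.card : ℝ)) ^ 2 * (L : ℝ) ^ 7 := by
          ring
      _ ≤ 3 * (R : ℝ) ^ 4 := h5
      _ ≤ 3 * (4 * (L : ℝ) ^ 6 * (E3.card : ℝ) ^ 2) := by linarith
      _ = _ := by ring
  have h9 : (L : ℝ) ≤ 12 := le_of_mul_le_mul_right h8 h7
  have h10 : (13 : ℝ) ≤ L := by exact_mod_cast hL
  linarith

theorem thm_RESA : St_RESA := by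
  intro L R B s W W' E3 hL hR hB hB32 hs hE hE3
  obtain ⟨N, hN16, hN1, hN2⟩ := resa_N B hB hB32
  have hN16' : (16 : ℝ) ≤ N := by exact_mod_cast hN16
  have hN0 : (0 : ℝ) < N := by linarith
  have hss : s * s = 1 := by
    rcases hs with h | h <;> rw [h] <;> norm_num
  have habs : |s| = 1 := by
    rcases hs with h | h <;> rw [h] <;> norm_num
  have hβ : ∀ β : ℝ, B < β → β ≤ 2 * B → |s * β| ≤ 1 / N := by
    intro β h1 h2
    rw [abs_mul, habs, one_mul, abs_of_pos (by linarith), le_div_iff₀ hN0]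
    nlinarith
  obtain ⟨α, hα⟩ := resa_pigeon L R hL hR (N : ℤ) (fun t => ⌊(N : ℝ) * W t⌋)
    (fun t => ⌊(N : ℝ) * W' t⌋) E3 hE (by
      intro e he
      obtain ⟨h1, h2, β, n, h3, h4, h5⟩ := hE3 e he
      refine ⟨h1, h2, ⌊(N : ℝ) * W e.1⌋ - ((N : ℤ) * n + ⌊(N : ℝ) * W' e.2⌋), ?_, ?_⟩
      · have h6 := hβ β h4 h5
        rw [abs_le] at h6
        have h7 : (N : ℝ) * W e.1 = N * W' e.2 + ((N : ℤ) * n : ℤ) + N * (s * β) := by
          have : W e.1 = W' e.2 + n + s * β := by linarith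
          rw [this]
          push_cast
          ring
        have h8 : (N : ℝ) * (s * β) ≤ 1 := by
          have := mul_le_mul_of_nonneg_left h6.2 hN0.le
          rwa [mul_one_div_cancel hN0.ne'] at this
        have h9 : -1 ≤ (N : ℝ) * (s * β) := by
          have := mul_le_mul_of_nonneg_left h6.1 hN0.le
          rwa [mul_neg, mul_one_div_cancel hN0.ne'] at this
        have h10 := resa_floor (N * W' e.2 + ((N : ℤ) * n : ℤ)) ((N : ℝ) * W e.1)
          (by rw [h7]; linarith) (by rw [h7]; linarith)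
        rw [Int.floor_add_intCast] at h10
        have h11 : ⌊(N : ℝ) * W e.1⌋ - ((N : ℤ) * n + ⌊(N : ℝ) * W' e.2⌋) =
            ⌊(N : ℝ) * W e.1⌋ - (⌊(N : ℝ) * W' e.2⌋ + (N : ℤ) * n) := by ring
        rw [h11]
        exact h10
      · show (⌊(N : ℝ) * W e.1⌋ - (⌊(N : ℝ) * W e.1⌋ - ((N : ℤ) * n + ⌊(N : ℝ) * W' e.2⌋))) %
          (N : ℤ) = ⌊(N : ℝ) * W' e.2⌋ % (N : ℤ)
        have h6 : ⌊(N : ℝ) * W e.1⌋ - (⌊(N : ℝ) * W e.1⌋ - ((N : ℤ) * n + ⌊(N : ℝ) * W' e.2⌋)) =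
            ⌊(N : ℝ) * W' e.2⌋ + (N : ℤ) * n := by ring
        rw [h6, Int.add_mul_emod_self_left])
  have hbd : ∀ x : ℝ, |x| ≤ 2 / N → |s * x| ≤ 8 * B := by
    intro x hx
    rw [abs_mul, habs, one_mul]
    refine hx.trans ?_
    rw [div_le_iff₀ hN0]
    linarith
  refine ⟨fun t => if |(W t - α / N) - round (W t - α / N)| ≤ 2 / N then
      s * ((W t - α / N) - round (W t - α / N)) else 0,
    fun t => if |(W' t - α / N) - round (W' t - α / N)| ≤ 2 / N then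
      s * ((W' t - α / N) - round (W' t - α / N)) else 0,
    E3.filter (fun e => ⌊(N : ℝ) * W' e.2⌋ % (N : ℤ) = α), Finset.filter_subset _ _, hα, ?_, ?_, ?_⟩
  · intro t
    show |(if |(W t - α / N) - round (W t - α / N)| ≤ 2 / N then
      s * ((W t - α / N) - round (W t - α / N)) else 0)| ≤ 8 * B
    by_cases h : |(W t - α / N) - round (W t - α / N)| ≤ 2 / N
    · rw [if_pos h]
      exact hbd _ h
    · rw [if_neg h, abs_zero]
      linarith
  · intro t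
    show |(if |(W' t - α / N) - round (W' t - α / N)| ≤ 2 / N then
      s * ((W' t - α / N) - round (W' t - α / N)) else 0)| ≤ 8 * B
    by_cases h : |(W' t - α / N) - round (W' t - α / N)| ≤ 2 / N
    · rw [if_pos h]
      exact hbd _ h
    · rw [if_neg h, abs_zero]
      linarith
  · intro e he β n h1 h2 h3
    obtain ⟨_, h5⟩ := mem_filter.mp he
    have h6 : (⌊(N : ℝ) * W' e.2⌋ : ℝ) =
        (N : ℝ) * ((⌊(N : ℝ) * W' e.2⌋ / (N : ℤ) : ℤ) : ℝ) + α := by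
      have h7 := Int.mul_ediv_add_emod ⌊(N : ℝ) * W' e.2⌋ (N : ℤ)
      rw [h5] at h7
      exact_mod_cast h7.symm
    obtain ⟨q, hq⟩ : ∃ q : ℤ, q = ⌊(N : ℝ) * W' e.2⌋ / (N : ℤ) := ⟨_, rfl⟩
    rw [← hq] at h6
    have h7 : (⌊(N : ℝ) * W' e.2⌋ : ℝ) ≤ (N : ℝ) * W' e.2 := Int.floor_le _
    have h8 : (N : ℝ) * W' e.2 < ⌊(N : ℝ) * W' e.2⌋ + 1 := Int.lt_floor_add_one _
    obtain ⟨x, hx⟩ : ∃ x : ℝ, x = W' e.2 - α / N - q := ⟨_, rfl⟩
    have hNx : (N : ℝ) * x = N * W' e.2 - α - N * q := by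
      rw [hx, mul_sub, mul_sub, mul_div_cancel₀ _ hN0.ne']
    have hx0 : 0 ≤ x := by
      have : 0 ≤ (N : ℝ) * x := by rw [hNx]; linarith
      exact nonneg_of_mul_nonneg_right this hN0
    have hx1 : x < 1 / N := by
      rw [lt_div_iff₀ hN0]
      have : (N : ℝ) * x < 1 := by rw [hNx]; linarith
      linarith
    have hNN : (1 : ℝ) / N ≤ 1 / 16 := one_div_le_one_div_of_le (by norm_num) hN16'
    have hNpos : (0 : ℝ) < 1 / N := by positivity
    have h2N : (2 : ℝ) / N = 1 / N + 1 / N := by ring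
    have hb := abs_le.mp (hβ β h2 h3)
    have hc' : W' e.2 - α / N = x + q := by rw [hx]; ring
    have hc : W e.1 - α / N = (x + s * β) + ((q + n : ℤ) : ℝ) := by
      have : W e.1 = W' e.2 + n + s * β := by linarith
      rw [this]
      push_cast
      linarith
    have hr' : (W' e.2 - α / N) - round (W' e.2 - α / N) = x := by
      rw [hc']
      exact resa_cr x q (by rw [abs_lt]; constructor <;> linarith)
    have hr : (W e.1 - α / N) - round (W e.1 - α / N) = x + s * β := by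
      rw [hc]
      exact resa_cr (x + s * β) (q + n) (by rw [abs_lt]; constructor <;> linarith [hb.1, hb.2])
    show (if |(W e.1 - α / N) - round (W e.1 - α / N)| ≤ 2 / N then
      s * ((W e.1 - α / N) - round (W e.1 - α / N)) else 0) -
      (if |(W' e.2 - α / N) - round (W' e.2 - α / N)| ≤ 2 / N then
      s * ((W' e.2 - α / N) - round (W' e.2 - α / N)) else 0) = β
    rw [hr, hr', if_pos (by rw [abs_le]; constructor <;> linarith [hb.1, hb.2]),
      if_pos (by rw [abs_le]; constructor <;> linarith)]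
    calc s * (x + s * β) - s * x = (s * s) * β := by ring
      _ = β := by rw [hss, one_mul]

end Pool.Agent.BSR
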