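import Pool.Agent.BSR.StB

/-!
# BSR, RESC: no dense resonance (helper44)
-/

set_option autoImplicit false

namespace Pool.Agent.BSR

open Finset MeasureTheory Filter Topology Pool.Agent.BSQ
open scoped BigOperators
open Classical

/-- choice of the block and pruning. -/
private theorem resc_prune (L R : ℕ) (E : Finset (ℕ × ℕ)) (hL : 16 ≤ L) (hRL : 4 * L ^ 2 ≤ R)
    (hE1 : ∀ e ∈ E, e.1 < R ∧ e.2 < R) (hE : R ^ 2 ≤ L * E.card) :
    ∃ (w j : ℕ) (S0 : Finset ℕ), 4 * L ^ 2 * w ≤ R ∧ (∀ t ∈ S0, t < R ∧ j * w ≤ t ∧ t < j * w + w) ∧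
      (∀ t ∈ S0, R ≤ 8 * L * (E.filter (fun e => e.1 = t)).card) ∧ R ≤ L ^ 4 * S0.card := by
  have hL0 : 0 < L := by omega
  have hL2 : 0 < 4 * L ^ 2 := by positivity
  obtain ⟨w, hw⟩ : ∃ w : ℕ, w = R / (4 * L ^ 2) := ⟨_, rfl⟩
  have hw1 : 1 ≤ w := by rw [hw]; exact (Nat.one_le_div_iff hL2).2 hRL
  have hwR : 4 * L ^ 2 * w ≤ R := by rw [hw]; exact Nat.mul_div_le _ _
  have hRw : R < 8 * L ^ 2 * w := by
    have h1 : R < 4 * L ^ 2 * (w + 1) := by rw [hw]; exact Nat.lt_mul_div_succ _ hL2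
    have h2 : 4 * L ^ 2 * (w + 1) ≤ 4 * L ^ 2 * (2 * w) := Nat.mul_le_mul_left _ (by omega)
    have h3 : 4 * L ^ 2 * (2 * w) = 8 * L ^ 2 * w := by ring
    omega
  have hRpos : 1 ≤ R := by
    have := hL2
    omega
  -- pigeonhole
  have hmaps : ∀ e ∈ E, e.1 / w ∈ range (9 * L ^ 2) := by
    intro e he
    rw [mem_range, Nat.div_lt_iff_lt_mul hw1]
    have h1 := (hE1 e he).1
    have h2 : 8 * L ^ 2 * w ≤ 9 * L ^ 2 * w := Nat.mul_le_mul_right _ (by omega)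
    omega
  have hsum : E.card = ∑ j ∈ range (9 * L ^ 2), (E.filter (fun e => e.1 / w = j)).card :=
    Finset.card_eq_sum_card_fiberwise hmaps
  obtain ⟨j, hj, hjc⟩ : ∃ j ∈ range (9 * L ^ 2), E.card ≤
      9 * L ^ 2 * (E.filter (fun e => e.1 / w = j)).card := by
    by_contra hcon
    push Not at hcon
    have hne : (range (9 * L ^ 2)).Nonempty := ⟨0, by rw [mem_range]; positivity⟩
    have h1 : ∑ j ∈ range (9 * L ^ 2), 9 * L ^ 2 * (E.filter (fun e => e.1 / w = j)).card <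
        ∑ j ∈ range (9 * L ^ 2), E.card := Finset.sum_lt_sum_of_nonempty hne hcon
    rw [← Finset.mul_sum, ← hsum, Finset.sum_const, card_range, smul_eq_mul] at h1
    exact lt_irrefl _ h1
  obtain ⟨Ej, hEj⟩ : ∃ Ej : Finset (ℕ × ℕ), Ej = E.filter (fun e => e.1 / w = j) := ⟨_, rfl⟩
  rw [← hEj] at hjc
  obtain ⟨X0, hX0⟩ : ∃ X0 : Finset ℕ, X0 = (range R).filter (fun t => t / w = j) := ⟨_, rfl⟩
  have hX0m : ∀ t ∈ X0, t < R ∧ j * w ≤ t ∧ t < j * w + w := by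
    intro t ht
    rw [hX0, mem_filter, mem_range] at ht
    refine ⟨ht.1, ?_, ?_⟩
    · rw [← ht.2]; exact Nat.div_mul_le_self _ _
    · have h1 := Nat.lt_mul_div_succ t (show 0 < w by omega)
      rw [ht.2] at h1
      have h2 : w * (j + 1) = j * w + w := by ring
      omega
  have hX0c : X0.card ≤ w := by
    have h1 : X0 ⊆ Ico (j * w) (j * w + w) := by
      intro t ht
      rw [mem_Ico]
      exact (hX0m t ht).2
    have h2 := Finset.card_le_card h1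
    rw [Nat.card_Ico] at h2
    omega
  obtain ⟨deg, hdeg⟩ : ∃ deg : ℕ → ℕ, deg = fun t => (E.filter (fun e => e.1 = t)).card := ⟨_, rfl⟩
  have hdegR : ∀ t, deg t ≤ R := by
    intro t
    rw [hdeg]
    have h1 : ((E.filter (fun e => e.1 = t)).image Prod.snd) ⊆ range R := by
      intro y hy
      obtain ⟨e, he, rfl⟩ := mem_image.1 hy
      rw [mem_range]
      exact (hE1 e (mem_filter.1 he).1).2
    have h2 := Finset.card_le_card h1
    rw [card_range] at h2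
    rw [Finset.card_image_of_injOn] at h2
    · exact h2
    · intro a ha b hb hab
      have h3 := (mem_filter.1 ha).2
      have h4 := (mem_filter.1 hb).2
      exact Prod.ext (h3.trans h4.symm) hab
  have hEjs : Ej.card = ∑ t ∈ X0, deg t := by
    have h1 : ∀ e ∈ Ej, e.1 ∈ X0 := by
      intro e he
      rw [hEj, mem_filter] at he
      rw [hX0, mem_filter, mem_range]
      exact ⟨(hE1 e he.1).1, he.2⟩
    rw [Finset.card_eq_sum_card_fiberwise h1]
    refine Finset.sum_congr rfl fun t ht => ?_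
    rw [hdeg]
    dsimp only
    congr 1
    ext e
    rw [hEj, mem_filter, mem_filter, mem_filter]
    rw [hX0, mem_filter] at ht
    constructor
    · rintro ⟨⟨a, _⟩, c⟩
      exact ⟨a, c⟩
    · rintro ⟨a, c⟩
      exact ⟨⟨a, by rw [c]; exact ht.2⟩, c⟩
  obtain ⟨S0, hS0⟩ : ∃ S0 : Finset ℕ, S0 = X0.filter (fun t => R ≤ 8 * L * deg t) := ⟨_, rfl⟩
  refine ⟨w, j, S0, hwR, fun t ht => ?_, fun t ht => ?_, ?_⟩
  · rw [hS0] at ht
    exact hX0m t (mem_filter.1 ht).1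
  · rw [hS0, hdeg] at ht
    exact (mem_filter.1 ht).2
  · -- counting
    have h1 : 8 * L * Ej.card ≤ 8 * L * (S0.card * R) + w * R := by
      rw [hEjs, ← Finset.sum_filter_add_sum_filter_not X0 (fun t => R ≤ 8 * L * deg t), ← hS0,
        mul_add]
      refine Nat.add_le_add (Nat.mul_le_mul_left _ ?_) ?_
      · calc ∑ t ∈ S0, deg t ≤ ∑ _t ∈ S0, R := Finset.sum_le_sum fun t _ => hdegR t
          _ = S0.card * R := by rw [Finset.sum_const, smul_eq_mul]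
      · rw [Finset.mul_sum]
        calc ∑ t ∈ X0.filter (fun t => ¬ R ≤ 8 * L * deg t), 8 * L * deg t
            ≤ ∑ _t ∈ X0.filter (fun t => ¬ R ≤ 8 * L * deg t), R := by
              refine Finset.sum_le_sum fun t ht => ?_
              have := (mem_filter.1 ht).2
              omega
          _ = (X0.filter (fun t => ¬ R ≤ 8 * L * deg t)).card * R := by
              rw [Finset.sum_const, smul_eq_mul]
          _ ≤ w * R := Nat.mul_le_mul_right _ ((Finset.card_filter_le _ _).trans hX0c)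
    have h2 : R ^ 2 ≤ 9 * L ^ 3 * Ej.card := by
      calc R ^ 2 ≤ L * E.card := hE
        _ ≤ L * (9 * L ^ 2 * Ej.card) := Nat.mul_le_mul_left _ hjc
        _ = 9 * L ^ 3 * Ej.card := by ring
    have h3 : 8 * R * (L * R) ≤ (72 * L ^ 3 * S0.card + 9 * L ^ 2 * w) * (L * R) := by
      calc 8 * R * (L * R) = 8 * L * R ^ 2 := by ring
        _ ≤ 8 * L * (9 * L ^ 3 * Ej.card) := Nat.mul_le_mul_left _ h2
        _ = 9 * L ^ 3 * (8 * L * Ej.card) := by ring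
        _ ≤ 9 * L ^ 3 * (8 * L * (S0.card * R) + w * R) := Nat.mul_le_mul_left _ h1
        _ = (72 * L ^ 3 * S0.card + 9 * L ^ 2 * w) * (L * R) := by ring
    have h4 : 8 * R ≤ 72 * L ^ 3 * S0.card + 9 * L ^ 2 * w :=
      Nat.le_of_mul_le_mul_right h3 (by positivity)
    have h5 : 9 * L ^ 2 * w ≤ 3 * R := by
      have : 9 * L ^ 2 * w * 4 ≤ 3 * R * 4 := by
        calc 9 * L ^ 2 * w * 4 = 9 * (4 * L ^ 2 * w) := by ring
          _ ≤ 9 * R := Nat.mul_le_mul_left _ hwR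
          _ ≤ 3 * R * 4 := by omega
      omega
    have h6 : 5 * R ≤ 72 * L ^ 3 * S0.card := by omega
    have h7 : 5 * R ≤ 5 * (L ^ 4 * S0.card) := by
      calc 5 * R ≤ 72 * L ^ 3 * S0.card := h6
        _ ≤ (5 * L) * L ^ 3 * S0.card := by
            refine Nat.mul_le_mul_right _ (Nat.mul_le_mul_right _ ?_)
            omega
        _ = 5 * (L ^ 4 * S0.card) := by ring
    omega

/-- the size of `S`. -/
private theorem resc_S {R L : ℕ} {S δ : ℝ} {ω ω' : ℕ → ℝ} {E : Finset (ℕ × ℕ)}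
    (h : RS R L S δ ω ω' E) (hE : E.Nonempty) (hL : 1 ≤ L) (hδ : δ ≤ 1 / 2) : 1 / 4 ≤ S := by
  obtain ⟨e, he⟩ := hE
  obtain ⟨a1, a2, a3⟩ := h.sub e he
  obtain ⟨m, hm, hm2⟩ := h.res e he
  have h1 : (1 : ℝ) ≤ m := by exact_mod_cast hm
  have h2 := abs_le.1 hm2
  have h3 : 1 / 2 ≤ (ω e.1 - ω' e.2) * Real.sqrt ((e.1 : ℝ) - e.2) := by linarith [h2.1]
  have h4 : Real.sqrt ((e.1 : ℝ) - e.2) ≤ Real.sqrt R := by
    refine Real.sqrt_le_sqrt ?_
    have : (e.1 : ℝ) ≤ R := by exact_mod_cast a1.le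
    have : (0 : ℝ) ≤ e.2 := Nat.cast_nonneg _
    linarith
  have h5 : (ω e.1 - ω' e.2) * Real.sqrt ((e.1 : ℝ) - e.2) ≤ (|ω e.1| + |ω' e.2|) * Real.sqrt R := by
    refine mul_le_mul ?_ h4 (Real.sqrt_nonneg _) (by positivity)
    exact (le_abs_self _).trans (abs_sub _ _)
  have h6 := h.w1 e.1
  have h7 := h.w2 e.2
  nlinarith

/-- the final size of the error. -/
private theorem resc_final (k : ℕ) (L δ S : ℝ) (hL : 1 ≤ L) (hδ : 0 < δ) (hLδ : L ^ 16 ≤ 1 / δ)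
    (hS0 : 0 ≤ S) (hS : S ≤ (1 / δ) ^ k) :
    (L ^ 4 * Real.sqrt δ) ^ (4 * k + 3) * S ≤ Real.sqrt δ / L ∧ L ^ 4 * Real.sqrt δ ≤ 1 := by
  obtain ⟨r, hr⟩ : ∃ r : ℝ, r = Real.sqrt (Real.sqrt δ) := ⟨_, rfl⟩
  have hs0 : 0 < Real.sqrt δ := Real.sqrt_pos.2 hδ
  have hr0 : 0 < r := by rw [hr]; exact Real.sqrt_pos.2 hs0
  have hr2 : r ^ 2 = Real.sqrt δ := by rw [hr]; exact Real.sq_sqrt hs0.le
  have hr4 : r ^ 4 = δ := by
    have : r ^ 4 = (r ^ 2) ^ 2 := by ring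
    rw [this, hr2]
    exact Real.sq_sqrt hδ.le
  have hL0 : 0 < L := by linarith
  have h1 : (L ^ 4 * r) ^ 4 ≤ 1 := by
    rw [mul_pow, hr4, ← pow_mul]
    rw [le_div_iff₀ hδ] at hLδ
    exact hLδ
  have h2 : L ^ 4 * r ≤ 1 := by
    by_contra h
    push Not at h
    have := one_lt_pow₀ h (show (4 : ℕ) ≠ 0 by norm_num)
    linarith
  have h3 : L * r ≤ 1 := by
    have h4 : L ≤ L ^ 4 := by
      calc L = L ^ 1 := (pow_one _).symm
        _ ≤ L ^ 4 := pow_le_pow_right₀ hL (by norm_num)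
    have h5 : L * r ≤ L ^ 4 * r := mul_le_mul_of_nonneg_right h4 hr0.le
    linarith
  have h5 : L ^ 4 * Real.sqrt δ ≤ r := by
    rw [← hr2]
    calc L ^ 4 * r ^ 2 = (L ^ 4 * r) * r := by ring
      _ ≤ 1 * r := mul_le_mul_of_nonneg_right h2 hr0.le
      _ = r := one_mul _
  have h6 : r ≤ 1 := by nlinarith
  refine ⟨?_, h5.trans h6⟩
  have h7 : (L ^ 4 * Real.sqrt δ) ^ (4 * k + 3) ≤ r ^ (4 * k + 3) :=
    pow_le_pow_left₀ (by positivity) h5 _
  have h8 : r ^ (4 * k) * (1 / δ) ^ k = 1 := by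
    rw [← hr4, pow_mul, ← mul_pow, mul_one_div_cancel (by positivity), one_pow]
  calc (L ^ 4 * Real.sqrt δ) ^ (4 * k + 3) * S ≤ r ^ (4 * k + 3) * (1 / δ) ^ k :=
        mul_le_mul h7 hS hS0 (by positivity)
    _ = r ^ 3 * (r ^ (4 * k) * (1 / δ) ^ k) := by ring
    _ = r ^ 3 := by rw [h8, mul_one]
    _ ≤ Real.sqrt δ / L := by
        rw [le_div_iff₀ hL0, ← hr2]
        calc r ^ 3 * L = r ^ 2 * (L * r) := by ring
          _ ≤ r ^ 2 * 1 := mul_le_mul_of_nonneg_left h3 (by positivity)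
          _ = r ^ 2 := mul_one _

theorem thm_RESC (hSTEP : St_STEP) (hEND : St_END) : St_RESC := by
  intro k
  obtain ⟨e, he⟩ : ∃ e : ℕ, e = 3 * (4 * k + 3) + 4 := ⟨_, rfl⟩
  obtain ⟨CS, hCS⟩ := hSTEP k e
  obtain ⟨CE, hCE⟩ := hEND k e
  refine ⟨CS + CE + 16, fun B => ?_⟩
  obtain ⟨d, LS, hLS⟩ := hCS B
  obtain ⟨LE, hLE⟩ := hCE B d
  refine ⟨LS + LE + 100, fun L R S δ ω ω' E hL hRS hδ hC hB hS hSL hR hE => ?_⟩
  have hL1 : 1 ≤ L := by omega
  have hLR : (100 : ℝ) ≤ L := by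
    have : 100 ≤ L := by omega
    exact_mod_cast this
  have hL1R : (1 : ℝ) ≤ L := by linarith
  have hL0 : (0 : ℝ) < L := by linarith
  have hpow : ∀ a : ℕ, a ≤ CS + CE + 16 → (L : ℝ) ^ a ≤ 1 / δ := fun a ha =>
    (pow_le_pow_right₀ hL1R ha).trans hC
  have h16 := hpow 16 (by omega)
  have hEne : E.Nonempty := by
    rw [Finset.nonempty_iff_ne_empty]
    rintro rfl
    rw [Finset.card_empty, mul_zero] at hE
    have : 1 ≤ R ^ 2 := Nat.one_le_pow _ _ hR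
    omega
  have hδ1 : δ ≤ 1 / 100 := by
    have h1 := hpow 1 (by omega)
    rw [pow_one] at h1
    have h2 : (100 : ℝ) ≤ 1 / δ := hLR.trans h1
    rw [le_div_iff₀ hδ] at h2
    linarith
  have hSq : 1 / 4 ≤ S := resc_S hRS hEne hL1 (by linarith)
  have hRbig : 4 * L ^ 2 ≤ R := by
    have h1 : (L : ℝ) ^ 16 * δ ≤ 1 := by
      rw [le_div_iff₀ hδ] at h16
      exact h16
    have h2 : (1 / 4 : ℝ) * L ≤ δ * R := le_trans (mul_le_mul_of_nonneg_right hSq hL0.le) hSL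
    have h3 : (4 : ℝ) * (L : ℝ) ^ 2 ≤ R := by
      have h4 : (1 / 4 : ℝ) * L * (L : ℝ) ^ 16 ≤ R := by
        have h5 : (0 : ℝ) ≤ R := Nat.cast_nonneg _
        have h6 : (0 : ℝ) < (L : ℝ) ^ 16 := by positivity
        calc (1 / 4 : ℝ) * L * (L : ℝ) ^ 16 ≤ δ * R * (L : ℝ) ^ 16 :=
              mul_le_mul_of_nonneg_right h2 h6.le
          _ = (L : ℝ) ^ 16 * δ * R := by ring
          _ ≤ 1 * R := mul_le_mul_of_nonneg_right h1 h5
          _ = R := one_mul _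
      have h7 : (16 : ℝ) ≤ (L : ℝ) ^ 15 := by
        calc (16 : ℝ) ≤ L := by linarith
          _ = (L : ℝ) ^ 1 := (pow_one _).symm
          _ ≤ (L : ℝ) ^ 15 := pow_le_pow_right₀ hL1R (by norm_num)
      calc (4 : ℝ) * (L : ℝ) ^ 2 = 1 / 4 * ((L : ℝ) ^ 2 * 16) := by ring
        _ ≤ 1 / 4 * ((L : ℝ) ^ 2 * (L : ℝ) ^ 15) := by gcongr
        _ = 1 / 4 * L * (L : ℝ) ^ 16 := by ring
        _ ≤ R := h4
    exact_mod_cast h3
  obtain ⟨w, j, S0, hw, hS0, hdeg, hcard⟩ := resc_prune L R E (by omega) hRbig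
    (fun e he => ⟨(hRS.sub e he).1, (hRS.sub e he).2.1⟩) hE
  have hS0ne : S0.Nonempty := by
    rw [Finset.nonempty_iff_ne_empty]
    rintro rfl
    rw [Finset.card_empty, mul_zero] at hcard
    omega
  obtain ⟨xc, hxc⟩ : ∃ xc : ℝ, xc = ((j * w : ℕ) : ℝ) := ⟨_, rfl⟩
  have hxc0 : 0 ≤ xc := by rw [hxc]; exact Nat.cast_nonneg _
  have hxcR : xc ≤ R := by
    obtain ⟨t, ht⟩ := hS0ne
    obtain ⟨a, b, _⟩ := hS0 t ht
    rw [hxc]
    exact_mod_cast (b.trans a.le)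
  have hdist : ∀ t ∈ S0, |(t : ℝ) - xc| ≤ R / (4 * (L : ℝ) ^ 2) := by
    intro t ht
    obtain ⟨_, b, c⟩ := hS0 t ht
    have h1 : (w : ℝ) ≤ R / (4 * (L : ℝ) ^ 2) := by
      rw [le_div_iff₀ (by positivity)]
      have : (4 : ℝ) * (L : ℝ) ^ 2 * w ≤ R := by exact_mod_cast hw
      linarith
    have h2 : ((j * w : ℕ) : ℝ) ≤ t := by exact_mod_cast b
    have h3 : (t : ℝ) < ((j * w : ℕ) : ℝ) + w := by exact_mod_cast c
    rw [hxc, abs_of_nonneg (by linarith)]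
    linarith
  have hfin := resc_final k L δ S hL1R hδ h16 (by linarith) hS
  -- the iteration
  have hit : ∀ i : ℕ, i ≤ 4 * k + 3 → ∃ (S1 : Finset ℕ) (V : Polynomial ℝ) (P : ℝ), S1 ⊆ S0 ∧
      R ≤ L ^ (4 + 3 * i) * S1.card ∧ V.natDegree ≤ d ∧ P ≤ S ∧
      (P ≤ Real.sqrt δ / L ∨ P ≤ (L ^ 4 * Real.sqrt δ) ^ i * S) ∧
      ∀ t ∈ S1, ∀ x : ℝ, (t : ℝ) ≤ x → x ≤ t + 1 → |ω t - V.eval x| * Real.sqrt R ≤ P := by
    intro i
    induction i with
    | zero =>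
      intro _
      refine ⟨S0, 0, S, Finset.Subset.refl _, hcard, by simp, le_rfl, Or.inr (by simp), ?_⟩
      intro t _ x _ _
      simp only [Polynomial.eval_zero, sub_zero]
      exact hRS.w1 t
    | succ i ih =>
      intro hi
      obtain ⟨S1, V, P, h1, h2, h3, h4, h5, h6⟩ := ih (by omega)
      have hS1ne : S1.Nonempty := by
        rw [Finset.nonempty_iff_ne_empty]
        rintro rfl
        rw [Finset.card_empty, mul_zero] at h2
        omega
      by_cases hP : P ≤ Real.sqrt δ / L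
      · refine ⟨S1, V, P, h1, h2.trans (Nat.mul_le_mul_right _
          (Nat.pow_le_pow_right hL1 (by omega))), h3, h4, Or.inl hP, h6⟩
      · push Not at hP
        have h5' : P ≤ (L ^ 4 * Real.sqrt δ) ^ i * S := by
          rcases h5 with h | h
          · exact absurd h (not_le.2 hP)
          · exact h
        have hP0 : 0 < P := lt_of_le_of_lt (by positivity) hP
        obtain ⟨S2, V', g1, g2, g3, g4⟩ := hLS L R S δ P xc ω ω' E S1 V (by omega) hRS hδ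
          (hpow CS (by omega)) hB hS hSL hS1ne hxc0 hxcR (fun t ht => hdist t (h1 ht))
          (fun t ht => hdeg t (h1 ht))
          (h2.trans (Nat.mul_le_mul_right _ (Nat.pow_le_pow_right hL1 (by omega)))) hP h4 h3 h6
        have hq : 0 ≤ (L : ℝ) ^ 4 * Real.sqrt δ := by positivity
        refine ⟨S2, V', (L : ℝ) ^ 4 * Real.sqrt δ * P, g1.trans h1, ?_, g3, ?_, Or.inr ?_, g4⟩
        · calc R ≤ L ^ (4 + 3 * i) * S1.card := h2
            _ ≤ L ^ (4 + 3 * i) * (L ^ 3 * S2.card) := Nat.mul_le_mul_left _ g2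
            _ = L ^ (4 + 3 * (i + 1)) * S2.card := by ring
        · have : (L : ℝ) ^ 4 * Real.sqrt δ * P ≤ 1 * P := mul_le_mul_of_nonneg_right hfin.2 hP0.le
          linarith
        · calc (L : ℝ) ^ 4 * Real.sqrt δ * P ≤
                (L : ℝ) ^ 4 * Real.sqrt δ * ((L ^ 4 * Real.sqrt δ) ^ i * S) :=
                mul_le_mul_of_nonneg_left h5' hq
            _ = (L ^ 4 * Real.sqrt δ) ^ (i + 1) * S := by ring
  obtain ⟨S1, V, P, h1, h2, h3, _, h5, h6⟩ := hit (4 * k + 3) le_rfl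
  have hP : P ≤ Real.sqrt δ / L := by
    rcases h5 with h | h
    · exact h
    · exact h.trans hfin.1
  have hS1ne : S1.Nonempty := by
    rw [Finset.nonempty_iff_ne_empty]
    rintro rfl
    rw [Finset.card_empty, mul_zero] at h2
    omega
  exact hLE L R S δ xc ω ω' E S1 V (by omega) hR hRS hδ (hpow CE (by omega)) hB hS hSL hS1ne hxc0 hxcR
    (fun t ht => hdist t (h1 ht)) (fun t ht => hdeg t (h1 ht))
    (h2.trans (Nat.mul_le_mul_right _ (Nat.pow_le_pow_right hL1 (by omega)))) h3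
    (fun t ht x a b => (h6 t ht x a b).trans hP)

end Pool.Agent.BSR
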