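import Pool.Agent.BSR.StB

/-!
# BSR, module RESP (pigeonholes)
-/

set_option autoImplicit false

namespace Pool.Agent.BSR

open Finset MeasureTheory Filter Topology Pool.Agent.BSQ
open scoped BigOperators
open Classical

/-- dyadic scale of a number -/
private lemma resp_scale (L : ℕ) (b0 β : ℝ) (hL : 1 ≤ L) (h1 : b0 < β) (h2 : β ≤ 2 ^ L * b0) :
    ∃ i ∈ range L, 2 ^ i * b0 < β ∧ β ≤ 2 * (2 ^ i * b0) := by
  have hex : ∃ i : ℕ, β ≤ 2 * (2 ^ i * b0) := by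
    refine ⟨L - 1, ?_⟩
    have e1 : 2 * ((2 : ℝ) ^ (L - 1) * b0) = 2 ^ L * b0 := by
      rw [← mul_assoc, ← pow_succ', Nat.sub_add_cancel hL]
    rw [e1]
    exact h2
  refine ⟨Nat.find hex, ?_, ?_, Nat.find_spec hex⟩
  · rw [mem_range]
    have h3 : Nat.find hex ≤ L - 1 := by
      apply Nat.find_min'
      have e1 : 2 * ((2 : ℝ) ^ (L - 1) * b0) = 2 ^ L * b0 := by
        rw [← mul_assoc, ← pow_succ', Nat.sub_add_cancel hL]
      rw [e1]
      exact h2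
    omega
  · rcases Nat.eq_zero_or_pos (Nat.find hex) with h0 | h0
    · rw [h0, pow_zero, one_mul]
      exact h1
    · have h3 := Nat.find_min hex (m := Nat.find hex - 1) (by omega)
      rw [not_le] at h3
      have e1 : 2 * ((2 : ℝ) ^ (Nat.find hex - 1) * b0) = 2 ^ (Nat.find hex) * b0 := by
        rw [← mul_assoc, ← pow_succ', Nat.sub_add_cancel h0]
      rw [e1] at h3
      exact h3

private lemma resp_sign (x : ℝ) : ∃ c : Bool, x = (round x : ℤ) + (if c then 1 else -1) * dI x := by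
  unfold dI
  by_cases h : (0 : ℝ) ≤ x - round x
  · refine ⟨true, ?_⟩
    rw [abs_of_nonneg h, if_pos rfl]
    ring
  · rw [not_le] at h
    refine ⟨false, ?_⟩
    rw [abs_of_neg h, if_neg (by decide)]
    ring

theorem thm_RESP : St_RESP := by
  intro L R Q lam b0 b1 δ W W' hL hQL hb0 hb1 hcard
  obtain ⟨F, hF⟩ : ∃ F : Finset (ℕ × ℕ), F = (range R ×ˢ range R).filter (fun e : ℕ × ℕ =>
    R + L * e.2 ≤ L * e.1 ∧ ∃ q : ℕ, 1 ≤ q ∧ q ≤ Q ∧
    b0 < dI (q * (W e.1 - W' e.2)) ∧ dI (q * (W e.1 - W' e.2)) ≤ b1 ∧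
    dI (lam * dI (q * (W e.1 - W' e.2)) * Real.sqrt ((e.1 : ℝ) - e.2)) ≤ δ) := ⟨_, rfl⟩
  rw [← hF] at hcard
  have hLr : (1 : ℝ) ≤ L := by exact_mod_cast hL
  -- the classes
  have hch : ∀ e : ℕ × ℕ, ∃ c : ℕ × Bool × ℕ, e ∈ F →
      (c.1 ∈ Icc 1 Q ∧ c.2.2 ∈ range L) ∧ dI (c.1 * (W e.1 - W' e.2)) ≤ b1 ∧
      c.1 * (W e.1 - W' e.2) = (round (c.1 * (W e.1 - W' e.2)) : ℤ) +
        (if c.2.1 then 1 else -1) * dI (c.1 * (W e.1 - W' e.2)) ∧
      2 ^ c.2.2 * b0 < dI (c.1 * (W e.1 - W' e.2)) ∧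
      dI (c.1 * (W e.1 - W' e.2)) ≤ 2 * (2 ^ c.2.2 * b0) ∧
      dI (lam * dI (c.1 * (W e.1 - W' e.2)) * Real.sqrt ((e.1 : ℝ) - e.2)) ≤ δ := by
    intro e
    by_cases he : e ∈ F
    · have he1 := he
      rw [hF, mem_filter] at he1
      obtain ⟨_, _, q, hq1, hqQ, h1, h2, h3⟩ := he1
      obtain ⟨c, hc⟩ := resp_sign (q * (W e.1 - W' e.2))
      obtain ⟨i, hi, hi1, hi2⟩ := resp_scale L b0 _ hL h1 (h2.trans hb1)
      exact ⟨(q, c, i), fun _ => ⟨⟨mem_Icc.mpr ⟨hq1, hqQ⟩, hi⟩, h2, hc, hi1, hi2, h3⟩⟩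
    · exact ⟨(0, true, 0), fun h => absurd h he⟩
  choose c hc using hch
  have hFpos : (0 : ℝ) < F.card := lt_of_le_of_lt (by positivity) hcard
  have hFne : F.Nonempty := by
    rw [← Finset.card_pos]
    exact_mod_cast hFpos
  obtain ⟨e0, he0⟩ := hFne
  obtain ⟨T, hT⟩ : ∃ T : Finset (ℕ × Bool × ℕ), T = Icc 1 Q ×ˢ ((univ : Finset Bool) ×ˢ range L) :=
    ⟨_, rfl⟩
  have hmaps : ∀ e ∈ F, c e ∈ T := by
    intro e he
    rw [hT, mem_product, mem_product]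
    exact ⟨(hc e he).1.1, mem_univ _, (hc e he).1.2⟩
  have hTcard : T.card ≤ 2 * L ^ 2 := by
    rw [hT, card_product, card_product, Nat.card_Icc, card_range, card_univ, Fintype.card_bool,
      Nat.add_sub_cancel]
    calc Q * (2 * L) ≤ L * (2 * L) := Nat.mul_le_mul_right _ hQL
      _ = 2 * L ^ 2 := by ring
  have hTpos : (0 : ℝ) < T.card := by
    have : 0 < T.card := Finset.card_pos.mpr ⟨c e0, hmaps e0 he0⟩
    exact_mod_cast this
  obtain ⟨y, hy, hyc⟩ := exists_le_card_fiber_of_nsmul_le_card_of_maps_to (s := F) (t := T)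
    (f := c) (b := (F.card : ℝ) / T.card) hmaps ⟨c e0, hmaps e0 he0⟩ (by
      rw [nsmul_eq_mul, mul_div_cancel₀ _ hTpos.ne'])
  have hfib : (0 : ℝ) < (F.filter (fun e => c e = y)).card :=
    lt_of_lt_of_le (div_pos hFpos hTpos) hyc
  have hfne : (F.filter (fun e => c e = y)).Nonempty := by
    rw [← Finset.card_pos]
    exact_mod_cast hfib
  obtain ⟨e1, he1⟩ := hfne
  rw [mem_filter] at he1
  obtain ⟨hg1, hg2, hg3, hg4, hg5, hg6⟩ := hc e1 he1.1
  rw [he1.2] at hg1 hg2 hg3 hg4 hg5 hg6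
  refine ⟨y.1, if y.2.1 then 1 else -1, 2 ^ y.2.2 * b0, F.filter (fun e => c e = y),
    (mem_Icc.mp hg1.1).1, (mem_Icc.mp hg1.1).2, ?_, ?_, ?_, ?_, ?_⟩
  · cases y.2.1
    · right
      rfl
    · left
      rfl
  · have : (1 : ℝ) ≤ 2 ^ y.2.2 := one_le_pow₀ (by norm_num)
    have h2 := mul_le_mul_of_nonneg_right this hb0.le
    linarith
  · exact hg4.le.trans hg2
  · have h1 : (F.card : ℝ) ≤ (F.filter (fun e => c e = y)).card * T.card := by
      rw [div_le_iff₀ hTpos] at hyc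
      exact hyc
    have h2 : (R : ℝ) ^ 2 < F.card * L := by
      rw [div_lt_iff₀ (by linarith)] at hcard
      exact hcard
    have h3 : (T.card : ℝ) ≤ 2 * (L : ℝ) ^ 2 := by exact_mod_cast hTcard
    have h4 : (F.card : ℝ) * L ≤ ((F.filter (fun e => c e = y)).card * T.card) * L :=
      mul_le_mul_of_nonneg_right h1 (by linarith)
    have h5 : (((F.filter (fun e => c e = y)).card : ℝ) * T.card) * L ≤
        (((F.filter (fun e => c e = y)).card : ℝ) * (2 * (L : ℝ) ^ 2)) * L :=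
      mul_le_mul_of_nonneg_right (mul_le_mul_of_nonneg_left h3 hfib.le) (by linarith)
    have h6 : (((F.filter (fun e => c e = y)).card : ℝ) * (2 * (L : ℝ) ^ 2)) * L =
      2 * (L : ℝ) ^ 3 * ((F.filter (fun e => c e = y)).card : ℝ) := by ring
    linarith
  · intro e he
    rw [mem_filter] at he
    obtain ⟨hf1, hf2, hf3, hf4, hf5, hf6⟩ := hc e he.1
    rw [he.2] at hf1 hf2 hf3 hf4 hf5 hf6
    have hm := he.1
    rw [hF, mem_filter, mem_product, mem_range, mem_range] at hm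
    exact ⟨hm.1.1, hm.1.2, hm.2.1, _, _, hf3, hf4, hf5, hf6⟩

end Pool.Agent.BSR
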