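import Pool.Agent.BSR.StA

/-!
# BSR, module SML: few pairs with a small difference (helper68 for helper44)
-/

set_option autoImplicit false

namespace Pool.Agent.BSR

open Finset MeasureTheory Filter Topology Pool.Agent.BSQ
open scoped BigOperators
open Classical

private theorem sml_row (n0 l0 : ℕ) (hn : 1 ≤ n0) (n c : ℤ) (S : Finset ℤ)
    (hS : ∀ a ∈ S, (n0 : ℤ) ≤ n + a ∧ |a * (2 * n + a) + c| ≤ (l0 : ℤ)) :
    (S.card : ℝ) ≤ (l0 : ℝ) / n0 + 1 := by
  have hn0r : (0 : ℝ) < n0 := by exact_mod_cast hn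
  by_cases hne : S.Nonempty
  · have hmin := S.min'_mem hne
    have hmax := S.max'_mem hne
    have hle : S.min' hne ≤ S.max' hne := S.min'_le _ hmax
    have h1 := hS _ hmin
    have h2 := hS _ hmax
    generalize hx : S.min' hne = x at *
    generalize hy : S.max' hne = y at *
    have h3 : (y - x) * n0 ≤ l0 := by
      have e : (y - x) * ((n + x) + (n + y)) = (y * (2 * n + y) + c) - (x * (2 * n + x) + c) := by
        ring
      have h4 : (y - x) * (2 * n0) ≤ (y - x) * ((n + x) + (n + y)) :=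
        mul_le_mul_of_nonneg_left (by linarith [h1.1, h2.1]) (by linarith)
      have h5 := (abs_le.1 h1.2).1
      have h6 := (abs_le.1 h2.2).2
      linarith
    have h4 : S.card ≤ (y + 1 - x).toNat := by
      rw [← Int.card_Icc]
      refine Finset.card_le_card fun a ha => ?_
      rw [Finset.mem_Icc, ← hx, ← hy]
      exact ⟨S.min'_le a ha, S.le_max' a ha⟩
    have h5 : (S.card : ℤ) ≤ y - x + 1 := by omega
    have h6 : (S.card : ℝ) ≤ (y : ℝ) - x + 1 := by exact_mod_cast h5
    have h7 : ((y : ℝ) - x) * n0 ≤ l0 := by exact_mod_cast h3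
    have h8 : (y : ℝ) - x ≤ (l0 : ℝ) / n0 := by
      rw [le_div_iff₀ hn0r]
      exact h7
    linarith
  · rw [Finset.not_nonempty_iff_eq_empty] at hne
    rw [hne, Finset.card_empty, Nat.cast_zero]
    positivity

theorem thm_SML : St_SML := by
  intro n0 N1 M A l0 hn hA
  have h1 : ∑ d ∈ Dif A, (((Bx n0 N1 M).filter (fun p => p + d ∈ Bx n0 N1 M ∧
      |sqz (p + d) - sqz p| ≤ (l0 : ℤ))).card : ℝ) =
      ∑ p ∈ Bx n0 N1 M, ∑ b ∈ Ioo (-(A : ℤ)) A, (((Ioo (-(A : ℤ)) A).filter
        (fun a => p + (a, b) ∈ Bx n0 N1 M ∧ |sqz (p + (a, b)) - sqz p| ≤ (l0 : ℤ))).card : ℝ) := by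
    simp only [Finset.card_filter, Nat.cast_sum]
    rw [Finset.sum_comm]
    refine Finset.sum_congr rfl fun p _ => ?_
    unfold Dif
    rw [Finset.sum_product_right]
  rw [h1]
  have h2 : ∀ p ∈ Bx n0 N1 M, ∑ b ∈ Ioo (-(A : ℤ)) A, (((Ioo (-(A : ℤ)) A).filter
        (fun a => p + (a, b) ∈ Bx n0 N1 M ∧ |sqz (p + (a, b)) - sqz p| ≤ (l0 : ℤ))).card : ℝ) ≤
        2 * A * ((l0 : ℝ) / n0 + 1) := by
    intro p hp
    calc ∑ b ∈ Ioo (-(A : ℤ)) A, (((Ioo (-(A : ℤ)) A).filter
        (fun a => p + (a, b) ∈ Bx n0 N1 M ∧ |sqz (p + (a, b)) - sqz p| ≤ (l0 : ℤ))).card : ℝ)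
        ≤ (Ioo (-(A : ℤ)) A).card • ((l0 : ℝ) / n0 + 1) := by
          refine Finset.sum_le_card_nsmul _ _ _ fun b _ => ?_
          refine sml_row n0 l0 hn p.1 (b * (2 * p.2 + b)) _ fun a ha => ?_
          obtain ⟨h3, h4, h5⟩ := Finset.mem_filter.1 ha
          have h6 := (Finset.mem_Ioc.1 (Finset.mem_product.1 h4).1).1
          simp only [Prod.fst_add] at h6
          refine ⟨h6.le, ?_⟩
          have e : sqz (p + (a, b)) - sqz p = a * (2 * p.1 + a) + b * (2 * p.2 + b) := by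
            unfold sqz
            simp only [Prod.fst_add, Prod.snd_add]
            ring
          rw [← e]
          exact h5
      _ ≤ 2 * A * ((l0 : ℝ) / n0 + 1) := by
          rw [nsmul_eq_mul]
          refine mul_le_mul_of_nonneg_right ?_ (by positivity)
          have : (Ioo (-(A : ℤ)) A).card ≤ 2 * A := by
            rw [Int.card_Ioo]
            omega
          exact_mod_cast this
  refine (Finset.sum_le_card_nsmul _ _ _ h2).trans (le_of_eq ?_)
  have h3 : (Bx n0 N1 M).card = N1 * M := by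
    unfold Bx
    rw [Finset.card_product, Int.card_Ioc, Int.card_Icc]
    congr 1 <;> omega
  rw [h3, nsmul_eq_mul]
  push_cast
  ring

end Pool.Agent.BSR
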