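import Pool.Agent.BSR.StB

/-!
# BSR, module SPAR: existence of the parameters (MP_70d78b_an)
-/

set_option autoImplicit false

namespace Pool.Agent.BSR

open Finset MeasureTheory Filter Topology Pool.Agent.BSQ
open scoped BigOperators
open Classical

private theorem spar_pow {l : ℝ} (hl : 1024 ≤ l) {c : ℝ} (hc : c ≤ 1024) {x y : ℕ}
    (hxy : x + 1 ≤ y) : c * l ^ x ≤ l ^ y := by
  have hl0 : 0 ≤ l := by linarith
  calc c * l ^ x ≤ l * l ^ x := mul_le_mul_of_nonneg_right (hc.trans hl) (pow_nonneg hl0 x)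
    _ = l ^ (x + 1) := by rw [pow_succ]; ring
    _ ≤ l ^ y := pow_le_pow_right₀ (by linarith) hxy

private theorem spar_exp (K : ℕ) : ∃ L1 : ℕ, ∀ L : ℕ, L1 ≤ L → (L : ℝ) ^ K ≤ 2 ^ L := by
  have h := tendsto_pow_const_div_const_pow_of_one_lt K (show (1 : ℝ) < 2 by norm_num)
  have h1 := h.eventually (ge_mem_nhds (show (0 : ℝ) < 1 by norm_num))
  obtain ⟨L1, hL1⟩ := eventually_atTop.1 h1
  refine ⟨L1, fun L hL => ?_⟩
  have h2 := hL1 L hL
  rwa [div_le_one (by positivity)] at h2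

/-- the real inequalities between the basic quantities -/
private structure spar_R (e C CR : ℕ) (l n m1 m2 h h2 hp : ℝ) : Prop where
  hl : 1024 ≤ l
  hC : C = (2 * e + 5) * CR + 60 * e + 150
  n0 : 0 < n
  m0 : 0 < m1
  h0 : 0 < h
  h20 : 0 < h2
  hp0 : 0 < hp
  D1 : l ^ C ≤ m1
  D2 : m1 ≤ m2
  D3 : m2 ≤ l * m1
  D4 : l ^ C * m2 ≤ n
  A1 : h * l ^ (12 * e + 30) ≤ n * m1
  A2 : n * m1 ≤ 2 * h * l ^ (12 * e + 30)
  B1 : h2 * l ^ (19 * e + 47) ≤ n * m1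
  B2 : n * m1 ≤ 2 * h2 * l ^ (19 * e + 47)
  C1 : l ^ (e + 2) * hp ≤ h
  C2 : h ≤ 2 * l ^ (e + 2) * hp

variable {e C CR : ℕ} {l n m1 m2 h h2 hp : ℝ}

private theorem spar_l0 (R : spar_R e C CR l n m1 m2 h h2 hp) : 0 < l := by
  have := R.hl
  linarith

private theorem spar_D5 (R : spar_R e C CR l n m1 m2 h h2 hp) : l ^ C * m1 ≤ n :=
  le_trans (mul_le_mul_of_nonneg_left R.D2 (pow_nonneg (spar_l0 R).le _)) R.D4

private theorem spar_E (R : spar_R e C CR l n m1 m2 h h2 hp) :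
    n * m1 ≤ 4 * l ^ (13 * e + 32) * hp := by
  have hl0 := spar_l0 R
  calc n * m1 ≤ 2 * h * l ^ (12 * e + 30) := R.A2
    _ ≤ 2 * (2 * l ^ (e + 2) * hp) * l ^ (12 * e + 30) := by
        apply mul_le_mul_of_nonneg_right _ (pow_nonneg hl0.le _)
        linarith [R.C2]
    _ = 4 * (l ^ (e + 2) * l ^ (12 * e + 30)) * hp := by ring
    _ = 4 * l ^ (13 * e + 32) * hp := by
        rw [← pow_add]
        congr 3
        omega

private theorem spar_F (R : spar_R e C CR l n m1 m2 h h2 hp) :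
    hp * l ^ (13 * e + 32) ≤ n * m1 := by
  have hl0 := spar_l0 R
  calc hp * l ^ (13 * e + 32) = (l ^ (e + 2) * hp) * l ^ (12 * e + 30) := by
        rw [show 13 * e + 32 = (e + 2) + (12 * e + 30) by omega, pow_add]
        ring
    _ ≤ h * l ^ (12 * e + 30) := mul_le_mul_of_nonneg_right R.C1 (pow_nonneg hl0.le _)
    _ ≤ n * m1 := R.A1

private theorem spar_hM1 (R : spar_R e C CR l n m1 m2 h h2 hp) :
    512 * (l ^ (e + 2)) ^ 4 ≤ m1 := by
  rw [← pow_mul]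
  refine le_trans (spar_pow R.hl (by norm_num) ?_) R.D1
  rw [R.hC]
  nlinarith [Nat.zero_le ((2 * e + 5) * CR)]

private theorem spar_hH2 (R : spar_R e C CR l n m1 m2 h h2 hp) :
    64 * n * (l ^ (e + 2)) ^ 3 ≤ h2 := by
  have hl0 := spar_l0 R
  have hp1 : 0 < 2 * l ^ (19 * e + 47) := by positivity
  have h1 : 128 * l ^ (22 * e + 53) ≤ m1 := by
    refine le_trans (spar_pow R.hl (by norm_num) ?_) R.D1
    rw [R.hC]
    omega
  apply le_of_mul_le_mul_right _ hp1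
  calc 64 * n * (l ^ (e + 2)) ^ 3 * (2 * l ^ (19 * e + 47))
      = n * (128 * (l ^ ((e + 2) * 3) * l ^ (19 * e + 47))) := by
        rw [← pow_mul]
        ring
    _ = n * (128 * l ^ (22 * e + 53)) := by
        rw [← pow_add]
        congr 3
        omega
    _ ≤ n * m1 := mul_le_mul_of_nonneg_left h1 R.n0.le
    _ ≤ 2 * h2 * l ^ (19 * e + 47) := R.B2
    _ = h2 * (2 * l ^ (19 * e + 47)) := by ring

private theorem spar_hX (R : spar_R e C CR l n m1 m2 h h2 hp) :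
    16 * l ^ (e + 2) * (m2 ^ 2 + n) ≤ hp := by
  have hl0 := spar_l0 R
  have hm2 : 0 < m2 := lt_of_lt_of_le R.m0 R.D2
  have hp1 : 0 < 4 * l ^ (13 * e + 32) := by positivity
  apply le_of_mul_le_mul_right _ hp1
  have h1 : 128 * l ^ (14 * e + 34) ≤ m1 := by
    refine le_trans (spar_pow R.hl (by norm_num) ?_) R.D1
    rw [R.hC]
    omega
  have h2' : 128 * l ^ (14 * e + 35) ≤ l ^ C := by
    refine spar_pow R.hl (by norm_num) ?_
    rw [R.hC]
    omega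
  have h3 : m2 ^ 2 * (128 * l ^ (14 * e + 34)) ≤ n * m1 := by
    calc m2 ^ 2 * (128 * l ^ (14 * e + 34)) = m2 * m2 * (128 * l ^ (14 * e + 34)) := by ring
      _ ≤ (l * m1) * m2 * (128 * l ^ (14 * e + 34)) := by
          apply mul_le_mul_of_nonneg_right _ (by positivity)
          exact mul_le_mul_of_nonneg_right R.D3 hm2.le
      _ = (128 * l ^ (14 * e + 35)) * (m1 * m2) := by
          rw [show 14 * e + 35 = (14 * e + 34) + 1 by omega, pow_succ]
          ring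
      _ ≤ l ^ C * (m1 * m2) :=
          mul_le_mul_of_nonneg_right h2' (mul_pos R.m0 hm2).le
      _ = (l ^ C * m2) * m1 := by ring
      _ ≤ n * m1 := mul_le_mul_of_nonneg_right R.D4 R.m0.le
  have h4 : n * (128 * l ^ (14 * e + 34)) ≤ n * m1 := mul_le_mul_of_nonneg_left h1 R.n0.le
  have h5 := spar_E R
  calc 16 * l ^ (e + 2) * (m2 ^ 2 + n) * (4 * l ^ (13 * e + 32))
      = (m2 ^ 2 + n) * (64 * (l ^ (e + 2) * l ^ (13 * e + 32))) := by ring
    _ = (m2 ^ 2 + n) * (64 * l ^ (14 * e + 34)) := by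
        rw [← pow_add]
        congr 3
        omega
    _ ≤ n * m1 := by
        have : (m2 ^ 2 + n) * (64 * l ^ (14 * e + 34)) =
          (m2 ^ 2 * (128 * l ^ (14 * e + 34)) + n * (128 * l ^ (14 * e + 34))) / 2 := by ring
        rw [this]
        linarith
    _ ≤ 4 * l ^ (13 * e + 32) * hp := h5
    _ = hp * (4 * l ^ (13 * e + 32)) := by ring

private theorem spar_m1n (R : spar_R e C CR l n m1 m2 h h2 hp) : m1 ≤ n := by
  have hl0 := spar_l0 R
  have h1 : (1 : ℝ) ≤ l ^ C := one_le_pow₀ (by linarith [R.hl])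
  have := spar_D5 R
  nlinarith [R.m0]

private theorem spar_hsq (R : spar_R e C CR l n m1 m2 h h2 hp) :
    l ^ (12 * e + 30) * h ≤ n ^ 2 := by
  have h1 := R.A1
  have h2' := spar_m1n R
  have := R.n0
  nlinarith

private theorem spar_hphalf (R : spar_R e C CR l n m1 m2 h h2 hp) :
    4 * (l ^ (2 * e + 5) * hp) ≤ l ^ (2 * e + 5) * n ^ 2 := by
  have hl0 := spar_l0 R
  have h1 : 4 * hp ≤ n ^ 2 := by
    have h2' := spar_hsq R
    have h3 : 4 * l ^ 0 ≤ l ^ (12 * e + 30) := spar_pow R.hl (by norm_num) (by omega)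
    have h4 : hp ≤ h := by
      have h5 : (1 : ℝ) ≤ l ^ (e + 2) := one_le_pow₀ (by linarith [R.hl])
      have := R.C1
      nlinarith [R.hp0]
    rw [pow_zero, mul_one] at h3
    have h6 : 4 * h ≤ l ^ (12 * e + 30) * h := mul_le_mul_of_nonneg_right h3 R.h0.le
    linarith
  have : 4 * (l ^ (2 * e + 5) * hp) = l ^ (2 * e + 5) * (4 * hp) := by ring
  rw [this]
  exact mul_le_mul_of_nonneg_left h1 (pow_nonneg hl0.le _)

private theorem spar_48 (hl : 1024 ≤ l) : 192 * n ^ 2 ≤ l ^ (2 * e + 5) * n ^ 2 := by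
  have h3 : 192 * l ^ 0 ≤ l ^ (2 * e + 5) := spar_pow hl (by norm_num) (by omega)
  rw [pow_zero, mul_one] at h3
  exact mul_le_mul_of_nonneg_right h3 (sq_nonneg n)

private theorem spar_hHi (R : spar_R e C CR l n m1 m2 h h2 hp) :
    l ^ (2 * e + 5) * h ≤ 48 * n ^ 2 := by
  have hl1 : 1 ≤ l := by linarith [R.hl]
  have h1 := spar_hsq R
  have h2' : l ^ (2 * e + 5) ≤ l ^ (12 * e + 30) := pow_le_pow_right₀ hl1 (by omega)
  have h3 : l ^ (2 * e + 5) * h ≤ l ^ (12 * e + 30) * h := mul_le_mul_of_nonneg_right h2' R.h0.le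
  nlinarith [sq_nonneg n]

private theorem spar_hMi (R : spar_R e C CR l n m1 m2 h h2 hp) :
    l ^ (2 * e + 5) * m2 ^ 2 ≤ 48 * n ^ 2 := by
  have hl0 := spar_l0 R
  have hl1 : 1 ≤ l := by linarith [R.hl]
  have hm2 : 0 < m2 := lt_of_lt_of_le R.m0 R.D2
  have h1 : l ^ (2 * e + 5) ≤ l ^ C := by
    refine pow_le_pow_right₀ hl1 ?_
    rw [R.hC]
    omega
  have h2' : (1 : ℝ) ≤ l ^ C := one_le_pow₀ hl1
  have h3 : m2 ≤ n := by
    have := R.D4
    nlinarith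
  have h4 : l ^ (2 * e + 5) * m2 ≤ n :=
    le_trans (mul_le_mul_of_nonneg_right h1 hm2.le) R.D4
  calc l ^ (2 * e + 5) * m2 ^ 2 = (l ^ (2 * e + 5) * m2) * m2 := by ring
    _ ≤ n * n := mul_le_mul h4 h3 hm2.le R.n0.le
    _ ≤ 48 * n ^ 2 := by nlinarith [sq_nonneg n]

/-- lower bound for the root -/
private theorem spar_sqrt (R : spar_R e C CR l n m1 m2 h h2 hp) {w : ℝ}
    (hw : 48 * n ^ 2 ≤ l ^ (2 * e + 5) * w) : n ≤ l ^ (e + 3) * √w := by
  have hl0 := spar_l0 R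
  have hw0 : 0 ≤ w := by
    by_contra hc
    push Not at hc
    have h1 : l ^ (2 * e + 5) * w < 0 := mul_neg_of_pos_of_neg (by positivity) hc
    nlinarith [sq_nonneg n]
  apply le_of_sq_le_sq _ (by positivity)
  rw [mul_pow, Real.sq_sqrt hw0, ← pow_mul]
  have h2' : l ^ (2 * e + 5) * w ≤ l ^ ((e + 3) * 2) * w :=
    mul_le_mul_of_nonneg_right (pow_le_pow_right₀ (by linarith [R.hl]) (by omega)) hw0
  nlinarith [sq_nonneg n]

private theorem spar_w1 (R : spar_R e C CR l n m1 m2 h h2 hp) {w : ℝ}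
    (hw : 48 * n ^ 2 ≤ l ^ (2 * e + 5) * w) : 30 * (l ^ (e + 2)) ^ 3 * hp ≤ m1 * √w := by
  have hl0 := spar_l0 R
  have hs := spar_sqrt R hw
  have hp1 : 0 < l ^ (13 * e + 32) := by positivity
  apply le_of_mul_le_mul_right _ hp1
  have h1 : 30 * l ^ (4 * e + 9) ≤ l ^ (13 * e + 32) := spar_pow R.hl (by norm_num) (by omega)
  calc 30 * (l ^ (e + 2)) ^ 3 * hp * l ^ (13 * e + 32)
      = 30 * l ^ ((e + 2) * 3) * (hp * l ^ (13 * e + 32)) := by rw [← pow_mul]; ring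
    _ ≤ 30 * l ^ ((e + 2) * 3) * (n * m1) :=
        mul_le_mul_of_nonneg_left (spar_F R) (by positivity)
    _ ≤ 30 * l ^ ((e + 2) * 3) * ((l ^ (e + 3) * √w) * m1) := by
        apply mul_le_mul_of_nonneg_left _ (by positivity)
        exact mul_le_mul_of_nonneg_right hs R.m0.le
    _ = (30 * (l ^ ((e + 2) * 3) * l ^ (e + 3))) * (m1 * √w) := by ring
    _ = (30 * l ^ (4 * e + 9)) * (m1 * √w) := by
        rw [← pow_add]
        congr 3
        omega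
    _ ≤ l ^ (13 * e + 32) * (m1 * √w) :=
        mul_le_mul_of_nonneg_right h1 (mul_nonneg R.m0.le (Real.sqrt_nonneg _))
    _ = m1 * √w * l ^ (13 * e + 32) := by ring

private theorem spar_w2 (R : spar_R e C CR l n m1 m2 h h2 hp) :
    32 * n * (l ^ (e + 2)) ^ 3 ≤ l ^ (16 * e + 39) / m1 * hp := by
  have hl0 := spar_l0 R
  rw [div_mul_eq_mul_div, le_div_iff₀ R.m0]
  have h1 : 128 * l ^ (16 * e + 38) ≤ l ^ (16 * e + 39) := spar_pow R.hl (by norm_num) (by omega)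
  calc 32 * n * (l ^ (e + 2)) ^ 3 * m1 = 32 * l ^ ((e + 2) * 3) * (n * m1) := by
        rw [← pow_mul]; ring
    _ ≤ 32 * l ^ ((e + 2) * 3) * (4 * l ^ (13 * e + 32) * hp) :=
        mul_le_mul_of_nonneg_left (spar_E R) (by positivity)
    _ = 128 * (l ^ ((e + 2) * 3) * l ^ (13 * e + 32)) * hp := by ring
    _ = 128 * l ^ (16 * e + 38) * hp := by
        rw [← pow_add]
        congr 3
        omega
    _ ≤ l ^ (16 * e + 39) * hp := mul_le_mul_of_nonneg_right h1 R.hp0.le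

private theorem spar_c1 (R : spar_R e C CR l n m1 m2 h h2 hp) {w : ℝ}
    (hw : 48 * n ^ 2 ≤ l ^ (2 * e + 5) * w) :
    32 * (l ^ (e + 2)) ^ 4 / m1 ^ 2 * h ≤ l ^ (16 * e + 39) / m1 * √w := by
  have hl0 := spar_l0 R
  have hs := spar_sqrt R hw
  have hm := R.m0
  rw [div_mul_eq_mul_div, div_mul_eq_mul_div, div_le_div_iff₀ (by positivity) hm]
  have hp1 : 0 < l ^ (12 * e + 30) := by positivity
  apply le_of_mul_le_mul_right _ hp1
  have h1 : 32 * l ^ (5 * e + 11) ≤ l ^ (28 * e + 69) := spar_pow R.hl (by norm_num) (by omega)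
  calc 32 * (l ^ (e + 2)) ^ 4 * h * m1 * l ^ (12 * e + 30)
      = 32 * l ^ ((e + 2) * 4) * m1 * (h * l ^ (12 * e + 30)) := by rw [← pow_mul]; ring
    _ ≤ 32 * l ^ ((e + 2) * 4) * m1 * (n * m1) :=
        mul_le_mul_of_nonneg_left R.A1 (by positivity)
    _ ≤ 32 * l ^ ((e + 2) * 4) * m1 * ((l ^ (e + 3) * √w) * m1) := by
        apply mul_le_mul_of_nonneg_left _ (by positivity)
        exact mul_le_mul_of_nonneg_right hs hm.le
    _ = (32 * (l ^ ((e + 2) * 4) * l ^ (e + 3))) * (√w * m1 ^ 2) := by ring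
    _ = (32 * l ^ (5 * e + 11)) * (√w * m1 ^ 2) := by
        rw [← pow_add]
        congr 3
        omega
    _ ≤ l ^ (28 * e + 69) * (√w * m1 ^ 2) :=
        mul_le_mul_of_nonneg_right h1 (by positivity)
    _ = (l ^ (16 * e + 39) * l ^ (12 * e + 30)) * (√w * m1 ^ 2) := by
        rw [← pow_add]
        congr 2
        omega
    _ = l ^ (16 * e + 39) * √w * m1 ^ 2 * l ^ (12 * e + 30) := by ring

private theorem spar_r1 (R : spar_R e C CR l n m1 m2 h h2 hp) :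
    1 / (7 * l ^ (e + 2) * h2) ≤ 32 * (l ^ (e + 2)) ^ 4 / m1 ^ 2 := by
  have hl0 := spar_l0 R
  have hm := R.m0
  have hh2 := R.h20
  rw [div_le_div_iff₀ (by positivity) (by positivity), one_mul]
  have hlC : (0 : ℝ) < l ^ C := by positivity
  apply le_of_mul_le_mul_right _ hlC
  have h1 : (2 : ℝ) * l ^ (19 * e + 47) ≤ l ^ C := by
    refine spar_pow R.hl (by norm_num) ?_
    rw [R.hC]
    omega
  have h2' : (1 : ℝ) ≤ 224 * (l ^ (e + 2)) ^ 5 := by
    have : (1 : ℝ) ≤ (l ^ (e + 2)) ^ 5 := one_le_pow₀ (one_le_pow₀ (by linarith [R.hl]))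
    linarith
  calc m1 ^ 2 * l ^ C = (l ^ C * m1) * m1 := by ring
    _ ≤ n * m1 := mul_le_mul_of_nonneg_right (spar_D5 R) hm.le
    _ ≤ 2 * h2 * l ^ (19 * e + 47) := R.B2
    _ = h2 * (2 * l ^ (19 * e + 47)) := by ring
    _ ≤ h2 * l ^ C := mul_le_mul_of_nonneg_left h1 hh2.le
    _ = 1 * (h2 * l ^ C) := by ring
    _ ≤ 224 * (l ^ (e + 2)) ^ 5 * (h2 * l ^ C) :=
        mul_le_mul_of_nonneg_right h2' (by positivity)
    _ = 32 * (l ^ (e + 2)) ^ 4 * (7 * l ^ (e + 2) * h2) * l ^ C := by ring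

private theorem spar_msq (R : spar_R e C CR l n m1 m2 h h2 hp) :
    1024 * (l ^ (e + 2)) ^ 4 ≤ m1 ^ 2 := by
  have hl0 := spar_l0 R
  have h1 : 1024 * (l ^ (e + 2)) ^ 4 ≤ m1 := by
    rw [← pow_mul]
    refine le_trans (spar_pow R.hl (by norm_num) ?_) R.D1
    rw [R.hC]
    omega
  have h2' : (1 : ℝ) ≤ m1 := le_trans (one_le_pow₀ (by linarith [R.hl])) R.D1
  nlinarith

private theorem spar_r2 (R : spar_R e C CR l n m1 m2 h h2 hp) :
    32 * (l ^ (e + 2)) ^ 4 / m1 ^ 2 ≤ 1 / 32 := by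
  have hm := R.m0
  rw [div_le_div_iff₀ (by positivity) (by norm_num)]
  have := spar_msq R
  linarith

private theorem spar_inv (R : spar_R e C CR l n m1 m2 h h2 hp) :
    1 / (2 * (l ^ (16 * e + 39) / m1)) = m1 / (2 * l ^ (16 * e + 39)) := by
  have hl0 := spar_l0 R
  have hm := R.m0
  field_simp

private theorem spar_r3 (R : spar_R e C CR l n m1 m2 h h2 hp) {k0 : ℕ} (hk : n ≤ m1 ^ k0)
    {S : ℝ} (hS : S ≤ 10 * n) (hS0 : 0 ≤ S) :
    S * (32 * (l ^ (e + 2)) ^ 4 / m1 ^ 2) ≤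
      (1 / (2 * (l ^ (16 * e + 39) / m1))) ^ (2 * k0) := by
  have hl0 := spar_l0 R
  have hm := R.m0
  rw [spar_inv R]
  have h1 : 32 * (l ^ (e + 2)) ^ 4 / m1 ^ 2 ≤ 1 / 32 := spar_r2 R
  have h2' : S * (32 * (l ^ (e + 2)) ^ 4 / m1 ^ 2) ≤ n := by
    have : S * (32 * (l ^ (e + 2)) ^ 4 / m1 ^ 2) ≤ 10 * n * (1 / 32) :=
      mul_le_mul hS h1 (by positivity) (by linarith [R.n0])
    linarith [R.n0]
  refine h2'.trans (hk.trans ?_)
  rw [pow_mul]
  apply pow_le_pow_left₀ hm.le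
  rw [div_pow, le_div_iff₀ (by positivity)]
  have h3 : 4 * l ^ (32 * e + 78) ≤ m1 := by
    refine le_trans (spar_pow R.hl (by norm_num) ?_) R.D1
    rw [R.hC]
    omega
  have h4 : (2 * l ^ (16 * e + 39)) ^ 2 = 4 * l ^ (32 * e + 78) := by
    rw [mul_pow, ← pow_mul]
    norm_num
    congr 1
    omega
  rw [h4]
  nlinarith

private theorem spar_r4 (R : spar_R e C CR l n m1 m2 h h2 hp) {t : ℝ} (ht : 0 < t)
    (hT : 5 * n ^ 2 ≤ h * t) (hT2 : h * t ≤ 16 * n ^ 2) :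
    √(2 * h) * (32 * (l ^ (e + 2)) ^ 4 / m1 ^ 2) * (l ^ (2 * e + 5)) ^ 10 ≤
      2 * (l ^ (16 * e + 39) / m1) * √(3 * t) := by
  have hl0 := spar_l0 R
  have hm := R.m0
  have hh := R.h0
  have hn := R.n0
  have hst : 0 < √(3 * t) := Real.sqrt_pos.2 (by linarith)
  apply le_of_mul_le_mul_right _ hst
  have hS : √(2 * h) * √(3 * t) ≤ 10 * n := by
    rw [← Real.sqrt_mul (by positivity)]
    apply Real.sqrt_le_iff.2
    constructor
    · positivity
    · nlinarith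
  have h3t : √(3 * t) * √(3 * t) = 3 * t := Real.mul_self_sqrt (by positivity)
  have h1 : 320 * l ^ (24 * e + 58) ≤ l ^ (28 * e + 69) := spar_pow R.hl (by norm_num) (by omega)
  -- lower bound for `t`
  have h2' : 5 * n * l ^ (12 * e + 30) ≤ t * m1 := by
    have h3 : h * (5 * n * l ^ (12 * e + 30)) ≤ h * (t * m1) := by
      calc h * (5 * n * l ^ (12 * e + 30)) = 5 * n * (h * l ^ (12 * e + 30)) := by ring
        _ ≤ 5 * n * (n * m1) := mul_le_mul_of_nonneg_left R.A1 (by positivity)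
        _ = (5 * n ^ 2) * m1 := by ring
        _ ≤ (h * t) * m1 := mul_le_mul_of_nonneg_right hT hm.le
        _ = h * (t * m1) := by ring
    exact le_of_mul_le_mul_left h3 hh
  have hp1 : (0 : ℝ) < m1 ^ 2 := by positivity
  calc √(2 * h) * (32 * (l ^ (e + 2)) ^ 4 / m1 ^ 2) * (l ^ (2 * e + 5)) ^ 10 * √(3 * t)
      = (√(2 * h) * √(3 * t)) * ((32 * (l ^ ((e + 2) * 4) * l ^ ((2 * e + 5) * 10))) / m1 ^ 2) := by
        rw [← pow_mul, ← pow_mul]
        ring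
    _ ≤ (10 * n) * ((32 * (l ^ ((e + 2) * 4) * l ^ ((2 * e + 5) * 10))) / m1 ^ 2) :=
        mul_le_mul_of_nonneg_right hS (by positivity)
    _ = n * (320 * l ^ (24 * e + 58)) / m1 ^ 2 := by
        rw [← pow_add, show (e + 2) * 4 + (2 * e + 5) * 10 = 24 * e + 58 by omega]
        ring
    _ ≤ n * l ^ (28 * e + 69) / m1 ^ 2 := by
        apply div_le_div_of_nonneg_right _ hp1.le
        exact mul_le_mul_of_nonneg_left h1 hn.le
    _ ≤ 2 * l ^ (16 * e + 39) * (3 * t) * m1 / m1 ^ 2 := by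
        apply div_le_div_of_nonneg_right _ hp1.le
        have h4 : l ^ (28 * e + 69) = l ^ (16 * e + 39) * l ^ (12 * e + 30) := by
          rw [← pow_add]
          congr 1
          omega
        rw [h4]
        have h5 : 0 < l ^ (16 * e + 39) := by positivity
        have h6 : n * l ^ (12 * e + 30) ≤ 6 * (t * m1) := by
          have : 0 < n * l ^ (12 * e + 30) := by positivity
          nlinarith
        calc n * (l ^ (16 * e + 39) * l ^ (12 * e + 30))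
            = l ^ (16 * e + 39) * (n * l ^ (12 * e + 30)) := by ring
          _ ≤ l ^ (16 * e + 39) * (6 * (t * m1)) := mul_le_mul_of_nonneg_left h6 h5.le
          _ = 2 * l ^ (16 * e + 39) * (3 * t) * m1 := by ring
    _ = 2 * (l ^ (16 * e + 39) / m1) * (√(3 * t) * √(3 * t)) := by
        rw [h3t]
        field_simp
    _ = 2 * (l ^ (16 * e + 39) / m1) * √(3 * t) * √(3 * t) := by ring

private theorem spar_r5 (R : spar_R e C CR l n m1 m2 h h2 hp) {S : ℝ} (hS : 5 * n ≤ S) :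
    4 * (2 * (l ^ (16 * e + 39) / m1)) * l ^ (2 * e + 5) ≤
      S * (1 / (7 * l ^ (e + 2) * h2)) := by
  have hl0 := spar_l0 R
  have hm := R.m0
  have hh2 := R.h20
  have hn := R.n0
  have h1 : 56 * l ^ (18 * e + 46) ≤ l ^ (18 * e + 47) := spar_pow R.hl (by norm_num) (by omega)
  have h2' : 4 * (2 * (l ^ (16 * e + 39) / m1)) * l ^ (2 * e + 5) * (7 * l ^ (e + 2) * h2) ≤ S := by
    refine le_trans ?_ hS
    have h3 : 4 * (2 * (l ^ (16 * e + 39) / m1)) * l ^ (2 * e + 5) * (7 * l ^ (e + 2) * h2) =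
        (56 * (l ^ (16 * e + 39) * l ^ (2 * e + 5) * l ^ (e + 2)) * h2) / m1 := by
      field_simp
      ring
    rw [h3, div_le_iff₀ hm, ← pow_add, ← pow_add,
      show 16 * e + 39 + (2 * e + 5) + (e + 2) = 19 * e + 46 by omega]
    have h4 : 56 * l ^ (19 * e + 46) ≤ l ^ (19 * e + 47) := spar_pow R.hl (by norm_num) (by omega)
    have h5 : 56 * l ^ (19 * e + 46) * h2 ≤ l ^ (19 * e + 47) * h2 :=
      mul_le_mul_of_nonneg_right h4 hh2.le
    have h6 := R.B1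
    nlinarith [mul_pos hn hm]
  have hq : 0 < 7 * l ^ (e + 2) * h2 := by positivity
  rw [mul_one_div, le_div_iff₀ hq]
  exact h2'

private theorem spar_r6 (R : spar_R e C CR l n m1 m2 h h2 hp) {Bx : ℕ} {Z : ℝ}
    (hN : n ≤ l ^ Bx) (hZ : l ^ (5 * e + 11 + Bx) ≤ Z) :
    32 * (l ^ (e + 2)) ^ 4 / m1 ^ 2 ≤ Z * (1 / (7 * l ^ (e + 2) * h2)) := by
  have hl0 := spar_l0 R
  have hm := R.m0
  have hh2 := R.h20
  have hn := R.n0
  have hq : 0 < 7 * l ^ (e + 2) * h2 := by positivity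
  rw [mul_one_div, div_le_div_iff₀ (by positivity) hq]
  have h1 : h2 ≤ n * m1 := by
    have h2' : (1 : ℝ) ≤ l ^ (19 * e + 47) := one_le_pow₀ (by linarith [R.hl])
    have := R.B1
    nlinarith
  have hm1 : (1 : ℝ) ≤ m1 := le_trans (one_le_pow₀ (by linarith [R.hl])) R.D1
  have h3 : h2 ≤ l ^ Bx * m1 ^ 2 := by
    calc h2 ≤ n * m1 := h1
      _ ≤ l ^ Bx * m1 ^ 2 := by
          apply mul_le_mul hN _ hm.le (by positivity)
          nlinarith
  have h4 : 224 * l ^ (5 * e + 10) ≤ l ^ (5 * e + 11) := spar_pow R.hl (by norm_num) (by omega)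
  calc 32 * (l ^ (e + 2)) ^ 4 * (7 * l ^ (e + 2) * h2)
      = 224 * (l ^ (e + 2)) ^ 5 * h2 := by ring
    _ = 224 * l ^ (5 * e + 10) * h2 := by
        rw [← pow_mul]
        congr 3
        omega
    _ ≤ l ^ (5 * e + 11) * h2 := mul_le_mul_of_nonneg_right h4 hh2.le
    _ ≤ l ^ (5 * e + 11) * (l ^ Bx * m1 ^ 2) := mul_le_mul_of_nonneg_left h3 (by positivity)
    _ = l ^ (5 * e + 11 + Bx) * m1 ^ 2 := by rw [pow_add]; ring
    _ ≤ Z * m1 ^ 2 := mul_le_mul_of_nonneg_right hZ (by positivity)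

private theorem spar_r7 (R : spar_R e C CR l n m1 m2 h h2 hp) :
    (l ^ (2 * e + 5)) ^ CR ≤ 1 / (2 * (l ^ (16 * e + 39) / m1)) := by
  have hl0 := spar_l0 R
  rw [spar_inv R, le_div_iff₀ (by positivity), ← pow_mul]
  refine le_trans ?_ R.D1
  have h1 : l ^ ((2 * e + 5) * CR) * (2 * l ^ (16 * e + 39)) =
      2 * l ^ ((2 * e + 5) * CR + (16 * e + 39)) := by
    rw [pow_add]
    ring
  rw [h1]
  refine spar_pow R.hl (by norm_num) ?_
  rw [R.hC]
  omega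

private theorem spar_r8 (R : spar_R e C CR l n m1 m2 h h2 hp) {Bx : ℕ} (hN : n ≤ l ^ Bx) :
    1 / (2 * (l ^ (16 * e + 39) / m1)) ≤ (l ^ (2 * e + 5)) ^ Bx := by
  have hl0 := spar_l0 R
  have hl1 : 1 ≤ l := by linarith [R.hl]
  rw [spar_inv R, div_le_iff₀ (by positivity)]
  have h1 : (1 : ℝ) ≤ 2 * l ^ (16 * e + 39) := by
    have : (1 : ℝ) ≤ l ^ (16 * e + 39) := one_le_pow₀ hl1
    linarith
  have h2' : n ≤ (l ^ (2 * e + 5)) ^ Bx := by
    refine hN.trans ?_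
    rw [← pow_mul]
    apply pow_le_pow_right₀ hl1
    nlinarith [Nat.zero_le (e * Bx), Nat.zero_le Bx]
  calc m1 ≤ n := spar_m1n R
    _ ≤ (l ^ (2 * e + 5)) ^ Bx := h2'
    _ = (l ^ (2 * e + 5)) ^ Bx * 1 := by ring
    _ ≤ (l ^ (2 * e + 5)) ^ Bx * (2 * l ^ (16 * e + 39)) :=
        mul_le_mul_of_nonneg_left h1 (by positivity)

/-- the basic quantities satisfy `spar_R` -/
private theorem spar_mkR (e CR L N M1 M2 H : ℕ) (hL : 1024 ≤ L)
    (h1 : L ^ ((2 * e + 5) * CR + 60 * e + 150) ≤ M1) (h2 : M1 ≤ M2) (h3 : M2 ≤ L * M1)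
    (h4 : L ^ ((2 * e + 5) * CR + 60 * e + 150) * M2 ≤ N)
    (h5 : H * L ^ (12 * e + 30) ≤ N * M1) (h6 : N * M1 ≤ 2 * H * L ^ (12 * e + 30)) :
    ∃ H2 s : ℕ, 1 ≤ H2 ∧ 1 ≤ s ∧ L ^ (e + 2) * (H2 * s) ≤ H ∧
      spar_R e ((2 * e + 5) * CR + 60 * e + 150) CR (L : ℝ) N M1 M2 H H2 ((H2 : ℝ) * (s : ℝ)) := by
  have hL0 : 0 < L := by omega
  have hM1 : 0 < M1 := lt_of_lt_of_le (pow_pos hL0 _) h1
  have hM2 : 0 < M2 := lt_of_lt_of_le hM1 h2
  have hN : 0 < N := lt_of_lt_of_le (Nat.mul_pos (pow_pos hL0 _) hM2) h4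
  have hNM : 0 < N * M1 := Nat.mul_pos hN hM1
  have hH : 0 < H := by
    rcases Nat.eq_zero_or_pos H with h | h
    · rw [h] at h6
      simp only [mul_zero, zero_mul, Nat.le_zero] at h6
      omega
    · exact h
  have hlr : (1024 : ℝ) ≤ (L : ℝ) := by exact_mod_cast hL
  have hlr0 : (0 : ℝ) < (L : ℝ) := by exact_mod_cast hL0
  have hE7 : 0 < L ^ (19 * e + 47) := pow_pos hL0 _
  have hE7le : L ^ (19 * e + 47) ≤ N * M1 := by
    calc L ^ (19 * e + 47) ≤ L ^ ((2 * e + 5) * CR + 60 * e + 150) :=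
          Nat.pow_le_pow_right hL0 (by omega)
      _ ≤ M1 := h1
      _ ≤ N * M1 := Nat.le_mul_of_pos_left _ hN
  have hH2 : 1 ≤ N * M1 / L ^ (19 * e + 47) := (Nat.one_le_div_iff hE7).2 hE7le
  set H2 := N * M1 / L ^ (19 * e + 47) with hH2def
  have b1 : H2 * L ^ (19 * e + 47) ≤ N * M1 := Nat.div_mul_le_self _ _
  have b2 : N * M1 ≤ 2 * H2 * L ^ (19 * e + 47) := by
    have h7 : N * M1 < L ^ (19 * e + 47) * (H2 + 1) := Nat.lt_mul_div_succ _ hE7
    have h8 : L ^ (19 * e + 47) * (H2 + 1) ≤ L ^ (19 * e + 47) * (2 * H2) :=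
      Nat.mul_le_mul_left _ (by omega)
    calc N * M1 ≤ L ^ (19 * e + 47) * (2 * H2) := (h7.trans_le h8).le
      _ = 2 * H2 * L ^ (19 * e + 47) := by ring
  have hq : 0 < L ^ (e + 2) * H2 := Nat.mul_pos (pow_pos hL0 _) hH2
  have hqH : L ^ (e + 2) * H2 ≤ H := by
    have h7 : ((L : ℝ) ^ (e + 2) * H2) * (L : ℝ) ^ (19 * e + 47) ≤ H * (L : ℝ) ^ (19 * e + 47) := by
      have b1r : (H2 : ℝ) * (L : ℝ) ^ (19 * e + 47) ≤ N * M1 := by exact_mod_cast b1
      have h6r : (N : ℝ) * M1 ≤ 2 * H * (L : ℝ) ^ (12 * e + 30) := by exact_mod_cast h6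
      calc ((L : ℝ) ^ (e + 2) * H2) * (L : ℝ) ^ (19 * e + 47)
          = (L : ℝ) ^ (e + 2) * (H2 * (L : ℝ) ^ (19 * e + 47)) := by ring
        _ ≤ (L : ℝ) ^ (e + 2) * (2 * H * (L : ℝ) ^ (12 * e + 30)) :=
            mul_le_mul_of_nonneg_left (b1r.trans h6r) (by positivity)
        _ = H * (2 * ((L : ℝ) ^ (e + 2) * (L : ℝ) ^ (12 * e + 30))) := by ring
        _ = H * (2 * (L : ℝ) ^ (13 * e + 32)) := by
            rw [← pow_add]
            congr 3
            omega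
        _ ≤ H * (L : ℝ) ^ (19 * e + 47) := by
            apply mul_le_mul_of_nonneg_left _ (Nat.cast_nonneg _)
            exact spar_pow hlr (by norm_num) (by omega)
    have h8 := le_of_mul_le_mul_right h7 (by positivity : (0 : ℝ) < (L : ℝ) ^ (19 * e + 47))
    exact_mod_cast h8
  have hs : 1 ≤ H / (L ^ (e + 2) * H2) := (Nat.one_le_div_iff hq).2 hqH
  set s := H / (L ^ (e + 2) * H2) with hsdef
  have c1 : L ^ (e + 2) * (H2 * s) ≤ H := by
    have := Nat.mul_div_le H (L ^ (e + 2) * H2)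
    rw [← hsdef, mul_assoc] at this
    exact this
  have c2 : H ≤ 2 * L ^ (e + 2) * (H2 * s) := by
    have h7 : H < (L ^ (e + 2) * H2) * (s + 1) := Nat.lt_mul_div_succ _ hq
    have h8 : (L ^ (e + 2) * H2) * (s + 1) ≤ (L ^ (e + 2) * H2) * (2 * s) :=
      Nat.mul_le_mul_left _ (by omega)
    calc H ≤ (L ^ (e + 2) * H2) * (2 * s) := (h7.trans_le h8).le
      _ = 2 * L ^ (e + 2) * (H2 * s) := by ring
  refine ⟨H2, s, hH2, hs, c1, ?_⟩
  have hH2r : (0 : ℝ) < H2 := by exact_mod_cast hH2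
  have hsr : (0 : ℝ) < s := by exact_mod_cast hs
  refine
    { hl := hlr
      hC := rfl
      n0 := by exact_mod_cast hN
      m0 := by exact_mod_cast hM1
      h0 := by exact_mod_cast hH
      h20 := hH2r
      hp0 := mul_pos hH2r hsr
      D1 := by exact_mod_cast h1
      D2 := by exact_mod_cast h2
      D3 := by exact_mod_cast h3
      D4 := by exact_mod_cast h4
      A1 := by exact_mod_cast h5
      A2 := by exact_mod_cast h6
      B1 := by exact_mod_cast b1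
      B2 := by exact_mod_cast b2
      C1 := by exact_mod_cast c1
      C2 := by exact_mod_cast c2 }

/-- **SPAR** -/
theorem thm_SPAR : St_SPAR := by
  intro k0 e CR
  refine ⟨(2 * e + 5) * CR + 60 * e + 150, fun B => ?_⟩
  obtain ⟨L1, hL1⟩ := spar_exp (5 * e + 11 + B)
  refine ⟨max 1024 L1, fun L hL N M1 M2 P H T h1 h2 h3 h4 h5 h6 h7 h8 h9 h10 h11 => ?_⟩
  have hL' : 1024 ≤ L := le_trans (le_max_left _ _) hL
  have hLL1 : L1 ≤ L := le_trans (le_max_right _ _) hL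
  obtain ⟨H2, s, hH2, hs, c1, R⟩ := spar_mkR e CR L N M1 M2 H hL' h1 h2 h3 h4 h10 h11
  have hL0 : 0 < L := by omega
  have hH's : 0 < H2 * s := Nat.mul_pos hH2 hs
  have hΛ : 0 < L ^ (2 * e + 5) * (H2 * s) := Nat.mul_pos (pow_pos hL0 _) hH's
  set i0 := 48 * N ^ 2 / (L ^ (2 * e + 5) * (H2 * s)) + 1 with hi0def
  set i1 := N ^ 2 / (H2 * s) with hi1def
  have e48 : 48 * N ^ 2 ≤ L ^ (2 * e + 5) * (i0 * (H2 * s)) := by
    have := Nat.lt_mul_div_succ (48 * N ^ 2) hΛ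
    rw [← hi0def] at this
    calc 48 * N ^ 2 ≤ L ^ (2 * e + 5) * (H2 * s) * i0 := this.le
      _ = L ^ (2 * e + 5) * (i0 * (H2 * s)) := by ring
  have ei0 : L ^ (2 * e + 5) * (i0 * (H2 * s)) ≤ 48 * N ^ 2 + L ^ (2 * e + 5) * (H2 * s) := by
    have := Nat.mul_div_le (48 * N ^ 2) (L ^ (2 * e + 5) * (H2 * s))
    calc L ^ (2 * e + 5) * (i0 * (H2 * s)) = L ^ (2 * e + 5) * (H2 * s) *
        (48 * N ^ 2 / (L ^ (2 * e + 5) * (H2 * s))) + L ^ (2 * e + 5) * (H2 * s) := by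
          rw [hi0def]
          ring
      _ ≤ 48 * N ^ 2 + L ^ (2 * e + 5) * (H2 * s) := Nat.add_le_add_right this _
  have hlΛ : (0 : ℝ) < (L : ℝ) ^ (2 * e + 5) := by positivity
  have e48r : 48 * (N : ℝ) ^ 2 ≤ (L : ℝ) ^ (2 * e + 5) * ((i0 : ℝ) * ((H2 : ℝ) * (s : ℝ))) := by
    exact_mod_cast e48
  have ei0r : (L : ℝ) ^ (2 * e + 5) * ((i0 : ℝ) * ((H2 : ℝ) * (s : ℝ))) ≤
      48 * (N : ℝ) ^ 2 + (L : ℝ) ^ (2 * e + 5) * ((H2 : ℝ) * (s : ℝ)) := by
    exact_mod_cast ei0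
  have hNr : (0 : ℝ) < N := R.n0
  have hHr : (0 : ℝ) < H := R.h0
  have hTr : (0 : ℝ) < T := by
    rcases Nat.eq_zero_or_pos T with h | h
    · rw [h, mul_zero] at h7
      rw [h7] at h8
      have : (5 * (N : ℝ) ^ 2) ≤ 0 := by exact_mod_cast h8
      nlinarith
    · exact_mod_cast h
  have hT1 : 5 * (N : ℝ) ^ 2 ≤ (H : ℝ) * T := by
    rw [h7] at h8
    exact_mod_cast h8
  have hT2 : (H : ℝ) * T ≤ 16 * (N : ℝ) ^ 2 := by
    rw [h7] at h9
    exact_mod_cast h9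
  have hSS : √(2 * (H : ℝ)) * √(3 * (T : ℝ)) = √(6 * ((H : ℝ) * T)) := by
    rw [← Real.sqrt_mul (by positivity)]
    congr 1
    ring
  have hS10 : √(2 * (H : ℝ)) * √(3 * (T : ℝ)) ≤ 10 * N := by
    rw [hSS]
    apply Real.sqrt_le_iff.2
    constructor
    · positivity
    · nlinarith
  have hS5 : 5 * (N : ℝ) ≤ √(2 * (H : ℝ)) * √(3 * (T : ℝ)) := by
    rw [hSS]
    apply Real.le_sqrt_of_sq_le
    nlinarith
  have hS0 : 0 ≤ √(2 * (H : ℝ)) * √(3 * (T : ℝ)) := by positivity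
  have hkr : (N : ℝ) ≤ (M1 : ℝ) ^ k0 := by exact_mod_cast h5
  have hBr : (N : ℝ) ≤ (L : ℝ) ^ B := by exact_mod_cast h6
  have hZ : (L : ℝ) ^ (5 * e + 11 + B) ≤ (2 : ℝ) ^ (L ^ (2 * e + 5)) := by
    refine (hL1 L hLL1).trans ?_
    apply pow_le_pow_right₀ (by norm_num)
    calc L = L ^ 1 := (pow_one L).symm
      _ ≤ L ^ (2 * e + 5) := Nat.pow_le_pow_right hL0 (by omega)
  refine ⟨H2, s, i0, i1, (L : ℝ) ^ (16 * e + 39) / M1, 1 / (7 * (L : ℝ) ^ (e + 2) * H2),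
    32 * ((L : ℝ) ^ (e + 2)) ^ 4 / (M1 : ℝ) ^ 2, ?_⟩
  refine
    { hs := hs
      hM1 := by exact_mod_cast spar_hM1 R
      hH2 := by exact_mod_cast spar_hH2 R
      hX := by exact_mod_cast spar_hX R
      hHl := c1
      h48 := e48
      hi0 := ei0
      hi := ?_
      hi1 := Nat.div_mul_le_self _ _
      hi1' := (Nat.lt_div_mul_add hH's).le
      hHi := ?_
      hMi := ?_
      hδ := div_pos (by positivity) R.m0
      hb0 := rfl
      hb1 := rfl
      w1 := spar_w1 R e48r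
      w2 := spar_w2 R
      c1 := spar_c1 R e48r
      r1 := spar_r1 R
      r2 := spar_r2 R
      r3 := ?_
      r4 := spar_r4 R hTr hT1 hT2
      r5 := ?_
      r6 := spar_r6 R hBr hZ
      r7 := spar_r7 R
      r8 := spar_r8 R hBr }
  · rw [hi1def, Nat.le_div_iff_mul_le hH's]
    have g1 := spar_48 (e := e) (n := (N : ℝ)) R.hl
    have g2 := spar_hphalf R
    have g3 : (L : ℝ) ^ (2 * e + 5) * ((i0 : ℝ) * ((H2 : ℝ) * (s : ℝ))) ≤
        (L : ℝ) ^ (2 * e + 5) * (N : ℝ) ^ 2 := by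
      have : 0 ≤ (L : ℝ) ^ (2 * e + 5) * (N : ℝ) ^ 2 := by positivity
      linarith
    have g4 := le_of_mul_le_mul_left g3 hlΛ
    exact_mod_cast g4
  · have g1 := (spar_hHi R).trans e48r
    have g2 := le_of_mul_le_mul_left g1 hlΛ
    exact_mod_cast g2
  · have g1 := (spar_hMi R).trans e48r
    have g2 := le_of_mul_le_mul_left g1 hlΛ
    exact_mod_cast g2
  · have g := spar_r3 R hkr hS10 hS0
    calc √(2 * (H : ℝ)) * (32 * ((L : ℝ) ^ (e + 2)) ^ 4 / (M1 : ℝ) ^ 2) * √(3 * (T : ℝ))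
        = √(2 * (H : ℝ)) * √(3 * (T : ℝ)) * (32 * ((L : ℝ) ^ (e + 2)) ^ 4 / (M1 : ℝ) ^ 2) := by
          ring
      _ ≤ _ := g
  · have g := spar_r5 R hS5
    calc 4 * (2 * ((L : ℝ) ^ (16 * e + 39) / M1)) * (L : ℝ) ^ (2 * e + 5)
        ≤ √(2 * (H : ℝ)) * √(3 * (T : ℝ)) * (1 / (7 * (L : ℝ) ^ (e + 2) * H2)) := g
      _ = √(2 * (H : ℝ)) * (1 / (7 * (L : ℝ) ^ (e + 2) * H2)) * √(3 * (T : ℝ)) := by ring

end Pool.Agent.BSR
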