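import Pool.Agent.BSR.StB

/-!
# BSR, SQ: polynomial approximation of the square root
-/

set_option autoImplicit false

namespace Pool.Agent.BSR

open Finset MeasureTheory Filter Topology Pool.Agent.BSQ
open scoped BigOperators
open Classical

private noncomputable def sq_q : ℕ → Polynomial ℝ
  | 0 => 1
  | k + 1 => sq_q k + Polynomial.C (1 / 2) * (1 + Polynomial.X - sq_q k ^ 2)

private theorem sq_deg (k : ℕ) : (sq_q k).natDegree ≤ 2 ^ k := by
  induction k with
  | zero =>
    unfold sq_q
    simp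
  | succ k ih =>
    unfold sq_q
    have h1 : (2 : ℕ) ^ (k + 1) = 2 * 2 ^ k := by ring
    have h2 : 1 ≤ 2 ^ k := Nat.one_le_two_pow
    have h3 : (1 + Polynomial.X - sq_q k ^ 2 : Polynomial ℝ).natDegree ≤ 2 ^ (k + 1) := by
      refine (Polynomial.natDegree_sub_le _ _).trans (max_le ?_ ?_)
      · refine (Polynomial.natDegree_add_le _ _).trans (max_le ?_ ?_)
        · simp
        · rw [Polynomial.natDegree_X]
          omega
      · exact Polynomial.natDegree_pow_le.trans (by omega)
    refine (Polynomial.natDegree_add_le _ _).trans (max_le (by omega) ?_)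
    exact (Polynomial.natDegree_C_mul_le _ _).trans h3

private theorem sq_sqrt {z : ℝ} (h : 0 ≤ 1 + z) : |1 - Real.sqrt (1 + z)| ≤ |z| := by
  have h1 := Real.sq_sqrt h
  have h2 := Real.sqrt_nonneg (1 + z)
  set σ := Real.sqrt (1 + z)
  have h3 : z = (σ - 1) * (σ + 1) := by linarith [h1, sq_nonneg σ, (by ring : (σ - 1) * (σ + 1) = σ ^ 2 - 1)]
  rw [h3, abs_mul, abs_of_nonneg (by linarith : 0 ≤ σ + 1), abs_sub_comm]
  have h4 := abs_nonneg (σ - 1)
  nlinarith

private theorem sq_err {L : ℝ} (hL : 16 ≤ L) {z : ℝ} (hz : |z| ≤ 1 / L) (k : ℕ) :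
    |(sq_q k).eval z - Real.sqrt (1 + z)| ≤ (2 / L) ^ k ∧
    |(sq_q k).eval z - Real.sqrt (1 + z)| ≤ 1 / L := by
  have hL0 : 0 < L := by linarith
  have hL1 : 1 / L ≤ 1 / 16 := one_div_le_one_div_of_le (by norm_num) hL
  have hz0 : 0 ≤ 1 + z := by
    have := (abs_le.1 hz).1
    linarith
  have h1 := sq_sqrt hz0
  have hs := Real.sq_sqrt hz0
  set σ := Real.sqrt (1 + z)
  have h2 : |1 - σ| ≤ 1 / L := h1.trans hz
  induction k with
  | zero =>
    have h3 : (sq_q 0).eval z = 1 := by
      unfold sq_q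
      simp
    rw [h3, pow_zero]
    exact ⟨by linarith, h2⟩
  | succ k ih =>
    obtain ⟨ih1, ih2⟩ := ih
    have h3 : (sq_q (k + 1)).eval z = (sq_q k).eval z + 1 / 2 * (1 + z - (sq_q k).eval z ^ 2) := by
      conv_lhs => unfold sq_q
      simp
    set e := (sq_q k).eval z - σ with he
    have h4 : (sq_q (k + 1)).eval z - σ = e * ((1 - σ) - e / 2) := by
      rw [h3, ← hs, he]
      ring
    have h5 : |(1 - σ) - e / 2| ≤ 2 / L := by
      have h6 : |(1 - σ) - e / 2| ≤ |1 - σ| + |e / 2| := abs_sub _ _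
      have h7 : |e / 2| = |e| / 2 := by rw [abs_div, abs_of_pos (by norm_num : (0 : ℝ) < 2)]
      have h8 : 2 / L = 1 / L + 1 / L := by ring
      have h9 := abs_nonneg e
      rw [h7] at h6
      linarith
    have h10 : 0 ≤ 2 / L := by positivity
    rw [h4, abs_mul]
    constructor
    · rw [pow_succ]
      exact mul_le_mul ih1 h5 (abs_nonneg _) (by positivity)
    · calc |e| * |(1 - σ) - e / 2| ≤ 1 / L * (2 / L) :=
            mul_le_mul ih2 h5 (abs_nonneg _) (by positivity)
        _ ≤ 1 / L * 1 := by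
            refine mul_le_mul_of_nonneg_left ?_ (by positivity)
            rw [div_le_one hL0]
            linarith
        _ = 1 / L := mul_one _

/-- **SQ.** -/
theorem thm_SQ : St_SQ := by
  intro B
  refine ⟨2 ^ (2 * B), fun L s0 hL hs0 => ?_⟩
  have hLr : (16 : ℝ) ≤ L := by exact_mod_cast hL
  have hL0 : (0 : ℝ) < L := by linarith
  refine ⟨Polynomial.C (Real.sqrt s0) *
    (sq_q (2 * B)).comp (Polynomial.C (1 / s0) * Polynomial.X - 1), ?_, ?_⟩
  · refine (Polynomial.natDegree_C_mul_le _ _).trans ?_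
    refine Polynomial.natDegree_comp_le.trans ?_
    have h1 : (Polynomial.C (1 / s0) * Polynomial.X - 1 : Polynomial ℝ).natDegree ≤ 1 := by
      refine (Polynomial.natDegree_sub_le _ _).trans (max_le ?_ ?_)
      · exact (Polynomial.natDegree_C_mul_le _ _).trans Polynomial.natDegree_X_le
      · simp
    calc (sq_q (2 * B)).natDegree * _ ≤ 2 ^ (2 * B) * 1 := Nat.mul_le_mul (sq_deg _) h1
      _ = _ := mul_one _
  · intro s hs
    set z := (s - s0) / s0 with hz
    have hz1 : |z| ≤ 1 / L := by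
      rw [hz, abs_div, abs_of_pos hs0, div_le_div_iff₀ hs0 hL0, one_mul]
      exact hs
    have hs1 : s = s0 * (1 + z) := by
      rw [hz]
      field_simp
      ring
    have h1 := (sq_err hLr hz1 (2 * B)).1
    have h2 : Polynomial.eval s (Polynomial.C (Real.sqrt s0) *
        (sq_q (2 * B)).comp (Polynomial.C (1 / s0) * Polynomial.X - 1)) =
        Real.sqrt s0 * (sq_q (2 * B)).eval z := by
      rw [Polynomial.eval_mul, Polynomial.eval_C, Polynomial.eval_comp]
      congr 2
      simp only [Polynomial.eval_sub, Polynomial.eval_mul, Polynomial.eval_C, Polynomial.eval_X,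
        Polynomial.eval_one]
      rw [hz]
      field_simp
    have h3 : Real.sqrt s = Real.sqrt s0 * Real.sqrt (1 + z) := by
      rw [hs1, Real.sqrt_mul hs0.le]
    rw [h2, h3, ← mul_sub, abs_mul, abs_of_nonneg (Real.sqrt_nonneg s0), abs_sub_comm,
      div_eq_mul_inv]
    refine mul_le_mul_of_nonneg_left ?_ (Real.sqrt_nonneg s0)
    refine h1.trans ?_
    rw [pow_mul, ← inv_pow]
    refine pow_le_pow_left₀ (by positivity) ?_ B
    rw [div_pow, inv_eq_one_div, div_le_div_iff₀ (by positivity) hL0]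
    nlinarith

end Pool.Agent.BSR
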