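import Pool.Agent.BSR.StB
import Pool.Agent.BSQ.MSS

/-!
# BSR, SSB: structured functions against the difference of two strips (helper44)
-/

set_option autoImplicit false

namespace Pool.Agent.BSR

open Finset MeasureTheory Filter Topology Pool.Agent.BSQ
open scoped BigOperators
open Classical

/-- numerical conclusion for the tails. -/
private theorem ssb_tail (L e C : ℕ) (N M M2 H H' i0 : ℕ) (hL : 400 ≤ L) (hC : e + 1 ≤ C) (hN : 1 ≤ N)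
    (hM : M ≤ M2) (h2 : L ^ C * M2 ≤ N) (hM2 : 1 ≤ M2) (hH : H * L ^ (12 * e + 30) ≤ N ^ 2)
    (hH' : H' ≤ H) (hi0 : L ^ (2 * e + 5) * (i0 * H') ≤ 48 * N ^ 2 + L ^ (2 * e + 5) * H') :
    2 * ((i0 * H' : ℕ) : ℝ) / (N : ℝ) ^ 2 + ((H' : ℝ) + (M : ℝ) ^ 2 + 2 * N) / (N : ℝ) ^ 2 ≤
      1 / (L : ℝ) ^ e := by
  have hL1 : 1 ≤ L := by omega
  have hLR : (400 : ℝ) ≤ L := by exact_mod_cast hL
  have hL0 : (0 : ℝ) < L := by linarith
  have hL1R : (1 : ℝ) ≤ L := by linarith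
  have hNR : (1 : ℝ) ≤ N := by exact_mod_cast hN
  have hN2 : (0 : ℝ) < (N : ℝ) ^ 2 := by positivity
  set x : ℝ := (L : ℝ) ^ e with hx
  have hx0 : 0 < x := by positivity
  have hx1 : 1 ≤ x := one_le_pow₀ hL1R
  -- bounds
  have b1 : ((i0 * H' : ℕ) : ℝ) * (x * L) ≤ 48 * (N : ℝ) ^ 2 + x * L * H' := by
    have h3 : (L : ℝ) ^ (2 * e + 5) * ((i0 * H' : ℕ) : ℝ) ≤
        48 * (N : ℝ) ^ 2 + (L : ℝ) ^ (2 * e + 5) * H' := by exact_mod_cast hi0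
    have h4 : (L : ℝ) ^ (2 * e + 5) = (x * L) * (x * (L : ℝ) ^ 4) := by
      rw [hx]; ring
    have h5 : 1 ≤ x * (L : ℝ) ^ 4 := by
      have : (1 : ℝ) ≤ (L : ℝ) ^ 4 := one_le_pow₀ hL1R
      nlinarith
    rw [h4] at h3
    have h6 : (0 : ℝ) ≤ ((i0 * H' : ℕ) : ℝ) := Nat.cast_nonneg _
    by_contra hcon
    push Not at hcon
    have h7 : 48 * (N : ℝ) ^ 2 < x * L * (((i0 * H' : ℕ) : ℝ) - H') := by nlinarith
    have h8 : 0 < x * L * (((i0 * H' : ℕ) : ℝ) - H') := lt_trans (by positivity) h7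
    have h9 : x * L * (((i0 * H' : ℕ) : ℝ) - H') ≤
        x * L * (x * (L : ℝ) ^ 4) * (((i0 * H' : ℕ) : ℝ) - H') := by
      calc x * L * (((i0 * H' : ℕ) : ℝ) - H') = x * L * (((i0 * H' : ℕ) : ℝ) - H') * 1 := by ring
        _ ≤ x * L * (((i0 * H' : ℕ) : ℝ) - H') * (x * (L : ℝ) ^ 4) :=
          mul_le_mul_of_nonneg_left h5 h8.le
        _ = _ := by ring
    nlinarith
  have b2 : (H' : ℝ) * (x * L) ≤ (N : ℝ) ^ 2 := by
    have h3 : (H : ℝ) * (L : ℝ) ^ (12 * e + 30) ≤ (N : ℝ) ^ 2 := by exact_mod_cast hH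
    have h4 : x * L ≤ (L : ℝ) ^ (12 * e + 30) := by
      have h5 : x * L = (L : ℝ) ^ (e + 1) := by rw [hx]; ring
      rw [h5]
      exact pow_le_pow_right₀ hL1R (by omega)
    have h6 : (H' : ℝ) ≤ H := by exact_mod_cast hH'
    calc (H' : ℝ) * (x * L) ≤ H * (L : ℝ) ^ (12 * e + 30) :=
          mul_le_mul h6 h4 (by positivity) (by positivity)
      _ ≤ _ := h3
  have b3 : (x * L) * (M : ℝ) ≤ N := by
    have h3 : (L : ℝ) ^ C * (M2 : ℝ) ≤ N := by exact_mod_cast h2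
    have h4 : x * L ≤ (L : ℝ) ^ C := by
      have h5 : x * L = (L : ℝ) ^ (e + 1) := by rw [hx]; ring
      rw [h5]
      exact pow_le_pow_right₀ hL1R hC
    have h6 : (M : ℝ) ≤ M2 := by exact_mod_cast hM
    calc (x * L) * (M : ℝ) ≤ (L : ℝ) ^ C * M2 := mul_le_mul h4 h6 (by positivity) (by positivity)
      _ ≤ _ := h3
  have b4 : x * L ≤ N := by
    have h3 : (L : ℝ) ^ C * (M2 : ℝ) ≤ N := by exact_mod_cast h2
    have h4 : x * L ≤ (L : ℝ) ^ C := by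
      have h5 : x * L = (L : ℝ) ^ (e + 1) := by rw [hx]; ring
      rw [h5]
      exact pow_le_pow_right₀ hL1R hC
    have h6 : (1 : ℝ) ≤ M2 := by exact_mod_cast hM2
    calc x * L = x * L * 1 := (mul_one _).symm
      _ ≤ (L : ℝ) ^ C * M2 := mul_le_mul h4 h6 (by norm_num) (by positivity)
      _ ≤ _ := h3
  have b5 : (x * L) * (M : ℝ) ^ 2 ≤ (N : ℝ) ^ 2 := by
    have h3 : (1 : ℝ) ≤ x * L := by nlinarith
    have h4 : (0 : ℝ) ≤ M := Nat.cast_nonneg _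
    have h5 : (M : ℝ) ≤ N := by nlinarith
    calc (x * L) * (M : ℝ) ^ 2 = ((x * L) * M) * M := by ring
      _ ≤ N * N := mul_le_mul b3 h5 h4 (by positivity)
      _ = _ := by ring
  have b6 : (x * L) * (N : ℝ) ≤ (N : ℝ) ^ 2 := by nlinarith
  rw [← add_div, div_le_div_iff₀ hN2 hx0]
  -- multiply by L
  have h7 : (2 * ((i0 * H' : ℕ) : ℝ) + ((H' : ℝ) + (M : ℝ) ^ 2 + 2 * N)) * (x * L) ≤
      104 * (N : ℝ) ^ 2 := by nlinarith
  have h8 : 104 * (N : ℝ) ^ 2 ≤ L * (N : ℝ) ^ 2 := by nlinarith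
  have h9 : L * ((2 * ((i0 * H' : ℕ) : ℝ) + ((H' : ℝ) + (M : ℝ) ^ 2 + 2 * N)) * x) ≤
      L * (1 * (N : ℝ) ^ 2) := by nlinarith
  exact le_of_mul_le_mul_left h9 hL0

/-- numerical conclusion for the main part. -/
private theorem ssb_main (L e : ℕ) (N P H T H' i0 i1 : ℕ) (bad : ℝ) (hL : 400 ≤ L) (hN : 1 ≤ N)
    (hP : P = H * T) (hP0 : 1 ≤ P) (hP16 : P ≤ 16 * N ^ 2) (hH' : 1 ≤ H') (hHl : L ^ (e + 2) * H' ≤ H)
    (hi : i0 ≤ i1) (hi1 : i1 * H' ≤ N ^ 2)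
    (hbad : bad ≤ (H : ℝ) ^ 2 / H' * ((3 * T : ℝ) ^ 2 / (L : ℝ) ^ (2 * e + 5))) :
    ((i1 : ℝ) - i0) * (16 / (L : ℝ) ^ (e + 2) * H' / (N : ℝ) ^ 2 +
      2 * ((H' : ℝ) / H) * (6 * H' / (N : ℝ) ^ 2)) + (6 * H' / (N : ℝ) ^ 2) / P * bad ≤
      1 / (L : ℝ) ^ e := by
  have hL1 : 1 ≤ L := by omega
  have hLR : (400 : ℝ) ≤ L := by exact_mod_cast hL
  have hL0 : (0 : ℝ) < L := by linarith
  have hL1R : (1 : ℝ) ≤ L := by linarith
  have hNR : (0 : ℝ) < N := by exact_mod_cast hN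
  have hH'R : (0 : ℝ) < H' := by exact_mod_cast hH'
  have hPR : (0 : ℝ) < P := by exact_mod_cast hP0
  have hHl' : (L : ℝ) ^ (e + 2) * H' ≤ H := by exact_mod_cast hHl
  have hHR : (0 : ℝ) < H := lt_of_lt_of_le (by positivity) hHl'
  have hi1R : (i1 : ℝ) * H' ≤ (N : ℝ) ^ 2 := by exact_mod_cast hi1
  have hiR : (i0 : ℝ) ≤ i1 := by exact_mod_cast hi
  have hi0R : (0 : ℝ) ≤ i0 := Nat.cast_nonneg _
  have hPHT : (P : ℝ) = H * T := by rw [hP]; push_cast; ring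
  have hP16R : (P : ℝ) ≤ 16 * (N : ℝ) ^ 2 := by exact_mod_cast hP16
  set x : ℝ := (L : ℝ) ^ e with hx
  have hx0 : 0 < x := by positivity
  have hx1 : 1 ≤ x := one_le_pow₀ hL1R
  have e2 : (L : ℝ) ^ (e + 2) = x * L ^ 2 := by rw [hx]; ring
  have e5 : (L : ℝ) ^ (2 * e + 5) = x * (x * L ^ 5) := by rw [hx]; ring
  -- first part
  have p1 : 2 * ((H' : ℝ) / H) * (6 * H' / (N : ℝ) ^ 2) ≤ 12 / (L : ℝ) ^ (e + 2) * H' / (N : ℝ) ^ 2 := by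
    have h1 : (H' : ℝ) / H ≤ 1 / (L : ℝ) ^ (e + 2) := by
      rw [div_le_div_iff₀ hHR (by positivity)]
      linarith
    calc 2 * ((H' : ℝ) / H) * (6 * H' / (N : ℝ) ^ 2) ≤
          2 * (1 / (L : ℝ) ^ (e + 2)) * (6 * H' / (N : ℝ) ^ 2) := by gcongr
      _ = _ := by ring
  have p2 : ((i1 : ℝ) - i0) * (16 / (L : ℝ) ^ (e + 2) * H' / (N : ℝ) ^ 2 +
      2 * ((H' : ℝ) / H) * (6 * H' / (N : ℝ) ^ 2)) ≤ 28 / (L : ℝ) ^ (e + 2) := by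
    have h1 : ((i1 : ℝ) - i0) * H' / (N : ℝ) ^ 2 ≤ 1 := by
      rw [div_le_one (by positivity)]
      nlinarith
    calc ((i1 : ℝ) - i0) * (16 / (L : ℝ) ^ (e + 2) * H' / (N : ℝ) ^ 2 +
          2 * ((H' : ℝ) / H) * (6 * H' / (N : ℝ) ^ 2))
        ≤ ((i1 : ℝ) - i0) * (16 / (L : ℝ) ^ (e + 2) * H' / (N : ℝ) ^ 2 +
          12 / (L : ℝ) ^ (e + 2) * H' / (N : ℝ) ^ 2) :=
          mul_le_mul_of_nonneg_left (by linarith) (by linarith)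
      _ = 28 / (L : ℝ) ^ (e + 2) * (((i1 : ℝ) - i0) * H' / (N : ℝ) ^ 2) := by ring
      _ ≤ 28 / (L : ℝ) ^ (e + 2) * 1 := mul_le_mul_of_nonneg_left h1 (by positivity)
      _ = _ := mul_one _
  have p3 : (6 * H' / (N : ℝ) ^ 2) / P * bad ≤ 864 / (L : ℝ) ^ (2 * e + 5) := by
    have h1 : (6 * H' / (N : ℝ) ^ 2) / P * bad ≤ (6 * H' / (N : ℝ) ^ 2) / P *
        ((H : ℝ) ^ 2 / H' * ((3 * T : ℝ) ^ 2 / (L : ℝ) ^ (2 * e + 5))) :=
      mul_le_mul_of_nonneg_left hbad (by positivity)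
    refine h1.trans ?_
    have h2 : (6 * H' / (N : ℝ) ^ 2) / P *
        ((H : ℝ) ^ 2 / H' * ((3 * T : ℝ) ^ 2 / (L : ℝ) ^ (2 * e + 5))) =
        54 * (P / (N : ℝ) ^ 2) / (L : ℝ) ^ (2 * e + 5) := by
      have h3 : (H : ℝ) ^ 2 * (3 * (T : ℝ)) ^ 2 = 9 * (P : ℝ) ^ 2 := by rw [hPHT]; ring
      have h4 : (6 * H' / (N : ℝ) ^ 2) / P *
        ((H : ℝ) ^ 2 / H' * ((3 * T : ℝ) ^ 2 / (L : ℝ) ^ (2 * e + 5))) =
        6 * ((H : ℝ) ^ 2 * (3 * (T : ℝ)) ^ 2) / ((N : ℝ) ^ 2 * P * (L : ℝ) ^ (2 * e + 5)) := by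
        field_simp
      rw [h4, h3]
      field_simp
      ring
    rw [h2]
    refine div_le_div_of_nonneg_right ?_ (by positivity)
    have h5 : (P : ℝ) / (N : ℝ) ^ 2 ≤ 16 := by
      rw [div_le_iff₀ (by positivity)]
      exact hP16R
    linarith
  have p4 : 28 / (L : ℝ) ^ (e + 2) ≤ 1 / (2 * x) := by
    rw [e2, div_le_div_iff₀ (by positivity) (by positivity)]
    have h1 : (56 : ℝ) ≤ (L : ℝ) ^ 2 := by nlinarith
    have h2 : x * 56 ≤ x * (L : ℝ) ^ 2 := mul_le_mul_of_nonneg_left h1 hx0.le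
    linarith
  have p5 : 864 / (L : ℝ) ^ (2 * e + 5) ≤ 1 / (2 * x) := by
    rw [e5, div_le_div_iff₀ (by positivity) (by positivity)]
    have h1 : (400 : ℝ) ^ 5 ≤ (L : ℝ) ^ 5 := pow_le_pow_left₀ (by norm_num) hLR 5
    have h2 : (400 : ℝ) ^ 5 ≤ x * (L : ℝ) ^ 5 := by nlinarith
    have h3 : x * 1728 ≤ x * (x * (L : ℝ) ^ 5) := by
      refine mul_le_mul_of_nonneg_left (le_trans (by norm_num) h2) hx0.le
    nlinarith
  have p6 : 1 / (2 * x) + 1 / (2 * x) = 1 / x := by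
    field_simp
    norm_num
  linarith

theorem thm_SSB (hSPAR : St_SPAR) (hWINB : St_WINB) (hBADB : St_BADB) (hSTS : St_STS)
    (hNSUM : St_NSUM) : St_SSB := by
  intro k0 e
  obtain ⟨CR, hCR⟩ := hBADB (2 * k0) e
  obtain ⟨C, hC⟩ := hSPAR k0 e CR
  refine ⟨C + (e + 1), fun B => ?_⟩
  obtain ⟨L1, hL1⟩ := hCR B
  obtain ⟨L2, hL2⟩ := hC B
  refine ⟨L1 + L2 + 400, fun L hL N M1 M2 P H T _ h1 h12 h21 h2 h3 hB hP hP5 hP16 hHl hHu => ?_⟩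
  have hLpos : 1 ≤ L := by omega
  have hp : ∀ k : ℕ, 1 ≤ L ^ k := fun k => Nat.one_le_pow _ _ hLpos
  have hM1 : 1 ≤ M1 := (hp _).trans h1
  have hM2 : 1 ≤ M2 := hM1.trans h12
  have hM2N : M2 ≤ N := le_trans (Nat.le_mul_of_pos_left _ (hp _)) h2
  have hN : 1 ≤ N := hM2.trans hM2N
  have g1 : L ^ C ≤ M1 := (Nat.pow_le_pow_right hLpos (by omega)).trans h1
  have g2 : L ^ C * M2 ≤ N :=
    (Nat.mul_le_mul_right _ (Nat.pow_le_pow_right hLpos (by omega))).trans h2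
  obtain ⟨H2, s, i0, i1, δ, b0, b1, hSP⟩ := hL2 L (by omega) N M1 M2 P H T g1 h12 h21 g2 h3 hB hP
    hP5 hP16 hHl hHu
  obtain ⟨H', hH'd⟩ : ∃ H' : ℕ, H' = H2 * s := ⟨_, rfl⟩
  have hNH' : N ≤ H' := by
    rw [hH'd]
    calc N ≤ M2 ^ 2 + N := Nat.le_add_left _ _
      _ ≤ 16 * L ^ (e + 2) * (M2 ^ 2 + N) := by
          refine Nat.le_mul_of_pos_left _ ?_
          have := hp (e + 2)
          positivity
      _ ≤ H2 * s := hSP.hX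
  have hH'1 : 1 ≤ H' := hN.trans hNH'
  have hHl' : L ^ (e + 2) * H' ≤ H := by rw [hH'd]; exact hSP.hHl
  have hH'H : H' ≤ H := le_trans (Nat.le_mul_of_pos_left _ (hp _)) hHl'
  have h2H : 2 * H' ≤ H := by
    refine le_trans (Nat.mul_le_mul_right _ ?_) hHl'
    exact le_trans (by omega) (Nat.le_self_pow (by omega) L)
  have hi1 : i1 * H' ≤ N ^ 2 := by rw [hH'd]; exact hSP.hi1
  have hi1' : N ^ 2 ≤ i1 * H' + H' := by rw [hH'd]; exact hSP.hi1'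
  have hi0' : L ^ (2 * e + 5) * (i0 * H') ≤ 48 * N ^ 2 + L ^ (2 * e + 5) * H' := by
    rw [hH'd]; exact hSP.hi0
  have hHN2 : H * L ^ (12 * e + 30) ≤ N ^ 2 := by
    refine hHl.trans ?_
    rw [sq]
    exact Nat.mul_le_mul_left _ (h12.trans hM2N)
  have htail : ∀ M : ℕ, 1 ≤ M → M ≤ M2 →
      ∑ k ∈ range (i0 * H'), rhoS N M k + ∑ k ∈ Ico (i1 * H') (2 * N ^ 2 + 1), rhoS N M k ≤
        1 / (L : ℝ) ^ e := by
    intro M hMa hMb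
    obtain ⟨_, _, m3, m4⟩ := thm_MSS N M hMa (hMb.trans hM2N)
    exact (add_le_add (m3 (i0 * H')) (m4 H' (i1 * H') hi1')).trans
      (ssb_tail L e (C + (e + 1)) N M M2 H H' i0 (by omega) (by omega) hN hMb h2 hM2 hHN2 hH'H hi0')
  refine ⟨H', i0, i1, hH'1, hSP.hi, hi1, htail M1 hM1 h12, htail M2 hM2 le_rfl, ?_⟩
  intro z z' c c' hc hc'
  obtain ⟨m1, _, _, _⟩ := thm_MSS N M1 hM1 (h12.trans hM2N)
  obtain ⟨n1, _, _, _⟩ := thm_MSS N M2 hM2 hM2N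
  have hNR : (0 : ℝ) < N := by exact_mod_cast hN
  have hNH'R : (N : ℝ) ≤ H' := by exact_mod_cast hNH'
  have hmass : ∀ i : ℕ, i0 ≤ i → i < i1 → ∑ k ∈ Ico (i * H') ((i + 1) * H'),
      |rhoS N M1 k - rhoS N M2 k| ≤ 6 * H' / (N : ℝ) ^ 2 := by
    intro i _ _
    have e1 : (i + 1) * H' = i * H' + H' := by ring
    rw [e1]
    have a1 := hNSUM.2.2 N M1 (i * H') H' hN hM1
    have a2 := hNSUM.2.2 N M2 (i * H') H' hN hM2
    calc ∑ k ∈ Ico (i * H') (i * H' + H'), |rhoS N M1 k - rhoS N M2 k|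
        ≤ ∑ k ∈ Ico (i * H') (i * H' + H'), (rhoS N M1 k + rhoS N M2 k) := by
          refine Finset.sum_le_sum fun k _ => ?_
          rw [abs_le]
          constructor <;> linarith [m1 k, n1 k]
      _ ≤ ((H' : ℝ) + 2 * N) / (N : ℝ) ^ 2 + ((H' : ℝ) + 2 * N) / (N : ℝ) ^ 2 := by
          rw [Finset.sum_add_distrib]
          exact add_le_add a1 a2
      _ = (2 * H' + 4 * N) / (N : ℝ) ^ 2 := by ring
      _ ≤ 6 * H' / (N : ℝ) ^ 2 := by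
          refine div_le_div_of_nonneg_right ?_ (by positivity)
          linarith
  have hwin : ∀ i : ℕ, i0 ≤ i → i < i1 → ∀ θ : ℝ,
      ¬ Bad (16 * (L ^ (e + 2)) ^ 2) b0 b1 δ ((i * H' : ℕ) : ℝ) θ →
      ‖∑ k ∈ Ico (i * H') ((i + 1) * H'), ((rhoS N M1 k - rhoS N M2 k : ℝ) : ℂ) * ee ((k : ℝ) * θ)‖ ≤
        16 / (L : ℝ) ^ (e + 2) * H' / (N : ℝ) ^ 2 := by
    intro i a b θ hb
    have := hWINB (2 * k0) e B CR L N M1 M2 H T H2 s i0 i1 δ b0 b1 hLpos hSP h12 i a b θ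
      (by rw [← hH'd]; exact hb)
    rw [← hH'd] at this
    refine this.trans (le_of_eq ?_)
    rw [hH'd]
    push_cast
    ring
  have hst := hSTS P H T H' i0 i1 (16 * (L ^ (e + 2)) ^ 2) z z' c c'
    (fun k => rhoS N M1 k - rhoS N M2 k) b0 b1 δ (16 / (L : ℝ) ^ (e + 2) * H' / (N : ℝ) ^ 2)
    (6 * H' / (N : ℝ) ^ 2) hP hH'1 h2H hc hc' (by positivity) hSP.hi hmass hwin
  have hbd := hL1 L (by omega) N M1 M2 P H T H2 s i0 i1 δ b0 b1 z z' hSP hN hP hP5 hP16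
  rw [← hH'd] at hbd
  have hP1 : 1 ≤ P := by
    have : 1 ≤ N ^ 2 := Nat.one_le_pow _ _ hN
    omega
  refine hst.trans (ssb_main L e N P H T H' i0 i1 _ (by omega) hN hP hP1 hP16 hH'1 hHl' hSP.hi hi1 ?_)
  refine hbd.trans (le_of_eq ?_)
  rw [hH'd]
  push_cast
  ring

end Pool.Agent.BSR
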