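import Pool.Agent.BSR.StB

/-!
# BSR STEP (MP_70d78b_an): one step of the resonance iteration (helper66)
-/

set_option autoImplicit false

namespace Pool.Agent.BSR

open Finset MeasureTheory Filter Topology Pool.Agent.BSQ
open scoped BigOperators
open Classical

private lemma step_num (k e B L : ℕ) (S δ : ℝ) (hL : 16384 ≤ L) (hδ : 0 < δ)
    (h1 : (L : ℝ) ^ (2 * e + 20) ≤ 1 / δ) (h2 : 1 / δ ≤ (L : ℝ) ^ B) (h3 : S ≤ (1 / δ) ^ k) :
    Real.sqrt δ * (L : ℝ) ^ (e + 10) ≤ 1 ∧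
      60 * S * (1 / (L : ℝ) ^ (B * (k + 1) + 2)) ≤ δ := by
  have hL0 : (16384 : ℝ) ≤ L := by exact_mod_cast hL
  have hLp : (0 : ℝ) < L := by linarith
  constructor
  · have h4 : (Real.sqrt δ * (L : ℝ) ^ (e + 10)) ^ 2 ≤ 1 := by
      have h5 : (Real.sqrt δ * (L : ℝ) ^ (e + 10)) ^ 2 = δ * (L : ℝ) ^ (2 * e + 20) := by
        rw [mul_pow, Real.sq_sqrt hδ.le, ← pow_mul]
        congr 2
        ring
      rw [h5]
      have h6 := (le_div_iff₀ hδ).1 h1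
      linarith
    have h7 : 0 ≤ Real.sqrt δ * (L : ℝ) ^ (e + 10) := by positivity
    nlinarith
  · have h5 : S ≤ δ * (L : ℝ) ^ (B * (k + 1)) := by
      have h6 : (1 / δ) ^ k * (1 / δ) ≤ (L : ℝ) ^ (B * (k + 1)) := by
        rw [← pow_succ, pow_mul]
        exact pow_le_pow_left₀ (by positivity) h2 _
      have h7 : (1 / δ) ^ k = δ * ((1 / δ) ^ k * (1 / δ)) := by
        field_simp
      rw [h7] at h3
      exact h3.trans (mul_le_mul_of_nonneg_left h6 hδ.le)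
    have h8 : (0 : ℝ) < (L : ℝ) ^ (B * (k + 1) + 2) := by positivity
    rw [mul_one_div, div_le_iff₀ h8, pow_add]
    have h9 : (60 : ℝ) ≤ (L : ℝ) ^ 2 := by nlinarith
    have h10 : 0 ≤ δ * (L : ℝ) ^ (B * (k + 1)) := by positivity
    calc 60 * S ≤ 60 * (δ * (L : ℝ) ^ (B * (k + 1))) := by linarith
      _ ≤ (L : ℝ) ^ 2 * (δ * (L : ℝ) ^ (B * (k + 1))) := mul_le_mul_of_nonneg_right h9 h10
      _ = δ * ((L : ℝ) ^ (B * (k + 1)) * (L : ℝ) ^ 2) := by ring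

private lemma step_base (R L : ℕ) (S δ P : ℝ) (ω ω' : ℕ → ℝ) (E : Finset (ℕ × ℕ)) (S0 : Finset ℕ)
    (hL : 1 ≤ L) (hRS : RS R L S δ ω ω' E) (hδ : 0 < δ) (hδ2 : δ ≤ 1 / 2) (hSR : S * L ≤ δ * R)
    (hP : Real.sqrt δ / L < P) (hPS : P ≤ S) (hne : S0.Nonempty)
    (hdeg : ∀ t ∈ S0, R ≤ 8 * L * (E.filter (fun e => e.1 = t)).card) :
    1 ≤ R ∧ 1 / 4 ≤ S := by
  have hLp : (0 : ℝ) < L := by exact_mod_cast hL
  have hPp : 0 < P := lt_of_le_of_lt (by positivity) hP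
  have hSp : 0 < S := lt_of_lt_of_le hPp hPS
  have hR : 1 ≤ R := by
    rcases Nat.eq_zero_or_pos R with h0 | h0
    · exfalso
      rw [h0] at hSR
      have := mul_pos hSp hLp
      simp only [Nat.cast_zero, mul_zero] at hSR
      linarith
    · exact h0
  refine ⟨hR, ?_⟩
  obtain ⟨t, ht⟩ := hne
  have h1 := hdeg t ht
  have h2 : (E.filter (fun e => e.1 = t)).Nonempty := by
    rw [Finset.nonempty_iff_ne_empty]
    intro h3
    rw [h3, Finset.card_empty, Nat.mul_zero] at h1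
    omega
  obtain ⟨p, hp⟩ := h2
  have hpE := (Finset.mem_filter.1 hp).1
  obtain ⟨m, hm, hres⟩ := hRS.res p hpE
  obtain ⟨h4, h5, h6⟩ := hRS.sub p hpE
  have hm' : (1 : ℝ) ≤ m := by exact_mod_cast hm
  have h7 := (abs_le.1 hres).1
  have h8 : Real.sqrt ((p.1 : ℝ) - p.2) ≤ Real.sqrt R := by
    apply Real.sqrt_le_sqrt
    have h9 : (p.1 : ℝ) ≤ R := by exact_mod_cast h4.le
    have h10 : (0 : ℝ) ≤ p.2 := Nat.cast_nonneg _
    linarith
  have h11 : (ω p.1 - ω' p.2) * Real.sqrt ((p.1 : ℝ) - p.2) ≤ 2 * S := by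
    calc (ω p.1 - ω' p.2) * Real.sqrt ((p.1 : ℝ) - p.2)
        ≤ |ω p.1 - ω' p.2| * Real.sqrt ((p.1 : ℝ) - p.2) :=
          mul_le_mul_of_nonneg_right (le_abs_self _) (Real.sqrt_nonneg _)
      _ ≤ |ω p.1 - ω' p.2| * Real.sqrt R := mul_le_mul_of_nonneg_left h8 (abs_nonneg _)
      _ ≤ (|ω p.1| + |ω' p.2|) * Real.sqrt R :=
          mul_le_mul_of_nonneg_right (abs_sub _ _) (Real.sqrt_nonneg _)
      _ = |ω p.1| * Real.sqrt R + |ω' p.2| * Real.sqrt R := by ring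
      _ ≤ 2 * S := by linarith [hRS.w1 p.1, hRS.w2 p.2]
  linarith

private lemma step_hstar (L R e : ℕ) (S δ P : ℝ) (hL : 16384 ≤ L) (hR : 1 ≤ R) (hδ : 0 < δ)
    (hδL : Real.sqrt δ * (L : ℝ) ^ (e + 10) ≤ 1) (hSR : S * L ≤ δ * R)
    (hP : Real.sqrt δ / L < P) (hPS : P ≤ S) :
    ∃ h : ℕ, h ≤ R ∧ 2 ^ 10 * L ^ 2 ≤ h ∧ (h : ℝ) * (L * P) ≤ Real.sqrt δ * R ∧
      Real.sqrt δ * R ≤ 2 * (L * P) * h := by
  have hL0 : (16384 : ℝ) ≤ L := by exact_mod_cast hL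
  have hLp : (0 : ℝ) < L := by linarith
  have hsp : 0 < Real.sqrt δ := Real.sqrt_pos.2 hδ
  have hPp : 0 < P := lt_of_le_of_lt (by positivity) hP
  have hLP : 0 < (L : ℝ) * P := mul_pos hLp hPp
  have hRp : (1 : ℝ) ≤ R := by exact_mod_cast hR
  have hss : Real.sqrt δ * Real.sqrt δ = δ := Real.mul_self_sqrt hδ.le
  set Z : ℝ := Real.sqrt δ * R / (L * P) with hZ
  have hZ0 : 0 ≤ Z := by positivity
  have hZm : Z * (L * P) = Real.sqrt δ * R := by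
    rw [hZ]; field_simp
  have h1 : (L : ℝ) ^ (e + 10) ≤ Z := by
    rw [hZ, le_div_iff₀ hLP]
    have h2 : (L : ℝ) * P ≤ δ * R := by
      calc (L : ℝ) * P ≤ L * S := mul_le_mul_of_nonneg_left hPS hLp.le
        _ = S * L := by ring
        _ ≤ δ * R := hSR
    calc (L : ℝ) ^ (e + 10) * (L * P) ≤ (L : ℝ) ^ (e + 10) * (δ * R) :=
          mul_le_mul_of_nonneg_left h2 (by positivity)
      _ = (L : ℝ) ^ (e + 10) * ((Real.sqrt δ * Real.sqrt δ) * R) := by rw [hss]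
      _ = (Real.sqrt δ * (L : ℝ) ^ (e + 10)) * (Real.sqrt δ * R) := by ring
      _ ≤ 1 * (Real.sqrt δ * R) := mul_le_mul_of_nonneg_right hδL (by positivity)
      _ = Real.sqrt δ * R := one_mul _
  have h3 : Z ≤ R := by
    rw [hZ, div_le_iff₀ hLP]
    have h4 : Real.sqrt δ ≤ L * P := by
      have := (div_lt_iff₀ hLp).1 hP
      linarith
    calc Real.sqrt δ * R ≤ L * P * R := mul_le_mul_of_nonneg_right h4 (by positivity)
      _ = R * (L * P) := by ring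
  have hLpow : L ^ (e + 10) ≤ ⌊Z⌋₊ := by
    apply Nat.le_floor
    push_cast
    exact h1
  have hfl : (⌊Z⌋₊ : ℝ) ≤ Z := Nat.floor_le hZ0
  refine ⟨⌊Z⌋₊, ?_, ?_, ?_, ?_⟩
  · have : (⌊Z⌋₊ : ℝ) ≤ R := hfl.trans h3
    exact_mod_cast this
  · refine le_trans ?_ hLpow
    have h5 : (2 : ℕ) ^ 10 ≤ L ^ (e + 8) := by
      calc (2 : ℕ) ^ 10 ≤ 16384 := by norm_num
        _ ≤ L := hL
        _ = L ^ 1 := (pow_one _).symm
        _ ≤ L ^ (e + 8) := Nat.pow_le_pow_right (by omega) (by omega)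
    calc 2 ^ 10 * L ^ 2 ≤ L ^ (e + 8) * L ^ 2 := Nat.mul_le_mul_right _ h5
      _ = L ^ (e + 10) := by rw [← pow_add]
  · calc (⌊Z⌋₊ : ℝ) * (L * P) ≤ Z * (L * P) := mul_le_mul_of_nonneg_right hfl hLP.le
      _ = Real.sqrt δ * R := hZm
  · have h6 : Z < ⌊Z⌋₊ + 1 := Nat.lt_floor_add_one Z
    have h7 : (1 : ℝ) ≤ ⌊Z⌋₊ := by
      have : 1 ≤ ⌊Z⌋₊ := le_trans (Nat.one_le_pow _ _ (by omega)) hLpow
      exact_mod_cast this
    calc Real.sqrt δ * R = Z * (L * P) := hZm.symm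
      _ ≤ (2 * ⌊Z⌋₊) * (L * P) := mul_le_mul_of_nonneg_right (by linarith) hLP.le
      _ = 2 * (L * P) * ⌊Z⌋₊ := by ring

private lemma step_sqp (L dq R B' : ℕ) (y xc : ℝ) (p : Polynomial ℝ) (hy : 0 ≤ y) (hxR : xc ≤ R)
    (hdeg : p.natDegree ≤ dq)
    (hp : ∀ s : ℝ, |s - (xc - y)| * L ≤ xc - y →
      |Real.sqrt s - p.eval s| ≤ Real.sqrt (xc - y) / (L : ℝ) ^ B') :
    ∃ q : Polynomial ℝ, q.natDegree ≤ dq ∧ ∀ x : ℝ, |x - xc| * L ≤ xc - y →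
      |Real.sqrt (x - y) - q.eval x| ≤ Real.sqrt R * (1 / (L : ℝ) ^ B') := by
  refine ⟨p.comp (Polynomial.X - Polynomial.C y), ?_, ?_⟩
  · rw [Polynomial.natDegree_comp, Polynomial.natDegree_X_sub_C, mul_one]
    exact hdeg
  · intro x hx
    have h1 : |(x - y) - (xc - y)| * L ≤ xc - y := by
      have : (x - y) - (xc - y) = x - xc := by ring
      rw [this]
      exact hx
    have h2 := hp (x - y) h1
    rw [Polynomial.eval_comp, Polynomial.eval_sub, Polynomial.eval_X, Polynomial.eval_C]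
    refine h2.trans ?_
    rw [div_eq_mul_one_div]
    apply mul_le_mul_of_nonneg_right _ (by positivity)
    apply Real.sqrt_le_sqrt
    linarith

private lemma step_ap1 (q S κ r r' σ σ' v w D : ℝ) (hκ : 0 ≤ κ)
    (h1 : |r - σ| ≤ q * κ) (h2 : |r' - σ'| ≤ q * κ) (h3 : |v - w| * q ≤ 3 * S)
    (h4 : |D| * q ≤ 2 * S) :
    |((v - w) * (σ - σ') + D * σ') - ((v - w) * (r - r') + D * r')| ≤ 8 * S * κ := by
  have e1 : ((v - w) * (σ - σ') + D * σ') - ((v - w) * (r - r') + D * r') =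
      (v - w) * (-(r - σ) + (r' - σ')) - D * (r' - σ') := by ring
  rw [e1]
  have h5 : |(v - w) * (-(r - σ) + (r' - σ'))| ≤ 6 * S * κ := by
    rw [abs_mul]
    have h6 : |-(r - σ) + (r' - σ')| ≤ 2 * (q * κ) := by
      refine (abs_add_le _ _).trans ?_
      rw [abs_neg]
      linarith
    calc |v - w| * |-(r - σ) + (r' - σ')| ≤ |v - w| * (2 * (q * κ)) :=
          mul_le_mul_of_nonneg_left h6 (abs_nonneg _)
      _ = (|v - w| * q) * (2 * κ) := by ring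
      _ ≤ (3 * S) * (2 * κ) := mul_le_mul_of_nonneg_right h3 (by positivity)
      _ = 6 * S * κ := by ring
  have h7 : |D * (r' - σ')| ≤ 2 * S * κ := by
    rw [abs_mul]
    calc |D| * |r' - σ'| ≤ |D| * (q * κ) := mul_le_mul_of_nonneg_left h2 (abs_nonneg _)
      _ = (|D| * q) * κ := by ring
      _ ≤ 2 * S * κ := mul_le_mul_of_nonneg_right h4 hκ
  refine (abs_sub _ _).trans ?_
  linarith

private lemma step_ap2 (q S κ r r' σ σ' w D m h : ℝ) (hq : 0 < q) (hκ : 0 ≤ κ) (hκ1 : κ ≤ 1)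
    (hh : 0 < h) (h1 : |r - σ| ≤ q * κ) (h2 : |r' - σ'| ≤ q * κ) (h4 : |D| * q ≤ 2 * S)
    (h5 : |m| ≤ 8 * S) (hr : 0 ≤ r) (hr' : 0 ≤ r') (hrq : r ≤ q) (hrq' : r' ≤ q) :
    |(w + (m - D * σ') * (σ + σ') / h) - (w + (m - D * r') * (r + r') / h)| * q ≤
      28 * (S * κ) * q ^ 2 / h := by
  have e1 : (w + (m - D * σ') * (σ + σ') / h) - (w + (m - D * r') * (r + r') / h) =
      ((m - D * σ') * (-(r - σ) + -(r' - σ')) + D * (r' - σ') * (r + r')) / h := by ring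
  rw [e1, abs_div, abs_of_pos hh]
  have hS : 0 ≤ S := by
    have := abs_nonneg m
    linarith
  have h6 : |σ'| ≤ 2 * q := by
    have e2 : σ' = r' + -(r' - σ') := by ring
    rw [e2]
    refine (abs_add_le _ _).trans ?_
    rw [abs_neg, abs_of_nonneg hr']
    have : q * κ ≤ q * 1 := mul_le_mul_of_nonneg_left hκ1 hq.le
    linarith
  have h7 : |m - D * σ'| ≤ 12 * S := by
    refine (abs_sub _ _).trans ?_
    rw [abs_mul]
    have : |D| * |σ'| ≤ 4 * S := by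
      calc |D| * |σ'| ≤ |D| * (2 * q) := mul_le_mul_of_nonneg_left h6 (abs_nonneg _)
        _ = 2 * (|D| * q) := by ring
        _ ≤ 4 * S := by linarith
    linarith
  have h8 : |-(r - σ) + -(r' - σ')| ≤ 2 * (q * κ) := by
    refine (abs_add_le _ _).trans ?_
    rw [abs_neg, abs_neg]
    linarith
  have h9 : |(m - D * σ') * (-(r - σ) + -(r' - σ'))| ≤ 24 * (S * κ) * q := by
    rw [abs_mul]
    calc |m - D * σ'| * |-(r - σ) + -(r' - σ')| ≤ (12 * S) * (2 * (q * κ)) :=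
          mul_le_mul h7 h8 (abs_nonneg _) (by positivity)
      _ = 24 * (S * κ) * q := by ring
  have h10 : |D * (r' - σ') * (r + r')| ≤ 4 * (S * κ) * q := by
    rw [abs_mul, abs_mul, abs_of_nonneg (by positivity : 0 ≤ r + r')]
    calc |D| * |r' - σ'| * (r + r') ≤ |D| * (q * κ) * (2 * q) := by
          apply mul_le_mul _ (by linarith) (by positivity) (by positivity)
          exact mul_le_mul_of_nonneg_left h2 (abs_nonneg _)
      _ = (|D| * q) * (2 * κ * q) := by ring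
      _ ≤ (2 * S) * (2 * κ * q) := mul_le_mul_of_nonneg_right h4 (by positivity)
      _ = 4 * (S * κ) * q := by ring
  have h11 : |(m - D * σ') * (-(r - σ) + -(r' - σ')) + D * (r' - σ') * (r + r')| ≤
      28 * (S * κ) * q := by
    refine (abs_add_le _ _).trans ?_
    linarith
  calc |(m - D * σ') * (-(r - σ) + -(r' - σ')) + D * (r' - σ') * (r + r')| / h * q
      ≤ (28 * (S * κ) * q) / h * q := by gcongr
    _ = 28 * (S * κ) * q ^ 2 / h := by ring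

private lemma step_R (L R e : ℕ) (S δ : ℝ) (hL : 16384 ≤ L) (hδ : 0 < δ)
    (hSR : S * L ≤ δ * R) (hS : 1 / 4 ≤ S) (hC : (L : ℝ) ^ (2 * e + 20) ≤ 1 / δ) :
    (L : ℝ) ^ (2 * e + 21) ≤ 4 * R ∧ 8 * (L : ℝ) ^ 2 ≤ R := by
  have hL0 : (16384 : ℝ) ≤ L := by exact_mod_cast hL
  have hLp : (0 : ℝ) < L := by linarith
  have h1 : δ * (L : ℝ) ^ (2 * e + 20) ≤ 1 := by
    have := (le_div_iff₀ hδ).1 hC
    linarith
  have h2 : (L : ℝ) ≤ 4 * (δ * R) := by nlinarith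
  have h3 : (L : ℝ) ^ (2 * e + 21) ≤ 4 * R := by
    have hpos : 0 ≤ (L : ℝ) ^ (2 * e + 20) := by positivity
    calc (L : ℝ) ^ (2 * e + 21) = L * (L : ℝ) ^ (2 * e + 20) := by ring
      _ ≤ 4 * (δ * R) * (L : ℝ) ^ (2 * e + 20) := mul_le_mul_of_nonneg_right h2 hpos
      _ = 4 * R * (δ * (L : ℝ) ^ (2 * e + 20)) := by ring
      _ ≤ 4 * R * 1 := mul_le_mul_of_nonneg_left h1 (by positivity)
      _ = 4 * R := by ring
  refine ⟨h3, ?_⟩
  have h4 : (L : ℝ) ^ 3 ≤ (L : ℝ) ^ (2 * e + 21) :=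
    pow_le_pow_right₀ (by linarith) (by omega)
  have h5 : 32 * (L : ℝ) ^ 2 ≤ (L : ℝ) ^ 3 := by
    have : (L : ℝ) ^ 3 = L * (L : ℝ) ^ 2 := by ring
    rw [this]
    exact mul_le_mul_of_nonneg_right (by linarith) (by positivity)
  linarith

private lemma step_cnt (L R e dq g s : ℕ) (δ a b : ℝ) (hL : 16384 * (3 * dq + 2) ≤ L)
    (hδL : Real.sqrt δ * (L : ℝ) ^ (e + 10) ≤ 1)
    (hR : (L : ℝ) ^ (2 * e + 21) ≤ 4 * R)
    (hs : s ≤ 1024 * L ^ 2 * g) (hRs : R ≤ L ^ e * s) (hab : b - a ≤ R) :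
    16 * Real.sqrt δ * (b - a) ≤ g ∧ 32 * (3 * dq + 1) ≤ g := by
  have hL1 : 16384 ≤ L := by omega
  have hL0 : (16384 : ℝ) ≤ L := by exact_mod_cast hL1
  have hLp : (0 : ℝ) < L := by linarith
  have hRg : (R : ℝ) ≤ 1024 * (L : ℝ) ^ (e + 2) * g := by
    have h1 : R ≤ L ^ e * (1024 * L ^ 2 * g) := hRs.trans (Nat.mul_le_mul_left _ hs)
    have h2 : (R : ℝ) ≤ (L : ℝ) ^ e * (1024 * (L : ℝ) ^ 2 * g) := by exact_mod_cast h1
    calc (R : ℝ) ≤ (L : ℝ) ^ e * (1024 * (L : ℝ) ^ 2 * g) := h2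
      _ = 1024 * (L : ℝ) ^ (e + 2) * g := by ring
  have hg0 : (0 : ℝ) ≤ g := Nat.cast_nonneg _
  have hq0 : 0 ≤ Real.sqrt δ := Real.sqrt_nonneg _
  constructor
  · have h3 : 16384 * (Real.sqrt δ * (L : ℝ) ^ (e + 2)) ≤ 1 := by
      have h4 : (16384 : ℝ) ≤ (L : ℝ) ^ 8 := by
        calc (16384 : ℝ) ≤ (L : ℝ) ^ 1 := by rw [pow_one]; exact hL0
          _ ≤ (L : ℝ) ^ 8 := pow_le_pow_right₀ (by linarith) (by norm_num)
      calc 16384 * (Real.sqrt δ * (L : ℝ) ^ (e + 2))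
          ≤ (L : ℝ) ^ 8 * (Real.sqrt δ * (L : ℝ) ^ (e + 2)) :=
            mul_le_mul_of_nonneg_right h4 (by positivity)
        _ = Real.sqrt δ * (L : ℝ) ^ (e + 10) := by ring
        _ ≤ 1 := hδL
    calc 16 * Real.sqrt δ * (b - a) ≤ 16 * Real.sqrt δ * R :=
          mul_le_mul_of_nonneg_left hab (by positivity)
      _ ≤ 16 * Real.sqrt δ * (1024 * (L : ℝ) ^ (e + 2) * g) :=
          mul_le_mul_of_nonneg_left hRg (by positivity)
      _ = 16384 * (Real.sqrt δ * (L : ℝ) ^ (e + 2)) * g := by ring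
      _ ≤ 1 * g := mul_le_mul_of_nonneg_right h3 hg0
      _ = g := one_mul _
  · have h5 : (L : ℝ) ^ (e + 2) * (L : ℝ) ^ (e + 19) ≤ (L : ℝ) ^ (e + 2) * (4096 * g) := by
      calc (L : ℝ) ^ (e + 2) * (L : ℝ) ^ (e + 19) = (L : ℝ) ^ (2 * e + 21) := by
            rw [← pow_add]; congr 1; ring
        _ ≤ 4 * R := hR
        _ ≤ 4 * (1024 * (L : ℝ) ^ (e + 2) * g) := by linarith
        _ = (L : ℝ) ^ (e + 2) * (4096 * g) := by ring
    have h6 : (L : ℝ) ^ (e + 19) ≤ 4096 * g := le_of_mul_le_mul_left h5 (by positivity)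
    have h7 : (L : ℝ) * 4096 ≤ (L : ℝ) ^ (e + 19) := by
      calc (L : ℝ) * 4096 ≤ L * L := mul_le_mul_of_nonneg_left (by linarith) hLp.le
        _ = (L : ℝ) ^ 2 := by ring
        _ ≤ (L : ℝ) ^ (e + 19) := pow_le_pow_right₀ (by linarith) (by omega)
    have h8 : (L : ℝ) ≤ g := by linarith
    have h9 : L ≤ g := by exact_mod_cast h8
    omega

private lemma step_theta (hSTH : St_STH) (R L y h : ℕ) (S δ P : ℝ) (ω ω' : ℕ → ℝ)
    (E : Finset (ℕ × ℕ)) (V : Polynomial ℝ)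
    (hRS : RS R L S δ ω ω' E) (hR : 1 ≤ R) (hL : 1 ≤ L) (hδ : 0 < δ) (hh : 1 ≤ h) (hP : 0 ≤ P)
    (hhP : (h : ℝ) * (L * P) ≤ Real.sqrt δ * R) (hSR : S * L ≤ δ * R) (t : ℕ)
    (ht1 : (t, y) ∈ E) (ht2 : (t, y + h) ∈ E)
    (hV : ∀ x : ℝ, (t : ℝ) ≤ x → x ≤ t + 1 → |ω t - V.eval x| * Real.sqrt R ≤ P) :
    ∃ n : ℤ, |(ω t - ω' y) * (Real.sqrt ((t : ℝ) - y) - Real.sqrt ((t : ℝ) - y - h)) +
        (ω' (y + h) - ω' y) * Real.sqrt ((t : ℝ) - y - h) - n| ≤ 2 * δ ∧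
      ∀ x : ℝ, (t : ℝ) ≤ x → x ≤ t + 1 →
        |(V.eval x - ω' y) * (Real.sqrt (x - y) - Real.sqrt (x - y - h)) +
          (ω' (y + h) - ω' y) * Real.sqrt (x - y - h) - n| ≤ Real.sqrt δ / 2 + 5 * δ := by
  obtain ⟨m1, -, h1⟩ := hRS.res (t, y) ht1
  obtain ⟨m2, -, h2⟩ := hRS.res (t, y + h) ht2
  have h3 := (hRS.sub (t, y + h) ht2).2.2
  have key := fun x hx1 hx2 => hSTH R L t y h S δ P (ω t) (ω' y) (ω' (y + h)) (V.eval x) x m1 m2
    hR hL hδ hh h3 hP hhP hSR (hRS.w1 t) (hRS.w2 y) (hRS.w2 (y + h)) h1 h2 hx1 hx2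
    (hV x hx1 hx2)
  exact ⟨m1 - m2, (key t le_rfl (by linarith)).1, fun x hx1 hx2 => (key x hx1 hx2).2⟩

private lemma step_fin (L R h hs : ℕ) (δ P : ℝ) (hL : 16384 ≤ L) (hh : 1 ≤ h) (hδ : 0 < δ)
    (hP : 0 ≤ P)
    (h1 : Real.sqrt δ * R ≤ 2 * (L * P) * hs) (h2 : hs ≤ 512 * L ^ 2 * h) :
    6 * δ * R / h ≤ (L : ℝ) ^ 4 * Real.sqrt δ * P := by
  have hL0 : (16384 : ℝ) ≤ L := by exact_mod_cast hL
  have hLp : (0 : ℝ) < L := by linarith
  have hhp : (0 : ℝ) < h := by exact_mod_cast hh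
  have hss : Real.sqrt δ * Real.sqrt δ = δ := Real.mul_self_sqrt hδ.le
  have h3 : (hs : ℝ) ≤ 512 * (L : ℝ) ^ 2 * h := by exact_mod_cast h2
  have h4 : Real.sqrt δ * R ≤ 1024 * (L : ℝ) ^ 3 * P * h := by
    calc Real.sqrt δ * R ≤ 2 * (L * P) * hs := h1
      _ ≤ 2 * (L * P) * (512 * (L : ℝ) ^ 2 * h) := mul_le_mul_of_nonneg_left h3 (by positivity)
      _ = 1024 * (L : ℝ) ^ 3 * P * h := by ring
  rw [div_le_iff₀ hhp]
  calc 6 * δ * R = 6 * Real.sqrt δ * (Real.sqrt δ * R) := by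
        rw [← mul_assoc, mul_assoc 6 _ (Real.sqrt δ), hss]
    _ ≤ 6 * Real.sqrt δ * (1024 * (L : ℝ) ^ 3 * P * h) :=
        mul_le_mul_of_nonneg_left h4 (by positivity)
    _ = 6144 * ((L : ℝ) ^ 3 * Real.sqrt δ * P * h) := by ring
    _ ≤ L * ((L : ℝ) ^ 3 * Real.sqrt δ * P * h) :=
        mul_le_mul_of_nonneg_right (by linarith) (by positivity)
    _ = (L : ℝ) ^ 4 * Real.sqrt δ * P * h := by ring


private lemma step_loc (L R t : ℕ) (xc yh : ℝ) (hL : 1 ≤ L) (h8 : 8 * (L : ℝ) ^ 2 ≤ R)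
    (ht : |(t : ℝ) - xc| ≤ R / (4 * (L : ℝ) ^ 2)) (hyh : (R : ℝ) + L * yh ≤ L * t) :
    0 < xc - yh ∧ ∀ x : ℝ, (t : ℝ) ≤ x → x ≤ t + 1 → |x - xc| * L ≤ xc - yh := by
  have hL1 : (1 : ℝ) ≤ L := by exact_mod_cast hL
  have hLp : (0 : ℝ) < L := by linarith
  obtain ⟨u, hu⟩ : ∃ u : ℝ, (R : ℝ) = (L : ℝ) ^ 2 * u := ⟨R / (L : ℝ) ^ 2, by field_simp⟩
  have h1 : 8 ≤ u := by
    rw [hu] at h8
    have h2 : (L : ℝ) ^ 2 * 8 ≤ (L : ℝ) ^ 2 * u := by linarith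
    exact le_of_mul_le_mul_left h2 (by positivity)
  have h2 : (R : ℝ) / (4 * (L : ℝ) ^ 2) = u / 4 := by
    rw [hu]; field_simp
  rw [h2] at ht
  have h3 : (L : ℝ) * (L * u + yh) ≤ L * t := by
    rw [hu] at hyh
    linarith
  have h4 : (L : ℝ) * u + yh ≤ t := le_of_mul_le_mul_left h3 hLp
  have h5 : u ≤ L * u := by nlinarith
  obtain ⟨h6, h7⟩ := abs_le.1 ht
  refine ⟨by linarith, ?_⟩
  intro x hx1 hx2
  have h8 : |x - xc| ≤ 3 / 8 * u := by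
    rw [abs_le]
    constructor <;> linarith
  calc |x - xc| * L ≤ 3 / 8 * u * L := mul_le_mul_of_nonneg_right h8 hLp.le
    _ = 3 / 8 * (L * u) := by ring
    _ ≤ xc - yh := by linarith

private lemma step_pn (q S κ δ r r' σ σ' v w D n : ℝ) (hκ : 0 ≤ κ)
    (h1 : |r - σ| ≤ q * κ) (h2 : |r' - σ'| ≤ q * κ) (h3 : |v - w| * q ≤ 3 * S)
    (h4 : |D| * q ≤ 2 * S) (h60 : 60 * S * κ ≤ δ) (hS : 0 ≤ S) (hδ : 0 < δ)
    (hδ2 : 12 * Real.sqrt δ ≤ 1)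
    (h5 : |(v - w) * (r - r') + D * r' - n| ≤ Real.sqrt δ / 2 + 5 * δ) :
    |(v - w) * (σ - σ') + D * σ' - n| ≤ Real.sqrt δ := by
  have h6 := step_ap1 q S κ r r' σ σ' v w D hκ h1 h2 h3 h4
  have h7 : 8 * S * κ ≤ δ := by
    have : 0 ≤ S * κ := mul_nonneg hS hκ
    linarith
  have h8 : 12 * δ ≤ Real.sqrt δ := by
    have h9 : Real.sqrt δ * Real.sqrt δ = δ := Real.mul_self_sqrt hδ.le
    have h10 : 0 ≤ Real.sqrt δ := Real.sqrt_nonneg _
    nlinarith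
  have h9 : (v - w) * (σ - σ') + D * σ' - n =
      (((v - w) * (σ - σ') + D * σ') - ((v - w) * (r - r') + D * r')) +
      ((v - w) * (r - r') + D * r' - n) := by ring
  rw [h9]
  refine (abs_add_le _ _).trans ?_
  linarith

private lemma step_psi (hSPSI : St_SPSI) (R L t y h : ℕ) (S δ κ : ℝ) (ω ω' : ℕ → ℝ)
    (E : Finset (ℕ × ℕ)) (m : ℤ) (σ σ' x : ℝ) (hRS : RS R L S δ ω ω' E) (hR : 1 ≤ R)
    (hL : 200 ≤ L) (hδ : 0 < δ) (hδ8 : δ ≤ 1 / 8) (hh : 1 ≤ h) (hSR : S * L ≤ δ * R)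
    (hS : 1 / 4 ≤ S) (ht2 : (t, y + h) ∈ E)
    (hm : |(ω t - ω' y) * (Real.sqrt ((t : ℝ) - y) - Real.sqrt ((t : ℝ) - y - h)) +
        (ω' (y + h) - ω' y) * Real.sqrt ((t : ℝ) - y - h) - m| ≤ 2 * δ)
    (hx1 : (t : ℝ) ≤ x) (hx2 : x ≤ t + 1) (hκ : 0 ≤ κ) (hκ1 : κ ≤ 1) (h60 : 60 * S * κ ≤ δ)
    (h1 : |Real.sqrt (x - y) - σ| ≤ Real.sqrt R * κ)
    (h2 : |Real.sqrt (x - y - h) - σ'| ≤ Real.sqrt R * κ)
    (h3 : |ω' (y + h) - ω' y| * Real.sqrt R ≤ 2 * S) :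
    |ω t - (ω' y + (m - (ω' (y + h) - ω' y) * σ') * (σ + σ') / h)| * Real.sqrt R ≤
      6 * δ * R / h := by
  have hsub := hRS.sub (t, y + h) ht2
  have htR : t < R := hsub.1
  obtain ⟨h4, h5⟩ := hSPSI R L t y h S δ (ω t) (ω' y) (ω' (y + h)) x m hR hL hδ hδ8 hh htR
    hsub.2.2 hSR hS (hRS.w1 t) (hRS.w2 y) (hRS.w2 (y + h)) hm hx1 hx2
  have hRp : (1 : ℝ) ≤ R := by exact_mod_cast hR
  have hq : 0 < Real.sqrt R := Real.sqrt_pos.2 (by linarith)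
  have hhp : (0 : ℝ) < h := by exact_mod_cast hh
  have hxR : x ≤ R := by
    have : ((t + 1 : ℕ) : ℝ) ≤ R := by exact_mod_cast htR
    push_cast at this
    linarith
  have hy0 : (0 : ℝ) ≤ y := Nat.cast_nonneg _
  have hr : Real.sqrt (x - y) ≤ Real.sqrt R := Real.sqrt_le_sqrt (by linarith)
  have hr' : Real.sqrt (x - y - h) ≤ Real.sqrt R := Real.sqrt_le_sqrt (by linarith)
  have h6 := step_ap2 (Real.sqrt R) S κ (Real.sqrt (x - y)) (Real.sqrt (x - y - h)) σ σ'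
    (ω' y) (ω' (y + h) - ω' y) m h hq hκ hκ1 hhp h1 h2 h3 h5 (Real.sqrt_nonneg _)
    (Real.sqrt_nonneg _) hr hr'
  rw [Real.sq_sqrt (by linarith : (0 : ℝ) ≤ R)] at h6
  have h7 : 28 * (S * κ) * R / h ≤ δ * R / h := by
    apply div_le_div_of_nonneg_right _ hhp.le
    apply mul_le_mul_of_nonneg_right _ (by linarith)
    have : 0 ≤ S * κ := mul_nonneg (by linarith) hκ
    linarith
  rw [abs_sub_comm] at h6
  have h8 : |ω t - (ω' y + (m - (ω' (y + h) - ω' y) * σ') * (σ + σ') / h)| ≤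
      |ω t - (ω' y + (m - (ω' (y + h) - ω' y) * Real.sqrt (x - y - h)) *
        (Real.sqrt (x - y) + Real.sqrt (x - y - h)) / h)| +
      |(ω' y + (m - (ω' (y + h) - ω' y) * Real.sqrt (x - y - h)) *
        (Real.sqrt (x - y) + Real.sqrt (x - y - h)) / h) -
        (ω' y + (m - (ω' (y + h) - ω' y) * σ') * (σ + σ') / h)| := abs_sub_le _ _ _
  calc |ω t - (ω' y + (m - (ω' (y + h) - ω' y) * σ') * (σ + σ') / h)| * Real.sqrt R
      ≤ (|ω t - (ω' y + (m - (ω' (y + h) - ω' y) * Real.sqrt (x - y - h)) *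
        (Real.sqrt (x - y) + Real.sqrt (x - y - h)) / h)| +
      |(ω' y + (m - (ω' (y + h) - ω' y) * Real.sqrt (x - y - h)) *
        (Real.sqrt (x - y) + Real.sqrt (x - y - h)) / h) -
        (ω' y + (m - (ω' (y + h) - ω' y) * σ') * (σ + σ') / h)|) * Real.sqrt R :=
        mul_le_mul_of_nonneg_right h8 hq.le
    _ = |ω t - (ω' y + (m - (ω' (y + h) - ω' y) * Real.sqrt (x - y - h)) *
        (Real.sqrt (x - y) + Real.sqrt (x - y - h)) / h)| * Real.sqrt R +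
      |(ω' y + (m - (ω' (y + h) - ω' y) * Real.sqrt (x - y - h)) *
        (Real.sqrt (x - y) + Real.sqrt (x - y - h)) / h) -
        (ω' y + (m - (ω' (y + h) - ω' y) * σ') * (σ + σ') / h)| * Real.sqrt R := by
        rw [add_mul]
    _ ≤ 5 * δ * R / h + 28 * (S * κ) * R / h := add_le_add h4 h6
    _ ≤ 5 * δ * R / h + δ * R / h := by linarith
    _ = 6 * δ * R / h := by ring

private lemma step_pdeg (dq : ℕ) (w D : ℝ) (V σ σ' : Polynomial ℝ) (hV : V.natDegree ≤ 2 * dq)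
    (h1 : σ.natDegree ≤ dq) (h2 : σ'.natDegree ≤ dq) :
    ((V - Polynomial.C w) * (σ - σ') + Polynomial.C D * σ').natDegree ≤ 3 * dq := by
  have h3 : (V - Polynomial.C w).natDegree ≤ 2 * dq := by
    refine (Polynomial.natDegree_sub_le _ _).trans ?_
    rw [Polynomial.natDegree_C]
    exact max_le hV (Nat.zero_le _)
  have h4 : (σ - σ').natDegree ≤ dq := (Polynomial.natDegree_sub_le _ _).trans (max_le h1 h2)
  have h5 : ((V - Polynomial.C w) * (σ - σ')).natDegree ≤ 3 * dq := by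
    refine Polynomial.natDegree_mul_le.trans ?_
    omega
  have h6 : (Polynomial.C D * σ').natDegree ≤ 3 * dq := by
    refine (Polynomial.natDegree_C_mul_le _ _).trans ?_
    omega
  exact (Polynomial.natDegree_add_le _ _).trans (max_le h5 h6)

private lemma step_vdeg (dq : ℕ) (w D m c : ℝ) (σ σ' : Polynomial ℝ)
    (h1 : σ.natDegree ≤ dq) (h2 : σ'.natDegree ≤ dq) :
    (Polynomial.C w + (Polynomial.C m - Polynomial.C D * σ') * (σ + σ') *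
      Polynomial.C c).natDegree ≤ 2 * dq := by
  have h3 : (Polynomial.C m - Polynomial.C D * σ').natDegree ≤ dq := by
    refine (Polynomial.natDegree_sub_le _ _).trans ?_
    rw [Polynomial.natDegree_C]
    exact max_le (Nat.zero_le _) ((Polynomial.natDegree_C_mul_le _ _).trans h2)
  have h4 : (σ + σ').natDegree ≤ dq := (Polynomial.natDegree_add_le _ _).trans (max_le h1 h2)
  have h5 : ((Polynomial.C m - Polynomial.C D * σ') * (σ + σ')).natDegree ≤ 2 * dq := by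
    refine Polynomial.natDegree_mul_le.trans ?_
    omega
  have h6 : ((Polynomial.C m - Polynomial.C D * σ') * (σ + σ') * Polynomial.C c).natDegree ≤
      2 * dq := (Polynomial.natDegree_mul_C_le _ _).trans h5
  refine (Polynomial.natDegree_add_le _ _).trans ?_
  rw [Polynomial.natDegree_C]
  exact max_le (Nat.zero_le _) h6

private lemma step_main (hLEVD : St_LEVD) (hSPSI : St_SPSI) (L R e dq y h hs : ℕ)
    (S δ P xc κ : ℝ) (ω ω' : ℕ → ℝ) (E : Finset (ℕ × ℕ)) (S0 G : Finset ℕ)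
    (V σ σ' : Polynomial ℝ) (n : ℕ → ℤ)
    (hL : 16384 * (3 * dq + 2) ≤ L) (hRS : RS R L S δ ω ω' E) (hδ : 0 < δ)
    (hδL : Real.sqrt δ * (L : ℝ) ^ (e + 10) ≤ 1) (hSR : S * L ≤ δ * R)
    (hloc : ∀ t ∈ S0, |(t : ℝ) - xc| ≤ R / (4 * (L : ℝ) ^ 2))
    (hRS0 : R ≤ L ^ e * S0.card) (hR : 1 ≤ R) (hS : 1 / 4 ≤ S)
    (hRL : (L : ℝ) ^ (2 * e + 21) ≤ 4 * R) (h8 : 8 * (L : ℝ) ^ 2 ≤ R)
    (hP : 0 ≤ P) (hPS : P ≤ S) (hVdeg : V.natDegree ≤ 2 * dq)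
    (hV : ∀ t ∈ S0, ∀ x : ℝ, (t : ℝ) ≤ x → x ≤ t + 1 → |ω t - V.eval x| * Real.sqrt R ≤ P)
    (hh1 : 1 ≤ h) (hhs : hs ≤ 512 * L ^ 2 * h)
    (hhs2 : Real.sqrt δ * R ≤ 2 * (L * P) * hs)
    (hcard : S0.card ≤ 1024 * L ^ 2 * G.card) (hGS : G ⊆ S0)
    (hGE : ∀ t ∈ G, (t, y + h) ∈ E)
    (hκ : 0 ≤ κ) (h60 : 60 * S * κ ≤ δ)
    (hσd : σ.natDegree ≤ dq) (hσ'd : σ'.natDegree ≤ dq)
    (hσ : ∀ t ∈ G, ∀ x : ℝ, (t : ℝ) ≤ x → x ≤ t + 1 →
      |Real.sqrt (x - y) - σ.eval x| ≤ Real.sqrt R * κ)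
    (hσ' : ∀ t ∈ G, ∀ x : ℝ, (t : ℝ) ≤ x → x ≤ t + 1 →
      |Real.sqrt (x - y - h) - σ'.eval x| ≤ Real.sqrt R * κ)
    (hn1 : ∀ t ∈ G, |(ω t - ω' y) * (Real.sqrt ((t : ℝ) - y) - Real.sqrt ((t : ℝ) - y - h)) +
        (ω' (y + h) - ω' y) * Real.sqrt ((t : ℝ) - y - h) - n t| ≤ 2 * δ)
    (hn2 : ∀ t ∈ G, ∀ x : ℝ, (t : ℝ) ≤ x → x ≤ t + 1 →
        |(V.eval x - ω' y) * (Real.sqrt (x - y) - Real.sqrt (x - y - h)) +
          (ω' (y + h) - ω' y) * Real.sqrt (x - y - h) - n t| ≤ Real.sqrt δ / 2 + 5 * δ) :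
    ∃ (S1 : Finset ℕ) (V' : Polynomial ℝ), S1 ⊆ S0 ∧ S0.card ≤ L ^ 3 * S1.card ∧
      V'.natDegree ≤ 2 * dq ∧ ∀ t ∈ S1, ∀ x : ℝ, (t : ℝ) ≤ x → x ≤ t + 1 →
        |ω t - V'.eval x| * Real.sqrt R ≤ (L : ℝ) ^ 4 * Real.sqrt δ * P := by
  have hL1 : 16384 ≤ L := by omega
  have hL0 : (16384 : ℝ) ≤ L := by exact_mod_cast hL1
  have hLp : (0 : ℝ) < L := by linarith
  have hRp : (1 : ℝ) ≤ R := by exact_mod_cast hR
  have hq : 0 < Real.sqrt R := Real.sqrt_pos.2 (by linarith)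
  have hsp : 0 < Real.sqrt δ := Real.sqrt_pos.2 hδ
  have hss : Real.sqrt δ * Real.sqrt δ = δ := Real.mul_self_sqrt hδ.le
  have hsd : 16384 * Real.sqrt δ ≤ 1 := by
    have h1 : (L : ℝ) ≤ (L : ℝ) ^ (e + 10) := by
      calc (L : ℝ) = (L : ℝ) ^ 1 := (pow_one _).symm
        _ ≤ (L : ℝ) ^ (e + 10) := pow_le_pow_right₀ (by linarith) (by omega)
    calc 16384 * Real.sqrt δ ≤ L * Real.sqrt δ := mul_le_mul_of_nonneg_right hL0 hsp.le
      _ = Real.sqrt δ * L := mul_comm _ _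
      _ ≤ Real.sqrt δ * (L : ℝ) ^ (e + 10) := mul_le_mul_of_nonneg_left h1 hsp.le
      _ ≤ 1 := hδL
  have hδ8 : δ ≤ 1 / 8 := by nlinarith
  have hD : |ω' (y + h) - ω' y| * Real.sqrt R ≤ 2 * S := by
    calc |ω' (y + h) - ω' y| * Real.sqrt R ≤ (|ω' (y + h)| + |ω' y|) * Real.sqrt R :=
          mul_le_mul_of_nonneg_right (abs_sub _ _) hq.le
      _ = |ω' (y + h)| * Real.sqrt R + |ω' y| * Real.sqrt R := by ring
      _ ≤ 2 * S := by linarith [hRS.w2 (y + h), hRS.w2 y]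
  have hVb : ∀ t ∈ G, ∀ x : ℝ, (t : ℝ) ≤ x → x ≤ t + 1 →
      |V.eval x - ω' y| * Real.sqrt R ≤ 3 * S := by
    intro t ht x hx1 hx2
    have h1 := hV t (hGS ht) x hx1 hx2
    have h2 : |V.eval x - ω' y| ≤ |ω t - V.eval x| + |ω t| + |ω' y| := by
      have e1 : V.eval x - ω' y = -(ω t - V.eval x) + ω t - ω' y := by ring
      rw [e1]
      refine (abs_sub _ _).trans ?_
      have := abs_add_le (-(ω t - V.eval x)) (ω t)
      rw [abs_neg] at this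
      linarith
    calc |V.eval x - ω' y| * Real.sqrt R
        ≤ (|ω t - V.eval x| + |ω t| + |ω' y|) * Real.sqrt R :=
          mul_le_mul_of_nonneg_right h2 hq.le
      _ = |ω t - V.eval x| * Real.sqrt R + |ω t| * Real.sqrt R + |ω' y| * Real.sqrt R := by ring
      _ ≤ 3 * S := by linarith [hRS.w1 t, hRS.w2 y]
  obtain ⟨p, hp⟩ : ∃ p : Polynomial ℝ, p = (V - Polynomial.C (ω' y)) * (σ - σ') +
      Polynomial.C (ω' (y + h) - ω' y) * σ' := ⟨_, rfl⟩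
  have hpdeg : p.natDegree ≤ 3 * dq := by
    rw [hp]
    exact step_pdeg dq _ _ V σ σ' hVdeg hσd hσ'd
  have hpev : ∀ x : ℝ, p.eval x = (V.eval x - ω' y) * (σ.eval x - σ'.eval x) +
      (ω' (y + h) - ω' y) * σ'.eval x := by
    intro x
    rw [hp]
    simp only [Polynomial.eval_add, Polynomial.eval_mul, Polynomial.eval_sub, Polynomial.eval_C]
  have hpn : ∀ t ∈ G, ∀ x : ℝ, (t : ℝ) ≤ x → x ≤ t + 1 → |p.eval x - n t| ≤ Real.sqrt δ := by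
    intro t ht x hx1 hx2
    rw [hpev]
    exact step_pn (Real.sqrt R) S κ δ _ _ _ _ _ _ _ _ hκ (hσ t ht x hx1 hx2)
      (hσ' t ht x hx1 hx2) (hVb t ht x hx1 hx2) hD h60 (by linarith) hδ (by linarith)
      (hn2 t ht x hx1 hx2)
  have hdI : ∀ t ∈ G, ∀ x : ℝ, (t : ℝ) ≤ x → x ≤ t + 1 → dI (p.eval x) ≤ Real.sqrt δ := by
    intro t ht x hx1 hx2
    exact (round_le _ (n t)).trans (hpn t ht x hx1 hx2)
  have hu8 : (1 : ℝ) ≤ R / (4 * (L : ℝ) ^ 2) := by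
    rw [le_div_iff₀ (by positivity)]
    linarith [sq_nonneg (L : ℝ)]
  have huR : 2 * ((R : ℝ) / (4 * (L : ℝ) ^ 2)) + 2 ≤ R := by
    have h1 : (R : ℝ) / (4 * (L : ℝ) ^ 2) ≤ R / 4 := by
      apply div_le_div_of_nonneg_left (by linarith) (by norm_num)
      nlinarith
    have h2 : (8 : ℝ) ≤ R := by nlinarith
    linarith
  obtain ⟨hc1, hc2⟩ := step_cnt L R e dq G.card S0.card δ
    (xc - R / (4 * (L : ℝ) ^ 2) - 1) (xc + R / (4 * (L : ℝ) ^ 2) + 1) hL hδL hRL hcard hRS0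
    (by linarith)
  obtain ⟨u, v, m, G', hG'G, -, -, -, huv, hG'uv, hG'card⟩ := hLEVD p
    (xc - R / (4 * (L : ℝ) ^ 2) - 1) (xc + R / (4 * (L : ℝ) ^ 2) + 1) (Real.sqrt δ) G hsp
    (by linarith)
    (by
      intro t ht
      have h1 := abs_le.1 (hloc t (hGS ht))
      constructor <;> linarith [h1.1, h1.2])
    hdI hc1 (by omega)
  have hm : ∀ t ∈ G', n t = m := by
    intro t ht
    have h1 := hpn t (hG'G ht) t le_rfl (by linarith)
    have h2 := huv t (hG'uv t ht).1 (by linarith [(hG'uv t ht).2])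
    have h3 : |((n t - m : ℤ) : ℝ)| < 1 := by
      push_cast
      have e1 : (n t : ℝ) - m = -(p.eval (t : ℝ) - n t) + (p.eval (t : ℝ) - m) := by ring
      rw [e1]
      refine lt_of_le_of_lt (abs_add_le _ _) ?_
      rw [abs_neg]
      linarith
    have h4 : |n t - m| < 1 := by exact_mod_cast h3
    have h5 := Int.abs_lt_one_iff.1 h4
    omega
  refine ⟨G', Polynomial.C (ω' y) + (Polynomial.C (m : ℝ) -
    Polynomial.C (ω' (y + h) - ω' y) * σ') * (σ + σ') * Polynomial.C (1 / (h : ℝ)),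
    hG'G.trans hGS, ?_, step_vdeg dq _ _ _ _ σ σ' hσd hσ'd, ?_⟩
  · calc S0.card ≤ 1024 * L ^ 2 * G.card := hcard
      _ ≤ 1024 * L ^ 2 * (16 * (p.natDegree + 1) * G'.card) := Nat.mul_le_mul_left _ hG'card
      _ = L ^ 2 * (16384 * (p.natDegree + 1)) * G'.card := by ring
      _ ≤ L ^ 2 * L * G'.card := by
          apply Nat.mul_le_mul_right
          apply Nat.mul_le_mul_left
          omega
      _ = L ^ 3 * G'.card := by ring
  · intro t ht x hx1 hx2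
    have htG := hG'G ht
    have h1 := hn1 t htG
    rw [hm t ht] at h1
    have hκ1 : κ ≤ 1 := by
      have h2 : 60 * (1 / 4) * κ ≤ 60 * S * κ := by
        apply mul_le_mul_of_nonneg_right _ hκ
        linarith
      linarith
    have h3 := step_psi hSPSI R L t y h S δ κ ω ω' E m (σ.eval x) (σ'.eval x) x hRS hR
      (by omega) hδ hδ8 hh1 hSR hS (hGE t htG) h1 hx1 hx2 hκ hκ1 h60 (hσ t htG x hx1 hx2)
      (hσ' t htG x hx1 hx2) hD
    have h4 := step_fin L R h hs δ P hL1 hh1 hδ hP hhs2 hhs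
    have h5 : (Polynomial.C (ω' y) + (Polynomial.C (m : ℝ) -
        Polynomial.C (ω' (y + h) - ω' y) * σ') * (σ + σ') *
        Polynomial.C (1 / (h : ℝ))).eval x =
        ω' y + (m - (ω' (y + h) - ω' y) * σ'.eval x) * (σ.eval x + σ'.eval x) / h := by
      simp only [Polynomial.eval_add, Polynomial.eval_mul, Polynomial.eval_sub,
        Polynomial.eval_C]
      ring
    rw [h5]
    exact h3.trans h4

theorem thm_STEP (hPAIR : St_PAIR) (hLEVD : St_LEVD) (hSQ : St_SQ) (hSTH : St_STH)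
    (hSPSI : St_SPSI) : St_STEP := by
  intro k e
  refine ⟨2 * e + 20, fun B => ?_⟩
  obtain ⟨dq, hdq⟩ := hSQ (B * (k + 1) + 2)
  refine ⟨2 * dq, 16384 * (3 * dq + 2), ?_⟩
  intro L R S δ P xc ω ω' E S0 V hL hRS hδ hC hB hk hSR hne _ hxcR hloc hdeg hRS0 hP hPS
    hVdeg hV
  have hL1 : 16384 ≤ L := by omega
  have hL0 : (16384 : ℝ) ≤ L := by exact_mod_cast hL1
  have hLp : (0 : ℝ) < L := by linarith
  obtain ⟨hδL, h60⟩ := step_num k e B L S δ hL1 hδ hC hB hk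
  have hδ2 : δ ≤ 1 / 2 := by
    have h1 : (L : ℝ) ^ (2 * e + 20) * δ ≤ 1 := (le_div_iff₀ hδ).1 hC
    have h2 : (L : ℝ) ≤ (L : ℝ) ^ (2 * e + 20) := by
      calc (L : ℝ) = (L : ℝ) ^ 1 := (pow_one _).symm
        _ ≤ (L : ℝ) ^ (2 * e + 20) := pow_le_pow_right₀ (by linarith) (by omega)
    have h3 : (L : ℝ) * δ ≤ 1 := (mul_le_mul_of_nonneg_right h2 hδ.le).trans h1
    nlinarith
  obtain ⟨hR, hS⟩ := step_base R L S δ P ω ω' E S0 (by omega) hRS hδ hδ2 hSR hP hPS hne hdeg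
  obtain ⟨hs, hsR, hs1, hs2, hs3⟩ := step_hstar L R e S δ P hL1 hR hδ hδL hSR hP hPS
  obtain ⟨hRL, h8⟩ := step_R L R e S δ hL1 hδ hSR hS hC
  obtain ⟨y, h, hh1, hh2, hh3, hcard⟩ := hPAIR R L hs S0 E (by omega) hs1 hsR hne
    (fun q hq => (hRS.sub q hq).2.1) hdeg
  have hPp : 0 < P := lt_of_le_of_lt (by positivity) hP
  obtain ⟨G, hG⟩ : ∃ G : Finset ℕ, G = S0.filter (fun t => (t, y) ∈ E ∧ (t, y + h) ∈ E) :=
    ⟨_, rfl⟩
  rw [← hG] at hcard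
  have hGS : G ⊆ S0 := by
    rw [hG]
    exact Finset.filter_subset _ _
  have hGE1 : ∀ t ∈ G, (t, y) ∈ E := by
    intro t ht
    rw [hG] at ht
    exact (Finset.mem_filter.1 ht).2.1
  have hGE2 : ∀ t ∈ G, (t, y + h) ∈ E := by
    intro t ht
    rw [hG] at ht
    exact (Finset.mem_filter.1 ht).2.2
  have hGne : G.Nonempty := by
    rw [Finset.nonempty_iff_ne_empty]
    intro h0
    rw [h0, Finset.card_empty, Nat.mul_zero] at hcard
    have := Finset.card_pos.2 hne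
    omega
  have hlc : ∀ t ∈ G, 0 < xc - ((y : ℝ) + h) ∧
      ∀ x : ℝ, (t : ℝ) ≤ x → x ≤ t + 1 → |x - xc| * L ≤ xc - ((y : ℝ) + h) := by
    intro t ht
    apply step_loc L R t xc ((y : ℝ) + h) (by omega) h8 (hloc t (hGS ht))
    have h1 := (hRS.sub (t, y + h) (hGE2 t ht)).2.2
    have h2 : R + L * (y + h) ≤ L * t := h1
    exact_mod_cast h2
  have hh0 : (0 : ℝ) ≤ h := Nat.cast_nonneg _
  have hy0 : (0 : ℝ) ≤ y := Nat.cast_nonneg _
  obtain ⟨t0, ht0⟩ := hGne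
  have hpos := (hlc t0 ht0).1
  obtain ⟨pa, hpa1, hpa2⟩ := hdq L (xc - y) (by omega) (by linarith)
  obtain ⟨pb, hpb1, hpb2⟩ := hdq L (xc - ((y : ℝ) + h)) (by omega) hpos
  obtain ⟨σ, hσ1, hσ2⟩ := step_sqp L dq R _ y xc pa hy0 hxcR hpa1 hpa2
  obtain ⟨σ', hσ'1, hσ'2⟩ := step_sqp L dq R _ ((y : ℝ) + h) xc pb (by positivity) hxcR
    hpb1 hpb2
  have hth : ∀ t ∈ G, ∃ n : ℤ,
      |(ω t - ω' y) * (Real.sqrt ((t : ℝ) - y) - Real.sqrt ((t : ℝ) - y - h)) +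
        (ω' (y + h) - ω' y) * Real.sqrt ((t : ℝ) - y - h) - n| ≤ 2 * δ ∧
      ∀ x : ℝ, (t : ℝ) ≤ x → x ≤ t + 1 →
        |(V.eval x - ω' y) * (Real.sqrt (x - y) - Real.sqrt (x - y - h)) +
          (ω' (y + h) - ω' y) * Real.sqrt (x - y - h) - n| ≤ Real.sqrt δ / 2 + 5 * δ := by
    intro t ht
    refine step_theta hSTH R L y h S δ P ω ω' E V hRS hR (by omega) hδ hh1 hPp.le ?_ hSR t
      (hGE1 t ht) (hGE2 t ht) (hV t (hGS ht))
    have h1 : (h : ℝ) ≤ hs := by exact_mod_cast hh2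
    exact (mul_le_mul_of_nonneg_right h1 (by positivity)).trans hs2
  choose! n hn1 hn2 using hth
  refine step_main hLEVD hSPSI L R e dq y h hs S δ P xc _ ω ω' E S0 G V σ σ' n hL hRS hδ hδL
    hSR hloc hRS0 hR hS hRL h8 hPp.le hPS hVdeg hV hh1 hh3 hs3 hcard hGS hGE2
    (by positivity) h60 hσ1 hσ'1 ?_ ?_ hn1 hn2
  · intro t ht x hx1 hx2
    exact hσ2 x (((hlc t ht).2 x hx1 hx2).trans (by linarith))
  · intro t ht x hx1 hx2
    rw [sub_sub]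
    exact hσ'2 x ((hlc t ht).2 x hx1 hx2)

end Pool.Agent.BSR
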