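import Pool.Agent.BSR.StB

/-!
# BSR, module STH (two resonances with close second points)
-/

set_option autoImplicit false

namespace Pool.Agent.BSR

open Finset MeasureTheory Filter Topology Pool.Agent.BSQ
open scoped BigOperators
open Classical

private lemma sth_root (c u u' d : ℝ) (_hc : 0 < c) (h0 : 0 ≤ u) (h1 : u ≤ u') (h2 : u' ≤ u + d)
    (h3 : c ≤ Real.sqrt u) :
    0 ≤ Real.sqrt u' - Real.sqrt u ∧ 2 * c * (Real.sqrt u' - Real.sqrt u) ≤ d := by
  have h4 : Real.sqrt u ≤ Real.sqrt u' := Real.sqrt_le_sqrt h1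
  have h5 : Real.sqrt u * Real.sqrt u = u := Real.mul_self_sqrt h0
  have h6 : Real.sqrt u' * Real.sqrt u' = u' := Real.mul_self_sqrt (h0.trans h1)
  have h7 : 0 ≤ Real.sqrt u' - Real.sqrt u := sub_nonneg.2 h4
  refine ⟨h7, ?_⟩
  have h8 : 2 * c * (Real.sqrt u' - Real.sqrt u) ≤
      (Real.sqrt u' + Real.sqrt u) * (Real.sqrt u' - Real.sqrt u) :=
    mul_le_mul_of_nonneg_right (by linarith) h7
  have h9 : (Real.sqrt u' + Real.sqrt u) * (Real.sqrt u' - Real.sqrt u) =
      Real.sqrt u' * Real.sqrt u' - Real.sqrt u * Real.sqrt u := by ring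
  rw [h9, h5, h6] at h8
  linarith

private lemma sth_one (a b m1 m2 X δ : ℝ) (hX : X = a - b) (h1 : |a - m1| ≤ δ)
    (h2 : |b - m2| ≤ δ) : |X - (m1 - m2)| ≤ 2 * δ := by
  rw [abs_le] at *
  rw [hX]
  constructor <;> linarith [h1.1, h1.2, h2.1, h2.2]

private lemma sth_term (a s p q P W e : ℝ) (ha : 0 < a) (hs : 0 < s) (_hW : 0 ≤ W)
    (hp : |p| * s ≤ P) (hq : 2 * a * |q| ≤ W) (hP : W * P ≤ 2 * (a * s) * e) : |p * q| ≤ e := by
  have h1 : (|p| * s) * (2 * a * |q|) ≤ P * W :=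
    mul_le_mul hp hq (by positivity) ((by positivity : 0 ≤ |p| * s).trans hp)
  have h2 : (|p| * s) * (2 * a * |q|) = 2 * (a * s) * |p * q| := by
    rw [abs_mul]
    ring
  have h3 : 2 * (a * s) * |p * q| ≤ 2 * (a * s) * e := by linarith
  exact le_of_mul_le_mul_left h3 (by positivity)

private lemma sth_two (v wt wy D kx kt rx rt m δ σ : ℝ)
    (h1 : |(wt - wy) * kt + D * rt - m| ≤ 2 * δ) (h2 : |(v - wt) * kx| ≤ σ)
    (h3 : |(wt - wy) * (kx - kt)| ≤ δ) (h4 : |D * (rx - rt)| ≤ δ) :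
    |(v - wy) * kx + D * rx - m| ≤ σ + 4 * δ := by
  have e : (v - wy) * kx + D * rx - m = ((wt - wy) * kt + D * rt - m) + (v - wt) * kx +
      (wt - wy) * (kx - kt) + D * (rx - rt) := by ring
  rw [abs_le] at *
  rw [e]
  constructor <;> linarith [h1.1, h1.2, h2.1, h2.2, h3.1, h3.2, h4.1, h4.2]

private lemma sth_base (R L : ℝ) (hR : 1 ≤ R) (hL : 1 ≤ L) :
    0 < Real.sqrt (R / L) ∧ 0 < Real.sqrt R ∧ R ≤ Real.sqrt (R / L) * Real.sqrt R * L := by
  have h0 : 0 < R / L := by positivity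
  refine ⟨Real.sqrt_pos.2 h0, Real.sqrt_pos.2 (by linarith), ?_⟩
  rw [← Real.sqrt_mul h0.le]
  have h1 : R / L ≤ Real.sqrt (R / L * R) := by
    apply Real.le_sqrt_of_sq_le
    rw [sq]
    apply mul_le_mul_of_nonneg_left _ h0.le
    exact div_le_self (by linarith) hL
  calc R = R / L * L := by field_simp
    _ ≤ _ := mul_le_mul_of_nonneg_right h1 (by linarith)

private lemma sth_dist (R L t y h : ℕ) (hL : 1 ≤ L) (hRt : R + L * (y + h) ≤ L * t) :
    (R : ℝ) / L ≤ (t : ℝ) - y - h := by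
  have h1 : ((R + L * (y + h) : ℕ) : ℝ) ≤ ((L * t : ℕ) : ℝ) := by exact_mod_cast hRt
  push_cast at h1
  have hL' : (0 : ℝ) < L := by exact_mod_cast hL
  rw [div_le_iff₀ hL']
  linarith

theorem thm_STH : St_STH := by
  intro R L t y h S δ P wt wy wyh v x m1 m2 hR hL hδ hh hRt hP hhP hSL hwt hwy hwyh hr1 hr2 hx1
    hx2 hv
  have hR' : (1 : ℝ) ≤ R := by exact_mod_cast hR
  have hL' : (1 : ℝ) ≤ L := by exact_mod_cast hL
  have hh0 : (0 : ℝ) ≤ h := Nat.cast_nonneg h
  obtain ⟨ha, hs, hA⟩ := sth_base R L hR' hL'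
  have hd := sth_dist R L t y h hL hRt
  have hRL : 0 < (R : ℝ) / L := by positivity
  have e1 : (t : ℝ) - ((y + h : ℕ) : ℝ) = (t : ℝ) - y - h := by
    push_cast
    ring
  rw [e1] at hr2
  push_cast
  -- first part
  have hone : |(wt - wy) * (Real.sqrt ((t : ℝ) - y) - Real.sqrt ((t : ℝ) - y - h)) +
      (wyh - wy) * Real.sqrt ((t : ℝ) - y - h) - ((m1 : ℝ) - m2)| ≤ 2 * δ :=
    sth_one _ _ _ _ _ _ (by ring) hr1 hr2
  refine ⟨hone, ?_⟩
  -- second part
  have hb : Real.sqrt (R / L) ≤ Real.sqrt ((t : ℝ) - y - h) := Real.sqrt_le_sqrt hd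
  have hb' : Real.sqrt (R / L) ≤ Real.sqrt (x - y - h) := Real.sqrt_le_sqrt (by linarith)
  have hb'' : Real.sqrt (R / L) ≤ Real.sqrt ((t : ℝ) - y) := Real.sqrt_le_sqrt (by linarith)
  have k1 := sth_root _ (x - y - h) (x - y) h ha (by linarith) (by linarith) (by linarith) hb'
  have k2 := sth_root _ ((t : ℝ) - y) (x - y) 1 ha (by linarith) (by linarith) (by linarith) hb''
  have k3 := sth_root _ ((t : ℝ) - y - h) (x - y - h) 1 ha (by linarith) (by linarith)
    (by linarith) hb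
  have hD : |wyh - wy| * Real.sqrt R ≤ 2 * S := by
    have h1 : |wyh - wy| ≤ |wyh| + |wy| := abs_sub wyh wy
    have h2 := mul_le_mul_of_nonneg_right h1 hs.le
    rw [add_mul] at h2
    linarith
  have hD2 : |wt - wy| * Real.sqrt R ≤ 2 * S := by
    have h1 : |wt - wy| ≤ |wt| + |wy| := abs_sub wt wy
    have h2 := mul_le_mul_of_nonneg_right h1 hs.le
    rw [add_mul] at h2
    linarith
  have hv' : |v - wt| * Real.sqrt R ≤ P := by rwa [abs_sub_comm]
  have hSA : S ≤ Real.sqrt (R / L) * Real.sqrt R * δ := by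
    have h1 : S * L ≤ (Real.sqrt (R / L) * Real.sqrt R * δ) * L := by
      calc S * L ≤ δ * R := hSL
        _ ≤ δ * (Real.sqrt (R / L) * Real.sqrt R * L) := mul_le_mul_of_nonneg_left hA hδ.le
        _ = _ := by ring
    exact le_of_mul_le_mul_right h1 (by linarith)
  have hPA : h * P ≤ Real.sqrt (R / L) * Real.sqrt R * Real.sqrt δ := by
    have h1 : (h * P) * L ≤ (Real.sqrt (R / L) * Real.sqrt R * Real.sqrt δ) * L := by
      calc ((h : ℝ) * P) * L = h * (L * P) := by ring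
        _ ≤ Real.sqrt δ * R := hhP
        _ ≤ Real.sqrt δ * (Real.sqrt (R / L) * Real.sqrt R * L) :=
          mul_le_mul_of_nonneg_left hA (Real.sqrt_nonneg _)
        _ = _ := by ring
    exact le_of_mul_le_mul_right h1 (by linarith)
  have t1 : |(v - wt) * (Real.sqrt (x - y) - Real.sqrt (x - y - h))| ≤ Real.sqrt δ / 2 := by
    refine sth_term _ _ _ _ P h _ ha hs hh0 hv' ?_ ?_
    · rw [abs_of_nonneg k1.1]
      exact k1.2
    · linarith
  have q2 : 2 * Real.sqrt (R / L) * |(Real.sqrt (x - y) - Real.sqrt (x - y - h)) -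
      (Real.sqrt ((t : ℝ) - y) - Real.sqrt ((t : ℝ) - y - h))| ≤ 1 := by
    have h1 : |(Real.sqrt (x - y) - Real.sqrt (x - y - h)) -
        (Real.sqrt ((t : ℝ) - y) - Real.sqrt ((t : ℝ) - y - h))| ≤
        max (Real.sqrt (x - y) - Real.sqrt ((t : ℝ) - y))
          (Real.sqrt (x - y - h) - Real.sqrt ((t : ℝ) - y - h)) := by
      rw [abs_le]
      constructor
      · have := le_max_right (Real.sqrt (x - y) - Real.sqrt ((t : ℝ) - y))
          (Real.sqrt (x - y - h) - Real.sqrt ((t : ℝ) - y - h))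
        linarith [k2.1]
      · have := le_max_left (Real.sqrt (x - y) - Real.sqrt ((t : ℝ) - y))
          (Real.sqrt (x - y - h) - Real.sqrt ((t : ℝ) - y - h))
        linarith [k3.1]
    refine (mul_le_mul_of_nonneg_left h1 (by positivity)).trans ?_
    rcases max_choice (Real.sqrt (x - y) - Real.sqrt ((t : ℝ) - y))
      (Real.sqrt (x - y - h) - Real.sqrt ((t : ℝ) - y - h)) with h2 | h2
    · rw [h2]
      exact k2.2
    · rw [h2]
      exact k3.2
  have t2 : |(wt - wy) * ((Real.sqrt (x - y) - Real.sqrt (x - y - h)) -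
      (Real.sqrt ((t : ℝ) - y) - Real.sqrt ((t : ℝ) - y - h)))| ≤ δ := by
    refine sth_term _ _ _ _ (2 * S) 1 _ ha hs zero_le_one hD2 q2 ?_
    linarith
  have t3 : |(wyh - wy) * (Real.sqrt (x - y - h) - Real.sqrt ((t : ℝ) - y - h))| ≤ δ := by
    refine sth_term _ _ _ _ (2 * S) 1 _ ha hs zero_le_one hD ?_ ?_
    · rw [abs_of_nonneg k3.1]
      exact k3.2
    · linarith
  have := sth_two v wt wy (wyh - wy) _ _ _ _ _ δ _ hone t1 t2 t3
  linarith

end Pool.Agent.BSR
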