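import Pool.Agent.BSR.StA

/-!
# BSR, module STRL: the local structure lemma
-/

set_option autoImplicit false

namespace Pool.Agent.BSR

open Finset MeasureTheory Filter Topology Pool.Agent.BSQ
open scoped BigOperators
open Classical

private theorem strl_alg {ι : Type*} (A : Finset ι) (f w : ι → ℂ) (a : ℂ) (H : ℝ) (hH : 0 < H)
    (hc : (A.card : ℝ) ≤ H) (hw : ∀ u, ‖w u‖ = 1)
    (ha : a = ∑ u ∈ A, f u * (starRingEnd ℂ) (w u)) :
    ∑ u ∈ A, ‖f u - a / H * w u‖ ^ 2 ≤ ∑ u ∈ A, ‖f u‖ ^ 2 - ‖a‖ ^ 2 / H := by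
  have h1 : ∀ u, ‖f u - a / H * w u‖ ^ 2 =
      ‖f u‖ ^ 2 + ‖a‖ ^ 2 / H ^ 2 -
        2 * ((starRingEnd ℂ) a / H * (f u * (starRingEnd ℂ) (w u))).re := by
    intro u
    rw [← Complex.normSq_eq_norm_sq, Complex.normSq_sub, Complex.normSq_eq_norm_sq,
      Complex.normSq_eq_norm_sq]
    congr 1
    · congr 1
      rw [norm_mul, hw, mul_one, norm_div, div_pow, Complex.norm_real, Real.norm_eq_abs, sq_abs]
    · congr 2
      rw [map_mul, map_div₀, Complex.conj_ofReal]
      ring
  rw [Finset.sum_congr rfl fun u _ => h1 u, Finset.sum_sub_distrib, Finset.sum_add_distrib,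
    Finset.sum_const, ← Finset.mul_sum, ← Complex.re_sum, ← Finset.mul_sum, ← ha, nsmul_eq_mul]
  have h2 : ((starRingEnd ℂ) a / (H : ℂ) * a).re = ‖a‖ ^ 2 / H := by
    have h3 : (starRingEnd ℂ) a / (H : ℂ) * a = ((‖a‖ ^ 2 / H : ℝ) : ℂ) := by
      have h4 : (starRingEnd ℂ) a * a = ((‖a‖ ^ 2 : ℝ) : ℂ) := by
        rw [mul_comm, Complex.mul_conj, Complex.normSq_eq_norm_sq]
      rw [div_mul_eq_mul_div, h4]
      push_cast
      rfl
    rw [h3, Complex.ofReal_re]
  rw [h2]
  have h5 : (A.card : ℝ) * (‖a‖ ^ 2 / H ^ 2) ≤ ‖a‖ ^ 2 / H := by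
    calc (A.card : ℝ) * (‖a‖ ^ 2 / H ^ 2) ≤ H * (‖a‖ ^ 2 / H ^ 2) :=
          mul_le_mul_of_nonneg_right hc (by positivity)
      _ = ‖a‖ ^ 2 / H := by field_simp
  linarith

private theorem strl_cs {ι : Type*} (A : Finset ι) (f w : ι → ℂ) (a : ℂ) (H : ℝ) (hH : 0 < H)
    (hc : (A.card : ℝ) ≤ H) (hw : ∀ u, ‖w u‖ = 1) (hf : ∑ u ∈ A, ‖f u‖ ^ 2 ≤ H)
    (ha : a = ∑ u ∈ A, f u * (starRingEnd ℂ) (w u)) : ‖a / H‖ ≤ 1 := by
  have h1 : ‖a‖ ≤ ∑ u ∈ A, ‖f u‖ := by
    rw [ha]
    refine (norm_sum_le _ _).trans (le_of_eq ?_)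
    apply Finset.sum_congr rfl
    intro u _
    rw [norm_mul, RCLike.norm_conj, hw, mul_one]
  have h2 : (∑ u ∈ A, ‖f u‖) ^ 2 ≤ (A.card : ℝ) * ∑ u ∈ A, ‖f u‖ ^ 2 :=
    sq_sum_le_card_mul_sum_sq
  have h3 : ‖a‖ ^ 2 ≤ H ^ 2 := by
    calc ‖a‖ ^ 2 ≤ (∑ u ∈ A, ‖f u‖) ^ 2 := by gcongr
      _ ≤ (A.card : ℝ) * ∑ u ∈ A, ‖f u‖ ^ 2 := h2
      _ ≤ H * H := by
        apply mul_le_mul hc hf _ hH.le
        exact Finset.sum_nonneg fun u _ => by positivity
      _ = H ^ 2 := by ring
  have h4 : ‖a‖ ≤ H := le_of_sq_le_sq h3 hH.le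
  rw [norm_div, Complex.norm_real, Real.norm_eq_abs, abs_of_pos hH]
  exact (div_le_one hH).2 h4

private theorem strl_card {P : ℕ} [NeZero P] (H t : ℕ) (hH : 1 ≤ H) :
    (univ.filter (fun u : ZMod P => tl H u = t)).card ≤ H := by
  have h1 : (univ.filter (fun u : ZMod P => tl H u = t)).card ≤ (range H).card := by
    apply Finset.card_le_card_of_injOn (fun u => u.val % H)
    · intro u _
      simp only [Finset.coe_range, Set.mem_Iio]
      exact Nat.mod_lt _ hH
    · intro u hu v hv huv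
      have hu := (Finset.mem_filter.1 (Finset.mem_coe.1 hu)).2
      have hv := (Finset.mem_filter.1 (Finset.mem_coe.1 hv)).2
      unfold tl at hu hv
      apply ZMod.val_injective P
      have h1 := Nat.div_add_mod u.val H
      have h2 := Nat.div_add_mod v.val H
      simp only at huv
      rw [hu, huv] at h1
      rw [hv] at h2
      exact h1.symm.trans h2
  simpa using h1

private theorem strl_ch {P : ℕ} [NeZero P] (z u : ZMod P) :
    ‖ch z u‖ = 1 ∧ ch (-z) u = (starRingEnd ℂ) (ch z u) := by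
  unfold ch
  constructor
  · exact AddChar.norm_apply _ _
  · rw [neg_mul, AddChar.map_neg_eq_conj]

private theorem strl_key {P : ℕ} [NeZero P] (H : ℕ) (η : ℝ) (f : ZMod P → ℂ) (hH : 1 ≤ H)
    (hη : 0 < η) (hf : TileE H f) (k : ℕ) :
    ∃ (z : ℕ → ℕ → ZMod P) (c : ℕ → ℕ → ℂ) (f' : ZMod P → ℂ),
      (∀ i t, ‖c i t‖ ≤ 1) ∧ TileE H f' ∧
      (∀ t, (∀ w, ‖fh H f' w t‖ ≤ η * H) ∨
        ∑ u ∈ univ.filter (fun u : ZMod P => tl H u = t), ‖f' u‖ ^ 2 ≤ H - k * (η ^ 2 * H)) ∧
      ∀ u : ZMod P, f u = f' u + ∑ i ∈ range k, c i (tl H u) * ch (z i (tl H u)) u := by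
  have hH0 : (0 : ℝ) < H := by exact_mod_cast hH
  induction k with
  | zero =>
    exact ⟨fun _ _ => 0, fun _ _ => 0, f, by simp, hf, fun t => Or.inr (by simpa using hf t),
      by simp⟩
  | succ k ih =>
    obtain ⟨z, c, f', hc, hT, hE, hdec⟩ := ih
    -- the choice in every tile
    have hchoice : ∀ t : ℕ, ∃ (w : ZMod P) (b : ℂ), ((∀ w', ‖fh H f' w' t‖ ≤ η * H) ∧ b = 0) ∨
        (η * H < ‖fh H f' w t‖ ∧ b = fh H f' w t / H) := by
      intro t
      by_cases h : ∀ w', ‖fh H f' w' t‖ ≤ η * H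
      · exact ⟨0, 0, Or.inl ⟨h, rfl⟩⟩
      · push Not at h
        obtain ⟨w, hw⟩ := h
        exact ⟨w, _, Or.inr ⟨hw, rfl⟩⟩
    choose z0 b0 hzb using hchoice
    have hfh : ∀ w t, fh H f' w t = ∑ u ∈ univ.filter (fun u : ZMod P => tl H u = t),
        f' u * (starRingEnd ℂ) (ch w u) := by
      intro w t
      unfold fh
      exact Finset.sum_congr rfl fun u _ => by rw [(strl_ch w u).2]
    have hcard : ∀ t, ((univ.filter (fun u : ZMod P => tl H u = t)).card : ℝ) ≤ H := by
      intro t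
      exact_mod_cast strl_card H t hH
    have hb0 : ∀ t, (∀ w', ‖fh H f' w' t‖ ≤ η * H) → b0 t = 0 := by
      intro t h
      rcases hzb t with h1 | h1
      · exact h1.2
      · exact absurd (h (z0 t)) (not_le.2 h1.1)
    have hstep : ∀ t, ∑ u ∈ univ.filter (fun u : ZMod P => tl H u = t),
        ‖f' u - b0 (tl H u) * ch (z0 (tl H u)) u‖ ^ 2 ≤
        ∑ u ∈ univ.filter (fun u : ZMod P => tl H u = t), ‖f' u‖ ^ 2 - ‖b0 t‖ ^ 2 * H := by
      intro t
      rcases hzb t with h1 | h1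
      · rw [h1.2, norm_zero, zero_pow two_ne_zero, zero_mul, sub_zero]
        refine le_of_eq (Finset.sum_congr rfl fun u hu => ?_)
        rw [(Finset.mem_filter.1 hu).2, h1.2, zero_mul, sub_zero]
      · have h4 := strl_alg (univ.filter (fun u : ZMod P => tl H u = t)) f' (ch (z0 t))
          (fh H f' (z0 t) t) H hH0 (hcard t) (fun u => (strl_ch (z0 t) u).1) (hfh (z0 t) t)
        have h5 : ‖b0 t‖ ^ 2 * H = ‖fh H f' (z0 t) t‖ ^ 2 / H := by
          rw [h1.2, norm_div, div_pow, Complex.norm_natCast]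
          field_simp
        rw [h5]
        refine le_trans (le_of_eq ?_) h4
        refine Finset.sum_congr rfl fun u hu => ?_
        rw [(Finset.mem_filter.1 hu).2, h1.2]
        norm_num
    refine ⟨Function.update z k z0, Function.update c k b0,
      fun u => f' u - b0 (tl H u) * ch (z0 (tl H u)) u, ?_, ?_, ?_, ?_⟩
    · intro i t
      by_cases hik : i = k
      · subst hik
        rw [Function.update_self]
        rcases hzb t with h1 | h1
        · rw [h1.2, norm_zero]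
          exact zero_le_one
        · have h4 := strl_cs (univ.filter (fun u : ZMod P => tl H u = t)) f' (ch (z0 t))
            (fh H f' (z0 t) t) H hH0 (hcard t) (fun u => (strl_ch (z0 t) u).1) (hT t)
            (hfh (z0 t) t)
          rw [h1.2]
          simpa using h4
      · rw [Function.update_of_ne hik]
        exact hc i t
    · intro t
      have h5 : (0 : ℝ) ≤ ‖b0 t‖ ^ 2 * H := by positivity
      have h6 := hstep t
      have h7 := hT t
      simp only at h6 ⊢
      linarith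
    · intro t
      by_cases hd : ∀ w', ‖fh H f' w' t‖ ≤ η * H
      · left
        intro w
        have h8 : fh H (fun u => f' u - b0 (tl H u) * ch (z0 (tl H u)) u) w t = fh H f' w t := by
          unfold fh
          refine Finset.sum_congr rfl fun u hu => ?_
          change (f' u - b0 (tl H u) * ch (z0 (tl H u)) u) * ch (-w) u = _
          rw [(Finset.mem_filter.1 hu).2, hb0 t hd, zero_mul, sub_zero]
        rw [h8]
        exact hd w
      · right
        have h1 : η * H < ‖fh H f' (z0 t) t‖ ∧ b0 t = fh H f' (z0 t) t / H := by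
          rcases hzb t with h1 | h1
          · exact absurd h1.1 hd
          · exact h1
        have h2 := (hE t).resolve_left hd
        have h3 := hstep t
        have h4 : η ^ 2 * H ≤ ‖b0 t‖ ^ 2 * H := by
          have h5 : η ≤ ‖b0 t‖ := by
            rw [h1.2, norm_div, Complex.norm_natCast, le_div_iff₀ hH0]
            exact h1.1.le
          gcongr
        push_cast
        linarith
    · intro u
      rw [Finset.sum_range_succ, Function.update_self, Function.update_self, hdec u]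
      have h10 : ∑ i ∈ range k, Function.update c k b0 i (tl H u) *
          ch (Function.update z k z0 i (tl H u)) u =
          ∑ i ∈ range k, c i (tl H u) * ch (z i (tl H u)) u := by
        refine Finset.sum_congr rfl fun i hi => ?_
        have hik : i ≠ k := (Finset.mem_range.1 hi).ne
        rw [Function.update_of_ne hik, Function.update_of_ne hik]
      rw [h10]
      ring

theorem thm_STRL : St_STRL := by
  intro P H _ η f hH hη _ hf
  have hH0 : (0 : ℝ) < H := by exact_mod_cast hH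
  obtain ⟨z, c, f', hc, hT, hE, hdec⟩ := strl_key H η f hH hη hf ⌊1 / η ^ 2⌋₊
  refine ⟨⌊1 / η ^ 2⌋₊, z, c, f', Nat.floor_le (by positivity), hc, ⟨hT, fun w t => ?_⟩, hdec⟩
  rcases hE t with h | h
  · exact h w
  · by_contra hcon
    push Not at hcon
    have hcard : ((univ.filter (fun u : ZMod P => tl H u = t)).card : ℝ) ≤ H := by
      exact_mod_cast strl_card H t hH
    have hfh : fh H f' w t = ∑ u ∈ univ.filter (fun u : ZMod P => tl H u = t),
        f' u * (starRingEnd ℂ) (ch w u) := by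
      unfold fh
      exact Finset.sum_congr rfl fun u _ => by rw [(strl_ch w u).2]
    have h4 := strl_alg (univ.filter (fun u : ZMod P => tl H u = t)) f' (ch w)
      (fh H f' w t) H hH0 hcard (fun u => (strl_ch w u).1) hfh
    have h5 := le_trans (Finset.sum_nonneg fun u _ => by positivity) h4
    have h6 : η ^ 2 * H < ‖fh H f' w t‖ ^ 2 / H := by
      rw [lt_div_iff₀ hH0]
      have h7 : (η * H) ^ 2 < ‖fh H f' w t‖ ^ 2 :=
        pow_lt_pow_left₀ hcon (by positivity) two_ne_zero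
      calc η ^ 2 * H * H = (η * H) ^ 2 := by ring
        _ < _ := h7
    have h8 : 1 / η ^ 2 < (⌊1 / η ^ 2⌋₊ : ℝ) + 1 := Nat.lt_floor_add_one _
    have h9 : 0 < η ^ 2 * H := by positivity
    have h10 : (H : ℝ) = 1 / η ^ 2 * (η ^ 2 * H) := by field_simp
    have h11 : 1 / η ^ 2 * (η ^ 2 * H) < ((⌊1 / η ^ 2⌋₊ : ℝ) + 1) * (η ^ 2 * H) :=
      mul_lt_mul_of_pos_right h8 h9
    linarith

end Pool.Agent.BSR
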