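import Pool.Agent.BSR.StB
import Pool.Agent.BSQ.FB

/-!
# BSR, module STS: structured functions against structured functions (helper25)
-/

set_option autoImplicit false

namespace Pool.Agent.BSR

open Finset MeasureTheory Filter Topology Pool.Agent.BSQ
open scoped BigOperators
open Classical

section sts

variable {P : ℕ} [NeZero P]

private theorem sts_ee_add (x y : ℝ) : ee x * ee y = ee (x + y) := by
  unfold ee
  rw [← Complex.exp_add]
  congr 1
  push_cast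
  ring

private theorem sts_ee_conj (x : ℝ) : (starRingEnd ℂ) (ee x) = ee (-x) := by
  unfold ee
  rw [← Complex.exp_conj, map_mul, Complex.conj_I, Complex.conj_ofReal]
  congr 1
  push_cast
  ring

private theorem sts_up {H T H' : ℕ} (hP : P = H * T) (x : ZMod P)
    (hx : x.val % H + H' ≤ H) {r : ℕ} (hr : r < H') : tl H (x + (r : ZMod P)) = tl H x := by
  have hv : x.val < H * T := by
    rw [← hP]
    exact ZMod.val_lt x
  have h1 : x.val / H < T := Nat.div_lt_of_lt_mul hv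
  have h2 := Nat.div_add_mod x.val H
  have h3 : H * (x.val / H) + H ≤ H * T := by
    calc H * (x.val / H) + H = H * (x.val / H + 1) := by ring
      _ ≤ H * T := Nat.mul_le_mul_left H h1
  have hlt : x.val + r < P := by
    generalize H * T = M at hP h3
    omega
  have hrP : r < P := by omega
  unfold tl
  rw [ZMod.val_add_of_lt (by rw [ZMod.val_cast_of_lt hrP]; exact hlt), ZMod.val_cast_of_lt hrP]
  apply Nat.div_eq_of_lt_le
  · rw [mul_comm]
    omega
  · have h4 : (x.val / H + 1) * H = H * (x.val / H) + H := by ring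
    rw [h4]
    omega

private theorem sts_down {H H' : ℕ} (hH : 1 ≤ H) (x : ZMod P)
    (hx : H' ≤ x.val % H + 1) {r : ℕ} (hr : r < H') : tl H (x - (r : ZMod P)) = tl H x := by
  have h2 := Nat.div_add_mod x.val H
  have hm := Nat.mod_lt x.val (show 0 < H by omega)
  have hrx : r ≤ x.val := by omega
  have hrP : r < P := hrx.trans_lt (ZMod.val_lt x)
  unfold tl
  rw [ZMod.val_sub (by rw [ZMod.val_cast_of_lt hrP]; exact hrx), ZMod.val_cast_of_lt hrP]
  apply Nat.div_eq_of_lt_le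
  · rw [mul_comm]
    omega
  · have h4 : (x.val / H + 1) * H = H * (x.val / H) + H := by ring
    rw [h4]
    omega

/-- points with a given set of residues -/
private theorem sts_card {H T : ℕ} (hP : P = H * T) (S : Finset ℕ) :
    (univ.filter fun x : ZMod P => x.val % H ∈ S).card ≤ T * S.card := by
  have h1 : (univ.filter fun x : ZMod P => x.val % H ∈ S).card ≤ (range T ×ˢ S).card := by
    refine card_le_card_of_injOn (fun x => (x.val / H, x.val % H)) (fun x hx => ?_)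
      (fun x _ y _ hxy => ?_)
    · have hx' : x.val % H ∈ S := (mem_filter.1 hx).2
      have hv : x.val < H * T := by
        rw [← hP]
        exact ZMod.val_lt x
      exact mem_product.2 ⟨mem_range.2 (Nat.div_lt_of_lt_mul hv), hx'⟩
    · have h2 : x.val / H = y.val / H := congrArg Prod.fst hxy
      have h3 : x.val % H = y.val % H := congrArg Prod.snd hxy
      apply ZMod.val_injective
      rw [← Nat.div_add_mod x.val H, ← Nat.div_add_mod y.val H, h2, h3]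
  rwa [card_product, card_range] at h1

/-- the inner sum -/
private noncomputable def sts_F (H H' : ℕ) (z z' : ℕ → ZMod P) (c c' : ℕ → ℂ) (D : ℕ → ℝ)
    (y : ZMod P) (i : ℕ) : ℂ :=
  ∑ k ∈ Ico (i * H') ((i + 1) * H'), (D k : ℂ) *
    ((c (tl H (y + (k : ZMod P))) * ch (z (tl H (y + (k : ZMod P)))) (y + (k : ZMod P))) *
     (c' (tl H (y - (k : ZMod P))) * ch (z' (tl H (y - (k : ZMod P)))) (y - (k : ZMod P))))

private theorem sts_triv (f4 : ∀ b u : ZMod P, ‖ch b u‖ = 1) (H H' : ℕ) (z z' : ℕ → ZMod P)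
    (c c' : ℕ → ℂ) (D : ℕ → ℝ) (hc : ∀ t, ‖c t‖ ≤ 1) (hc' : ∀ t, ‖c' t‖ ≤ 1) (y : ZMod P)
    (i : ℕ) : ‖sts_F H H' z z' c c' D y i‖ ≤ ∑ k ∈ Ico (i * H') ((i + 1) * H'), |D k| := by
  unfold sts_F
  refine (norm_sum_le _ _).trans (sum_le_sum fun k _ => ?_)
  rw [norm_mul, norm_mul, norm_mul, norm_mul, f4, f4, mul_one, mul_one, Complex.norm_real,
    Real.norm_eq_abs]
  have h1 : ‖c (tl H (y + (k : ZMod P)))‖ * ‖c' (tl H (y - (k : ZMod P)))‖ ≤ 1 :=
    mul_le_one₀ (hc _) (norm_nonneg _) (hc' _)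
  calc |D k| * (‖c (tl H (y + (k : ZMod P)))‖ * ‖c' (tl H (y - (k : ZMod P)))‖) ≤ |D k| * 1 :=
        mul_le_mul_of_nonneg_left h1 (abs_nonneg _)
    _ = |D k| := mul_one _

private theorem sts_term (f1 : ∀ (b : ZMod P) (k : ℕ), ch b (k : ZMod P) = ee ((b.val : ℝ) * k / P))
    (f2 : ∀ b u v : ZMod P, ch b (u + v) = ch b u * ch b v)
    (f5 : ∀ b u : ZMod P, ch (-b) u = (starRingEnd ℂ) (ch b u)) (b b' y : ZMod P) (k : ℕ) :
    ch b (y + (k : ZMod P)) * ch b' (y - (k : ZMod P)) =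
      ch b y * ch b' y * ee ((k : ℝ) * (((b.val : ℝ) - (b'.val : ℝ)) / P)) := by
  have h1 : ch b' (-(k : ZMod P)) = ee (-((b'.val : ℝ) * k / P)) := by
    have h2 : ch b' (-(k : ZMod P)) = ch (-b') (k : ZMod P) := by
      unfold ch
      rw [mul_neg, neg_mul]
    rw [h2, f5, f1, sts_ee_conj]
  rw [f2, sub_eq_add_neg, f2, h1, f1]
  have h3 : ee ((b.val : ℝ) * k / P) * ee (-((b'.val : ℝ) * k / P)) =
      ee ((k : ℝ) * (((b.val : ℝ) - (b'.val : ℝ)) / P)) := by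
    rw [sts_ee_add]
    congr 1
    ring
  rw [← h3]
  ring

private theorem sts_good (f1 : ∀ (b : ZMod P) (k : ℕ), ch b (k : ZMod P) = ee ((b.val : ℝ) * k / P))
    (f2 : ∀ b u v : ZMod P, ch b (u + v) = ch b u * ch b v)
    (f4 : ∀ b u : ZMod P, ‖ch b u‖ = 1)
    (f5 : ∀ b u : ZMod P, ch (-b) u = (starRingEnd ℂ) (ch b u))
    {H T H' : ℕ} (hP : P = H * T) (hH : 1 ≤ H) (z z' : ℕ → ZMod P)
    (c c' : ℕ → ℂ) (D : ℕ → ℝ) (hc : ∀ t, ‖c t‖ ≤ 1) (hc' : ∀ t, ‖c' t‖ ≤ 1) (y : ZMod P)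
    (i : ℕ) (hu : (y + ((i * H' : ℕ) : ZMod P)).val % H + H' ≤ H)
    (hd : H' ≤ (y - ((i * H' : ℕ) : ZMod P)).val % H + 1) :
    ‖sts_F H H' z z' c c' D y i‖ ≤ ‖∑ k ∈ Ico (i * H') ((i + 1) * H'), (D k : ℂ) * ee ((k : ℝ) *
      ((((z (tl H (y + ((i * H' : ℕ) : ZMod P)))).val : ℝ) -
          ((z' (tl H (y - ((i * H' : ℕ) : ZMod P)))).val : ℝ)) / P))‖ := by
  set t : ℕ := tl H (y + ((i * H' : ℕ) : ZMod P)) with ht
  set t' : ℕ := tl H (y - ((i * H' : ℕ) : ZMod P)) with ht'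
  have h1 : sts_F H H' z z' c c' D y i = (c t * c' t' * (ch (z t) y * ch (z' t') y)) *
      ∑ k ∈ Ico (i * H') ((i + 1) * H'), (D k : ℂ) *
        ee ((k : ℝ) * ((((z t).val : ℝ) - ((z' t').val : ℝ)) / P)) := by
    unfold sts_F
    rw [mul_sum]
    refine sum_congr rfl fun k hk => ?_
    rw [mem_Ico] at hk
    obtain ⟨r, rfl⟩ := Nat.exists_eq_add_of_le hk.1
    have hr : r < H' := by
      have h2 : (i + 1) * H' = i * H' + H' := by ring
      omega
    have e1 : tl H (y + ((i * H' + r : ℕ) : ZMod P)) = t := by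
      rw [Nat.cast_add, ← add_assoc]
      exact sts_up hP _ hu hr
    have e2 : tl H (y - ((i * H' + r : ℕ) : ZMod P)) = t' := by
      rw [Nat.cast_add, ← sub_sub]
      exact sts_down hH _ hd hr
    have e3 := sts_term f1 f2 f5 (z t) (z' t') y (i * H' + r)
    rw [e1, e2]
    calc (D (i * H' + r) : ℂ) * (c t * ch (z t) (y + ((i * H' + r : ℕ) : ZMod P)) *
          (c' t' * ch (z' t') (y - ((i * H' + r : ℕ) : ZMod P))))
        = (D (i * H' + r) : ℂ) * (c t * c' t') * (ch (z t) (y + ((i * H' + r : ℕ) : ZMod P)) *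
          ch (z' t') (y - ((i * H' + r : ℕ) : ZMod P))) := by ring
      _ = _ := by
        rw [e3]
        ring
  rw [h1, norm_mul, norm_mul, norm_mul, norm_mul, f4, f4, mul_one, mul_one]
  have h2 : ‖c t‖ * ‖c' t'‖ ≤ 1 := mul_le_one₀ (hc _) (norm_nonneg _) (hc' _)
  calc ‖c t‖ * ‖c' t'‖ * ‖_‖ ≤ 1 * ‖_‖ := mul_le_mul_of_nonneg_right h2 (norm_nonneg _)
    _ = _ := one_mul _

/-- the sum over `y` of the indicator of a shifted residue condition -/
private theorem sts_shift {H T : ℕ} (hP : P = H * T) (S : Finset ℕ) (q : ZMod P → Prop) [DecidablePred q]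
    (hq : ∀ x, q x → x.val % H ∈ S) (e : ZMod P ≃ ZMod P) (m0 : ℝ) (hm0 : 0 ≤ m0) :
    ∑ y : ZMod P, (if q (e y) then m0 else 0) ≤ T * S.card * m0 := by
  rw [Fintype.sum_equiv e (fun y => if q (e y) then m0 else 0) (fun x => if q x then m0 else 0)
    (fun y => rfl), ← sum_filter, sum_const, nsmul_eq_mul]
  refine mul_le_mul_of_nonneg_right ?_ hm0
  have h1 : (univ.filter fun x : ZMod P => q x).card ≤ T * S.card := by
    refine (card_le_card ?_).trans (sts_card hP S)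
    intro x hx
    rw [mem_filter] at hx ⊢
    exact ⟨hx.1, hq x hx.2⟩
  exact_mod_cast h1

/-- one window -/
private theorem sts_window (f1 : ∀ (b : ZMod P) (k : ℕ), ch b (k : ZMod P) = ee ((b.val : ℝ) * k / P))
    (f2 : ∀ b u v : ZMod P, ch b (u + v) = ch b u * ch b v)
    (f4 : ∀ b u : ZMod P, ‖ch b u‖ = 1)
    (f5 : ∀ b u : ZMod P, ch (-b) u = (starRingEnd ℂ) (ch b u))
    {H T H' : ℕ} (hP : P = H * T) (hH' : 1 ≤ H') (hHH : 2 * H' ≤ H) (z z' : ℕ → ZMod P)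
    (c c' : ℕ → ℂ) (D : ℕ → ℝ) (hc : ∀ t, ‖c t‖ ≤ 1) (hc' : ∀ t, ‖c' t‖ ≤ 1)
    (i : ℕ) (σ m0 : ℝ) (hσ0 : 0 ≤ σ) (hm0 : ∑ k ∈ Ico (i * H') ((i + 1) * H'), |D k| ≤ m0)
    (bad : ℝ → Prop) (hσ : ∀ θ : ℝ, ¬ bad θ →
      ‖∑ k ∈ Ico (i * H') ((i + 1) * H'), (D k : ℂ) * ee ((k : ℝ) * θ)‖ ≤ σ) :
    ∑ y : ZMod P, ‖sts_F H H' z z' c c' D y i‖ ≤ P * σ + 2 * (T * H' * m0) +
      m0 * ∑ y : ZMod P, (if bad ((((z (tl H (y + ((i * H' : ℕ) : ZMod P)))).val : ℝ) -
          ((z' (tl H (y - ((i * H' : ℕ) : ZMod P)))).val : ℝ)) / P) then (1 : ℝ) else 0) := by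
  have hm00 : 0 ≤ m0 := (sum_nonneg fun _ _ => abs_nonneg _).trans hm0
  have hpt : ∀ y : ZMod P, ‖sts_F H H' z z' c c' D y i‖ ≤ σ +
      ((if ¬ ((y + ((i * H' : ℕ) : ZMod P)).val % H + H' ≤ H) then m0 else 0) +
       (if ¬ (H' ≤ (y - ((i * H' : ℕ) : ZMod P)).val % H + 1) then m0 else 0)) +
      m0 * (if bad ((((z (tl H (y + ((i * H' : ℕ) : ZMod P)))).val : ℝ) -
          ((z' (tl H (y - ((i * H' : ℕ) : ZMod P)))).val : ℝ)) / P) then (1 : ℝ) else 0) := by
    intro y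
    have ht := (sts_triv f4 H H' z z' c c' D hc hc' y i).trans hm0
    by_cases h1 : (y + ((i * H' : ℕ) : ZMod P)).val % H + H' ≤ H
    · by_cases h2 : H' ≤ (y - ((i * H' : ℕ) : ZMod P)).val % H + 1
      · by_cases h3 : bad ((((z (tl H (y + ((i * H' : ℕ) : ZMod P)))).val : ℝ) -
          ((z' (tl H (y - ((i * H' : ℕ) : ZMod P)))).val : ℝ)) / P)
        · rw [if_neg (not_not.2 h1), if_neg (not_not.2 h2), if_pos h3]
          linarith
        · rw [if_neg (not_not.2 h1), if_neg (not_not.2 h2), if_neg h3]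
          have h4 := (sts_good f1 f2 f4 f5 hP (by omega) z z' c c' D hc hc' y i h1 h2).trans
            (hσ _ h3)
          linarith
      · rw [if_neg (not_not.2 h1), if_pos h2]
        have h5 : 0 ≤ m0 * (if bad ((((z (tl H (y + ((i * H' : ℕ) : ZMod P)))).val : ℝ) -
          ((z' (tl H (y - ((i * H' : ℕ) : ZMod P)))).val : ℝ)) / P) then (1 : ℝ) else 0) := by
          split_ifs
          · linarith
          · linarith
        linarith
    · rw [if_pos h1]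
      have h5 : 0 ≤ m0 * (if bad ((((z (tl H (y + ((i * H' : ℕ) : ZMod P)))).val : ℝ) -
          ((z' (tl H (y - ((i * H' : ℕ) : ZMod P)))).val : ℝ)) / P) then (1 : ℝ) else 0) := by
        split_ifs
        · linarith
        · linarith
      have h6 : 0 ≤ (if ¬ (H' ≤ (y - ((i * H' : ℕ) : ZMod P)).val % H + 1) then m0 else 0) := by
        split_ifs
        · exact le_rfl
        · exact hm00
      linarith
  refine (sum_le_sum fun y _ => hpt y).trans ?_
  rw [sum_add_distrib, sum_add_distrib, sum_add_distrib, ← mul_sum, sum_const, card_univ,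
    ZMod.card, nsmul_eq_mul]
  have h7 := sts_shift hP (Ico (H - H') H) (fun x => ¬ (x.val % H + H' ≤ H))
    (fun x hx => by
      rw [mem_Ico]
      have := Nat.mod_lt x.val (show 0 < H by omega)
      omega) (Equiv.addRight ((i * H' : ℕ) : ZMod P)) m0 hm00
  have h8 := sts_shift hP (range H') (fun x => ¬ (H' ≤ x.val % H + 1))
    (fun x hx => by
      rw [mem_range]
      omega) (Equiv.subRight ((i * H' : ℕ) : ZMod P)) m0 hm00
  rw [Nat.card_Ico] at h7
  rw [card_range] at h8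
  have h9 : H - (H - H') = H' := by omega
  rw [h9] at h7
  have h10 : ∑ y : ZMod P, (if ¬ ((y + ((i * H' : ℕ) : ZMod P)).val % H + H' ≤ H) then m0 else 0) ≤
      T * H' * m0 := h7
  have h11 : ∑ y : ZMod P, (if ¬ (H' ≤ (y - ((i * H' : ℕ) : ZMod P)).val % H + 1) then m0 else 0) ≤
      T * H' * m0 := h8
  linarith

end sts

theorem thm_STS : St_STS := by
  intro P H T H' i0 i1 Q _ z z' c c' D b0 b1 δ σ m0 hP hH' hHH hc hc' hσ0 hi hm0 hσ
  obtain ⟨f1, f2, -, f4, f5, -, -, -⟩ := thm_FB P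
  have hP0 : (0 : ℝ) < P := by
    have : 0 < P := NeZero.pos P
    exact_mod_cast this
  have hH0 : (0 : ℝ) < H := by
    have : 0 < H := by omega
    exact_mod_cast this
  -- the triangle inequality
  have h1 : ∑ y : ZMod P, ‖∑ i ∈ Ico i0 i1, sts_F H H' z z' c c' D y i‖ ≤
      ∑ i ∈ Ico i0 i1, ∑ y : ZMod P, ‖sts_F H H' z z' c c' D y i‖ := by
    rw [sum_comm]
    exact sum_le_sum fun y _ => norm_sum_le _ _
  have h2 : ∑ i ∈ Ico i0 i1, ∑ y : ZMod P, ‖sts_F H H' z z' c c' D y i‖ ≤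
      ∑ i ∈ Ico i0 i1, (P * σ + 2 * (T * H' * m0) +
      m0 * ∑ y : ZMod P, (if Bad Q b0 b1 δ ((i * H' : ℕ) : ℝ)
          ((((z (tl H (y + ((i * H' : ℕ) : ZMod P)))).val : ℝ) -
          ((z' (tl H (y - ((i * H' : ℕ) : ZMod P)))).val : ℝ)) / P) then (1 : ℝ) else 0)) := by
    refine sum_le_sum fun i hi' => ?_
    rw [mem_Ico] at hi'
    exact sts_window f1 f2 f4 f5 hP hH' hHH z z' c c' D hc hc' i σ m0 hσ0 (hm0 i hi'.1 hi'.2)
      (Bad Q b0 b1 δ ((i * H' : ℕ) : ℝ)) (hσ i hi'.1 hi'.2)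
  rw [sum_add_distrib, sum_const, Nat.card_Ico, nsmul_eq_mul, Nat.cast_sub hi, ← mul_sum] at h2
  have h3 : ((((univ : Finset (ZMod P)) ×ˢ Ico i0 i1).filter (fun e : ZMod P × ℕ =>
      Bad Q b0 b1 δ ((e.2 * H' : ℕ) : ℝ)
        ((((z (tl H (e.1 + ((e.2 * H' : ℕ) : ZMod P)))).val : ℝ) -
          ((z' (tl H (e.1 - ((e.2 * H' : ℕ) : ZMod P)))).val : ℝ)) / P))).card : ℝ) =
      ∑ i ∈ Ico i0 i1, ∑ y : ZMod P, (if Bad Q b0 b1 δ ((i * H' : ℕ) : ℝ)
          ((((z (tl H (y + ((i * H' : ℕ) : ZMod P)))).val : ℝ) -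
          ((z' (tl H (y - ((i * H' : ℕ) : ZMod P)))).val : ℝ)) / P) then (1 : ℝ) else 0) := by
    rw [natCast_card_filter, sum_product, sum_comm]
  rw [h3]
  set S : ℝ := ∑ i ∈ Ico i0 i1, ∑ y : ZMod P, (if Bad Q b0 b1 δ ((i * H' : ℕ) : ℝ)
          ((((z (tl H (y + ((i * H' : ℕ) : ZMod P)))).val : ℝ) -
          ((z' (tl H (y - ((i * H' : ℕ) : ZMod P)))).val : ℝ)) / P) then (1 : ℝ) else 0) with hS
  have h4 : (P : ℝ) = H * T := by exact_mod_cast hP
  calc 1 / (P : ℝ) * ∑ y : ZMod P, ‖∑ i ∈ Ico i0 i1, sts_F H H' z z' c c' D y i‖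
      ≤ 1 / (P : ℝ) * (((i1 : ℝ) - i0) * (P * σ + 2 * (T * H' * m0)) + m0 * S) :=
        mul_le_mul_of_nonneg_left (h1.trans h2) (by positivity)
    _ = ((i1 : ℝ) - i0) * (σ + 2 * (T * H' / P) * m0) + m0 / P * S := by
        field_simp
    _ = ((i1 : ℝ) - i0) * (σ + 2 * ((H' : ℝ) / H) * m0) + m0 / P * S := by
        have h5 : (T : ℝ) * H' / P = (H' : ℝ) / H := by
          have hT : (T : ℝ) ≠ 0 := by
            rintro hT
            rw [hT, mul_zero] at h4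
            exact hP0.ne' h4
          rw [h4]
          field_simp
        rw [h5]

end Pool.Agent.BSR
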