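import Pool.Agent.BSR.StA
import Pool.Agent.BSQ.NRM

/-!
# BSR, UNF: flat functions are negligible against the strip measure
-/

set_option autoImplicit false

namespace Pool.Agent.BSR

open Finset MeasureTheory Filter Topology Pool.Agent.BSQ
open scoped BigOperators
open Classical

private noncomputable def unf_Φ {P : ℕ} (f g : ZMod P → ℂ) (q : ℕ × ℕ) (y : ZMod P) : ℂ :=
  f (y + ((q.1 ^ 2 + q.2 ^ 2 : ℕ) : ZMod P)) * g (y - ((q.1 ^ 2 + q.2 ^ 2 : ℕ) : ZMod P))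

private theorem unf_blocks (h : ℕ → ℂ) (μ q : ℕ) :
    ∑ i ∈ range q, ∑ m ∈ Ioc (i * μ) ((i + 1) * μ), h m = ∑ m ∈ Ioc 0 (q * μ), h m := by
  induction q with
  | zero => simp
  | succ q ih =>
    rw [sum_range_succ, ih]
    exact sum_Ioc_consecutive h (Nat.zero_le _) (Nat.mul_le_mul_right μ (Nat.le_succ q))

private theorem unf_regroup (P N M : ℕ) [NeZero P] (f g : ZMod P → ℂ) (hMN : M ≤ N)
    (y : ZMod P) :
    Tr (P := P) (2 * N ^ 2 + 1) (rhoS N M) f g y =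
      ∑ n ∈ Ioc 0 N, ∑ m ∈ Ioc 0 M, (2 / ((N : ℂ) ^ 2 * M) * (n : ℂ)) * unf_Φ f g (n, m) y := by
  have hmap : ∀ p ∈ Str N M, sq2 p ∈ range (2 * N ^ 2 + 1) := by
    rintro ⟨n, m⟩ hp
    rw [Str, mem_product, mem_Icc, mem_Icc] at hp
    rw [mem_range, sq2]
    have h1 : n ^ 2 ≤ N ^ 2 := Nat.pow_le_pow_left hp.1.2 2
    have h2 : m ^ 2 ≤ N ^ 2 := Nat.pow_le_pow_left (hp.2.2.trans hMN) 2
    show n ^ 2 + m ^ 2 < 2 * N ^ 2 + 1
    omega
  have h1 : Tr (P := P) (2 * N ^ 2 + 1) (rhoS N M) f g y =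
      ∑ p ∈ Str N M, (2 / ((N : ℂ) ^ 2 * M) * (p.1 : ℂ)) *
        (f (y + ((sq2 p : ℕ) : ZMod P)) * g (y - ((sq2 p : ℕ) : ZMod P))) := by
    rw [← sum_fiberwise_of_maps_to hmap, Tr]
    refine sum_congr rfl fun k _ => ?_
    rw [rhoS]
    push_cast
    rw [mul_sum, sum_mul]
    refine sum_congr rfl fun p hp => ?_
    rw [(mem_filter.mp hp).2]
  rw [h1, Str, sum_product]
  have hI : ∀ L : ℕ, Icc 1 L = Ioc 0 L := fun L => by
    ext x
    simp only [mem_Icc, mem_Ioc]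
    omega
  rw [hI, hI]
  rfl

private theorem unf_tb (P : ℕ) (n0 N1 M : ℕ) (f g : ZMod P → ℂ) (y : ZMod P) :
    TB n0 N1 M f g y = ∑ n ∈ Ioc n0 (n0 + N1), ∑ m ∈ Ioc 0 M, unf_Φ f g (n, m) y := by
  have e1 : Ioc (n0 : ℤ) (n0 + N1) = (Ioc n0 (n0 + N1)).image (fun n : ℕ => (n : ℤ)) := by
    ext x
    simp only [mem_Ioc, mem_image]
    constructor
    · rintro ⟨h1, h2⟩
      exact ⟨x.toNat, by omega, by omega⟩
    · rintro ⟨n, hn, rfl⟩
      omega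
  have e2 : Icc 1 (M : ℤ) = (Ioc 0 M).image (fun n : ℕ => (n : ℤ)) := by
    ext x
    simp only [mem_Ioc, mem_image, mem_Icc]
    constructor
    · rintro ⟨h1, h2⟩
      exact ⟨x.toNat, by omega, by omega⟩
    · rintro ⟨n, hn, rfl⟩
      omega
  unfold TB Bx
  rw [e1, e2, sum_product, sum_image (fun a _ b _ h => by exact_mod_cast h)]
  refine sum_congr rfl fun n _ => ?_
  rw [sum_image (fun a _ b _ h => by exact_mod_cast h)]
  refine sum_congr rfl fun m _ => ?_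
  have e3 : ((sqz ((n : ℤ), (m : ℤ)) : ℤ) : ZMod P) = ((n ^ 2 + m ^ 2 : ℕ) : ZMod P) := by
    unfold sqz
    push_cast
    rfl
  rw [e3]
  rfl

/-- The weight. -/
private def unf_w (N1 r n : ℕ) : ℕ := if n ≤ r * N1 then (n - 1) / N1 * N1 else 0

private theorem unf_w_le (N N1 r n : ℕ) (h1 : 1 ≤ N1) (hn : n ∈ Ioc 0 N) :
    |(n : ℝ) - unf_w N1 r n| ≤ N1 + if n ≤ r * N1 then (0 : ℝ) else N := by
  rw [mem_Ioc] at hn
  unfold unf_w
  split_ifs with h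
  · have h2 := Nat.div_add_mod (n - 1) N1
    have h3 := Nat.mod_lt (n - 1) (by omega : 0 < N1)
    have h4 : (n - 1) / N1 * N1 ≤ n := by
      rw [mul_comm]
      omega
    have h5 : n ≤ (n - 1) / N1 * N1 + N1 := by
      rw [mul_comm ((n - 1) / N1)]
      omega
    have h4' : (((n - 1) / N1 * N1 : ℕ) : ℝ) ≤ n := by exact_mod_cast h4
    have h5' : (n : ℝ) ≤ (((n - 1) / N1 * N1 : ℕ) : ℝ) + N1 := by exact_mod_cast h5
    rw [abs_of_nonneg (by linarith)]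
    linarith
  · have h2 : (n : ℝ) ≤ N := by exact_mod_cast hn.2
    have h3 : (0 : ℝ) ≤ N1 := Nat.cast_nonneg _
    rw [Nat.cast_zero, sub_zero, abs_of_nonneg (Nat.cast_nonneg _)]
    linarith

private theorem unf_w_sum (N N1 r : ℕ) (h1 : 1 ≤ N1) (hr2 : N ≤ (r + 1) * N1) :
    ∑ n ∈ Ioc 0 N, |(n : ℝ) - unf_w N1 r n| ≤ 2 * N * N1 := by
  refine (sum_le_sum fun n hn => unf_w_le N N1 r n h1 hn).trans ?_
  rw [sum_add_distrib, sum_const, Nat.card_Ioc, Nat.sub_zero, nsmul_eq_mul, sum_ite, sum_const_zero,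
    zero_add, sum_const, nsmul_eq_mul]
  have h2 : (filter (fun n => ¬ n ≤ r * N1) (Ioc 0 N)).card ≤ N1 := by
    have h3 : filter (fun n => ¬ n ≤ r * N1) (Ioc 0 N) ⊆ Ioc (r * N1) N := by
      intro n hn
      rw [mem_filter, mem_Ioc] at hn
      rw [mem_Ioc]
      omega
    refine (card_le_card h3).trans ?_
    rw [Nat.card_Ioc, add_mul, one_mul] at *
    omega
  have h3 : (((filter (fun n => ¬ n ≤ r * N1) (Ioc 0 N)).card : ℕ) : ℝ) * N ≤ N1 * N :=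
    mul_le_mul_of_nonneg_right (by exact_mod_cast h2) (Nat.cast_nonneg _)
  linarith

private theorem unf_w_main (N N1 r : ℕ) (h1 : 1 ≤ N1) (hr : r * N1 ≤ N) (h : ℕ → ℂ) :
    ∑ n ∈ Ioc 0 N, (unf_w N1 r n : ℂ) * h n =
      ∑ i ∈ range r, ((i * N1 : ℕ) : ℂ) * ∑ n ∈ Ioc (i * N1) (i * N1 + N1), h n := by
  rw [← sum_Ioc_consecutive _ (Nat.zero_le (r * N1)) hr]
  have e1 : ∑ n ∈ Ioc (r * N1) N, (unf_w N1 r n : ℂ) * h n = 0 := by
    refine sum_eq_zero fun n hn => ?_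
    rw [mem_Ioc] at hn
    unfold unf_w
    rw [if_neg (by omega), Nat.cast_zero, zero_mul]
  rw [e1, add_zero, ← unf_blocks]
  refine sum_congr rfl fun i hi => ?_
  rw [mem_range] at hi
  have e2 : (i + 1) * N1 = i * N1 + N1 := by ring
  rw [e2, mul_sum]
  refine sum_congr rfl fun n hn => ?_
  rw [mem_Ioc] at hn
  have h3 : (i + 1) * N1 ≤ r * N1 := Nat.mul_le_mul_right N1 hi
  have h4 : (n - 1) / N1 = i := by
    refine Nat.div_eq_of_lt_le ?_ ?_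
    · omega
    · rw [e2]
      omega
  unfold unf_w
  rw [if_pos (by omega), h4]

private theorem unf_energy (hENB : St_ENB) (P H T : ℕ) [NeZero P] (f : ZMod P → ℂ)
    (hP : P = H * T) (hH : 1 ≤ H) (hE : TileE H f) : n2 f ≤ 1 := by
  obtain ⟨-, -, -, -, -, -, hsq, -, -⟩ := thm_NRM P
  have h3 := hsq f
  have hP1 : 0 < P := Nat.pos_of_ne_zero (NeZero.ne P)
  have hP0 : (0 : ℝ) < P := by exact_mod_cast hP1
  have h4 : n2 f ^ 2 ≤ 1 := by
    rw [h3, div_le_one hP0]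
    exact (hENB P H T 0 f hP hH (by omega) hE).1
  have h5 : 0 ≤ n2 f := Real.sqrt_nonneg _
  nlinarith

private theorem unf_err (P N M N1 r L : ℕ) [NeZero P] (f g : ZMod P → ℂ) (hf : n2 f ≤ 1)
    (hg : ∀ u, ‖g u‖ ≤ 1) (hN : 1 ≤ N) (hM : 1 ≤ M) (hL : 1 ≤ L) (h1 : 1 ≤ N1)
    (hr2 : N ≤ (r + 1) * N1) (hLN : L * N1 ≤ N) :
    n2 (fun y : ZMod P => ∑ n ∈ Ioc 0 N, ∑ m ∈ Ioc 0 M,
      (2 / ((N : ℂ) ^ 2 * M) * ((n : ℂ) - unf_w N1 r n)) * unf_Φ f g (n, m) y) ≤ 4 / L := by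
  obtain ⟨-, -, hsum, hsmul, hmono, htr, -, -, -⟩ := thm_NRM P
  have hΦ : ∀ q, n2 (unf_Φ f g q) ≤ 1 := by
    intro q
    refine le_trans ?_ hf
    rw [← htr f ((q.1 ^ 2 + q.2 ^ 2 : ℕ) : ZMod P)]
    refine hmono _ _ fun y => ?_
    unfold unf_Φ
    rw [norm_mul]
    exact mul_le_of_le_one_right (norm_nonneg _) (hg _)
  have hNr : (0 : ℝ) < N := by exact_mod_cast hN
  have hMr : (0 : ℝ) < M := by exact_mod_cast hM
  have hLr : (0 : ℝ) < L := by exact_mod_cast hL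
  have e0 : (fun y : ZMod P => ∑ n ∈ Ioc 0 N, ∑ m ∈ Ioc 0 M,
      (2 / ((N : ℂ) ^ 2 * M) * ((n : ℂ) - unf_w N1 r n)) * unf_Φ f g (n, m) y) =
      fun y : ZMod P => ∑ q ∈ Ioc 0 N ×ˢ Ioc 0 M,
        (2 / ((N : ℂ) ^ 2 * M) * ((q.1 : ℂ) - unf_w N1 r q.1)) * unf_Φ f g q y := by
    funext y
    rw [sum_product]
  rw [e0]
  refine (hsum (ℕ × ℕ) _ fun q y => (2 / ((N : ℂ) ^ 2 * M) * ((q.1 : ℂ) - unf_w N1 r q.1)) *
    unf_Φ f g q y).trans ?_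
  have h3 : ∀ q ∈ Ioc 0 N ×ˢ Ioc 0 M, n2 (fun y => (2 / ((N : ℂ) ^ 2 * M) *
      ((q.1 : ℂ) - unf_w N1 r q.1)) * unf_Φ f g q y) ≤
      2 / ((N : ℝ) ^ 2 * M) * |(q.1 : ℝ) - unf_w N1 r q.1| := by
    intro q _
    rw [hsmul]
    have e1 : ‖2 / ((N : ℂ) ^ 2 * M) * ((q.1 : ℂ) - unf_w N1 r q.1)‖ =
        2 / ((N : ℝ) ^ 2 * M) * |(q.1 : ℝ) - unf_w N1 r q.1| := by
      have e2 : ((q.1 : ℂ) - unf_w N1 r q.1) = (((q.1 : ℝ) - unf_w N1 r q.1 : ℝ) : ℂ) := by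
        push_cast
        rfl
      rw [e2, norm_mul, norm_div, norm_mul, norm_pow, Complex.norm_natCast, Complex.norm_natCast,
        Complex.norm_real, Real.norm_eq_abs, Complex.norm_two]
    rw [e1]
    calc 2 / ((N : ℝ) ^ 2 * M) * |(q.1 : ℝ) - unf_w N1 r q.1| * n2 (unf_Φ f g q)
        ≤ 2 / ((N : ℝ) ^ 2 * M) * |(q.1 : ℝ) - unf_w N1 r q.1| * 1 :=
          mul_le_mul_of_nonneg_left (hΦ q) (by positivity)
      _ = _ := mul_one _
  refine (sum_le_sum h3).trans ?_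
  rw [sum_product]
  have e4 : ∑ n ∈ Ioc 0 N, ∑ m ∈ Ioc 0 M, 2 / ((N : ℝ) ^ 2 * M) * |(n : ℝ) - unf_w N1 r n| =
      2 / ((N : ℝ) ^ 2 * M) * M * ∑ n ∈ Ioc 0 N, |(n : ℝ) - unf_w N1 r n| := by
    rw [mul_sum]
    refine sum_congr rfl fun n _ => ?_
    rw [sum_const, Nat.card_Ioc, Nat.sub_zero, nsmul_eq_mul]
    ring
  show ∑ n ∈ Ioc 0 N, ∑ m ∈ Ioc 0 M, 2 / ((N : ℝ) ^ 2 * M) * |(n : ℝ) - unf_w N1 r n| ≤ _
  rw [e4]
  have h5 := unf_w_sum N N1 r h1 hr2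
  have h6 : (L : ℝ) * N1 ≤ N := by exact_mod_cast hLN
  calc 2 / ((N : ℝ) ^ 2 * M) * M * ∑ n ∈ Ioc 0 N, |(n : ℝ) - unf_w N1 r n|
      ≤ 2 / ((N : ℝ) ^ 2 * M) * M * (2 * N * N1) :=
        mul_le_mul_of_nonneg_left h5 (by positivity)
    _ = 4 * N1 / N := by
        field_simp
        ring
    _ ≤ 4 / L := by
        rw [div_le_div_iff₀ hNr hLr]
        nlinarith

private theorem unf_main (P N M N1 r L : ℕ) [NeZero P] (f g : ZMod P → ℂ)
    (hN : 1 ≤ N) (hM : 1 ≤ M) (hL : 200 ≤ L) (hr : r * N1 ≤ N)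
    (hTB : ∀ i, 1 ≤ i → i < r → ∑ y : ZMod P, ‖TB (i * N1) N1 M f g y‖ ^ 2 ≤
      200 / (L : ℝ) ^ 3 * P * ((N1 : ℝ) * M) ^ 2) :
    n2 (fun y : ZMod P => ∑ i ∈ range r, (2 / ((N : ℂ) ^ 2 * M) * ((i * N1 : ℕ) : ℂ)) *
      TB (i * N1) N1 M f g y) ≤ 2 / L := by
  obtain ⟨-, -, hsum, hsmul, -, -, hsq, -, -⟩ := thm_NRM P
  have hNr : (0 : ℝ) < N := by exact_mod_cast hN
  have hMr : (0 : ℝ) < M := by exact_mod_cast hM
  have hL2 : (200 : ℝ) ≤ L := by exact_mod_cast hL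
  have hLr : (0 : ℝ) < L := by linarith
  have hP0 : (0 : ℝ) < P := by exact_mod_cast Nat.pos_of_ne_zero (NeZero.ne P)
  have hT : ∀ i, 1 ≤ i → i < r → n2 (TB (P := P) (i * N1) N1 M f g) ≤ N1 * M / L := by
    intro i hi hir
    have h1 := hsq (TB (P := P) (i * N1) N1 M f g)
    have h2 := hTB i hi hir
    have h3 : n2 (TB (P := P) (i * N1) N1 M f g) ^ 2 ≤ (N1 * M / L) ^ 2 := by
      rw [h1, div_le_iff₀ hP0]
      refine h2.trans ?_
      have h4 : 200 / (L : ℝ) ^ 3 ≤ 1 / (L : ℝ) ^ 2 := by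
        rw [div_le_div_iff₀ (by positivity) (by positivity)]
        nlinarith [sq_nonneg (L : ℝ)]
      calc 200 / (L : ℝ) ^ 3 * P * ((N1 : ℝ) * M) ^ 2 ≤ 1 / (L : ℝ) ^ 2 * P * ((N1 : ℝ) * M) ^ 2 := by
            gcongr
        _ = ((N1 : ℝ) * M / L) ^ 2 * P := by
            field_simp
    exact (sq_le_sq₀ (Real.sqrt_nonneg _) (by positivity)).1 h3
  refine (hsum ℕ _ fun i y => (2 / ((N : ℂ) ^ 2 * M) * ((i * N1 : ℕ) : ℂ)) *
    TB (i * N1) N1 M f g y).trans ?_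
  have h3 : ∀ i ∈ range r, n2 (fun y : ZMod P => (2 / ((N : ℂ) ^ 2 * M) * ((i * N1 : ℕ) : ℂ)) *
      TB (i * N1) N1 M f g y) ≤ 2 / ((N : ℝ) ^ 2 * M) * (r * N1) * (N1 * M / L) := by
    intro i hi
    rw [mem_range] at hi
    rw [hsmul]
    rcases Nat.eq_zero_or_pos i with h0 | h0
    · subst h0
      rw [Nat.zero_mul, Nat.cast_zero, mul_zero, norm_zero, zero_mul]
      positivity
    · have e1 : ‖2 / ((N : ℂ) ^ 2 * M) * ((i * N1 : ℕ) : ℂ)‖ =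
          2 / ((N : ℝ) ^ 2 * M) * (i * N1) := by
        rw [norm_mul, norm_div, norm_mul, norm_pow, Complex.norm_natCast, Complex.norm_natCast,
          Complex.norm_natCast, Complex.norm_two]
        push_cast
        rfl
      rw [e1]
      have h4 : (i : ℝ) ≤ r := by exact_mod_cast hi.le
      refine mul_le_mul ?_ (hT i h0 hi) (Real.sqrt_nonneg _) (by positivity)
      gcongr
  refine (sum_le_sum h3).trans ?_
  rw [sum_const, card_range, nsmul_eq_mul]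
  have h5 : (r : ℝ) * N1 ≤ N := by exact_mod_cast hr
  have h6 : ((r : ℝ) * N1) ^ 2 ≤ (N : ℝ) ^ 2 := by
    have : (0 : ℝ) ≤ r * N1 := by positivity
    gcongr
  calc (r : ℝ) * (2 / ((N : ℝ) ^ 2 * M) * (r * N1) * (N1 * M / L))
      = 2 / (L : ℝ) * (((r : ℝ) * N1) ^ 2 / (N : ℝ) ^ 2) := by
        field_simp
    _ ≤ 2 / (L : ℝ) * 1 := by
        refine mul_le_mul_of_nonneg_left ?_ (by positivity)
        rw [div_le_one (by positivity)]
        exact h6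
    _ = 2 / L := mul_one _

theorem thm_UNF (hFBOX : St_FBOX) (hENB : St_ENB) : St_UNF := by
  intro k0
  obtain ⟨C0, hC0⟩ := hFBOX k0
  refine ⟨C0 + 400, fun L hL => ?_⟩
  intro P H T N M _ η f g hP hPN hPN2 hLM hLN hNM hH hHL hη hη2 hdiv hfl hg
  have hL1 : 1 ≤ L := by omega
  have hM1 : 1 ≤ M := (Nat.one_le_pow _ _ hL1).trans hLM
  have hLM' : L ^ C0 ≤ M := (Nat.pow_le_pow_right hL1 (by omega)).trans hLM
  have hL10 : 1 ≤ L ^ 10 := Nat.one_le_pow _ _ hL1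
  have hMN : M ≤ N := (Nat.le_mul_of_pos_left M hL10).trans hLN
  have hLN' : L ≤ N := by
    have h1 : L ≤ L ^ 10 := Nat.le_self_pow (by norm_num) L
    exact h1.trans ((Nat.le_mul_of_pos_right _ hM1).trans hLN)
  have hN1 : 1 ≤ N := hM1.trans hMN
  let N1 := N / L
  have h1 : 1 ≤ N1 := (Nat.one_le_div_iff hL1).2 hLN'
  have hLN1 : L * N1 ≤ N := Nat.mul_div_le N L
  have h2 : N ≤ 2 * L * N1 := by
    have h3 : N < L * (N1 + 1) := by
      have := Nat.lt_mul_div_succ N hL1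
      exact this
    have h4 : L * 1 ≤ L * N1 := Nat.mul_le_mul_left L h1
    have h5 : 2 * L * N1 = L * N1 + L * N1 := by ring
    rw [mul_add, mul_one] at h3
    omega
  let r := N / N1
  have hr : r * N1 ≤ N := Nat.div_mul_le_self N N1
  have hr2 : N ≤ (r + 1) * N1 := by
    have := Nat.lt_mul_div_succ N h1
    rw [mul_comm] at this
    exact this.le
  have hf : n2 f ≤ 1 := unf_energy hENB P H T f hP hH hfl.1
  have hsplit : (Tr (P := P) (2 * N ^ 2 + 1) (rhoS N M) f g) = fun y : ZMod P =>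
      (∑ n ∈ Ioc 0 N, ∑ m ∈ Ioc 0 M,
        (2 / ((N : ℂ) ^ 2 * M) * ((n : ℂ) - unf_w N1 r n)) * unf_Φ f g (n, m) y) +
      ∑ i ∈ range r, (2 / ((N : ℂ) ^ 2 * M) * ((i * N1 : ℕ) : ℂ)) *
        TB (i * N1) N1 M f g y := by
    funext y
    rw [unf_regroup P N M f g hMN y]
    have e1 := unf_w_main N N1 r h1 hr (fun n => ∑ m ∈ Ioc 0 M, unf_Φ f g (n, m) y)
    have e2 : ∑ i ∈ range r, (2 / ((N : ℂ) ^ 2 * M) * ((i * N1 : ℕ) : ℂ)) *
        TB (i * N1) N1 M f g y = 2 / ((N : ℂ) ^ 2 * M) *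
        ∑ n ∈ Ioc 0 N, (unf_w N1 r n : ℂ) * ∑ m ∈ Ioc 0 M, unf_Φ f g (n, m) y := by
      rw [e1, mul_sum]
      refine sum_congr rfl fun i _ => ?_
      rw [unf_tb, mul_assoc]
    rw [e2, mul_sum, ← sum_add_distrib]
    refine sum_congr rfl fun n _ => ?_
    rw [← mul_assoc, mul_sum, ← sum_add_distrib]
    refine sum_congr rfl fun m _ => ?_
    ring
  rw [hsplit]
  obtain ⟨hadd, -⟩ := thm_NRM P
  refine (hadd _ _).trans ?_
  have b1 := unf_err P N M N1 r L f g hf hg hN1 hM1 hL1 h1 hr2 hLN1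
  have b2 := unf_main P N M N1 r L f g hN1 hM1 (by omega) hr (fun i hi hir => by
    refine hC0 L (by omega) P H T N M (i * N1) N1 η f g hP hPN hPN2 hLM' hLN hNM hH hHL hη hη2 hdiv
      hfl hg ?_ h2 ?_
    · refine h2.trans (Nat.mul_le_mul_left _ ?_)
      exact Nat.le_mul_of_pos_left N1 hi
    · have h5 : (i + 1) * N1 ≤ r * N1 := Nat.mul_le_mul_right N1 hir
      rw [add_mul, one_mul] at h5
      exact h5.trans hr)
  have hLr : (0 : ℝ) < L := by exact_mod_cast hL1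
  have b3 : (4 : ℝ) / L + 2 / L ≤ 8 / L := by
    rw [← add_div]
    gcongr
    norm_num
  exact (add_le_add b1 b2).trans b3

end Pool.Agent.BSR
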