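import Pool.Agent.BSR.StA

/-!
# BSR, module UNG: reflection
-/

set_option autoImplicit false

namespace Pool.Agent.BSR

open Finset MeasureTheory Filter Topology Pool.Agent.BSQ
open scoped BigOperators
open Classical

theorem ung_val {P : ℕ} [NeZero P] (u : ZMod P) : ((-1 - u : ZMod P)).val = P - 1 - u.val := by
  have h : u.val < P := ZMod.val_lt u
  have h1 : (-1 - u : ZMod P) = ((P - 1 - u.val : ℕ) : ZMod P) := by
    rw [Nat.sub_sub, Nat.cast_sub (by omega), Nat.cast_add, ZMod.natCast_self, Nat.cast_one,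
      ZMod.natCast_zmod_val]
    ring
  rw [h1, ZMod.val_natCast_of_lt (by omega)]

theorem ung_tl {P H T : ℕ} [NeZero P] (hP : P = H * T) (hH : 1 ≤ H) (u : ZMod P) :
    tl H (-1 - u) + 1 + tl H u = T := by
  unfold tl
  rw [ung_val]
  have h : u.val < P := ZMod.val_lt u
  have h1 := Nat.div_add_mod u.val H
  have h2 := Nat.mod_lt u.val (show H > 0 by omega)
  have h3 : u.val / H < T := by
    apply Nat.div_lt_of_lt_mul
    rw [← hP]
    exact h
  obtain ⟨k, hk⟩ : ∃ k, T = u.val / H + 1 + k := ⟨T - (u.val / H + 1), by omega⟩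
  have h4 : P = H * (u.val / H) + H + H * k := by
    refine hP.trans ?_
    conv_lhs => rw [hk]
    ring
  have h5 : P - 1 - u.val = H * k + (H - 1 - u.val % H) := by omega
  have h6 : (H * k + (H - 1 - u.val % H)) / H = k := by
    rw [Nat.mul_add_div (by omega), Nat.div_eq_of_lt (by omega), add_zero]
  rw [h5, h6]
  omega

theorem ung_sum {P H T : ℕ} [NeZero P] {E : Type} [AddCommMonoid E] (hP : P = H * T)
    (hH : 1 ≤ H) (t : ℕ) (ht : t < T) (F : ZMod P → E) :
    ∑ u ∈ univ.filter (fun u : ZMod P => tl H u = t), F (-1 - u) =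
      ∑ u ∈ univ.filter (fun u : ZMod P => tl H u = T - 1 - t), F u := by
  refine Finset.sum_equiv (Equiv.subLeft (-1 : ZMod P)) ?_ ?_
  · intro u
    have h1 := ung_tl hP hH u
    rw [Finset.mem_filter, Finset.mem_filter, Equiv.subLeft_apply]
    constructor
    · rintro ⟨_, h2⟩
      exact ⟨Finset.mem_univ _, by omega⟩
    · rintro ⟨_, h2⟩
      exact ⟨Finset.mem_univ _, by omega⟩
  · intro u _
    rw [Equiv.subLeft_apply]

theorem ung_empty {P H T : ℕ} [NeZero P] (hP : P = H * T) (hH : 1 ≤ H) (t : ℕ) (ht : T ≤ t) :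
    univ.filter (fun u : ZMod P => tl H u = t) = ∅ := by
  rw [Finset.filter_eq_empty_iff]
  intro u _ h
  have h1 := ung_tl hP hH u
  omega

theorem ung_ch {P : ℕ} [NeZero P] (z u : ZMod P) :
    ch (-z) u = ZMod.stdAddChar z * ch (- -z) (-1 - u) := by
  unfold ch
  rw [← AddChar.map_add_eq_mul]
  congr 1
  ring

theorem ung_norm {P : ℕ} [NeZero P] (z : ZMod P) : ‖ZMod.stdAddChar z‖ = 1 := by
  rw [AddChar.norm_apply]

theorem ung_flat {P H T : ℕ} [NeZero P] (hP : P = H * T) (hH : 1 ≤ H) (η : ℝ) (hη : 0 ≤ η)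
    (g : ZMod P → ℂ) (hg : FlatL H η g) : FlatL H η (fun u => g (-1 - u)) := by
  refine ⟨?_, ?_⟩
  · intro t
    rcases lt_or_ge t T with ht | ht
    · have h1 := ung_sum hP hH t ht (fun u => ‖g u‖ ^ 2)
      rw [h1]
      exact hg.1 _
    · rw [ung_empty hP hH t ht, Finset.sum_empty]
      exact Nat.cast_nonneg _
  · intro z t
    rcases lt_or_ge t T with ht | ht
    · have h1 : fh H (fun u => g (-1 - u)) z t =
          ZMod.stdAddChar z * fh H g (-z) (T - 1 - t) := by
        unfold fh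
        rw [← ung_sum hP hH t ht (fun u => g u * ch (- -z) u), Finset.mul_sum]
        refine Finset.sum_congr rfl fun u _ => ?_
        rw [ung_ch]
        ring
      rw [h1, norm_mul, ung_norm, one_mul]
      exact hg.2 _ _
    · unfold fh
      rw [ung_empty hP hH t ht, Finset.sum_empty, norm_zero]
      positivity

theorem ung_n2 {P : ℕ} [NeZero P] (X : ℕ) (ρ : ℕ → ℝ) (f g : ZMod P → ℂ) :
    n2 (Tr (P := P) X ρ f g) =
      n2 (Tr (P := P) X ρ (fun u => g (-1 - u)) (fun u => f (-1 - u))) := by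
  have h1 : ∀ y : ZMod P, Tr (P := P) X ρ (fun u => g (-1 - u)) (fun u => f (-1 - u)) y =
      Tr (P := P) X ρ f g (-1 - y) := by
    intro y
    unfold Tr
    refine Finset.sum_congr rfl fun k _ => ?_
    have e1 : (-1 - (y + (k : ZMod P)) : ZMod P) = -1 - y - k := by ring
    have e2 : (-1 - (y - (k : ZMod P)) : ZMod P) = -1 - y + k := by ring
    simp only [e1, e2]
    ring
  unfold n2
  congr 2
  simp only [h1]
  exact (Equiv.sum_comp (Equiv.subLeft (-1 : ZMod P))
    (fun y => ‖Tr (P := P) X ρ f g y‖ ^ 2)).symm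

theorem thm_UNG (hU : St_UNF) : St_UNG := by
  intro k0
  obtain ⟨C, hC⟩ := hU k0
  refine ⟨C, ?_⟩
  intro L hL P H T N M _ η f g hP h5 h16 hM hLM hN hH hHL hη hη1 hd hg hf
  rw [ung_n2]
  exact hC L hL P H T N M η (fun u => g (-1 - u)) (fun u => f (-1 - u)) hP h5 h16 hM hLM hN hH
    hHL hη hη1 hd (ung_flat hP hH η hη g hg) (fun u => hf _)

end Pool.Agent.BSR
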