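import Pool.Agent.BSR.StA

/-!
# BSR, module VDC: van der Corput in two variables (helper68 for helper44)
-/

set_option autoImplicit false

namespace Pool.Agent.BSR

open Finset MeasureTheory Filter Topology Pool.Agent.BSQ
open scoped BigOperators
open Classical

/-- the number of pairs `(x, y)` in `[0, A)` with `y - x = t` -/
private theorem vdc_cnt (A : ℕ) (t : ℤ) (ht : t ∈ Ioo (-(A : ℤ)) A) :
    ((((Ico (0 : ℤ) A ×ˢ Ico (0 : ℤ) A).filter fun x => x.2 - x.1 = t).card : ℕ) : ℤ) = A - |t| := by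
  rw [Finset.mem_Ioo] at ht
  have h : ((Ico (0 : ℤ) A ×ˢ Ico (0 : ℤ) A).filter fun x => x.2 - x.1 = t) =
      (Ico (max 0 (-t)) (min (A : ℤ) (A - t))).image (fun x => (x, x + t)) := by
    ext ⟨x, y⟩
    simp only [Finset.mem_filter, Finset.mem_product, Finset.mem_Ico, Finset.mem_image,
      Prod.mk.injEq, max_le_iff, lt_min_iff]
    constructor
    · rintro ⟨⟨⟨h1, h2⟩, h3, h4⟩, h5⟩
      exact ⟨x, ⟨⟨h1, by omega⟩, h2, by omega⟩, rfl, by omega⟩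
    · rintro ⟨z, ⟨⟨h1, h2⟩, h3, h4⟩, rfl, rfl⟩
      exact ⟨⟨⟨h1, h3⟩, by omega, by omega⟩, by omega⟩
  rw [h, Finset.card_image_of_injective _ (fun a b hab => (Prod.mk.inj hab).1), Int.card_Ico]
  rcases le_total 0 t with h1 | h1
  · rw [abs_of_nonneg h1, max_eq_left (by omega), min_eq_right (by omega)]
    omega
  · rw [abs_of_nonpos h1, max_eq_right (by omega), min_eq_left (by omega)]
    omega

private theorem vdc_cnt2 (A : ℕ) (d : ℤ × ℤ) (hd : d ∈ Dif A) :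
    (((((Ico (0 : ℤ) A ×ˢ Ico (0 : ℤ) A) ×ˢ (Ico (0 : ℤ) A ×ˢ Ico (0 : ℤ) A)).filter
      fun x => x.2 - x.1 = d).card : ℕ) : ℂ) = ((A : ℂ) - (|d.1| : ℤ)) * ((A : ℂ) - (|d.2| : ℤ)) := by
  obtain ⟨h1, h2⟩ := Finset.mem_product.1 hd
  have e : (((Ico (0 : ℤ) A ×ˢ Ico (0 : ℤ) A) ×ˢ (Ico (0 : ℤ) A ×ˢ Ico (0 : ℤ) A)).filter
      fun x => x.2 - x.1 = d).card =
      ((Ico (0 : ℤ) A ×ˢ Ico (0 : ℤ) A).filter fun x => x.2 - x.1 = d.1).card *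
      ((Ico (0 : ℤ) A ×ˢ Ico (0 : ℤ) A).filter fun x => x.2 - x.1 = d.2).card := by
    rw [← Finset.card_product]
    refine Finset.card_bij (fun x _ => ((x.1.1, x.2.1), (x.1.2, x.2.2))) ?_ ?_ ?_
    · rintro ⟨⟨a, b⟩, ⟨c, e⟩⟩ hx
      simp only [Finset.mem_filter, Finset.mem_product, Prod.mk_sub_mk, Prod.ext_iff] at hx ⊢
      tauto
    · rintro ⟨⟨a, b⟩, ⟨c, e⟩⟩ _ ⟨⟨a', b'⟩, ⟨c', e'⟩⟩ _ hxy
      simp only [Prod.mk.injEq] at hxy ⊢
      tauto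
    · rintro ⟨⟨a, b⟩, ⟨c, e⟩⟩ hx
      refine ⟨((a, c), (b, e)), ?_, rfl⟩
      simp only [Finset.mem_filter, Finset.mem_product, Prod.mk_sub_mk, Prod.ext_iff] at hx ⊢
      tauto
  rw [e]
  have g1 := vdc_cnt A d.1 h1
  have g2 := vdc_cnt A d.2 h2
  have k1 : (((((Ico (0 : ℤ) A ×ˢ Ico (0 : ℤ) A).filter fun x => x.2 - x.1 = d.1).card : ℕ) : ℤ) : ℂ)
      = ((A - |d.1| : ℤ) : ℂ) := by rw [g1]
  have k2 : (((((Ico (0 : ℤ) A ×ˢ Ico (0 : ℤ) A).filter fun x => x.2 - x.1 = d.2).card : ℕ) : ℤ) : ℂ)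
      = ((A - |d.2| : ℤ) : ℂ) := by rw [g2]
  rw [Int.cast_natCast, Int.cast_sub, Int.cast_natCast] at k1 k2
  rw [Nat.cast_mul, k1, k2]

private theorem vdc_cs {α : Type} (C : Finset α) (g : α → ℂ) (K : ℝ) (hK : (C.card : ℝ) ≤ K) :
    ‖∑ c ∈ C, g c‖ ^ 2 ≤ K * ∑ c ∈ C, ‖g c‖ ^ 2 := by
  have h1 : ‖∑ c ∈ C, g c‖ ≤ ∑ c ∈ C, ‖g c‖ := norm_sum_le _ _
  have h2 : (∑ c ∈ C, ‖g c‖) ^ 2 ≤ C.card * ∑ c ∈ C, ‖g c‖ ^ 2 := sq_sum_le_card_mul_sum_sq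
  calc ‖∑ c ∈ C, g c‖ ^ 2 ≤ (∑ c ∈ C, ‖g c‖) ^ 2 := pow_le_pow_left₀ (norm_nonneg _) h1 2
    _ ≤ C.card * ∑ c ∈ C, ‖g c‖ ^ 2 := h2
    _ ≤ K * ∑ c ∈ C, ‖g c‖ ^ 2 :=
        mul_le_mul_of_nonneg_right hK (Finset.sum_nonneg fun _ _ => by positivity)

theorem thm_VDC : St_VDC := by
  intro n0 N1 M A F hA hNM
  set E : Finset (ℤ × ℤ) := Ico (0 : ℤ) A ×ˢ Ico (0 : ℤ) A with hE
  set C : Finset (ℤ × ℤ) := Ioc ((n0 : ℤ) - A) (n0 + N1) ×ˢ Ioc (-(A : ℤ)) M with hC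
  set G : ℤ × ℤ → ℂ := fun p => if p ∈ Bx n0 N1 M then F p else 0 with hG
  have hEcard : E.card = A ^ 2 := by
    rw [hE, Finset.card_product, Int.card_Ico]
    simp
    ring
  have hCcard : (C.card : ℝ) ≤ 4 * N1 * M := by
    have h1 : C.card = (N1 + A) * (M + A) := by
      rw [hC, Finset.card_product, Int.card_Ioc, Int.card_Ioc]
      congr 1 <;> omega
    rw [h1]
    exact_mod_cast hNM
  -- shifting
  have hshift : ∀ (H : ℤ × ℤ → ℂ) (e : ℤ × ℤ), e ∈ E → (∀ p, p ∉ Bx n0 N1 M → H p = 0) →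
      ∑ c ∈ C, H (c + e) = ∑ p ∈ Bx n0 N1 M, H p := by
    intro H e he hH
    have h1 : ∑ c ∈ C, H (c + e) = ∑ p ∈ C.image (fun c => c + e), H p := by
      rw [Finset.sum_image]
      intro x _ y _ hxy
      exact add_right_cancel hxy
    rw [h1]
    symm
    refine Finset.sum_subset ?_ fun p _ hp => hH p hp
    intro p hp
    refine Finset.mem_image.2 ⟨p - e, ?_, sub_add_cancel p e⟩
    obtain ⟨h2, h3⟩ := Finset.mem_product.1 hp
    obtain ⟨h4, h5⟩ := Finset.mem_product.1 he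
    rw [Finset.mem_Ioc] at h2
    rw [Finset.mem_Icc] at h3
    rw [Finset.mem_Ico] at h4 h5
    rw [hC, Finset.mem_product, Finset.mem_Ioc, Finset.mem_Ioc, Prod.fst_sub, Prod.snd_sub]
    refine ⟨⟨by omega, by omega⟩, by omega, by omega⟩
  have hG0 : ∀ p, p ∉ Bx n0 N1 M → G p = 0 := fun p hp => if_neg hp
  have hGF : ∑ p ∈ Bx n0 N1 M, G p = ∑ p ∈ Bx n0 N1 M, F p :=
    Finset.sum_congr rfl fun p hp => if_pos hp
  have h1 : ∑ c ∈ C, ∑ e ∈ E, G (c + e) = (A : ℂ) ^ 2 * ∑ p ∈ Bx n0 N1 M, F p := by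
    rw [Finset.sum_comm, Finset.sum_congr rfl (fun e he => (hshift G e he hG0).trans hGF),
      Finset.sum_const, hEcard, nsmul_eq_mul]
    push_cast
    ring
  have h2 := vdc_cs C (fun c => ∑ e ∈ E, G (c + e)) (4 * N1 * M) hCcard
  simp only [h1] at h2
  have h3 : ‖(A : ℂ) ^ 2 * ∑ p ∈ Bx n0 N1 M, F p‖ ^ 2 =
      (A : ℝ) ^ 4 * ‖∑ p ∈ Bx n0 N1 M, F p‖ ^ 2 := by
    rw [norm_mul, norm_pow, Complex.norm_natCast]
    ring
  rw [h3] at h2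
  refine h2.trans (le_of_eq ?_)
  congr 1
  -- the identity
  have hR : ∀ (e e' : ℤ × ℤ), e ∈ E → e' ∈ E →
      ∑ c ∈ C, G (c + e) * (starRingEnd ℂ) (G (c + e')) =
        ∑ p ∈ (Bx n0 N1 M).filter (fun p => p + (e' - e) ∈ Bx n0 N1 M),
          F p * (starRingEnd ℂ) (F (p + (e' - e))) := by
    intro e e' he _
    have g1 : ∀ c : ℤ × ℤ, G (c + e') = G ((c + e) + (e' - e)) := by
      intro c
      congr 1
      abel
    simp only [g1]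
    rw [hshift (fun p => G p * (starRingEnd ℂ) (G (p + (e' - e)))) e he
      (fun p hp => by simp only [hG0 p hp, zero_mul]), Finset.sum_filter]
    refine Finset.sum_congr rfl fun p hp => ?_
    simp only [hG, if_pos hp]
    by_cases hq : p + (e' - e) ∈ Bx n0 N1 M
    · rw [if_pos hq, if_pos hq]
    · rw [if_neg hq, if_neg hq, map_zero, mul_zero]
  have h4 : ((∑ c ∈ C, ‖∑ e ∈ E, G (c + e)‖ ^ 2 : ℝ) : ℂ) =
      ∑ d ∈ Dif A, (((A : ℂ) - (|d.1| : ℤ)) * ((A : ℂ) - (|d.2| : ℤ))) *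
      ∑ p ∈ (Bx n0 N1 M).filter (fun p => p + d ∈ Bx n0 N1 M), F p * (starRingEnd ℂ) (F (p + d)) := by
    have g1 : ((∑ c ∈ C, ‖∑ e ∈ E, G (c + e)‖ ^ 2 : ℝ) : ℂ) =
        ∑ c ∈ C, ∑ e ∈ E, ∑ e' ∈ E, G (c + e) * (starRingEnd ℂ) (G (c + e')) := by
      rw [Complex.ofReal_sum]
      refine Finset.sum_congr rfl fun c _ => ?_
      rw [← Finset.sum_mul_sum, ← map_sum, Complex.mul_conj, Complex.normSq_eq_norm_sq]
    rw [g1, Finset.sum_comm]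
    have g2 : ∑ e ∈ E, ∑ c ∈ C, ∑ e' ∈ E, G (c + e) * (starRingEnd ℂ) (G (c + e')) =
        ∑ x ∈ E ×ˢ E, ∑ p ∈ (Bx n0 N1 M).filter (fun p => p + (x.2 - x.1) ∈ Bx n0 N1 M),
          F p * (starRingEnd ℂ) (F (p + (x.2 - x.1))) := by
      rw [Finset.sum_product (s := E) (t := E)]
      refine Finset.sum_congr rfl (fun (e : ℤ × ℤ) he => ?_)
      rw [Finset.sum_comm]
      exact Finset.sum_congr rfl fun e' he' => hR e e' he he'
    rw [g2]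
    have hmaps : ∀ x ∈ E ×ˢ E, x.2 - x.1 ∈ Dif A := by
      intro x hx
      obtain ⟨k1, k2⟩ := Finset.mem_product.1 hx
      rw [hE, Finset.mem_product, Finset.mem_Ico, Finset.mem_Ico] at k1 k2
      unfold Dif
      rw [Finset.mem_product, Finset.mem_Ioo, Finset.mem_Ioo, Prod.fst_sub, Prod.snd_sub]
      refine ⟨⟨by omega, by omega⟩, by omega, by omega⟩
    rw [← Finset.sum_fiberwise_of_maps_to hmaps]
    refine Finset.sum_congr rfl fun d hd => ?_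
    rw [← vdc_cnt2 A d hd]
    have g3 : ∀ x ∈ (E ×ˢ E).filter (fun x => x.2 - x.1 = d),
        ∑ p ∈ (Bx n0 N1 M).filter (fun p => p + (x.2 - x.1) ∈ Bx n0 N1 M),
          F p * (starRingEnd ℂ) (F (p + (x.2 - x.1))) =
        ∑ p ∈ (Bx n0 N1 M).filter (fun p => p + d ∈ Bx n0 N1 M),
          F p * (starRingEnd ℂ) (F (p + d)) := by
      intro x hx
      rw [(Finset.mem_filter.1 hx).2]
    rw [Finset.sum_congr rfl g3, Finset.sum_const, nsmul_eq_mul]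
  rw [← h4, Complex.ofReal_re]

end Pool.Agent.BSR
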