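import Pool.Agent.BSR.StB
import Pool.Agent.BSQ.VIN
import Pool.Agent.BSQ.WEY

/-!
# BSR, module WA: a window at a minor frequency
-/

set_option autoImplicit false

namespace Pool.Agent.BSR

open Finset MeasureTheory Filter Topology Pool.Agent.BSQ
open scoped BigOperators
open Classical

private theorem wa_ee_add (a b : ℝ) : ee (a + b) = ee a * ee b := by
  unfold ee
  rw [← Complex.exp_add]
  congr 1
  push_cast
  ring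

private theorem wa_norm_ee (a : ℝ) : ‖ee a‖ = 1 := by
  unfold ee
  exact Complex.norm_exp_ofReal_mul_I _

/-- the inner sum. -/
private noncomputable def waS (M k0 X : ℕ) (θ : ℝ) (n : ℕ) : ℂ :=
  ∑ m ∈ Icc 1 M, if k0 ≤ n ^ 2 + m ^ 2 ∧ n ^ 2 + m ^ 2 < k0 + X then ee (θ * (m : ℝ) ^ 2) else 0

private theorem wa_rw (N M k0 X : ℕ) (θ : ℝ) :
    ∑ k ∈ Ico k0 (k0 + X), (rhoS N M k : ℂ) * ee ((k : ℝ) * θ) =
      ((2 / ((N : ℝ) ^ 2 * M) : ℝ) : ℂ) *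
        ∑ n ∈ Icc 1 N, (n : ℂ) * ee ((n : ℝ) ^ 2 * θ) * waS M k0 X θ n := by
  have h1 : ∀ k ∈ Ico k0 (k0 + X), (rhoS N M k : ℂ) * ee ((k : ℝ) * θ) =
      ((2 / ((N : ℝ) ^ 2 * M) : ℝ) : ℂ) * ∑ p ∈ Str N M,
        if sq2 p = k then (p.1 : ℂ) * ee ((sq2 p : ℝ) * θ) else 0 := by
    intro k _
    unfold rhoS
    rw [Complex.ofReal_mul, mul_assoc, Complex.ofReal_sum, sum_mul, sum_filter]
    congr 1
    refine sum_congr rfl ?_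
    intro p _
    by_cases h : sq2 p = k
    · rw [if_pos h, if_pos h, h]
      push_cast
      rfl
    · rw [if_neg h, if_neg h]
  rw [sum_congr rfl h1, ← mul_sum, sum_comm]
  congr 1
  have h2 : ∀ p ∈ Str N M, (∑ k ∈ Ico k0 (k0 + X),
      if sq2 p = k then (p.1 : ℂ) * ee ((sq2 p : ℝ) * θ) else 0) =
      if sq2 p ∈ Ico k0 (k0 + X) then (p.1 : ℂ) * ee ((sq2 p : ℝ) * θ) else 0 := by
    intro p _
    exact Finset.sum_ite_eq _ _ _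
  rw [sum_congr rfl h2]
  unfold Str
  rw [sum_product]
  refine sum_congr rfl ?_
  intro n _
  unfold waS
  rw [mul_sum]
  refine sum_congr rfl ?_
  intro m _
  show (if n ^ 2 + m ^ 2 ∈ Ico k0 (k0 + X) then (n : ℂ) * ee (((n ^ 2 + m ^ 2 : ℕ) : ℝ) * θ) else 0) = _
  by_cases h : k0 ≤ n ^ 2 + m ^ 2 ∧ n ^ 2 + m ^ 2 < k0 + X
  · rw [if_pos (Finset.mem_Ico.2 h), if_pos h, mul_assoc]
    congr 1
    rw [← wa_ee_add]
    congr 1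
    push_cast
    ring
  · rw [if_neg (fun h' => h (Finset.mem_Ico.1 h')), if_neg h, mul_zero]

private theorem wa_triv (M k0 X : ℕ) (θ : ℝ) (n : ℕ) : ‖waS M k0 X θ n‖ ≤ M := by
  unfold waS
  refine le_trans (norm_sum_le _ _) ?_
  have h1 : ∀ m ∈ Icc 1 M, ‖(if k0 ≤ n ^ 2 + m ^ 2 ∧ n ^ 2 + m ^ 2 < k0 + X then
      ee (θ * (m : ℝ) ^ 2) else (0 : ℂ))‖ ≤ 1 := by
    intro m _
    split_ifs
    · rw [wa_norm_ee]
    · rw [norm_zero]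
      exact zero_le_one
  refine le_trans (sum_le_sum h1) ?_
  rw [sum_const, Nat.card_Icc, nsmul_eq_mul, mul_one, Nat.add_sub_cancel]

private theorem wa_full (M Q k0 X : ℕ) (θ : ℝ) (hQ : 1 ≤ Q) (hM : 512 * Q ^ 4 ≤ M)
    (hmin : ∀ q : ℕ, 1 ≤ q → q ≤ 16 * Q ^ 2 →
      32 * (Q : ℝ) ^ 4 / (M : ℝ) ^ 2 < dI ((q : ℝ) * θ)) (n : ℕ)
    (h1 : k0 ≤ n ^ 2 + 1) (h2 : n ^ 2 + M ^ 2 < k0 + X) :
    ‖waS M k0 X θ n‖ ≤ (M : ℝ) / Q := by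
  have h3 : waS M k0 X θ n = ∑ m ∈ Ico 1 (1 + M), ee (θ * (m : ℝ) ^ 2) := by
    unfold waS
    have h4 : Icc 1 M = Ico 1 (1 + M) := by
      ext m
      rw [Finset.mem_Icc, Finset.mem_Ico]
      omega
    rw [h4]
    refine sum_congr rfl ?_
    intro m hm
    rw [Finset.mem_Ico] at hm
    rw [if_pos]
    have h5 : 1 ≤ m ^ 2 := Nat.one_le_pow _ _ hm.1
    have h6 : m ^ 2 ≤ M ^ 2 := Nat.pow_le_pow_left (by omega) 2
    omega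
  rw [h3]
  by_contra h4
  push Not at h4
  obtain ⟨q, hq1, hq2, hq3⟩ := thm_WEY thm_VIN θ 1 M Q hQ hM h4.le
  exact absurd hq3 (not_le.2 (hmin q hq1 hq2))

private theorem wa_zero (M k0 X : ℕ) (θ : ℝ) (n : ℕ)
    (h : n ^ 2 + M ^ 2 < k0 ∨ k0 + X ≤ n ^ 2) : waS M k0 X θ n = 0 := by
  unfold waS
  apply sum_eq_zero
  intro m hm
  rw [Finset.mem_Icc] at hm
  rw [if_neg]
  have h6 : m ^ 2 ≤ M ^ 2 := Nat.pow_le_pow_left hm.2 2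
  omega

private theorem wa_pt (M Q k0 X : ℕ) (θ : ℝ) (hQ : 1 ≤ Q) (hM : 512 * Q ^ 4 ≤ M)
    (hX : M ^ 2 ≤ X)
    (hmin : ∀ q : ℕ, 1 ≤ q → q ≤ 16 * Q ^ 2 →
      32 * (Q : ℝ) ^ 4 / (M : ℝ) ^ 2 < dI ((q : ℝ) * θ)) (n : ℕ) :
    ‖(n : ℂ) * ee ((n : ℝ) ^ 2 * θ) * waS M k0 X θ n‖ ≤
      ((if k0 - 1 ≤ n ^ 2 ∧ n ^ 2 < (k0 - 1) + (X + 1) then (n : ℝ) else 0) * ((M : ℝ) / Q) +
      (if k0 - M ^ 2 ≤ n ^ 2 ∧ n ^ 2 < (k0 - M ^ 2) + M ^ 2 then (n : ℝ) else 0) * M) +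
      (if k0 + X - M ^ 2 ≤ n ^ 2 ∧ n ^ 2 < (k0 + X - M ^ 2) + M ^ 2 then (n : ℝ) else 0) * M := by
  have hn : (0 : ℝ) ≤ n := Nat.cast_nonneg n
  have hMQ : (0 : ℝ) ≤ (M : ℝ) / Q := by positivity
  have hM0 : (0 : ℝ) ≤ (M : ℝ) := Nat.cast_nonneg M
  have i1 : (0 : ℝ) ≤ (if k0 - 1 ≤ n ^ 2 ∧ n ^ 2 < (k0 - 1) + (X + 1) then (n : ℝ) else 0) *
      ((M : ℝ) / Q) := by
    apply mul_nonneg _ hMQ
    split_ifs
    · exact hn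
    · exact le_refl _
  have i2 : (0 : ℝ) ≤ (if k0 - M ^ 2 ≤ n ^ 2 ∧ n ^ 2 < (k0 - M ^ 2) + M ^ 2 then (n : ℝ) else 0) *
      M := by
    apply mul_nonneg _ hM0
    split_ifs
    · exact hn
    · exact le_refl _
  have i3 : (0 : ℝ) ≤ (if k0 + X - M ^ 2 ≤ n ^ 2 ∧ n ^ 2 < (k0 + X - M ^ 2) + M ^ 2 then
      (n : ℝ) else 0) * M := by
    apply mul_nonneg _ hM0
    split_ifs
    · exact hn
    · exact le_refl _
  rw [norm_mul, norm_mul, wa_norm_ee, mul_one, Complex.norm_natCast]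
  by_cases hz : n ^ 2 + M ^ 2 < k0 ∨ k0 + X ≤ n ^ 2
  · rw [wa_zero M k0 X θ n hz, norm_zero, mul_zero]
    linarith
  · by_cases hf : k0 ≤ n ^ 2 + 1 ∧ n ^ 2 + M ^ 2 < k0 + X
    · have h1 := wa_full M Q k0 X θ hQ hM hmin n hf.1 hf.2
      have h2 : k0 - 1 ≤ n ^ 2 ∧ n ^ 2 < (k0 - 1) + (X + 1) := by omega
      rw [if_pos h2]
      have h3 : (n : ℝ) * ‖waS M k0 X θ n‖ ≤ (n : ℝ) * ((M : ℝ) / Q) :=
        mul_le_mul_of_nonneg_left h1 hn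
      linarith
    · have h1 := wa_triv M k0 X θ n
      have h3 : (n : ℝ) * ‖waS M k0 X θ n‖ ≤ (n : ℝ) * M :=
        mul_le_mul_of_nonneg_left h1 hn
      by_cases h2 : k0 ≤ n ^ 2 + 1
      · have h4 : k0 + X - M ^ 2 ≤ n ^ 2 ∧ n ^ 2 < (k0 + X - M ^ 2) + M ^ 2 := by omega
        rw [if_pos h4]
        linarith
      · have h4 : k0 - M ^ 2 ≤ n ^ 2 ∧ n ^ 2 < (k0 - M ^ 2) + M ^ 2 := by omega
        rw [if_pos h4]
        linarith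

private theorem wa_num (N M Q X : ℕ) (hQ : 1 ≤ Q) (hM : 1 ≤ M) (hN : 1 ≤ N)
    (hX : 16 * Q * (M ^ 2 + N) ≤ X) :
    2 / ((N : ℝ) ^ 2 * M) * ((((X + 1 : ℕ) : ℝ) / 2 + N) * ((M : ℝ) / Q) +
      (((M ^ 2 : ℕ) : ℝ) / 2 + N) * M + (((M ^ 2 : ℕ) : ℝ) / 2 + N) * M) ≤
      2 / Q * X / (N : ℝ) ^ 2 := by
  have hQ' : (1 : ℝ) ≤ Q := by exact_mod_cast hQ
  have hM' : (1 : ℝ) ≤ M := by exact_mod_cast hM
  have hN' : (1 : ℝ) ≤ N := by exact_mod_cast hN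
  have hX' : 16 * (Q : ℝ) * ((M : ℝ) ^ 2 + N) ≤ X := by exact_mod_cast hX
  push_cast
  have e1 : 2 / ((N : ℝ) ^ 2 * M) * ((((X : ℝ) + 1) / 2 + N) * ((M : ℝ) / Q) +
      (((M : ℝ) ^ 2) / 2 + N) * M + (((M : ℝ) ^ 2) / 2 + N) * M) =
      2 / (Q * (N : ℝ) ^ 2) * ((((X : ℝ) + 1) / 2 + N) + Q * ((M : ℝ) ^ 2 + 2 * N)) := by
    field_simp
    ring
  have e2 : 2 / (Q : ℝ) * X / (N : ℝ) ^ 2 = 2 / (Q * (N : ℝ) ^ 2) * X := by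
    field_simp
  rw [e1, e2]
  apply mul_le_mul_of_nonneg_left _ (by positivity)
  have h1 : (1 : ℝ) ≤ (M : ℝ) ^ 2 := one_le_pow₀ hM'
  have h2 : (M : ℝ) ^ 2 + N ≤ Q * ((M : ℝ) ^ 2 + N) := by
    have h3 : (0 : ℝ) ≤ ((Q : ℝ) - 1) * ((M : ℝ) ^ 2 + N) :=
      mul_nonneg (by linarith) (by linarith)
    nlinarith
  have h3 : (0 : ℝ) ≤ Q * (M : ℝ) ^ 2 := by positivity
  nlinarith

/-- Module WA. -/
theorem thm_WA (hNS : St_NSUM) : St_WA := by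
  intro N M Q k0 X θ hQ hM hkX hX hmin
  have hM1 : 1 ≤ M := le_trans (by have := Nat.one_le_pow 4 Q hQ; omega) hM
  have hMX : M ^ 2 ≤ X := by
    refine le_trans ?_ hX
    have h1 : 1 * (M ^ 2 + N) ≤ 16 * Q * (M ^ 2 + N) := Nat.mul_le_mul_right _ (by omega)
    omega
  have hN : 1 ≤ N := by
    by_contra h
    have h0 : N = 0 := by omega
    rw [h0] at hkX
    have h1 : 1 ≤ M ^ 2 := Nat.one_le_pow _ _ hM1
    omega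
  rw [wa_rw, norm_mul, Complex.norm_real, Real.norm_of_nonneg (by positivity)]
  refine le_trans ?_ (wa_num N M Q X hQ hM1 hN hX)
  apply mul_le_mul_of_nonneg_left _ (by positivity)
  refine le_trans (norm_sum_le _ _) ?_
  refine le_trans (sum_le_sum (fun n _ => wa_pt M Q k0 X θ hQ hM hMX hmin n)) ?_
  rw [sum_add_distrib, sum_add_distrib, ← sum_mul, ← sum_mul, ← sum_mul, ← sum_filter,
    ← sum_filter, ← sum_filter]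
  have hMQ : (0 : ℝ) ≤ (M : ℝ) / Q := by positivity
  have hM0 : (0 : ℝ) ≤ (M : ℝ) := Nat.cast_nonneg M
  refine add_le_add (add_le_add ?_ ?_) ?_
  · exact mul_le_mul_of_nonneg_right (hNS.1 N (k0 - 1) (X + 1)) hMQ
  · exact mul_le_mul_of_nonneg_right (hNS.1 N (k0 - M ^ 2) (M ^ 2)) hM0
  · exact mul_le_mul_of_nonneg_right (hNS.1 N (k0 + X - M ^ 2) (M ^ 2)) hM0

end Pool.Agent.BSR
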