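import Pool.Agent.BSR.StB

/-!
# BSR/WB1 (helper72): window, very good denominator
-/

set_option autoImplicit false

namespace Pool.Agent.BSR

open Finset MeasureTheory Filter Topology Pool.Agent.BSQ
open scoped BigOperators
open Classical

private theorem wb1_norm (x : ℝ) : ‖ee x‖ = 1 := by
  unfold ee
  exact Complex.norm_exp_ofReal_mul_I _

private theorem wb1_add (x y : ℝ) : ee (x + y) = ee x * ee y := by
  unfold ee
  rw [← Complex.exp_add]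
  congr 1
  push_cast
  ring

private theorem wb1_int (x : ℤ) : ee (x : ℝ) = 1 := by
  unfold ee
  rw [Complex.exp_eq_one_iff]
  refine ⟨x, ?_⟩
  push_cast
  ring

private theorem wb1_lip (x y : ℝ) : ‖ee x - ee y‖ ≤ 2 * Real.pi * |x - y| := by
  have h1 : ee x = ee (x - y) * ee y := by
    rw [← wb1_add]
    congr 1
    ring
  rw [h1]
  have h2 : ee (x - y) * ee y - ee y = (ee (x - y) - 1) * ee y := by ring
  rw [h2, norm_mul, wb1_norm, mul_one]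
  unfold ee
  have h3 := Real.norm_exp_I_mul_ofReal_sub_one_le (x := 2 * Real.pi * (x - y))
  rw [mul_comm] at h3
  refine h3.trans (le_of_eq ?_)
  rw [Real.norm_eq_abs, abs_mul, abs_of_pos Real.two_pi_pos]

/-- a window of the strip measure as a double sum -/
private theorem wb1_pairs (N M K X : ℕ) (F : ℕ → ℂ) :
    ∑ k ∈ Ico K (K + X), (rhoS N M k : ℂ) * F k =
      ((2 / ((N : ℝ) ^ 2 * M) : ℝ) : ℂ) * ∑ m ∈ Icc 1 M,
        ∑ n ∈ (Icc 1 N).filter (fun n => K ≤ n ^ 2 + m ^ 2 ∧ n ^ 2 + m ^ 2 < K + X),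
          (n : ℂ) * F (n ^ 2 + m ^ 2) := by
  have h1 : ∀ k ∈ Ico K (K + X), (rhoS N M k : ℂ) * F k =
      ((2 / ((N : ℝ) ^ 2 * M) : ℝ) : ℂ) *
        ∑ p ∈ Str N M, if sq2 p = k then (p.1 : ℂ) * F (sq2 p) else 0 := by
    intro k _
    rw [← sum_filter]
    unfold rhoS
    rw [Complex.ofReal_mul, mul_assoc]
    congr 1
    rw [Complex.ofReal_sum, sum_mul]
    refine sum_congr rfl fun p hp => ?_
    rw [mem_filter] at hp
    rw [hp.2]
    simp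
  rw [sum_congr rfl h1, ← mul_sum]
  congr 1
  rw [sum_comm]
  unfold Str
  rw [sum_product_right]
  refine sum_congr rfl fun m _ => ?_
  rw [sum_filter]
  refine sum_congr rfl fun n _ => ?_
  rw [sum_ite_eq (Ico K (K + X)) (sq2 (n, m))]
  unfold sq2
  simp only [mem_Ico]

/-- the sum of a periodic function -/
private theorem wb1_per {q : ℕ} (hq : 1 ≤ q) (h : ℕ → ℂ) (hp : ∀ m, h (m + q) = h m)
    (hb : ∀ m, ‖h m‖ ≤ 1) (M : ℕ) :
    ‖∑ m ∈ range M, h m - (M / q : ℝ) * ∑ u ∈ range q, h u‖ ≤ 2 * q := by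
  have hq0 : (0 : ℝ) < q := by exact_mod_cast hq
  have hpt : ∀ t m, h (q * t + m) = h m := by
    intro t
    induction t with
    | zero => intro m; rw [mul_zero, zero_add]
    | succ t ih =>
      intro m
      have e : q * (t + 1) + m = q * t + m + q := by ring
      rw [e, hp, ih]
  have hfull : ∀ t, ∑ m ∈ range (q * t), h m = t * ∑ u ∈ range q, h u := by
    intro t
    induction t with
    | zero => simp
    | succ t ih =>
      rw [mul_add, mul_one, sum_range_add, ih]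
      simp only [hpt]
      push_cast
      ring
  obtain ⟨t, r, hr, hM⟩ : ∃ t r, r < q ∧ M = q * t + r :=
    ⟨M / q, M % q, Nat.mod_lt _ hq, (Nat.div_add_mod M q).symm⟩
  set S := ∑ u ∈ range q, h u with hS
  have hSn : ‖S‖ ≤ q := by
    refine (norm_sum_le _ _).trans ?_
    refine (sum_le_sum fun u _ => hb u).trans ?_
    simp
  have hM' : ∑ m ∈ range M, h m = t * S + ∑ j ∈ range r, h j := by
    rw [hM, sum_range_add, hfull]
    simp only [hpt]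
  have e : ∑ m ∈ range M, h m - (M / q : ℝ) * S = ∑ j ∈ range r, h j - ((r / q : ℝ) : ℂ) * S := by
    rw [hM', hM]
    have hqc : (q : ℂ) ≠ 0 := by exact_mod_cast hq0.ne'
    push_cast
    field_simp
    ring
  rw [e]
  have h1 : ‖∑ j ∈ range r, h j‖ ≤ r := by
    refine (norm_sum_le _ _).trans ?_
    refine (sum_le_sum fun u _ => hb u).trans ?_
    simp
  have h2 : ‖((r / q : ℝ) : ℂ) * S‖ ≤ r := by
    rw [norm_mul, Complex.norm_real, Real.norm_of_nonneg (by positivity)]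
    calc (r : ℝ) / q * ‖S‖ ≤ (r : ℝ) / q * q := by gcongr
      _ = r := by field_simp
  have h3 : (r : ℝ) ≤ q := by exact_mod_cast hr.le
  refine (norm_sub_le _ _).trans ?_
  linarith

/-- the Gauss kernel -/
private noncomputable def wb1_g (a : ℤ) (q n : ℕ) : ℂ := ee ((a : ℝ) * (n : ℝ) ^ 2 / q)

private theorem wb1_g_per (a : ℤ) {q : ℕ} (hq : 1 ≤ q) (n : ℕ) :
    wb1_g a q (n + q) = wb1_g a q n := by
  have hq0 : (q : ℝ) ≠ 0 := by
    have : (0 : ℝ) < q := by exact_mod_cast hq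
    exact this.ne'
  unfold wb1_g
  have e : (a : ℝ) * ((n + q : ℕ) : ℝ) ^ 2 / q =
      (a : ℝ) * (n : ℝ) ^ 2 / q + ((a * (2 * n + q) : ℤ) : ℝ) := by
    push_cast
    field_simp
    ring
  rw [e, wb1_add, wb1_int, mul_one]

private theorem wb1_g_norm (a : ℤ) (q n : ℕ) : ‖wb1_g a q n‖ = 1 := wb1_norm _

private theorem wb1_g_mod (a : ℤ) {q : ℕ} (hq : 1 ≤ q) (n : ℕ) :
    wb1_g a q n = wb1_g a q (n % q) := by
  have h : ∀ t m, wb1_g a q (q * t + m) = wb1_g a q m := by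
    intro t
    induction t with
    | zero => intro m; rw [mul_zero, zero_add]
    | succ t ih =>
      intro m
      have e : q * (t + 1) + m = q * t + m + q := by ring
      rw [e, wb1_g_per a hq, ih]
  conv_lhs => rw [← Nat.div_add_mod n q]
  rw [h]

private noncomputable def wb1_G (a : ℤ) (q : ℕ) : ℂ := ∑ u ∈ range q, wb1_g a q u

private theorem wb1_G_norm (a : ℤ) (q : ℕ) : ‖wb1_G a q‖ ≤ q := by
  unfold wb1_G
  refine (norm_sum_le _ _).trans ?_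
  simp [wb1_g_norm]

/-- the sum over `m` -/
private theorem wb1_msum (a : ℤ) {q : ℕ} (hq : 1 ≤ q) (M : ℕ) :
    ‖∑ m ∈ Icc 1 M, wb1_g a q m - (M / q : ℝ) * wb1_G a q‖ ≤ 2 * q := by
  have h1 : ∑ m ∈ Icc 1 M, wb1_g a q m = ∑ m ∈ range M, wb1_g a q (m + 1) := by
    rw [range_eq_Ico, sum_Ico_add' (fun m => wb1_g a q m) 0 M 1]
    refine sum_congr ?_ fun _ _ => rfl
    ext m
    rw [mem_Icc, mem_Ico]
    omega
  have h2 : wb1_G a q = ∑ u ∈ range q, wb1_g a q (u + 1) := by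
    have h3 := sum_range_succ (fun u => wb1_g a q u) q
    have h4 := sum_range_succ' (fun u => wb1_g a q u) q
    rw [h4] at h3
    have h5 : wb1_g a q q = wb1_g a q 0 := by
      have := wb1_g_per a hq 0
      rwa [zero_add] at this
    rw [h5] at h3
    exact (add_right_cancel h3).symm
  rw [h1, h2]
  exact wb1_per hq (fun m => wb1_g a q (m + 1))
    (fun m => by
      have e : m + q + 1 = m + 1 + q := by ring
      rw [e, wb1_g_per a hq])
    (fun m => (wb1_g_norm a q _).le) M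

/-- the sum over `n` -/
private theorem wb1_nsum (hS : St_NSUM) (a : ℤ) {N q A X : ℕ} (hq : 1 ≤ q) (hqN : q ≤ N)
    (hA : A + X ≤ N ^ 2) :
    ‖∑ n ∈ (Icc 1 N).filter (fun n => A ≤ n ^ 2 ∧ n ^ 2 < A + X), (n : ℂ) * wb1_g a q n -
      ((X / (2 * q) : ℝ) : ℂ) * wb1_G a q‖ ≤ 2 * N * q := by
  have h1 : ∑ n ∈ (Icc 1 N).filter (fun n => A ≤ n ^ 2 ∧ n ^ 2 < A + X), (n : ℂ) * wb1_g a q n =
      ∑ u ∈ range q, wb1_g a q u * ((∑ n ∈ (Icc 1 N).filter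
        (fun n => n % q = u ∧ A ≤ n ^ 2 ∧ n ^ 2 < A + X), (n : ℝ) : ℝ) : ℂ) := by
    have hfib := sum_fiberwise_of_maps_to
      (s := (Icc 1 N).filter (fun n => A ≤ n ^ 2 ∧ n ^ 2 < A + X)) (t := range q)
      (g := fun n => n % q) (fun n _ => mem_range.2 (Nat.mod_lt _ hq))
      (fun n => (n : ℂ) * wb1_g a q n)
    rw [← hfib]
    refine sum_congr rfl fun u _ => ?_
    rw [Complex.ofReal_sum, mul_sum]
    have hset : ((Icc 1 N).filter (fun n => A ≤ n ^ 2 ∧ n ^ 2 < A + X)).filter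
        (fun n => n % q = u) = (Icc 1 N).filter (fun n => n % q = u ∧ A ≤ n ^ 2 ∧ n ^ 2 < A + X) := by
      ext n
      simp only [mem_filter]
      tauto
    rw [hset]
    refine sum_congr rfl fun n hn => ?_
    rw [mem_filter] at hn
    rw [wb1_g_mod a hq n, hn.2.1, Complex.ofReal_natCast, mul_comm]
  rw [h1]
  unfold wb1_G
  rw [mul_sum, ← sum_sub_distrib]
  refine (norm_sum_le _ _).trans ?_
  have h2 : ∀ u ∈ range q, ‖wb1_g a q u * ((∑ n ∈ (Icc 1 N).filter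
        (fun n => n % q = u ∧ A ≤ n ^ 2 ∧ n ^ 2 < A + X), (n : ℝ) : ℝ) : ℂ) -
        ((X / (2 * q) : ℝ) : ℂ) * wb1_g a q u‖ ≤ 2 * N := by
    intro u hu
    have h3 := hS.2.1 N q u A X hq hqN (mem_range.1 hu) hA
    have e : wb1_g a q u * ((∑ n ∈ (Icc 1 N).filter
        (fun n => n % q = u ∧ A ≤ n ^ 2 ∧ n ^ 2 < A + X), (n : ℝ) : ℝ) : ℂ) -
        ((X / (2 * q) : ℝ) : ℂ) * wb1_g a q u = wb1_g a q u * (((∑ n ∈ (Icc 1 N).filter
        (fun n => n % q = u ∧ A ≤ n ^ 2 ∧ n ^ 2 < A + X), (n : ℝ)) - X / (2 * q) : ℝ) : ℂ) := by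
      push_cast
      ring
    rw [e, norm_mul, wb1_g_norm, one_mul, Complex.norm_real, Real.norm_eq_abs]
    exact h3
  refine (sum_le_sum h2).trans (le_of_eq ?_)
  rw [sum_const, card_range, nsmul_eq_mul]
  ring

/-- one small window, at the rational point -/
private theorem wb1_one (hS : St_NSUM) (a : ℤ) {N q K X M : ℕ} (hq : 1 ≤ q) (hqN : q ≤ N)
    (hK : K + X ≤ N ^ 2) (hM : 1 ≤ M) (hMK : M ^ 2 ≤ K) (hN : 1 ≤ N) :
    ‖∑ k ∈ Ico K (K + X), (rhoS N M k : ℂ) * ee ((a : ℝ) * k / q) -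
      ((X / (N : ℝ) ^ 2 : ℝ) : ℂ) * (wb1_G a q / q) ^ 2‖ ≤
      2 * q * X / ((N : ℝ) ^ 2 * M) + 4 * N * q / (N : ℝ) ^ 2 := by
  have hq0 : (0 : ℝ) < q := by exact_mod_cast hq
  have hN0 : (0 : ℝ) < N := by exact_mod_cast hN
  have hM0 : (0 : ℝ) < M := by exact_mod_cast hM
  have hX0 : (0 : ℝ) ≤ X := Nat.cast_nonneg X
  rw [wb1_pairs N M K X (fun k => ee ((a : ℝ) * k / q))]
  set c : ℝ := 2 / ((N : ℝ) ^ 2 * M) with hc
  have hc0 : 0 < c := by rw [hc]; positivity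
  set G := wb1_G a q with hG
  have hGn := wb1_G_norm a q
  rw [← hG] at hGn
  -- inner sums
  have h1 : ∀ m ∈ Icc 1 M, ‖∑ n ∈ (Icc 1 N).filter
      (fun n => K ≤ n ^ 2 + m ^ 2 ∧ n ^ 2 + m ^ 2 < K + X),
      (n : ℂ) * ee ((a : ℝ) * ((n ^ 2 + m ^ 2 : ℕ) : ℝ) / q) -
      wb1_g a q m * (((X / (2 * q) : ℝ) : ℂ) * G)‖ ≤ 2 * N * q := by
    intro m hm
    rw [mem_Icc] at hm
    have hmK : m ^ 2 ≤ K := (Nat.pow_le_pow_left hm.2 2).trans hMK
    have hset : (Icc 1 N).filter (fun n => K ≤ n ^ 2 + m ^ 2 ∧ n ^ 2 + m ^ 2 < K + X) =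
        (Icc 1 N).filter (fun n => K - m ^ 2 ≤ n ^ 2 ∧ n ^ 2 < K - m ^ 2 + X) := by
      apply filter_congr
      intro n _
      omega
    have h2 := wb1_nsum hS a (N := N) (q := q) (A := K - m ^ 2) (X := X) hq hqN (by omega)
    have h3 : ∑ n ∈ (Icc 1 N).filter (fun n => K ≤ n ^ 2 + m ^ 2 ∧ n ^ 2 + m ^ 2 < K + X),
        (n : ℂ) * ee ((a : ℝ) * ((n ^ 2 + m ^ 2 : ℕ) : ℝ) / q) = wb1_g a q m *
        ∑ n ∈ (Icc 1 N).filter (fun n => K - m ^ 2 ≤ n ^ 2 ∧ n ^ 2 < K - m ^ 2 + X),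
          (n : ℂ) * wb1_g a q n := by
      rw [hset, mul_sum]
      refine sum_congr rfl fun n _ => ?_
      have e : (a : ℝ) * ((n ^ 2 + m ^ 2 : ℕ) : ℝ) / q =
          (a : ℝ) * (n : ℝ) ^ 2 / q + (a : ℝ) * (m : ℝ) ^ 2 / q := by
        push_cast
        ring
      rw [e, wb1_add]
      unfold wb1_g
      ring
    rw [h3, ← mul_sub, norm_mul, wb1_g_norm, one_mul]
    exact h2
  have h2 : ‖∑ m ∈ Icc 1 M, ∑ n ∈ (Icc 1 N).filter
      (fun n => K ≤ n ^ 2 + m ^ 2 ∧ n ^ 2 + m ^ 2 < K + X),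
      (n : ℂ) * ee ((a : ℝ) * ((n ^ 2 + m ^ 2 : ℕ) : ℝ) / q) -
      (∑ m ∈ Icc 1 M, wb1_g a q m) * (((X / (2 * q) : ℝ) : ℂ) * G)‖ ≤ M * (2 * N * q) := by
    rw [sum_mul, ← sum_sub_distrib]
    refine (norm_sum_le _ _).trans ((sum_le_sum h1).trans (le_of_eq ?_))
    rw [sum_const, Nat.card_Icc, nsmul_eq_mul]
    simp
  have h3 : ‖(∑ m ∈ Icc 1 M, wb1_g a q m - (M / q : ℝ) * G) * (((X / (2 * q) : ℝ) : ℂ) * G)‖ ≤
      2 * q * (X / (2 * q) * q) := by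
    rw [norm_mul, norm_mul, Complex.norm_real, Real.norm_of_nonneg (by positivity)]
    have h4 := wb1_msum a hq M
    rw [← hG] at h4
    gcongr
  have e : ((c : ℝ) : ℂ) * ∑ m ∈ Icc 1 M, ∑ n ∈ (Icc 1 N).filter
      (fun n => K ≤ n ^ 2 + m ^ 2 ∧ n ^ 2 + m ^ 2 < K + X),
      (n : ℂ) * ee ((a : ℝ) * ((n ^ 2 + m ^ 2 : ℕ) : ℝ) / q) -
      ((X / (N : ℝ) ^ 2 : ℝ) : ℂ) * (G / q) ^ 2 =
      (c : ℂ) * ((∑ m ∈ Icc 1 M, ∑ n ∈ (Icc 1 N).filter
      (fun n => K ≤ n ^ 2 + m ^ 2 ∧ n ^ 2 + m ^ 2 < K + X),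
      (n : ℂ) * ee ((a : ℝ) * ((n ^ 2 + m ^ 2 : ℕ) : ℝ) / q) -
      (∑ m ∈ Icc 1 M, wb1_g a q m) * (((X / (2 * q) : ℝ) : ℂ) * G)) +
      (∑ m ∈ Icc 1 M, wb1_g a q m - (M / q : ℝ) * G) * (((X / (2 * q) : ℝ) : ℂ) * G)) := by
    have hqc : (q : ℂ) ≠ 0 := by exact_mod_cast hq0.ne'
    have hNc : (N : ℂ) ≠ 0 := by exact_mod_cast hN0.ne'
    have hMc : (M : ℂ) ≠ 0 := by exact_mod_cast hM0.ne'
    have e2 : ((X / (N : ℝ) ^ 2 : ℝ) : ℂ) * (G / q) ^ 2 =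
        (c : ℂ) * (((M / q : ℝ) : ℂ) * G * (((X / (2 * q) : ℝ) : ℂ) * G)) := by
      rw [hc]
      push_cast
      field_simp
    rw [e2]
    ring
  rw [e, norm_mul, Complex.norm_real, Real.norm_of_nonneg hc0.le]
  refine (mul_le_mul_of_nonneg_left ((norm_add_le _ _).trans (add_le_add h2 h3)) hc0.le).trans
    (le_of_eq ?_)
  rw [hc]
  field_simp
  ring

/-- the sum over a long window -/
private theorem wb1_split (k0 H2 s : ℕ) (F : ℕ → ℂ) :
    ∑ k ∈ Ico k0 (k0 + H2 * s), F k =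
      ∑ i ∈ range s, ∑ k ∈ Ico (k0 + i * H2) (k0 + i * H2 + H2), F k := by
  induction s with
  | zero => simp
  | succ s ih =>
    rw [sum_range_succ, ← ih, mul_comm s H2,
      sum_Ico_consecutive F (Nat.le_add_right _ _) (Nat.le_add_right _ _)]
    congr 2
    ring

theorem thm_WB1 (hS : St_NSUM) : St_WB1 := by
  intro N Q q k0 H2 s θ hQ hs hq hqQ hkN hH hN hθ
  have hQ0 : (0 : ℝ) < Q := by exact_mod_cast hQ
  have hQ1 : (1 : ℝ) ≤ Q := by exact_mod_cast hQ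
  have hq0 : (0 : ℝ) < q := by exact_mod_cast hq
  have hq1 : (1 : ℝ) ≤ q := by exact_mod_cast hq
  have hN0 : (0 : ℝ) < N := by exact_mod_cast hN
  have hH2 : H2 ≤ N ^ 2 := by nlinarith
  have h64 : 64 * Q ^ 3 ≤ N := by
    have h1 : N * (64 * Q ^ 3) ≤ N * N := by nlinarith
    exact Nat.le_of_mul_le_mul_left h1 (by omega)
  have hqN : q ≤ N := by
    refine hqQ.trans (le_trans ?_ h64)
    have : Q ^ 2 ≤ Q ^ 3 := Nat.pow_le_pow_right hQ (by norm_num)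
    omega
  have hHr : 64 * (N : ℝ) * (Q : ℝ) ^ 3 ≤ H2 := by exact_mod_cast hH
  have hH0 : (0 : ℝ) < H2 := lt_of_lt_of_le (by positivity) hHr
  have hqQr : (q : ℝ) ≤ 16 * (Q : ℝ) ^ 2 := by exact_mod_cast hqQ
  obtain ⟨a, ha⟩ : ∃ a : ℤ, a = round ((q : ℝ) * θ) := ⟨_, rfl⟩
  obtain ⟨τ, hτ⟩ : ∃ τ : ℝ, τ = θ - a / q := ⟨_, rfl⟩
  have hτb : |τ| ≤ 1 / (7 * Q * H2) := by
    have h1 : |(q : ℝ) * θ - a| ≤ 1 / (7 * Q * H2) := by
      rw [ha]
      exact hθ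
    have h2 : (q : ℝ) * θ - a = q * τ := by
      rw [hτ]
      field_simp
    rw [h2, abs_mul, abs_of_pos hq0] at h1
    have h3 : |τ| ≤ q * |τ| := by nlinarith [abs_nonneg τ]
    linarith
  refine ⟨∑ i ∈ range s, ee (((k0 + i * H2 : ℕ) : ℝ) * τ) *
    (((H2 / (N : ℝ) ^ 2 : ℝ) : ℂ) * (wb1_G a q / q) ^ 2), fun M hM hMk => ?_⟩
  have hM1 : 1 ≤ M := by
    have : 1 ≤ Q ^ 4 := Nat.one_le_pow _ _ hQ
    omega
  have hM0 : (0 : ℝ) < M := by exact_mod_cast hM1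
  have hMr : 512 * (Q : ℝ) ^ 4 ≤ M := by exact_mod_cast hM
  have hrho : ∀ k, 0 ≤ rhoS N M k := by
    intro k
    unfold rhoS
    positivity
  rw [wb1_split, ← sum_sub_distrib]
  have hone : ∀ i ∈ range s,
      ‖∑ k ∈ Ico (k0 + i * H2) (k0 + i * H2 + H2), (rhoS N M k : ℂ) * ee ((k : ℝ) * θ) -
        ee (((k0 + i * H2 : ℕ) : ℝ) * τ) *
          (((H2 / (N : ℝ) ^ 2 : ℝ) : ℂ) * (wb1_G a q / q) ^ 2)‖ ≤
        4 / Q * H2 / (N : ℝ) ^ 2 := by
    intro i hi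
    rw [mem_range] at hi
    obtain ⟨K, hK⟩ : ∃ K, K = k0 + i * H2 := ⟨_, rfl⟩
    rw [← hK]
    have hKN : K + H2 ≤ N ^ 2 := by
      have h1 : i * H2 + H2 ≤ H2 * s := by
        have : (i + 1) * H2 ≤ s * H2 := Nat.mul_le_mul_right H2 (by omega)
        linarith [this]
      omega
    have hMK : M ^ 2 ≤ K := by omega
    have h1 := wb1_one hS a hq hqN hKN hM1 hMK hN
    have hmass := hS.2.2 N M K H2 hN hM1
    have h2 : ‖∑ k ∈ Ico K (K + H2), (rhoS N M k : ℂ) * ee ((k : ℝ) * θ) -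
        ee ((K : ℝ) * τ) * ∑ k ∈ Ico K (K + H2), (rhoS N M k : ℂ) * ee ((a : ℝ) * k / q)‖ ≤
        (1 / Q) * ((H2 + 2 * N) / (N : ℝ) ^ 2) := by
      rw [mul_sum, ← sum_sub_distrib]
      refine (norm_sum_le _ _).trans ?_
      have h3 : ∀ k ∈ Ico K (K + H2), ‖(rhoS N M k : ℂ) * ee ((k : ℝ) * θ) -
          ee ((K : ℝ) * τ) * ((rhoS N M k : ℂ) * ee ((a : ℝ) * k / q))‖ ≤
          rhoS N M k * (1 / Q) := by
        intro k hk
        rw [mem_Ico] at hk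
        have e1 : (rhoS N M k : ℂ) * ee ((k : ℝ) * θ) -
            ee ((K : ℝ) * τ) * ((rhoS N M k : ℂ) * ee ((a : ℝ) * k / q)) =
            (rhoS N M k : ℂ) * (ee ((k : ℝ) * θ) - ee ((K : ℝ) * τ + (a : ℝ) * k / q)) := by
          rw [wb1_add]
          ring
        rw [e1, norm_mul, Complex.norm_real, Real.norm_of_nonneg (hrho k)]
        apply mul_le_mul_of_nonneg_left _ (hrho k)
        refine (wb1_lip _ _).trans ?_
        have e2 : (k : ℝ) * θ - ((K : ℝ) * τ + (a : ℝ) * k / q) = (k - K) * τ := by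
          rw [hτ]
          field_simp
          ring
        rw [e2, abs_mul]
        have h4 : |(k : ℝ) - K| ≤ H2 := by
          have h5 : (K : ℝ) ≤ k := by exact_mod_cast hk.1
          have h6 : (k : ℝ) < K + H2 := by exact_mod_cast hk.2
          rw [abs_of_nonneg (by linarith)]
          linarith
        calc 2 * Real.pi * (|(k : ℝ) - K| * |τ|) ≤ 2 * Real.pi * (H2 * (1 / (7 * Q * H2))) := by
              have := Real.pi_pos
              gcongr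
          _ = (2 * Real.pi / 7) * (1 / Q) := by
              field_simp
          _ ≤ 1 * (1 / Q) := by
              have := Real.pi_lt_d2
              gcongr
              linarith
          _ = 1 / Q := one_mul _
      refine (sum_le_sum h3).trans ?_
      rw [← sum_mul, mul_comm]
      exact mul_le_mul_of_nonneg_left hmass (by positivity)
    have e3 : ∑ k ∈ Ico K (K + H2), (rhoS N M k : ℂ) * ee ((k : ℝ) * θ) -
        ee ((K : ℝ) * τ) * (((H2 / (N : ℝ) ^ 2 : ℝ) : ℂ) * (wb1_G a q / q) ^ 2) =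
        (∑ k ∈ Ico K (K + H2), (rhoS N M k : ℂ) * ee ((k : ℝ) * θ) -
        ee ((K : ℝ) * τ) * ∑ k ∈ Ico K (K + H2), (rhoS N M k : ℂ) * ee ((a : ℝ) * k / q)) +
        ee ((K : ℝ) * τ) * (∑ k ∈ Ico K (K + H2), (rhoS N M k : ℂ) * ee ((a : ℝ) * k / q) -
        (((H2 / (N : ℝ) ^ 2 : ℝ) : ℂ) * (wb1_G a q / q) ^ 2)) := by ring
    rw [e3]
    refine (norm_add_le _ _).trans ?_
    rw [norm_mul, wb1_norm, one_mul]
    refine (add_le_add h2 h1).trans ?_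
    -- numerical part
    have hN2 : 0 < (N : ℝ) ^ 2 := by positivity
    have hNH : 64 * (N : ℝ) ≤ H2 := by
      refine le_trans ?_ hHr
      have : (1 : ℝ) ≤ (Q : ℝ) ^ 3 := one_le_pow₀ hQ1
      nlinarith
    have t1 : (1 / Q : ℝ) * ((H2 + 2 * N) / (N : ℝ) ^ 2) ≤ 2 * (H2 / (Q * (N : ℝ) ^ 2)) := by
      have e4 : 2 * ((H2 : ℝ) / (Q * (N : ℝ) ^ 2)) = (1 / Q) * ((2 * H2) / (N : ℝ) ^ 2) := by
        field_simp
      rw [e4]
      gcongr
      linarith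
    have t2 : 2 * (q : ℝ) * H2 / ((N : ℝ) ^ 2 * M) ≤ 1 * (H2 / (Q * (N : ℝ) ^ 2)) := by
      have h5 : 2 * (q : ℝ) * Q ≤ M := by
        refine le_trans ?_ hMr
        have h6 : (Q : ℝ) ^ 3 ≤ (Q : ℝ) ^ 4 := pow_le_pow_right₀ hQ1 (by norm_num)
        have h7 : 2 * (q : ℝ) * Q ≤ 32 * (Q : ℝ) ^ 3 := by nlinarith
        have h8 : 0 ≤ (Q : ℝ) ^ 4 := by positivity
        linarith
      rw [one_mul, div_le_div_iff₀ (by positivity) (by positivity)]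
      calc 2 * (q : ℝ) * H2 * (Q * (N : ℝ) ^ 2) = (2 * (q : ℝ) * Q) * (H2 * (N : ℝ) ^ 2) := by ring
        _ ≤ M * (H2 * (N : ℝ) ^ 2) := by gcongr
        _ = H2 * ((N : ℝ) ^ 2 * M) := by ring
    have t3 : 4 * (N : ℝ) * q / (N : ℝ) ^ 2 ≤ 1 * (H2 / (Q * (N : ℝ) ^ 2)) := by
      rw [one_mul, div_le_div_iff₀ hN2 (by positivity)]
      have h5 : 4 * (N : ℝ) * q * Q ≤ H2 := by
        refine le_trans ?_ hHr
        have h7 : (q : ℝ) * Q ≤ 16 * (Q : ℝ) ^ 3 := by nlinarith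
        nlinarith
      calc 4 * (N : ℝ) * q * (Q * (N : ℝ) ^ 2) = (4 * (N : ℝ) * q * Q) * (N : ℝ) ^ 2 := by ring
        _ ≤ H2 * (N : ℝ) ^ 2 := by gcongr
    have e5 : 4 / (Q : ℝ) * H2 / (N : ℝ) ^ 2 = 4 * (H2 / (Q * (N : ℝ) ^ 2)) := by
      field_simp
    rw [e5]
    linarith
  refine (norm_sum_le _ _).trans ((sum_le_sum hone).trans (le_of_eq ?_))
  rw [sum_const, card_range, nsmul_eq_mul]
  ring

end Pool.Agent.BSR
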