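import Pool.Agent.BSR.StB

/-!
# BSR / WB2: a window without resonance (helper6)
-/

set_option autoImplicit false

namespace Pool.Agent.BSR

open Finset MeasureTheory Filter Topology Pool.Agent.BSQ
open scoped BigOperators
open Classical

private lemma wb2_ee_add (x y : ℝ) : ee (x + y) = ee x * ee y := by
  unfold ee
  rw [← Complex.exp_add]
  congr 1
  push_cast
  ring

private lemma wb2_ee_int (z : ℤ) : ee (z : ℝ) = 1 := by
  unfold ee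
  have h : ((2 * Real.pi * (z : ℝ) : ℝ) : ℂ) * Complex.I = (z : ℂ) * (2 * Real.pi * Complex.I) := by
    push_cast
    ring
  rw [h, Complex.exp_int_mul_two_pi_mul_I]

private lemma wb2_ee_norm (x : ℝ) : ‖ee x‖ = 1 := by
  unfold ee
  exact Complex.norm_exp_ofReal_mul_I _

private lemma wb2_dI_lip (x y : ℝ) : dI y - |x - y| ≤ dI x := by
  unfold dI
  have h1 := round_le y (round x)
  have h2 : |y - round x| ≤ |x - y| + |x - round x| := by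
    have h3 : y - round x = -(x - y) + (x - round x) := by ring
    rw [h3]
    refine (abs_add_le _ _).trans ?_
    rw [abs_neg]
  linarith

private lemma wb2_dI_neg (x : ℝ) : dI (-x) = dI x := by
  have key : ∀ x : ℝ, dI (-x) ≤ dI x := by
    intro x
    unfold dI
    refine (round_le (-x) (-round x)).trans (le_of_eq ?_)
    push_cast
    rw [← abs_neg]
    congr 1
    ring
  refine le_antisymm (key x) ?_
  have h := key (-x)
  rwa [neg_neg] at h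

/-- Kusmin-Landau for one progression -/
private lemma wb2_core (hKL : St_KL) (K n0 q N : ℕ) (τ r R δ : ℝ) (hq : 1 ≤ q) (hδ : 0 < δ)
    (hR : ∀ ν < K, |((n0 + q * ν : ℕ) : ℝ) - r| ≤ R) (hN : ∀ ν < K, n0 + q * ν ≤ N)
    (h1 : 2 * |τ| * R + |τ| * q ≤ δ / 100) (h2 : δ < dI (2 * τ * r)) :
    ‖∑ ν ∈ range K, ((n0 + q * ν : ℕ) : ℂ) * ee (τ * ((n0 + q * ν : ℕ) : ℝ) ^ 2 / q)‖ ≤
      2 * N / (99 / 100 * δ) := by
  have hqp : (0 : ℝ) < q := by exact_mod_cast hq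
  have hq0 : (q : ℝ) ≠ 0 := hqp.ne'
  have hτq : 0 ≤ |τ| * q := mul_nonneg (abs_nonneg _) hqp.le
  have hd : ∀ ν : ℕ, τ * ((n0 + q * (ν + 1) : ℕ) : ℝ) ^ 2 / q -
      τ * ((n0 + q * ν : ℕ) : ℝ) ^ 2 / q = τ * (2 * ((n0 + q * ν : ℕ) : ℝ) + q) := by
    intro ν
    push_cast
    field_simp
    ring
  have h := hKL K (fun ν => if ν < K then ((n0 + q * ν : ℕ) : ℝ) else 0)
    (fun ν => τ * ((n0 + q * ν : ℕ) : ℝ) ^ 2 / q) N (99 / 100 * δ) (by positivity) ?_ ?_ ?_ ?_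
  · refine le_trans (le_of_eq ?_) h
    congr 1
    refine Finset.sum_congr rfl fun ν hν => ?_
    have h3 : (if ν < K then ((n0 + q * ν : ℕ) : ℝ) else 0) = ((n0 + q * ν : ℕ) : ℝ) :=
      if_pos (Finset.mem_range.1 hν)
    show _ = (((if ν < K then ((n0 + q * ν : ℕ) : ℝ) else 0 : ℝ)) : ℂ) * _
    rw [h3, Complex.ofReal_natCast]
  · intro ν
    show 0 ≤ (if ν < K then ((n0 + q * ν : ℕ) : ℝ) else 0) ∧
      (if ν < K then ((n0 + q * ν : ℕ) : ℝ) else 0) ≤ N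
    split_ifs with h3
    · exact ⟨Nat.cast_nonneg _, by exact_mod_cast hN ν h3⟩
    · exact ⟨le_rfl, Nat.cast_nonneg _⟩
  · intro ν hν
    show (if ν < K then ((n0 + q * ν : ℕ) : ℝ) else 0) ≤
      (if ν + 1 < K then ((n0 + q * (ν + 1) : ℕ) : ℝ) else 0)
    rw [if_pos hν, if_pos (lt_trans (Nat.lt_succ_self ν) hν)]
    have h3 : n0 + q * ν ≤ n0 + q * (ν + 1) :=
      Nat.add_le_add_left (Nat.mul_le_mul_left _ (Nat.le_succ ν)) _
    exact_mod_cast h3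
  · intro ν hν
    show 99 / 100 * δ ≤ dI (τ * ((n0 + q * (ν + 1) : ℕ) : ℝ) ^ 2 / q -
      τ * ((n0 + q * ν : ℕ) : ℝ) ^ 2 / q)
    rw [hd ν]
    have h3 := wb2_dI_lip (τ * (2 * ((n0 + q * ν : ℕ) : ℝ) + q)) (2 * τ * r)
    have h4 : |τ * (2 * ((n0 + q * ν : ℕ) : ℝ) + q) - 2 * τ * r| ≤ 2 * |τ| * R + |τ| * q := by
      have h5 : τ * (2 * ((n0 + q * ν : ℕ) : ℝ) + q) - 2 * τ * r =
          2 * τ * (((n0 + q * ν : ℕ) : ℝ) - r) + τ * q := by ring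
      rw [h5]
      refine (abs_add_le _ _).trans ?_
      rw [abs_mul, abs_mul, abs_mul, abs_of_pos hqp, abs_of_pos (by norm_num : (0 : ℝ) < 2)]
      have h6 : 2 * |τ| * |((n0 + q * ν : ℕ) : ℝ) - r| ≤ 2 * |τ| * R :=
        mul_le_mul_of_nonneg_left (hR ν hν) (by positivity)
      linarith
    linarith
  · have h3 : ∀ ν : ℕ, |(τ * ((n0 + q * (ν + 2) : ℕ) : ℝ) ^ 2 / q -
        τ * ((n0 + q * (ν + 1) : ℕ) : ℝ) ^ 2 / q) - (τ * ((n0 + q * (ν + 1) : ℕ) : ℝ) ^ 2 / q -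
        τ * ((n0 + q * ν : ℕ) : ℝ) ^ 2 / q)| = 2 * |τ| * q := by
      intro ν
      rw [hd ν, hd (ν + 1)]
      have h4 : τ * (2 * ((n0 + q * (ν + 1) : ℕ) : ℝ) + q) - τ * (2 * ((n0 + q * ν : ℕ) : ℝ) + q) =
          2 * τ * q := by
        push_cast
        ring
      rw [h4, abs_mul, abs_mul, abs_of_pos hqp, abs_of_pos (by norm_num : (0 : ℝ) < 2)]
    show ∑ ν ∈ range (K - 1), |(τ * ((n0 + q * (ν + 2) : ℕ) : ℝ) ^ 2 / q -
        τ * ((n0 + q * (ν + 1) : ℕ) : ℝ) ^ 2 / q) - (τ * ((n0 + q * (ν + 1) : ℕ) : ℝ) ^ 2 / q -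
        τ * ((n0 + q * ν : ℕ) : ℝ) ^ 2 / q)| ≤ 99 / 100 * δ
    rw [Finset.sum_congr rfl fun ν _ => h3 ν, Finset.sum_const, Finset.card_range, nsmul_eq_mul]
    rcases Nat.lt_or_ge K 2 with hK | hK
    · have h5 : K - 1 = 0 := by omega
      rw [h5, Nat.cast_zero, zero_mul]
      positivity
    · have h5 := hR 0 (by omega)
      have h6 := hR (K - 1) (by omega)
      have h7 : ((n0 + q * (K - 1) : ℕ) : ℝ) - ((n0 + q * 0 : ℕ) : ℝ) = q * ((K - 1 : ℕ) : ℝ) := by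
        push_cast
        ring
      have h8 : (q : ℝ) * ((K - 1 : ℕ) : ℝ) ≤ 2 * R := by
        rw [← h7]
        have h9 := (abs_le.1 h5).1
        have h10 := (abs_le.1 h6).2
        linarith
      have h11 : ((K - 1 : ℕ) : ℝ) * (2 * |τ| * q) = 2 * |τ| * ((q : ℝ) * ((K - 1 : ℕ) : ℝ)) := by
        ring
      rw [h11]
      have h12 : 2 * |τ| * ((q : ℝ) * ((K - 1 : ℕ) : ℝ)) ≤ 2 * |τ| * (2 * R) :=
        mul_le_mul_of_nonneg_left h8 (by positivity)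
      linarith

private lemma wb2_conv (S : Finset ℕ) (h : ∀ a ∈ S, ∀ b ∈ S, ∀ c, a ≤ c → c ≤ b → c ∈ S) :
    ∃ t0 K : ℕ, S = Finset.Ico t0 (t0 + K) := by
  rcases S.eq_empty_or_nonempty with rfl | hne
  · exact ⟨0, 0, by simp⟩
  · refine ⟨S.min' hne, S.max' hne + 1 - S.min' hne, ?_⟩
    have hle := S.min'_le _ (S.max'_mem hne)
    ext x
    rw [Finset.mem_Ico]
    constructor
    · intro hx
      have h1 := S.min'_le x hx
      have h2 := S.le_max' x hx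
      omega
    · rintro ⟨h1, h2⟩
      exact h _ (S.min'_mem hne) _ (S.max'_mem hne) x h1 (by omega)

/-- the elements are close to the square root -/
private lemma wb2_near (n m k0 X : ℕ) (hk0 : 0 < k0) (hmX : m ^ 2 ≤ X) (h1 : k0 ≤ n ^ 2 + m ^ 2)
    (h2 : n ^ 2 + m ^ 2 < k0 + X) : |(n : ℝ) - Real.sqrt k0| ≤ X / Real.sqrt k0 := by
  have hk : (0 : ℝ) < k0 := by exact_mod_cast hk0
  have hr : 0 < Real.sqrt k0 := Real.sqrt_pos.2 hk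
  have hr2 : Real.sqrt k0 ^ 2 = k0 := Real.sq_sqrt hk.le
  have hn : (0 : ℝ) ≤ n := Nat.cast_nonneg n
  have g1 : (k0 : ℝ) ≤ (n : ℝ) ^ 2 + (m : ℝ) ^ 2 := by exact_mod_cast h1
  have g2 : (n : ℝ) ^ 2 + (m : ℝ) ^ 2 < k0 + X := by exact_mod_cast h2
  have g3 : (m : ℝ) ^ 2 ≤ X := by exact_mod_cast hmX
  have g4 : (0 : ℝ) ≤ (m : ℝ) ^ 2 := sq_nonneg _
  rw [le_div_iff₀ hr]
  calc |(n : ℝ) - Real.sqrt k0| * Real.sqrt k0
      ≤ |(n : ℝ) - Real.sqrt k0| * (n + Real.sqrt k0) :=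
        mul_le_mul_of_nonneg_left (by linarith) (abs_nonneg _)
    _ = |((n : ℝ) - Real.sqrt k0) * (n + Real.sqrt k0)| := by
        rw [abs_mul, abs_of_nonneg (by linarith : (0 : ℝ) ≤ n + Real.sqrt k0)]
    _ = |(n : ℝ) ^ 2 - k0| := by
        have h5 : ((n : ℝ) - Real.sqrt k0) * (n + Real.sqrt k0) =
            (n : ℝ) ^ 2 - Real.sqrt k0 ^ 2 := by ring
        rw [h5, hr2]
    _ ≤ X := abs_le.2 ⟨by linarith, by linarith⟩

/-- one residue class -/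
private lemma wb2_class (hKL : St_KL) (N m q u k0 X : ℕ) (θ δ : ℝ) (hq : 1 ≤ q) (hu : u < q)
    (hδ : 0 < δ) (hk : k0 + X ≤ N ^ 2) (hk0 : 0 < k0) (hmX : m ^ 2 ≤ X)
    (h1 : 2 * dI (q * θ) * (X / Real.sqrt k0) + dI (q * θ) * q ≤ δ / 100)
    (h2 : δ < dI (2 * dI (q * θ) * Real.sqrt k0)) :
    ‖∑ n ∈ ((Icc 1 N).filter (fun n => k0 ≤ n ^ 2 + m ^ 2 ∧ n ^ 2 + m ^ 2 < k0 + X)).filter
      (fun n => n % q = u), (n : ℂ) * ee ((n : ℝ) ^ 2 * θ)‖ ≤ 2 * N / (99 / 100 * δ) := by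
  have hqp : (0 : ℝ) < q := by exact_mod_cast hq
  have hq0 : (q : ℝ) ≠ 0 := hqp.ne'
  obtain ⟨a, ha⟩ : ∃ a : ℤ, a = round ((q : ℝ) * θ) := ⟨_, rfl⟩
  obtain ⟨τ, hτ⟩ : ∃ τ : ℝ, τ = (q : ℝ) * θ - a := ⟨_, rfl⟩
  have hτd : |τ| = dI (q * θ) := by rw [hτ, ha]; rfl
  have hθ : θ = (a + τ) / q := by
    rw [hτ]
    field_simp
    ring
  have h3 : dI (2 * τ * Real.sqrt k0) = dI (2 * dI (q * θ) * Real.sqrt k0) := by
    rcases abs_choice τ with h | h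
    · rw [← hτd, h]
    · rw [← hτd, h, ← wb2_dI_neg]
      congr 1
      ring
  obtain ⟨T, hT⟩ : ∃ T : Finset ℕ, T = (range (N + 1)).filter
    (fun t => 1 ≤ u + q * t ∧ k0 ≤ (u + q * t) ^ 2 + m ^ 2 ∧ (u + q * t) ^ 2 + m ^ 2 < k0 + X) :=
    ⟨_, rfl⟩
  have hTm : ∀ t, t ∈ T ↔ t < N + 1 ∧ (1 ≤ u + q * t ∧ k0 ≤ (u + q * t) ^ 2 + m ^ 2 ∧
      (u + q * t) ^ 2 + m ^ 2 < k0 + X) := by
    intro t
    rw [hT, Finset.mem_filter, Finset.mem_range]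
  have hsum : ∑ n ∈ ((Icc 1 N).filter (fun n => k0 ≤ n ^ 2 + m ^ 2 ∧
      n ^ 2 + m ^ 2 < k0 + X)).filter (fun n => n % q = u), (n : ℂ) * ee ((n : ℝ) ^ 2 * θ) =
      ∑ t ∈ T, ((u + q * t : ℕ) : ℂ) * ee (((u + q * t : ℕ) : ℝ) ^ 2 * θ) := by
    have hmod : ∀ n, n % q = u → u + q * (n / q) = n := by
      intro n hn
      rw [← hn]
      exact Nat.mod_add_div n q
    refine Finset.sum_nbij' (fun n => n / q) (fun t => u + q * t) ?_ ?_ ?_ ?_ ?_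
    · intro n hn
      rw [Finset.mem_filter, Finset.mem_filter, Finset.mem_Icc] at hn
      obtain ⟨⟨⟨h4, h5⟩, h6, h7⟩, h8⟩ := hn
      show n / q ∈ T
      rw [hTm, hmod n h8]
      exact ⟨Nat.lt_succ_of_le ((Nat.div_le_self n q).trans h5), h4, h6, h7⟩
    · intro t ht
      rw [hTm] at ht
      obtain ⟨h4, h5, h6, h7⟩ := ht
      rw [Finset.mem_filter, Finset.mem_filter, Finset.mem_Icc]
      have h8 : u + q * t ≤ N := by
        by_contra h9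
        have h10 : N ^ 2 ≤ (u + q * t) ^ 2 := Nat.pow_le_pow_left (by omega) 2
        omega
      refine ⟨⟨⟨h5, h8⟩, h6, h7⟩, ?_⟩
      rw [Nat.add_mul_mod_self_left, Nat.mod_eq_of_lt hu]
    · intro n hn
      rw [Finset.mem_filter] at hn
      exact hmod n hn.2
    · intro t ht
      show (u + q * t) / q = t
      rw [Nat.add_mul_div_left _ _ hq, Nat.div_eq_of_lt hu, zero_add]
    · intro n hn
      rw [Finset.mem_filter] at hn
      show (n : ℂ) * ee ((n : ℝ) ^ 2 * θ) =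
        ((u + q * (n / q) : ℕ) : ℂ) * ee (((u + q * (n / q) : ℕ) : ℝ) ^ 2 * θ)
      rw [hmod n hn.2]
  obtain ⟨t0, K, hTI⟩ := wb2_conv T (by
    intro x hx z hz c hxc hcz
    rw [hTm] at hx hz ⊢
    have h4 : u + q * x ≤ u + q * c := Nat.add_le_add_left (Nat.mul_le_mul_left _ hxc) _
    have h5 : u + q * c ≤ u + q * z := Nat.add_le_add_left (Nat.mul_le_mul_left _ hcz) _
    have h6 := Nat.pow_le_pow_left h4 2
    have h7 := Nat.pow_le_pow_left h5 2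
    refine ⟨by omega, by omega, by omega, by omega⟩)
  have hmem : ∀ ν < K, (1 ≤ u + q * (t0 + ν) ∧ k0 ≤ (u + q * (t0 + ν)) ^ 2 + m ^ 2 ∧
      (u + q * (t0 + ν)) ^ 2 + m ^ 2 < k0 + X) := by
    intro ν hν
    have h4 : t0 + ν ∈ T := by
      rw [hTI, Finset.mem_Ico]
      omega
    exact ((hTm _).1 h4).2
  have hre : ∀ ν : ℕ, u + q * (t0 + ν) = (u + q * t0) + q * ν := fun ν => by ring
  rw [hsum, hTI, Finset.sum_Ico_eq_sum_range, Nat.add_sub_cancel_left]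
  have hterm : ∀ ν : ℕ, ((u + q * (t0 + ν) : ℕ) : ℂ) * ee (((u + q * (t0 + ν) : ℕ) : ℝ) ^ 2 * θ) =
      ee (a * (u : ℝ) ^ 2 / q) * (((u + q * t0 + q * ν : ℕ) : ℂ) *
        ee (τ * ((u + q * t0 + q * ν : ℕ) : ℝ) ^ 2 / q)) := by
    intro ν
    have h4 : ((u + q * (t0 + ν) : ℕ) : ℝ) ^ 2 * θ =
        (a * (u : ℝ) ^ 2 / q + τ * ((u + q * t0 + q * ν : ℕ) : ℝ) ^ 2 / q) +
          ((a * (2 * u * (t0 + ν) + q * (t0 + ν) ^ 2) : ℤ) : ℝ) := by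
      rw [hθ]
      push_cast
      field_simp
      ring
    rw [h4, wb2_ee_add, wb2_ee_int, wb2_ee_add, hre ν]
    ring
  rw [Finset.sum_congr rfl fun ν _ => hterm ν, ← Finset.mul_sum, norm_mul, wb2_ee_norm, one_mul]
  refine wb2_core hKL K (u + q * t0) q N τ (Real.sqrt k0) (X / Real.sqrt k0) δ hq hδ ?_ ?_ ?_ ?_
  · intro ν hν
    obtain ⟨-, h5, h6⟩ := hmem ν hν
    rw [← hre ν]
    exact wb2_near _ m k0 X hk0 hmX h5 h6
  · intro ν hν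
    obtain ⟨-, -, h6⟩ := hmem ν hν
    rw [← hre ν]
    by_contra h9
    have h10 : N ^ 2 ≤ (u + q * (t0 + ν)) ^ 2 := Nat.pow_le_pow_left (by omega) 2
    omega
  · rw [hτd]
    exact h1
  · rw [h3]
    exact h2

/-- one row -/
private lemma wb2_row (hKL : St_KL) (N m q k0 X : ℕ) (θ δ : ℝ) (hq : 1 ≤ q)
    (hδ : 0 < δ) (hk : k0 + X ≤ N ^ 2) (hk0 : 0 < k0) (hmX : m ^ 2 ≤ X)
    (h1 : 2 * dI (q * θ) * (X / Real.sqrt k0) + dI (q * θ) * q ≤ δ / 100)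
    (h2 : δ < dI (2 * dI (q * θ) * Real.sqrt k0)) :
    ‖∑ n ∈ (Icc 1 N).filter (fun n => k0 ≤ n ^ 2 + m ^ 2 ∧ n ^ 2 + m ^ 2 < k0 + X),
      (n : ℂ) * ee ((n : ℝ) ^ 2 * θ)‖ ≤ q * (2 * N / (99 / 100 * δ)) := by
  rw [← Finset.sum_fiberwise_of_maps_to (g := fun n => n % q) (t := range q)
    (fun n _ => Finset.mem_range.2 (Nat.mod_lt n hq))]
  refine (norm_sum_le _ _).trans ?_
  refine (Finset.sum_le_card_nsmul _ _ (2 * N / (99 / 100 * δ)) fun u hu => ?_).trans ?_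
  · exact wb2_class hKL N m q u k0 X θ δ hq (Finset.mem_range.1 hu) hδ hk hk0 hmX h1 h2
  · rw [Finset.card_range, nsmul_eq_mul]

/-- the sum over the strip -/
private lemma wb2_split (N M k0 X : ℕ) (θ : ℝ) :
    ∑ k ∈ Ico k0 (k0 + X), (rhoS N M k : ℂ) * ee ((k : ℝ) * θ) =
      ((2 / ((N : ℝ) ^ 2 * M) : ℝ) : ℂ) * ∑ m ∈ Icc 1 M, ee ((m : ℝ) ^ 2 * θ) *
        ∑ n ∈ (Icc 1 N).filter (fun n => k0 ≤ n ^ 2 + m ^ 2 ∧ n ^ 2 + m ^ 2 < k0 + X),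
          (n : ℂ) * ee ((n : ℝ) ^ 2 * θ) := by
  have h1 : ∀ k : ℕ, (rhoS N M k : ℂ) * ee ((k : ℝ) * θ) = ((2 / ((N : ℝ) ^ 2 * M) : ℝ) : ℂ) *
      ∑ p ∈ Str N M, if sq2 p = k then (p.1 : ℂ) * ee ((sq2 p : ℝ) * θ) else 0 := by
    intro k
    unfold rhoS
    rw [← Finset.sum_filter, Complex.ofReal_mul, Complex.ofReal_sum, mul_assoc, Finset.sum_mul]
    congr 1
    refine Finset.sum_congr rfl fun p hp => ?_
    rw [(Finset.mem_filter.1 hp).2, Complex.ofReal_natCast]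
  rw [Finset.sum_congr rfl fun k _ => h1 k, ← Finset.mul_sum, Finset.sum_comm]
  congr 1
  rw [Str, Finset.sum_product_right]
  refine Finset.sum_congr rfl fun m _ => ?_
  rw [Finset.mul_sum, Finset.sum_filter]
  refine Finset.sum_congr rfl fun n _ => ?_
  rw [Finset.sum_ite_eq]
  have h2 : ((n ^ 2 + m ^ 2 : ℕ) : ℝ) * θ = (m : ℝ) ^ 2 * θ + (n : ℝ) ^ 2 * θ := by
    push_cast
    ring
  have h3 : sq2 (n, m) = n ^ 2 + m ^ 2 := rfl
  rw [h3, h2, wb2_ee_add]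
  by_cases h4 : k0 ≤ n ^ 2 + m ^ 2 ∧ n ^ 2 + m ^ 2 < k0 + X
  · rw [if_pos (Finset.mem_Ico.2 h4), if_pos h4]
    ring
  · rw [if_neg (fun h => h4 (Finset.mem_Ico.1 h)), if_neg h4]

theorem thm_WB2 (hKL : St_KL) : St_WB2 := by
  intro N M M1 Q q k0 X θ δ hQ hq hqQ hN hk hM hM1 hMX hMk hδ h1 h2 h3 h4
  have hk0 : 0 < k0 := lt_of_lt_of_le (by positivity) hMk
  have hX0 : 0 < X := lt_of_lt_of_le (by positivity) hMX
  have hQr : (1 : ℝ) ≤ Q := by exact_mod_cast hQ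
  have hQp : (0 : ℝ) < Q := by linarith
  have hNr : (0 : ℝ) < N := by exact_mod_cast hN
  have hXr : (0 : ℝ) < X := by exact_mod_cast hX0
  have hMr : (0 : ℝ) < M := by exact_mod_cast hM
  have hqr : (0 : ℝ) < q := by exact_mod_cast hq
  have hk0r : (0 : ℝ) < k0 := by exact_mod_cast hk0
  have hr : 0 < Real.sqrt k0 := Real.sqrt_pos.2 hk0r
  have hqQr : (q : ℝ) ≤ 16 * (Q : ℝ) ^ 2 := by exact_mod_cast hqQ
  have hM1r : 512 * (Q : ℝ) ^ 4 ≤ M1 := by exact_mod_cast hM1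
  have hM1p : (0 : ℝ) < M1 := lt_of_lt_of_le (by positivity) hM1r
  have hrN : Real.sqrt k0 ≤ N := by
    rw [Real.sqrt_le_left hNr.le]
    have h5 : k0 ≤ N ^ 2 := le_trans (Nat.le_add_right _ _) hk
    exact_mod_cast h5
  have hb0 : 0 ≤ dI ((q : ℝ) * θ) := abs_nonneg _
  -- the lower bound for `δ`
  have hδ1 : 960 * (Q : ℝ) ^ 6 ≤ δ * M1 := by
    have h5 : 30 * (Q : ℝ) ^ 3 * X ≤ M1 * N := h1.trans (mul_le_mul_of_nonneg_left hrN hM1p.le)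
    have h6 : 30 * (Q : ℝ) ^ 3 * (32 * (N : ℝ) * (Q : ℝ) ^ 3) ≤ 30 * (Q : ℝ) ^ 3 * (δ * X) :=
      mul_le_mul_of_nonneg_left h2 (by positivity)
    have h7 : δ * (30 * (Q : ℝ) ^ 3 * X) ≤ δ * (M1 * N) := mul_le_mul_of_nonneg_left h5 hδ.le
    have h8 : 960 * (Q : ℝ) ^ 6 * N ≤ δ * M1 * N := by
      calc 960 * (Q : ℝ) ^ 6 * N = 30 * (Q : ℝ) ^ 3 * (32 * (N : ℝ) * (Q : ℝ) ^ 3) := by ring
        _ ≤ 30 * (Q : ℝ) ^ 3 * (δ * X) := h6
        _ = δ * (30 * (Q : ℝ) ^ 3 * X) := by ring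
        _ ≤ δ * (M1 * N) := h7
        _ = δ * M1 * N := by ring
    exact le_of_mul_le_mul_right h8 hNr
  have hcond : 2 * dI (q * θ) * (X / Real.sqrt k0) + dI (q * θ) * q ≤ δ / 100 := by
    have h5 : (X : ℝ) / Real.sqrt k0 ≤ M1 / (30 * (Q : ℝ) ^ 3) := by
      rw [div_le_div_iff₀ hr (by positivity)]
      linarith
    have h6 : 2 * dI (q * θ) * (X / Real.sqrt k0) ≤
        2 * (32 * (Q : ℝ) ^ 4 / (M1 : ℝ) ^ 2) * (M1 / (30 * (Q : ℝ) ^ 3)) := by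
      refine mul_le_mul (mul_le_mul_of_nonneg_left h3 (by norm_num)) h5 (by positivity)
        (by positivity)
    have h7 : 2 * (32 * (Q : ℝ) ^ 4 / (M1 : ℝ) ^ 2) * (M1 / (30 * (Q : ℝ) ^ 3)) =
        32 / 15 * Q / M1 := by
      field_simp
      ring
    have h8 : dI (q * θ) * q ≤ (32 * (Q : ℝ) ^ 4 / (M1 : ℝ) ^ 2) * (16 * (Q : ℝ) ^ 2) :=
      mul_le_mul h3 hqQr hqr.le (by positivity)
    have h9 : (32 * (Q : ℝ) ^ 4 / (M1 : ℝ) ^ 2) * (16 * (Q : ℝ) ^ 2) ≤ (Q : ℝ) ^ 2 / M1 := by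
      have h10 : (32 * (Q : ℝ) ^ 4 / (M1 : ℝ) ^ 2) * (16 * (Q : ℝ) ^ 2) =
          (512 * (Q : ℝ) ^ 4 * (Q : ℝ) ^ 2) / ((M1 : ℝ) * M1) := by
        field_simp
        ring
      rw [h10, div_le_div_iff₀ (by positivity) hM1p]
      nlinarith [mul_le_mul_of_nonneg_right hM1r (by positivity : (0 : ℝ) ≤ (Q : ℝ) ^ 2 * M1)]
    have h11 : 32 / 15 * Q / (M1 : ℝ) + (Q : ℝ) ^ 2 / M1 ≤ δ / 100 := by
      rw [← add_div, div_le_div_iff₀ hM1p (by norm_num)]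
      have h12 : (Q : ℝ) ≤ (Q : ℝ) ^ 6 := by
        simpa using pow_le_pow_right₀ hQr (by norm_num : 1 ≤ 6)
      have h13 : (Q : ℝ) ^ 2 ≤ (Q : ℝ) ^ 6 := pow_le_pow_right₀ hQr (by norm_num)
      linarith
    linarith
  -- the rows
  rw [wb2_split, norm_mul, Complex.norm_real, Real.norm_of_nonneg (by positivity)]
  have hrow : ‖∑ m ∈ Icc 1 M, ee ((m : ℝ) ^ 2 * θ) *
      ∑ n ∈ (Icc 1 N).filter (fun n => k0 ≤ n ^ 2 + m ^ 2 ∧ n ^ 2 + m ^ 2 < k0 + X),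
        (n : ℂ) * ee ((n : ℝ) ^ 2 * θ)‖ ≤ M * (q * (2 * N / (99 / 100 * δ))) := by
    refine (norm_sum_le _ _).trans ?_
    refine (Finset.sum_le_card_nsmul _ _ (q * (2 * N / (99 / 100 * δ))) fun m hm => ?_).trans ?_
    · rw [norm_mul, wb2_ee_norm, one_mul]
      have h5 : m ^ 2 ≤ X := (Nat.pow_le_pow_left (Finset.mem_Icc.1 hm).2 2).trans hMX
      exact wb2_row hKL N m q k0 X θ δ hq hδ hk hk0 h5 hcond h4
    · rw [Nat.card_Icc, Nat.add_sub_cancel, nsmul_eq_mul]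
  refine (mul_le_mul_of_nonneg_left hrow (by positivity)).trans ?_
  have h5 : 2 / ((N : ℝ) ^ 2 * M) * (M * (q * (2 * N / (99 / 100 * δ)))) =
      (400 / 99) * q / (N * δ) := by
    field_simp
    ring
  rw [h5]
  have h6 : (400 / 99) * (q : ℝ) / (N * δ) ≤ (400 / 99) * (16 * (Q : ℝ) ^ 2) / (N * δ) := by
    refine div_le_div_of_nonneg_right ?_ (by positivity)
    exact mul_le_mul_of_nonneg_left hqQr (by norm_num)
  refine h6.trans ?_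
  have h7 : 3 / (Q : ℝ) * X / (N : ℝ) ^ 2 = 3 * X / (Q * (N : ℝ) ^ 2) := by
    field_simp
  rw [h7, div_le_div_iff₀ (by positivity) (by positivity)]
  have h8 : (400 / 99) * (16 * (Q : ℝ) ^ 2) * (Q * (N : ℝ) ^ 2) =
      (400 / 198) * N * (32 * N * (Q : ℝ) ^ 3) := by ring
  rw [h8]
  calc (400 / 198) * (N : ℝ) * (32 * N * (Q : ℝ) ^ 3) ≤ (400 / 198) * (N : ℝ) * (δ * X) :=
        mul_le_mul_of_nonneg_left h2 (by positivity)
    _ ≤ 3 * X * (N * δ) := by nlinarith [mul_pos (mul_pos hNr hδ) hXr]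

end Pool.Agent.BSR
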