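import Pool.Agent.BSR.StA
import Pool.Agent.BSQ.VIN

/-!
# BSR, module WEYQ: Weyl's inequality for quadratic phases with linear term, inverse form (helper27)
-/

set_option autoImplicit false

namespace Pool.Agent.BSR

open Finset MeasureTheory Filter Topology Pool.Agent.BSQ
open scoped BigOperators
open Classical

private theorem weyq_add (s t : ℝ) : ee (s + t) = ee s * ee t := by
  unfold ee
  rw [← Complex.exp_add]
  congr 1
  push_cast
  ring

private theorem weyq_norm (t : ℝ) : ‖ee t‖ = 1 := by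
  unfold ee
  exact Complex.norm_exp_ofReal_mul_I _

private theorem weyq_int (z : ℤ) : ee (z : ℝ) = 1 := by
  unfold ee
  rw [Complex.exp_eq_one_iff]
  refine ⟨z, ?_⟩
  push_cast
  ring

private theorem weyq_conj (t : ℝ) : (starRingEnd ℂ) (ee t) = ee (-t) := by
  unfold ee
  rw [← Complex.exp_conj]
  congr 1
  rw [map_mul, Complex.conj_ofReal, Complex.conj_I]
  push_cast
  ring

private theorem weyq_pow (t : ℝ) (j : ℕ) : ee (t * j) = ee t ^ j := by
  induction j with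
  | zero =>
    have := weyq_int 0
    simpa using this
  | succ j ih =>
    rw [pow_succ, ← ih, ← weyq_add]
    congr 1
    push_cast
    ring

private theorem weyq_sub_one (t : ℝ) : 4 * dI t ≤ ‖ee t - 1‖ := by
  have h1 : ee t = ee (t - round t) := by
    have h2 : t = (t - round t) + (round t : ℤ) := by ring
    conv_lhs => rw [h2]
    rw [weyq_add, weyq_int, mul_one]
  rw [h1]
  unfold dI
  have h3 : |t - round t| ≤ 1 / 2 := abs_sub_round t
  set x := t - round t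
  have h4 : ee x = Complex.exp (Complex.I * ((2 * Real.pi * x : ℝ) : ℂ)) := by
    unfold ee
    rw [mul_comm]
  rw [h4, Complex.norm_exp_I_mul_ofReal_sub_one]
  have h5 : 2 * Real.pi * x / 2 = Real.pi * x := by ring
  rw [h5, norm_mul, Real.norm_eq_abs, Real.norm_eq_abs, abs_two]
  have h6 : |Real.pi * x| ≤ Real.pi / 2 := by
    rw [abs_mul, abs_of_pos Real.pi_pos]
    have := mul_le_mul_of_nonneg_left h3 Real.pi_pos.le
    linarith
  have h7 := Real.mul_abs_le_abs_sin h6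
  rw [abs_mul, abs_of_pos Real.pi_pos] at h7
  have h8 : 2 / Real.pi * (Real.pi * |x|) = 2 * |x| := by
    field_simp
  rw [h8] at h7
  linarith

/-- upper bound for `e(x) - 1`. -/
private theorem weyq_sub_one_le (x : ℝ) : ‖ee x - 1‖ ≤ 8 * |x| := by
  have h4 : ee x = Complex.exp (Complex.I * ((2 * Real.pi * x : ℝ) : ℂ)) := by
    unfold ee
    rw [mul_comm]
  rw [h4]
  refine (Real.norm_exp_I_mul_ofReal_sub_one_le).trans ?_
  rw [Real.norm_eq_abs, abs_mul, abs_of_pos (by positivity : (0 : ℝ) < 2 * Real.pi)]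
  have := Real.pi_lt_four
  exact mul_le_mul_of_nonneg_right (by linarith) (abs_nonneg x)

/-- van der Corput's identity. -/
private theorem weyq_vdc (f : ℕ → ℂ) (L : ℕ) :
    Complex.normSq (∑ i ∈ range L, f i) = ∑ i ∈ range L, Complex.normSq (f i) +
      2 * (∑ k ∈ range L, ∑ j ∈ range (L - 1 - k), f (j + k + 1) * (starRingEnd ℂ) (f j)).re := by
  induction L with
  | zero => simp
  | succ L ih =>
    have h1 : ∑ k ∈ range (L + 1), ∑ j ∈ range (L + 1 - 1 - k),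
        f (j + k + 1) * (starRingEnd ℂ) (f j) =
        (∑ k ∈ range L, ∑ j ∈ range (L - 1 - k), f (j + k + 1) * (starRingEnd ℂ) (f j)) +
          f L * (starRingEnd ℂ) (∑ i ∈ range L, f i) := by
      rw [Finset.sum_range_succ]
      have h2 : L + 1 - 1 - L = 0 := by omega
      rw [h2, Finset.range_zero, Finset.sum_empty, add_zero, map_sum, Finset.mul_sum,
        ← Finset.sum_range_reflect (fun i => f L * (starRingEnd ℂ) (f i)), ← Finset.sum_add_distrib]
      refine Finset.sum_congr rfl fun k hk => ?_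
      have hk' := Finset.mem_range.mp hk
      have h3 : L + 1 - 1 - k = (L - 1 - k) + 1 := by omega
      rw [h3, Finset.sum_range_succ]
      congr 2
      congr 1
      omega
    rw [Finset.sum_range_succ, Complex.normSq_add, ih, Finset.sum_range_succ, h1, Complex.add_re]
    have h4 : ((∑ i ∈ range L, f i) * (starRingEnd ℂ) (f L)).re =
        (f L * (starRingEnd ℂ) (∑ i ∈ range L, f i)).re := by
      simp only [Complex.mul_re, Complex.conj_re, Complex.conj_im]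
      ring
    rw [h4]
    ring

private theorem weyq_geom (t : ℝ) (M : ℕ) :
    ‖∑ j ∈ range M, ee (t * j)‖ * (2 * dI t) ≤ 1 := by
  have h1 : (∑ j ∈ range M, ee (t * j)) * (ee t - 1) = ee t ^ M - 1 := by
    simp only [weyq_pow]
    exact geom_sum_mul (ee t) M
  have h2 : ‖∑ j ∈ range M, ee (t * j)‖ * ‖ee t - 1‖ ≤ 2 := by
    rw [← norm_mul, h1]
    calc ‖ee t ^ M - 1‖ ≤ ‖ee t ^ M‖ + ‖(1 : ℂ)‖ := norm_sub_le _ _
      _ = 2 := by rw [norm_pow, weyq_norm, one_pow, norm_one]; norm_num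
  have h3 := mul_le_mul_of_nonneg_left (weyq_sub_one t)
    (norm_nonneg (∑ j ∈ range M, ee (t * j)))
  linarith

private theorem weyq_geom' (t : ℝ) (M : ℕ) : ‖∑ j ∈ range M, ee (t * j)‖ ≤ M := by
  refine (norm_sum_le _ _).trans ?_
  simp only [weyq_norm, Finset.sum_const, Finset.card_range, nsmul_eq_mul, mul_one]
  exact le_refl _

/-- the phase. -/
private noncomputable def weyq_F (α γ : ℝ) (j : ℕ) : ℂ := ee (α * (j : ℝ) ^ 2 + γ * j)

private theorem weyq_F_norm (α γ : ℝ) (j : ℕ) : ‖weyq_F α γ j‖ = 1 := weyq_norm _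

/-- the correlations of the quadratic phases. -/
private theorem weyq_corr (α γ : ℝ) (k M : ℕ) :
    ‖∑ j ∈ range M, weyq_F α γ (j + k + 1) * (starRingEnd ℂ) (weyq_F α γ j)‖ =
    ‖∑ j ∈ range M, ee ((((k + 1 : ℕ) : ℝ) * (2 * α)) * j)‖ := by
  have h1 : ∀ j ∈ range M, weyq_F α γ (j + k + 1) * (starRingEnd ℂ) (weyq_F α γ j) =
      ee (α * (k + 1) ^ 2 + γ * (k + 1)) * ee ((((k + 1 : ℕ) : ℝ) * (2 * α)) * j) := by
    intro j _
    unfold weyq_F
    rw [weyq_conj, ← weyq_add, ← weyq_add]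
    congr 1
    push_cast
    ring
  rw [Finset.sum_congr rfl h1, ← Finset.mul_sum, norm_mul, weyq_norm, one_mul]

/-- the quadratic part. -/
private theorem weyq_quad (hVIN : St_VIN) (α γ : ℝ) (L K : ℕ) (hK : 1 ≤ K) (hL : 512 * K ^ 4 ≤ L)
    (hS : (L : ℝ) / K ≤ ‖∑ j ∈ range L, weyq_F α γ j‖) :
    ∃ q : ℕ, 1 ≤ q ∧ q ≤ 16 * K ^ 2 ∧ dI ((q : ℝ) * α) ≤ 32 * (K : ℝ) ^ 4 / (L : ℝ) ^ 2 := by
  have hK1 : (1 : ℝ) ≤ K := by exact_mod_cast hK
  have hK0 : (0 : ℝ) < K := by linarith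
  have hLr : 512 * (K : ℝ) ^ 4 ≤ L := by exact_mod_cast hL
  have hK2 : (1 : ℝ) ≤ (K : ℝ) ^ 2 := one_le_pow₀ hK1
  have hK4 : (K : ℝ) ^ 2 ≤ (K : ℝ) ^ 4 := pow_le_pow_right₀ hK1 (by norm_num)
  have hL0 : (0 : ℝ) < L := by linarith
  set δ : ℝ := 1 / (8 * (K : ℝ) ^ 2) with hδ
  set ε : ℝ := 4 * (K : ℝ) ^ 2 / L with hε
  have hε0 : 0 < ε := by positivity
  have hδ0 : 0 < δ := by positivity
  have hεδ : ε ≤ δ / 16 := by
    rw [hε, hδ, div_div, div_le_div_iff₀ hL0 (by positivity)]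
    nlinarith
  have hδ1 : δ ≤ 1 := by
    rw [hδ, div_le_one (by positivity)]
    linarith
  have hδL : 1 < δ * L := by
    rw [hδ, div_mul_eq_mul_div, lt_div_iff₀ (by positivity)]
    linarith
  have hcard : δ * L ≤
      (((Icc 1 L).filter (fun h : ℕ => dI ((h : ℝ) * (2 * α)) ≤ ε)).card : ℝ) := by
    by_contra hlt
    push Not at hlt
    have hsq : ((L : ℝ) / K) ^ 2 ≤
        Complex.normSq (∑ i ∈ range L, weyq_F α γ i) := by
      rw [Complex.normSq_eq_norm_sq]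
      exact pow_le_pow_left₀ (by positivity) hS 2
    rw [weyq_vdc (fun i => weyq_F α γ i) L] at hsq
    have h1 : ∑ i ∈ range L, Complex.normSq (weyq_F α γ i) = L := by
      simp only [Complex.normSq_eq_norm_sq, weyq_F_norm, one_pow, Finset.sum_const,
        Finset.card_range, nsmul_eq_mul, mul_one]
    rw [h1] at hsq
    have h2 : (∑ k ∈ range L, ∑ j ∈ range (L - 1 - k),
        weyq_F α γ (j + k + 1) *
          (starRingEnd ℂ) (weyq_F α γ j)).re ≤
        ∑ k ∈ range L, ((if dI (((k + 1 : ℕ) : ℝ) * (2 * α)) ≤ ε then (L : ℝ) else 0) +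
          1 / (2 * ε)) := by
      refine (Complex.re_le_norm _).trans ((norm_sum_le _ _).trans (Finset.sum_le_sum ?_))
      intro k hk
      have hk' := Finset.mem_range.mp hk
      rw [weyq_corr]
      by_cases hd : dI (((k + 1 : ℕ) : ℝ) * (2 * α)) ≤ ε
      · rw [if_pos hd]
        have h3 := weyq_geom' (((k + 1 : ℕ) : ℝ) * (2 * α)) (L - 1 - k)
        have h4 : ((L - 1 - k : ℕ) : ℝ) ≤ L := by
          exact_mod_cast (by omega : L - 1 - k ≤ L)
        have h5 : 0 < 1 / (2 * ε) := by positivity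
        linarith
      · rw [if_neg hd, zero_add]
        push Not at hd
        have h3 := weyq_geom (((k + 1 : ℕ) : ℝ) * (2 * α)) (L - 1 - k)
        rw [le_div_iff₀ (by positivity)]
        refine le_trans ?_ h3
        exact mul_le_mul_of_nonneg_left (by linarith) (norm_nonneg _)
    rw [Finset.sum_add_distrib, Finset.sum_const, Finset.card_range, nsmul_eq_mul,
      ← Finset.sum_filter, Finset.sum_const, nsmul_eq_mul] at h2
    have h3 : ((range L).filter (fun k => dI (((k + 1 : ℕ) : ℝ) * (2 * α)) ≤ ε)).card =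
        ((Icc 1 L).filter (fun h : ℕ => dI ((h : ℝ) * (2 * α)) ≤ ε)).card := by
      refine Finset.card_bij (fun k _ => k + 1) ?_ ?_ ?_
      · intro k hk
        rw [Finset.mem_filter, Finset.mem_range] at hk
        rw [Finset.mem_filter, Finset.mem_Icc]
        exact ⟨⟨by omega, by omega⟩, hk.2⟩
      · intro k _ k' _ h
        omega
      · intro h hh
        rw [Finset.mem_filter, Finset.mem_Icc] at hh
        refine ⟨h - 1, ?_, by omega⟩
        rw [Finset.mem_filter, Finset.mem_range]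
        have h4 : h - 1 + 1 = h := by omega
        rw [h4]
        exact ⟨by omega, hh.2⟩
    rw [h3] at h2
    have h4 : (((Icc 1 L).filter (fun h : ℕ => dI ((h : ℝ) * (2 * α)) ≤ ε)).card : ℝ) * L <
        δ * L * L := mul_lt_mul_of_pos_right hlt hL0
    have h5 : δ * L * L = (L : ℝ) ^ 2 / (8 * (K : ℝ) ^ 2) := by
      rw [hδ]
      ring
    have h6 : (L : ℝ) * (1 / (2 * ε)) = (L : ℝ) ^ 2 / (8 * (K : ℝ) ^ 2) := by
      rw [hε]
      field_simp
      ring
    have h7 : ((L : ℝ) / K) ^ 2 = 8 * ((L : ℝ) ^ 2 / (8 * (K : ℝ) ^ 2)) := by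
      field_simp
    rw [h5] at h4
    rw [h6] at h2
    rw [h7] at hsq
    have h8 : 4 * ((L : ℝ) ^ 2 / (8 * (K : ℝ) ^ 2)) < L := by linarith
    rw [mul_div_assoc', div_lt_iff₀ (by positivity)] at h8
    have h9 : (L : ℝ) < 2 * (K : ℝ) ^ 2 := by
      have h10 : (L : ℝ) * (4 * L) < L * (8 * (K : ℝ) ^ 2) := by
        calc (L : ℝ) * (4 * L) = 4 * (L : ℝ) ^ 2 := by ring
          _ < L * (8 * (K : ℝ) ^ 2) := h8
      have h11 := lt_of_mul_lt_mul_left h10 hL0.le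
      linarith
    linarith
  obtain ⟨q, hq1, hq2, hq3⟩ := hVIN (2 * α) L δ ε hε0 hεδ hδ1 hδL hcard
  refine ⟨2 * q, by omega, ?_, ?_⟩
  · have h1 : (q : ℝ) ≤ 8 * (K : ℝ) ^ 2 := by
      refine hq2.trans (le_of_eq ?_)
      rw [hδ, one_div_one_div]
    have h2 : q ≤ 8 * K ^ 2 := by exact_mod_cast h1
    omega
  · have h1 : ((2 * q : ℕ) : ℝ) * α = (q : ℝ) * (2 * α) := by
      push_cast
      ring
    rw [h1]
    refine hq3.trans (le_of_eq ?_)
    rw [hδ, hε]
    field_simp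
    norm_num

/-- shifting a sum. -/
private theorem weyq_shift (F : ℕ → ℂ) (hF : ∀ j, ‖F j‖ = 1) (L s : ℕ) :
    ‖∑ j ∈ range L, F j - ∑ j ∈ range L, F (j + s)‖ ≤ 2 * s := by
  have h1 : ∑ j ∈ range L, F j + ∑ j ∈ range s, F (L + j) =
      ∑ j ∈ range s, F j + ∑ j ∈ range L, F (j + s) := by
    have e1 : ∑ j ∈ range (L + s), F j = ∑ j ∈ range L, F j + ∑ j ∈ range s, F (L + j) :=
      Finset.sum_range_add F L s
    have e2 : ∑ j ∈ range (s + L), F j = ∑ j ∈ range s, F j + ∑ j ∈ range L, F (s + j) :=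
      Finset.sum_range_add F s L
    rw [← e1, add_comm L s, e2]
    congr 1
    refine Finset.sum_congr rfl fun j _ => ?_
    rw [add_comm]
  have h2 : ∀ G : ℕ → ℂ, (∀ j, ‖G j‖ = 1) → ‖∑ j ∈ range s, G j‖ ≤ s := by
    intro G hG
    refine (norm_sum_le _ _).trans ?_
    simp only [hG, Finset.sum_const, Finset.card_range, nsmul_eq_mul, mul_one]
    exact le_refl _
  have h3 : ∑ j ∈ range L, F j - ∑ j ∈ range L, F (j + s) =
      ∑ j ∈ range s, F j - ∑ j ∈ range s, F (L + j) := by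
    linear_combination h1
  rw [h3]
  have h4 := norm_sub_le (∑ j ∈ range s, F j) (∑ j ∈ range s, F (L + j))
  have h5 := h2 F hF
  have h6 := h2 (fun j => F (L + j)) (fun j => hF _)
  linarith

/-- a long run. -/
private theorem weyq_run (F : ℕ → ℂ) (hF : ∀ j, ‖F j‖ = 1) (L q l : ℕ) (hL : 1 ≤ L)
    (x : ℝ) (hx : x * L + 2 * (q * l) ≤ ‖∑ j ∈ range L, F j‖) :
    ∃ j0 : ℕ, j0 < L ∧ x * l ≤ ‖∑ i ∈ range l, F (j0 + q * i)‖ := by
  by_contra hcon
  push Not at hcon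
  have h1 : ‖(l : ℂ) * ∑ j ∈ range L, F j - ∑ i ∈ range l, ∑ j ∈ range L, F (j + q * i)‖ ≤
      l * (2 * (q * l)) := by
    have h2 : (l : ℂ) * ∑ j ∈ range L, F j - ∑ i ∈ range l, ∑ j ∈ range L, F (j + q * i) =
        ∑ i ∈ range l, (∑ j ∈ range L, F j - ∑ j ∈ range L, F (j + q * i)) := by
      rw [Finset.sum_sub_distrib, Finset.sum_const, Finset.card_range, nsmul_eq_mul]
    rw [h2]
    refine (norm_sum_le _ _).trans ?_
    have h3 : ∀ i ∈ range l, ‖∑ j ∈ range L, F j - ∑ j ∈ range L, F (j + q * i)‖ ≤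
        2 * ((q : ℝ) * l) := by
      intro i hi
      have hi' := Finset.mem_range.mp hi
      have h4 := weyq_shift F hF L (q * i)
      have h5 : ((q * i : ℕ) : ℝ) ≤ q * l := by
        exact_mod_cast Nat.mul_le_mul_left q hi'.le
      linarith
    refine (Finset.sum_le_sum h3).trans ?_
    rw [Finset.sum_const, Finset.card_range, nsmul_eq_mul]
  have h6 : ‖∑ i ∈ range l, ∑ j ∈ range L, F (j + q * i)‖ < L * (x * l) := by
    rw [Finset.sum_comm]
    refine lt_of_le_of_lt (norm_sum_le _ _) ?_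
    have h7 : ∑ j ∈ range L, ‖∑ i ∈ range l, F (j + q * i)‖ < ∑ j ∈ range L, (x * l) := by
      refine Finset.sum_lt_sum_of_nonempty (Finset.nonempty_range_iff.mpr (by omega)) ?_
      intro j hj
      exact hcon j (Finset.mem_range.mp hj)
    rw [Finset.sum_const, Finset.card_range, nsmul_eq_mul] at h7
    exact h7
  have h8 : ‖(l : ℂ) * ∑ j ∈ range L, F j‖ ≤ l * (2 * (q * l)) +
      ‖∑ i ∈ range l, ∑ j ∈ range L, F (j + q * i)‖ := by
    have h9 := norm_add_le ((l : ℂ) * ∑ j ∈ range L, F j -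
      ∑ i ∈ range l, ∑ j ∈ range L, F (j + q * i)) (∑ i ∈ range l, ∑ j ∈ range L, F (j + q * i))
    rw [sub_add_cancel] at h9
    linarith
  rw [norm_mul, Complex.norm_natCast] at h8
  have h10 := mul_le_mul_of_nonneg_left hx (Nat.cast_nonneg (α := ℝ) l)
  nlinarith

private theorem weyq_dI_le (t : ℝ) (z : ℤ) : dI t ≤ |t - z| := by
  unfold dI
  exact round_le t z

/-- the linear part. -/
private theorem weyq_lin (α γ : ℝ) (L K q : ℕ) (hK : 1 ≤ K) (hL : 512 * K ^ 5 ≤ L)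
    (hq1 : 1 ≤ q) (hq2 : q ≤ 16 * K ^ 2)
    (hq3 : dI ((q : ℝ) * α) ≤ 32 * (K : ℝ) ^ 4 / (L : ℝ) ^ 2)
    (hS : (L : ℝ) / K ≤ ‖∑ j ∈ range L, weyq_F α γ j‖) :
    ∀ j : ℕ, j < L → dI ((q : ℝ) * (2 * α * j + γ)) ≤ 900 * (K : ℝ) ^ 5 / L := by
  have hK1 : (1 : ℝ) ≤ K := by exact_mod_cast hK
  have hK0 : (0 : ℝ) < K := by linarith
  have hLr : 512 * (K : ℝ) ^ 5 ≤ L := by exact_mod_cast hL
  have hK45 : (K : ℝ) ^ 4 ≤ (K : ℝ) ^ 5 := pow_le_pow_right₀ hK1 (by norm_num)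
  have hK4 : (1 : ℝ) ≤ (K : ℝ) ^ 4 := one_le_pow₀ hK1
  have hL0 : (0 : ℝ) < L := by linarith
  have hLn : 1 ≤ L := by
    by_contra h
    have h0 : L = 0 := by omega
    rw [h0] at hL0
    simp at hL0
  have hqr : (q : ℝ) ≤ 16 * (K : ℝ) ^ 2 := by exact_mod_cast hq2
  set ρ : ℝ := (q : ℝ) * α - round ((q : ℝ) * α) with hρ
  have hρ1 : |ρ| ≤ 32 * (K : ℝ) ^ 4 / (L : ℝ) ^ 2 := hq3
  -- the length of the runs
  set l : ℕ := ⌊(L : ℝ) / (200 * (K : ℝ) ^ 4)⌋₊ with hl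
  have hx1 : (1 : ℝ) ≤ (L : ℝ) / (200 * (K : ℝ) ^ 4) := by
    rw [le_div_iff₀ (by positivity)]
    linarith
  have hl1 : (l : ℝ) ≤ (L : ℝ) / (200 * (K : ℝ) ^ 4) := Nat.floor_le (by positivity)
  have hl2 : (L : ℝ) / (400 * (K : ℝ) ^ 4) ≤ l := by
    have h1 : 1 ≤ l := Nat.le_floor (by rw [Nat.cast_one]; exact hx1)
    have h2 : (L : ℝ) / (200 * (K : ℝ) ^ 4) < l + 1 := Nat.lt_floor_add_one _
    have h3 : (1 : ℝ) ≤ l := by exact_mod_cast h1
    have h4 : (L : ℝ) / (400 * (K : ℝ) ^ 4) = (L : ℝ) / (200 * (K : ℝ) ^ 4) / 2 := by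
      field_simp
      norm_num
    rw [h4]
    linarith
  have hl0 : (0 : ℝ) < l := lt_of_lt_of_le (by positivity) hl2
  -- a long run
  have hrun := weyq_run (weyq_F α γ) (weyq_F_norm α γ) L q l hLn (21 / (25 * (K : ℝ))) (by
    have h1 : (q : ℝ) * l ≤ 2 / 25 * (L / K) := by
      have h2 : (q : ℝ) * l ≤ 16 * (K : ℝ) ^ 2 * ((L : ℝ) / (200 * (K : ℝ) ^ 4)) :=
        mul_le_mul hqr hl1 hl0.le (by positivity)
      have h3 : 16 * (K : ℝ) ^ 2 * ((L : ℝ) / (200 * (K : ℝ) ^ 4)) = 2 / 25 * (L / K) * (1 / K) := by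
        field_simp
        norm_num
      have h4 : (1 : ℝ) / K ≤ 1 := by
        rw [div_le_one hK0]
        exact hK1
      have h5 : 2 / 25 * ((L : ℝ) / K) * (1 / K) ≤ 2 / 25 * (L / K) * 1 :=
        mul_le_mul_of_nonneg_left h4 (by positivity)
      linarith
    have h6 : 21 / (25 * (K : ℝ)) * L = 21 / 25 * (L / K) := by
      field_simp
    linarith)
  obtain ⟨j0, hj0, hrun⟩ := hrun
  set η : ℝ := (q : ℝ) * (2 * α * j0 + γ) with hη
  -- the phases
  have hph : ∀ i ∈ range l, ‖weyq_F α γ (j0 + q * i) - ee (α * (j0 : ℝ) ^ 2 + γ * j0) * ee (η * i)‖ ≤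
      64 / 625 / K := by
    intro i hi
    have hi' := Finset.mem_range.mp hi
    have h1 : weyq_F α γ (j0 + q * i) =
        ee (α * (j0 : ℝ) ^ 2 + γ * j0) * ee (η * i) * ee (q * ρ * (i : ℝ) ^ 2) := by
      unfold weyq_F
      have h2 : ee ((((q : ℤ) * round ((q : ℝ) * α) * (i : ℤ) ^ 2 : ℤ) : ℝ)) = 1 := weyq_int _
      rw [← mul_one (ee (α * (j0 : ℝ) ^ 2 + γ * j0) * ee (η * i) * ee (q * ρ * (i : ℝ) ^ 2)), ← h2,
        ← weyq_add, ← weyq_add, ← weyq_add]
      congr 1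
      rw [hη, hρ]
      push_cast
      ring
    rw [h1, ← mul_sub_one, norm_mul, norm_mul, weyq_norm, weyq_norm, one_mul, one_mul]
    refine (weyq_sub_one_le _).trans ?_
    rw [abs_mul, abs_mul, abs_of_nonneg (Nat.cast_nonneg q), abs_of_nonneg (by positivity : (0 : ℝ) ≤ (i : ℝ) ^ 2)]
    have h3 : (i : ℝ) ≤ (L : ℝ) / (200 * (K : ℝ) ^ 4) := by
      have : (i : ℝ) ≤ l := by exact_mod_cast hi'.le
      linarith
    have h4 : (i : ℝ) ^ 2 ≤ ((L : ℝ) / (200 * (K : ℝ) ^ 4)) ^ 2 :=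
      pow_le_pow_left₀ (Nat.cast_nonneg i) h3 2
    have h5 : (q : ℝ) * |ρ| * (i : ℝ) ^ 2 ≤ 16 * (K : ℝ) ^ 2 * (32 * (K : ℝ) ^ 4 / (L : ℝ) ^ 2) *
        ((L : ℝ) / (200 * (K : ℝ) ^ 4)) ^ 2 := by
      refine mul_le_mul (mul_le_mul hqr hρ1 (abs_nonneg _) (by positivity)) h4 (by positivity)
        (by positivity)
    have h6 : 8 * (16 * (K : ℝ) ^ 2 * (32 * (K : ℝ) ^ 4 / (L : ℝ) ^ 2) *
        ((L : ℝ) / (200 * (K : ℝ) ^ 4)) ^ 2) = 64 / 625 / K * (1 / K) := by
      field_simp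
      norm_num
    have h7 : (1 : ℝ) / K ≤ 1 := by
      rw [div_le_one hK0]
      exact hK1
    have h8 : 64 / 625 / (K : ℝ) * (1 / K) ≤ 64 / 625 / K * 1 :=
      mul_le_mul_of_nonneg_left h7 (by positivity)
    linarith
  have hgeo : 1 / (2 * (K : ℝ)) * l ≤ ‖∑ i ∈ range l, ee (η * i)‖ := by
    have h1 : ‖∑ i ∈ range l, weyq_F α γ (j0 + q * i)‖ ≤ ‖∑ i ∈ range l, ee (η * i)‖ +
        l * (64 / 625 / K) := by
      have h2 : ∑ i ∈ range l, weyq_F α γ (j0 + q * i) =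
          ee (α * (j0 : ℝ) ^ 2 + γ * j0) * ∑ i ∈ range l, ee (η * i) +
          ∑ i ∈ range l, (weyq_F α γ (j0 + q * i) - ee (α * (j0 : ℝ) ^ 2 + γ * j0) * ee (η * i)) := by
        rw [Finset.sum_sub_distrib, ← Finset.mul_sum]
        ring
      rw [h2]
      refine (norm_add_le _ _).trans ?_
      rw [norm_mul, weyq_norm, one_mul]
      have h3 := (norm_sum_le (range l) (fun i => weyq_F α γ (j0 + q * i) -
        ee (α * (j0 : ℝ) ^ 2 + γ * j0) * ee (η * i))).trans (Finset.sum_le_sum hph)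
      rw [Finset.sum_const, Finset.card_range, nsmul_eq_mul] at h3
      linarith
    have h4 : 21 / (25 * (K : ℝ)) * l = 21 / 25 * (l / K) := by
      field_simp
    have h5 : (l : ℝ) * (64 / 625 / K) = 64 / 625 * (l / K) := by
      field_simp
    have h6 : 1 / (2 * (K : ℝ)) * l = 1 / 2 * (l / K) := by
      field_simp
    have h7 : 0 < (l : ℝ) / K := by positivity
    rw [h4] at hrun
    rw [h5] at h1
    rw [h6]
    linarith
  have hη1 : dI η ≤ 400 * (K : ℝ) ^ 5 / L := by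
    have h1 := weyq_geom η l
    have h0 : 0 ≤ dI η := abs_nonneg _
    have h2 : 1 / (2 * (K : ℝ)) * l * (2 * dI η) ≤ 1 :=
      (mul_le_mul_of_nonneg_right hgeo (by positivity)).trans h1
    have h3 : 1 / (2 * (K : ℝ)) * ((L : ℝ) / (400 * (K : ℝ) ^ 4)) * (2 * dI η) ≤ 1 := by
      refine le_trans ?_ h2
      refine mul_le_mul_of_nonneg_right ?_ (by positivity)
      exact mul_le_mul_of_nonneg_left hl2 (by positivity)
    have h4 : 1 / (2 * (K : ℝ)) * ((L : ℝ) / (400 * (K : ℝ) ^ 4)) * (2 * dI η) =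
        dI η * L / (400 * (K : ℝ) ^ 5) := by
      field_simp
    rw [h4, div_le_one (by positivity)] at h3
    rw [le_div_iff₀ hL0]
    exact h3
  intro j hj
  have h1 := weyq_dI_le ((q : ℝ) * (2 * α * j + γ))
    (round η + 2 * round ((q : ℝ) * α) * ((j : ℤ) - j0))
  have h2 : (q : ℝ) * (2 * α * j + γ) -
      ((round η + 2 * round ((q : ℝ) * α) * ((j : ℤ) - j0) : ℤ) : ℝ) =
      (η - round η) + 2 * ρ * ((j : ℝ) - j0) := by
    rw [hρ]
    push_cast
    have h3 : (q : ℝ) * (2 * α * j + γ) = η + 2 * ((q : ℝ) * α) * ((j : ℝ) - j0) := by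
      rw [hη]
      ring
    rw [h3]
    ring
  rw [h2] at h1
  have h4 : |(j : ℝ) - j0| ≤ L := by
    have h5 : (j : ℝ) < L := by exact_mod_cast hj
    have h6 : (j0 : ℝ) < L := by exact_mod_cast hj0
    have h7 : (0 : ℝ) ≤ j := Nat.cast_nonneg j
    have h8 : (0 : ℝ) ≤ j0 := Nat.cast_nonneg j0
    rw [abs_le]
    constructor <;> linarith
  have h9 : |2 * ρ * ((j : ℝ) - j0)| ≤ 2 * (32 * (K : ℝ) ^ 4 / (L : ℝ) ^ 2) * L := by
    rw [abs_mul, abs_mul, abs_two]
    exact mul_le_mul (mul_le_mul_of_nonneg_left hρ1 (by norm_num)) h4 (abs_nonneg _) (by positivity)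
  have h10 : 2 * (32 * (K : ℝ) ^ 4 / (L : ℝ) ^ 2) * L = 64 * (K : ℝ) ^ 4 / L := by
    field_simp
    norm_num
  have h11 : 64 * (K : ℝ) ^ 4 / L ≤ 64 * (K : ℝ) ^ 5 / L := by
    apply div_le_div_of_nonneg_right _ hL0.le
    linarith
  have h12 := abs_add_le (η - round η) (2 * ρ * ((j : ℝ) - j0))
  have h13 : |η - round η| = dI η := rfl
  have h14 : 400 * (K : ℝ) ^ 5 / L + 64 * (K : ℝ) ^ 5 / L ≤ 900 * (K : ℝ) ^ 5 / L := by
    rw [← add_div]
    apply div_le_div_of_nonneg_right _ hL0.le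
    have : 0 ≤ (K : ℝ) ^ 5 := by positivity
    linarith
  linarith

theorem thm_WEYQ : St_WEYQ := by
  intro α γ L K hK hL hS
  have hL4 : 512 * K ^ 4 ≤ L := by
    refine le_trans ?_ hL
    exact Nat.mul_le_mul_left _ (Nat.pow_le_pow_right hK (by norm_num))
  obtain ⟨q, h1, h2, h3⟩ := weyq_quad thm_VIN α γ L K hK hL4 hS
  exact ⟨q, h1, h2, h3, weyq_lin α γ L K q hK hL h1 h2 h3 hS⟩

end Pool.Agent.BSR
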