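import Pool.Agent.BSR.StB

/-!
# BSR, WINB: windows that are not bad (helper44)
-/

set_option autoImplicit false

namespace Pool.Agent.BSR

open Finset MeasureTheory Filter Topology Pool.Agent.BSQ
open scoped BigOperators
open Classical

theorem thm_WINB (hWLN : St_WLN) : St_WINB := by
  intro k e B CR L N M1 M2 H T H2 s i0 i1 δ b0 b1 hL hSP h12 i hi0 hi1 θ hbad
  have hQ : 1 ≤ L ^ (e + 2) := Nat.one_le_pow _ _ hL
  have h1 : i0 * (H2 * s) ≤ i * (H2 * s) := Nat.mul_le_mul_right _ hi0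
  have h2 : i * (H2 * s) + H2 * s ≤ N ^ 2 := by
    calc i * (H2 * s) + H2 * s = (i + 1) * (H2 * s) := by ring
      _ ≤ i1 * (H2 * s) := Nat.mul_le_mul_right _ hi1
      _ ≤ N ^ 2 := hSP.hi1
  have h3 : Real.sqrt ((i0 : ℝ) * (H2 * s)) ≤ Real.sqrt ((i * (H2 * s) : ℕ) : ℝ) := by
    refine Real.sqrt_le_sqrt ?_
    have : ((i0 * (H2 * s) : ℕ) : ℝ) ≤ ((i * (H2 * s) : ℕ) : ℝ) := by exact_mod_cast h1
    calc (i0 : ℝ) * (H2 * s) = ((i0 * (H2 * s) : ℕ) : ℝ) := by push_cast; ring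
      _ ≤ _ := this
  have h4 : 30 * (((L ^ (e + 2) : ℕ) : ℝ)) ^ 3 * ((H2 : ℝ) * s) ≤
      M1 * Real.sqrt ((i * (H2 * s) : ℕ) : ℝ) := by
    have := hSP.w1
    push_cast at this ⊢
    refine this.trans (mul_le_mul_of_nonneg_left ?_ (Nat.cast_nonneg _))
    have h5 := h3
    push_cast at h5
    exact h5
  have h5 : 32 * (N : ℝ) * (((L ^ (e + 2) : ℕ) : ℝ)) ^ 3 ≤ δ * ((H2 : ℝ) * s) := by
    have := hSP.w2
    push_cast
    exact this
  have h6 : ¬ Bad (16 * (L ^ (e + 2)) ^ 2) (1 / (7 * ((L ^ (e + 2) : ℕ) : ℝ) * H2))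
      (32 * (((L ^ (e + 2) : ℕ) : ℝ)) ^ 4 / (M1 : ℝ) ^ 2) δ ((i * (H2 * s) : ℕ) : ℝ) θ := by
    have e1 := hSP.hb0
    have e2 := hSP.hb1
    push_cast
    rw [e1, e2] at hbad
    push_cast at hbad
    exact hbad
  have h7 := hWLN N M1 M2 (L ^ (e + 2)) (i * (H2 * s)) H2 s δ θ hQ hSP.hs h12 hSP.hM1 h2
    (hSP.hMi.trans h1) hSP.hH2 hSP.hX h4 h5 h6
  have h8 : (i + 1) * (H2 * s) = i * (H2 * s) + H2 * s := by ring
  rw [h8]
  refine h7.trans (le_of_eq ?_)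
  push_cast
  ring

end Pool.Agent.BSR
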