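import Pool.Agent.BSR.StB

/-!
# BSR, WLN: window discrepancy of two strips away from resonances (helper44)
-/

set_option autoImplicit false

namespace Pool.Agent.BSR

open Finset MeasureTheory Filter Topology Pool.Agent.BSQ
open scoped BigOperators
open Classical

theorem thm_WLN (hWA : St_WA) (hWB1 : St_WB1) (hWB2 : St_WB2) : St_WLN := by
  intro N M1 M2 Q k0 H2 s δ θ hQ hs h12 hM1 hk hM2 hH2 hX w1 w2 hbad
  have hM1' : 1 ≤ M1 := by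
    have : 1 ≤ Q ^ 4 := Nat.one_le_pow _ _ hQ
    omega
  have hM2' : 1 ≤ M2 := hM1'.trans h12
  have hXM : M2 ^ 2 ≤ H2 * s := by
    calc M2 ^ 2 ≤ M2 ^ 2 + N := Nat.le_add_right _ _
      _ ≤ 16 * Q * (M2 ^ 2 + N) := Nat.le_mul_of_pos_left _ (by omega)
      _ ≤ H2 * s := hX
  have hX1 : 1 ≤ H2 * s := le_trans (Nat.one_le_pow _ _ hM2') hXM
  have hN : 1 ≤ N := by
    rcases Nat.eq_zero_or_pos N with h | h
    · rw [h] at hk
      have : H2 * s ≤ 0 := by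
        have : (0 : ℕ) ^ 2 = 0 := by norm_num
        omega
      omega
    · exact h
  have hM12 : M1 ^ 2 ≤ M2 ^ 2 := Nat.pow_le_pow_left h12 2
  have hQ0 : (0 : ℝ) < Q := by exact_mod_cast hQ
  have hN0 : (0 : ℝ) < N := by exact_mod_cast hN
  have hXR : (0 : ℝ) < (H2 : ℝ) * s := by exact_mod_cast hX1
  have hδ : 0 < δ := by
    have h1 : (0 : ℝ) < 32 * (N : ℝ) * (Q : ℝ) ^ 3 := by positivity
    by_contra h
    have h2 : δ * (H2 * s) ≤ 0 := mul_nonpos_of_nonpos_of_nonneg (not_lt.1 h) hXR.le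
    linarith
  have hcast : ((H2 * s : ℕ) : ℝ) = (H2 : ℝ) * s := by push_cast; ring
  -- splitting of the sum
  have hsplit : ∑ k ∈ Ico k0 (k0 + H2 * s), ((rhoS N M1 k - rhoS N M2 k : ℝ) : ℂ) *
      ee ((k : ℝ) * θ) = (∑ k ∈ Ico k0 (k0 + H2 * s), (rhoS N M1 k : ℂ) * ee ((k : ℝ) * θ)) -
      ∑ k ∈ Ico k0 (k0 + H2 * s), (rhoS N M2 k : ℂ) * ee ((k : ℝ) * θ) := by
    rw [← Finset.sum_sub_distrib]
    refine Finset.sum_congr rfl fun k _ => ?_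
    push_cast
    ring
  rw [hsplit]
  have hbase : (0 : ℝ) ≤ ((H2 : ℝ) * s) / (N : ℝ) ^ 2 / Q := by positivity
  by_cases hA : ∃ q : ℕ, 1 ≤ q ∧ q ≤ 16 * Q ^ 2 ∧ dI ((q : ℝ) * θ) ≤ 1 / (7 * Q * H2)
  · obtain ⟨q, hq1, hq2, hq3⟩ := hA
    obtain ⟨Z, hZ⟩ := hWB1 N Q q k0 H2 s θ hQ hs hq1 hq2 hk hH2 hN hq3
    have z1 := hZ M1 hM1 (hM12.trans hM2)
    have z2 := hZ M2 (hM1.trans h12) hM2
    have z3 : (∑ k ∈ Ico k0 (k0 + H2 * s), (rhoS N M1 k : ℂ) * ee ((k : ℝ) * θ)) -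
      ∑ k ∈ Ico k0 (k0 + H2 * s), (rhoS N M2 k : ℂ) * ee ((k : ℝ) * θ) =
      ((∑ k ∈ Ico k0 (k0 + H2 * s), (rhoS N M1 k : ℂ) * ee ((k : ℝ) * θ)) - Z) -
      ((∑ k ∈ Ico k0 (k0 + H2 * s), (rhoS N M2 k : ℂ) * ee ((k : ℝ) * θ)) - Z) := by ring
    rw [z3]
    refine (norm_sub_le _ _).trans ((add_le_add z1 z2).trans ?_)
    have e1 : 4 / (Q : ℝ) * (H2 * s) / (N : ℝ) ^ 2 = 4 * (((H2 : ℝ) * s) / (N : ℝ) ^ 2 / Q) := by
      field_simp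
    have e2 : 16 / (Q : ℝ) * (H2 * s) / (N : ℝ) ^ 2 = 16 * (((H2 : ℝ) * s) / (N : ℝ) ^ 2 / Q) := by
      field_simp
    rw [e1, e2]
    linarith
  · push Not at hA
    by_cases hB : ∃ q : ℕ, 1 ≤ q ∧ q ≤ 16 * Q ^ 2 ∧ dI ((q : ℝ) * θ) ≤ 32 * (Q : ℝ) ^ 4 / (M1 : ℝ) ^ 2
    · obtain ⟨q, hq1, hq2, hq3⟩ := hB
      have hres : δ < dI (2 * dI ((q : ℝ) * θ) * Real.sqrt k0) := by
        by_contra h
        exact hbad ⟨q, hq1, hq2, hA q hq1 hq2, hq3, not_lt.1 h⟩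
      have w1' : 30 * (Q : ℝ) ^ 3 * ((H2 * s : ℕ) : ℝ) ≤ M1 * Real.sqrt k0 := by
        rw [hcast]; exact w1
      have w2' : 32 * (N : ℝ) * (Q : ℝ) ^ 3 ≤ δ * ((H2 * s : ℕ) : ℝ) := by
        rw [hcast]; exact w2
      have z1 := hWB2 N M1 M1 Q q k0 (H2 * s) θ δ hQ hq1 hq2 hN hk hM1' hM1 (hM12.trans hXM)
        (hM12.trans hM2) hδ w1' w2' hq3 hres
      have z2 := hWB2 N M2 M1 Q q k0 (H2 * s) θ δ hQ hq1 hq2 hN hk hM2' hM1 hXM hM2 hδ w1' w2' hq3 hres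
      rw [hcast] at z1 z2
      refine (norm_sub_le _ _).trans ((add_le_add z1 z2).trans ?_)
      have e1 : 3 / (Q : ℝ) * (H2 * s) / (N : ℝ) ^ 2 = 3 * (((H2 : ℝ) * s) / (N : ℝ) ^ 2 / Q) := by
        field_simp
      have e2 : 16 / (Q : ℝ) * (H2 * s) / (N : ℝ) ^ 2 = 16 * (((H2 : ℝ) * s) / (N : ℝ) ^ 2 / Q) := by
        field_simp
      rw [e1, e2]
      linarith
    · push Not at hB
      have hX1' : 16 * Q * (M1 ^ 2 + N) ≤ H2 * s :=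
        (Nat.mul_le_mul_left _ (Nat.add_le_add_right hM12 _)).trans hX
      have z1 := hWA N M1 Q k0 (H2 * s) θ hQ hM1 hk hX1' hB
      have z2 := hWA N M2 Q k0 (H2 * s) θ hQ (hM1.trans h12) hk hX (fun q a b => by
        refine lt_of_le_of_lt ?_ (hB q a b)
        have h5 : ((M1 : ℝ)) ^ 2 ≤ (M2 : ℝ) ^ 2 := by exact_mod_cast hM12
        have h6 : (0 : ℝ) < (M1 : ℝ) ^ 2 := by
          have : (0 : ℝ) < M1 := by exact_mod_cast hM1'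
          positivity
        exact div_le_div_of_nonneg_left (by positivity) h6 h5)
      rw [hcast] at z1 z2
      refine (norm_sub_le _ _).trans ((add_le_add z1 z2).trans ?_)
      have e1 : 2 / (Q : ℝ) * (H2 * s) / (N : ℝ) ^ 2 = 2 * (((H2 : ℝ) * s) / (N : ℝ) ^ 2 / Q) := by
        field_simp
      have e2 : 16 / (Q : ℝ) * (H2 * s) / (N : ℝ) ^ 2 = 16 * (((H2 : ℝ) * s) / (N : ℝ) ^ 2 / Q) := by
        field_simp
      rw [e1, e2]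
      linarith

end Pool.Agent.BSR
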