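import Pool.Agent.BSR.DD
import Pool.Agent.BSR.WEYQ
import Pool.Agent.BSR.LINE
import Pool.Agent.BSR.CNT
import Pool.Agent.BSR.SML
import Pool.Agent.BSR.VDC
import Pool.Agent.BSR.BOX
import Pool.Agent.BSR.MIND
import Pool.Agent.BSR.MINA
import Pool.Agent.BSR.MINB
import Pool.Agent.BSR.MINC1
import Pool.Agent.BSR.MINC2
import Pool.Agent.BSR.MIN
import Pool.Agent.BSR.LOC
import Pool.Agent.BSR.ACL
import Pool.Agent.BSR.ENB
import Pool.Agent.BSR.MAJB
import Pool.Agent.BSR.FBM
import Pool.Agent.BSR.FBJ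
import Pool.Agent.BSR.FBOX
import Pool.Agent.BSR.UNF
import Pool.Agent.BSR.UNG
import Pool.Agent.BSR.STRL
import Pool.Agent.BSR.NSUM
import Pool.Agent.BSR.WA
import Pool.Agent.BSR.WB1
import Pool.Agent.BSR.KL
import Pool.Agent.BSR.WB2
import Pool.Agent.BSR.WLN
import Pool.Agent.BSR.LEVC
import Pool.Agent.BSR.LEV
import Pool.Agent.BSR.LEVD
import Pool.Agent.BSR.SQ
import Pool.Agent.BSR.DET
import Pool.Agent.BSR.PAIR
import Pool.Agent.BSR.FAR
import Pool.Agent.BSR.STH
import Pool.Agent.BSR.SPSI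
import Pool.Agent.BSR.STEP
import Pool.Agent.BSR.ENDA
import Pool.Agent.BSR.ENDB
import Pool.Agent.BSR.END
import Pool.Agent.BSR.RESC
import Pool.Agent.BSR.RESP
import Pool.Agent.BSR.RESA
import Pool.Agent.BSR.RES
import Pool.Agent.BSR.STS
import Pool.Agent.BSR.CBD
import Pool.Agent.BSR.SPAR
import Pool.Agent.BSR.WINB
import Pool.Agent.BSR.BADB
import Pool.Agent.BSR.SSB
import Pool.Agent.BSR.COML
import Pool.Agent.BSR.FS0
import Pool.Agent.BSR.PWN
import Pool.Agent.BSR.AEN
import Pool.Agent.BSR.CHM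
import Pool.Agent.BSR.Final
import Pool.Agent.BSQ.All

/-!
# BSR: assembly (helper44)
-/

set_option autoImplicit false

namespace Pool.Agent.BSR

open Finset MeasureTheory Filter Topology
open scoped BigOperators
open Classical
open Pool.Agent.BSQ (all_INT all_AEC all_DFN all_DBR thm_TRF thm_RWF)

theorem all_CNT : St_CNT := thm_CNT thm_LINE
theorem all_BOX : St_BOX := thm_BOX thm_VDC
theorem all_MIND : St_MIND := thm_MIND all_CNT thm_LINE thm_WEYQ
theorem all_MINA : St_MINA := thm_MINA all_CNT all_MIND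
theorem all_MINC2 : St_MINC2 := thm_MINC2 thm_DD
theorem all_MIN : St_MIN := thm_MIN all_MINA thm_MINB thm_MINC1 all_MINC2
theorem all_MAJB : St_MAJB := thm_MAJB thm_LOC thm_ACL
theorem all_FBM : St_FBM := thm_FBM all_MIN thm_ENB
theorem all_FBJ : St_FBJ := thm_FBJ all_CNT all_MAJB
theorem all_FBOX : St_FBOX := thm_FBOX all_BOX thm_SML all_FBM all_FBJ thm_ENB
theorem all_UNF : St_UNF := thm_UNF all_FBOX thm_ENB
theorem all_UNG : St_UNG := thm_UNG all_UNF
theorem all_WA : St_WA := thm_WA thm_NSUM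
theorem all_WB1 : St_WB1 := thm_WB1 thm_NSUM
theorem all_WB2 : St_WB2 := thm_WB2 thm_KL
theorem all_WLN : St_WLN := thm_WLN all_WA all_WB1 all_WB2
theorem all_LEV : St_LEV := thm_LEV thm_LEVC
theorem all_LEVD : St_LEVD := thm_LEVD all_LEV
theorem all_STEP : St_STEP := thm_STEP thm_PAIR all_LEVD thm_SQ thm_STH thm_SPSI
theorem all_END : St_END := thm_END thm_FAR all_LEVD thm_SQ thm_DET thm_ENDA thm_ENDB
theorem all_RESC : St_RESC := thm_RESC all_STEP all_END
theorem all_RES : St_RES := thm_RES thm_RESP thm_RESA all_RESC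
theorem all_WINB : St_WINB := thm_WINB all_WLN
theorem all_BADB : St_BADB := thm_BADB thm_CBD all_RES
theorem all_SSB : St_SSB := thm_SSB thm_SPAR all_WINB all_BADB thm_STS thm_NSUM
theorem all_COML : St_COML := thm_COML thm_STRL
theorem all_FS0 : St_FS0 := thm_FS0 all_COML all_UNF all_UNG all_SSB
theorem all_PWN : St_PWN := thm_PWN all_FS0 thm_TRF thm_RWF
theorem all_AEN : St_AEN := thm_AEN all_PWN all_INT

end Pool.Agent.BSR
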