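import Pool.Agent.BSR.StC

/-!
# BSR, CHM: the chain of exponents (adapted from `Pool.Agent.BSQ.CHN`)
-/

set_option autoImplicit false

namespace Pool.Agent.BSR

open Finset MeasureTheory Filter Topology Pool.Agent.BSQ
open scoped BigOperators
open Classical

private theorem chm_mono {F : ℕ → ℝ} {a b a' b' : ℝ} (h : UnifW F a b) (ha : a ≤ a') (hb : b' ≤ b) :
    UnifW F a' b' := by
  intro ε hε
  obtain ⟨N0, hN0⟩ := h ε hε
  refine ⟨max N0 1, fun N hN M M' h1 h2 h3 h4 => ?_⟩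
  have hN1 : (1 : ℝ) ≤ N := by exact_mod_cast (le_max_right N0 1).trans hN
  have e1 := Real.rpow_le_rpow_of_exponent_le hN1 ha
  have e2 := Real.rpow_le_rpow_of_exponent_le hN1 hb
  exact hN0 N ((le_max_left N0 1).trans hN) M M' (e1.trans h1) (h2.trans e2) (e1.trans h3)
    (h4.trans e2)

private theorem chm_mid {a b : ℝ} (ha : 0 ≤ a) (hab : a < b) :
    ∃ N0 : ℕ, ∀ N : ℕ, N0 ≤ N → ∃ M : ℕ, (N : ℝ) ^ a ≤ M ∧ (M : ℝ) ≤ (N : ℝ) ^ b := by
  have h1 : Tendsto (fun N : ℕ => (N : ℝ) ^ (b - a)) atTop atTop :=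
    (tendsto_rpow_atTop (sub_pos.2 hab)).comp tendsto_natCast_atTop_atTop
  obtain ⟨N0, hN0⟩ := Filter.eventually_atTop.1 (h1.eventually_ge_atTop 2)
  refine ⟨max N0 1, fun N hN => ?_⟩
  have hN1 : (1 : ℝ) ≤ N := by exact_mod_cast (le_max_right N0 1).trans hN
  have h2 := hN0 N ((le_max_left N0 1).trans hN)
  have h3 : (1 : ℝ) ≤ (N : ℝ) ^ a := Real.one_le_rpow hN1 ha
  have h4 : (N : ℝ) ^ b = (N : ℝ) ^ a * (N : ℝ) ^ (b - a) := by
    rw [← Real.rpow_add (by linarith)]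
    congr 1
    ring
  refine ⟨⌈(N : ℝ) ^ a⌉₊, Nat.le_ceil _, ?_⟩
  have h5 := (Nat.ceil_lt_add_one (zero_le_one.trans h3)).le
  refine h5.trans ?_
  rw [h4]
  nlinarith

private theorem chm_glue {F : ℕ → ℝ} {a b a' b' : ℝ} (h : UnifW F a b) (h' : UnifW F a' b')
    (ha' : 0 ≤ a') (haa : a ≤ a') (hab : a' < b) (hbb : b ≤ b') : UnifW F a b' := by
  intro ε hε
  obtain ⟨N1, hN1⟩ := h (ε / 2) (by linarith)
  obtain ⟨N2, hN2⟩ := h' (ε / 2) (by linarith)
  obtain ⟨N3, hN3⟩ := chm_mid ha' hab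
  refine ⟨max (max N1 N2) (max N3 1), fun N hN M M' h1 h2 h3 h4 => ?_⟩
  have g1 : N1 ≤ N := (le_max_left _ _).trans ((le_max_left _ _).trans hN)
  have g2 : N2 ≤ N := (le_max_right _ _).trans ((le_max_left _ _).trans hN)
  have g3 : N3 ≤ N := (le_max_left _ _).trans ((le_max_right _ _).trans hN)
  have g4 : (1 : ℝ) ≤ N := by exact_mod_cast (le_max_right _ _).trans ((le_max_right _ _).trans hN)
  obtain ⟨M0, hM1, hM2⟩ := hN3 N g3
  have e1 := Real.rpow_le_rpow_of_exponent_le g4 haa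
  have e2 := Real.rpow_le_rpow_of_exponent_le g4 hbb
  have e3 := Real.rpow_le_rpow_of_exponent_le g4 hab.le
  have key : ∀ K : ℕ, (N : ℝ) ^ a ≤ K → (K : ℝ) ≤ (N : ℝ) ^ b' → |WF F N K - WF F N M0| ≤ ε / 2 := by
    intro K k1 k2
    rcases le_total (K : ℝ) ((N : ℝ) ^ b) with h5 | h5
    · exact hN1 N g1 K M0 k1 h5 (e1.trans hM1) hM2
    · exact hN2 N g2 K M0 (e3.trans h5) k2 hM1 (hM2.trans e2)
  have k1 := key M h1 h2
  have k2 := key M' h3 h4
  have h5 : WF F N M - WF F N M' = (WF F N M - WF F N M0) - (WF F N M' - WF F N M0) := by ring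
  rw [h5]
  refine (abs_sub _ _).trans ?_
  linarith

theorem thm_CHM : St_CHM := by
  intro F δ0 hδ0 hF c1 c2 hc1 hc hc2
  obtain ⟨n, hn⟩ := exists_nat_one_div_lt (show (0 : ℝ) < min (c1 / 2) ((1 - c2) / 2) from
    lt_min (by linarith) (by linarith))
  have hn3 : 1 / ((n : ℝ) + 3) ≤ 1 / ((n : ℝ) + 1) :=
    one_div_le_one_div_of_le (by positivity) (by linarith)
  have n1 : 1 / ((n : ℝ) + 3) < c1 / 2 := (hn3.trans_lt hn).trans_le (min_le_left _ _)
  have n2 : 1 / ((n : ℝ) + 3) < (1 - c2) / 2 := (hn3.trans_lt hn).trans_le (min_le_right _ _)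
  set δ := δ0 n / 2 with hδd
  have hδ : 0 < δ := by rw [hδd]; linarith [hδ0 n]
  -- real exponents
  have hreal : ∀ a b : ℝ, c1 ≤ a → a ≤ b → b ≤ c2 → b - a ≤ δ → UnifW F a b := by
    intro a b ha hab hb hab1
    obtain ⟨q2, h1, h2⟩ := exists_rat_btwn (show b < min (1 - 1 / ((n : ℝ) + 3)) (b + δ / 2) by
      rw [lt_min_iff]
      exact ⟨by linarith, by linarith⟩)
    rw [lt_min_iff] at h2
    obtain ⟨q1, h3, h4⟩ := exists_rat_btwn (show max (1 / ((n : ℝ) + 3)) (a - δ / 2) < a by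
      rw [max_lt_iff]
      exact ⟨by linarith, by linarith⟩)
    rw [max_lt_iff] at h3
    exact chm_mono (hF n q1 q2 h3.1.le (by linarith) h2.1.le (by linarith [h3.2, h2.2])) h4.le h1.le
  have hind : ∀ k : ℕ, ∀ b : ℝ, c1 ≤ b → b ≤ c2 → b ≤ c1 + k * (δ / 2) → UnifW F c1 b := by
    intro k
    induction k with
    | zero =>
      intro b h1 h2 h3
      rw [Nat.cast_zero, zero_mul, add_zero] at h3
      exact hreal c1 b le_rfl h1 h2 (by linarith)
    | succ k ih =>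
      intro b h1 h2 h3
      push_cast at h3
      by_cases h4 : b - δ / 2 ≤ c1
      · exact hreal c1 b le_rfl h1 h2 (by linarith)
      · rw [not_le] at h4
        have h5 := ih (b - δ / 2) h4.le (by linarith) (by linarith)
        have h6 : UnifW F (max c1 (b - 3 * δ / 4)) b := by
          refine hreal _ b (le_max_left _ _) (max_le h1 (by linarith)) h2 ?_
          have h8 := le_max_right c1 (b - 3 * δ / 4)
          linarith
        exact chm_glue h5 h6 (by linarith [le_max_left c1 (b - 3 * δ / 4)]) (le_max_left _ _)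
          (max_lt h4 (by linarith)) (by linarith)
  obtain ⟨k, hk⟩ := exists_nat_ge ((c2 - c1) / (δ / 2))
  refine hind k c2 hc le_rfl ?_
  rw [div_le_iff₀ (by linarith)] at hk
  linarith

end Pool.Agent.BSR
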