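import Pool.Agent.BSR.StA

/-!
# BSR / DD: divided differences of `X / a`

Instead of the Lagrange identity the divided differences are formed recursively, with the product of
the two denominators as common denominator.
-/

set_option autoImplicit false

namespace Pool.Agent.BSR

open Finset MeasureTheory Filter Topology Pool.Agent.BSQ
open scoped BigOperators
open Classical

/-- number of factors of the common denominator -/
private def dd_w : ℕ → ℕ
  | 0 => 0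
  | k + 1 => 2 * dd_w k + 1

/-- number of factors of the coefficients -/
private def dd_u : ℕ → ℕ
  | 0 => 0
  | k + 1 => dd_w k + dd_u k

private theorem dd_wu (k : ℕ) : dd_w k = dd_u k + k := by
  induction k with
  | zero => rfl
  | succ k ih =>
    show 2 * dd_w k + 1 = dd_w k + dd_u k + (k + 1)
    omega

private theorem dd_step_id (X p p' x0 x1 : ℝ) (hp : 0 < p) (hp' : 0 < p') (h0 : 0 < x0)
    (h1 : 0 < x1) (he : p * x1 = x0 * p') (W W' : ℝ) :
    W * W' * (x1 - x0) * (X / (p * x1)) = W' * (W * (X / p)) - W * (W' * (X / p')) := by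
  have e1 : X / p = x1 * (X / (p * x1)) := by
    field_simp
  have e2 : X / p' = x0 * (X / (p * x1)) := by
    rw [he]
    field_simp
  rw [e1, e2]
  ring

private theorem dd_step_bd (E E' W W' B H : ℝ) (hW : 0 ≤ W) (hW' : 0 ≤ W') (hWH : W ≤ H)
    (hWH' : W' ≤ H) (hE : |E| ≤ B) (hE' : |E'| ≤ B) :
    |W' * E - W * E'| ≤ 2 * (H * B) := by
  have h1 : |W' * E - W * E'| ≤ |W' * E| + |W * E'| := abs_sub _ _
  have h2 : |W' * E| ≤ H * B := by
    rw [abs_mul, abs_of_nonneg hW']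
    exact mul_le_mul hWH' hE (abs_nonneg _) (hW'.trans hWH')
  have h3 : |W * E'| ≤ H * B := by
    rw [abs_mul, abs_of_nonneg hW]
    exact mul_le_mul hWH hE' (abs_nonneg _) (hW.trans hWH)
  linarith

/-- the recursive divided difference -/
private theorem dd_claim (X δ : ℝ) (s h : ℕ) (k : ℕ) : ∀ a : ℕ → ℕ,
    (∀ i ≤ k, 0 < a i ∧ dI (X / a i) ≤ δ) →
    (∀ i j, i < j → j ≤ k → a i + s ≤ a j ∧ a j ≤ a i + h) →
    ∃ (W : ℕ) (Z : ℤ), s ^ dd_w k ≤ W ∧ W ≤ h ^ dd_w k ∧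
      |(W : ℝ) * (X / ∏ i ∈ range (k + 1), (a i : ℝ)) - Z| ≤ 2 ^ k * (h : ℝ) ^ dd_u k * δ := by
  induction k with
  | zero =>
    intro a ha _
    refine ⟨1, round (X / a 0), ?_, ?_, ?_⟩
    · show s ^ 0 ≤ 1
      rw [pow_zero]
    · show 1 ≤ h ^ 0
      rw [pow_zero]
    · have h1 := (ha 0 le_rfl).2
      rw [dI] at h1
      simpa [dd_u] using h1
  | succ k ih =>
    intro a ha hd
    obtain ⟨W, Z, w1, w2, w3⟩ := ih a (fun i hi => ha i (by omega))
      (fun i j hij hj => hd i j hij (by omega))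
    obtain ⟨W', Z', w1', w2', w3'⟩ := ih (fun i => a (i + 1)) (fun i hi => ha (i + 1) (by omega))
      (fun i j hij hj => hd (i + 1) (j + 1) (by omega) (by omega))
    obtain ⟨d1, d2⟩ := hd 0 (k + 1) (by omega) le_rfl
    refine ⟨W * W' * (a (k + 1) - a 0), W' * Z - W * Z', ?_, ?_, ?_⟩
    · show s ^ (2 * dd_w k + 1) ≤ _
      have e : s ^ (2 * dd_w k + 1) = s ^ dd_w k * s ^ dd_w k * s := by ring
      rw [e]
      exact Nat.mul_le_mul (Nat.mul_le_mul w1 w1') (by omega)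
    · show _ ≤ h ^ (2 * dd_w k + 1)
      have e : h ^ (2 * dd_w k + 1) = h ^ dd_w k * h ^ dd_w k * h := by ring
      rw [e]
      exact Nat.mul_le_mul (Nat.mul_le_mul w2 w2') (by omega)
    · have hpos : ∀ i ≤ k + 1, (0 : ℝ) < a i := fun i hi => by exact_mod_cast (ha i hi).1
      have hp : (0 : ℝ) < ∏ i ∈ range (k + 1), (a i : ℝ) :=
        prod_pos fun i hi => hpos i (by have := mem_range.1 hi; omega)
      have hp' : (0 : ℝ) < ∏ i ∈ range (k + 1), (a (i + 1) : ℝ) :=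
        prod_pos fun i hi => hpos (i + 1) (by have := mem_range.1 hi; omega)
      have he : (∏ i ∈ range (k + 1), (a i : ℝ)) * (a (k + 1) : ℝ) =
          (a 0 : ℝ) * ∏ i ∈ range (k + 1), (a (i + 1) : ℝ) := by
        rw [← prod_range_succ, prod_range_succ', mul_comm]
      have hcast : (((W * W' * (a (k + 1) - a 0) : ℕ)) : ℝ) =
          (W : ℝ) * W' * ((a (k + 1) : ℝ) - a 0) := by
        rw [Nat.cast_mul, Nat.cast_mul, Nat.cast_sub (by omega)]
      rw [prod_range_succ, hcast, dd_step_id X _ _ _ _ hp hp' (hpos 0 (by omega))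
        (hpos (k + 1) le_rfl) he]
      have hH : (W : ℝ) ≤ (h : ℝ) ^ dd_w k := by exact_mod_cast w2
      have hH' : (W' : ℝ) ≤ (h : ℝ) ^ dd_w k := by exact_mod_cast w2'
      have hb := dd_step_bd _ _ (W : ℝ) (W' : ℝ) _ _ (Nat.cast_nonneg _) (Nat.cast_nonneg _)
        hH hH' w3 w3'
      have e1 : (W' : ℝ) * ((W : ℝ) * (X / ∏ i ∈ range (k + 1), (a i : ℝ))) -
          (W : ℝ) * ((W' : ℝ) * (X / ∏ i ∈ range (k + 1), (a (i + 1) : ℝ))) -
          (((W' : ℤ) * Z - (W : ℤ) * Z' : ℤ) : ℝ) =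
          (W' : ℝ) * ((W : ℝ) * (X / ∏ i ∈ range (k + 1), (a i : ℝ)) - Z) -
          (W : ℝ) * ((W' : ℝ) * (X / ∏ i ∈ range (k + 1), (a (i + 1) : ℝ)) - Z') := by
        push_cast
        ring
      rw [e1]
      refine hb.trans (le_of_eq ?_)
      show _ = 2 ^ (k + 1) * (h : ℝ) ^ (dd_w k + dd_u k) * δ
      ring

/-- a strictly increasing function on an initial segment grows at least linearly -/
private theorem dd_mono {n : ℕ} (f : Fin n → ℕ) (hf : StrictMono f) (d : ℕ) :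
    ∀ (x : ℕ) (hx : x + d < n), f ⟨x, by omega⟩ + d ≤ f ⟨x + d, hx⟩ := by
  induction d with
  | zero =>
    intro x hx
    exact le_rfl
  | succ d ih =>
    intro x hx
    have h1 := ih x (by omega)
    have h2 : f ⟨x + d, by omega⟩ < f ⟨x + (d + 1), hx⟩ := hf (by
      show x + d < x + (d + 1)
      omega)
    omega

/-- the choice of the points -/
private theorem dd_sel (𝒜 : Finset ℕ) (A h s k : ℕ) (hh : 0 < h) (hA : ∀ a ∈ 𝒜, a ≤ A)
    (hc : (A / h + 1) * (k * s) < 𝒜.card) :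
    ∃ a : ℕ → ℕ, (∀ i ≤ k, a i ∈ 𝒜) ∧
      ∀ i j, i < j → j ≤ k → a i + s ≤ a j ∧ a j ≤ a i + h := by
  have hmaps : ∀ a ∈ 𝒜, a / h ∈ range (A / h + 1) := by
    intro a ha
    rw [mem_range]
    have := Nat.div_le_div_right (c := h) (hA a ha)
    omega
  obtain ⟨y, _, hy⟩ := exists_lt_card_fiber_of_mul_lt_card_of_maps_to hmaps
    (n := k * s) (by rw [card_range]; exact hc)
  set B := 𝒜.filter fun x => x / h = y with hB
  set b := B.orderEmbOfFin rfl with hb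
  have hlt : ∀ i ≤ k, i * s < B.card := fun i hi =>
    lt_of_le_of_lt (Nat.mul_le_mul_right s hi) hy
  refine ⟨fun i => if hi : i * s < B.card then b ⟨i * s, hi⟩ else 0, ?_, ?_⟩
  · intro i hi
    simp only [dif_pos (hlt i hi)]
    exact (mem_filter.1 (orderEmbOfFin_mem B rfl _)).1
  · intro i j hij hj
    have hi : i ≤ k := by omega
    simp only [dif_pos (hlt i hi), dif_pos (hlt j hj)]
    have hm := dd_mono (fun x => b x) (b.strictMono) (j * s - i * s) (i * s) (by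
      have := hlt j hj
      have := Nat.mul_le_mul_right s hij.le
      omega)
    have hij2 : i * s + s ≤ j * s := by
      have := Nat.mul_le_mul_right s (show i + 1 ≤ j from hij)
      rw [Nat.add_mul, one_mul] at this
      exact this
    have hidx : (⟨i * s + (j * s - i * s), by have := hlt j hj; omega⟩ : Fin B.card) =
        ⟨j * s, hlt j hj⟩ := by
      apply Fin.ext
      show i * s + (j * s - i * s) = j * s
      omega
    rw [hidx] at hm
    have q1 : (b ⟨i * s, hlt i hi⟩) / h = y := (mem_filter.1 (orderEmbOfFin_mem B rfl _)).2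
    have q2 : (b ⟨j * s, hlt j hj⟩) / h = y := (mem_filter.1 (orderEmbOfFin_mem B rfl _)).2
    constructor
    · omega
    · have r1 := Nat.div_add_mod (b ⟨i * s, hlt i hi⟩) h
      have r2 := Nat.div_add_mod (b ⟨j * s, hlt j hj⟩) h
      have r3 := Nat.mod_lt (b ⟨j * s, hlt j hj⟩) hh
      rw [q1] at r1
      rw [q2] at r2
      omega

private theorem dd_nonneg (t : ℝ) : 0 ≤ dI t := abs_nonneg _

private theorem dd_small {t : ℝ} (ht : |t| < 1 / 2) : dI t = |t| := by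
  have h1 : |t - round t| ≤ |t - (0 : ℤ)| := round_le t 0
  rw [Int.cast_zero, sub_zero] at h1
  have h2 : |(round t : ℝ)| < 1 := by
    have h3 : |(round t : ℝ)| ≤ |t| + |t - round t| := by
      have h4 : (round t : ℝ) = t - (t - round t) := by ring
      calc |(round t : ℝ)| = |t - (t - round t)| := by rw [← h4]
        _ ≤ |t| + |t - round t| := abs_sub _ _
    linarith
  have h3 : round t = 0 := by
    apply Int.abs_lt_one_iff.1
    exact_mod_cast h2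
  rw [dI, h3, Int.cast_zero, sub_zero]

/-- the statement for the induction -/
private def dd_S (k c C : ℕ) : Prop := ∀ (K A : ℕ) (𝒜 : Finset ℕ) (X δ : ℝ), C ≤ K → K ^ C ≤ A →
  (∀ a ∈ 𝒜, a ≤ A ∧ A ≤ K * a) → A ≤ K * 𝒜.card → δ ≤ (K : ℝ) / A →
  |X| * (K : ℝ) ^ c ≤ (A : ℝ) ^ (k + 1) → (∀ a ∈ 𝒜, dI (X / a) ≤ δ) → |X| ≤ A * δ

private theorem dd_ne {K A : ℕ} {𝒜 : Finset ℕ} (hA : 0 < A) (h : A ≤ K * 𝒜.card) :
    𝒜.Nonempty := by
  rw [← card_pos]
  rcases Nat.eq_zero_or_pos 𝒜.card with h0 | h0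
  · rw [h0, mul_zero] at h
    omega
  · exact h0

private theorem dd_base : dd_S 0 2 3 := by
  intro K A 𝒜 X δ hK hKA h𝒜 hcard _ hX hdI
  have hK0 : 0 < K := by omega
  have hA0 : 0 < A := lt_of_lt_of_le (pow_pos hK0 3) hKA
  obtain ⟨a, ha⟩ := dd_ne hA0 hcard
  obtain ⟨a1, a2⟩ := h𝒜 a ha
  have ha0 : 0 < a := by
    rcases Nat.eq_zero_or_pos a with h0 | h0
    · rw [h0, mul_zero] at a2
      omega
    · exact h0
  have haR : (0 : ℝ) < a := by exact_mod_cast ha0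
  have hKR : (3 : ℝ) ≤ K := by exact_mod_cast hK
  have haA : (a : ℝ) ≤ A := by exact_mod_cast a1
  have hAa : (A : ℝ) ≤ K * a := by exact_mod_cast a2
  have hδ := hdI a ha
  have h1 : |X / a| < 1 / 2 := by
    rw [abs_div, abs_of_pos haR, div_lt_iff₀ haR]
    rw [zero_add, pow_one] at hX
    have h2 : |X| * (K : ℝ) ^ 2 ≤ K * a := hX.trans hAa
    have h3 : |X| * (K : ℝ) ≤ a := by
      have h4 : (|X| * (K : ℝ)) * K ≤ a * K := by nlinarith
      exact le_of_mul_le_mul_right h4 (by linarith)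
    have h5 : |X| * 3 ≤ a := le_trans (mul_le_mul_of_nonneg_left hKR (abs_nonneg _)) h3
    have h6 := abs_nonneg X
    linarith
  rw [dd_small h1, abs_div, abs_of_pos haR, div_le_iff₀ haR] at hδ
  have hδ0 : 0 ≤ δ := by
    have h2 : 0 ≤ δ * a := (abs_nonneg X).trans hδ
    exact nonneg_of_mul_nonneg_left h2 haR
  calc |X| ≤ δ * a := hδ
    _ ≤ δ * A := mul_le_mul_of_nonneg_left haA hδ0
    _ = A * δ := mul_comm _ _

/-- the divided difference is small, so it is zero up to the error -/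
private theorem dd_zero {W : ℕ} {Z : ℤ} {X p B : ℝ} (hp : 0 < p) (hWX : (W : ℝ) * |X| * 2 < p)
    (hB : B < 1 / 2) (h : |(W : ℝ) * (X / p) - Z| ≤ B) : (W : ℝ) * |X| ≤ p * B := by
  have h1 : |(W : ℝ) * (X / p)| = (W : ℝ) * |X| / p := by
    rw [abs_mul, abs_div, abs_of_pos hp, Nat.abs_cast]
    ring
  have h2 : |(W : ℝ) * (X / p)| < 1 / 2 := by
    rw [h1, div_lt_iff₀ hp]
    linarith
  have h3 : |(Z : ℝ)| < 1 := by
    have h4 : (Z : ℝ) = (W : ℝ) * (X / p) - ((W : ℝ) * (X / p) - Z) := by ring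
    calc |(Z : ℝ)| = |(W : ℝ) * (X / p) - ((W : ℝ) * (X / p) - Z)| := by rw [← h4]
      _ ≤ |(W : ℝ) * (X / p)| + |(W : ℝ) * (X / p) - Z| := abs_sub _ _
      _ < 1 := by linarith
  have h5 : Z = 0 := by
    apply Int.abs_lt_one_iff.1
    exact_mod_cast h3
  rw [h5, Int.cast_zero, sub_zero, h1, div_le_iff₀ hp] at h
  linarith [mul_comm p B]

/-- the number of elements suffices for the choice of the points -/
private theorem dd_card {K A n e k1 : ℕ} (hA : 0 < A) (hK : 2 * k1 < K) (heA : K ^ (e + 2) ≤ A)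
    (hcard : A ≤ K * n) : (A / K ^ (e + 2) + 1) * (k1 * K ^ e) < n := by
  by_contra hcon
  push Not at hcon
  have hK0 : 0 < K := by omega
  have h1 : (A / K ^ (e + 2) + 1) * K ^ (e + 2) ≤ 2 * A := by
    rw [Nat.add_mul, one_mul]
    have := Nat.div_mul_le_self A (K ^ (e + 2))
    omega
  have h2 : A * K ^ (e + 2) ≤ A * (K ^ (e + 1) * (2 * k1)) := by
    calc A * K ^ (e + 2) ≤ (K * n) * K ^ (e + 2) := Nat.mul_le_mul_right _ hcard
      _ ≤ (K * ((A / K ^ (e + 2) + 1) * (k1 * K ^ e))) * K ^ (e + 2) :=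
          Nat.mul_le_mul_right _ (Nat.mul_le_mul_left _ hcon)
      _ = ((A / K ^ (e + 2) + 1) * K ^ (e + 2)) * (K ^ (e + 1) * k1) := by ring
      _ ≤ (2 * A) * (K ^ (e + 1) * k1) := Nat.mul_le_mul_right _ h1
      _ = A * (K ^ (e + 1) * (2 * k1)) := by ring
  have h3 : K ^ (e + 2) ≤ K ^ (e + 1) * (2 * k1) := Nat.le_of_mul_le_mul_left h2 hA
  have h4 : K ^ (e + 2) = K ^ (e + 1) * K := by ring
  rw [h4] at h3
  have h5 := Nat.le_of_mul_le_mul_left h3 (pow_pos hK0 _)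
  omega

/-- the induction step, arithmetic -/
private theorem dd_arith {K A : ℝ} {X δ : ℝ} {k1 u w c e : ℕ} (hK : 1 ≤ K) (hA : 0 < A)
    (hw : w = u + k1) (hk1 : 1 ≤ k1) (he : e = c + 2 * w) (h2 : (2 : ℝ) ^ k1 ≤ K)
    (hδ : δ ≤ K / A)
    (h : (K ^ e) ^ w * |X| ≤ A ^ (k1 + 1) * (2 ^ k1 * (K ^ (e + 2)) ^ u * δ)) :
    |X| * K ^ c ≤ A ^ k1 := by
  have hK0 : 0 < K := by linarith
  have h3 : A ^ (k1 + 1) * (2 ^ k1 * (K ^ (e + 2)) ^ u * δ) ≤ A ^ k1 * K ^ ((e + 2) * u + 2) := by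
    calc A ^ (k1 + 1) * (2 ^ k1 * (K ^ (e + 2)) ^ u * δ)
        ≤ A ^ (k1 + 1) * (2 ^ k1 * (K ^ (e + 2)) ^ u * (K / A)) := by
          refine mul_le_mul_of_nonneg_left ?_ (by positivity)
          exact mul_le_mul_of_nonneg_left hδ (by positivity)
      _ ≤ A ^ (k1 + 1) * (K * (K ^ (e + 2)) ^ u * (K / A)) := by
          refine mul_le_mul_of_nonneg_left ?_ (by positivity)
          refine mul_le_mul_of_nonneg_right ?_ (by positivity)
          exact mul_le_mul_of_nonneg_right h2 (by positivity)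
      _ = A ^ k1 * K ^ ((e + 2) * u + 2) := by
          rw [← pow_mul, pow_add K ((e + 2) * u) 2]
          field_simp
          ring
  have h4 := h.trans h3
  rw [← pow_mul] at h4
  have h5 : (e + 2) * u + 2 + c ≤ e * w := by
    subst hw
    have h6 : (e + 2) * u + 2 + c ≤ e * u + e * k1 := by
      have h7 : e ≤ e * k1 := Nat.le_mul_of_pos_right e hk1
      rcases Nat.lt_or_ge 1 k1 with h8 | h8
      · have h9 : e * 2 ≤ e * k1 := Nat.mul_le_mul_left e h8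
        have h10 : (e + 2) * u = e * u + 2 * u := by ring
        omega
      · have h9 : k1 = 1 := by omega
        subst h9
        have h10 : (e + 2) * u = e * u + 2 * u := by ring
        omega
    calc (e + 2) * u + 2 + c ≤ e * u + e * k1 := h6
      _ = e * (u + k1) := by ring
  have h6 : K ^ (e * w) * (|X| * K ^ c) ≤ K ^ (e * w) * A ^ k1 := by
    calc K ^ (e * w) * (|X| * K ^ c) = (K ^ (e * w) * |X|) * K ^ c := by ring
      _ ≤ (A ^ k1 * K ^ ((e + 2) * u + 2)) * K ^ c :=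
          mul_le_mul_of_nonneg_right h4 (by positivity)
      _ = A ^ k1 * K ^ ((e + 2) * u + 2 + c) := by rw [pow_add K ((e + 2) * u + 2) c]; ring
      _ ≤ A ^ k1 * K ^ (e * w) :=
          mul_le_mul_of_nonneg_left (pow_le_pow_right₀ hK h5) (by positivity)
      _ = K ^ (e * w) * A ^ k1 := by ring
  exact le_of_mul_le_mul_left h6 (by positivity)

/-- lower bound for the product of the points -/
private theorem dd_prod_low {K A : ℕ} (a : ℕ → ℕ) (n : ℕ) (h : ∀ i < n, A ≤ K * a i) :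
    (A : ℝ) ^ n ≤ (K : ℝ) ^ n * ∏ i ∈ range n, (a i : ℝ) := by
  have h1 : ∏ _i ∈ range n, (A : ℝ) ≤ ∏ i ∈ range n, ((K : ℝ) * (a i : ℝ)) :=
    prod_le_prod (fun _ _ => Nat.cast_nonneg _) fun i hi => by
      exact_mod_cast h i (mem_range.1 hi)
  rw [prod_const, card_range, prod_mul_distrib, prod_const, card_range] at h1
  exact h1

private theorem dd_prod_up {A : ℕ} (a : ℕ → ℕ) (n : ℕ) (h : ∀ i < n, a i ≤ A) :
    ∏ i ∈ range n, (a i : ℝ) ≤ (A : ℝ) ^ n := by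
  have h1 : ∏ i ∈ range n, (a i : ℝ) ≤ ∏ _i ∈ range n, (A : ℝ) :=
    prod_le_prod (fun _ _ => Nat.cast_nonneg _) fun i hi => by
      exact_mod_cast h i (mem_range.1 hi)
  rw [prod_const, card_range] at h1
  exact h1

/-- the size condition for the integer to be zero -/
private theorem dd_size {K A X P : ℝ} {W : ℕ} {k1 w e : ℕ} (hK : 3 ≤ K) (hP : 0 < P)
    (hW : (W : ℝ) ≤ (K ^ (e + 2)) ^ w) (hX : |X| * K ^ ((e + 2) * w + k1 + 2) ≤ A ^ (k1 + 1))
    (hP2 : A ^ (k1 + 1) ≤ K ^ (k1 + 1) * P) : (W : ℝ) * |X| * 2 < P := by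
  have hK0 : 0 < K := by linarith
  have h1 : K ^ (k1 + 1) * (((W : ℝ) * |X|) * K) ≤ K ^ (k1 + 1) * P := by
    calc K ^ (k1 + 1) * (((W : ℝ) * |X|) * K) = (W : ℝ) * (|X| * K ^ (k1 + 2)) := by ring
      _ ≤ (K ^ (e + 2)) ^ w * (|X| * K ^ (k1 + 2)) :=
          mul_le_mul_of_nonneg_right hW (by positivity)
      _ = |X| * K ^ ((e + 2) * w + k1 + 2) := by
          rw [← pow_mul, add_assoc ((e + 2) * w), pow_add K ((e + 2) * w)]
          ring
      _ ≤ A ^ (k1 + 1) := hX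
      _ ≤ K ^ (k1 + 1) * P := hP2
  have h2 : ((W : ℝ) * |X|) * K ≤ P := le_of_mul_le_mul_left h1 (by positivity)
  have h3 : 0 ≤ (W : ℝ) * |X| := by positivity
  rcases h3.eq_or_lt with h4 | h4
  · rw [← h4, zero_mul]
    exact hP
  · nlinarith

/-- the error bound is less than `1 / 2` -/
private theorem dd_err {K A : ℕ} {δ : ℝ} {k1 u e : ℕ} (hA : 0 < A) (hK : 2 ^ (k1 + 1) < K)
    (hKA : K ^ ((e + 2) * u + 2) ≤ A) (hδ : δ ≤ (K : ℝ) / A) :
    2 ^ k1 * (((K ^ (e + 2) : ℕ) : ℝ)) ^ u * δ < 1 / 2 := by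
  have hA' : (0 : ℝ) < A := by exact_mod_cast hA
  have hK0 : 0 < K := lt_of_le_of_lt (Nat.zero_le _) hK
  have hK' : (0 : ℝ) < K := by exact_mod_cast hK0
  have h1 : (2 : ℝ) ^ (k1 + 1) < K := by exact_mod_cast hK
  have h2 : (K : ℝ) ^ ((e + 2) * u + 2) ≤ A := by exact_mod_cast hKA
  have h3 : 2 ^ k1 * (((K ^ (e + 2) : ℕ) : ℝ)) ^ u * δ ≤
      2 ^ k1 * (((K ^ (e + 2) : ℕ) : ℝ)) ^ u * ((K : ℝ) / A) :=
    mul_le_mul_of_nonneg_left hδ (by positivity)
  refine lt_of_le_of_lt h3 ?_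
  rw [← mul_div_assoc, div_lt_iff₀ hA']
  have h4 : 2 ^ k1 * (((K ^ (e + 2) : ℕ) : ℝ)) ^ u * (K : ℝ) * 2 =
      2 ^ (k1 + 1) * (K : ℝ) ^ ((e + 2) * u + 1) := by
    rw [Nat.cast_pow, ← pow_mul]
    ring
  have h5 : (2 : ℝ) ^ (k1 + 1) * (K : ℝ) ^ ((e + 2) * u + 1) <
      K * (K : ℝ) ^ ((e + 2) * u + 1) := mul_lt_mul_of_pos_right h1 (by positivity)
  have h6 : (K : ℝ) * (K : ℝ) ^ ((e + 2) * u + 1) = (K : ℝ) ^ ((e + 2) * u + 2) := by ring
  linarith

private theorem dd_step (k c C : ℕ) (hS : dd_S k c C) : ∃ c' C', dd_S (k + 1) c' C' := by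
  set w := dd_w (k + 1) with hw
  set u := dd_u (k + 1) with hu
  have hwu : w = u + (k + 1) := dd_wu (k + 1)
  set e := c + 2 * w with he
  obtain ⟨T, hT⟩ : ∃ T : ℕ, T = 2 ^ (k + 2) := ⟨_, rfl⟩
  obtain ⟨E, hE⟩ : ∃ E : ℕ, E = (e + 2) * u + 2 := ⟨_, rfl⟩
  refine ⟨(e + 2) * w + (k + 1) + 2, C + (e + 2) + E + (T + 1) + 2 * (k + 1) + 3, ?_⟩
  intro K A 𝒜 X δ hK hKA h𝒜 hcard hδ hX hdI
  have hK3 : 3 ≤ K := by omega
  have hK0 : 0 < K := by omega
  have hK2 : 2 * (k + 1) < K := by omega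
  have hKT : T < K := by omega
  have hKC : C ≤ K := by omega
  have hA0 : 0 < A := lt_of_lt_of_le (pow_pos hK0 _) hKA
  have hpow : ∀ m, m ≤ C + (e + 2) + E + (T + 1) + 2 * (k + 1) + 3 →
      K ^ m ≤ A := fun m hm => (Nat.pow_le_pow_right hK0 hm).trans hKA
  have hpE : K ^ ((e + 2) * u + 2) ≤ A := by
    rw [← hE]
    exact hpow E (by omega)
  have hKR : (3 : ℝ) ≤ K := by exact_mod_cast hK3
  have hAR : (0 : ℝ) < A := by exact_mod_cast hA0
  obtain ⟨a0, ha0⟩ := dd_ne hA0 hcard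
  have hδ0 : 0 ≤ δ := (dd_nonneg _).trans (hdI a0 ha0)
  -- the points
  obtain ⟨a, haA, had⟩ := dd_sel 𝒜 A (K ^ (e + 2)) (K ^ e) (k + 1) (pow_pos hK0 _)
    (fun a ha => (h𝒜 a ha).1)
    (dd_card hA0 hK2 (hpow _ (by omega)) hcard)
  have hapos : ∀ i ≤ k + 1, 0 < a i := by
    intro i hi
    have h1 := (h𝒜 _ (haA i hi)).2
    rcases Nat.eq_zero_or_pos (a i) with h0 | h0
    · rw [h0, mul_zero] at h1
      omega
    · exact h0
  obtain ⟨W, Z, w1, w2, w3⟩ := dd_claim X δ (K ^ e) (K ^ (e + 2)) (k + 1) a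
    (fun i hi => ⟨hapos i hi, hdI _ (haA i hi)⟩) had
  set P := ∏ i ∈ range (k + 1 + 1), (a i : ℝ) with hP
  have hP0 : 0 < P := prod_pos fun i hi => by
    exact_mod_cast hapos i (by have := mem_range.1 hi; omega)
  have hPlow : (A : ℝ) ^ (k + 1 + 1) ≤ (K : ℝ) ^ (k + 1 + 1) * P :=
    dd_prod_low a _ fun i hi => (h𝒜 _ (haA i (by omega))).2
  have hPup : P ≤ (A : ℝ) ^ (k + 1 + 1) := dd_prod_up a _ fun i hi => (h𝒜 _ (haA i (by omega))).1
  have hWup : (W : ℝ) ≤ ((K : ℝ) ^ (e + 2)) ^ w := by exact_mod_cast w2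
  have hWlow : ((K : ℝ) ^ e) ^ w ≤ W := by exact_mod_cast w1
  have hsize := dd_size hKR hP0 hWup hX hPlow
  have hpe : 2 ^ (k + 1 + 1) < K := by
    rw [hT] at hKT
    exact hKT
  have herr : 2 ^ (k + 1) * (((K ^ (e + 2) : ℕ) : ℝ)) ^ u * δ < 1 / 2 :=
    dd_err hA0 hpe hpE hδ
  have hz := dd_zero hP0 hsize herr w3
  have hB0 : 0 ≤ 2 ^ (k + 1) * (((K ^ (e + 2) : ℕ) : ℝ)) ^ u * δ := by positivity
  have h2K : (2 : ℝ) ^ (k + 1) ≤ K := by
    have h1 : 2 ^ (k + 1) ≤ 2 ^ (k + 1 + 1) := Nat.pow_le_pow_right (by norm_num) (by omega)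
    have h2 : 2 ^ (k + 1) ≤ K := h1.trans hpe.le
    exact_mod_cast h2
  have hfin : |X| * (K : ℝ) ^ c ≤ (A : ℝ) ^ (k + 1) := by
    refine dd_arith (δ := δ) (by linarith) hAR hwu (by omega) he h2K hδ ?_
    calc ((K : ℝ) ^ e) ^ w * |X| ≤ W * |X| := mul_le_mul_of_nonneg_right hWlow (abs_nonneg _)
      _ ≤ P * (2 ^ (k + 1) * (((K ^ (e + 2) : ℕ) : ℝ)) ^ u * δ) := hz
      _ ≤ (A : ℝ) ^ (k + 1 + 1) * (2 ^ (k + 1) * (((K ^ (e + 2) : ℕ) : ℝ)) ^ u * δ) :=
          mul_le_mul_of_nonneg_right hPup hB0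
      _ = (A : ℝ) ^ (k + 1 + 1) * (2 ^ (k + 1) * ((K : ℝ) ^ (e + 2)) ^ u * δ) := by
          rw [Nat.cast_pow]
  exact hS K A 𝒜 X δ hKC (hpow C (by omega)) h𝒜 hcard hδ hfin hdI

private theorem dd_all (k : ℕ) : ∃ c C, dd_S k c C := by
  induction k with
  | zero => exact ⟨2, 3, dd_base⟩
  | succ k ih =>
    obtain ⟨c, C, h⟩ := ih
    exact dd_step k c C h

theorem thm_DD : St_DD := by
  intro k0
  obtain ⟨c, C, hS⟩ := dd_all k0
  refine ⟨C + c + 1, ?_⟩
  intro K A 𝒜 X δ hK hKA h𝒜 hcard hδ hX hdI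
  have hK0 : 0 < K := by omega
  have hc : K ^ c ≤ A := (Nat.pow_le_pow_right hK0 (by omega)).trans hKA
  have hC : K ^ C ≤ A := (Nat.pow_le_pow_right hK0 (by omega)).trans hKA
  refine hS K A 𝒜 X δ (by omega) hC h𝒜 hcard hδ ?_ hdI
  have hcR : (K : ℝ) ^ c ≤ A := by exact_mod_cast hc
  calc |X| * (K : ℝ) ^ c ≤ (A : ℝ) ^ k0 * A :=
      mul_le_mul hX hcR (by positivity) (by positivity)
    _ = (A : ℝ) ^ (k0 + 1) := by ring

end Pool.Agent.BSR
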