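import Pool.Agent.BSR.StA
import Pool.Agent.BSQ.FB

/-!
# BSR, FBJ: the major frequencies (helper74 for helper44)
-/

set_option autoImplicit false

namespace Pool.Agent.BSR

open Finset MeasureTheory Filter Topology Pool.Agent.BSQ
open scoped BigOperators
open Classical

private theorem fbj_ee (t : ℝ) : ‖ee t‖ = 1 := by
  unfold ee
  exact Complex.norm_exp_ofReal_mul_I _

/-- the trivial bound for `Sl` -/
private theorem fbj_Sl (hCNT : St_CNT) {L N M n0 N1 A : ℕ} {l : ℤ} (θ : ℝ) (hA : 1 ≤ A) (hAM : A ≤ M)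
    (hL : 1 ≤ L) (hMN : M * L ^ 4 ≤ N) (hn : n0 + N1 ≤ N)
    (hl : 4 * (A : ℤ) * N < (L : ℤ) ^ 4 * |l|) (hd : l.natAbs.divisors.card ≤ L) :
    Sl n0 N1 M A l θ ≤ 18 * (L : ℝ) ^ 5 * (M / A) := by
  have hA' : (0 : ℝ) < A := by exact_mod_cast hA
  have hl0 : l ≠ 0 := by
    rintro rfl
    simp only [abs_zero, mul_zero] at hl
    have : (0 : ℤ) ≤ 4 * (A : ℤ) * N := by positivity
    omega
  have h1 := (hCNT n0 N1 M A N L l hA hAM hL hMN hn hl).2.2 1 le_rfl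
  have h2 : ∑ d ∈ Dif A, ‖∑ p ∈ Rl n0 N1 M l d, ee (2 * θ * (sqz p : ℝ))‖ ≤
      ∑ d ∈ (Dif A).filter (fun d => 1 ≤ Int.gcd d.1 d.2), ((Rl n0 N1 M l d).card : ℝ) := by
    rw [Finset.sum_filter]
    refine Finset.sum_le_sum fun d _ => ?_
    have h3 : ‖∑ p ∈ Rl n0 N1 M l d, ee (2 * θ * (sqz p : ℝ))‖ ≤ ((Rl n0 N1 M l d).card : ℝ) := by
      refine (norm_sum_le _ _).trans ?_
      simp only [fbj_ee]
      simp
    split_ifs with hg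
    · exact h3
    · have hg0 : Int.gcd d.1 d.2 = 0 := by omega
      rw [Int.gcd_eq_zero_iff] at hg0
      have hd0 : d = 0 := Prod.ext hg0.1 hg0.2
      have hR : Rl n0 N1 M l d = ∅ := by
        rw [hd0]
        unfold Rl
        rw [Finset.filter_eq_empty_iff]
        rintro p _ ⟨_, hp⟩
        rw [add_zero, sub_self] at hp
        exact hl0 hp.symm
      rw [hR]
      simp
  have h4 : (l.natAbs.divisors.card : ℝ) ≤ L := by exact_mod_cast hd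
  unfold Sl
  calc 1 / (A : ℝ) ^ 2 * ∑ d ∈ Dif A, ‖∑ p ∈ Rl n0 N1 M l d, ee (2 * θ * (sqz p : ℝ))‖
      ≤ 1 / (A : ℝ) ^ 2 * (18 * (l.natAbs.divisors.card : ℝ) * (L : ℝ) ^ 4 * M * A / (1 : ℕ)) := by
        gcongr
        exact h2.trans h1
    _ ≤ 1 / (A : ℝ) ^ 2 * (18 * (L : ℝ) * (L : ℝ) ^ 4 * M * A / (1 : ℕ)) := by gcongr
    _ = 18 * (L : ℝ) ^ 5 * (M / A) := by
        push_cast
        field_simp

/-- Parseval for the second factor -/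
private theorem fbj_v {P : ℕ} [NeZero P] (g : ZMod P → ℂ) (hg : ∀ u, ‖g u‖ ≤ 1) (Λ : ℕ)
    (S : Finset (ZMod P)) :
    ∑ l ∈ Icc (-(Λ : ℤ)) (Λ : ℤ), ∑ b ∈ S, ‖ft (Fl g (-l)) (-b)‖ ^ 2 ≤
      (2 * Λ + 1) * (P : ℝ) ^ 2 := by
  have h1 : ∀ l : ℤ, ∑ b ∈ S, ‖ft (Fl g (-l)) (-b)‖ ^ 2 ≤ (P : ℝ) ^ 2 := by
    intro l
    calc ∑ b ∈ S, ‖ft (Fl g (-l)) (-b)‖ ^ 2 ≤ ∑ b : ZMod P, ‖ft (Fl g (-l)) (-b)‖ ^ 2 :=
          Finset.sum_le_sum_of_subset_of_nonneg (Finset.subset_univ _) (fun _ _ _ => by positivity)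
      _ = ∑ b : ZMod P, ‖ft (Fl g (-l)) b‖ ^ 2 :=
          Equiv.sum_comp (Equiv.neg (ZMod P)) (fun b => ‖ft (Fl g (-l)) b‖ ^ 2)
      _ = P * ∑ u : ZMod P, ‖Fl g (-l) u‖ ^ 2 := fb_pars _
      _ ≤ P * ∑ u : ZMod P, (1 : ℝ) := by
          gcongr with u _
          unfold Fl
          rw [norm_mul, RCLike.norm_conj]
          have h2 := hg u
          have h3 := hg (u + ((-l : ℤ) : ZMod P))
          have h4 : ‖g u‖ * ‖g (u + ((-l : ℤ) : ZMod P))‖ ≤ 1 :=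
            mul_le_one₀ h2 (norm_nonneg _) h3
          exact pow_le_one₀ (by positivity) h4
      _ = (P : ℝ) ^ 2 := by
          rw [Finset.sum_const, Finset.card_univ, ZMod.card]
          simp [sq]
  calc ∑ l ∈ Icc (-(Λ : ℤ)) (Λ : ℤ), ∑ b ∈ S, ‖ft (Fl g (-l)) (-b)‖ ^ 2
      ≤ ∑ l ∈ Icc (-(Λ : ℤ)) (Λ : ℤ), (P : ℝ) ^ 2 := Finset.sum_le_sum fun l _ => h1 l
    _ = (2 * Λ + 1) * (P : ℝ) ^ 2 := by
      rw [Finset.sum_const, Int.card_Icc, nsmul_eq_mul]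
      congr 1
      have h5 : ((Λ : ℤ) + 1 - -(Λ : ℤ)).toNat = 2 * Λ + 1 := by omega
      rw [h5]
      push_cast
      ring

/-- Cauchy-Schwarz for the double sum -/
private theorem fbj_cs {ι κ : Type} (S : Finset ι) (T : Finset κ) (u v : ι → κ → ℝ) (a : ℝ)
    (ha : 0 ≤ a) (h : (∑ i ∈ S, ∑ j ∈ T, u i j ^ 2) * (∑ i ∈ S, ∑ j ∈ T, v i j ^ 2) ≤ a ^ 2) :
    ∑ i ∈ S, ∑ j ∈ T, u i j * v i j ≤ a := by
  have h1 : (∑ x ∈ S ×ˢ T, u x.1 x.2 * v x.1 x.2) ^ 2 ≤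
      (∑ x ∈ S ×ˢ T, u x.1 x.2 ^ 2) * ∑ x ∈ S ×ˢ T, v x.1 x.2 ^ 2 :=
    Finset.sum_mul_sq_le_sq_mul_sq _ _ _
  rw [Finset.sum_product, Finset.sum_product, Finset.sum_product] at h1
  exact abs_le_of_sq_le_sq' (h1.trans h) ha |>.2

/-- the numbers -/
private theorem fbj_num (L A N M H P : ℝ) (η : ℝ) (hL : 16 ≤ L) (hA : 0 < A) (hN : 0 < N)
    (hM : 0 < M) (hH : 0 ≤ H) (hη0 : 0 ≤ η) (hη : η ≤ 1 / L ^ 175)
    (hHL : H * L ^ 480 ≤ N * M) (U V : ℝ) (hV0 : 0 ≤ V) (hAN : 1 ≤ A * N)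
    (hU : U ≤ 96 * L ^ 324 * (A * N) * P ^ 2 * (η + 64 * L ^ 300 * H / (M * N)) ^ 2)
    (hV : V ≤ (8 * (A * N) + 1) * P ^ 2) : U * V ≤ (60 * (A * N) * P ^ 2 / L ^ 13) ^ 2 := by
  have hL0 : 0 < L := by linarith
  have hL1 : 1 ≤ L := by linarith
  have h1 : 64 * L ^ 300 * H / (M * N) ≤ 1 / L ^ 175 := by
    rw [div_le_div_iff₀ (by positivity) (by positivity)]
    have h2 : (64 : ℝ) ≤ L ^ 5 := by
      calc (64 : ℝ) ≤ 16 ^ 5 := by norm_num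
        _ ≤ L ^ 5 := pow_le_pow_left₀ (by norm_num) hL 5
    calc 64 * L ^ 300 * H * L ^ 175 ≤ L ^ 5 * L ^ 300 * H * L ^ 175 := by gcongr
      _ = H * L ^ 480 := by ring
      _ ≤ 1 * (M * N) := by linarith
  have h3 : (η + 64 * L ^ 300 * H / (M * N)) ^ 2 ≤ (2 / L ^ 175) ^ 2 := by
    have h4 : 0 ≤ η + 64 * L ^ 300 * H / (M * N) := by positivity
    refine pow_le_pow_left₀ h4 ?_ 2
    have h5 : (2 : ℝ) / L ^ 175 = 1 / L ^ 175 + 1 / L ^ 175 := by ring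
    rw [h5]
    exact add_le_add hη h1
  have hU2 : U ≤ 96 * L ^ 324 * (A * N) * P ^ 2 * (2 / L ^ 175) ^ 2 := by
    refine hU.trans ?_
    gcongr
  have hV2 : V ≤ 9 * (A * N) * P ^ 2 := by
    refine hV.trans ?_
    gcongr
    linarith
  calc U * V ≤ (96 * L ^ 324 * (A * N) * P ^ 2 * (2 / L ^ 175) ^ 2) * (9 * (A * N) * P ^ 2) :=
        mul_le_mul hU2 hV2 hV0 (by positivity)
    _ = 3456 * ((A * N) ^ 2 * P ^ 4) / L ^ 26 := by
        have h6 : (L ^ 175) ^ 2 = L ^ 324 * L ^ 26 := by rw [← pow_mul, ← pow_add]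
        rw [div_pow, h6]
        field_simp
        ring
    _ ≤ 3600 * ((A * N) ^ 2 * P ^ 4) / L ^ 26 := by
        gcongr
        norm_num
    _ = (60 * (A * N) * P ^ 2 / L ^ 13) ^ 2 := by
        rw [div_pow, ← pow_mul]
        ring

theorem thm_FBJ (hCNT : St_CNT) (hMAJB : St_MAJB) : St_FBJ := by
  refine ⟨16, ?_⟩
  intro L hL P H T N M n0 N1 A l0 _ η f g hP h5 h16 hA hAM hMA hLM hMN hH hHL hn hl0 hη0 hη hdiv hf hg
  have hL1 : 1 ≤ L := by omega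
  have hLp : ∀ k : ℕ, 1 ≤ L ^ k := fun k => Nat.one_le_pow _ _ hL1
  have hAM' : A ≤ M := le_trans (Nat.le_mul_of_pos_left A (hLp 300)) hAM
  have hMN' : M ≤ N := le_trans (Nat.le_mul_of_pos_left M (hLp 10)) hMN
  have hMN4 : M * L ^ 4 ≤ N := by
    calc M * L ^ 4 ≤ M * L ^ 10 := Nat.mul_le_mul_left _ (Nat.pow_le_pow_right hL1 (by norm_num))
      _ = L ^ 10 * M := Nat.mul_comm _ _
      _ ≤ N := hMN
  have hM16 : 16 * L ^ 300 ≤ M := by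
    calc 16 * L ^ 300 ≤ L * L ^ 300 := Nat.mul_le_mul_right _ hL
      _ = L ^ 301 := (pow_succ' L 300).symm
      _ ≤ M := hLM
  have hN1 : 1 ≤ N := by omega
  have hAN : 1 ≤ A * N := Nat.mul_pos hA hN1
  -- the bound for Sl
  have hSl : ∀ l ∈ (Icc (-(4 * A * N : ℤ)) (4 * A * N : ℤ)).filter (fun l : ℤ => (l0 : ℤ) < |l|),
      ∀ θ : ℝ, Sl n0 N1 M A l θ ≤ 18 * (L : ℝ) ^ 5 * (M / A) := by
    intro l hl θ
    rw [Finset.mem_filter, Finset.mem_Icc] at hl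
    obtain ⟨⟨h1, h2⟩, h3⟩ := hl
    refine fbj_Sl hCNT θ hA hAM' hL1 hMN4 hn ?_ ?_
    · calc 4 * (A : ℤ) * N < (L : ℤ) ^ 4 * (l0 + 1) := by exact_mod_cast hl0
        _ ≤ (L : ℤ) ^ 4 * |l| := by
          have : (l0 : ℤ) + 1 ≤ |l| := h3
          gcongr
    · refine hdiv l.natAbs ?_ ?_
      · have h4 : (0 : ℤ) < |l| := lt_of_le_of_lt (by positivity) h3
        have h5 := abs_pos.1 h4
        omega
      · have h4 : |l| ≤ 4 * A * N := abs_le.2 ⟨h1, h2⟩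
        have h5 : l.natAbs ≤ 4 * A * N := by
          rw [Int.abs_eq_natAbs] at h4
          exact_mod_cast h4
        refine h5.trans ?_
        calc 4 * A * N ≤ 4 * N * N := by gcongr; omega
          _ ≤ 16 * N ^ 2 := by nlinarith
  have hPpos : (0 : ℝ) < P := by exact_mod_cast Nat.pos_of_ne_zero (NeZero.ne P)
  have hLr : (16 : ℝ) ≤ L := by exact_mod_cast hL
  have hAr : (0 : ℝ) < A := by exact_mod_cast hA
  have hNr : (0 : ℝ) < N := by exact_mod_cast hN1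
  have hMr : (0 : ℝ) < M := by exact_mod_cast (lt_of_lt_of_le hA hAM')
  have hANr : (1 : ℝ) ≤ A * N := by exact_mod_cast hAN
  have hB : (0 : ℝ) ≤ 18 * (L : ℝ) ^ 5 * (M / A) := by positivity
  -- the double sum
  have hU := hMAJB P H T N M L A η f hP hH h5 (by omega) hA hAM hMA hMN' hM16 hη0 hf
  have hV := fbj_v g hg (4 * A * N) (MajL P N M L)
  have hV' : ∑ l ∈ Icc (-(4 * A * N : ℤ)) (4 * A * N : ℤ), ∑ b ∈ MajL P N M L,
      ‖ft (Fl g (-l)) (-b)‖ ^ 2 ≤ (8 * ((A : ℝ) * N) + 1) * (P : ℝ) ^ 2 := by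
    push_cast at hV
    refine hV.trans (le_of_eq ?_)
    ring
  have hcs := fbj_cs (Icc (-(4 * A * N : ℤ)) (4 * A * N : ℤ)) (MajL P N M L)
    (fun l b => ‖ft (Fl f l) b‖) (fun l b => ‖ft (Fl g (-l)) (-b)‖)
    (60 * ((A : ℝ) * N) * (P : ℝ) ^ 2 / (L : ℝ) ^ 13) (by positivity)
    (fbj_num L A N M H P η hLr hAr hNr hMr (by positivity) hη0 hη (by exact_mod_cast hHL) _ _
      (Finset.sum_nonneg fun _ _ => Finset.sum_nonneg fun _ _ => by positivity) hANr hU hV')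
  calc ∑ l ∈ (Icc (-(4 * A * N : ℤ)) (4 * A * N : ℤ)).filter (fun l : ℤ => (l0 : ℤ) < |l|),
        1 / (P : ℝ) * ∑ b ∈ MajL P N M L,
          ‖ft (Fl f l) b‖ * ‖ft (Fl g (-l)) (-b)‖ * Sl n0 N1 M A l ((b.val : ℝ) / P)
      ≤ ∑ l ∈ (Icc (-(4 * A * N : ℤ)) (4 * A * N : ℤ)).filter (fun l : ℤ => (l0 : ℤ) < |l|),
        1 / (P : ℝ) * ∑ b ∈ MajL P N M L,
          ‖ft (Fl f l) b‖ * ‖ft (Fl g (-l)) (-b)‖ * (18 * (L : ℝ) ^ 5 * (M / A)) := by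
        refine Finset.sum_le_sum fun l hl => ?_
        refine mul_le_mul_of_nonneg_left (Finset.sum_le_sum fun b _ => ?_) (by positivity)
        exact mul_le_mul_of_nonneg_left (hSl l hl _) (by positivity)
    _ ≤ ∑ l ∈ Icc (-(4 * A * N : ℤ)) (4 * A * N : ℤ),
        1 / (P : ℝ) * ∑ b ∈ MajL P N M L,
          ‖ft (Fl f l) b‖ * ‖ft (Fl g (-l)) (-b)‖ * (18 * (L : ℝ) ^ 5 * (M / A)) :=
        Finset.sum_le_sum_of_subset_of_nonneg (Finset.filter_subset _ _) (fun _ _ _ => by positivity)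
    _ = (18 * (L : ℝ) ^ 5 * (M / A)) / P * ∑ l ∈ Icc (-(4 * A * N : ℤ)) (4 * A * N : ℤ),
        ∑ b ∈ MajL P N M L, ‖ft (Fl f l) b‖ * ‖ft (Fl g (-l)) (-b)‖ := by
        rw [Finset.mul_sum]
        refine Finset.sum_congr rfl fun l _ => ?_
        rw [← Finset.sum_mul]
        ring
    _ ≤ (18 * (L : ℝ) ^ 5 * (M / A)) / P * (60 * ((A : ℝ) * N) * (P : ℝ) ^ 2 / (L : ℝ) ^ 13) :=
        mul_le_mul_of_nonneg_left hcs (by positivity)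
    _ = 1080 * M * N * P / (L : ℝ) ^ 8 := by
        have h6 : (L : ℝ) ^ 13 = (L : ℝ) ^ 5 * (L : ℝ) ^ 8 := by rw [← pow_add]
        have hL0 : (0 : ℝ) < L := by linarith
        rw [h6]
        field_simp
        ring

end Pool.Agent.BSR
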