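import Pool.Agent.BSR.StB

/-!
# BSR, SPSI: the improved approximation
-/

set_option autoImplicit false

namespace Pool.Agent.BSR

open Finset MeasureTheory Filter Topology Pool.Agent.BSQ
open scoped BigOperators
open Classical

/-- the core inequality, with all square roots named. -/
theorem spsi_core (a l S δ wt wy D m r0 r0' r1 r1' h : ℝ) (ha : 0 < a) (hl : 9 ≤ l)
    (hS : 0 ≤ S) (h0' : 0 ≤ r0') (h00 : r0' ≤ r0) (hr0a : r0 ≤ a)
    (he' : 0 ≤ r1' - r0') (he : 0 ≤ r1 - r0) (hr1a : r1' ≤ a)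
    (he1' : (r1' - r0') * (2 * a) ≤ l) (he1 : (r1 - r0) * (2 * a) ≤ l)
    (hh : h = (r0 - r0') * (r0 + r0')) (hSL : S * l ^ 2 ≤ δ * a ^ 2)
    (hD : |D| * a ≤ 2 * S) (hm : |m| ≤ 5 * S)
    (hX : |(wt - wy) * (r0 - r0') + D * r0' - m| ≤ 2 * δ) :
    |h * (wt - wy) - (m - D * r1') * (r1 + r1')| * a ≤ 5 * δ * a ^ 2 := by
  have e1 : h * (wt - wy) - (m - D * r1') * (r1 + r1') =
      ((wt - wy) * (r0 - r0') + D * r0' - m) * (r0 + r0') +
        D * (r1' - r0') * (r0 + r0') - (m - D * r1') * ((r1 - r0) + (r1' - r0')) := by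
    rw [hh]; ring
  rw [e1]
  have b1 : |((wt - wy) * (r0 - r0') + D * r0' - m) * (r0 + r0')| * a ≤ 4 * δ * a ^ 2 := by
    rw [abs_mul, abs_of_nonneg (by linarith : 0 ≤ r0 + r0')]
    have : 0 ≤ |(wt - wy) * (r0 - r0') + D * r0' - m| := abs_nonneg _
    have h2 : |(wt - wy) * (r0 - r0') + D * r0' - m| * (r0 + r0') ≤ (2 * δ) * (2 * a) :=
      mul_le_mul hX (by linarith) (by linarith) (by linarith)
    nlinarith
  have b2 : |D * (r1' - r0') * (r0 + r0')| * a ≤ 2 * S * l := by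
    rw [abs_mul, abs_mul, abs_of_nonneg (by linarith : 0 ≤ r0 + r0'), abs_of_nonneg he']
    have h1 : (r1' - r0') * (r0 + r0') ≤ l := le_trans
      (mul_le_mul_of_nonneg_left (by linarith) he') he1'
    have h2 : 0 ≤ (r1' - r0') * (r0 + r0') := mul_nonneg he' (by linarith)
    calc |D| * (r1' - r0') * (r0 + r0') * a = (|D| * a) * ((r1' - r0') * (r0 + r0')) := by ring
      _ ≤ (2 * S) * l := mul_le_mul hD h1 h2 (by linarith)
  have hr1' : 0 ≤ r1' := by linarith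
  have hDr : |D * r1'| ≤ 2 * S := by
    rw [abs_mul, abs_of_nonneg hr1']
    exact le_trans (mul_le_mul_of_nonneg_left hr1a (abs_nonneg _)) hD
  have b3 : |(m - D * r1') * ((r1 - r0) + (r1' - r0'))| * a ≤ 7 * S * l := by
    rw [abs_mul, abs_of_nonneg (by linarith : 0 ≤ (r1 - r0) + (r1' - r0'))]
    have h1 : |m - D * r1'| ≤ 7 * S := by
      have := abs_sub m (D * r1')
      linarith
    have h2 : ((r1 - r0) + (r1' - r0')) * a ≤ l := by nlinarith
    have h3 : 0 ≤ ((r1 - r0) + (r1' - r0')) * a := mul_nonneg (by linarith) ha.le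
    calc |m - D * r1'| * ((r1 - r0) + (r1' - r0')) * a
        = |m - D * r1'| * (((r1 - r0) + (r1' - r0')) * a) := by ring
      _ ≤ (7 * S) * l := mul_le_mul h1 h2 h3 (by linarith)
  have b4 : 9 * (S * l) ≤ δ * a ^ 2 := by
    have : 9 * (S * l) ≤ S * l ^ 2 := by
      have := mul_nonneg hS (by linarith : (0 : ℝ) ≤ l)
      nlinarith
    linarith
  have t1 := abs_sub (((wt - wy) * (r0 - r0') + D * r0' - m) * (r0 + r0') +
        D * (r1' - r0') * (r0 + r0')) ((m - D * r1') * ((r1 - r0) + (r1' - r0')))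
  have t2 := abs_add_le (((wt - wy) * (r0 - r0') + D * r0' - m) * (r0 + r0'))
    (D * (r1' - r0') * (r0 + r0'))
  have t3 := mul_le_mul_of_nonneg_right t1 ha.le
  have t4 := mul_le_mul_of_nonneg_right t2 ha.le
  rw [add_mul] at t3 t4
  linarith

/-- differences of square roots. -/
theorem spsi_sq (a l u v : ℝ) (ha : 0 < a) (hl : 0 ≤ l) (hu : a ^ 2 ≤ l ^ 2 * u)
    (huv : u ≤ v) (hv : v ≤ u + 1) :
    0 ≤ Real.sqrt v - Real.sqrt u ∧ (Real.sqrt v - Real.sqrt u) * (2 * a) ≤ l := by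
  have hu0 : 0 ≤ u := by
    by_contra h
    push Not at h
    have := mul_nonpos_of_nonneg_of_nonpos (sq_nonneg l) h.le
    have := pow_pos ha 2
    linarith
  have h1 : Real.sqrt u ^ 2 = u := Real.sq_sqrt hu0
  have h2 : Real.sqrt v ^ 2 = v := Real.sq_sqrt (by linarith)
  have h3 : Real.sqrt u ≤ Real.sqrt v := Real.sqrt_le_sqrt huv
  have h4 : 0 ≤ Real.sqrt u := Real.sqrt_nonneg _
  have h5 : a ≤ l * Real.sqrt u := by
    apply le_of_sq_le_sq _ (mul_nonneg hl h4)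
    rw [mul_pow, h1]
    exact hu
  refine ⟨by linarith, ?_⟩
  have h6 : (Real.sqrt v - Real.sqrt u) * (2 * Real.sqrt u) ≤ 1 := by nlinarith
  calc (Real.sqrt v - Real.sqrt u) * (2 * a) ≤ (Real.sqrt v - Real.sqrt u) * (2 * (l * Real.sqrt u)) :=
        mul_le_mul_of_nonneg_left (by linarith) (by linarith)
    _ = l * ((Real.sqrt v - Real.sqrt u) * (2 * Real.sqrt u)) := by ring
    _ ≤ l * 1 := mul_le_mul_of_nonneg_left h6 hl
    _ = l := mul_one l

theorem thm_SPSI : St_SPSI := by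
  intro R L t y h S δ wt wy wyh x m hR hL hδ hδ1 hh ht hRL hSL hS hwt hwy hwyh hX hx hx1
  have hR' : (1 : ℝ) ≤ R := by exact_mod_cast hR
  have hL' : (200 : ℝ) ≤ L := by exact_mod_cast hL
  have hh' : (1 : ℝ) ≤ h := by exact_mod_cast hh
  have ht' : (t : ℝ) + 1 ≤ R := by exact_mod_cast ht
  have hRL' : (R : ℝ) + L * (y + h) ≤ L * t := by exact_mod_cast hRL
  have hy0 : (0 : ℝ) ≤ y := Nat.cast_nonneg _
  set a := Real.sqrt R with ha
  have ha2 : a ^ 2 = R := Real.sq_sqrt (by linarith)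
  have hapos : 0 < a := Real.sqrt_pos.2 (by linarith)
  set l := Real.sqrt L with hl
  have hl2 : l ^ 2 = L := Real.sq_sqrt (by linarith)
  have hl0 : 0 ≤ l := Real.sqrt_nonneg _
  have hl9 : 9 ≤ l := by
    rw [hl]
    apply Real.le_sqrt_of_sq_le
    linarith
  have hu1 : a ^ 2 ≤ l ^ 2 * ((t : ℝ) - y - h) := by
    rw [ha2, hl2]
    nlinarith
  have hu2 : a ^ 2 ≤ l ^ 2 * ((t : ℝ) - y) := by
    rw [ha2, hl2]
    nlinarith
  obtain ⟨p1, p2⟩ := spsi_sq a l ((t : ℝ) - y - h) (x - y - h) hapos hl0 hu1 (by linarith)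
    (by linarith)
  obtain ⟨p3, p4⟩ := spsi_sq a l ((t : ℝ) - y) (x - y) hapos hl0 hu2 (by linarith)
    (by linarith)
  have hpos : 0 ≤ (t : ℝ) - y - h := by
    by_contra hc
    push Not at hc
    have := mul_nonpos_of_nonneg_of_nonpos (sq_nonneg l) hc.le
    have := pow_pos hapos 2
    linarith
  have q1 : Real.sqrt ((t : ℝ) - y - h) ≤ Real.sqrt ((t : ℝ) - y) :=
    Real.sqrt_le_sqrt (by linarith)
  have q2 : Real.sqrt ((t : ℝ) - y) ≤ a := Real.sqrt_le_sqrt (by linarith)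
  have q3 : Real.sqrt (x - y - h) ≤ a := Real.sqrt_le_sqrt (by linarith)
  have q4 : (h : ℝ) = (Real.sqrt ((t : ℝ) - y) - Real.sqrt ((t : ℝ) - y - h)) *
      (Real.sqrt ((t : ℝ) - y) + Real.sqrt ((t : ℝ) - y - h)) := by
    have e1 : Real.sqrt ((t : ℝ) - y) ^ 2 = (t : ℝ) - y := Real.sq_sqrt (by linarith)
    have e2 : Real.sqrt ((t : ℝ) - y - h) ^ 2 = (t : ℝ) - y - h := Real.sq_sqrt hpos
    linear_combination e2 - e1
  have q0 : 0 ≤ Real.sqrt ((t : ℝ) - y - h) := Real.sqrt_nonneg _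
  have hD : |wyh - wy| * a ≤ 2 * S := by
    have := mul_le_mul_of_nonneg_right (abs_sub wyh wy) hapos.le
    rw [add_mul] at this
    linarith
  have hW : |wt - wy| * a ≤ 2 * S := by
    have := mul_le_mul_of_nonneg_right (abs_sub wt wy) hapos.le
    rw [add_mul] at this
    linarith
  set r0 := Real.sqrt ((t : ℝ) - y) with hr0
  set r0' := Real.sqrt ((t : ℝ) - y - h) with hr0'
  set r1 := Real.sqrt (x - y) with hr1
  set r1' := Real.sqrt (x - y - h) with hr1'
  have hm : |(m : ℝ)| ≤ 5 * S := by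
    have e1 : (m : ℝ) = (wt - wy) * (r0 - r0') + (wyh - wy) * r0' -
      ((wt - wy) * (r0 - r0') + (wyh - wy) * r0' - m) := by ring
    have e2 : |(wt - wy) * (r0 - r0')| ≤ 2 * S := by
      rw [abs_mul, abs_of_nonneg (by linarith : 0 ≤ r0 - r0')]
      exact le_trans (mul_le_mul_of_nonneg_left (by linarith) (abs_nonneg _)) hW
    have e3 : |(wyh - wy) * r0'| ≤ 2 * S := by
      rw [abs_mul, abs_of_nonneg q0]
      exact le_trans (mul_le_mul_of_nonneg_left (by linarith) (abs_nonneg _)) hD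
    have t1 := abs_sub ((wt - wy) * (r0 - r0') + (wyh - wy) * r0')
      ((wt - wy) * (r0 - r0') + (wyh - wy) * r0' - m)
    have t2 := abs_add_le ((wt - wy) * (r0 - r0')) ((wyh - wy) * r0')
    rw [← e1] at t1
    linarith
  have key := spsi_core a l S δ wt wy (wyh - wy) m r0 r0' r1 r1' h hapos hl9 (by linarith) q0 q1
    q2 p1 p3 q3 p2 p4 q4 (by rw [ha2, hl2]; exact hSL) hD hm hX
  refine ⟨?_, by linarith⟩
  have hh0 : (0 : ℝ) < h := by linarith
  rw [le_div_iff₀ hh0]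
  rw [ha2] at key
  refine le_trans (le_of_eq ?_) key
  have e1 : (h : ℝ) * (wt - wy) - (m - (wyh - wy) * r1') * (r1 + r1') =
      (wt - (wy + (m - (wyh - wy) * r1') * (r1 + r1') / h)) * h := by
    field_simp
    ring
  rw [e1, abs_mul, abs_of_pos hh0]
  ring

end Pool.Agent.BSR
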