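import Pool.Agent.BSR.Defs

/-!
# BSR, statements, part A (flat functions)

Every proof is in the docstring.  The statements `St_VIN`, `St_FB`, `St_NRM`, `St_MSS` of `Pool.Agent.BSQ` are proved
(`Pool.Agent.BSQ.thm_VIN`, `thm_FB`, `thm_NRM`, `thm_MSS`) and may be imported and used.
-/

set_option autoImplicit false

namespace Pool.Agent.BSR

open Finset MeasureTheory Filter Topology Pool.Agent.BSQ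
open scoped BigOperators
open Classical

/-- **DD** (divided differences of `X/a`).
Proof.  `k0 ≥ 1` w.l.o.g.  Exponents: `c_1 = 2`, `e_k = c_k + 2 + k(k+1)`, `c_{k+1} = e_k k(k+1)/2 + k + 2`; `C` larger than
all of them for `k ≤ k0 + 1`, than `4(k0+2)` and than `2 + e_k k(k-1)/2` (so `A > 4(k+1)K^{1 + e_k k(k-1)/2}`).
Let `Y = |X|/A`.  Note `δ ≥ 0` (`𝒜` is not empty, `dI ≥ 0`).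
(0) If `Y ≤ K^{-2}`: for any `a ∈ 𝒜`, `|X/a| ≤ YA/a ≤ YK ≤ 1/K < 1/2`, so `dI (X/a) = |X/a| ≤ δ` and `|X| ≤ aδ ≤ Aδ`.
(k) Otherwise there is `1 ≤ k ≤ k0` with `A^{k-1}/K^{c_k} < Y ≤ A^k/K^{c_{k+1}}` (for `k = k0` the upper bound follows from
`Y ≤ A^{k0-1}`, `A ≥ K^C`; take the least `k` such that the upper bound holds).  Put `h = K^{e_k}`.  The blocks
`{jh, .., jh+h-1}`, `0 ≤ j ≤ A/h`, are at most `2A/h` in number and cover `[0, A]`, so some block contains at least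
`(A/K)/(2A/h) = h/(2K)` elements of `𝒜`.  Put `s = ⌊h/(2K(k+1))⌋ ≥ h/(4K(k+1))`, `s ≥ 1`; taking every `s`-th element of
the block we get `a_0 < .. < a_k` in `𝒜` with all differences in `[s, h]`.  Let `V = ∏_{i<j} (a_j - a_i)` (a positive
integer), `V_i` the product of the differences of the pairs not containing `i` (a positive integer `≤ h^{k(k-1)/2}`), so
`V = V_i ∏_{j ≠ i} |a_i - a_j|`.  The identity `∑_i 1/(a_i ∏_{j≠i} (a_i - a_j)) = (-1)^k/∏ a_j` (Lagrange interpolation of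
the constant `1` at `0`: `Lagrange.sum_basis`, or induction) gives, multiplied by `±V X`: `∑_i ± V_i (X/a_i) = ± V X/∏ a_j`.
With `m_i = round (X/a_i)` the left side differs from the integer `∑ ± V_i m_i` by at most
`(k+1) h^{k(k-1)/2} δ ≤ (k+1) h^{k(k-1)/2} K/A < 1/4`; and `|V X/∏ a_j| ≤ h^{k(k+1)/2} Y A K^{k+1}/A^{k+1}
≤ K^{e_k k(k+1)/2 + k + 1 - c_{k+1}} = 1/K ≤ 1/4`.  So the integer is `0` and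
`V |X|/∏ a_j ≤ (k+1) h^{k(k-1)/2} K/A`.  As `∏ a_j ≤ A^{k+1}` and `V ≥ s^{k(k+1)/2} ≥ h^{k(k+1)/2}/(4K(k+1))^{k(k+1)/2}`:
`Y ≤ A^{k-1} (k+1) K (4K(k+1))^{k(k+1)/2}/h^k ≤ A^{k-1} K^{2 + k(k+1) - k e_k} ≤ A^{k-1} K^{-c_k}` (`K ≥ 4(k+1)`), a
contradiction. -/
def St_DD : Prop := ∀ k0 : ℕ, ∃ C : ℕ, ∀ (K A : ℕ) (𝒜 : Finset ℕ) (X δ : ℝ), C ≤ K → K ^ C ≤ A →
  (∀ a ∈ 𝒜, a ≤ A ∧ A ≤ K * a) → A ≤ K * 𝒜.card → δ ≤ (K : ℝ) / A → |X| ≤ (A : ℝ) ^ k0 →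
  (∀ a ∈ 𝒜, dI (X / a) ≤ δ) → |X| ≤ A * δ

/-- **WEYQ** (Weyl's inequality for quadratic phases, inverse form with the linear coefficient); uses
`Pool.Agent.BSQ.thm_VIN`.
Proof.  `S` the sum.  As in `Pool.Agent.BSQ.thm_WEY`: `|S|² ≤ L + 2∑_{1≤h<L} |∑_{j<L-h} e(2αhj)|` (the phase difference
`α((j+h)²-j²) + γh` is `2αhj` plus a constant), a geometric sum is at most `min(L, 1/(2 dI(2hα)))`, `St_VIN` for `2α` with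
`δ = 1/(8K²)`, `ε = 4K²/L` gives `q₀ ≤ 8K²`, `dI(2q₀α) ≤ 32K⁴/L²`; `q = 2q₀`.
Linear part.  `qα = r + ρ`, `r ∈ ℤ`, `|ρ| ≤ 32K⁴/L²`.  `ℓ = ⌊L/(200K⁴)⌋ ≥ 0.6 L/(200K⁴)`.  Split `[0, L)` in residue
classes mod `q` and each class `{j₀ + qi}` in runs of `ℓ` consecutive terms; the terms left over are at most
`qℓ ≤ 0.08 L/K²` in number and there are at most `L/ℓ` runs, so for some run, starting at `j₀`, the sum has modulus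
`≥ ℓ(1/K - 0.08/K²) ≥ 0.92ℓ/K`.  In the run the phase is a constant plus `i η₀ + αq²i²`, `η₀ = q(2αj₀+γ)`, and
`αq²i² ≡ qρi² (mod 1)`, `|qρi²| ≤ 16K²·32K⁴/L²·ℓ² ≤ 0.0128/K²`, so removing it changes each term by at most
`2π·0.0128/K² ≤ 0.081/K²`: `|∑_{i<ℓ} e(iη₀)| ≥ 0.83 ℓ/K`.  A geometric sum is at most `1/(2 dI(η₀))`, so
`dI(η₀) ≤ 0.61K/ℓ ≤ 210K⁵/L`.  For `j < L`: `q(2αj+γ) = η₀ + 2(qα)(j-j₀)`, so `dI ≤ 210K⁵/L + 2(32K⁴/L²)L ≤ 900K⁵/L`. -/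
def St_WEYQ : Prop := ∀ (α γ : ℝ) (L K : ℕ), 1 ≤ K → 512 * K ^ 5 ≤ L →
  (L : ℝ) / K ≤ ‖∑ j ∈ range L, ee (α * (j : ℝ) ^ 2 + γ * j)‖ →
  ∃ q : ℕ, 1 ≤ q ∧ q ≤ 16 * K ^ 2 ∧ dI ((q : ℝ) * α) ≤ 32 * (K : ℝ) ^ 4 / (L : ℝ) ^ 2 ∧
    ∀ j : ℕ, j < L → dI ((q : ℝ) * (2 * α * j + γ)) ≤ 900 * (K : ℝ) ^ 5 / L

/-- **LINE** (the set `Rl` is an arithmetic progression on a line).
Proof.  `d = (a, b)`, `g = gcd(a, b) ≥ 1`, `a = ga'`, `b = gb'`.  `sqz (p+d) - sqz p = 2(an + bm) + a² + b²` for `p = (n, m)`,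
so two points of `Rl` differ by a solution of `a'x + b'y = 0`, i.e. by `j(b', -a')`, `j ∈ ℤ` (`a', b'` coprime), and if the
points with parameters `j₁ < j₂` are in `Rl` so are those in between (both coordinates are monotone in `j`, and the box
and the box minus `d` are products of intervals).  So the parameters form a finite interval of integers; start at the
first one. -/
def St_LINE : Prop := ∀ (n0 N1 M : ℕ) (l : ℤ) (d : ℤ × ℤ), d ≠ 0 → (Rl n0 N1 M l d).Nonempty →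
  ∃ p : ℤ × ℤ, Rl n0 N1 M l d = (range (Rl n0 N1 M l d).card).image
    (fun j : ℕ => (p.1 + (d.2 / (Int.gcd d.1 d.2 : ℤ)) * j, p.2 - (d.1 / (Int.gcd d.1 d.2 : ℤ)) * j))

/-- **CNT** (size of `Rl`); uses `St_LINE`.
Proof.  `d = (a, b) ∈ Dif A`, `p = (n, m)`, `p + d = (n', m')`, `l = a(n+n') + b(m+m')`.  (1) `|l| ≤ 2N|a| + 2M|b| ≤
2N|a| + 2AM` and `2AM ≤ 2AN/L⁴`, `|l| > 4AN/L⁴`: so `2N|a| > 2AN/L⁴`.  (In particular `a ≠ 0`, `A ≥ 1`.)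
(2) By `St_LINE` with `g = gcd(a,b)`: the second coordinates are `p.2 - (a/g) j`, `j < #Rl`, all in `[1, M]`, so
`(#Rl - 1)|a/g| ≤ M`, `#Rl ≤ Mg/|a| + 1 ≤ MgL⁴/A + 1` by (1).  (3) `g` divides `l` (`l = a(..) + b(..)`) and `g ≤ |a| < A`;
the number of `(a, b) ∈ Dif A` with `g ∣ a`, `g ∣ b` is at most `(2A/g + 1)² ≤ 9A²/g²`; so the sum over the `d` with
`gcd = g` is at most `(9A²/g²)(gL⁴M/A + 1) ≤ 18 A L⁴ M/g` (`A ≤ M`); sum over the divisors `g ≥ G` of `|l|`. -/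
def St_CNT : Prop := ∀ (n0 N1 M A N L : ℕ) (l : ℤ), 1 ≤ A → A ≤ M → 1 ≤ L → M * L ^ 4 ≤ N → n0 + N1 ≤ N →
  4 * (A : ℤ) * N < (L : ℤ) ^ 4 * |l| →
  (∀ d ∈ Dif A, (Rl n0 N1 M l d).Nonempty → (A : ℤ) ≤ (L : ℤ) ^ 4 * |d.1|) ∧
  (∀ d ∈ Dif A, (Rl n0 N1 M l d).Nonempty →
    ((Rl n0 N1 M l d).card : ℝ) ≤ (Int.gcd d.1 d.2 : ℝ) * (L : ℝ) ^ 4 * M / A + 1) ∧
  (∀ G : ℕ, 1 ≤ G → ∑ d ∈ (Dif A).filter (fun d => G ≤ Int.gcd d.1 d.2), ((Rl n0 N1 M l d).card : ℝ) ≤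
    18 * (l.natAbs.divisors.card : ℝ) * (L : ℝ) ^ 4 * M * A / G)

/-- **SML** (few pairs with a small difference).
Proof.  Fix `b`, `(n, m) ∈ Bx`.  For `a < a''` both counted (`n+a, n+a'' > n0`): `a''(2n+a'') - a(2n+a) =
(a''-a)((n+a)+(n+a'')) ≥ 2n0(a''-a)`, while both values of `a(2n+a)` lie in the interval
`[-l0 - b(2m+b), l0 - b(2m+b)]` of length `2l0`.  So `a'' - a ≤ l0/n0`: at most `l0/n0 + 1` values of `a`; at most `2A`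
values of `b` and `N1 M` points. -/
def St_SML : Prop := ∀ n0 N1 M A l0 : ℕ, 1 ≤ n0 → 1 ≤ A →
  ∑ d ∈ Dif A, (((Bx n0 N1 M).filter (fun p => p + d ∈ Bx n0 N1 M ∧ |sqz (p + d) - sqz p| ≤ (l0 : ℤ))).card : ℝ) ≤
    ((l0 : ℝ) / n0 + 1) * (2 * A) * (N1 * M)

/-- **VDC** (van der Corput's inequality in both variables, for a function on the box).
Proof.  Put `F = 0` outside the box.  `A² ∑_{p ∈ Bx} F(p) = ∑_c ∑_{e ∈ [0,A)²} F(c + e)`, where only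
`c ∈ (n0-A, n0+N1] × (1-A, M]` matter, at most `(N1+A)(M+A) ≤ 4N1M` of them.  Cauchy-Schwarz:
`A⁴|∑F|² ≤ 4N1M ∑_c |∑_e F(c+e)|² = 4N1M ∑_{e,e'} ∑_c F(c+e) conj F(c+e')`, and the `(e, e')` with `e' - e = d` are
`(A-|d.1|)(A-|d.2|)` in number (`d ∈ Dif A`); put `p = c + e`. -/
def St_VDC : Prop := ∀ (n0 N1 M A : ℕ) (F : ℤ × ℤ → ℂ), 1 ≤ A → (N1 + A) * (M + A) ≤ 4 * N1 * M →
  (A : ℝ) ^ 4 * ‖∑ p ∈ Bx n0 N1 M, F p‖ ^ 2 ≤ 4 * N1 * M *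
    (∑ d ∈ Dif A, (((A : ℂ) - (|d.1| : ℤ)) * ((A : ℂ) - (|d.2| : ℤ))) *
      ∑ p ∈ (Bx n0 N1 M).filter (fun p => p + d ∈ Bx n0 N1 M), F p * (starRingEnd ℂ) (F (p + d))).re

/-- **BOX** (van der Corput for the bilinear operator); uses `St_VDC`, `Pool.Agent.BSQ.thm_FB`.
Proof.  `St_VDC` for `F(p) = f(y + sqz p) g(y - sqz p)`; weights `w(d) = (A-|d.1|)(A-|d.2|) ∈ [0, A²]`; sum over `y`.  For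
`p, p+d ∈ Bx`, `s = sqz p`, `l = sqz (p+d) - s` (`|l| ≤ 4AN` since `|l| = |a(n+n') + b(m+m')|`), and `u = y + s`:
`∑_y F(p) conj F(p+d) = ∑_u Fl f l u · Fl g (-l) (u - 2s)`.
If `|l| ≤ l0` this is at most `∑ |f u||f(u+l)| ≤ ∑|f|² ≤ P` in modulus (`|g| ≤ 1`); these terms give the first part
(`A⁻⁴ A² P #`).  If `|l| > l0`: by `St_FB` (3) it equals `P⁻¹ ∑_b ft(Fl f l) b · ft(Fl g (-l)) (-b) · ch b (2s)`, and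
`ch b (2s) = ee (2 (b.val/P) s)`; for fixed `l` sum over `d` and `p ∈ Rl l d` first:
`|∑_d w(d) ∑_{p ∈ Rl} ch b (2 sqz p)| ≤ A² ∑_d |∑_{p∈Rl}| = A⁴ Sl (b.val/P)`. -/
def St_BOX : Prop := ∀ (P n0 N1 M A N l0 : ℕ) [NeZero P] (f g : ZMod P → ℂ),
  1 ≤ A → n0 + N1 ≤ N → M ≤ N → (N1 + A) * (M + A) ≤ 4 * N1 * M →
  ∑ u : ZMod P, ‖f u‖ ^ 2 ≤ P → (∀ u, ‖g u‖ ≤ 1) →
  ∑ y : ZMod P, ‖TB n0 N1 M f g y‖ ^ 2 ≤ 4 * N1 * M *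
    (P * (1 / (A : ℝ) ^ 2 * ∑ d ∈ Dif A,
      (((Bx n0 N1 M).filter (fun p => p + d ∈ Bx n0 N1 M ∧ |sqz (p + d) - sqz p| ≤ (l0 : ℤ))).card : ℝ)) +
    ∑ l ∈ (Icc (-(4 * A * N : ℤ)) (4 * A * N : ℤ)).filter (fun l : ℤ => (l0 : ℤ) < |l|),
      1 / (P : ℝ) * ∑ b : ZMod P, ‖ft (Fl f l) b‖ * ‖ft (Fl g (-l)) (-b)‖ *
        Sl n0 N1 M A l ((b.val : ℝ) / P))

/-- **MIND** (one direction); uses `St_CNT`, `St_LINE`, `St_WEYQ`.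
Proof.  `J = M/A ∈ [L³⁰⁰, 2L³⁰⁰]`, `d = (a, b)`, `g = gcd < L¹⁰`, `a = ga'`, `b = gb'`.  `Rl ≠ ∅` (the sum is positive), `d ≠ 0`
(`l ≠ 0`), and `St_CNT` (2): `#Rl ≤ L¹⁴J + 1 ≤ 2L¹⁴J`.  `p = (n1, m1)`, `L' = #Rl` from `St_LINE`:
`sqz (n1 + b'j, m1 - a'j) = const + 2j(b'n1 - a'm1) + j²(a'²+b'²)`, so the sum is a constant of modulus one times
`∑_{j<L'} e(αj²+γj)`, `α = 2θ(a'²+b'²)`, `γ = 4θ(b'n1-a'm1)`.  `J/(16L⁴) ≤ L' ≤ 2L¹⁴J`, so the sum is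
`≥ L'/(32L¹⁸) ≥ L'/K` with `K = L¹⁹` and `L' ≥ L²⁹⁶/16 ≥ 512K⁵`.  `St_WEYQ`: `q ≤ 16L³⁸ ≤ L³⁹`,
`dI(qα) ≤ 32L⁷⁶(16L⁴/J)² = 8192L⁸⁴/J²`, `dI(q(2αj+γ)) ≤ 900L⁹⁵·16L⁴/J` (take `j = 0`).  Multiply by `g² ≤ L²⁰` and by
`g ≤ L¹⁰`: `g²α = 2θ(a²+b²)`, `gγ = 4θ(bn1-am1)`: `dI(2qθ(a²+b²)) ≤ L¹⁰⁵/J²`, `dI(4qθ(bn1-am1)) ≤ L¹¹⁰/J`; `p ∈ Rl`. -/
def St_MIND : Prop := ∃ L0 : ℕ, ∀ L : ℕ, L0 ≤ L → ∀ (n0 N1 M A N : ℕ) (l : ℤ) (θ : ℝ) (d : ℤ × ℤ), 1 ≤ A →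
  L ^ 300 * A ≤ M → M ≤ 2 * L ^ 300 * A → M * L ^ 4 ≤ N → n0 + N1 ≤ N →
  4 * (A : ℤ) * N < (L : ℤ) ^ 4 * |l| → d ∈ Dif A → Int.gcd d.1 d.2 < L ^ 10 →
  (M : ℝ) / (16 * A * (L : ℝ) ^ 4) ≤ ‖∑ p ∈ Rl n0 N1 M l d, ee (2 * θ * (sqz p : ℝ))‖ →
  ∃ q : ℕ, 1 ≤ q ∧ q ≤ L ^ 39 ∧
    dI (2 * q * θ * ((d.1 : ℝ) ^ 2 + (d.2 : ℝ) ^ 2)) ≤ (L : ℝ) ^ 105 * ((A : ℝ) / M) ^ 2 ∧
    ∃ p ∈ Rl n0 N1 M l d, dI (4 * q * θ * ((d.2 : ℝ) * p.1 - (d.1 : ℝ) * p.2)) ≤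
      (L : ℝ) ^ 110 * ((A : ℝ) / M)

/-- **MINA** (minor arcs, first step); uses `St_CNT`, `St_MIND`.
Proof.  `J = M/A ∈ [L³⁰⁰, 2L³⁰⁰]`.  By `St_CNT` (3) with `G = L¹⁰`: the `d` with `gcd ≥ L¹⁰` contribute at most
`A⁻² 18 L L⁴ M A/L¹⁰ = 18J/L⁵ ≤ J/(4L⁴)` to `Sl`.  For the other `d` with `Rl ≠ ∅`: `#Rl ≤ L¹⁴J + 1 ≤ 2L¹⁴J` (`St_CNT` (2)).
Let `P'` be the set of the `d ∈ Dif A` with `gcd < L¹⁰` and `|∑_{p ∈ Rl}| ≥ J/(16L⁴)`; the others with `gcd < L¹⁰` contribute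
at most `4A²·J/(16L⁴)·A⁻²`, so `∑_{P'} |..| ≥ A²J/(2L⁴)` and `#P' ≥ (A²J/(2L⁴))/(2L¹⁴J) = A²/(4L¹⁸)`.  `St_MIND` for each `d ∈ P'`
gives `q_d ≤ L³⁹`; pigeonhole: one `q` for at least `A²/(4L⁵⁷) ≥ A²/L⁶⁰` of the `d`.  `A ≤ L⁴|d.1|` by `St_CNT` (1). -/
def St_MINA : Prop := ∃ L0 : ℕ, ∀ L : ℕ, L0 ≤ L → ∀ (n0 N1 M A N : ℕ) (l : ℤ) (θ : ℝ), 1 ≤ A →
  L ^ 300 * A ≤ M → M ≤ 2 * L ^ 300 * A → M * L ^ 4 ≤ N → n0 + N1 ≤ N →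
  4 * (A : ℤ) * N < (L : ℤ) ^ 4 * |l| → l.natAbs.divisors.card ≤ L →
  (M : ℝ) / (A * (L : ℝ) ^ 4) < Sl n0 N1 M A l θ →
  ∃ (q : ℕ) (Ps : Finset (ℤ × ℤ)), 1 ≤ q ∧ q ≤ L ^ 39 ∧ Ps ⊆ Dif A ∧ A ^ 2 ≤ L ^ 60 * Ps.card ∧
    ∀ d ∈ Ps, (A : ℤ) ≤ (L : ℤ) ^ 4 * |d.1| ∧
      dI (2 * q * θ * ((d.1 : ℝ) ^ 2 + (d.2 : ℝ) ^ 2)) ≤ (L : ℝ) ^ 105 * ((A : ℝ) / M) ^ 2 ∧
      ∃ p ∈ Rl n0 N1 M l d, dI (4 * q * θ * ((d.2 : ℝ) * p.1 - (d.1 : ℝ) * p.2)) ≤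
        (L : ℝ) ^ 110 * ((A : ℝ) / M)

/-- **MINB** (minor arcs, second step); uses `Pool.Agent.BSQ.thm_VIN`.
Proof.  At most `2A` values of `b`: some `b` occurs with at least `A/(2L⁶⁰)` values of `a`; so the set `U` of the `|a| ≥ 1`
of these has at least `(A/(2L⁶⁰) - 1)/2 ≥ A/(5L⁶⁰)` elements, all `< A`.  For `a > a'` in `U`, `h = a² - a'² ∈ [1, A²)` and
`dI(h·2qθ) ≤ 2L¹⁰⁵(A/M)² =: ε` (difference of the two hypotheses).  There are `|U|(|U|-1)/2 ≥ A²/(100L¹²⁰)` pairs and each `h`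
comes from at most `d(h) ≤ L` pairs (`a - a'` divides `h` and `a + a'` is the quotient): at least `A²/(100L¹²¹) ≥ A²/L¹²²`
values of `h`.  `St_VIN` with `L := A²`, `θ := 2qθ`, `δ = L⁻¹²²`, `ε` (`16ε ≤ 32L¹⁰⁵⁻⁶⁰⁰ ≤ δ`, `δA² > 1`): `q' ≤ L¹²²`,
`dI(q'·2qθ) ≤ ε/(δA²) = 2L²²⁷/M²`.  (`ε > 0`: `A, M ≥ 1`.) -/
def St_MINB : Prop := ∃ L0 : ℕ, ∀ L : ℕ, L0 ≤ L → ∀ (M A q : ℕ) (θ : ℝ) (Ps : Finset (ℤ × ℤ)),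
  L ^ 200 ≤ A → L ^ 300 * A ≤ M → (∀ j : ℕ, 1 ≤ j → j ≤ A ^ 2 → j.divisors.card ≤ L) →
  Ps ⊆ Dif A → A ^ 2 ≤ L ^ 60 * Ps.card →
  (∀ d ∈ Ps, dI (2 * q * θ * ((d.1 : ℝ) ^ 2 + (d.2 : ℝ) ^ 2)) ≤ (L : ℝ) ^ 105 * ((A : ℝ) / M) ^ 2) →
  ∃ q' : ℕ, 1 ≤ q' ∧ q' ≤ L ^ 122 ∧ dI ((q' : ℝ) * (2 * q * θ)) ≤ (L : ℝ) ^ 228 / (M : ℝ) ^ 2

/-- **MINC1** (minor arcs, third step, algebra).
Proof.  `Q2 = 4qq'`, `β = Q2θ - round(Q2θ)`, `|β| = dI(Q2θ) ≤ 2L²²⁸/M² ≤ L²²⁹/M²`.  Let `d = (a,b)`, `p = (n,m) ∈ Rl` as in the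
hypothesis.  `Q2θ(bn-am) = q'·4qθ(bn-am)` has `dI ≤ L¹²²L¹¹⁰A/M`, and differs from `β(bn-am)` by an integer, so
`dI(β(bn-am)) ≤ L²³²A/M`.  From `l = 2(an+bm)+a²+b²` and `a ≠ 0`: `bn - am = bl/(2a) - b(a²+b²)/(2a) - m(a²+b²)/a`; with
`|a| ≥ A/L⁴`, `|a|,|b| ≤ A`, `1 ≤ m ≤ M`: `|β||b(a²+b²)/(2a)| ≤ L²³³A²/M² ≤ L²³³A/M`, `|β||m(a²+b²)/a| ≤ 2L²³³A/M`.  Sum
`≤ (L²³² + 3L²³³)A/M ≤ L²³⁵A/M`. -/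
def St_MINC1 : Prop := ∀ (L n0 N1 M A : ℕ) (l : ℤ) (θ : ℝ) (q q' : ℕ) (d : ℤ × ℤ), 2 ≤ L → 1 ≤ A → A ≤ M →
  1 ≤ q → 1 ≤ q' → q' ≤ L ^ 122 → dI ((q' : ℝ) * (2 * q * θ)) ≤ (L : ℝ) ^ 228 / (M : ℝ) ^ 2 →
  d ∈ Dif A → (A : ℤ) ≤ (L : ℤ) ^ 4 * |d.1| →
  (∃ p ∈ Rl n0 N1 M l d, dI (4 * q * θ * ((d.2 : ℝ) * p.1 - (d.1 : ℝ) * p.2)) ≤
      (L : ℝ) ^ 110 * ((A : ℝ) / M)) →
  |(4 * q * q' : ℕ) * θ - round ((4 * q * q' : ℕ) * θ)| ≤ (L : ℝ) ^ 229 / (M : ℝ) ^ 2 ∧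
  dI ((d.2 : ℝ) * (((4 * q * q' : ℕ) * θ - round ((4 * q * q' : ℕ) * θ)) * l / (2 * d.1))) ≤
    (L : ℝ) ^ 235 * ((A : ℝ) / M)

/-- **MINC2** (minor arcs, third step, divided differences); uses `Pool.Agent.BSQ.thm_VIN`, `St_DD`.
Proof.  `ε = L²³⁵A/M ≤ L⁻⁶⁵`.  There are at least `A/(4L⁶⁰)` values of `a` (`|a| < A`) for which at least `A/(4L⁶⁰)` of the
`(a, b)` are in `Ps` (otherwise `#Ps < 2A·A/(4L⁶⁰) + (A/(4L⁶⁰))·2A`).  For such `a` at least `(A/(4L⁶⁰) - 1)/2 ≥ A/L⁶¹` values of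
`|b| ≥ 1` (`dI` is even); `St_VIN` with `L := A`, `δ = L⁻⁶¹`, `ε` (`16ε ≤ δ`), `θ := βl/(2a)`: `q_a ≤ L⁶¹` with
`dI(q_a βl/(2a)) ≤ ε/(δA) = L²⁹⁶/M`.  Pigeonhole on `q_a`, and `a ↦ |a|` is at most 2-to-1: there are `q''` and a set `𝒜` of
at least `A/(8L¹²¹) ≥ A/L¹²²` integers in `[A/L⁴, A]` with `dI(X/a) ≤ L²⁹⁶/M` for `a ∈ 𝒜`, `X = q''βl/2`.  `St_DD` with
`K = L¹²²` (`L²⁹⁶/M ≤ K/A`; `|X| ≤ L⁶¹(L²²⁹/M²)2AN ≤ N ≤ A^{k0}` by `L³⁰⁰A ≤ M`; `c ≥ 122C + 123`, `c ≥ C`):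
`|X| ≤ AL²⁹⁶/M`, so `|β| ≤ 2AL²⁹⁶/(M|l|) ≤ 2AL²⁹⁶L⁴/(4AN M) ≤ L³⁰⁰/(MN)`. -/
def St_MINC2 : Prop := ∀ k0 : ℕ, ∃ c : ℕ, ∀ L : ℕ, c ≤ L →
  ∀ (M A N : ℕ) (l : ℤ) (β : ℝ) (Ps : Finset (ℤ × ℤ)),
  L ^ c ≤ A → L ^ 300 * A ≤ M → M ≤ N → N ≤ A ^ k0 → 4 * (A : ℤ) * N < (L : ℤ) ^ 4 * |l| →
  |l| ≤ 4 * A * N → Ps ⊆ Dif A → A ^ 2 ≤ L ^ 60 * Ps.card → |β| ≤ (L : ℝ) ^ 229 / (M : ℝ) ^ 2 →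
  (∀ d ∈ Ps, (A : ℤ) ≤ (L : ℤ) ^ 4 * |d.1| ∧
    dI ((d.2 : ℝ) * (β * l / (2 * d.1))) ≤ (L : ℝ) ^ 235 * ((A : ℝ) / M)) →
  |β| ≤ (L : ℝ) ^ 300 / (M * N)

/-- **MIN** (minor arcs); uses `St_MINA`, `St_MINB`, `St_MINC1`, `St_MINC2`.
Proof.  `c` larger than `200`, the `c` of `St_MINC2` and the two `L0`.  `A ≥ L^c ≥ 1`, `A² ≤ 16N²`, `|l| ≤ 4AN ≤ 16N²`
(`A ≤ M ≤ N`), `l ≠ 0`.  `St_MINA` gives `q, Ps`, `St_MINB` gives `q'`; `β = 4qq'θ - round(4qq'θ)`, `|β| = dI(4qq'θ)`;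
`St_MINC1` for all `d ∈ Ps`, `St_MINC2`; `Q = 4qq' ≤ 4L¹⁶¹ ≤ L¹⁶²`. -/
def St_MIN : Prop := ∀ k0 : ℕ, ∃ c : ℕ, ∀ L : ℕ, c ≤ L → ∀ (n0 N1 M A N : ℕ) (l : ℤ) (θ : ℝ),
  L ^ c ≤ A → L ^ 300 * A ≤ M → M ≤ 2 * L ^ 300 * A → M * L ^ 4 ≤ N → N ≤ A ^ k0 → n0 + N1 ≤ N →
  4 * (A : ℤ) * N < (L : ℤ) ^ 4 * |l| → |l| ≤ 4 * A * N →
  (∀ j : ℕ, 1 ≤ j → j ≤ 16 * N ^ 2 → j.divisors.card ≤ L) →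
  (M : ℝ) / (A * (L : ℝ) ^ 4) < Sl n0 N1 M A l θ →
  ∃ Q : ℕ, 1 ≤ Q ∧ Q ≤ L ^ 162 ∧ dI ((Q : ℝ) * θ) ≤ (L : ℝ) ^ 300 / (M * N)

/-- **LOC** (localisation of the Fourier transform); uses `St_FB`.
Proof.  `G(v) = ∑_{j<W} F(v+j) ch(-b0)(v+j)`.  `ft G d = (∑_{j<W} ch d j) · ft F (b0+d)`.  For `|d| ≤ D` every
`ch d j = ee(dj/P)` has `|dj/P| ≤ WD/P ≤ 1/8`, so real part `≥ cos(π/4) ≥ 1/2`: `|∑_j ch d j| ≥ W/2`.  The `d` are distinct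
mod `P` (`2D+1 ≤ P`, or `D = 0`), so by Parseval `P ∑_v |G v|² = ∑_d |ft G d|² ≥ (W²/4) ∑_{|d|≤D} |ft F (b0+d)|²`. -/
def St_LOC : Prop := ∀ (P W D : ℕ) [NeZero P] (F : ZMod P → ℂ) (b0 : ZMod P), 1 ≤ W → 8 * W * D ≤ P →
  ∑ d ∈ Icc (-(D : ℤ)) (D : ℤ), ‖ft F (b0 + (d : ZMod P))‖ ^ 2 ≤ 4 * P / (W : ℝ) ^ 2 *
    ∑ v : ZMod P, ‖∑ j ∈ range W, F (v + (j : ZMod P)) * ch (-b0) (v + (j : ZMod P))‖ ^ 2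

/-- **ACL** (windowed autocorrelations of locally flat functions); uses `St_FB`.
Proof.  Fix `v`; the window `{v, .., v+W-1}` (cyclic), `φ(u) = f(u) ch(-b0) u` on the window, `0` outside.
`|ft φ ζ| = |∑_{window} f(u) ch(-(b0+ζ)) u| ≤ ηW + 2H`: the window is the union of at most `W/H` full tiles (each at most
`ηH`) and of two pieces of tiles, each at most `(H ∑_{tile}|f|²)^{1/2} ≤ H` (Cauchy-Schwarz).  (`P = HT`: the tiles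
are cyclically consecutive intervals of `H` points.)  The inner sum is `∑_u φ(u) conj f(u+l)`, and for `|l| ≤ Λ` one may
replace `f` by `f̃ = f` on `{v-Λ, .., v+W-1+Λ}`, `0` elsewhere.  As a function of `l ∈ ℤ/P`, Parseval:
`∑_{l ∈ ℤ/P} |∑_u φ(u) conj f̃(u+l)|² = P⁻¹ ∑_ζ |ft φ ζ|² |ft f̃ ζ|² ≤ (ηW+2H)² ∑|f̃|²` (the `l` with `|l| ≤ Λ` are distinct
mod `P`).  Sum over `v`: every `u` is in `W + 2Λ ≤ 3Λ` of the sets, and `∑|f|² ≤ HT = P`. -/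
def St_ACL : Prop := ∀ (P H T W Λ : ℕ) [NeZero P] (η : ℝ) (f : ZMod P → ℂ) (b0 : ZMod P), P = H * T →
  1 ≤ H → 1 ≤ W → W ≤ Λ → 2 * Λ + W ≤ P → 0 ≤ η → FlatL H η f →
  ∑ l ∈ Icc (-(Λ : ℤ)) (Λ : ℤ), ∑ v : ZMod P,
    ‖∑ j ∈ range W, Fl f l (v + (j : ZMod P)) * ch (-b0) (v + (j : ZMod P))‖ ^ 2 ≤
    3 * Λ * P * (η * W + 2 * H) ^ 2

/-- **ENB** (energies).  Proof.  For each `u` the points `u + l`, `|l| ≤ Λ`, are distinct (`2Λ+1 ≤ P`), a cyclic interval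
which meets at most `2Λ/H + 3` tiles: `∑_l |f(u+l)|² ≤ 2Λ + 3H`; and `∑_u |f u|² ≤ HT = P`. -/
def St_ENB : Prop := ∀ (P H T Λ : ℕ) [NeZero P] (f : ZMod P → ℂ), P = H * T → 1 ≤ H → 2 * Λ + 1 ≤ P →
  TileE H f → (∑ u : ZMod P, ‖f u‖ ^ 2 ≤ P) ∧
  ∑ l ∈ Icc (-(Λ : ℤ)) (Λ : ℤ), ∑ u : ZMod P, ‖Fl f l u‖ ^ 2 ≤ (2 * Λ + 3 * H) * P

/-- **MAJB** (major frequencies); uses `St_LOC`, `St_ACL`.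
Proof.  `Λ = 4AN`, `W = ⌊MN/(16L³⁰⁰)⌋ ≥ MN/(32L³⁰⁰)` (`≥ 1`), `D = ⌊2PL³⁰⁰/(MN)⌋`; `8WD ≤ P`; `W ≤ AN/8 ≤ Λ`;
`2Λ + W ≤ 9AN ≤ P`.  Let `b ∈ MajL`, `q ≤ L¹⁶²`, `r = round(q b.val/P) ∈ [0, q]`, `b0 = ⌊rP/q⌋`: `|b.val - rP/q| ≤
PL³⁰⁰/(MN q)`, so `|b.val - b0| ≤ PL³⁰⁰/(MN) + 1 ≤ 2PL³⁰⁰/(MN)` (`P ≥ 5N² ≥ MN`), i.e. `≤ D`.  There are at most
`∑_{q ≤ L¹⁶²} (q+1) ≤ 2L³²⁴` pairs `(q, r)`.  `St_LOC` and `St_ACL` for each of them: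
`2L³²⁴ (4P/W²) 3ΛP(ηW+2H)² = 96 L³²⁴ AN P² (η+2H/W)²` and `2H/W ≤ 64L³⁰⁰H/(MN)`. -/
def St_MAJB : Prop := ∀ (P H T N M L A : ℕ) [NeZero P] (η : ℝ) (f : ZMod P → ℂ), P = H * T → 1 ≤ H →
  5 * N ^ 2 ≤ P → 2 ≤ L → 1 ≤ A → L ^ 300 * A ≤ M → M ≤ 2 * L ^ 300 * A → M ≤ N → 16 * L ^ 300 ≤ M →
  0 ≤ η → FlatL H η f →
  ∑ l ∈ Icc (-(4 * A * N : ℤ)) (4 * A * N : ℤ), ∑ b ∈ MajL P N M L, ‖ft (Fl f l) b‖ ^ 2 ≤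
    96 * (L : ℝ) ^ 324 * (A * N) * (P : ℝ) ^ 2 * (η + 64 * (L : ℝ) ^ 300 * H / (M * N)) ^ 2

/-- **FBM** (the minor frequencies of `St_BOX`); uses `St_MIN`, `St_ENB`, `Pool.Agent.BSQ.thm_FB`.
Proof.  `b ∉ MajL`: `Sl (b.val/P) ≤ M/(AL⁴)` by `St_MIN` (contrapositive; `|l| > l0` gives `4AN < L⁴|l|`), so, Cauchy-Schwarz in
`b` and then in `l`, Parseval (`St_FB` (6)), `St_ENB` with `Λ = 4AN` (`8AN + 1 ≤ P`), `|g| ≤ 1`: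
`∑_l P⁻¹∑_b .. ≤ (M/(AL⁴)) ∑_l ‖Fl f l‖₂ ‖Fl g (-l)‖₂ ≤ (M/(AL⁴)) ((8AN+3H)P)^{1/2} ((8AN+1)P)^{1/2} ≤ 9MNP/L⁴`
(`3H ≤ AN` because `HL⁴⁸⁰ ≤ NM ≤ 2L³⁰⁰AN`). -/
def St_FBM : Prop := ∀ k0 : ℕ, ∃ C : ℕ, ∀ L : ℕ, C ≤ L →
  ∀ (P H T N M n0 N1 A l0 : ℕ) [NeZero P] (f g : ZMod P → ℂ),
  P = H * T → 5 * N ^ 2 ≤ P → P ≤ 16 * N ^ 2 → L ^ C ≤ A → L ^ 300 * A ≤ M → M ≤ 2 * L ^ 300 * A →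
  L ^ 10 * M ≤ N → N ≤ A ^ k0 → 1 ≤ H → H * L ^ 480 ≤ N * M → n0 + N1 ≤ N → 4 * A * N < L ^ 4 * (l0 + 1) →
  (∀ l : ℕ, 1 ≤ l → l ≤ 16 * N ^ 2 → l.divisors.card ≤ L) → TileE H f → (∀ u, ‖g u‖ ≤ 1) →
  ∑ l ∈ (Icc (-(4 * A * N : ℤ)) (4 * A * N : ℤ)).filter (fun l : ℤ => (l0 : ℤ) < |l|),
    1 / (P : ℝ) * ∑ b ∈ univ.filter (fun b : ZMod P => b ∉ MajL P N M L),
      ‖ft (Fl f l) b‖ * ‖ft (Fl g (-l)) (-b)‖ * Sl n0 N1 M A l ((b.val : ℝ) / P) ≤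
    9 * M * N * P / (L : ℝ) ^ 4

/-- **FBJ** (the major frequencies of `St_BOX`); uses `St_CNT`, `St_MAJB`, `Pool.Agent.BSQ.thm_FB`.
Proof.  `Sl ≤ A⁻² ∑_d #Rl ≤ A⁻²·18 L L⁴ MA` (`St_CNT` (3), `G = 1`; `|l| ≤ 4AN ≤ 16N²`, `d(|l|) ≤ L`), and Cauchy-Schwarz:
`≤ 18L⁵(M/A) P⁻¹ (∑_l∑_{b∈MajL}|ft(Fl f l) b|²)^{1/2} (∑_l ∑_b |ft (Fl g (-l)) (-b)|²)^{1/2}`; by Parseval and `|g| ≤ 1` the last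
factor is `≤ ((8AN+1)P²)^{1/2} ≤ 3(AN)^{1/2}P`; by `St_MAJB` the first is `≤ 10L¹⁶²(AN)^{1/2}P(η+64L³⁰⁰H/(MN))
≤ 10L¹⁶²(AN)^{1/2}P·2L⁻¹⁷⁵`.  Product `≤ 1080 MNP/L⁸`. -/
def St_FBJ : Prop := ∃ C : ℕ, ∀ L : ℕ, C ≤ L →
  ∀ (P H T N M n0 N1 A l0 : ℕ) [NeZero P] (η : ℝ) (f g : ZMod P → ℂ),
  P = H * T → 5 * N ^ 2 ≤ P → P ≤ 16 * N ^ 2 → 1 ≤ A → L ^ 300 * A ≤ M → M ≤ 2 * L ^ 300 * A →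
  L ^ 301 ≤ M → L ^ 10 * M ≤ N → 1 ≤ H → H * L ^ 480 ≤ N * M → n0 + N1 ≤ N →
  4 * A * N < L ^ 4 * (l0 + 1) → 0 ≤ η → η ≤ 1 / (L : ℝ) ^ 175 →
  (∀ l : ℕ, 1 ≤ l → l ≤ 16 * N ^ 2 → l.divisors.card ≤ L) → FlatL H η f → (∀ u, ‖g u‖ ≤ 1) →
  ∑ l ∈ (Icc (-(4 * A * N : ℤ)) (4 * A * N : ℤ)).filter (fun l : ℤ => (l0 : ℤ) < |l|),
    1 / (P : ℝ) * ∑ b ∈ MajL P N M L,
      ‖ft (Fl f l) b‖ * ‖ft (Fl g (-l)) (-b)‖ * Sl n0 N1 M A l ((b.val : ℝ) / P) ≤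
    1080 * M * N * P / (L : ℝ) ^ 8

/-- **FBOX** (flat functions against a box); uses `St_BOX`, `St_SML`, `St_FBM`, `St_FBJ`, `St_ENB`.
Proof.  `c` from `St_FBM` for `2k0` (and the `C` of `St_FBJ`); `C = c + 700`.  `A = ⌊M/L³⁰⁰⌋`: `L³⁰⁰A ≤ M ≤ 2L³⁰⁰A`, `A ≥ L^c`,
`A² ≥ M` so `N ≤ M^{k0} ≤ A^{2k0}`; `A ≤ M, N1` so `(N1+A)(M+A) ≤ 4N1M`; `l0 = ⌊4AN/L⁴⌋`, `4AN < L⁴(l0+1)`.
`St_BOX` (`∑|f|² ≤ P` by `St_ENB`); divide by `P(N1M)²`.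
Small `l`: `St_SML`: `4((l0/n0+1)2A)/A² ≤ 4(8A/L³+1)(2/A) ≤ 65/L³` (`n0 ≥ N/(2L)`).  Minor `b`: `4N1M·9MNP/L⁴` gives
`36(N/N1)/L⁴ ≤ 72/L³`.  Major `b`: `4·1080(N/N1)/L⁸ ≤ 8640/L⁷ ≤ 1/L³`.  Total `≤ 200/L³`. -/
def St_FBOX : Prop := ∀ k0 : ℕ, ∃ C : ℕ, ∀ L : ℕ, C ≤ L →
  ∀ (P H T N M n0 N1 : ℕ) [NeZero P] (η : ℝ) (f g : ZMod P → ℂ),
  P = H * T → 5 * N ^ 2 ≤ P → P ≤ 16 * N ^ 2 → L ^ C ≤ M → L ^ 10 * M ≤ N → N ≤ M ^ k0 → 1 ≤ H →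
  H * L ^ 480 ≤ N * M → 0 ≤ η → η ≤ 1 / (L : ℝ) ^ 175 →
  (∀ l : ℕ, 1 ≤ l → l ≤ 16 * N ^ 2 → l.divisors.card ≤ L) → FlatL H η f → (∀ u, ‖g u‖ ≤ 1) →
  N ≤ 2 * L * n0 → N ≤ 2 * L * N1 → n0 + N1 ≤ N →
  ∑ y : ZMod P, ‖TB n0 N1 M f g y‖ ^ 2 ≤ 200 / (L : ℝ) ^ 3 * P * ((N1 : ℝ) * M) ^ 2

/-- **UNF** (flat functions are negligible against `rhoS N M`); uses `St_FBOX`, `St_NRM`, `St_ENB`.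
Proof.  The `C` of `St_FBOX` (at least `400`).  `N1 = ⌊N/L⌋ ≥ N/(2L)`, `r = ⌊N/N1⌋`, blocks `(iN1, (i+1)N1]`, `1 ≤ i < r`,
`n0 = iN1`.  `Tr (2N²+1) (rhoS N M) f g y = (2/(N²M)) ∑_{n≤N} n ∑_{m≤M} f(y+n²+m²) g(y-n²-m²)`.  Replace the weight `n` by
`n0` on each block: the error is `Tr` of a measure of total variation `≤ (2/(N²M)) N·N1·M ≤ 2/L`; the `n` outside the
blocks (`n ≤ N1` or `n > rN1`, fewer than `N1` of the latter) have mass `≤ (2/(N²M)) M(N1² + N N1) ≤ 4/L`; by `St_NRM`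
(last part, with `n2 f ≤ 1` from `St_ENB`) these cost `≤ 6/L`.  For a block, `n2` of `(2n0/(N²M)) TB` is at most
`(2n0/(N²M)) N1M (200/L³)^{1/2}`, sum over the blocks `≤ (2/N²)(∑ iN1²)·15/L^{3/2} ≤ 2·15/L^{3/2} ≤ 2/L` (`L ≥ 400`). -/
def St_UNF : Prop := ∀ k0 : ℕ, ∃ C : ℕ, ∀ L : ℕ, C ≤ L →
  ∀ (P H T N M : ℕ) [NeZero P] (η : ℝ) (f g : ZMod P → ℂ),
  P = H * T → 5 * N ^ 2 ≤ P → P ≤ 16 * N ^ 2 → L ^ C ≤ M → L ^ 10 * M ≤ N → N ≤ M ^ k0 → 1 ≤ H →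
  H * L ^ 480 ≤ N * M → 0 ≤ η → η ≤ 1 / (L : ℝ) ^ 175 →
  (∀ l : ℕ, 1 ≤ l → l ≤ 16 * N ^ 2 → l.divisors.card ≤ L) → FlatL H η f → (∀ u, ‖g u‖ ≤ 1) →
  n2 (Tr (P := P) (2 * N ^ 2 + 1) (rhoS N M) f g) ≤ 8 / L

/-- **UNG** (the same with the roles of `f` and `g` exchanged); uses `St_UNF`.
Proof.  `f~(u) = g(-1-u)`, `g~(u) = f(-1-u)`: `Tr X ρ f~ g~ y = ∑ρ(k) g(-1-y-k) f(-1-y+k) = Tr X ρ f g (-1-y)`, so the `n2`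
are equal.  `(-1-u).val = P-1-u.val` and `(P-1-v)/H = T-1-v/H` (`P = HT`), so the reflection maps tiles to tiles,
`fh H f~ z t = ch(z) 1 · fh H g (-z) (T-1-t)` for `t < T` (and `0` for `t ≥ T`): `FlatL H η f~`. -/
def St_UNG : Prop := ∀ k0 : ℕ, ∃ C : ℕ, ∀ L : ℕ, C ≤ L →
  ∀ (P H T N M : ℕ) [NeZero P] (η : ℝ) (f g : ZMod P → ℂ),
  P = H * T → 5 * N ^ 2 ≤ P → P ≤ 16 * N ^ 2 → L ^ C ≤ M → L ^ 10 * M ≤ N → N ≤ M ^ k0 → 1 ≤ H →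
  H * L ^ 480 ≤ N * M → 0 ≤ η → η ≤ 1 / (L : ℝ) ^ 175 →
  (∀ l : ℕ, 1 ≤ l → l ≤ 16 * N ^ 2 → l.divisors.card ≤ L) → FlatL H η g → (∀ u, ‖f u‖ ≤ 1) →
  n2 (Tr (P := P) (2 * N ^ 2 + 1) (rhoS N M) f g) ≤ 8 / L

/-- **STRL** (local structure lemma).
Proof.  In each tile `t` separately (at most `H` points).  While some `z` has `|fh H f' z t| > ηH` put
`c = fh H f' z t/H` (`|c| ≤ 1` because `|fh|² ≤ H ∑_{tile}|f'|² ≤ H²`) and replace `f'` by `f' - c ch z` on the tile: the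
energy of the tile becomes at most `∑|f'|² - 2|fh|²/H + |fh|²/H ≤ ∑|f'|² - η²H`.  It was at most `H` at the start, so
fewer than `η^{-2}` steps; pad with `c = 0` up to `I = ⌊η^{-2}⌋`.  (Compare `Pool.Agent.BSQ.thm_STRUCT`.) -/
def St_STRL : Prop := ∀ (P H : ℕ) [NeZero P] (η : ℝ) (f : ZMod P → ℂ), 1 ≤ H → 0 < η → η ≤ 1 →
  TileE H f → ∃ (I : ℕ) (z : ℕ → ℕ → ZMod P) (c : ℕ → ℕ → ℂ) (f' : ZMod P → ℂ), (I : ℝ) ≤ 1 / η ^ 2 ∧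
    (∀ i t, ‖c i t‖ ≤ 1) ∧ FlatL H η f' ∧
    ∀ u : ZMod P, f u = f' u + ∑ i ∈ range I, c i (tl H u) * ch (z i (tl H u)) u

end Pool.Agent.BSR
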