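import Pool.Agent.BSR.StB

/-!
# BSR, statements, part C (systems, almost everywhere)
-/

set_option autoImplicit false

namespace Pool.Agent.BSR

open Finset MeasureTheory Filter Topology Pool.Agent.BSQ
open scoped BigOperators
open Classical

/-- **PWN** (power saving for strips, full range); uses `St_FS0`, `Pool.Agent.BSQ.thm_TRF`, `thm_RWF` and the divisor
bound `Pool.Agent.Helper88.MD.divisorBound`.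
Proof.  `k0 = ⌈1/c0⌉`, `C0` from `St_FS0`, `κ1 = c0/(2(C0+1))`, `δ0 = κ1/2`, `B = ⌈2/κ1⌉`, `L = ⌊N^{κ1}⌋`.  For `N ≥ N0` and
`M ≤ M'`: `L^{C0} ≤ N^{c0/2} ≤ M`, `L^{C0}M' ≤ N`, `M' ≤ N^{δ0}M ≤ LM`, `N ≤ M^{k0}`, `N ≤ L^B`, divisors `≤ L`.  For small `N`:
`|WF| ≤ 2`. -/
def St_PWN : Prop := ∀ c0 : ℝ, 0 < c0 → c0 < 1 / 2 → ∃ δ0 κ C : ℝ, 0 < δ0 ∧ 0 < κ ∧ 0 < C ∧
  ∀ (X : Type) [MeasurableSpace X] (μ : Measure X)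
    [IsProbabilityMeasure μ] (T : X ≃ᵐ X), MeasurePreserving (⇑T) μ μ → ∀ f g : X → ℝ,
    Measurable f → Measurable g → (∀ x, |f x| ≤ 1) → (∀ x, |g x| ≤ 1) →
    ∀ c1 c2 : ℝ, c0 ≤ c1 → c1 ≤ c2 → c2 ≤ 1 - c0 → c2 - c1 ≤ δ0 → ∀ N M M' : ℕ, 1 ≤ N →
    (N : ℝ) ^ c1 ≤ M → (M : ℝ) ≤ (N : ℝ) ^ c2 → (N : ℝ) ^ c1 ≤ M' → (M' : ℝ) ≤ (N : ℝ) ^ c2 →
    ∫ x, (WF (FT T f g x) N M - WF (FT T f g x) N M') ^ 2 ∂μ ≤ C * (N : ℝ) ^ (-κ)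

/-- **AEN** (almost everywhere, strips, short ranges of exponents); uses `St_PWN`, `St_INT`. -/
def St_AEN : Prop := ∀ c0 : ℝ, 0 < c0 → c0 < 1 / 2 → ∃ δ0 : ℝ, 0 < δ0 ∧
  ∀ (X : Type) [MeasurableSpace X] (μ : Measure X) [IsProbabilityMeasure μ]
  (T : X ≃ᵐ X), MeasurePreserving (⇑T) μ μ → ∀ f g : X → ℝ, Measurable f → Measurable g →
  (∀ x, |f x| ≤ 1) → (∀ x, |g x| ≤ 1) → ∀ c1 c2 : ℝ, c0 ≤ c1 → c1 ≤ c2 → c2 ≤ 1 - c0 → c2 - c1 ≤ δ0 →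
  ∀ᵐ x ∂μ, UnifW (FT T f g x) c1 c2

/-- **CHM** (chain; deterministic). -/
def St_CHM : Prop := ∀ (F : ℕ → ℝ) (δ0 : ℕ → ℝ), (∀ n, 0 < δ0 n) →
  (∀ (n : ℕ) (q1 q2 : ℚ), 1 / ((n : ℝ) + 3) ≤ q1 → (q1 : ℝ) ≤ q2 → (q2 : ℝ) ≤ 1 - 1 / ((n : ℝ) + 3) →
    (q2 : ℝ) - q1 ≤ δ0 n → UnifW F q1 q2) →
  ∀ c1 c2 : ℝ, 0 < c1 → c1 ≤ c2 → c2 < 1 → UnifW F c1 c2

end Pool.Agent.BSR
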